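import Pool.Agent.Lib.TW.Defs

/-!
# TW / Ab: the amplitude
-/

set_option autoImplicit false

open MeasureTheory

namespace Pool.Agent.Lib.TW

private def PD (a : ℝ) (f : ℝ → ℂ) : Prop :=
  ∃ f1 f2 : ℝ → ℂ, ∀ y : ℝ, 0 < y → HasDerivAt f (f1 y) y ∧ HasDerivAt f1 (f2 y) y ∧ ‖f y‖ ≤ a ∧ ‖f1 y‖ ≤ a / y ∧ ‖f2 y‖ ≤ a / y ^ 2

private theorem PD.nonneg {a : ℝ} {f : ℝ → ℂ} (h : PD a f) : 0 ≤ a := by
  obtain ⟨f1, f2, h⟩ := h
  exact (norm_nonneg _).trans (h 1 one_pos).2.2.1

private theorem PD.mul {a b : ℝ} {f g : ℝ → ℂ} (hf : PD a f) (hg : PD b g) :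
    PD (4 * (a * b)) (fun y => f y * g y) := by
  have ha := hf.nonneg
  have hb := hg.nonneg
  obtain ⟨f1, f2, hf⟩ := hf
  obtain ⟨g1, g2, hg⟩ := hg
  refine ⟨fun y => f1 y * g y + f y * g1 y, fun y => (f2 y * g y + f1 y * g1 y) + (f1 y * g1 y + f y * g2 y), fun y hy => ?_⟩
  obtain ⟨p1, p2, p3, p4, p5⟩ := hf y hy
  obtain ⟨q1, q2, q3, q4, q5⟩ := hg y hy
  have hab : 0 ≤ a * b := mul_nonneg ha hb
  have hay : 0 ≤ a / y := by positivity
  have hby : 0 ≤ b / y := by positivity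
  have hay2 : 0 ≤ a / y ^ 2 := by positivity
  refine ⟨p1.mul q1, (p2.mul q1).add (p1.mul q2), ?_, ?_, ?_⟩
  · rw [norm_mul]
    have := mul_le_mul p3 q3 (norm_nonneg _) ha
    linarith
  · have e1 : ‖f1 y * g y‖ ≤ (a / y) * b := by
      rw [norm_mul]
      exact mul_le_mul p4 q3 (norm_nonneg _) hay
    have e2 : ‖f y * g1 y‖ ≤ a * (b / y) := by
      rw [norm_mul]
      exact mul_le_mul p3 q4 (norm_nonneg _) ha
    have e3 := norm_add_le (f1 y * g y) (f y * g1 y)
    have e4 : 4 * (a * b) / y = (a / y) * b + a * (b / y) + 2 * ((a * b) / y) := by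
      field_simp
      ring
    have e5 : 0 ≤ a * b / y := by positivity
    rw [e4]
    linarith
  · have e1 : ‖f2 y * g y‖ ≤ (a / y ^ 2) * b := by
      rw [norm_mul]
      exact mul_le_mul p5 q3 (norm_nonneg _) hay2
    have e2 : ‖f y * g2 y‖ ≤ a * (b / y ^ 2) := by
      rw [norm_mul]
      exact mul_le_mul p3 q5 (norm_nonneg _) ha
    have e3 : ‖f1 y * g1 y‖ ≤ (a / y) * (b / y) := by
      rw [norm_mul]
      exact mul_le_mul p4 q4 (norm_nonneg _) hay
    have e4 := norm_add_le (f2 y * g y + f1 y * g1 y) (f1 y * g1 y + f y * g2 y)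
    have e5 := norm_add_le (f2 y * g y) (f1 y * g1 y)
    have e6 := norm_add_le (f1 y * g1 y) (f y * g2 y)
    have e7 : 4 * (a * b) / y ^ 2 = (a / y ^ 2) * b + (a / y) * (b / y) + ((a / y) * (b / y) + a * (b / y ^ 2)) := by
      field_simp
      ring
    rw [e7]
    linarith

private theorem PD.mono {a b : ℝ} {f : ℝ → ℂ} (hf : PD a f) (hab : a ≤ b) : PD b f := by
  obtain ⟨f1, f2, hf⟩ := hf
  refine ⟨f1, f2, fun y hy => ?_⟩
  obtain ⟨p1, p2, p3, p4, p5⟩ := hf y hy
  exact ⟨p1, p2, p3.trans hab, p4.trans (div_le_div_of_nonneg_right hab hy.le),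
    p5.trans (div_le_div_of_nonneg_right hab (by positivity))⟩

private theorem ch_deriv (v : ℝ) {y : ℝ} (hy : 0 < y) :
    HasDerivAt (fun y => ch y v) (ch y v * (((v / y : ℝ) : ℂ) * Complex.I)) y := by
  unfold ch
  have h1 : HasDerivAt (fun y : ℝ => v * Real.log y) (v / y) y := by
    have := (Real.hasDerivAt_log hy.ne').const_mul v
    rwa [← div_eq_mul_inv] at this
  have h2 := (h1.ofReal_comp.mul_const Complex.I).cexp
  exact h2

private theorem inv_deriv (v : ℝ) {y : ℝ} (hy : 0 < y) :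
    HasDerivAt (fun y : ℝ => (((v / y : ℝ) : ℂ) * Complex.I)) (((-(v / y ^ 2) : ℝ) : ℂ) * Complex.I) y := by
  have h1 : HasDerivAt (fun y : ℝ => v / y) (-(v / y ^ 2)) y := by
    have := (hasDerivAt_inv hy.ne').const_mul v
    have e : v * -(y ^ 2)⁻¹ = -(v / y ^ 2) := by
      rw [div_eq_mul_inv]
      ring
    rw [e] at this
    simpa only [div_eq_mul_inv] using this
  exact h1.ofReal_comp.mul_const Complex.I

private theorem ch_bd (v y : ℝ) (z : ℝ) (hy : 0 < y) (hz : y ≤ z) :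
    ‖ch z v‖ ≤ (1 + |v|) ^ 2 ∧ ‖ch z v * (((v / z : ℝ) : ℂ) * Complex.I)‖ ≤ (1 + |v|) ^ 2 / y ∧
      ‖(ch z v * (((v / z : ℝ) : ℂ) * Complex.I)) * (((v / z : ℝ) : ℂ) * Complex.I) +
        ch z v * (((-(v / z ^ 2) : ℝ) : ℂ) * Complex.I)‖ ≤ (1 + |v|) ^ 2 / y ^ 2 := by
  have hv := abs_nonneg v
  have hz0 : 0 < z := lt_of_lt_of_le hy hz
  have n1 : ‖(((v / z : ℝ) : ℂ) * Complex.I)‖ = |v| / z := by
    rw [norm_mul, Complex.norm_I, mul_one, Complex.norm_real, Real.norm_eq_abs, abs_div, abs_of_pos hz0]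
  have n2 : ‖(((-(v / z ^ 2) : ℝ) : ℂ) * Complex.I)‖ = |v| / z ^ 2 := by
    rw [norm_mul, Complex.norm_I, mul_one, Complex.norm_real, Real.norm_eq_abs, abs_neg, abs_div,
      abs_of_pos (by positivity : (0 : ℝ) < z ^ 2)]
  have hle1 : |v| / z ≤ |v| / y := div_le_div_of_nonneg_left hv hy hz
  have hle2 : |v| / z ^ 2 ≤ |v| / y ^ 2 :=
    div_le_div_of_nonneg_left hv (by positivity) (pow_le_pow_left₀ hy.le hz 2)
  refine ⟨?_, ?_, ?_⟩
  · rw [norm_ch]
    nlinarith
  · rw [norm_mul, norm_ch, one_mul, n1]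
    refine hle1.trans (div_le_div_of_nonneg_right (by nlinarith) hy.le)
  · refine (norm_add_le _ _).trans ?_
    have m1 : ‖(ch z v * (((v / z : ℝ) : ℂ) * Complex.I)) * (((v / z : ℝ) : ℂ) * Complex.I)‖ = |v| / z * (|v| / z) := by
      rw [norm_mul (ch z v * _) _, norm_mul (ch z v) _, norm_ch, one_mul, n1]
    have m2 : ‖ch z v * (((-(v / z ^ 2) : ℝ) : ℂ) * Complex.I)‖ = |v| / z ^ 2 := by
      rw [norm_mul (ch z v) _, norm_ch, one_mul, n2]
    rw [m1, m2]
    have h3 : |v| / z * (|v| / z) ≤ |v| / y * (|v| / y) :=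
      mul_le_mul hle1 hle1 (by positivity) (by positivity)
    have h4 : (1 + |v|) ^ 2 / y ^ 2 = |v| / y * (|v| / y) + |v| / y ^ 2 + (1 + |v|) / y ^ 2 := by
      field_simp
      ring
    rw [h4]
    have h5 : 0 ≤ (1 + |v|) / y ^ 2 := by positivity
    linarith

private theorem pd_ch (v : ℝ) : PD ((1 + |v|) ^ 2) (fun y => ch y v) := by
  refine ⟨fun y => ch y v * (((v / y : ℝ) : ℂ) * Complex.I),
    fun y => (ch y v * (((v / y : ℝ) : ℂ) * Complex.I)) * (((v / y : ℝ) : ℂ) * Complex.I) +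
        ch y v * (((-(v / y ^ 2) : ℝ) : ℂ) * Complex.I), fun y hy => ?_⟩
  obtain ⟨b1, b2, b3⟩ := ch_bd v y y hy le_rfl
  exact ⟨ch_deriv v hy, (ch_deriv v hy).mul (inv_deriv v hy), b1, b2, b3⟩

private theorem pd_ch1 (v : ℝ) : PD ((1 + |v|) ^ 2) (fun y => ch (1 + y) v) := by
  refine ⟨fun y => ch (1 + y) v * (((v / (1 + y) : ℝ) : ℂ) * Complex.I),
    fun y => (ch (1 + y) v * (((v / (1 + y) : ℝ) : ℂ) * Complex.I)) * (((v / (1 + y) : ℝ) : ℂ) * Complex.I) +
        ch (1 + y) v * (((-(v / (1 + y) ^ 2) : ℝ) : ℂ) * Complex.I), fun y hy => ?_⟩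
  obtain ⟨b1, b2, b3⟩ := ch_bd v y (1 + y) hy (by linarith)
  have hy1 : 0 < 1 + y := by linarith
  have d1 : HasDerivAt (fun y => ch (1 + y) v) (ch (1 + y) v * (((v / (1 + y) : ℝ) : ℂ) * Complex.I)) y :=
    (ch_deriv v hy1).comp_const_add 1 y
  have d2 : HasDerivAt (fun y : ℝ => (((v / (1 + y) : ℝ) : ℂ) * Complex.I)) (((-(v / (1 + y) ^ 2) : ℝ) : ℂ) * Complex.I) y :=
    (inv_deriv v hy1).comp_const_add 1 y
  exact ⟨d1, d1.mul d2, b1, b2, b3⟩

private theorem rho_contDiff : ContDiff ℝ 2 rho := by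
  unfold rho
  have h : ContDiff ℝ 2 Real.smoothTransition := Real.smoothTransition.contDiff
  exact (h.comp ((contDiff_const.mul contDiff_id).sub contDiff_const)).mul
    (h.comp (contDiff_const.sub (contDiff_id.div_const 4)))

private theorem rho_zero {x : ℝ} (hx : x ≤ 1 / 8 ∨ 8 ≤ x) : rho x = 0 := by
  unfold rho
  rcases hx with hx | hx
  · rw [Real.smoothTransition.zero_of_nonpos (by linarith), zero_mul]
  · rw [Real.smoothTransition.zero_of_nonpos (x := 2 - x / 4) (by linarith), mul_zero]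

private theorem rho_supp : HasCompactSupport rho := by
  apply HasCompactSupport.intro (K := Set.Icc (1 / 8 : ℝ) 8) isCompact_Icc
  intro x hx
  apply rho_zero
  rw [Set.mem_Icc, not_and_or] at hx
  rcases hx with hx | hx
  · left
    linarith
  · right
    linarith

private theorem rho_bounds : ∃ C : ℝ, 0 ≤ C ∧ ∀ x : ℝ, |rho x| ≤ C ∧ |x * deriv rho x| ≤ C ∧ |x ^ 2 * deriv (deriv rho) x| ≤ C := by
  have c0 : Continuous rho := rho_contDiff.continuous
  have h1 : ContDiff ℝ 1 (deriv rho) := by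
    have := rho_contDiff
    rw [show (2 : WithTop ℕ∞) = 1 + 1 by norm_num, contDiff_succ_iff_deriv] at this
    exact this.2.2
  have c1 : Continuous (deriv rho) := h1.continuous
  have c2 : Continuous (deriv (deriv rho)) := h1.continuous_deriv le_rfl
  have s1 : HasCompactSupport (deriv rho) := rho_supp.deriv
  have s2 : HasCompactSupport (deriv (deriv rho)) := s1.deriv
  obtain ⟨C0, hC0⟩ := rho_supp.exists_bound_of_continuous c0
  obtain ⟨C1, hC1⟩ := (s1.mul_left (f := fun x : ℝ => x)).exists_bound_of_continuous (continuous_id.mul c1)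
  obtain ⟨C2, hC2⟩ := (s2.mul_left (f := fun x : ℝ => x ^ 2)).exists_bound_of_continuous ((continuous_id.pow 2).mul c2)
  refine ⟨max 0 (max C0 (max C1 C2)), le_max_left _ _, fun x => ⟨?_, ?_, ?_⟩⟩
  · exact (hC0 x).trans ((le_max_left _ _).trans (le_max_right _ _))
  · exact (hC1 x).trans ((le_max_left _ _).trans ((le_max_right _ _).trans (le_max_right _ _)))
  · exact (hC2 x).trans ((le_max_right _ _).trans ((le_max_right _ _).trans (le_max_right _ _)))

private theorem pd_rho {C : ℝ} (hC : ∀ x : ℝ, |rho x| ≤ C ∧ |x * deriv rho x| ≤ C ∧ |x ^ 2 * deriv (deriv rho) x| ≤ C)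
    {Y : ℝ} (hY : 0 < Y) : PD C (fun y => ((rho (y / Y) : ℝ) : ℂ)) := by
  have h1 : ContDiff ℝ 1 (deriv rho) := by
    have := rho_contDiff
    rw [show (2 : WithTop ℕ∞) = 1 + 1 by norm_num, contDiff_succ_iff_deriv] at this
    exact this.2.2
  refine ⟨fun y => ((deriv rho (y / Y) * (1 / Y) : ℝ) : ℂ), fun y => ((deriv (deriv rho) (y / Y) * (1 / Y) * (1 / Y) : ℝ) : ℂ),
    fun y hy => ?_⟩
  obtain ⟨b0, b1, b2⟩ := hC (y / Y)
  have dl : HasDerivAt (fun y : ℝ => y / Y) (1 / Y) y := (hasDerivAt_id y).div_const Y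
  have g0 : HasDerivAt rho (deriv rho (y / Y)) (y / Y) := ((rho_contDiff.differentiable (by norm_num)) (y / Y)).hasDerivAt
  have g1 : HasDerivAt (deriv rho) (deriv (deriv rho) (y / Y)) (y / Y) := ((h1.differentiable (by norm_num)) (y / Y)).hasDerivAt
  have d0 : HasDerivAt (fun y : ℝ => rho (y / Y)) (deriv rho (y / Y) * (1 / Y)) y := HasDerivAt.comp (h := fun y : ℝ => y / Y) y g0 dl
  have d1' : HasDerivAt (fun y : ℝ => deriv rho (y / Y)) (deriv (deriv rho) (y / Y) * (1 / Y)) y := HasDerivAt.comp (h := fun y : ℝ => y / Y) y g1 dl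
  have d1 : HasDerivAt (fun y : ℝ => deriv rho (y / Y) * (1 / Y)) (deriv (deriv rho) (y / Y) * (1 / Y) * (1 / Y)) y :=
    d1'.mul_const (1 / Y)
  have hyY : 0 < y / Y := by positivity
  refine ⟨d0.ofReal_comp, d1.ofReal_comp, ?_, ?_, ?_⟩
  · rw [Complex.norm_real]
    exact b0
  · rw [Complex.norm_real, Real.norm_eq_abs, le_div_iff₀ hy]
    calc |deriv rho (y / Y) * (1 / Y)| * y = |deriv rho (y / Y) * (1 / Y)| * |y| := by rw [abs_of_pos hy]
      _ = |y / Y * deriv rho (y / Y)| := by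
          rw [← abs_mul]
          congr 1
          field_simp
      _ ≤ C := b1
  · rw [Complex.norm_real, Real.norm_eq_abs, le_div_iff₀ (by positivity)]
    calc |deriv (deriv rho) (y / Y) * (1 / Y) * (1 / Y)| * y ^ 2
        = |deriv (deriv rho) (y / Y) * (1 / Y) * (1 / Y)| * |y ^ 2| := by rw [abs_of_pos (by positivity : (0 : ℝ) < y ^ 2)]
      _ = |(y / Y) ^ 2 * deriv (deriv rho) (y / Y)| := by
          rw [← abs_mul]
          congr 1
          field_simp
      _ ≤ C := b2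

private theorem xexp (x : ℝ) (hx : 0 ≤ x) : x * Real.exp (-x) ≤ 1 ∧ x ^ 2 * Real.exp (-x) ≤ 2 := by
  have h1 := Real.quadratic_le_exp_of_nonneg hx
  have h2 : Real.exp (-x) * Real.exp x = 1 := by rw [← Real.exp_add]; simp
  have h3 := Real.exp_pos (-x)
  constructor
  · nlinarith [mul_le_mul_of_nonneg_left h1 h3.le]
  · nlinarith [mul_le_mul_of_nonneg_left h1 h3.le]

private theorem pd_gs (G : ℝ) : PD 14 (fun y => ((gs G (1 + 1 / y) : ℝ) : ℂ)) := by
  set a : ℝ := G ^ 2 / (4 * Real.pi) with ha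
  have ha0 : 0 ≤ a := by positivity
  set l : ℝ → ℝ := fun y => Real.log (1 + 1 / y) with hl
  set l1 : ℝ → ℝ := fun y => -(1 / (y * (y + 1))) with hl1
  set l2 : ℝ → ℝ := fun y => (2 * y + 1) / (y * (y + 1)) ^ 2 with hl2
  have hg : ∀ y, gs G (1 + 1 / y) = Real.exp (-(a * l y ^ 2)) := by
    intro y
    unfold gs
    congr 1
    rw [ha, hl]
    ring
  have hG : (fun y => ((gs G (1 + 1 / y) : ℝ) : ℂ)) = fun y => ((Real.exp (-(a * l y ^ 2)) : ℝ) : ℂ) := by
    funext y
    rw [hg]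
  rw [hG]
  have dl : ∀ y, 0 < y → HasDerivAt l (l1 y) y := by
    intro y hy
    have h1 : HasDerivAt (fun y : ℝ => 1 + 1 / y) (-(1 / y ^ 2)) y := by
      have := (hasDerivAt_inv hy.ne').const_add 1
      simpa only [one_div] using this
    have h2 := h1.log (by positivity)
    have e : -(1 / y ^ 2) / (1 + 1 / y) = l1 y := by
      rw [hl1]
      field_simp
    rw [e] at h2
    exact h2
  have dl1 : ∀ y, 0 < y → HasDerivAt l1 (l2 y) y := by
    intro y hy
    have h1 : HasDerivAt (fun y : ℝ => y * (y + 1)) (1 * (y + 1) + y * 1) y :=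
      (hasDerivAt_id y).mul ((hasDerivAt_id y).add_const 1)
    have h2 := (h1.fun_inv (by positivity)).neg
    have e : -(-(1 * (y + 1) + y * 1) / (y * (y + 1)) ^ 2) = l2 y := by
      rw [hl2]
      ring
    rw [e] at h2
    have e2 : l1 = fun y : ℝ => -(y * (y + 1))⁻¹ := by
      rw [hl1]
      funext z
      rw [one_div]
    rw [e2]
    exact h2
  have hllow : ∀ y, 0 < y → 1 / (y + 1) ≤ l y := by
    intro y hy
    have h1 := Real.one_sub_inv_le_log_of_pos (x := 1 + 1 / y) (by positivity)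
    have e : 1 - (1 + 1 / y)⁻¹ = 1 / (y + 1) := by
      field_simp
      ring
    rw [e] at h1
    exact h1
  refine ⟨fun y => ((Real.exp (-(a * l y ^ 2)) * (-(a * (2 * l y * l1 y))) : ℝ) : ℂ),
    fun y => ((Real.exp (-(a * l y ^ 2)) * (-(a * (2 * l y * l1 y))) * (-(a * (2 * l y * l1 y))) +
      Real.exp (-(a * l y ^ 2)) * (-(a * (2 * (l1 y * l1 y) + 2 * (l y * l2 y)))) : ℝ) : ℂ), fun y hy => ?_⟩
  have d1 := dl y hy
  have d2 := dl1 y hy
  have dsq : HasDerivAt (fun y => -(a * l y ^ 2)) (-(a * (2 * l y * l1 y))) y := by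
    have h := ((d1.fun_pow 2).const_mul a).neg
    have e : -(a * ((2 : ℕ) * l y ^ (2 - 1) * l1 y)) = -(a * (2 * l y * l1 y)) := by norm_num
    rw [e] at h
    exact h
  have dexp := dsq.exp
  have din : HasDerivAt (fun y => -(a * (2 * l y * l1 y))) (-(a * (2 * (l1 y * l1 y) + 2 * (l y * l2 y)))) y := by
    have h := (((d1.const_mul 2).mul d2).const_mul a).neg
    have e : -(a * (2 * l1 y * l1 y + 2 * l y * l2 y)) = -(a * (2 * (l1 y * l1 y) + 2 * (l y * l2 y))) := by ring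
    rw [e] at h
    exact h
  have L0 : 0 < l y := lt_of_lt_of_le (by positivity) (hllow y hy)
  have L1 : |l1 y| ≤ l y / y := by
    rw [hl1]
    simp only
    rw [abs_neg, abs_of_pos (by positivity), le_div_iff₀ hy]
    have e : 1 / (y * (y + 1)) * y = 1 / (y + 1) := by field_simp
    rw [e]
    exact hllow y hy
  have L2 : |l2 y| ≤ 2 * (l y / y ^ 2) := by
    rw [hl2]
    simp only
    rw [abs_of_pos (by positivity)]
    have e1 : (2 * y + 1) / (y * (y + 1)) ^ 2 ≤ 2 * (1 / (y + 1) / y ^ 2) := by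
      rw [div_le_iff₀ (by positivity)]
      have : 2 * (1 / (y + 1) / y ^ 2) * (y * (y + 1)) ^ 2 = 2 * (y + 1) := by field_simp
      rw [this]
      linarith
    refine e1.trans ?_
    have := hllow y hy
    gcongr
  set X : ℝ := a * l y ^ 2 with hX
  have hX0 : 0 ≤ X := by positivity
  obtain ⟨x1, x2⟩ := xexp X hX0
  have hE := Real.exp_pos (-X)
  have hE1 : Real.exp (-X) ≤ 1 := Real.exp_le_one_iff.2 (by linarith)
  have M1 : |a * (2 * l y * l1 y)| ≤ 2 * X / y := by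
    rw [abs_mul, abs_mul, abs_mul, abs_of_nonneg ha0, abs_of_pos L0, abs_of_pos (by norm_num : (0 : ℝ) < 2)]
    calc a * (2 * l y * |l1 y|) ≤ a * (2 * l y * (l y / y)) := by gcongr
      _ = 2 * X / y := by
        rw [hX]
        ring
  have M2 : |a * (2 * (l1 y * l1 y) + 2 * (l y * l2 y))| ≤ 6 * X / y ^ 2 := by
    rw [abs_mul, abs_of_nonneg ha0]
    have m1 : |2 * (l1 y * l1 y) + 2 * (l y * l2 y)| ≤ 2 * (|l1 y| * |l1 y|) + 2 * (l y * |l2 y|) := by
      refine (abs_add_le _ _).trans ?_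
      rw [abs_mul, abs_mul, abs_mul, abs_mul, abs_of_pos L0, abs_of_pos (by norm_num : (0 : ℝ) < 2)]
    have m2 : |l1 y| * |l1 y| ≤ (l y / y) * (l y / y) := mul_le_mul L1 L1 (abs_nonneg _) (by positivity)
    have m3 : l y * |l2 y| ≤ l y * (2 * (l y / y ^ 2)) := mul_le_mul_of_nonneg_left L2 L0.le
    calc a * |2 * (l1 y * l1 y) + 2 * (l y * l2 y)| ≤ a * (2 * ((l y / y) * (l y / y)) + 2 * (l y * (2 * (l y / y ^ 2)))) := by
          apply mul_le_mul_of_nonneg_left _ ha0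
          linarith
      _ = 6 * X / y ^ 2 := by
        rw [hX]
        field_simp
        ring
  refine ⟨dexp.ofReal_comp, ((dexp.mul din)).ofReal_comp, ?_, ?_, ?_⟩
  · rw [Complex.norm_real, Real.norm_eq_abs, abs_of_pos hE]
    linarith
  · rw [Complex.norm_real, Real.norm_eq_abs, abs_mul, abs_of_pos hE, abs_neg]
    calc Real.exp (-X) * |a * (2 * l y * l1 y)| ≤ Real.exp (-X) * (2 * X / y) := mul_le_mul_of_nonneg_left M1 hE.le
      _ = 2 * (X * Real.exp (-X)) / y := by ring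
      _ ≤ 14 / y := by
        apply div_le_div_of_nonneg_right _ hy.le
        linarith
  · rw [Complex.norm_real, Real.norm_eq_abs]
    refine (abs_add_le _ _).trans ?_
    rw [abs_mul, abs_mul, abs_mul, abs_of_pos hE, abs_neg, abs_neg]
    have m1 : Real.exp (-X) * |a * (2 * l y * l1 y)| * |a * (2 * l y * l1 y)| ≤ Real.exp (-X) * (2 * X / y) * (2 * X / y) := by
      gcongr
    have m2 : Real.exp (-X) * |a * (2 * (l1 y * l1 y) + 2 * (l y * l2 y))| ≤ Real.exp (-X) * (6 * X / y ^ 2) :=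
      mul_le_mul_of_nonneg_left M2 hE.le
    calc Real.exp (-X) * |a * (2 * l y * l1 y)| * |a * (2 * l y * l1 y)| +
          Real.exp (-X) * |a * (2 * (l1 y * l1 y) + 2 * (l y * l2 y))|
        ≤ Real.exp (-X) * (2 * X / y) * (2 * X / y) + Real.exp (-X) * (6 * X / y ^ 2) := add_le_add m1 m2
      _ = (4 * (X ^ 2 * Real.exp (-X)) + 6 * (X * Real.exp (-X))) / y ^ 2 := by
        field_simp
        ring
      _ ≤ 14 / y ^ 2 := by
        apply div_le_div_of_nonneg_right _ (by positivity)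
        linarith

private theorem ch_contDiffAt (v : ℝ) {y : ℝ} (hy : 0 < y) : ContDiffAt ℝ 2 (fun y => ch y v) y := by
  unfold ch
  have h1 : ContDiffAt ℝ 2 (fun y : ℝ => v * Real.log y) y :=
    contDiffAt_const.mul (Real.contDiffAt_log.2 hy.ne')
  have h2 : ContDiffAt ℝ 2 (fun y : ℝ => ((v * Real.log y : ℝ) : ℂ)) y :=
    Complex.ofRealCLM.contDiff.contDiffAt.comp y h1
  exact (h2.mul contDiffAt_const).cexp

/-- PROOF. On `y > 0` the function is a product of smooth functions and it vanishes for `y ≤ Y/8` (`rho`), so it is smooth.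
`|rho'|, |rho''| ≤ C`, so the derivatives of `rho (y/Y)` are `≤ C/Y`, `≤ C/Y²`.  With `l = log(1+1/y) ≥ 1/(1+y)`, `l' = -1/(y(y+1))`:
`gs = e^(-G²l²/4π)`, `gs' = -(G² l l'/2π) gs`, so `|gs'| ≤ C/(y(y+1) l) ≤ C/y` because `x e^(-x/4π)` is bounded for `x = G²l²`; in the
same way `|gs''| ≤ C/y²`.  `ch y v`: derivatives `|v|/y`, `(|v|+|v|²)/y²`; `ch (1+y) v'` the same with `1 + y ≥ y`.  `y ≥ Y/8` on the
support. -/
theorem amp_am2 : ∃ C : ℝ, 0 ≤ C ∧ ∀ Y : ℝ, 1 / 4 ≤ Y → ∀ G : ℝ, 0 < G → ∀ v v' : ℝ,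
    Am2 Y (C * ((1 + |v|) ^ 2 * (1 + |v'|) ^ 2)) (amp Y G v v') := by
  obtain ⟨C0, hC0, hC⟩ := rho_bounds
  refine ⟨64 * (4 * (4 * (4 * (C0 * 14)))), by positivity, ?_⟩
  intro Y hY G hG v v'
  have hY0 : 0 < Y := by linarith
  set a : ℝ := 4 * (4 * (4 * (C0 * 14) * (1 + |v|) ^ 2) * (1 + |v'|) ^ 2) with ha
  have ha0 : 0 ≤ a := by positivity
  have hB : 64 * (4 * (4 * (4 * (C0 * 14)))) * ((1 + |v|) ^ 2 * (1 + |v'|) ^ 2) = 64 * a := by
    rw [ha]
    ring
  rw [hB]
  set F : ℝ → ℂ := fun y => ((rho (y / Y) : ℝ) : ℂ) * ((gs G (1 + 1 / y) : ℝ) : ℂ) * ch y v * ch (1 + y) v' with hF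
  have hPD : PD a F := (((pd_rho hC hY0).mul (pd_gs G)).mul (pd_ch v)).mul (pd_ch1 v')
  obtain ⟨F1, F2, hP⟩ := hPD
  have hampF : ∀ y, 0 < y → amp Y G v v' y = F y := by
    intro y hy
    unfold amp
    rw [if_pos hy, hF]
    push_cast
    ring
  have hamp0 : ∀ y, y ≤ Y / 8 → amp Y G v v' y = 0 := by
    intro y hy
    unfold amp
    by_cases h : 0 < y
    · rw [if_pos h, rho_zero (Or.inl (by rw [div_le_iff₀ hY0]; linarith))]
      simp
    · rw [if_neg h]
  have hamp8 : ∀ y, 8 * Y ≤ y → amp Y G v v' y = 0 := by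
    intro y hy
    unfold amp
    by_cases h : 0 < y
    · rw [if_pos h, rho_zero (Or.inr (by rw [le_div_iff₀ hY0]; linarith))]
      simp
    · rw [if_neg h]
  have ev1 : ∀ y, 0 < y → amp Y G v v' =ᶠ[nhds y] F := fun y hy => by
    filter_upwards [lt_mem_nhds hy] with z hz
    exact hampF z hz
  have ev0 : ∀ y, y < Y / 8 → amp Y G v v' =ᶠ[nhds y] fun _ => 0 := fun y hy => by
    filter_upwards [gt_mem_nhds hy] with z hz
    exact hamp0 z hz.le
  have hd1 : ∀ y, 0 < y → deriv (amp Y G v v') y = F1 y := fun y hy => by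
    rw [(ev1 y hy).deriv_eq]
    exact (hP y hy).1.deriv
  have hd2 : ∀ y, 0 < y → deriv (deriv (amp Y G v v')) y = F2 y := fun y hy => by
    have e : deriv (amp Y G v v') =ᶠ[nhds y] F1 := by
      filter_upwards [lt_mem_nhds hy] with z hz
      exact hd1 z hz
    rw [e.deriv_eq]
    exact (hP y hy).2.1.deriv
  have hz1 : ∀ y, y < Y / 8 → deriv (amp Y G v v') y = 0 := fun y hy => by
    rw [(ev0 y hy).deriv_eq]
    simp
  have hz2 : ∀ y, y < Y / 8 → deriv (deriv (amp Y G v v')) y = 0 := fun y hy => by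
    have e : deriv (amp Y G v v') =ᶠ[nhds y] fun _ => 0 := by
      filter_upwards [gt_mem_nhds hy] with z hz
      exact hz1 z hz
    rw [e.deriv_eq]
    simp
  refine ⟨?_, ?_, ?_, ?_, ?_⟩
  · rw [contDiff_iff_contDiffAt]
    intro y
    by_cases hy : y < Y / 8
    · exact contDiffAt_const.congr_of_eventuallyEq (ev0 y hy)
    · have hy0 : 0 < y := by
        have : 0 < Y / 8 := by positivity
        linarith
      apply ContDiffAt.congr_of_eventuallyEq _ (ev1 y hy0)
      have c1 : ContDiffAt ℝ 2 (fun y : ℝ => ((rho (y / Y) : ℝ) : ℂ)) y := by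
        have : ContDiff ℝ 2 (fun y : ℝ => rho (y / Y)) := rho_contDiff.comp (contDiff_id.div_const Y)
        exact Complex.ofRealCLM.contDiff.contDiffAt.comp y this.contDiffAt
      have c2 : ContDiffAt ℝ 2 (fun y : ℝ => ((gs G (1 + 1 / y) : ℝ) : ℂ)) y := by
        unfold gs
        have h1 : ContDiffAt ℝ 2 (fun y : ℝ => 1 + 1 / y) y :=
          contDiffAt_const.add (contDiffAt_const.div contDiffAt_id hy0.ne')
        have h2 : ContDiffAt ℝ 2 (fun y : ℝ => Real.log (1 + 1 / y)) y := h1.log (by positivity)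
        have h3 : ContDiffAt ℝ 2 (fun y : ℝ => Real.exp (-(G * Real.log (1 + 1 / y)) ^ 2 / (4 * Real.pi))) y :=
          ((((contDiffAt_const.mul h2).pow 2).neg).div_const _).exp
        exact Complex.ofRealCLM.contDiff.contDiffAt.comp y h3
      have c3 : ContDiffAt ℝ 2 (fun y : ℝ => ch (1 + y) v') y :=
        (ch_contDiffAt v' (by linarith : 0 < 1 + y)).comp y (contDiffAt_const.add contDiffAt_id)
      exact ((c1.mul c2).mul (ch_contDiffAt v hy0)).mul c3
  · intro y hy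
    constructor
    · by_contra h
      exact hy (hamp0 y (by linarith))
    · by_contra h
      exact hy (hamp8 y (by linarith))
  · intro y
    by_cases hy : y < Y / 8
    · rw [hamp0 y hy.le, norm_zero]
      positivity
    · have hy0 : 0 < y := by
        have : 0 < Y / 8 := by positivity
        linarith
      rw [hampF y hy0]
      have := (hP y hy0).2.2.1
      linarith
  · intro y
    by_cases hy : y < Y / 8
    · rw [hz1 y hy, norm_zero]
      positivity
    · have hy0 : 0 < y := by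
        have : 0 < Y / 8 := by positivity
        linarith
      rw [hd1 y hy0]
      refine (hP y hy0).2.2.2.1.trans ?_
      rw [div_le_div_iff₀ hy0 hY0]
      nlinarith
  · intro y
    by_cases hy : y < Y / 8
    · rw [hz2 y hy, norm_zero]
      positivity
    · have hy0 : 0 < y := by
        have : 0 < Y / 8 := by positivity
        linarith
      rw [hd2 y hy0]
      refine (hP y hy0).2.2.2.2.trans ?_
      rw [div_le_div_iff₀ (by positivity) (by positivity)]
      have h8 : Y ≤ 8 * y := by linarith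
      have h9 : Y ^ 2 ≤ (8 * y) ^ 2 := pow_le_pow_left₀ hY0.le h8 2
      nlinarith

end Pool.Agent.Lib.TW
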