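import Pool.Agent.Lib.TW.Defs5

/-!
# TW / At5: the amplitude at the stationary point
-/

set_option autoImplicit false

open MeasureTheory
open scoped FourierTransform

namespace Pool.Agent.Lib.TW

private theorem at5_D {Y T t ν : ℝ} (hY : 1 ≤ Y) (hT : 1 ≤ T) (h1 : T / 2 ≤ t) (hν : 0 < ν)
    (h4 : ν ≤ 10000 * T / Y ^ 2) : Y / 178 ≤ Real.sqrt (1 + 2 * t / (Real.pi * ν)) := by
  have hpi : Real.pi < 3.15 := Real.pi_lt_d2
  have hpi0 : 0 < Real.pi := Real.pi_pos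
  refine Real.le_sqrt_of_sq_le ?_
  have h5 : ν * Y ^ 2 ≤ 10000 * T := (le_div_iff₀ (by positivity)).1 h4
  have h6 : (Y / 178) ^ 2 ≤ 2 * t / (Real.pi * ν) := by
    rw [le_div_iff₀ (by positivity)]
    have h7 : (Y / 178) ^ 2 * (Real.pi * ν) = (ν * Y ^ 2) * Real.pi / 31684 := by ring
    rw [h7]
    have h8 : (ν * Y ^ 2) * Real.pi ≤ (10000 * T) * 3.15 :=
      mul_le_mul h5 hpi.le hpi0.le (by positivity)
    linarith
  linarith

private theorem at5_sp (t ν : ℝ) : 2 * sp t ν + 1 = Real.sqrt (1 + 2 * t / (Real.pi * ν)) := by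
  unfold sp
  ring

private theorem at5_sa {t ν : ℝ} (ht : 0 < t) (hν : 0 < ν) :
    sa t ν = Real.sqrt t / (2 * Real.pi) * (1 / (ν * Real.sqrt (Real.sqrt (1 + 2 * t / (Real.pi * ν))))) := by
  have hpi0 : 0 < Real.pi := Real.pi_pos
  obtain ⟨D, hD⟩ : ∃ D : ℝ, D = Real.sqrt (1 + 2 * t / (Real.pi * ν)) := ⟨_, rfl⟩
  have hD0 : 0 < D := by
    rw [hD]
    positivity
  have hD2 : D ^ 2 = 1 + 2 * t / (Real.pi * ν) := by
    rw [hD]
    exact Real.sq_sqrt (by positivity)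
  have hs : sp t ν = (D - 1) / 2 := by
    rw [hD]
    rfl
  unfold sa
  rw [at5_sp, ← hD, hs, Real.sqrt_mul ht.le]
  have e1 : (D - 1) / 2 * ((D - 1) / 2 + 1) = t / (2 * Real.pi * ν) := by
    have : (D - 1) / 2 * ((D - 1) / 2 + 1) = (D ^ 2 - 1) / 4 := by ring
    rw [this, hD2]
    field_simp
    ring
  rw [e1]
  have ht2 : t = Real.sqrt t * Real.sqrt t := (Real.mul_self_sqrt ht.le).symm
  have hst : 0 < Real.sqrt t := Real.sqrt_pos.2 ht
  have hsD : 0 < Real.sqrt D := Real.sqrt_pos.2 hD0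
  rw [div_eq_iff (by positivity)]
  rw [show Real.sqrt t / (2 * Real.pi) * (1 / (ν * Real.sqrt D)) * (Real.sqrt t * Real.sqrt D) =
    (Real.sqrt t * Real.sqrt t) / (2 * Real.pi * ν) by field_simp, ← ht2]

private theorem at5_bd {Y T t ν : ℝ} (hY : 1 ≤ Y) (hT : 1 ≤ T) (h1 : T / 2 ≤ t) (h2 : t ≤ 2 * T) (hν : 0 < ν)
    (h3 : T / (10000 * Y ^ 2) ≤ ν) (h4 : ν ≤ 10000 * T / Y ^ 2) :
    Real.sqrt t / (2 * Real.pi) * (1 / (ν * Real.sqrt (Real.sqrt (1 + 2 * t / (Real.pi * ν))))) ≤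
      50000 * (Y * Real.sqrt Y / Real.sqrt T) := by
  have hpi0 : 3 < Real.pi := Real.pi_gt_three
  obtain ⟨D, hD⟩ : ∃ D : ℝ, D = Real.sqrt (1 + 2 * t / (Real.pi * ν)) := ⟨_, rfl⟩
  have hDY : Y / 178 ≤ D := by
    rw [hD]
    exact at5_D hY hT h1 hν h4
  have hD0 : 0 < D := by linarith
  rw [← hD]
  have hY0 : 0 < Y := by linarith
  have hT0 : 0 < T := by linarith
  have hsY : 0 < Real.sqrt Y := Real.sqrt_pos.2 hY0
  have hsT : 0 < Real.sqrt T := Real.sqrt_pos.2 hT0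
  have hsD : 0 < Real.sqrt D := Real.sqrt_pos.2 hD0
  have hYY : Real.sqrt Y ^ 2 = Y := Real.sq_sqrt hY0.le
  have hTT : Real.sqrt T ^ 2 = T := Real.sq_sqrt hT0.le
  have a1 : Real.sqrt t ≤ 2 * Real.sqrt T := by
    rw [Real.sqrt_le_left (by positivity), mul_pow, hTT]
    linarith
  have a2 : 1 / ν ≤ 10000 * Y ^ 2 / T := by
    rw [div_le_div_iff₀ hν hT0]
    rw [div_le_iff₀ (by positivity)] at h3
    linarith
  have a3 : 1 / Real.sqrt D ≤ 14 / Real.sqrt Y := by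
    rw [div_le_div_iff₀ hsD hsY, one_mul]
    have h5 : Real.sqrt Y / 14 ≤ Real.sqrt D := by
      refine Real.le_sqrt_of_sq_le ?_
      rw [div_pow, hYY]
      linarith
    linarith
  have a4 : 1 / (2 * Real.pi) ≤ 1 / 6 := by
    refine one_div_le_one_div_of_le (by norm_num) (by linarith)
  have e1 : Real.sqrt t / (2 * Real.pi) * (1 / (ν * Real.sqrt D)) =
      (1 / (2 * Real.pi)) * Real.sqrt t * (1 / ν) * (1 / Real.sqrt D) := by
    field_simp
  rw [e1]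
  have e2 : (1 / (2 * Real.pi)) * Real.sqrt t * (1 / ν) * (1 / Real.sqrt D) ≤
      (1 / 6) * (2 * Real.sqrt T) * (10000 * Y ^ 2 / T) * (14 / Real.sqrt Y) := by
    gcongr
  refine e2.trans ?_
  have e3 : (1 / 6) * (2 * Real.sqrt T) * (10000 * Y ^ 2 / T) * (14 / Real.sqrt Y) =
      (280000 / 6) * (Y * Real.sqrt Y / Real.sqrt T) := by
    have e4 : Y ^ 2 / Real.sqrt Y = Y * Real.sqrt Y := by
      rw [div_eq_iff hsY.ne']
      calc Y ^ 2 = Y * Y := sq Y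
        _ = Y * (Real.sqrt Y ^ 2) := by rw [hYY]
        _ = Y * Real.sqrt Y * Real.sqrt Y := by ring
    have e5 : Real.sqrt T / T = 1 / Real.sqrt T := by
      rw [div_eq_div_iff hT0.ne' hsT.ne', one_mul, ← sq, hTT]
    calc (1 / 6) * (2 * Real.sqrt T) * (10000 * Y ^ 2 / T) * (14 / Real.sqrt Y) =
        (280000 / 6) * ((Y ^ 2 / Real.sqrt Y) * (Real.sqrt T / T)) := by ring
      _ = (280000 / 6) * (Y * Real.sqrt Y / Real.sqrt T) := by
          rw [e4, e5]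
          ring
  rw [e3]
  have : 0 ≤ Y * Real.sqrt Y / Real.sqrt T := by positivity
  linarith

/-- PROOF. In the range `Y/178 ≤ 2 sp + 1 ≤ C Y` (`(2sp+1)² = 1 + 2t/(πν)`, `Y ≥ 1`), `|sp'| = (t/(2πν²))/(2sp+1) ≤ C Y³/T`.  `β ν = b (sp t ν) sa t ν`:
`‖b‖ ≤ B`, `sa = sp(sp+1)/√(t(2sp+1)) ≤ C Y^(3/2) T^(-1/2)`, `|d sa/d sp| ≤ C Y^(1/2) T^(-1/2)`, `‖b'‖ ≤ B/Y`, so
`‖β'‖ ≤ C B Y^(1/2) T^(-1/2) |sp'|` and the mean value inequality on `[ν, ν+1]`. -/
theorem at5 : ∃ C : ℝ, 0 ≤ C ∧ ∀ Y : ℝ, 1 ≤ Y → ∀ (B : ℝ) (b : ℝ → ℂ), Am1 Y B b → ∀ T : ℝ, 1 ≤ T → ∀ t : ℝ, T / 2 ≤ t → t ≤ 2 * T →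
    ∀ ν : ℝ, 0 < ν → T / (10000 * Y ^ 2) ≤ ν → ν + 1 ≤ 10000 * T / Y ^ 2 →
    ‖b (sp t ν) * (sa t ν : ℂ)‖ ≤ C * B * (Y ^ (3 / 2 : ℝ) / T ^ (1 / 2 : ℝ)) ∧
    ‖b (sp t (ν + 1)) * (sa t (ν + 1) : ℂ)‖ ≤ C * B * (Y ^ (3 / 2 : ℝ) / T ^ (1 / 2 : ℝ)) ∧
    ‖b (sp t (ν + 1)) * (sa t (ν + 1) : ℂ) - b (sp t ν) * (sa t ν : ℂ)‖ ≤
      C * B * (Y ^ (3 / 2 : ℝ) / T ^ (1 / 2 : ℝ)) * (Y ^ 2 / T) := by
  refine ⟨10 ^ 16, by positivity, ?_⟩
  intro Y hY B b hb T hT t h1 h2 ν hν h3 h4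
  obtain ⟨hb1, -, hbB, hbD⟩ := hb
  have hB : 0 ≤ B := (norm_nonneg _).trans (hbB 0)
  have hY0 : 0 < Y := by linarith
  have hT0 : 0 < T := by linarith
  have ht0 : 0 < t := by linarith
  have hpi0 : 3 < Real.pi := Real.pi_gt_three
  have hK : Y ^ (3 / 2 : ℝ) / T ^ (1 / 2 : ℝ) = Y * Real.sqrt Y / Real.sqrt T := by
    rw [Real.sqrt_eq_rpow, Real.sqrt_eq_rpow, show (3 / 2 : ℝ) = 1 + 1 / 2 by norm_num,
      Real.rpow_add hY0, Real.rpow_one]
  rw [hK]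
  obtain ⟨K, hKdef⟩ : ∃ K : ℝ, K = Y * Real.sqrt Y / Real.sqrt T := ⟨_, rfl⟩
  have hK0 : 0 ≤ K := by
    rw [hKdef]
    positivity
  have hν1 : 0 < ν + 1 := by linarith
  have h3' : T / (10000 * Y ^ 2) ≤ ν + 1 := by linarith
  have h4' : ν ≤ 10000 * T / Y ^ 2 := by linarith
  have b0 := at5_bd hY hT h1 h2 hν h3 h4'
  have b1 := at5_bd hY hT h1 h2 hν1 h3' h4
  have s0 := at5_sa ht0 hν
  have s1 := at5_sa ht0 hν1
  have d0 := at5_D hY hT h1 hν h4'
  have d1 := at5_D hY hT h1 hν1 h4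
  have p0 := at5_sp t ν
  have p1 := at5_sp t (ν + 1)
  rw [← hKdef] at b0 b1 ⊢
  obtain ⟨D, hD⟩ : ∃ D : ℝ, D = Real.sqrt (1 + 2 * t / (Real.pi * ν)) := ⟨_, rfl⟩
  obtain ⟨E, hE⟩ : ∃ E : ℝ, E = Real.sqrt (1 + 2 * t / (Real.pi * (ν + 1))) := ⟨_, rfl⟩
  rw [← hD] at b0 s0 d0 p0
  rw [← hE] at b1 s1 d1 p1
  have hD0 : 0 < D := by linarith
  have hE0 : 0 < E := by linarith
  have hD2 : D ^ 2 = 1 + 2 * t / (Real.pi * ν) := by
    rw [hD]
    exact Real.sq_sqrt (by positivity)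
  have hE2 : E ^ 2 = 1 + 2 * t / (Real.pi * (ν + 1)) := by
    rw [hE]
    exact Real.sq_sqrt (by positivity)
  have hED : E ≤ D := by
    rw [hD, hE]
    refine Real.sqrt_le_sqrt ?_
    gcongr
    linarith
  have hsD : 0 < Real.sqrt D := Real.sqrt_pos.2 hD0
  have hsE : 0 < Real.sqrt E := Real.sqrt_pos.2 hE0
  have hA0 : 0 ≤ sa t ν := by
    rw [s0]
    positivity
  have hA1 : 0 ≤ sa t (ν + 1) := by
    rw [s1]
    positivity
  have b0' : sa t ν ≤ 50000 * K := by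
    rw [s0]
    exact b0
  have b1' : sa t (ν + 1) ≤ 50000 * K := by
    rw [s1]
    exact b1
  have hBK : 0 ≤ B * K := mul_nonneg hB hK0
  have a2 : 1 / ν ≤ 10000 * (Y ^ 2 / T) := by
    have h5 : T ≤ ν * (10000 * Y ^ 2) := (div_le_iff₀ (by positivity)).1 h3
    rw [← mul_div_assoc, div_le_div_iff₀ hν hT0]
    linarith
  have hYT : 0 ≤ Y ^ 2 / T := by positivity
  refine ⟨?_, ?_, ?_⟩
  · rw [norm_mul, Complex.norm_real, Real.norm_of_nonneg hA0]
    calc ‖b (sp t ν)‖ * sa t ν ≤ B * (50000 * K) := mul_le_mul (hbB _) b0' hA0 hB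
      _ = 50000 * (B * K) := by ring
      _ ≤ 10 ^ 16 * (B * K) := mul_le_mul_of_nonneg_right (by norm_num) hBK
      _ = 10 ^ 16 * B * K := by ring
  · rw [norm_mul, Complex.norm_real, Real.norm_of_nonneg hA1]
    calc ‖b (sp t (ν + 1))‖ * sa t (ν + 1) ≤ B * (50000 * K) := mul_le_mul (hbB _) b1' hA1 hB
      _ = 50000 * (B * K) := by ring
      _ ≤ 10 ^ 16 * (B * K) := mul_le_mul_of_nonneg_right (by norm_num) hBK
      _ = 10 ^ 16 * B * K := by ring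
  · -- the difference of the stationary points
    have c1 : |sp t (ν + 1) - sp t ν| ≤ 2 * 10 ^ 10 * (Y ^ 3 / T) := by
      have e1 : sp t (ν + 1) - sp t ν = -((D - E) / 2) := by linarith
      rw [e1, abs_neg, abs_of_nonneg (by linarith)]
      have e2 : (D - E) * D ≤ 2 * t / Real.pi * (1 / ν) ^ 2 := by
        have e3 : (D - E) * D ≤ (D - E) * (D + E) :=
          mul_le_mul_of_nonneg_left (by linarith) (by linarith)
        have e4 : (D - E) * (D + E) = D ^ 2 - E ^ 2 := by ring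
        have e5 : D ^ 2 - E ^ 2 = 2 * t / Real.pi * (1 / (ν * (ν + 1))) := by
          rw [hD2, hE2]
          field_simp
          ring
        have e6 : 1 / (ν * (ν + 1)) ≤ (1 / ν) ^ 2 := by
          rw [div_pow, one_pow]
          refine one_div_le_one_div_of_le (by positivity) ?_
          nlinarith
        have e7 : 2 * t / Real.pi * (1 / (ν * (ν + 1))) ≤ 2 * t / Real.pi * (1 / ν) ^ 2 :=
          mul_le_mul_of_nonneg_left e6 (by positivity)
        linarith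
      have e8 : 2 * t / Real.pi * (1 / ν) ^ 2 ≤ (4 * T / 3) * (10000 * (Y ^ 2 / T)) ^ 2 := by
        have e9 : 2 * t / Real.pi ≤ 4 * T / 3 := by
          rw [div_le_div_iff₀ (by linarith) (by norm_num)]
          nlinarith
        have e10 : (1 / ν) ^ 2 ≤ (10000 * (Y ^ 2 / T)) ^ 2 := pow_le_pow_left₀ (by positivity) a2 2
        exact mul_le_mul e9 e10 (by positivity) (by positivity)
      have e11 : (D - E) * (Y / 178) ≤ (D - E) * D := mul_le_mul_of_nonneg_left d0 (by linarith)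
      have e12 : (D - E) * (Y / 178) ≤ (4 * T / 3) * (10000 * (Y ^ 2 / T)) ^ 2 := e11.trans (e2.trans e8)
      have e13 : (4 * T / 3) * (10000 * (Y ^ 2 / T)) ^ 2 = (4 / 3 * 10 ^ 8 * (Y ^ 3 / T)) * Y := by
        field_simp
        ring
      rw [e13] at e12
      have e14 : (D - E) / 178 ≤ 4 / 3 * 10 ^ 8 * (Y ^ 3 / T) := by
        have e15 : (D - E) / 178 * Y ≤ (4 / 3 * 10 ^ 8 * (Y ^ 3 / T)) * Y := by
          have : (D - E) / 178 * Y = (D - E) * (Y / 178) := by ring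
          rw [this]
          exact e12
        exact le_of_mul_le_mul_right e15 hY0
      have e16 : 0 ≤ Y ^ 3 / T := by positivity
      linarith
    have c2 : ‖b (sp t (ν + 1)) - b (sp t ν)‖ ≤ 2 * 10 ^ 10 * (B * (Y ^ 2 / T)) := by
      have hdiff : Differentiable ℝ b := hb1.differentiable (by norm_num)
      have e1 := Convex.norm_image_sub_le_of_norm_deriv_le (f := b) (C := B / Y) (s := Set.univ)
        (x := sp t ν) (y := sp t (ν + 1)) (fun x _ => hdiff x) (fun x _ => hbD x) convex_univ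
        (Set.mem_univ _) (Set.mem_univ _)
      rw [Real.norm_eq_abs] at e1
      refine e1.trans ?_
      calc B / Y * |sp t (ν + 1) - sp t ν| ≤ B / Y * (2 * 10 ^ 10 * (Y ^ 3 / T)) :=
            mul_le_mul_of_nonneg_left c1 (by positivity)
        _ = 2 * 10 ^ 10 * (B * (Y ^ 2 / T)) := by
            field_simp
    -- the difference of the amplitudes
    have c3 : |sa t (ν + 1) - sa t ν| ≤ 5 * 10 ^ 8 * (K * (Y ^ 2 / T)) := by
      obtain ⟨g, hg⟩ : ∃ g : ℝ, g = ν * Real.sqrt D := ⟨_, rfl⟩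
      obtain ⟨k, hk⟩ : ∃ k : ℝ, k = (ν + 1) * Real.sqrt E := ⟨_, rfl⟩
      have hg0 : 0 < g := by
        rw [hg]
        positivity
      have hk0 : 0 < k := by
        rw [hk]
        positivity
      rw [← hg] at s0
      rw [← hk] at s1
      have hgk : g ≤ k := by
        have f1 : (ν ^ 2 * D) ^ 2 ≤ ((ν + 1) ^ 2 * E) ^ 2 := by
          have f2 : (ν ^ 2 * D) ^ 2 = ν ^ 4 + 2 * t / Real.pi * ν ^ 3 := by
            rw [mul_pow, hD2]
            field_simp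
          have f3 : ((ν + 1) ^ 2 * E) ^ 2 = (ν + 1) ^ 4 + 2 * t / Real.pi * (ν + 1) ^ 3 := by
            rw [mul_pow, hE2]
            field_simp
          rw [f2, f3]
          gcongr <;> linarith
        have f4 : ν ^ 2 * D ≤ (ν + 1) ^ 2 * E :=
          (pow_le_pow_iff_left₀ (by positivity) (by positivity) (by norm_num)).1 f1
        have f5 : g ^ 2 = ν ^ 2 * D := by
          rw [hg, mul_pow, Real.sq_sqrt hD0.le]
        have f6 : k ^ 2 = (ν + 1) ^ 2 * E := by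
          rw [hk, mul_pow, Real.sq_sqrt hE0.le]
        rw [← f5, ← f6] at f4
        exact (pow_le_pow_iff_left₀ hg0.le hk0.le (by norm_num)).1 f4
      have hkg : k - g ≤ g * (1 / ν) := by
        have f1 : Real.sqrt E ≤ Real.sqrt D := Real.sqrt_le_sqrt hED
        have f2 : g * (1 / ν) = Real.sqrt D := by
          rw [hg]
          field_simp
        rw [f2, hk, hg]
        nlinarith
      have hle : sa t (ν + 1) ≤ sa t ν := by
        rw [s0, s1]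
        refine mul_le_mul_of_nonneg_left ?_ (by positivity)
        exact one_div_le_one_div_of_le hg0 hgk
      have hdiff : sa t ν - sa t (ν + 1) = sa t (ν + 1) * ((k - g) / g) := by
        rw [s0, s1]
        field_simp
      rw [abs_sub_comm, abs_of_nonneg (by linarith), hdiff]
      have f3 : (k - g) / g ≤ 10000 * (Y ^ 2 / T) := by
        refine le_trans ?_ a2
        rw [div_le_iff₀ hg0]
        linarith
      calc sa t (ν + 1) * ((k - g) / g) ≤ (50000 * K) * (10000 * (Y ^ 2 / T)) := by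
            refine mul_le_mul b1' f3 ?_ (by positivity)
            exact div_nonneg (by linarith) hg0.le
        _ = 5 * 10 ^ 8 * (K * (Y ^ 2 / T)) := by ring
    have e1 : b (sp t (ν + 1)) * (sa t (ν + 1) : ℂ) - b (sp t ν) * (sa t ν : ℂ) =
        (b (sp t (ν + 1)) - b (sp t ν)) * (sa t (ν + 1) : ℂ) +
          b (sp t ν) * ((sa t (ν + 1) - sa t ν : ℝ) : ℂ) := by
      push_cast
      ring
    rw [e1]
    refine (norm_add_le _ _).trans ?_
    rw [norm_mul, norm_mul, Complex.norm_real, Complex.norm_real, Real.norm_of_nonneg hA1, Real.norm_eq_abs]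
    have g1 : ‖b (sp t (ν + 1)) - b (sp t ν)‖ * sa t (ν + 1) ≤
        (2 * 10 ^ 10 * (B * (Y ^ 2 / T))) * (50000 * K) :=
      mul_le_mul c2 b1' hA1 (by positivity)
    have g2 : ‖b (sp t ν)‖ * |sa t (ν + 1) - sa t ν| ≤ B * (5 * 10 ^ 8 * (K * (Y ^ 2 / T))) :=
      mul_le_mul (hbB _) c3 (abs_nonneg _) hB
    have g3 : 0 ≤ B * K * (Y ^ 2 / T) := mul_nonneg hBK hYT
    calc ‖b (sp t (ν + 1)) - b (sp t ν)‖ * sa t (ν + 1) + ‖b (sp t ν)‖ * |sa t (ν + 1) - sa t ν| ≤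
        (2 * 10 ^ 10 * (B * (Y ^ 2 / T))) * (50000 * K) + B * (5 * 10 ^ 8 * (K * (Y ^ 2 / T))) :=
          add_le_add g1 g2
      _ = (10 ^ 15 + 5 * 10 ^ 8) * (B * K * (Y ^ 2 / T)) := by ring
      _ ≤ 10 ^ 16 * (B * K * (Y ^ 2 / T)) := mul_le_mul_of_nonneg_right (by norm_num) g3
      _ = 10 ^ 16 * B * K * (Y ^ 2 / T) := by ring

end Pool.Agent.Lib.TW
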