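import Pool.Agent.Lib.TW.Defs

/-!
# TW / Cv: Hoelder for the convolution
-/

set_option autoImplicit false

open MeasureTheory

namespace Pool.Agent.Lib.TW

private theorem cv_pow12 {x a : ℝ} (hx : 0 ≤ x) (ha : 0 ≤ a) :
    a ^ 12 + 12 * a ^ 11 * (x - a) ≤ x ^ 12 := by
  have h : x ^ 12 - (a ^ 12 + 12 * a ^ 11 * (x - a)) = (x - a) ^ 2 *
      (x ^ 10 + 2 * x ^ 9 * a + 3 * x ^ 8 * a ^ 2 + 4 * x ^ 7 * a ^ 3 + 5 * x ^ 6 * a ^ 4 +
        6 * x ^ 5 * a ^ 5 + 7 * x ^ 4 * a ^ 6 + 8 * x ^ 3 * a ^ 7 + 9 * x ^ 2 * a ^ 8 +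
        10 * x * a ^ 9 + 11 * a ^ 10) := by ring
  have h2 : 0 ≤ (x - a) ^ 2 *
      (x ^ 10 + 2 * x ^ 9 * a + 3 * x ^ 8 * a ^ 2 + 4 * x ^ 7 * a ^ 3 + 5 * x ^ 6 * a ^ 4 +
        6 * x ^ 5 * a ^ 5 + 7 * x ^ 4 * a ^ 6 + 8 * x ^ 3 * a ^ 7 + 9 * x ^ 2 * a ^ 8 +
        10 * x * a ^ 9 + 11 * a ^ 10) := by positivity
  linarith

private theorem cv_w_cont : Continuous (fun u : ℝ => 1 / (1 + |u|)) := by
  refine continuous_const.div (by fun_prop) ?_
  intro u
  positivity

private theorem cv_mass {T : ℝ} (hT : 1 ≤ T) :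
    ∫ u in (-(T / 2))..(T / 2), 1 / (1 + |u|) = 2 * Real.log (1 + T / 2) := by
  have hi : ∀ a b : ℝ, IntervalIntegrable (fun u : ℝ => 1 / (1 + |u|)) volume a b :=
    fun a b => cv_w_cont.intervalIntegrable a b
  have h1 : ∫ u in (0 : ℝ)..(T / 2), 1 / (1 + |u|) = Real.log (1 + T / 2) := by
    have e1 : ∫ u in (0 : ℝ)..(T / 2), 1 / (1 + |u|) = ∫ u in (0 : ℝ)..(T / 2), 1 / (1 + u) := by
      refine intervalIntegral.integral_congr ?_
      intro u hu
      rw [Set.uIcc_of_le (by linarith)] at hu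
      simp only [abs_of_nonneg hu.1]
    rw [e1, intervalIntegral.integral_comp_add_left (fun x => 1 / x) 1,
      integral_one_div_of_pos (by norm_num) (by linarith)]
    norm_num
  have h2 : ∫ u in (-(T / 2))..(0 : ℝ), 1 / (1 + |u|) = Real.log (1 + T / 2) := by
    have e2 := intervalIntegral.integral_comp_neg (a := 0) (b := T / 2)
      (fun u : ℝ => 1 / (1 + |u|))
    simp only [abs_neg, neg_zero] at e2
    rw [← e2, h1]
  rw [← intervalIntegral.integral_add_adjacent_intervals (hi _ 0) (hi 0 _), h1, h2]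
  ring

/-- Jensen for one fixed `t` -/
private theorem cv_jensen {a b : ℝ} (hab : a < b) {G w : ℝ → ℝ} (hG : Continuous G) (hw : Continuous w)
    (hG0 : ∀ u, 0 ≤ G u) (hw0 : ∀ u, 0 < w u) :
    (∫ u in a..b, G u * w u) ^ 12 ≤ (∫ u in a..b, w u) ^ 11 * ∫ u in a..b, G u ^ 12 * w u := by
  have hM : 0 < ∫ u in a..b, w u :=
    intervalIntegral.intervalIntegral_pos_of_pos (hw.intervalIntegrable _ _) hw0 hab
  set M := ∫ u in a..b, w u with hMdef
  set I := ∫ u in a..b, G u * w u with hI
  have hI0 : 0 ≤ I := intervalIntegral.integral_nonneg hab.le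
    fun u _ => mul_nonneg (hG0 u) (hw0 u).le
  set A := I / M with hA
  have hA0 : 0 ≤ A := div_nonneg hI0 hM.le
  have hAM : A * M = I := div_mul_cancel₀ _ hM.ne'
  have key : A ^ 12 * M ≤ ∫ u in a..b, G u ^ 12 * w u := by
    have h1 : ∫ u in a..b, (A ^ 12 * w u + 12 * A ^ 11 * (G u * w u - A * w u)) = A ^ 12 * M := by
      rw [intervalIntegral.integral_add, intervalIntegral.integral_const_mul,
        intervalIntegral.integral_const_mul, intervalIntegral.integral_sub,
        intervalIntegral.integral_const_mul]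
      · rw [← hMdef, ← hI, hAM]; ring
      · exact (hG.mul hw).intervalIntegrable _ _
      · exact (continuous_const.mul hw).intervalIntegrable _ _
      · exact (continuous_const.mul hw).intervalIntegrable _ _
      · exact (continuous_const.mul ((hG.mul hw).sub (continuous_const.mul hw))).intervalIntegrable _ _
    rw [← h1]
    refine intervalIntegral.integral_mono_on hab.le ?_ ?_ ?_
    · exact ((continuous_const.mul hw).add
        (continuous_const.mul ((hG.mul hw).sub (continuous_const.mul hw)))).intervalIntegrable _ _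
    · exact ((hG.pow 12).mul hw).intervalIntegrable _ _
    · intro u _
      have := mul_le_mul_of_nonneg_right (cv_pow12 (hG0 u) hA0) (hw0 u).le
      nlinarith [this]
  have h2 : I ^ 12 = M ^ 11 * (A ^ 12 * M) := by rw [← hAM]; ring
  rw [h2]
  exact mul_le_mul_of_nonneg_left key (by positivity)

/-- PROOF. Hölder with the measure `du/(1+|u|)` on `[-T/2, T/2]` of mass `≤ C_ε T^(ε/11)`: `(∫ F(t+u)/(1+|u|))^12 ≤ C T^ε ∫ F(t+u)^12/(1+|u|)`;
integrate over `t ∈ [T, 2T]` (Fubini, everything is continuous), `t + u ∈ [T/2, 5T/2]`. -/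
theorem conv12 {ε : ℝ} (hε : 0 < ε) : ∃ C : ℝ, 0 ≤ C ∧ ∀ T : ℝ, 1 ≤ T → ∀ F : ℝ → ℝ, Continuous F → (∀ u, 0 ≤ F u) →
    ∫ t in T..(2 * T), (∫ u in (-(T / 2))..(T / 2), F (t + u) / (1 + |u|)) ^ 12 ≤
      C * T ^ ε * ∫ u in (T / 2)..(4 * T), F u ^ 12 := by
  have hδ : 0 < ε / 12 := by positivity
  refine ⟨(2 * ((2 : ℝ) ^ (ε / 12) / (ε / 12))) ^ 12, by positivity, ?_⟩
  intro T hT F hF hF0
  have hT0 : 0 < T := by linarith
  set w : ℝ → ℝ := fun u => 1 / (1 + |u|) with hw
  have hwc : Continuous w := cv_w_cont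
  have hw0 : ∀ u, 0 < w u := fun u => by simp only [hw]; positivity
  set M := ∫ u in (-(T / 2))..(T / 2), w u with hM
  have hMval : M = 2 * Real.log (1 + T / 2) := cv_mass hT
  have hM0 : 0 ≤ M := by
    rw [hMval]
    have := Real.log_nonneg (show (1 : ℝ) ≤ 1 + T / 2 by linarith)
    linarith
  set J := ∫ u in (T / 2)..(4 * T), F u ^ 12 with hJ
  have hJ0 : 0 ≤ J := intervalIntegral.integral_nonneg (by linarith) fun u _ => pow_nonneg (hF0 u) 12
  have hMle : M ^ 12 ≤ (2 * ((2 : ℝ) ^ (ε / 12) / (ε / 12))) ^ 12 * T ^ ε := by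
    have h1 : Real.log (1 + T / 2) ≤ (2 : ℝ) ^ (ε / 12) * T ^ (ε / 12) / (ε / 12) := by
      have h2 := Real.log_le_rpow_div (show (0 : ℝ) ≤ 1 + T / 2 by linarith) hδ
      refine h2.trans ?_
      rw [← Real.mul_rpow (by norm_num) hT0.le]
      gcongr
      linarith
    have h3 : M ≤ 2 * ((2 : ℝ) ^ (ε / 12) / (ε / 12)) * T ^ (ε / 12) := by
      rw [hMval]
      calc 2 * Real.log (1 + T / 2) ≤ 2 * ((2 : ℝ) ^ (ε / 12) * T ^ (ε / 12) / (ε / 12)) := by linarith
        _ = _ := by ring
    have h4 : (T ^ (ε / 12)) ^ 12 = T ^ ε := by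
      rw [← Real.rpow_natCast, ← Real.rpow_mul hT0.le]
      congr 1
      push_cast
      ring
    calc M ^ 12 ≤ (2 * ((2 : ℝ) ^ (ε / 12) / (ε / 12)) * T ^ (ε / 12)) ^ 12 := by gcongr
      _ = _ := by rw [mul_pow, h4]
  -- step 1
  have hFw : Continuous (Function.uncurry fun t u : ℝ => F (t + u) ^ 12 * w u) :=
    ((hF.comp (continuous_fst.add continuous_snd)).pow 12).mul (hwc.comp continuous_snd)
  have hFw1 : Continuous (Function.uncurry fun t u : ℝ => F (t + u) / (1 + |u|)) := by
    have : (Function.uncurry fun t u : ℝ => F (t + u) / (1 + |u|)) =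
        fun p : ℝ × ℝ => F (p.1 + p.2) * w p.2 := by
      funext p
      simp only [Function.uncurry, hw]
      ring
    rw [this]
    exact (hF.comp (continuous_fst.add continuous_snd)).mul (hwc.comp continuous_snd)
  have hst1 : ∫ t in T..(2 * T), (∫ u in (-(T / 2))..(T / 2), F (t + u) / (1 + |u|)) ^ 12 ≤
      ∫ t in T..(2 * T), M ^ 11 * ∫ u in (-(T / 2))..(T / 2), F (t + u) ^ 12 * w u := by
    refine intervalIntegral.integral_mono_on (by linarith) ?_ ?_ ?_
    · exact ((intervalIntegral.continuous_parametric_intervalIntegral_of_continuous' hFw1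
        _ _).pow 12).intervalIntegrable _ _
    · exact (continuous_const.mul (intervalIntegral.continuous_parametric_intervalIntegral_of_continuous' hFw
        _ _)).intervalIntegrable _ _
    · intro t _
      have h := cv_jensen (a := -(T / 2)) (b := T / 2) (by linarith) (G := fun u => F (t + u)) (w := w)
        (hF.comp (continuous_const.add continuous_id)) hwc (fun u => hF0 _) hw0
      have e : (fun u : ℝ => F (t + u) / (1 + |u|)) = fun u => F (t + u) * w u := by
        funext u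
        simp only [hw]
        ring
      rw [e]
      exact h
  -- step 2
  have hswap : ∫ t in T..(2 * T), ∫ u in (-(T / 2))..(T / 2), F (t + u) ^ 12 * w u =
      ∫ u in (-(T / 2))..(T / 2), ∫ t in T..(2 * T), F (t + u) ^ 12 * w u := by
    apply intervalIntegral_intervalIntegral_swap
    refine (hFw.continuousOn.integrableOn_compact (K := Set.uIcc T (2 * T) ×ˢ Set.uIcc (-(T / 2)) (T / 2))
      (isCompact_uIcc.prod isCompact_uIcc)).mono_set ?_
    exact Set.prod_mono Set.uIoc_subset_uIcc Set.uIoc_subset_uIcc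
  have hst2 : ∫ u in (-(T / 2))..(T / 2), ∫ t in T..(2 * T), F (t + u) ^ 12 * w u ≤
      ∫ u in (-(T / 2))..(T / 2), J * w u := by
    refine intervalIntegral.integral_mono_on (by linarith) ?_ ?_ ?_
    · have hc : Continuous (Function.uncurry fun u t : ℝ => F (t + u) ^ 12 * w u) :=
        ((hF.comp (continuous_snd.add continuous_fst)).pow 12).mul (hwc.comp continuous_fst)
      exact (intervalIntegral.continuous_parametric_intervalIntegral_of_continuous' hc
        _ _).intervalIntegrable _ _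
    · exact (continuous_const.mul hwc).intervalIntegrable _ _
    · intro u hu
      rw [intervalIntegral.integral_mul_const]
      refine mul_le_mul_of_nonneg_right ?_ (hw0 u).le
      rw [intervalIntegral.integral_comp_add_right (fun x => F x ^ 12) u]
      refine intervalIntegral.integral_mono_interval ?_ ?_ ?_ ?_ ?_
      · linarith [hu.1]
      · linarith
      · linarith [hu.2]
      · exact Filter.Eventually.of_forall fun x => pow_nonneg (hF0 x) 12
      · exact (hF.pow 12).intervalIntegrable _ _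
  calc ∫ t in T..(2 * T), (∫ u in (-(T / 2))..(T / 2), F (t + u) / (1 + |u|)) ^ 12
      ≤ ∫ t in T..(2 * T), M ^ 11 * ∫ u in (-(T / 2))..(T / 2), F (t + u) ^ 12 * w u := hst1
    _ = M ^ 11 * ∫ u in (-(T / 2))..(T / 2), ∫ t in T..(2 * T), F (t + u) ^ 12 * w u := by
        rw [intervalIntegral.integral_const_mul, hswap]
    _ ≤ M ^ 11 * ∫ u in (-(T / 2))..(T / 2), J * w u := mul_le_mul_of_nonneg_left hst2 (by positivity)
    _ = M ^ 12 * J := by
        rw [intervalIntegral.integral_const_mul, ← hM]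
        ring
    _ ≤ _ := mul_le_mul_of_nonneg_right hMle hJ0

end Pool.Agent.Lib.TW
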