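import Pool.Agent.Lib.TW.Defs

/-!
# TW / Sh: from sharp sums to smooth sums
-/

set_option autoImplicit false

open MeasureTheory

namespace Pool.Agent.Lib.TW

open FourierTransform

/-- the smooth step, complex valued -/
private noncomputable def shP (x : ℝ) : ℂ := ((Real.smoothTransition x : ℝ) : ℂ)

private theorem shP_contDiff (n : ℕ∞) : ContDiff ℝ n shP :=
  Complex.ofRealCLM.contDiff.comp (Real.smoothTransition.contDiff (n := n))

private theorem shP_deriv_supp : HasCompactSupport (deriv shP) := by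
  refine HasCompactSupport.intro (isCompact_Icc : IsCompact (Set.Icc (0 : ℝ) 1)) fun x hx => ?_
  rw [Set.mem_Icc, not_and_or, not_le, not_le] at hx
  rcases hx with hx | hx
  · have h1 : shP =ᶠ[nhds x] fun _ => 0 := by
      filter_upwards [gt_mem_nhds hx] with y hy
      unfold shP
      rw [Real.smoothTransition.zero_of_nonpos (le_of_lt hy), Complex.ofReal_zero]
    rw [h1.deriv_eq, deriv_const]
  · have h1 : shP =ᶠ[nhds x] fun _ => 1 := by
      filter_upwards [lt_mem_nhds hx] with y hy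
      unfold shP
      rw [Real.smoothTransition.one_of_one_le (le_of_lt hy), Complex.ofReal_one]
    rw [h1.deriv_eq, deriv_const]

private theorem sh_supp_iter {f : ℝ → ℂ} (hf : HasCompactSupport f) (k : ℕ) : HasCompactSupport (iteratedDeriv k f) := by
  induction k with
  | zero => rwa [iteratedDeriv_zero]
  | succ k ih =>
    rw [iteratedDeriv_succ]
    exact ih.deriv

private theorem shP_supp (k : ℕ) : HasCompactSupport (iteratedDeriv (k + 1) shP) := by
  rw [iteratedDeriv_succ']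
  exact sh_supp_iter shP_deriv_supp k

private theorem shP_cont (k : ℕ) : Continuous (iteratedDeriv k shP) := by
  have h := (shP_contDiff (k : ℕ)).continuous_iteratedDeriv k le_rfl
  exact h

private theorem shP_int (k : ℕ) : Integrable (iteratedDeriv (k + 1) shP) :=
  (shP_cont (k + 1)).integrable_of_hasCompactSupport (shP_supp k)

/-- the cutoff -/
private noncomputable def shX (L a b : ℝ) (x : ℝ) : ℂ := shP (L * (x - a)) - shP (L * (x - b))

private theorem shQ_contDiff (L a : ℝ) (n : ℕ∞) : ContDiff ℝ n fun x => shP (L * (x - a)) := by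
  have h1 : ContDiff ℝ n fun x : ℝ => L * (x - a) := by fun_prop
  exact (shP_contDiff n).comp h1

private theorem shX_contDiff (L a b : ℝ) (n : ℕ∞) : ContDiff ℝ n (shX L a b) :=
  (shQ_contDiff L a n).sub (shQ_contDiff L b n)

private theorem shQ_iter (L a : ℝ) (k : ℕ) :
    iteratedDeriv k (fun x => shP (L * (x - a))) = fun x => L ^ k • iteratedDeriv k shP (L * (x - a)) := by
  have h1 := iteratedDeriv_comp_sub_const k (fun y => shP (L * y)) a
  have h2 := iteratedDeriv_comp_const_smul (shP_contDiff (k : ℕ)) L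
  rw [h1, h2]

private theorem shX_iter (L a b : ℝ) (k : ℕ) (x : ℝ) :
    iteratedDeriv k (shX L a b) x = L ^ k • (iteratedDeriv k shP (L * (x - a)) - iteratedDeriv k shP (L * (x - b))) := by
  have h1 : shX L a b = fun x => shP (L * (x - a)) - shP (L * (x - b)) := rfl
  rw [h1, iteratedDeriv_fun_sub ((shQ_contDiff L a (k : ℕ)).contDiffAt) ((shQ_contDiff L b (k : ℕ)).contDiffAt), shQ_iter,
    shQ_iter, smul_sub]

private theorem shX_val {L a b : ℝ} (hL : 0 < L) (hab : a ≤ b) (x : ℝ) :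
    ‖shX L a b x‖ ≤ Set.indicator (Set.Icc a (b + 1 / L)) (fun _ => (1 : ℝ)) x := by
  by_cases hx : x ∈ Set.Icc a (b + 1 / L)
  · rw [Set.indicator_of_mem hx]
    unfold shX shP
    rw [← Complex.ofReal_sub, Complex.norm_real, Real.norm_eq_abs, abs_le]
    have h1 := Real.smoothTransition.nonneg (L * (x - a))
    have h2 := Real.smoothTransition.le_one (L * (x - a))
    have h3 := Real.smoothTransition.nonneg (L * (x - b))
    have h4 := Real.smoothTransition.le_one (L * (x - b))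
    constructor <;> linarith
  · rw [Set.indicator_of_notMem hx]
    rw [Set.mem_Icc, not_and_or, not_le, not_le] at hx
    unfold shX shP
    rcases hx with hx | hx
    · rw [Real.smoothTransition.zero_of_nonpos (mul_nonpos_of_nonneg_of_nonpos hL.le (by linarith)),
        Real.smoothTransition.zero_of_nonpos (mul_nonpos_of_nonneg_of_nonpos hL.le (by linarith))]
      simp
    · have h1 : 1 ≤ L * (x - b) := by
        have h2 : L * (1 / L) = 1 := by field_simp
        have h3 : L * (1 / L) ≤ L * (x - b) := mul_le_mul_of_nonneg_left (by linarith) hL.le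
        linarith
      have h2 : 1 ≤ L * (x - a) := h1.trans (mul_le_mul_of_nonneg_left (by linarith) hL.le)
      rw [Real.smoothTransition.one_of_one_le h1, Real.smoothTransition.one_of_one_le h2]
      simp

private theorem shX_supp {L a b : ℝ} (hL : 0 < L) (hab : a ≤ b) : HasCompactSupport (shX L a b) := by
  refine HasCompactSupport.intro (isCompact_Icc : IsCompact (Set.Icc a (b + 1 / L))) fun x hx => ?_
  have h1 := shX_val hL hab x
  rw [Set.indicator_of_notMem hx] at h1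
  exact norm_le_zero_iff.1 h1

private theorem shX_int {L a b : ℝ} (hL : 0 < L) (hab : a ≤ b) (k : ℕ) : Integrable (iteratedDeriv k (shX L a b)) :=
  ((shX_contDiff L a b (k : ℕ)).continuous_iteratedDeriv k le_rfl).integrable_of_hasCompactSupport (sh_supp_iter (shX_supp hL hab) k)

private theorem sh_norm_fourier (f : ℝ → ℂ) (v : ℝ) : ‖𝓕 f v‖ ≤ ∫ x, ‖f x‖ := by
  rw [Real.fourier_real_eq]
  refine (norm_integral_le_integral_norm _).trans (le_of_eq ?_)
  congr 1
  funext x
  exact Circle.norm_smul _ _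

private theorem shX_L1 {L a b : ℝ} (hL : 0 < L) (hab : a ≤ b) : ∫ x, ‖shX L a b x‖ ≤ b - a + 1 / L := by
  have h1 : ∫ x, ‖shX L a b x‖ ≤ ∫ x, Set.indicator (Set.Icc a (b + 1 / L)) (fun _ => (1 : ℝ)) x := by
    refine integral_mono_of_nonneg (Filter.Eventually.of_forall fun x => norm_nonneg _) ?_
      (Filter.Eventually.of_forall fun x => shX_val hL hab x)
    exact (integrable_indicator_iff measurableSet_Icc).2 (integrableOn_const (by simp))
  refine h1.trans (le_of_eq ?_)
  have h2 : 0 < 1 / L := by positivity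
  rw [integral_indicator measurableSet_Icc, setIntegral_const, smul_eq_mul, mul_one, Real.volume_real_Icc_of_le (by linarith)]
  ring

private theorem shX_iter_L1 {L a b : ℝ} (hL : 0 < L) (k : ℕ) :
    ∫ x, ‖iteratedDeriv (k + 1) (shX L a b) x‖ ≤ 2 * L ^ k * ∫ x, ‖iteratedDeriv (k + 1) shP x‖ := by
  have hi : ∀ c : ℝ, Integrable fun x => ‖iteratedDeriv (k + 1) shP (L * (x - c))‖ := by
    intro c
    have h1 : Integrable fun x => iteratedDeriv (k + 1) shP (L * x) := (shP_int k).comp_mul_left' hL.ne'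
    exact (h1.comp_sub_right c).norm
  have hv : ∀ c : ℝ, ∫ x, ‖iteratedDeriv (k + 1) shP (L * (x - c))‖ = L⁻¹ * ∫ x, ‖iteratedDeriv (k + 1) shP x‖ := by
    intro c
    rw [integral_sub_right_eq_self (fun x => ‖iteratedDeriv (k + 1) shP (L * x)‖) c,
      Measure.integral_comp_mul_left (fun x => ‖iteratedDeriv (k + 1) shP x‖) L, abs_of_pos (inv_pos.2 hL), smul_eq_mul]
  calc ∫ x, ‖iteratedDeriv (k + 1) (shX L a b) x‖
      ≤ ∫ x, L ^ (k + 1) * (‖iteratedDeriv (k + 1) shP (L * (x - a))‖ + ‖iteratedDeriv (k + 1) shP (L * (x - b))‖) := by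
        refine integral_mono_of_nonneg (Filter.Eventually.of_forall fun x => norm_nonneg _) (((hi a).add (hi b)).const_mul _)
          (Filter.Eventually.of_forall fun x => ?_)
        show ‖iteratedDeriv (k + 1) (shX L a b) x‖ ≤ L ^ (k + 1) * (‖iteratedDeriv (k + 1) shP (L * (x - a))‖ +
          ‖iteratedDeriv (k + 1) shP (L * (x - b))‖)
        rw [shX_iter, norm_smul, Real.norm_of_nonneg (by positivity)]
        exact mul_le_mul_of_nonneg_left (norm_sub_le _ _) (by positivity)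
    _ = L ^ (k + 1) * (L⁻¹ * (∫ x, ‖iteratedDeriv (k + 1) shP x‖) + L⁻¹ * ∫ x, ‖iteratedDeriv (k + 1) shP x‖) := by
        rw [integral_const_mul, integral_add (hi a) (hi b), hv, hv]
    _ = 2 * L ^ k * ∫ x, ‖iteratedDeriv (k + 1) shP x‖ := by
        rw [pow_succ]
        field_simp
        ring

private theorem shX_fourier {L a b : ℝ} (hL : 0 < L) (hab : a ≤ b) (k : ℕ) (v : ℝ) :
    (2 * Real.pi * |v|) ^ (k + 1) * ‖𝓕 (shX L a b) v‖ ≤ 2 * L ^ k * ∫ x, ‖iteratedDeriv (k + 1) shP x‖ := by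
  have h1 := Real.fourier_iteratedDeriv (N := ((k + 1 : ℕ) : ℕ∞)) (n := k + 1) (shX_contDiff L a b ((k + 1 : ℕ) : ℕ∞))
    (fun n _ => shX_int hL hab n) le_rfl
  have h2 := congrFun h1 v
  have h3 : ‖𝓕 (iteratedDeriv (k + 1) (shX L a b)) v‖ = (2 * Real.pi * |v|) ^ (k + 1) * ‖𝓕 (shX L a b) v‖ := by
    rw [h2, norm_smul, norm_pow]
    congr 2
    rw [norm_mul, norm_mul, norm_mul, Complex.norm_I, Complex.norm_real, Complex.norm_real, Real.norm_eq_abs,
      Real.norm_eq_abs, abs_of_pos Real.pi_pos]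
    simp
  rw [← h3]
  exact (sh_norm_fourier _ v).trans (shX_iter_L1 hL k)

/-- the constants -/
private noncomputable def shI (k : ℕ) : ℝ := ∫ x, ‖iteratedDeriv (k + 1) shP x‖

private theorem shI_nonneg (k : ℕ) : 0 ≤ shI k := integral_nonneg fun _ => norm_nonneg _

private theorem shX_cont_fourier {L a b : ℝ} (hL : 0 < L) (hab : a ≤ b) : Continuous (𝓕 (shX L a b)) := by
  have h1 : Integrable (shX L a b) := by
    have := shX_int hL hab 0
    rwa [iteratedDeriv_zero] at this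
  exact VectorFourier.fourierIntegral_continuous Real.continuous_fourierChar (by fun_prop) h1

private theorem shX_integrable_fourier {L a b : ℝ} (hL : 0 < L) (hab : a ≤ b) : Integrable (𝓕 (shX L a b)) := by
  have h0 : ∀ v, ‖𝓕 (shX L a b) v‖ ≤ b - a + 1 / L := fun v => (sh_norm_fourier _ v).trans (shX_L1 hL hab)
  have h2 : ∀ v, v ^ 2 * ‖𝓕 (shX L a b) v‖ ≤ 2 * L ^ 1 * shI 1 := by
    intro v
    have h := shX_fourier hL hab 1 v
    refine le_trans ?_ h
    apply mul_le_mul_of_nonneg_right _ (norm_nonneg _)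
    have h3 : (2 * Real.pi * |v|) ^ (1 + 1) = (2 * Real.pi) ^ 2 * v ^ 2 := by
      rw [mul_pow, sq_abs]
    rw [h3]
    have h4 : 1 ≤ (2 * Real.pi) ^ 2 := by nlinarith [Real.pi_gt_three]
    nlinarith [sq_nonneg v]
  have h3 : Integrable fun v : ℝ => (b - a + 1 / L + 2 * L ^ 1 * shI 1) * (1 + v ^ 2)⁻¹ := integrable_inv_one_add_sq.const_mul _
  refine h3.mono' (shX_cont_fourier hL hab).aestronglyMeasurable (Filter.Eventually.of_forall fun v => ?_)
  rw [← div_eq_mul_inv, le_div_iff₀ (by positivity)]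
  have h4 := h0 v
  have h5 := h2 v
  linarith

private theorem sh_inv {L a b : ℝ} (hL : 0 < L) (hab : a ≤ b) (n : ℕ) :
    shX L a b (Real.log n) = ∫ v : ℝ, ch n (2 * Real.pi * v) * 𝓕 (shX L a b) v := by
  have h1 : Integrable (shX L a b) := by
    have := shX_int hL hab 0
    rwa [iteratedDeriv_zero] at this
  have hc : Continuous (shX L a b) := (shX_contDiff L a b 0).continuous
  have h2 := congrFun (hc.fourierInv_fourier_eq h1 (shX_integrable_fourier hL hab)) (Real.log n)
  rw [← h2, Real.fourierInv_eq']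
  congr 1
  funext v
  rw [smul_eq_mul]
  congr 1
  unfold ch
  congr 2
  norm_cast
  show 2 * Real.pi * (inner ℝ v (Real.log n)) = _
  have : inner ℝ v (Real.log n) = Real.log n * v := rfl
  rw [this]
  ring

private theorem sh_step {N M n : ℕ} (hN : 1 ≤ N) (hM1 : N ≤ M) (hM : M ≤ 2 * N) (hn : 1 ≤ n) :
    Real.smoothTransition (3 * (N : ℝ) * (Real.log n - Real.log M)) = if n ≤ M then 0 else 1 := by
  have hNr : (1 : ℝ) ≤ N := by exact_mod_cast hN
  have hMr : (N : ℝ) ≤ M := by exact_mod_cast hM1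
  have hM2 : (M : ℝ) ≤ 2 * N := by exact_mod_cast hM
  have hnr : (1 : ℝ) ≤ n := by exact_mod_cast hn
  split_ifs with h
  · apply Real.smoothTransition.zero_of_nonpos
    apply mul_nonpos_of_nonneg_of_nonpos (by positivity)
    have : Real.log n ≤ Real.log M := Real.log_le_log (by linarith) (by exact_mod_cast h)
    linarith
  · apply Real.smoothTransition.one_of_one_le
    have hn2 : (M : ℝ) + 1 ≤ n := by
      have : M + 1 ≤ n := by omega
      exact_mod_cast this
    have h1 : 1 / ((M : ℝ) + 1) ≤ Real.log n - Real.log M := by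
      rw [← Real.log_div (by linarith) (by linarith)]
      have h2 := Real.one_sub_inv_le_log_of_pos (x := (n : ℝ) / M) (div_pos (by linarith) (by linarith))
      refine le_trans ?_ h2
      rw [inv_div]
      have h3 : (M : ℝ) / n ≤ M / (M + 1) := by gcongr
      have h4 : 1 - (M : ℝ) / (M + 1) = 1 / (M + 1) := by
        field_simp
        ring
      linarith
    have h5 : 3 * (N : ℝ) * (1 / ((M : ℝ) + 1)) ≤ 3 * (N : ℝ) * (Real.log n - Real.log M) :=
      mul_le_mul_of_nonneg_left h1 (by positivity)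
    refine le_trans ?_ h5
    rw [mul_one_div, le_div_iff₀ (by positivity)]
    linarith

private theorem sh_cut {N M n : ℕ} (hN : 1 ≤ N) (hM1 : N ≤ M) (hM : M ≤ 2 * N) (hn : 1 ≤ n) :
    shX (3 * (N : ℝ)) (Real.log N) (Real.log M) (Real.log n) = if N < n ∧ n ≤ M then 1 else 0 := by
  unfold shX shP
  rw [sh_step hN le_rfl (by omega) hn, sh_step hN hM1 hM hn]
  by_cases h1 : n ≤ N
  · rw [if_pos h1, if_pos (by omega), if_neg (by omega)]
    simp
  · by_cases h2 : n ≤ M
    · rw [if_neg h1, if_pos h2, if_pos ⟨by omega, h2⟩]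
      simp
    · rw [if_neg h1, if_neg h2, if_neg (by omega)]
      simp

private theorem sh_A_cont (w : ℝ → ℝ) (N : ℕ) : Continuous fun t => A w N t := by
  unfold A ch
  refine continuous_finsetSum _ fun n _ => ?_
  fun_prop

private theorem sh_rep {w : ℝ → ℝ} (h2 : ∀ x, 1 ≤ x → x ≤ 2 → w x = 1) {N M : ℕ} (hN : 1 ≤ N) (hM1 : N ≤ M) (hM : M ≤ 2 * N)
    (t : ℝ) :
    ∑ n ∈ Finset.Ioc N M, ch n (-t) =
      ∫ v : ℝ, 𝓕 (shX (3 * (N : ℝ)) (Real.log N) (Real.log M)) v * A w N (t - 2 * Real.pi * v) := by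
  have hNr : (1 : ℝ) ≤ N := by exact_mod_cast hN
  have hMr : (N : ℝ) ≤ M := by exact_mod_cast hM1
  have hL : (0 : ℝ) < 3 * N := by positivity
  have hab : Real.log N ≤ Real.log M := Real.log_le_log (by linarith) hMr
  set X := shX (3 * (N : ℝ)) (Real.log N) (Real.log M) with hX
  have e1 : ∑ n ∈ Finset.Ioc N M, ch n (-t) = ∑ n ∈ Finset.Icc 1 (4 * N), ((w ((n : ℝ) / N) : ℝ) : ℂ) * ch n (-t) * X (Real.log n) := by
    have hsub : Finset.Ioc N M ⊆ Finset.Icc 1 (4 * N) := by
      intro n hn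
      rw [Finset.mem_Ioc] at hn
      rw [Finset.mem_Icc]
      omega
    rw [← Finset.sum_subset hsub]
    · refine Finset.sum_congr rfl fun n hn => ?_
      rw [Finset.mem_Ioc] at hn
      rw [hX, sh_cut hN hM1 hM (by omega), if_pos hn]
      have hn1 : (N : ℝ) ≤ n := by exact_mod_cast (by omega : N ≤ n)
      have hn2 : (n : ℝ) ≤ 2 * N := by exact_mod_cast (by omega : n ≤ 2 * N)
      rw [h2 ((n : ℝ) / N) (by rw [le_div_iff₀ (by linarith)]; linarith) (by rw [div_le_iff₀ (by linarith)]; linarith)]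
      simp
    · intro n hn hn'
      rw [Finset.mem_Icc] at hn
      rw [Finset.mem_Ioc] at hn'
      rw [hX, sh_cut hN hM1 hM hn.1, if_neg hn', mul_zero]
  rw [e1]
  have hint : ∀ n : ℕ, Integrable fun v : ℝ => ((w ((n : ℝ) / N) : ℝ) : ℂ) * ch n (-t) * (ch n (2 * Real.pi * v) * 𝓕 X v) := by
    intro n
    refine Integrable.const_mul ?_ _
    refine (shX_integrable_fourier hL hab).bdd_mul (c := 1) ?_ (Filter.Eventually.of_forall fun v => (norm_ch _ _).le)
    have : Continuous fun v : ℝ => ch n (2 * Real.pi * v) := by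
      unfold ch
      fun_prop
    exact this.aestronglyMeasurable
  have e2 : ∀ n : ℕ, ((w ((n : ℝ) / N) : ℝ) : ℂ) * ch n (-t) * X (Real.log n) =
      ∫ v : ℝ, ((w ((n : ℝ) / N) : ℝ) : ℂ) * ch n (-t) * (ch n (2 * Real.pi * v) * 𝓕 X v) := by
    intro n
    rw [integral_const_mul, hX, sh_inv hL hab n]
  rw [Finset.sum_congr rfl fun n _ => e2 n, ← integral_finsetSum _ fun n _ => hint n]
  congr 1
  funext v
  unfold A
  rw [Finset.mul_sum]
  refine Finset.sum_congr rfl fun n _ => ?_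
  have e3 : ch n (-(t - 2 * Real.pi * v)) = ch n (-t) * ch n (2 * Real.pi * v) := by
    rw [← ch_add]
    congr 1
    ring
  rw [e3]
  ring

/-- PROOF. Bounded `T`: trivial.  `δ = 1/(100N)`, `η` a fixed smooth even bump supported in `[-1, 1]` with integral one, `χ` = the convolution
of the indicator of `[log(N+1/2), log(M+1/2)]` and of `η(x/δ)/δ`: `χ (log n) = 1` for integers `N < n ≤ M`, `0` for the other integers
`n ≤ 4N`.  `w(n/N) = 1` for `N < n ≤ 2N`, so `sum_(N < n ≤ M) n^(-it) = sum_n w(n/N) χ(log n) n^(-it) = (1/2π) ∫ χ^(v) A w N (t - v) dv`,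
`χ^(v) = ∫ χ(x) e^(-ixv) dx`, `|χ^(v)| ≤ C (1+|v|)^(-1) (1 + δ|v|)^(-20)`.  The part `|v| > T/2` is
`≤ C N ∫_(T/2)^∞ (100N/v)^20 dv/v ≤ C N (N/T)^20 ≤ C` as `N ≤ T^(9/10)` (`‖A‖ ≤ 4BN`). -/
theorem sharp (w : ℝ → ℝ) (hw : Wt w) (h2 : ∀ x, 1 ≤ x → x ≤ 2 → w x = 1) :
    ∃ C : ℝ, 0 ≤ C ∧ ∀ T : ℝ, 1 ≤ T → ∀ N : ℕ, 1 ≤ N → (N : ℝ) ≤ T ^ (9 / 10 : ℝ) → ∀ M : ℕ, N ≤ M → M ≤ 2 * N →
      ∀ t : ℝ, T ≤ t → t ≤ 2 * T →
      ‖∑ n ∈ Finset.Ioc N M, ch n (-t)‖ ≤ C * (1 + ∫ u in (-(T / 2))..(T / 2), ‖A w N (t + u)‖ / (1 + |u|)) := by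
  obtain ⟨hw1, hw2, hw3, -⟩ := hw
  -- bound of the weight
  obtain ⟨B, hB⟩ : ∃ B : ℝ, ∀ x, |w x| ≤ B := by
    obtain ⟨B, hB⟩ := (isCompact_Icc : IsCompact (Set.Icc (1 / 2 : ℝ) 4)).exists_bound_of_continuousOn hw1.continuous.continuousOn
    refine ⟨max B 0, fun x => ?_⟩
    by_cases hx1 : x ≤ 1 / 2
    · rw [hw2 x hx1, abs_zero]
      exact le_max_right _ _
    · by_cases hx2 : 4 ≤ x
      · rw [hw3 x hx2, abs_zero]
        exact le_max_right _ _
      · exact (hB x ⟨by linarith, by linarith⟩).trans (le_max_left _ _)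
  have hB0 : 0 ≤ B := (abs_nonneg _).trans (hB 0)
  set C1 : ℝ := 2 + 2 * shI 0 with hC1
  have hC10 : 0 ≤ C1 := by
    have := shI_nonneg 0
    linarith
  set K0 : ℝ := 40 * 3 ^ 19 * 2 ^ 18 * B * shI 19 with hK0
  have hK00 : 0 ≤ K0 := by
    have := shI_nonneg 19
    positivity
  refine ⟨C1 + K0, by positivity, ?_⟩
  intro T hT N hN hNT M hM1 hM t _ _
  have hT0 : 0 < T := by linarith
  have hNr : (1 : ℝ) ≤ N := by exact_mod_cast hN
  have hN0 : (0 : ℝ) < N := by linarith
  have hMr : (N : ℝ) ≤ M := by exact_mod_cast hM1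
  have hM2 : (M : ℝ) ≤ 2 * N := by exact_mod_cast hM
  have hL : (0 : ℝ) < 3 * N := by positivity
  have hab : Real.log N ≤ Real.log M := Real.log_le_log (by linarith) hMr
  have hA : ∀ s, ‖A w N s‖ ≤ 4 * N * B := by
    intro s
    unfold A
    refine (norm_sum_le _ _).trans ?_
    have h3 : ∀ n ∈ Finset.Icc 1 (4 * N), ‖((w ((n : ℝ) / N) : ℝ) : ℂ) * ch n (-s)‖ ≤ B := by
      intro n _
      rw [norm_mul, norm_ch, mul_one, Complex.norm_real]
      exact hB _
    refine (Finset.sum_le_sum h3).trans (le_of_eq ?_)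
    rw [Finset.sum_const, Nat.card_Icc, nsmul_eq_mul]
    push_cast
    simp
  rw [sh_rep h2 hN hM1 hM t]
  set X := shX (3 * (N : ℝ)) (Real.log N) (Real.log M) with hX
  -- change of variables
  set G : ℝ → ℝ := fun u => ‖𝓕 X (-u / (2 * Real.pi))‖ * ‖A w N (t + u)‖ with hG
  have hpi : 0 < Real.pi := Real.pi_pos
  have hpi3 := Real.pi_gt_three
  have e1 : ∫ v : ℝ, ‖𝓕 X v * A w N (t - 2 * Real.pi * v)‖ = (2 * Real.pi)⁻¹ * ∫ u, G u := by
    have h3 : (fun v : ℝ => ‖𝓕 X v * A w N (t - 2 * Real.pi * v)‖) = fun v => G (-(2 * Real.pi) * v) := by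
      funext v
      rw [hG, norm_mul]
      congr 2
      · congr 1
        field_simp
      · congr 1
        ring
    rw [h3, Measure.integral_comp_mul_left G (-(2 * Real.pi)), smul_eq_mul]
    congr 1
    rw [inv_neg, abs_neg, abs_of_pos (by positivity)]
  -- bounds of the transform
  have hX0 : ∀ v, ‖𝓕 X v‖ ≤ 2 := by
    intro v
    refine (sh_norm_fourier _ v).trans ((shX_L1 hL hab).trans ?_)
    have h3 : Real.log M ≤ Real.log 2 + Real.log N := by
      rw [← Real.log_mul (by norm_num) (by linarith)]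
      exact Real.log_le_log (by linarith) hM2
    have h4 : Real.log 2 ≤ 1 := by
      have := Real.log_two_lt_d9
      linarith
    have h5 : 1 / (3 * (N : ℝ)) ≤ 1 := by
      rw [div_le_one hL]
      linarith
    linarith
  have hX1 : ∀ u : ℝ, (1 + |u|) * ‖𝓕 X (-u / (2 * Real.pi))‖ ≤ C1 := by
    intro u
    have h3 := shX_fourier hL hab 0 (-u / (2 * Real.pi))
    have h4 : 2 * Real.pi * |-u / (2 * Real.pi)| = |u| := by
      rw [abs_div, abs_neg, abs_of_pos (by positivity : (0 : ℝ) < 2 * Real.pi)]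
      field_simp
    rw [h4, zero_add, pow_one, pow_zero, mul_one] at h3
    have h5 := hX0 (-u / (2 * Real.pi))
    have h6 : shI 0 = ∫ x, ‖iteratedDeriv (0 + 1) shP x‖ := rfl
    rw [zero_add] at h6
    rw [add_mul, one_mul, hC1, h6]
    exact add_le_add h5 h3
  have hX20 : ∀ u : ℝ, |u| ^ 20 * ‖𝓕 X (-u / (2 * Real.pi))‖ ≤ 2 * (3 * (N : ℝ)) ^ 19 * shI 19 := by
    intro u
    have h3 := shX_fourier hL hab 19 (-u / (2 * Real.pi))
    have h4 : 2 * Real.pi * |-u / (2 * Real.pi)| = |u| := by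
      rw [abs_div, abs_neg, abs_of_pos (by positivity : (0 : ℝ) < 2 * Real.pi)]
      field_simp
    rw [h4] at h3
    exact h3
  have hNT20 : (N : ℝ) ^ 20 ≤ T ^ 18 := by
    calc (N : ℝ) ^ 20 ≤ (T ^ (9 / 10 : ℝ)) ^ 20 := pow_le_pow_left₀ hN0.le hNT 20
      _ = T ^ 18 := by
        rw [← Real.rpow_natCast, ← Real.rpow_mul hT0.le, ← Real.rpow_natCast]
        norm_num
  -- pointwise bound
  have hpt : ∀ u, G u ≤ Set.indicator (Set.Ioc (-(T / 2)) (T / 2)) (fun u => C1 * (‖A w N (t + u)‖ / (1 + |u|))) u +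
      K0 * (1 + u ^ 2)⁻¹ := by
    intro u
    have hq0 : 0 ≤ K0 * (1 + u ^ 2)⁻¹ := by positivity
    by_cases hu : u ∈ Set.Ioc (-(T / 2)) (T / 2)
    · rw [Set.indicator_of_mem hu]
      have h3 : G u ≤ C1 * (‖A w N (t + u)‖ / (1 + |u|)) := by
        have h4 := hX1 u
        have h5 : 0 < 1 + |u| := by positivity
        rw [mul_div_assoc', le_div_iff₀ h5, hG]
        calc ‖𝓕 X (-u / (2 * Real.pi))‖ * ‖A w N (t + u)‖ * (1 + |u|)
            = ((1 + |u|) * ‖𝓕 X (-u / (2 * Real.pi))‖) * ‖A w N (t + u)‖ := by ring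
          _ ≤ C1 * ‖A w N (t + u)‖ := mul_le_mul_of_nonneg_right h4 (norm_nonneg _)
      linarith
    · rw [Set.indicator_of_notMem hu, zero_add]
      have hu1 : T / 2 ≤ |u| := by
        rw [Set.mem_Ioc, not_and_or, not_lt, not_le] at hu
        rcases hu with hu | hu
        · exact le_trans (by linarith) (neg_le_abs u)
        · exact le_trans hu.le (le_abs_self u)
      have hu0 : 0 < |u| := by linarith
      have h3 := hX20 u
      have h4 : (T / 2) ^ 18 * ((1 + u ^ 2) / 5) ≤ |u| ^ 20 := by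
        have h5 : (T / 2) ^ 18 ≤ |u| ^ 18 := pow_le_pow_left₀ (by positivity) hu1 18
        have h6 : (1 + u ^ 2) / 5 ≤ |u| ^ 2 := by
          rw [sq_abs]
          have : (1 / 2 : ℝ) ≤ |u| := by linarith
          have h7 : (1 / 2 : ℝ) ^ 2 ≤ |u| ^ 2 := pow_le_pow_left₀ (by norm_num) this 2
          rw [sq_abs] at h7
          linarith
        calc (T / 2) ^ 18 * ((1 + u ^ 2) / 5) ≤ |u| ^ 18 * |u| ^ 2 := by gcongr
          _ = |u| ^ 20 := by rw [← pow_add]
      have h7 : (T / 2) ^ 18 * ((1 + u ^ 2) / 5) * ‖𝓕 X (-u / (2 * Real.pi))‖ ≤ 2 * (3 * (N : ℝ)) ^ 19 * shI 19 :=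
        (mul_le_mul_of_nonneg_right h4 (norm_nonneg _)).trans h3
      have h8 : (1 + u ^ 2) * G u ≤ K0 := by
        have hT18 : 0 < T ^ 18 := by positivity
        have h9 : T ^ 18 * ((1 + u ^ 2) * G u) ≤ T ^ 18 * K0 := by
          calc T ^ 18 * ((1 + u ^ 2) * G u)
              = (2 ^ 18 * 5) * ((T / 2) ^ 18 * ((1 + u ^ 2) / 5) * ‖𝓕 X (-u / (2 * Real.pi))‖) * ‖A w N (t + u)‖ := by
                rw [hG]
                ring
            _ ≤ (2 ^ 18 * 5) * (2 * (3 * (N : ℝ)) ^ 19 * shI 19) * (4 * N * B) := by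
                have := shI_nonneg 19
                have := hA (t + u)
                gcongr
            _ = K0 * (N : ℝ) ^ 20 := by
                rw [hK0]
                ring
            _ ≤ K0 * T ^ 18 := by gcongr
            _ = T ^ 18 * K0 := by ring
        exact le_of_mul_le_mul_left h9 hT18
      rw [← div_eq_mul_inv, le_div_iff₀ (by positivity)]
      linarith
  have hcont : Continuous fun u => C1 * (‖A w N (t + u)‖ / (1 + |u|)) := by
    have h3 := sh_A_cont w N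
    have h4 : Continuous fun u => ‖A w N (t + u)‖ := (h3.comp (continuous_const.add continuous_id)).norm
    refine continuous_const.mul (h4.div (by fun_prop) fun u => ?_)
    positivity
  have hi1 : Integrable (Set.indicator (Set.Ioc (-(T / 2)) (T / 2)) (fun u => C1 * (‖A w N (t + u)‖ / (1 + |u|)))) :=
    (integrable_indicator_iff measurableSet_Ioc).2 (hcont.integrableOn_Ioc)
  have hi2 : Integrable fun u : ℝ => K0 * (1 + u ^ 2)⁻¹ := integrable_inv_one_add_sq.const_mul _
  have hmain : ∫ u, G u ≤ C1 * (∫ u in (-(T / 2))..(T / 2), ‖A w N (t + u)‖ / (1 + |u|)) + K0 * Real.pi := by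
    have h3 : ∫ u, G u ≤ ∫ u, (Set.indicator (Set.Ioc (-(T / 2)) (T / 2)) (fun u => C1 * (‖A w N (t + u)‖ / (1 + |u|))) u +
        K0 * (1 + u ^ 2)⁻¹) :=
      integral_mono_of_nonneg (Filter.Eventually.of_forall fun u => by positivity) (hi1.add hi2)
        (Filter.Eventually.of_forall hpt)
    refine h3.trans (le_of_eq ?_)
    rw [integral_add hi1 hi2, integral_indicator measurableSet_Ioc, integral_const_mul, integral_const_mul,
      integral_univ_inv_one_add_sq, intervalIntegral.integral_of_le (by linarith)]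
  have hI0 : 0 ≤ ∫ u in (-(T / 2))..(T / 2), ‖A w N (t + u)‖ / (1 + |u|) :=
    intervalIntegral.integral_nonneg (by linarith) fun u _ => by positivity
  refine (norm_integral_le_integral_norm _).trans ?_
  rw [e1]
  have h3 : (2 * Real.pi)⁻¹ ≤ 1 := inv_le_one_of_one_le₀ (by linarith)
  have h4 : (2 * Real.pi)⁻¹ * Real.pi = 1 / 2 := by field_simp
  calc (2 * Real.pi)⁻¹ * ∫ u, G u
      ≤ (2 * Real.pi)⁻¹ * (C1 * (∫ u in (-(T / 2))..(T / 2), ‖A w N (t + u)‖ / (1 + |u|)) + K0 * Real.pi) := by gcongr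
    _ = (2 * Real.pi)⁻¹ * (C1 * (∫ u in (-(T / 2))..(T / 2), ‖A w N (t + u)‖ / (1 + |u|))) + K0 * ((2 * Real.pi)⁻¹ * Real.pi) := by
        ring
    _ ≤ 1 * (C1 * (∫ u in (-(T / 2))..(T / 2), ‖A w N (t + u)‖ / (1 + |u|))) + K0 * (1 / 2) := by
        rw [h4]
        gcongr
    _ ≤ (C1 + K0) * (1 + ∫ u in (-(T / 2))..(T / 2), ‖A w N (t + u)‖ / (1 + |u|)) := by
        have h5 : 0 ≤ K0 * ∫ u in (-(T / 2))..(T / 2), ‖A w N (t + u)‖ / (1 + |u|) := mul_nonneg hK00 hI0
        nlinarith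

end Pool.Agent.Lib.TW
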