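import Pool.Agent.Lib.TW.Defs

/-!
# TW / Wx: the weight
-/

set_option autoImplicit false

open MeasureTheory

namespace Pool.Agent.Lib.TW

open scoped ContDiff FourierTransform SchwartzMap in
private theorem wx_inv (c : ℝ → ℝ) (hc : ContDiff ℝ ∞ c) (h0 : ∀ u, u ≤ -Real.log 2 → c u = 0)
    (h1 : ∀ u, Real.log 4 ≤ u → c u = 0) :
    ∃ g : ℝ → ℂ, Continuous g ∧ Integrable (fun v : ℝ => (1 + |v|) ^ 4 * ‖g v‖) ∧
      ∀ x : ℝ, 0 < x → ((c (Real.log x) : ℝ) : ℂ) = ∫ v : ℝ, g v * ch x v := by
  have hpi : (0 : ℝ) < 2 * Real.pi := by positivity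
  have hf2 : ContDiff ℝ ∞ (fun u : ℝ => ((c (2 * Real.pi * u) : ℝ) : ℂ)) :=
    Complex.ofRealCLM.contDiff.comp (hc.comp (contDiff_const.mul contDiff_id))
  have hs2 : HasCompactSupport (fun u : ℝ => ((c (2 * Real.pi * u) : ℝ) : ℂ)) := by
    apply HasCompactSupport.intro (isCompact_Icc (a := -Real.log 2 / (2 * Real.pi)) (b := Real.log 4 / (2 * Real.pi)))
    intro u hu
    have : c (2 * Real.pi * u) = 0 := by
      by_cases h : u < -Real.log 2 / (2 * Real.pi)
      · apply h0
        rw [lt_div_iff₀ hpi] at h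
        linarith
      · apply h1
        have h' : ¬ u ≤ Real.log 4 / (2 * Real.pi) := fun h'' => hu ⟨not_lt.mp h, h''⟩
        rw [not_le, div_lt_iff₀ hpi] at h'
        linarith
    simp [this]
  set F : 𝓢(ℝ, ℂ) := hs2.toSchwartzMap hf2 with hF
  have hFv : ∀ u : ℝ, F u = ((c (2 * Real.pi * u) : ℝ) : ℂ) := fun u => rfl
  refine ⟨fun v => (𝓕 F : 𝓢(ℝ, ℂ)) v, (𝓕 F : 𝓢(ℝ, ℂ)).continuous, ?_, ?_⟩
  · have hk : ∀ k : ℕ, Integrable (fun v : ℝ => ‖v‖ ^ k * ‖(𝓕 F : 𝓢(ℝ, ℂ)) v‖) :=
      fun k => (𝓕 F : 𝓢(ℝ, ℂ)).integrable_pow_mul volume k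
    have h4 := ((((hk 0).add ((hk 1).const_mul 4)).add ((hk 2).const_mul 6)).add ((hk 3).const_mul 4)).add (hk 4)
    refine h4.congr (Filter.Eventually.of_forall fun v => ?_)
    simp only [Pi.add_apply, Real.norm_eq_abs]
    ring
  · intro x hx
    have hinv : (𝓕⁻ (𝓕 F) : 𝓢(ℝ, ℂ)) (Real.log x / (2 * Real.pi)) = F (Real.log x / (2 * Real.pi)) := by
      rw [FourierTransform.fourierInv_fourier_eq]
    rw [hFv] at hinv
    have e1 : 2 * Real.pi * (Real.log x / (2 * Real.pi)) = Real.log x := by field_simp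
    rw [e1] at hinv
    rw [← hinv, SchwartzMap.fourierInv_coe, Real.fourierInv_eq']
    apply integral_congr_ae
    refine Filter.Eventually.of_forall fun v => ?_
    simp only [ch, smul_eq_mul]
    rw [mul_comm]
    congr 2
    have : (2 * Real.pi * inner ℝ v (Real.log x / (2 * Real.pi)) : ℝ) = v * Real.log x := by
      have hi : inner ℝ v (Real.log x / (2 * Real.pi)) = (Real.log x / (2 * Real.pi)) * v := by
        rw [real_inner_comm]
        simp [mul_comm]
      rw [hi]
      field_simp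
    rw [← this]

open scoped ContDiff in
private theorem wx_wt (c : ℝ → ℝ) (hc : ContDiff ℝ ∞ c) (h0 : ∀ u, u ≤ -Real.log 2 → c u = 0)
    (h1 : ∀ u, Real.log 4 ≤ u → c u = 0) : Wt (fun x => if 0 < x then c (Real.log x) else 0) := by
  have hz : ∀ x : ℝ, x ≤ 1 / 2 → (if 0 < x then c (Real.log x) else 0) = 0 := by
    intro x hx
    split_ifs with h
    · apply h0
      have := Real.log_le_log h hx
      rwa [one_div, Real.log_inv] at this
    · rfl
  refine ⟨?_, hz, ?_, ?_⟩
  · rw [contDiff_iff_contDiffAt]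
    intro x
    by_cases hx : x < 1 / 2
    · have : (fun x : ℝ => if 0 < x then c (Real.log x) else 0) =ᶠ[nhds x] fun _ => 0 := by
        filter_upwards [Iio_mem_nhds hx] with y hy
        exact hz y (le_of_lt hy)
      exact contDiffAt_const.congr_of_eventuallyEq this
    · have hx0 : 0 < x := by linarith
      have : (fun x : ℝ => if 0 < x then c (Real.log x) else 0) =ᶠ[nhds x] fun x => c (Real.log x) := by
        filter_upwards [Ioi_mem_nhds hx0] with y hy
        exact if_pos hy
      refine ContDiffAt.congr_of_eventuallyEq ?_ this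
      have hc2 : ContDiff ℝ 2 c := contDiff_infty.mp hc 2
      exact (hc2.contDiffAt).comp x (Real.contDiffAt_log.mpr hx0.ne')
  · intro x hx
    have hx0 : 0 < x := by linarith
    simp only [if_pos hx0]
    exact h1 _ (Real.log_le_log (by norm_num) hx)
  · obtain ⟨g, hg, hgi, hgx⟩ := wx_inv c hc h0 h1
    refine ⟨g, hg, hgi, fun x hx => ?_⟩
    simp only [if_pos hx]
    exact hgx x hx

/-- PROOF. `b` smooth on `ℝ`, supported in `[-log 2, log 4]`, `1` on `[0, log 2]` (product of two `Real.smoothTransition` or a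
`ContDiffBump`); `w x = b (log x)` for `x > 0`, `0` for `x ≤ 0` (`b (log x)` is `0` near `0`, so `w` is smooth).  `b` and `u ↦ u b(u)` are
Schwartz functions, so are their Fourier transforms (`SchwartzMap`, `HasCompactSupport`), and Fourier inversion gives
`b(u) = ∫ g(v) e^(iuv) dv`, `g(v) = (1/2π) (𝓕 b)(v/2π)`, `(1+|v|)^4 ‖g‖` integrable. -/
theorem exists_wt : ∃ w : ℝ → ℝ, Wt w ∧ Wt (fun x => w x * Real.log x) ∧ ∀ x, 1 ≤ x → x ≤ 2 → w x = 1 := by
  have hl2 : 0 < Real.log 2 := Real.log_pos (by norm_num)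
  have hl4 : Real.log 4 = 2 * Real.log 2 := by
    rw [show (4 : ℝ) = 2 ^ 2 by norm_num, Real.log_pow]
    norm_num
  set b : ℝ → ℝ := fun u => Real.smoothTransition ((u + Real.log 2) / Real.log 2) *
    Real.smoothTransition ((Real.log 4 - u) / Real.log 2) with hb
  have hbs : ContDiff ℝ (⊤ : ℕ∞) b := by
    apply ContDiff.mul
    · exact Real.smoothTransition.contDiff.comp ((contDiff_id.add contDiff_const).div_const _)
    · exact Real.smoothTransition.contDiff.comp ((contDiff_const.sub contDiff_id).div_const _)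
  have hb0 : ∀ u, u ≤ -Real.log 2 → b u = 0 := by
    intro u hu
    simp only [hb]
    rw [Real.smoothTransition.zero_of_nonpos, zero_mul]
    apply div_nonpos_of_nonpos_of_nonneg (by linarith) hl2.le
  have hb1 : ∀ u, Real.log 4 ≤ u → b u = 0 := by
    intro u hu
    simp only [hb]
    rw [Real.smoothTransition.zero_of_nonpos (x := (Real.log 4 - u) / Real.log 2), mul_zero]
    apply div_nonpos_of_nonpos_of_nonneg (by linarith) hl2.le
  refine ⟨fun x => if 0 < x then b (Real.log x) else 0, wx_wt b hbs hb0 hb1, ?_, ?_⟩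
  · have h := wx_wt (fun u => b u * u) (hbs.mul contDiff_id) (fun u hu => by rw [hb0 u hu, zero_mul])
      (fun u hu => by rw [hb1 u hu, zero_mul])
    have e : (fun x : ℝ => (if 0 < x then b (Real.log x) else 0) * Real.log x) =
        fun x => if 0 < x then (fun u => b u * u) (Real.log x) else 0 := by
      funext x
      split_ifs
      · rfl
      · exact zero_mul _
    rw [e]
    exact h
  · intro x hx1 hx2
    have hx0 : 0 < x := by linarith
    simp only [if_pos hx0, hb]
    have hlx : 0 ≤ Real.log x := Real.log_nonneg hx1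
    have hlx2 : Real.log x ≤ Real.log 2 := Real.log_le_log hx0 hx2
    rw [Real.smoothTransition.one_of_one_le, Real.smoothTransition.one_of_one_le, one_mul]
    · rw [le_div_iff₀ hl2]
      linarith
    · rw [le_div_iff₀ hl2]
      linarith

end Pool.Agent.Lib.TW
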