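import Pool.Agent.Lib.TW.Mo
import Pool.Agent.Lib.TW.Sh
import Pool.Agent.Lib.TW.Cv
import Pool.Agent.Lib.TW.Wx

/-!
# TW / Bk: the twelfth power moment, sharp blocks
-/

set_option autoImplicit false

open MeasureTheory

namespace Pool.Agent.Lib.TW

private theorem abel_bk (a : ℕ → ℝ) (z : ℕ → ℂ) (N : ℕ) (B : ℝ)
    (hanti : ∀ n, N < n → a (n + 1) ≤ a n) (K : ℕ)
    (hB : ∀ M, N ≤ M → M ≤ K → ‖∑ n ∈ Finset.Ioc N M, z n‖ ≤ B) :
    ∀ M, N + 1 ≤ M → M ≤ K →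
      ‖∑ n ∈ Finset.Ioc N M, (a n : ℂ) * z n - (a M : ℂ) * ∑ n ∈ Finset.Ioc N M, z n‖ ≤ (a (N + 1) - a M) * B := by
  intro M hM
  induction M, hM using Nat.le_induction with
  | base =>
    intro _
    simp
  | succ M hM ih =>
    intro hK
    have h1 := ih (by omega)
    have h2 := hB M (by omega) (by omega)
    have e1 : Finset.Ioc N (M + 1) = insert (M + 1) (Finset.Ioc N M) := by
      ext x
      simp only [Finset.mem_Ioc, Finset.mem_insert]
      omega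
    have hn : (M + 1) ∉ Finset.Ioc N M := by simp
    rw [e1, Finset.sum_insert hn, Finset.sum_insert hn]
    have e2 : ((a (M + 1) : ℂ) * z (M + 1) + ∑ n ∈ Finset.Ioc N M, (a n : ℂ) * z n) -
        (a (M + 1) : ℂ) * (z (M + 1) + ∑ n ∈ Finset.Ioc N M, z n) =
        (∑ n ∈ Finset.Ioc N M, (a n : ℂ) * z n - (a M : ℂ) * ∑ n ∈ Finset.Ioc N M, z n) +
          ((a M - a (M + 1) : ℝ) : ℂ) * ∑ n ∈ Finset.Ioc N M, z n := by
      push_cast
      ring
    rw [e2]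
    have hd : 0 ≤ a M - a (M + 1) := by linarith [hanti M (by omega)]
    calc _ ≤ ‖∑ n ∈ Finset.Ioc N M, (a n : ℂ) * z n - (a M : ℂ) * ∑ n ∈ Finset.Ioc N M, z n‖ +
          ‖((a M - a (M + 1) : ℝ) : ℂ) * ∑ n ∈ Finset.Ioc N M, z n‖ := norm_add_le _ _
      _ ≤ (a (N + 1) - a M) * B + (a M - a (M + 1)) * B := by
          rw [norm_mul, Complex.norm_real, Real.norm_of_nonneg hd]
          gcongr
      _ = (a (N + 1) - a (M + 1)) * B := by ring

private theorem abel_bk2 (a : ℕ → ℝ) (z : ℕ → ℂ) (N : ℕ) (B : ℝ) (ha : ∀ n, N < n → 0 ≤ a n)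
    (hanti : ∀ n, N < n → a (n + 1) ≤ a n) (K : ℕ) (hK : N + 1 ≤ K)
    (hB : ∀ M, N ≤ M → M ≤ K → ‖∑ n ∈ Finset.Ioc N M, z n‖ ≤ B) :
    ‖∑ n ∈ Finset.Ioc N K, (a n : ℂ) * z n‖ ≤ a (N + 1) * B := by
  have h1 := abel_bk a z N B hanti K hB K hK le_rfl
  have h2 := hB K (by omega) le_rfl
  have h3 : ‖(a K : ℂ) * ∑ n ∈ Finset.Ioc N K, z n‖ ≤ a K * B := by
    rw [norm_mul, Complex.norm_real, Real.norm_of_nonneg (ha K (by omega))]
    exact mul_le_mul_of_nonneg_left h2 (ha K (by omega))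
  calc ‖∑ n ∈ Finset.Ioc N K, (a n : ℂ) * z n‖
      = ‖(∑ n ∈ Finset.Ioc N K, (a n : ℂ) * z n - (a K : ℂ) * ∑ n ∈ Finset.Ioc N K, z n) +
          (a K : ℂ) * ∑ n ∈ Finset.Ioc N K, z n‖ := by congr 1; ring
    _ ≤ _ := norm_add_le _ _
    _ ≤ (a (N + 1) - a K) * B + a K * B := add_le_add h1 h3
    _ = a (N + 1) * B := by ring

private theorem cont_ch (x : ℝ) : Continuous fun v : ℝ => ch x v := by
  unfold ch
  fun_prop

private theorem cont_A (w : ℝ → ℝ) (N : ℕ) : Continuous fun t : ℝ => A w N t := by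
  unfold A
  refine continuous_finsetSum _ fun n _ => ?_
  exact continuous_const.mul ((cont_ch n).comp continuous_neg)

private theorem cont_I (w : ℝ → ℝ) (N : ℕ) (T : ℝ) :
    Continuous fun t : ℝ => ∫ u in (-(T / 2))..(T / 2), ‖A w N (t + u)‖ / (1 + |u|) := by
  refine intervalIntegral.continuous_parametric_intervalIntegral_of_continuous' (f := fun t u => ‖A w N (t + u)‖ / (1 + |u|)) ?_ _ _
  have hA := cont_A w N
  have h1 : Continuous fun p : ℝ × ℝ => ‖A w N (p.1 + p.2)‖ := (hA.comp (continuous_fst.add continuous_snd)).norm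
  refine h1.div (by fun_prop) ?_
  rintro ⟨t, u⟩
  have := abs_nonneg u
  simp only
  positivity

/-- PROOF (over the imported rows). `w` from `exists_wt`.  Abel summation with the nonnegative antitone weights `φ n n^(-σ)`: the block is
at most `N^(-σ) max_M ‖sum_(N < n ≤ M) n^(-it)‖` (`ch_eq_cpow`), so `V N^σ ≤ C(1 + I(t))` by `sharp`.  If `V N^σ ≤ 2C` the claim is trivial
(measure `≤ T`).  Else `I(t) ≥ V N^σ/(2C)`, Chebyshev with the twelfth power, `conv12`, `mom12`. -/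
theorem block12 {σ : ℝ} (h0 : 0 ≤ σ) {ε : ℝ} (hε : 0 < ε) : ∃ C : ℝ, 0 ≤ C ∧ ∀ T : ℝ, 1 ≤ T → ∀ N : ℕ, 1 ≤ N →
    (N : ℝ) ≤ T ^ (9 / 10 : ℝ) → ∀ φ : ℕ → ℝ, (∀ n, 0 ≤ φ n) → (∀ n, φ n ≤ 1) → Antitone φ → ∀ V : ℝ, 0 < V →
      (volume {t : ℝ | t ∈ Set.Icc T (2 * T) ∧
        V ≤ ‖∑ n ∈ Finset.Ioc N (2 * N), ((φ n * (n : ℝ) ^ (-σ) : ℝ) : ℂ) *
          (n : ℂ) ^ (-((t : ℂ) * Complex.I))‖}).toReal ≤ C * T ^ (2 + ε) * (N : ℝ) ^ (6 - 12 * σ) / V ^ 12 := by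
  obtain ⟨w, hw, hw1, h2⟩ := exists_wt
  obtain ⟨C1, hC1, hsharp⟩ := sharp w hw h2
  obtain ⟨C2, hC2, hconv⟩ := conv12 (ε := ε / 2) (by positivity)
  obtain ⟨C3, hC3, hmom⟩ := mom12 w hw hw1 (ε := ε / 2) (by positivity)
  set D : ℝ := C1 + 1 with hD
  have hD0 : 0 < D := by positivity
  refine ⟨(2 * D) ^ 12 * (1 + C2 * C3), by positivity, ?_⟩
  intro T hT N hN hNT φ hφ0 hφ1 hφa V hV
  have hT0 : (0 : ℝ) < T := by linarith
  have hN1 : (1 : ℝ) ≤ N := by exact_mod_cast hN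
  have hN0 : (0 : ℝ) < N := by linarith
  set I : ℝ → ℝ := fun t => ∫ u in (-(T / 2))..(T / 2), ‖A w N (t + u)‖ / (1 + |u|) with hI
  have hIc : Continuous I := cont_I w N T
  have hI0 : ∀ t, 0 ≤ I t := fun t => by
    refine intervalIntegral.integral_nonneg (by linarith) fun u _ => ?_
    have := abs_nonneg u
    positivity
  -- the block bound
  have hblock : ∀ t : ℝ, T ≤ t → t ≤ 2 * T →
      ‖∑ n ∈ Finset.Ioc N (2 * N), ((φ n * (n : ℝ) ^ (-σ) : ℝ) : ℂ) * (n : ℂ) ^ (-((t : ℂ) * Complex.I))‖ ≤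
        (N : ℝ) ^ (-σ) * (D * (1 + I t)) := by
    intro t ht1 ht2
    have hI1 : 0 ≤ 1 + I t := by linarith [hI0 t]
    have hs : ∀ M, N ≤ M → M ≤ 2 * N → ‖∑ n ∈ Finset.Ioc N M, (n : ℂ) ^ (-((t : ℂ) * Complex.I))‖ ≤ D * (1 + I t) := by
      intro M hM1 hM2
      have h := hsharp T hT N hN hNT M hM1 hM2 t ht1 ht2
      have e : ∑ n ∈ Finset.Ioc N M, (n : ℂ) ^ (-((t : ℂ) * Complex.I)) = ∑ n ∈ Finset.Ioc N M, ch n (-t) := by
        refine Finset.sum_congr rfl fun n hn => ?_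
        rw [Finset.mem_Ioc] at hn
        rw [ch_eq_cpow (by omega)]
      rw [e]
      refine h.trans ?_
      have : C1 ≤ D := by rw [hD]; linarith
      exact mul_le_mul_of_nonneg_right this hI1
    have hpow : ∀ n : ℕ, N < n → ((n + 1 : ℕ) : ℝ) ^ (-σ) ≤ (n : ℝ) ^ (-σ) := by
      intro n hn
      have hn0 : (0 : ℝ) < n := by exact_mod_cast (by omega : 0 < n)
      refine Real.rpow_le_rpow_of_nonpos hn0 (by push_cast; linarith) (by linarith)
    have h := abel_bk2 (fun n => φ n * (n : ℝ) ^ (-σ)) (fun n => (n : ℂ) ^ (-((t : ℂ) * Complex.I))) N (D * (1 + I t))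
      (fun n _ => mul_nonneg (hφ0 n) (by positivity))
      (fun n hn => mul_le_mul (hφa (by omega)) (hpow n hn) (by positivity) (hφ0 n)) (2 * N) (by omega) hs
    refine h.trans ?_
    have h3 : φ (N + 1) * ((N + 1 : ℕ) : ℝ) ^ (-σ) ≤ (N : ℝ) ^ (-σ) := by
      have hle : ((N + 1 : ℕ) : ℝ) ^ (-σ) ≤ (N : ℝ) ^ (-σ) :=
        Real.rpow_le_rpow_of_nonpos hN0 (by push_cast; linarith) (by linarith)
      calc φ (N + 1) * ((N + 1 : ℕ) : ℝ) ^ (-σ) ≤ 1 * ((N + 1 : ℕ) : ℝ) ^ (-σ) :=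
            mul_le_mul_of_nonneg_right (hφ1 _) (by positivity)
        _ ≤ (N : ℝ) ^ (-σ) := by rw [one_mul]; exact hle
    exact mul_le_mul_of_nonneg_right h3 (by positivity)
  set S : Set ℝ := {t : ℝ | t ∈ Set.Icc T (2 * T) ∧
        V ≤ ‖∑ n ∈ Finset.Ioc N (2 * N), ((φ n * (n : ℝ) ^ (-σ) : ℝ) : ℂ) *
          (n : ℂ) ^ (-((t : ℂ) * Complex.I))‖} with hS
  have hNσ : (N : ℝ) ^ (-σ) * (N : ℝ) ^ σ = 1 := by
    rw [← Real.rpow_add hN0]; simp
  have hNσ0 : 0 < (N : ℝ) ^ σ := by positivity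
  have hVI : ∀ t ∈ S, V * (N : ℝ) ^ σ ≤ D * (1 + I t) := by
    rintro t ⟨ht, hVt⟩
    have h := hVt.trans (hblock t ht.1 ht.2)
    calc V * (N : ℝ) ^ σ ≤ ((N : ℝ) ^ (-σ) * (D * (1 + I t))) * (N : ℝ) ^ σ := by gcongr
      _ = ((N : ℝ) ^ (-σ) * (N : ℝ) ^ σ) * (D * (1 + I t)) := by ring
      _ = D * (1 + I t) := by rw [hNσ, one_mul]
  have hSsub : S ⊆ Set.Icc T (2 * T) := fun t ht => ht.1
  have hpowN : (N : ℝ) ^ (6 - 12 * σ) = (N : ℝ) ^ 6 / ((N : ℝ) ^ σ) ^ 12 := by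
    have h6 : (N : ℝ) ^ (6 : ℝ) = (N : ℝ) ^ 6 := by exact_mod_cast Real.rpow_natCast (N : ℝ) 6
    have h12 : (N : ℝ) ^ (12 * σ) = ((N : ℝ) ^ σ) ^ 12 := by
      rw [mul_comm, Real.rpow_mul hN0.le]
      exact_mod_cast Real.rpow_natCast ((N : ℝ) ^ σ) 12
    rw [Real.rpow_sub hN0, h6, h12]
  by_cases hcase : V * (N : ℝ) ^ σ ≤ 2 * D
  · -- trivial case
    have hm : (volume S).toReal ≤ T := by
      have h1 : volume S ≤ volume (Set.Icc T (2 * T)) := measure_mono hSsub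
      have h2 : volume (Set.Icc T (2 * T)) = ENNReal.ofReal T := by
        rw [Real.volume_Icc]; congr 1; ring
      rw [h2] at h1
      exact ENNReal.toReal_le_of_le_ofReal hT0.le h1
    refine hm.trans ?_
    rw [le_div_iff₀ (by positivity), hpowN]
    have e : (2 * D) ^ 12 * (1 + C2 * C3) * T ^ (2 + ε) * ((N : ℝ) ^ 6 / ((N : ℝ) ^ σ) ^ 12) =
        ((2 * D) ^ 12 / ((N : ℝ) ^ σ) ^ 12) * ((1 + C2 * C3) * T ^ (2 + ε) * (N : ℝ) ^ 6) := by
      field_simp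
    rw [e]
    have hV12 : V ^ 12 ≤ (2 * D) ^ 12 / ((N : ℝ) ^ σ) ^ 12 := by
      rw [le_div_iff₀ (by positivity), ← mul_pow]
      exact pow_le_pow_left₀ (by positivity) hcase 12
    have hT2 : T ≤ (1 + C2 * C3) * T ^ (2 + ε) * (N : ℝ) ^ 6 := by
      have h1 : T ≤ T ^ (2 + ε) := by
        calc T = T ^ (1 : ℝ) := (Real.rpow_one T).symm
          _ ≤ T ^ (2 + ε) := Real.rpow_le_rpow_of_exponent_le hT (by linarith)
      have h2 : (1 : ℝ) ≤ (N : ℝ) ^ 6 := one_le_pow₀ hN1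
      have h3 : (1 : ℝ) ≤ 1 + C2 * C3 := by nlinarith [mul_nonneg hC2 hC3]
      have hTp : 0 ≤ T ^ (2 + ε) := by positivity
      calc T ≤ T ^ (2 + ε) := h1
        _ = 1 * T ^ (2 + ε) * 1 := by ring
        _ ≤ (1 + C2 * C3) * T ^ (2 + ε) * (N : ℝ) ^ 6 := by gcongr
    calc T * V ^ 12 = V ^ 12 * T := by ring
      _ ≤ _ := mul_le_mul hV12 hT2 hT0.le (by positivity)
  · push Not at hcase
    set lam : ℝ := V * (N : ℝ) ^ σ / (2 * D) with hlam
    have hlam0 : 0 < lam := by positivity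
    have hlam1 : 1 < lam := by
      rw [hlam, one_lt_div (by positivity)]
      exact hcase
    have hVD : V * (N : ℝ) ^ σ = 2 * D * lam := by
      rw [hlam]; field_simp
    have hSI : ∀ t ∈ S, lam ≤ I t := by
      intro t ht
      have h := hVI t ht
      rw [hVD] at h
      have h5 : 2 * lam ≤ 1 + I t := by
        have : D * (2 * lam) ≤ D * (1 + I t) := by linarith
        exact le_of_mul_le_mul_left this hD0
      linarith
    have hcheb : lam ^ 12 * (volume S).toReal ≤ ∫ t in T..(2 * T), I t ^ 12 := by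
      have hint : Integrable (fun t => I t ^ 12) (volume.restrict (Set.Icc T (2 * T))) :=
        (hIc.pow 12).continuousOn.integrableOn_Icc
      have h := mul_meas_ge_le_integral_of_nonneg (μ := volume.restrict (Set.Icc T (2 * T)))
        (f := fun t => I t ^ 12) (Filter.Eventually.of_forall fun t => by have := hI0 t; positivity) hint (lam ^ 12)
      rw [intervalIntegral.integral_of_le (by linarith), ← integral_Icc_eq_integral_Ioc]
      refine le_trans ?_ h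
      refine mul_le_mul_of_nonneg_left ?_ (by positivity)
      have hfin : (volume.restrict (Set.Icc T (2 * T))) {x | lam ^ 12 ≤ I x ^ 12} ≠ ⊤ := by
        refine ne_of_lt (lt_of_le_of_lt (measure_mono (Set.subset_univ _)) ?_)
        rw [Measure.restrict_apply_univ, Real.volume_Icc]
        exact ENNReal.ofReal_lt_top
      refine ENNReal.toReal_mono hfin ?_
      rw [Measure.restrict_apply' measurableSet_Icc]
      refine measure_mono fun t ht => ⟨?_, hSsub ht⟩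
      exact pow_le_pow_left₀ hlam0.le (hSI t ht) 12
    have hconv' := hconv T hT (fun u => ‖A w N u‖) (cont_A w N).norm (fun u => norm_nonneg _)
    have hmom' := hmom T hT N hN hNT
    have hTT : T ^ (ε / 2) * T ^ (2 + ε / 2) = T ^ (2 + ε) := by
      rw [← Real.rpow_add hT0]; congr 1; ring
    have hfinal : lam ^ 12 * (volume S).toReal ≤ C2 * C3 * T ^ (2 + ε) * (N : ℝ) ^ 6 := by
      calc lam ^ 12 * (volume S).toReal ≤ ∫ t in T..(2 * T), I t ^ 12 := hcheb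
        _ ≤ C2 * T ^ (ε / 2) * ∫ u in (T / 2)..(4 * T), ‖A w N u‖ ^ 12 := hconv'
        _ ≤ C2 * T ^ (ε / 2) * (C3 * T ^ (2 + ε / 2) * (N : ℝ) ^ 6) := by gcongr
        _ = C2 * C3 * (T ^ (ε / 2) * T ^ (2 + ε / 2)) * (N : ℝ) ^ 6 := by ring
        _ = _ := by rw [hTT]
    rw [le_div_iff₀ (by positivity), hpowN]
    have e : (2 * D) ^ 12 * (1 + C2 * C3) * T ^ (2 + ε) * ((N : ℝ) ^ 6 / ((N : ℝ) ^ σ) ^ 12) =
        ((2 * D) ^ 12 / ((N : ℝ) ^ σ) ^ 12) * ((1 + C2 * C3) * T ^ (2 + ε) * (N : ℝ) ^ 6) := by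
      field_simp
    have e2 : (volume S).toReal * V ^ 12 = ((2 * D) ^ 12 / ((N : ℝ) ^ σ) ^ 12) * (lam ^ 12 * (volume S).toReal) := by
      rw [hlam]
      field_simp
    rw [e, e2]
    refine mul_le_mul_of_nonneg_left (hfinal.trans ?_) (by positivity)
    have hX : 0 ≤ T ^ (2 + ε) * (N : ℝ) ^ 6 := by positivity
    nlinarith

end Pool.Agent.Lib.TW
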