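import Pool.Agent.Lib.TW.Defs

/-!
# TW / Lc5: level sets of the convolution
-/

set_option autoImplicit false

open MeasureTheory
open scoped FourierTransform

namespace Pool.Agent.Lib.TW

private theorem lc_w_cont : Continuous (fun u : ℝ => 1 / (1 + |u|)) := by
  refine continuous_const.div (by fun_prop) ?_
  intro u
  positivity

private theorem lc_mass {T : ℝ} (hT : 1 ≤ T) :
    ∫ u in (-(T / 2))..(T / 2), 1 / (1 + |u|) = 2 * Real.log (1 + T / 2) := by
  have hi : ∀ a b : ℝ, IntervalIntegrable (fun u : ℝ => 1 / (1 + |u|)) volume a b :=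
    fun a b => lc_w_cont.intervalIntegrable a b
  have h1 : ∫ u in (0 : ℝ)..(T / 2), 1 / (1 + |u|) = Real.log (1 + T / 2) := by
    have e1 : ∫ u in (0 : ℝ)..(T / 2), 1 / (1 + |u|) = ∫ u in (0 : ℝ)..(T / 2), 1 / (1 + u) := by
      refine intervalIntegral.integral_congr ?_
      intro u hu
      rw [Set.uIcc_of_le (by linarith)] at hu
      simp only [abs_of_nonneg hu.1]
    rw [e1, intervalIntegral.integral_comp_add_left (fun x => 1 / x) 1,
      integral_one_div_of_pos (by norm_num) (by linarith)]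
    norm_num
  have h2 : ∫ u in (-(T / 2))..(0 : ℝ), 1 / (1 + |u|) = Real.log (1 + T / 2) := by
    have e2 := intervalIntegral.integral_comp_neg (a := 0) (b := T / 2)
      (fun u : ℝ => 1 / (1 + |u|))
    simp only [abs_neg, neg_zero] at e2
    rw [← e2, h1]
  rw [← intervalIntegral.integral_add_adjacent_intervals (hi _ 0) (hi 0 _), h1, h2]
  ring

/-- layer cake for the part of `F` above the level `W` -/
private theorem lc_layer {a b W A₁ A₂ : ℝ} (hab : a ≤ b) (hW : 0 < W) (hA₁ : 0 ≤ A₁) (hA₂ : 0 ≤ A₂)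
    {F : ℝ → ℝ} (hF : Continuous F)
    (H : ∀ W : ℝ, 0 < W → (volume {u : ℝ | u ∈ Set.Icc a b ∧ W ≤ F u}).toReal ≤ A₁ / W ^ 6 + A₂ / W ^ 32) :
    ∫ u in a..b, max (F u - W) 0 ≤ A₁ / (5 * W ^ 5) + A₂ / (31 * W ^ 31) := by
  have hc : Continuous fun u => max (F u - W) 0 := by fun_prop
  rw [intervalIntegral.integral_of_le hab, ← integral_Icc_eq_integral_Ioc]
  have hint : Integrable (fun u => max (F u - W) 0) (volume.restrict (Set.Icc a b)) :=
    hc.continuousOn.integrableOn_compact isCompact_Icc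
  rw [hint.integral_eq_integral_meas_lt (Filter.Eventually.of_forall fun u => le_max_right _ _)]
  set g : ℝ → ℝ := fun t => -(A₁ / (5 * (W + t) ^ 5) + A₂ / (31 * (W + t) ^ 31)) with hg
  set g' : ℝ → ℝ := fun t => A₁ / (W + t) ^ 6 + A₂ / (W + t) ^ 32 with hg'
  have hder : ∀ x ∈ Set.Ici (0 : ℝ), HasDerivAt g (g' x) x := by
    intro x hx
    have hx0 : (0 : ℝ) ≤ x := hx
    have hWx : W + x ≠ 0 := by positivity
    have h0 : HasDerivAt (fun t : ℝ => W + t) 1 x := by
      simpa using (hasDerivAt_id x).const_add W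
    have h1 : HasDerivAt (fun t : ℝ => 5 * (W + t) ^ 5) (5 * ((5 : ℕ) * (W + x) ^ (5 - 1) * 1)) x :=
      (h0.pow 5).const_mul 5
    have h2 : HasDerivAt (fun t : ℝ => 31 * (W + t) ^ 31) (31 * ((31 : ℕ) * (W + x) ^ (31 - 1) * 1)) x :=
      (h0.pow 31).const_mul 31
    have h3 := (hasDerivAt_const x A₁).div h1 (by positivity)
    have h4 := (hasDerivAt_const x A₂).div h2 (by positivity)
    have h5 := (h3.add h4).neg
    refine h5.congr_deriv ?_
    simp only [hg']
    field_simp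
    ring
  have hpos : ∀ x ∈ Set.Ioi (0 : ℝ), 0 ≤ g' x := by
    intro x hx
    have hx0 : (0 : ℝ) < x := hx
    simp only [hg']
    positivity
  have hlim : Filter.Tendsto g Filter.atTop (nhds 0) := by
    have hadd : Filter.Tendsto (fun t : ℝ => W + t) Filter.atTop Filter.atTop :=
      Filter.tendsto_atTop_add_const_left _ _ Filter.tendsto_id
    have h1 : Filter.Tendsto (fun t : ℝ => A₁ / (5 * (W + t) ^ 5)) Filter.atTop (nhds 0) :=
      Filter.Tendsto.const_div_atTop (((Filter.tendsto_pow_atTop (by norm_num : (5 : ℕ) ≠ 0)).comp hadd).const_mul_atTop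
        (by norm_num : (0 : ℝ) < 5)) A₁
    have h2 : Filter.Tendsto (fun t : ℝ => A₂ / (31 * (W + t) ^ 31)) Filter.atTop (nhds 0) :=
      Filter.Tendsto.const_div_atTop (((Filter.tendsto_pow_atTop (by norm_num : (31 : ℕ) ≠ 0)).comp hadd).const_mul_atTop
        (by norm_num : (0 : ℝ) < 31)) A₂
    have h3 := (h1.add h2).neg
    rw [add_zero, neg_zero] at h3
    exact h3
  have hgi := integrableOn_Ioi_deriv_of_nonneg' hder hpos hlim
  have hgv := integral_Ioi_of_hasDerivAt_of_nonneg' hder hpos hlim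
  have hle : ∫ t in Set.Ioi (0 : ℝ), (volume.restrict (Set.Icc a b)).real {u | t < max (F u - W) 0} ≤
      ∫ t in Set.Ioi (0 : ℝ), g' t := by
    refine integral_mono_of_nonneg (Filter.Eventually.of_forall fun t => measureReal_nonneg) hgi ?_
    refine (ae_restrict_iff' measurableSet_Ioi).2 (Filter.Eventually.of_forall fun t ht => ?_)
    have ht0 : (0 : ℝ) < t := ht
    have h1 := H (W + t) (by positivity)
    refine le_trans ?_ h1
    show ((volume.restrict (Set.Icc a b)) {u | t < max (F u - W) 0}).toReal ≤ _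
    rw [Measure.restrict_apply' measurableSet_Icc]
    refine ENNReal.toReal_mono ?_ (measure_mono ?_)
    · refine ne_of_lt (lt_of_le_of_lt (measure_mono (fun u hu => hu.1) : _ ≤ volume (Set.Icc a b)) ?_)
      simp
    · rintro u ⟨hu, huI⟩
      refine ⟨huI, ?_⟩
      have hu' : t < max (F u - W) 0 := hu
      rcases lt_max_iff.1 hu' with h | h
      · linarith
      · linarith
  refine hle.trans ?_
  rw [hgv]
  simp only [hg]
  rw [add_zero]
  linarith

/-- the convolution has mean at most the mass times the integral -/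
private theorem lc_conv {T : ℝ} (hT : 1 ≤ T) {f : ℝ → ℝ} (hf : Continuous f) (hf0 : ∀ u, 0 ≤ f u) :
    ∫ t in T..(2 * T), ∫ u in (-(T / 2))..(T / 2), f (t + u) * (1 / (1 + |u|)) ≤
      (∫ u in (-(T / 2))..(T / 2), 1 / (1 + |u|)) * ∫ u in (T / 2)..(4 * T), f u := by
  have hwc := lc_w_cont
  have hw0 : ∀ u : ℝ, 0 < 1 / (1 + |u|) := fun u => by positivity
  have hFw : Continuous (Function.uncurry fun t u : ℝ => f (t + u) * (1 / (1 + |u|))) :=
    (hf.comp (continuous_fst.add continuous_snd)).mul (hwc.comp continuous_snd)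
  have hswap : ∫ t in T..(2 * T), ∫ u in (-(T / 2))..(T / 2), f (t + u) * (1 / (1 + |u|)) =
      ∫ u in (-(T / 2))..(T / 2), ∫ t in T..(2 * T), f (t + u) * (1 / (1 + |u|)) := by
    apply intervalIntegral_intervalIntegral_swap
    refine (hFw.continuousOn.integrableOn_compact (K := Set.uIcc T (2 * T) ×ˢ Set.uIcc (-(T / 2)) (T / 2))
      (isCompact_uIcc.prod isCompact_uIcc)).mono_set ?_
    exact Set.prod_mono Set.uIoc_subset_uIcc Set.uIoc_subset_uIcc
  rw [hswap]
  have hcm : (∫ u in (-(T / 2))..(T / 2), 1 / (1 + |u|)) * ∫ u in (T / 2)..(4 * T), f u =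
      ∫ u in (-(T / 2))..(T / 2), (∫ v in (T / 2)..(4 * T), f v) * (1 / (1 + |u|)) := by
    rw [intervalIntegral.integral_const_mul, mul_comm]
  rw [hcm]
  refine intervalIntegral.integral_mono_on (by linarith) ?_ ?_ ?_
  · have hc : Continuous (Function.uncurry fun u t : ℝ => f (t + u) * (1 / (1 + |u|))) :=
      (hf.comp (continuous_snd.add continuous_fst)).mul (hwc.comp continuous_fst)
    exact (intervalIntegral.continuous_parametric_intervalIntegral_of_continuous' hc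
      _ _).intervalIntegrable _ _
  · exact (continuous_const.mul hwc).intervalIntegrable _ _
  · intro u hu
    rw [intervalIntegral.integral_mul_const]
    refine mul_le_mul_of_nonneg_right ?_ (hw0 u).le
    rw [intervalIntegral.integral_comp_add_right (fun x => f x) u]
    refine intervalIntegral.integral_mono_interval ?_ ?_ ?_ ?_ ?_
    · linarith [hu.1]
    · linarith
    · linarith [hu.2]
    · exact Filter.Eventually.of_forall fun x => hf0 x
    · exact hf.intervalIntegrable _ _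

/-- PROOF. `m = max(1, ∫_(-T/2)^(T/2) du/(1+|u|)) ≤ C_ε T^(ε/40)`, `W = V/(2m)`.  `F ≤ W + F 1_(F>W)`, so where the convolution is `≥ V` the convolution
`I₁` of `F 1_(F>W)` is `≥ V/2`.  Chebyshev and Fubini (`t + u ∈ [T/2, 5T/2]`): `vol · V/2 ≤ ∫_T^(2T) I₁ ≤ m ∫_(T/2)^(4T) F 1_(F>W)`, and
`∫ F 1_(F>W) = W vol{F > W} + ∫_W^∞ vol{F ≥ s} ds ≤ 2 W (A₁/W⁶ + A₂/W³²)` (layer cake, or the dyadic sum over `2^i W`);
`W = V/(2m)`, `m³³ ≤ C T^ε`. -/
theorem lc5 {ε : ℝ} (hε : 0 < ε) : ∃ C : ℝ, 0 ≤ C ∧ ∀ T : ℝ, 1 ≤ T → ∀ F : ℝ → ℝ, Continuous F → (∀ u, 0 ≤ F u) →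
    ∀ A₁ A₂ : ℝ, 0 ≤ A₁ → 0 ≤ A₂ →
    (∀ W : ℝ, 0 < W → (volume {u : ℝ | u ∈ Set.Icc (T / 2) (4 * T) ∧ W ≤ F u}).toReal ≤ A₁ / W ^ 6 + A₂ / W ^ 32) →
    ∀ V : ℝ, 0 < V → (volume {t : ℝ | t ∈ Set.Icc T (2 * T) ∧ V ≤ ∫ u in (-(T / 2))..(T / 2), F (t + u) / (1 + |u|)}).toReal ≤
      C * T ^ ε * (A₁ / V ^ 6 + A₂ / V ^ 32) := by
  have hδ : 0 < ε / 33 := by positivity
  set K : ℝ := max 1 (2 * ((2 : ℝ) ^ (ε / 33) / (ε / 33))) with hK
  have hK1 : 1 ≤ K := le_max_left _ _
  refine ⟨2 ^ 32 * K ^ 33, by positivity, ?_⟩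
  intro T hT F hF hF0 A₁ A₂ hA₁ hA₂ H V hV
  have hT0 : 0 < T := by linarith
  have hwc := lc_w_cont
  have hw0 : ∀ u : ℝ, 0 < 1 / (1 + |u|) := fun u => by positivity
  set m := ∫ u in (-(T / 2))..(T / 2), 1 / (1 + |u|) with hm
  have hmval : m = 2 * Real.log (1 + T / 2) := lc_mass hT
  have hm0 : 0 ≤ m := by
    rw [hmval]
    have := Real.log_nonneg (show (1 : ℝ) ≤ 1 + T / 2 by linarith)
    linarith
  set M : ℝ := K * T ^ (ε / 33) with hM
  have hTδ : 1 ≤ T ^ (ε / 33) := Real.one_le_rpow hT hδ.le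
  have hM1 : 1 ≤ M := one_le_mul_of_one_le_of_one_le hK1 hTδ
  have hM0 : 0 < M := by linarith
  have hmM : m ≤ M := by
    have h1 : Real.log (1 + T / 2) ≤ (2 : ℝ) ^ (ε / 33) * T ^ (ε / 33) / (ε / 33) := by
      have h2 := Real.log_le_rpow_div (show (0 : ℝ) ≤ 1 + T / 2 by linarith) hδ
      refine h2.trans ?_
      rw [← Real.mul_rpow (by norm_num) hT0.le]
      gcongr
      linarith
    rw [hmval]
    calc 2 * Real.log (1 + T / 2) ≤ 2 * ((2 : ℝ) ^ (ε / 33) * T ^ (ε / 33) / (ε / 33)) := by linarith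
      _ = (2 * ((2 : ℝ) ^ (ε / 33) / (ε / 33))) * T ^ (ε / 33) := by ring
      _ ≤ K * T ^ (ε / 33) := mul_le_mul_of_nonneg_right (le_max_right _ _) (by linarith)
  have hM33 : M ^ 33 = K ^ 33 * T ^ ε := by
    rw [hM, mul_pow]
    congr 1
    rw [← Real.rpow_natCast, ← Real.rpow_mul hT0.le]
    congr 1
    push_cast
    ring
  set W : ℝ := V / (2 * M) with hW
  have hW0 : 0 < W := by positivity
  have hWM : W * M = V / 2 := by
    rw [hW]
    field_simp
  set F₁ : ℝ → ℝ := fun u => max (F u - W) 0 with hF₁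
  have hF₁c : Continuous F₁ := by
    simp only [hF₁]
    fun_prop
  have hF₁0 : ∀ u, 0 ≤ F₁ u := fun u => le_max_right _ _
  have hFF : ∀ u, F u ≤ W + F₁ u := by
    intro u
    have := le_max_left (F u - W) 0
    simp only [hF₁]
    linarith
  set I₁ : ℝ → ℝ := fun t => ∫ u in (-(T / 2))..(T / 2), F₁ (t + u) * (1 / (1 + |u|)) with hI₁
  have hFw : Continuous (Function.uncurry fun t u : ℝ => F₁ (t + u) * (1 / (1 + |u|))) :=
    (hF₁c.comp (continuous_fst.add continuous_snd)).mul (hwc.comp continuous_snd)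
  have hI₁c : Continuous I₁ := intervalIntegral.continuous_parametric_intervalIntegral_of_continuous' hFw _ _
  have hI₁0 : ∀ t, 0 ≤ I₁ t := fun t => intervalIntegral.integral_nonneg (by linarith)
    fun u _ => mul_nonneg (hF₁0 _) (hw0 u).le
  have hle : ∀ t, ∫ u in (-(T / 2))..(T / 2), F (t + u) / (1 + |u|) ≤ V / 2 + I₁ t := by
    intro t
    have hc1 : Continuous fun u : ℝ => F (t + u) / (1 + |u|) := by
      refine (hF.comp (continuous_const.add continuous_id)).div (by fun_prop) ?_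
      intro u
      positivity
    have hc2 : Continuous fun u : ℝ => F₁ (t + u) * (1 / (1 + |u|)) :=
      (hF₁c.comp (continuous_const.add continuous_id)).mul hwc
    have h1 : ∫ u in (-(T / 2))..(T / 2), F (t + u) / (1 + |u|) ≤
        ∫ u in (-(T / 2))..(T / 2), (W * (1 / (1 + |u|)) + F₁ (t + u) * (1 / (1 + |u|))) := by
      refine intervalIntegral.integral_mono_on (by linarith) (hc1.intervalIntegrable _ _)
        (((continuous_const.mul hwc).add hc2).intervalIntegrable _ _) ?_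
      intro u _
      have h2 := mul_le_mul_of_nonneg_right (hFF (t + u)) (hw0 u).le
      calc F (t + u) / (1 + |u|) = F (t + u) * (1 / (1 + |u|)) := by ring
        _ ≤ (W + F₁ (t + u)) * (1 / (1 + |u|)) := h2
        _ = _ := by ring
    have hadd : ∫ u in (-(T / 2))..(T / 2), (W * (1 / (1 + |u|)) + F₁ (t + u) * (1 / (1 + |u|))) =
        (∫ u in (-(T / 2))..(T / 2), W * (1 / (1 + |u|))) + I₁ t :=
      intervalIntegral.integral_add ((continuous_const.mul hwc).intervalIntegrable _ _)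
        (hc2.intervalIntegrable _ _)
    rw [hadd, intervalIntegral.integral_const_mul, ← hm] at h1
    have h3 : W * m ≤ V / 2 := by
      rw [← hWM]
      exact mul_le_mul_of_nonneg_left hmM hW0.le
    linarith
  have hJ := lc_layer (a := T / 2) (b := 4 * T) (by linarith) hW0 hA₁ hA₂ hF H
  set J := ∫ u in (T / 2)..(4 * T), max (F u - W) 0 with hJd
  have hJ0 : 0 ≤ J := intervalIntegral.integral_nonneg (by linarith) fun u _ => le_max_right _ _
  have hconv : ∫ t in T..(2 * T), I₁ t ≤ M * J :=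
    (lc_conv hT hF₁c hF₁0).trans (mul_le_mul_of_nonneg_right hmM hJ0)
  set S : Set ℝ := {t : ℝ | t ∈ Set.Icc T (2 * T) ∧ V ≤ ∫ u in (-(T / 2))..(T / 2), F (t + u) / (1 + |u|)} with hS
  have hcheb : V / 2 * (volume S).toReal ≤ M * J := by
    refine le_trans ?_ hconv
    rw [intervalIntegral.integral_of_le (by linarith), ← integral_Icc_eq_integral_Ioc]
    have h1 := mul_meas_ge_le_integral_of_nonneg (μ := volume.restrict (Set.Icc T (2 * T)))
      (f := I₁) (Filter.Eventually.of_forall hI₁0)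
      (hI₁c.continuousOn.integrableOn_compact isCompact_Icc) (V / 2)
    refine le_trans ?_ h1
    refine mul_le_mul_of_nonneg_left ?_ (by positivity)
    show (volume S).toReal ≤ ((volume.restrict (Set.Icc T (2 * T))) {x | V / 2 ≤ I₁ x}).toReal
    rw [Measure.restrict_apply' measurableSet_Icc]
    refine ENNReal.toReal_mono ?_ (measure_mono ?_)
    · refine ne_of_lt (lt_of_le_of_lt (measure_mono Set.inter_subset_right) ?_)
      simp
    · rintro t ⟨htI, ht⟩
      refine ⟨?_, htI⟩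
      have := hle t
      show V / 2 ≤ I₁ t
      linarith
  have hb1 : M * J ≤ M * (A₁ / (5 * W ^ 5) + A₂ / (31 * W ^ 31)) := mul_le_mul_of_nonneg_left hJ hM0.le
  have he1 : M * (A₁ / (5 * W ^ 5) + A₂ / (31 * W ^ 31)) =
      V / 2 * (64 / 5 * M ^ 6 * (A₁ / V ^ 6) + 2 ^ 32 / 31 * M ^ 32 * (A₂ / V ^ 32)) := by
    rw [hW]
    field_simp
    ring
  have hb2 : (volume S).toReal ≤ 64 / 5 * M ^ 6 * (A₁ / V ^ 6) + 2 ^ 32 / 31 * M ^ 32 * (A₂ / V ^ 32) := by
    have h1 : V / 2 * (volume S).toReal ≤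
        V / 2 * (64 / 5 * M ^ 6 * (A₁ / V ^ 6) + 2 ^ 32 / 31 * M ^ 32 * (A₂ / V ^ 32)) := by
      rw [← he1]
      exact hcheb.trans hb1
    exact le_of_mul_le_mul_left h1 (by positivity)
  have hq1 : 0 ≤ A₁ / V ^ 6 := by positivity
  have hq2 : 0 ≤ A₂ / V ^ 32 := by positivity
  have hp6 : M ^ 6 ≤ M ^ 33 := pow_le_pow_right₀ hM1 (by norm_num)
  have hp32 : M ^ 32 ≤ M ^ 33 := pow_le_pow_right₀ hM1 (by norm_num)
  have hM33p : 0 ≤ M ^ 33 := by positivity
  have hr1 : 64 / 5 * M ^ 6 * (A₁ / V ^ 6) ≤ 2 ^ 32 * M ^ 33 * (A₁ / V ^ 6) := by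
    refine mul_le_mul_of_nonneg_right ?_ hq1
    have : (64 / 5 : ℝ) * M ^ 6 ≤ 64 / 5 * M ^ 33 := mul_le_mul_of_nonneg_left hp6 (by norm_num)
    have h2 : (64 / 5 : ℝ) * M ^ 33 ≤ 2 ^ 32 * M ^ 33 := mul_le_mul_of_nonneg_right (by norm_num) hM33p
    linarith
  have hr2 : 2 ^ 32 / 31 * M ^ 32 * (A₂ / V ^ 32) ≤ 2 ^ 32 * M ^ 33 * (A₂ / V ^ 32) := by
    refine mul_le_mul_of_nonneg_right ?_ hq2
    have : (2 ^ 32 / 31 : ℝ) * M ^ 32 ≤ 2 ^ 32 / 31 * M ^ 33 := mul_le_mul_of_nonneg_left hp32 (by norm_num)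
    have h2 : (2 ^ 32 / 31 : ℝ) * M ^ 33 ≤ 2 ^ 32 * M ^ 33 := mul_le_mul_of_nonneg_right (by norm_num) hM33p
    linarith
  calc (volume S).toReal ≤ 2 ^ 32 * M ^ 33 * (A₁ / V ^ 6) + 2 ^ 32 * M ^ 33 * (A₂ / V ^ 32) := by linarith
    _ = 2 ^ 32 * K ^ 33 * T ^ ε * (A₁ / V ^ 6 + A₂ / V ^ 32) := by
        rw [hM33]
        ring

end Pool.Agent.Lib.TW
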