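import Pool.Agent.Lib.TW.Lm5
import Pool.Agent.Lib.TW.Lc5
import Pool.Agent.Lib.TW.Sh
import Pool.Agent.Lib.TW.Wx

/-!
# TW / Bk5: large values with the third derivative test, sharp blocks
-/

set_option autoImplicit false

open MeasureTheory
open scoped FourierTransform

namespace Pool.Agent.Lib.TW

private theorem abel_bk (a : ℕ → ℝ) (z : ℕ → ℂ) (N : ℕ) (B : ℝ)
    (hanti : ∀ n, N < n → a (n + 1) ≤ a n) (K : ℕ)
    (hB : ∀ M, N ≤ M → M ≤ K → ‖∑ n ∈ Finset.Ioc N M, z n‖ ≤ B) :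
    ∀ M, N + 1 ≤ M → M ≤ K →
      ‖∑ n ∈ Finset.Ioc N M, (a n : ℂ) * z n - (a M : ℂ) * ∑ n ∈ Finset.Ioc N M, z n‖ ≤ (a (N + 1) - a M) * B := by
  intro M hM
  induction M, hM using Nat.le_induction with
  | base =>
    intro _
    simp
  | succ M hM ih =>
    intro hK
    have h1 := ih (by omega)
    have h2 := hB M (by omega) (by omega)
    have e1 : Finset.Ioc N (M + 1) = insert (M + 1) (Finset.Ioc N M) := by
      ext x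
      simp only [Finset.mem_Ioc, Finset.mem_insert]
      omega
    have hn : (M + 1) ∉ Finset.Ioc N M := by simp
    rw [e1, Finset.sum_insert hn, Finset.sum_insert hn]
    have e2 : ((a (M + 1) : ℂ) * z (M + 1) + ∑ n ∈ Finset.Ioc N M, (a n : ℂ) * z n) -
        (a (M + 1) : ℂ) * (z (M + 1) + ∑ n ∈ Finset.Ioc N M, z n) =
        (∑ n ∈ Finset.Ioc N M, (a n : ℂ) * z n - (a M : ℂ) * ∑ n ∈ Finset.Ioc N M, z n) +
          ((a M - a (M + 1) : ℝ) : ℂ) * ∑ n ∈ Finset.Ioc N M, z n := by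
      push_cast
      ring
    rw [e2]
    have hd : 0 ≤ a M - a (M + 1) := by linarith [hanti M (by omega)]
    calc _ ≤ ‖∑ n ∈ Finset.Ioc N M, (a n : ℂ) * z n - (a M : ℂ) * ∑ n ∈ Finset.Ioc N M, z n‖ +
          ‖((a M - a (M + 1) : ℝ) : ℂ) * ∑ n ∈ Finset.Ioc N M, z n‖ := norm_add_le _ _
      _ ≤ (a (N + 1) - a M) * B + (a M - a (M + 1)) * B := by
          rw [norm_mul, Complex.norm_real, Real.norm_of_nonneg hd]
          gcongr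
      _ = (a (N + 1) - a (M + 1)) * B := by ring

private theorem abel_bk2 (a : ℕ → ℝ) (z : ℕ → ℂ) (N : ℕ) (B : ℝ) (ha : ∀ n, N < n → 0 ≤ a n)
    (hanti : ∀ n, N < n → a (n + 1) ≤ a n) (K : ℕ) (hK : N + 1 ≤ K)
    (hB : ∀ M, N ≤ M → M ≤ K → ‖∑ n ∈ Finset.Ioc N M, z n‖ ≤ B) :
    ‖∑ n ∈ Finset.Ioc N K, (a n : ℂ) * z n‖ ≤ a (N + 1) * B := by
  have h1 := abel_bk a z N B hanti K hB K hK le_rfl
  have h2 := hB K (by omega) le_rfl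
  have h3 : ‖(a K : ℂ) * ∑ n ∈ Finset.Ioc N K, z n‖ ≤ a K * B := by
    rw [norm_mul, Complex.norm_real, Real.norm_of_nonneg (ha K (by omega))]
    exact mul_le_mul_of_nonneg_left h2 (ha K (by omega))
  calc ‖∑ n ∈ Finset.Ioc N K, (a n : ℂ) * z n‖
      = ‖(∑ n ∈ Finset.Ioc N K, (a n : ℂ) * z n - (a K : ℂ) * ∑ n ∈ Finset.Ioc N K, z n) +
          (a K : ℂ) * ∑ n ∈ Finset.Ioc N K, z n‖ := by congr 1; ring
    _ ≤ _ := norm_add_le _ _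
    _ ≤ (a (N + 1) - a K) * B + a K * B := add_le_add h1 h3
    _ = a (N + 1) * B := by ring

private theorem cont_ch (x : ℝ) : Continuous fun v : ℝ => ch x v := by
  unfold ch
  fun_prop

private theorem cont_A (w : ℝ → ℝ) (N : ℕ) : Continuous fun t : ℝ => A w N t := by
  unfold A
  refine continuous_finsetSum _ fun n _ => ?_
  exact continuous_const.mul ((cont_ch n).comp continuous_neg)

private theorem finm (a b : ℝ) (s : Set ℝ) (hs : s ⊆ Set.Icc a b) : volume s ≠ ⊤ := by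
  refine ne_top_of_le_ne_top ?_ (measure_mono hs)
  rw [Real.volume_Icc]
  exact ENNReal.ofReal_ne_top

/-- the hypothesis of `lc5` from `large_meas5` -/
private theorem three_scales {C ε T W : ℝ} {N : ℕ} (hC : 0 ≤ C) (hε : 0 < ε) (hT : (2 : ℝ) ^ 19 ≤ T)
    (hNT : (N : ℝ) ≤ T ^ (9 / 10 : ℝ)) (F : ℝ → ℝ) (hW : 0 < W)
    (h : ∀ T : ℝ, 1 ≤ T → (N : ℝ) ≤ T ^ (19 / 20 : ℝ) → (volume {t : ℝ | t ∈ Set.Icc T (2 * T) ∧ W ≤ F t}).toReal ≤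
      C * T ^ ε * (T * (N : ℝ) ^ 3 / W ^ 6 + T ^ 5 * (N : ℝ) ^ 16 / W ^ 32)) :
    (volume {u : ℝ | u ∈ Set.Icc (T / 2) (4 * T) ∧ W ≤ F u}).toReal ≤
      (96 * C * 2 ^ ε) * T ^ ε * (T * (N : ℝ) ^ 3) / W ^ 6 + (96 * C * 2 ^ ε) * T ^ ε * (T ^ 5 * (N : ℝ) ^ 16) / W ^ 32 := by
  have hT0 : (0 : ℝ) < T := by have : (0 : ℝ) < 2 ^ 19 := by norm_num
                               linarith
  have hT1 : (2 : ℝ) ≤ T := by have : (2 : ℝ) ≤ 2 ^ 19 := by norm_num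
                               linarith
  -- the bound at a scale `T'`
  have hb : ∀ T' : ℝ, 1 ≤ T' → T' ≤ 2 * T → (N : ℝ) ≤ T' ^ (19 / 20 : ℝ) →
      (volume {t : ℝ | t ∈ Set.Icc T' (2 * T') ∧ W ≤ F t}).toReal ≤
        (32 * C * 2 ^ ε) * T ^ ε * (T * (N : ℝ) ^ 3) / W ^ 6 + (32 * C * 2 ^ ε) * T ^ ε * (T ^ 5 * (N : ℝ) ^ 16) / W ^ 32 := by
    intro T' h1 h2 h3
    have hT'0 : (0 : ℝ) < T' := by linarith
    refine (h T' h1 h3).trans ?_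
    have e1 : T' ^ ε ≤ 2 ^ ε * T ^ ε := by
      rw [← Real.mul_rpow (by norm_num) hT0.le]
      exact Real.rpow_le_rpow hT'0.le h2 hε.le
    have e2 : T' * (N : ℝ) ^ 3 / W ^ 6 ≤ 32 * (T * (N : ℝ) ^ 3 / W ^ 6) := by
      rw [← mul_div_assoc, ← mul_assoc]
      gcongr
      linarith
    have e3 : T' ^ 5 * (N : ℝ) ^ 16 / W ^ 32 ≤ 32 * (T ^ 5 * (N : ℝ) ^ 16 / W ^ 32) := by
      rw [← mul_div_assoc, ← mul_assoc]
      have : T' ^ 5 ≤ 32 * T ^ 5 := by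
        calc T' ^ 5 ≤ (2 * T) ^ 5 := pow_le_pow_left₀ hT'0.le h2 5
          _ = 32 * T ^ 5 := by ring
      gcongr
    calc C * T' ^ ε * (T' * (N : ℝ) ^ 3 / W ^ 6 + T' ^ 5 * (N : ℝ) ^ 16 / W ^ 32)
        ≤ C * (2 ^ ε * T ^ ε) * (32 * (T * (N : ℝ) ^ 3 / W ^ 6) + 32 * (T ^ 5 * (N : ℝ) ^ 16 / W ^ 32)) := by gcongr
      _ = _ := by ring
  have hsub : {u : ℝ | u ∈ Set.Icc (T / 2) (4 * T) ∧ W ≤ F u} ⊆
      {t : ℝ | t ∈ Set.Icc (T / 2) (2 * (T / 2)) ∧ W ≤ F t} ∪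
        ({t : ℝ | t ∈ Set.Icc T (2 * T) ∧ W ≤ F t} ∪ {t : ℝ | t ∈ Set.Icc (2 * T) (2 * (2 * T)) ∧ W ≤ F t}) := by
    rintro u ⟨⟨hu1, hu2⟩, hu3⟩
    rcases le_total u T with h1 | h1
    · left
      exact ⟨⟨hu1, by linarith⟩, hu3⟩
    · right
      rcases le_total u (2 * T) with h2 | h2
      · left
        exact ⟨⟨h1, h2⟩, hu3⟩
      · right
        exact ⟨⟨h2, by linarith⟩, hu3⟩
  have hN1 : (N : ℝ) ≤ (T / 2) ^ (19 / 20 : ℝ) := by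
    refine hNT.trans ?_
    rw [Real.div_rpow hT0.le (by norm_num), le_div_iff₀ (by positivity)]
    have e1 : (2 : ℝ) ^ (19 / 20 : ℝ) ≤ T ^ (1 / 20 : ℝ) := by
      have : ((2 : ℝ) ^ 19) ^ (1 / 20 : ℝ) = (2 : ℝ) ^ (19 / 20 : ℝ) := by
        rw [← Real.rpow_natCast, ← Real.rpow_mul (by norm_num)]
        norm_num
      rw [← this]
      exact Real.rpow_le_rpow (by norm_num) hT (by norm_num)
    calc T ^ (9 / 10 : ℝ) * 2 ^ (19 / 20 : ℝ) ≤ T ^ (9 / 10 : ℝ) * T ^ (1 / 20 : ℝ) := by gcongr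
      _ = T ^ (19 / 20 : ℝ) := by rw [← Real.rpow_add hT0]; norm_num
  have hN2 : (N : ℝ) ≤ T ^ (19 / 20 : ℝ) :=
    hN1.trans (Real.rpow_le_rpow (by positivity) (by linarith) (by norm_num))
  have hN3 : (N : ℝ) ≤ (2 * T) ^ (19 / 20 : ℝ) :=
    hN2.trans (Real.rpow_le_rpow (by positivity) (by linarith) (by norm_num))
  have f1 := hb (T / 2) (by linarith) (by linarith) hN1
  have f2 := hb T (by linarith) (by linarith) hN2
  have f3 := hb (2 * T) (by linarith) (by linarith) hN3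
  have g1 : volume.real {u : ℝ | u ∈ Set.Icc (T / 2) (4 * T) ∧ W ≤ F u} ≤
      volume.real {t : ℝ | t ∈ Set.Icc (T / 2) (2 * (T / 2)) ∧ W ≤ F t} +
        (volume.real {t : ℝ | t ∈ Set.Icc T (2 * T) ∧ W ≤ F t} +
          volume.real {t : ℝ | t ∈ Set.Icc (2 * T) (2 * (2 * T)) ∧ W ≤ F t}) := by
    refine (measureReal_mono hsub ?_).trans ((measureReal_union_le _ _).trans (add_le_add le_rfl (measureReal_union_le _ _)))
    refine finm (T / 2) (4 * T) _ ?_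
    rintro u (hu | hu | hu)
    · exact ⟨hu.1.1, by linarith [hu.1.2]⟩
    · exact ⟨by linarith [hu.1.1], by linarith [hu.1.2]⟩
    · exact ⟨by linarith [hu.1.1], by linarith [hu.1.2]⟩
  have g2 : (volume {u : ℝ | u ∈ Set.Icc (T / 2) (4 * T) ∧ W ≤ F u}).toReal ≤
      (volume {t : ℝ | t ∈ Set.Icc (T / 2) (2 * (T / 2)) ∧ W ≤ F t}).toReal +
        ((volume {t : ℝ | t ∈ Set.Icc T (2 * T) ∧ W ≤ F t}).toReal +
          (volume {t : ℝ | t ∈ Set.Icc (2 * T) (2 * (2 * T)) ∧ W ≤ F t}).toReal) := g1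
  refine g2.trans ?_
  have e : (96 * C * 2 ^ ε) * T ^ ε * (T * (N : ℝ) ^ 3) / W ^ 6 + (96 * C * 2 ^ ε) * T ^ ε * (T ^ 5 * (N : ℝ) ^ 16) / W ^ 32 =
      3 * ((32 * C * 2 ^ ε) * T ^ ε * (T * (N : ℝ) ^ 3) / W ^ 6 + (32 * C * 2 ^ ε) * T ^ ε * (T ^ 5 * (N : ℝ) ^ 16) / W ^ 32) := by ring
  rw [e]
  linarith

/-- PROOF (over the imported rows). As `Bk` (helper66).  `w` from `exists_wt`; the block is at most `N^(-σ) max_M ‖sum_(N < n ≤ M) n^(-it)‖`, so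
`V N^σ ≤ C(1 + I(t))` by `sharp`.  If `V N^σ ≤ 2C` the claim is trivial (`vol ≤ T ≤ C' T N³/(V N^σ)⁶`).  Else `I(t) ≥ V N^σ/(2C)` and `lc5` for
`F = ‖A w N ·‖`; the hypothesis of `lc5` with `A₁ = C T^(1+ε') N³`, `A₂ = C T^(5+ε') N¹⁶` by `large_meas5` on `[T/2,T]`, `[T,2T]`, `[2T,4T]`
(`T ≥ 2^19`: `T^(9/10) ≤ (T/2)^(19/20)`; bounded `T`: trivial, `‖A‖ ≤ 4BN`, `N ≤ T`, and the measure is `≤ T`; here use that `V N^σ ≤ C N`
if the set is not empty). -/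
theorem block5 {σ : ℝ} (h0 : 0 ≤ σ) {ε : ℝ} (hε : 0 < ε) : ∃ C : ℝ, 0 ≤ C ∧ ∀ T : ℝ, 1 ≤ T → ∀ N : ℕ, 1 ≤ N →
    (N : ℝ) ≤ T ^ (9 / 10 : ℝ) → ∀ φ : ℕ → ℝ, (∀ n, 0 ≤ φ n) → (∀ n, φ n ≤ 1) → Antitone φ → ∀ V : ℝ, 0 < V →
      (volume {t : ℝ | t ∈ Set.Icc T (2 * T) ∧
        V ≤ ‖∑ n ∈ Finset.Ioc N (2 * N), ((φ n * (n : ℝ) ^ (-σ) : ℝ) : ℂ) *
          (n : ℂ) ^ (-((t : ℂ) * Complex.I))‖}).toReal ≤
        C * T ^ ε * (T * (N : ℝ) ^ (3 - 6 * σ) / V ^ 6 + T ^ 5 * (N : ℝ) ^ (16 - 32 * σ) / V ^ 32) := by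
  obtain ⟨w, hw, hw1, h2⟩ := exists_wt
  obtain ⟨C1, hC1, hsharp⟩ := sharp w hw h2
  obtain ⟨C2, hC2, hconv⟩ := lc5 (ε := ε / 2) (by positivity)
  obtain ⟨C3, hC3, hmeas⟩ := large_meas5 w hw hw1 (ε := ε / 2) (by positivity)
  set D : ℝ := C1 + 1 with hD
  have hD1 : 1 ≤ D := by rw [hD]; linarith
  have hD0 : 0 < D := by positivity
  obtain ⟨K, hK⟩ : ∃ K : ℝ, K = 96 * C3 * 2 ^ (ε / 2) := ⟨_, rfl⟩
  have hK0 : 0 ≤ K := by rw [hK]; positivity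
  refine ⟨2 ^ 57 + (2 * D) ^ 32 * (1 + C2 * K), by positivity, ?_⟩
  intro T hT N hN hNT φ hφ0 hφ1 hφa V hV
  have hT0 : (0 : ℝ) < T := by linarith
  have hN1 : (1 : ℝ) ≤ N := by exact_mod_cast hN
  have hN0 : (0 : ℝ) < N := by linarith
  set I : ℝ → ℝ := fun t => ∫ u in (-(T / 2))..(T / 2), ‖A w N (t + u)‖ / (1 + |u|) with hI
  have hI0 : ∀ t, 0 ≤ I t := fun t => by
    refine intervalIntegral.integral_nonneg (by linarith) fun u _ => ?_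
    have := abs_nonneg u
    positivity
  have hpow : ∀ n : ℕ, N < n → ((n + 1 : ℕ) : ℝ) ^ (-σ) ≤ (n : ℝ) ^ (-σ) := by
    intro n hn
    have hn0 : (0 : ℝ) < n := by exact_mod_cast (by omega : 0 < n)
    refine Real.rpow_le_rpow_of_nonpos hn0 (by push_cast; linarith) (by linarith)
  have hanti : ∀ n, N < n → φ (n + 1) * ((n + 1 : ℕ) : ℝ) ^ (-σ) ≤ φ n * (n : ℝ) ^ (-σ) :=
    fun n hn => mul_le_mul (hφa (by omega)) (hpow n hn) (by positivity) (hφ0 n)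
  have h3 : φ (N + 1) * ((N + 1 : ℕ) : ℝ) ^ (-σ) ≤ (N : ℝ) ^ (-σ) := by
    have hle : ((N + 1 : ℕ) : ℝ) ^ (-σ) ≤ (N : ℝ) ^ (-σ) :=
      Real.rpow_le_rpow_of_nonpos hN0 (by push_cast; linarith) (by linarith)
    calc φ (N + 1) * ((N + 1 : ℕ) : ℝ) ^ (-σ) ≤ 1 * ((N + 1 : ℕ) : ℝ) ^ (-σ) :=
          mul_le_mul_of_nonneg_right (hφ1 _) (by positivity)
      _ ≤ (N : ℝ) ^ (-σ) := by rw [one_mul]; exact hle
  -- the block bound
  have hblock : ∀ t : ℝ, ∀ B : ℝ, 0 ≤ B → (∀ M, N ≤ M → M ≤ 2 * N → ‖∑ n ∈ Finset.Ioc N M, (n : ℂ) ^ (-((t : ℂ) * Complex.I))‖ ≤ B) →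
      ‖∑ n ∈ Finset.Ioc N (2 * N), ((φ n * (n : ℝ) ^ (-σ) : ℝ) : ℂ) * (n : ℂ) ^ (-((t : ℂ) * Complex.I))‖ ≤
        (N : ℝ) ^ (-σ) * B := by
    intro t B hB hs
    have h := abel_bk2 (fun n => φ n * (n : ℝ) ^ (-σ)) (fun n => (n : ℂ) ^ (-((t : ℂ) * Complex.I))) N B
      (fun n _ => mul_nonneg (hφ0 n) (by positivity)) hanti (2 * N) (by omega) hs
    exact h.trans (mul_le_mul_of_nonneg_right h3 hB)
  have hsum : ∀ t : ℝ, ∀ M, N ≤ M → M ≤ 2 * N → ∑ n ∈ Finset.Ioc N M, (n : ℂ) ^ (-((t : ℂ) * Complex.I)) = ∑ n ∈ Finset.Ioc N M, ch n (-t) := by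
    intro t M hM1 hM2
    refine Finset.sum_congr rfl fun n hn => ?_
    rw [Finset.mem_Ioc] at hn
    rw [ch_eq_cpow (by omega)]
  have hb1 : ∀ t : ℝ, ∀ M, N ≤ M → M ≤ 2 * N → ‖∑ n ∈ Finset.Ioc N M, (n : ℂ) ^ (-((t : ℂ) * Complex.I))‖ ≤ N := by
    intro t M hM1 hM2
    rw [hsum t M hM1 hM2]
    refine (norm_sum_le _ _).trans ?_
    rw [Finset.sum_congr rfl fun n _ => norm_ch _ _, Finset.sum_const, Nat.card_Ioc, nsmul_eq_mul, mul_one]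
    exact_mod_cast (by omega : M - N ≤ N)
  have hb2 : ∀ t : ℝ, T ≤ t → t ≤ 2 * T → ∀ M, N ≤ M → M ≤ 2 * N →
      ‖∑ n ∈ Finset.Ioc N M, (n : ℂ) ^ (-((t : ℂ) * Complex.I))‖ ≤ D * (1 + I t) := by
    intro t ht1 ht2 M hM1 hM2
    have h := hsharp T hT N hN hNT M hM1 hM2 t ht1 ht2
    rw [hsum t M hM1 hM2]
    refine h.trans ?_
    have h5 : C1 ≤ D := by rw [hD]; linarith
    have hI1 : 0 ≤ 1 + I t := by linarith [hI0 t]
    exact mul_le_mul_of_nonneg_right h5 hI1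
  set S : Set ℝ := {t : ℝ | t ∈ Set.Icc T (2 * T) ∧
        V ≤ ‖∑ n ∈ Finset.Ioc N (2 * N), ((φ n * (n : ℝ) ^ (-σ) : ℝ) : ℂ) *
          (n : ℂ) ^ (-((t : ℂ) * Complex.I))‖} with hS
  have hNσ : (N : ℝ) ^ (-σ) * (N : ℝ) ^ σ = 1 := by
    rw [← Real.rpow_add hN0]; simp
  have hNσ0 : 0 < (N : ℝ) ^ σ := by positivity
  have hcl : ∀ B : ℝ, V ≤ (N : ℝ) ^ (-σ) * B → V * (N : ℝ) ^ σ ≤ B := by
    intro B hB
    calc V * (N : ℝ) ^ σ ≤ ((N : ℝ) ^ (-σ) * B) * (N : ℝ) ^ σ := by gcongr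
      _ = ((N : ℝ) ^ (-σ) * (N : ℝ) ^ σ) * B := by ring
      _ = B := by rw [hNσ, one_mul]
  have hVI : ∀ t ∈ S, V * (N : ℝ) ^ σ ≤ D * (1 + I t) := by
    rintro t ⟨ht, hVt⟩
    have hI1 : 0 ≤ 1 + I t := by linarith [hI0 t]
    exact hcl _ (hVt.trans (hblock t _ (by positivity) (hb2 t ht.1 ht.2)))
  have hVN : ∀ t ∈ S, V * (N : ℝ) ^ σ ≤ N := by
    rintro t ⟨ht, hVt⟩
    exact hcl _ (hVt.trans (hblock t _ (by positivity) (hb1 t)))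
  have hSsub : S ⊆ Set.Icc T (2 * T) := fun t ht => ht.1
  obtain ⟨Q, hQ⟩ : ∃ Q : ℝ, Q = V * (N : ℝ) ^ σ := ⟨_, rfl⟩
  have hQ0 : 0 < Q := by rw [hQ]; positivity
  have hp6 : T * (N : ℝ) ^ (3 - 6 * σ) / V ^ 6 = T * (N : ℝ) ^ 3 / Q ^ 6 := by
    have a3 : (N : ℝ) ^ (3 : ℝ) = (N : ℝ) ^ 3 := by exact_mod_cast Real.rpow_natCast (N : ℝ) 3
    have a6 : (N : ℝ) ^ (6 * σ) = ((N : ℝ) ^ σ) ^ 6 := by
      rw [mul_comm, Real.rpow_mul hN0.le]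
      exact_mod_cast Real.rpow_natCast ((N : ℝ) ^ σ) 6
    rw [Real.rpow_sub hN0, a3, a6, hQ, mul_pow]
    field_simp
  have hp32 : T ^ 5 * (N : ℝ) ^ (16 - 32 * σ) / V ^ 32 = T ^ 5 * (N : ℝ) ^ 16 / Q ^ 32 := by
    have a3 : (N : ℝ) ^ (16 : ℝ) = (N : ℝ) ^ 16 := by exact_mod_cast Real.rpow_natCast (N : ℝ) 16
    have a6 : (N : ℝ) ^ (32 * σ) = ((N : ℝ) ^ σ) ^ 32 := by
      rw [mul_comm, Real.rpow_mul hN0.le]
      exact_mod_cast Real.rpow_natCast ((N : ℝ) ^ σ) 32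
    rw [Real.rpow_sub hN0, a3, a6, hQ, mul_pow]
    field_simp
  rw [hp6, hp32]
  have hTε : 1 ≤ T ^ ε := Real.one_le_rpow hT hε.le
  have hX1 : 0 ≤ T * (N : ℝ) ^ 3 / Q ^ 6 := by positivity
  have hX2 : 0 ≤ T ^ 5 * (N : ℝ) ^ 16 / Q ^ 32 := by positivity
  have hvT : (volume S).toReal ≤ T := by
    have h1 : volume S ≤ volume (Set.Icc T (2 * T)) := measure_mono hSsub
    have h2 : volume (Set.Icc T (2 * T)) = ENNReal.ofReal T := by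
      rw [Real.volume_Icc]; congr 1; ring
    rw [h2] at h1
    exact ENNReal.toReal_le_of_le_ofReal hT0.le h1
  -- a bound by the first term suffices
  have hfirst : ∀ B : ℝ, 0 ≤ B → B ≤ 2 ^ 57 + (2 * D) ^ 32 * (1 + C2 * K) → (volume S).toReal ≤ B * (T * (N : ℝ) ^ 3 / Q ^ 6) →
      (volume S).toReal ≤ (2 ^ 57 + (2 * D) ^ 32 * (1 + C2 * K)) * T ^ ε * (T * (N : ℝ) ^ 3 / Q ^ 6 + T ^ 5 * (N : ℝ) ^ 16 / Q ^ 32) := by
    intro B hB0 hB hv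
    refine hv.trans ?_
    calc B * (T * (N : ℝ) ^ 3 / Q ^ 6) = B * 1 * (T * (N : ℝ) ^ 3 / Q ^ 6 + 0) := by ring
      _ ≤ _ := by gcongr
  have hCK : 0 ≤ C2 * K := mul_nonneg hC2 hK0
  by_cases hne : S.Nonempty
  swap
  · rw [Set.not_nonempty_iff_eq_empty] at hne
    rw [hne]
    simp only [measure_empty, ENNReal.toReal_zero]
    positivity
  obtain ⟨t0, ht0⟩ := hne
  have hQN : Q ≤ N := by rw [hQ]; exact hVN t0 ht0
  by_cases hTb : T < 2 ^ 19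
  · -- bounded `T`
    refine hfirst (2 ^ 57) (by positivity) (by have : 0 ≤ (2 * D) ^ 32 * (1 + C2 * K) := by positivity
                                               linarith) ?_
    have hNT' : (N : ℝ) ≤ 2 ^ 19 := by
      refine hNT.trans ?_
      calc T ^ (9 / 10 : ℝ) ≤ T ^ (1 : ℝ) := Real.rpow_le_rpow_of_exponent_le hT (by norm_num)
        _ = T := Real.rpow_one T
        _ ≤ 2 ^ 19 := hTb.le
    have h6 : Q ^ 6 ≤ 2 ^ 57 * (N : ℝ) ^ 3 := by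
      calc Q ^ 6 ≤ (N : ℝ) ^ 6 := pow_le_pow_left₀ hQ0.le hQN 6
        _ = (N : ℝ) ^ 3 * (N : ℝ) ^ 3 := by ring
        _ ≤ (2 ^ 19) ^ 3 * (N : ℝ) ^ 3 := by gcongr
        _ = 2 ^ 57 * (N : ℝ) ^ 3 := by norm_num
    refine hvT.trans ?_
    rw [← mul_div_assoc, le_div_iff₀ (by positivity)]
    calc T * Q ^ 6 ≤ T * (2 ^ 57 * (N : ℝ) ^ 3) := by gcongr
      _ = 2 ^ 57 * (T * (N : ℝ) ^ 3) := by ring
  rw [not_lt] at hTb
  by_cases hcase : Q ≤ 2 * D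
  · -- small `V`
    have hDD : (2 * D) ^ 6 ≤ (2 * D) ^ 32 := pow_le_pow_right₀ (by linarith) (by norm_num)
    refine hfirst ((2 * D) ^ 6) (by positivity) ?_ ?_
    · have h5 : 0 ≤ (2 * D) ^ 32 * (C2 * K) := by positivity
      have h6 : (0 : ℝ) ≤ 2 ^ 57 := by positivity
      nlinarith
    · refine hvT.trans ?_
      rw [← mul_div_assoc, le_div_iff₀ (by positivity)]
      have h6 : Q ^ 6 ≤ (2 * D) ^ 6 := pow_le_pow_left₀ hQ0.le hcase 6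
      have h7 : (1 : ℝ) ≤ (N : ℝ) ^ 3 := one_le_pow₀ hN1
      calc T * Q ^ 6 ≤ T * (2 * D) ^ 6 := by gcongr
        _ = (2 * D) ^ 6 * (T * 1) := by ring
        _ ≤ (2 * D) ^ 6 * (T * (N : ℝ) ^ 3) := by gcongr
  · rw [not_le] at hcase
    set lam : ℝ := Q / (2 * D) with hlam
    have hlam0 : 0 < lam := by positivity
    have hlam1 : 1 < lam := by
      rw [hlam, one_lt_div (by positivity)]
      exact hcase
    have hVD : Q = 2 * D * lam := by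
      rw [hlam]; field_simp
    have hSI : ∀ t ∈ S, lam ≤ I t := by
      intro t ht
      have h := hVI t ht
      rw [← hQ, hVD] at h
      have h5 : 2 * lam ≤ 1 + I t := by
        have : D * (2 * lam) ≤ D * (1 + I t) := by linarith
        exact le_of_mul_le_mul_left this hD0
      linarith
    have hc := hconv T hT (fun u => ‖A w N u‖) (cont_A w N).norm (fun u => norm_nonneg _)
      (K * T ^ (ε / 2) * (T * (N : ℝ) ^ 3)) (K * T ^ (ε / 2) * (T ^ 5 * (N : ℝ) ^ 16)) (by positivity) (by positivity)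
      (fun W hW => by
        rw [hK]
        exact three_scales hC3 (by positivity) hTb hNT _ hW fun T' h1 h2 => hmeas T' h1 N hN h2 W hW) lam hlam0
    have hS2 : (volume S).toReal ≤ (volume {t : ℝ | t ∈ Set.Icc T (2 * T) ∧
        lam ≤ ∫ u in (-(T / 2))..(T / 2), ‖A w N (t + u)‖ / (1 + |u|)}).toReal := by
      refine ENNReal.toReal_mono (finm T (2 * T) _ fun t ht => ht.1) (measure_mono fun t ht => ⟨hSsub ht, hSI t ht⟩)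
    refine hS2.trans (hc.trans ?_)
    have hTT : T ^ (ε / 2) * T ^ (ε / 2) = T ^ ε := by
      rw [← Real.rpow_add hT0]; congr 1; ring
    have e6 : (K * T ^ (ε / 2) * (T * (N : ℝ) ^ 3)) / lam ^ 6 = K * T ^ (ε / 2) * (2 * D) ^ 6 * (T * (N : ℝ) ^ 3 / Q ^ 6) := by
      rw [hlam]; field_simp
    have e32 : (K * T ^ (ε / 2) * (T ^ 5 * (N : ℝ) ^ 16)) / lam ^ 32 =
        K * T ^ (ε / 2) * (2 * D) ^ 32 * (T ^ 5 * (N : ℝ) ^ 16 / Q ^ 32) := by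
      rw [hlam]; field_simp
    rw [e6, e32]
    have hDD : (2 * D) ^ 6 ≤ (2 * D) ^ 32 := pow_le_pow_right₀ (by linarith) (by norm_num)
    calc C2 * T ^ (ε / 2) * (K * T ^ (ε / 2) * (2 * D) ^ 6 * (T * (N : ℝ) ^ 3 / Q ^ 6) +
          K * T ^ (ε / 2) * (2 * D) ^ 32 * (T ^ 5 * (N : ℝ) ^ 16 / Q ^ 32))
        ≤ C2 * T ^ (ε / 2) * (K * T ^ (ε / 2) * (2 * D) ^ 32 * (T * (N : ℝ) ^ 3 / Q ^ 6) +
          K * T ^ (ε / 2) * (2 * D) ^ 32 * (T ^ 5 * (N : ℝ) ^ 16 / Q ^ 32)) := by gcongr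
      _ = ((2 * D) ^ 32 * (C2 * K)) * (T ^ (ε / 2) * T ^ (ε / 2)) * (T * (N : ℝ) ^ 3 / Q ^ 6 + T ^ 5 * (N : ℝ) ^ 16 / Q ^ 32) := by ring
      _ ≤ (2 ^ 57 + (2 * D) ^ 32 * (1 + C2 * K)) * T ^ ε * (T * (N : ℝ) ^ 3 / Q ^ 6 + T ^ 5 * (N : ℝ) ^ 16 / Q ^ 32) := by
          rw [hTT]
          have h8 : (2 * D) ^ 32 * (C2 * K) ≤ 2 ^ 57 + (2 * D) ^ 32 * (1 + C2 * K) := by
            have : (0 : ℝ) ≤ 2 ^ 57 := by positivity
            have h9 : 0 ≤ (2 * D) ^ 32 := by positivity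
            nlinarith
          gcongr

end Pool.Agent.Lib.TW
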