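import Pool.Agent.Lib.TW.Defs

/-!
# TW / Cs: the divisor function and Cauchy-Schwarz
-/

set_option autoImplicit false

open MeasureTheory

namespace Pool.Agent.Lib.TW

private theorem csH_local {η : ℝ} (hη : 0 < η) (a : ℕ) :
    ((a : ℝ) + 1) ≤ max 1 (1 / (η * Real.log 2)) * ((2 : ℝ) ^ η) ^ a := by
  have hlog : 0 < Real.log 2 := Real.log_pos (by norm_num)
  have h1 : 1 + (a : ℝ) * (η * Real.log 2) ≤ ((2 : ℝ) ^ η) ^ a := by
    have h2 : ((2 : ℝ) ^ η) ^ a = Real.exp ((a : ℝ) * (η * Real.log 2)) := by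
      rw [Real.rpow_def_of_pos (by norm_num), ← Real.exp_nat_mul]
      congr 1; ring
    rw [h2]
    have := Real.add_one_le_exp ((a : ℝ) * (η * Real.log 2))
    linarith
  have hM1 : (1 : ℝ) ≤ max 1 (1 / (η * Real.log 2)) := le_max_left _ _
  have hM2 : 1 / (η * Real.log 2) ≤ max 1 (1 / (η * Real.log 2)) := le_max_right _ _
  set M := max 1 (1 / (η * Real.log 2))
  have h3 : 1 ≤ M * (η * Real.log 2) := by
    rw [div_le_iff₀ (by positivity)] at hM2; exact hM2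
  have ha : (0 : ℝ) ≤ a := Nat.cast_nonneg a
  calc (a : ℝ) + 1 ≤ M * (1 + (a : ℝ) * (η * Real.log 2)) := by
        nlinarith
    _ ≤ _ := by gcongr

private theorem csH_div {η : ℝ} (hη : 0 < η) :
    ∃ C : ℝ, 1 ≤ C ∧ ∀ n : ℕ, n ≠ 0 → (n.divisors.card : ℝ) ≤ C * (n : ℝ) ^ η := by
  set M := max 1 (1 / (η * Real.log 2)) with hM
  have hM1 : (1 : ℝ) ≤ M := le_max_left _ _
  set P0 : ℕ := ⌈(2 : ℝ) ^ (1 / η)⌉₊ with hP0
  refine ⟨M ^ (P0 + 1), one_le_pow₀ hM1, fun n hn => ?_⟩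
  have e1 : (n : ℝ) ^ η = ∏ p ∈ n.primeFactors, ((p : ℝ) ^ η) ^ (n.factorization p) := by
    have h1 : (n : ℝ) = ∏ p ∈ n.primeFactors, (p : ℝ) ^ (n.factorization p) := by
      have := Nat.prod_factorization_pow_eq_self hn
      conv_lhs => rw [← this]
      rw [Finsupp.prod, Nat.support_factorization]
      push_cast; rfl
    conv_lhs => rw [h1]
    rw [← Real.finsetProd_rpow _ _ (fun p _ => by positivity)]
    refine Finset.prod_congr rfl fun p _ => ?_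
    rw [← Real.rpow_natCast, ← Real.rpow_natCast, ← Real.rpow_mul (by positivity),
      ← Real.rpow_mul (by positivity), mul_comm]
  have e2 : (n.divisors.card : ℝ) = ∏ p ∈ n.primeFactors, ((n.factorization p : ℝ) + 1) := by
    rw [Nat.card_divisors hn]; push_cast; rfl
  have hle : ∀ p ∈ n.primeFactors, ((n.factorization p : ℝ) + 1) ≤
      (if p ∈ Finset.range (P0 + 1) then M else 1) * ((p : ℝ) ^ η) ^ (n.factorization p) := by
    intro p hp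
    have hpp := Nat.prime_of_mem_primeFactors hp
    have hp2 : (2 : ℝ) ≤ p := by exact_mod_cast hpp.two_le
    by_cases hpr : p ∈ Finset.range (P0 + 1)
    · rw [if_pos hpr]
      refine (csH_local hη _).trans ?_
      gcongr
    · rw [if_neg hpr, one_mul]
      have hpP : (2 : ℝ) ^ (1 / η) ≤ p := by
        have h1 : P0 + 1 ≤ p := by
          by_contra h; exact hpr (Finset.mem_range.2 (by omega))
        calc (2 : ℝ) ^ (1 / η) ≤ P0 := Nat.le_ceil _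
          _ ≤ p := by exact_mod_cast (by omega : P0 ≤ p)
      have h2 : (2 : ℝ) ≤ (p : ℝ) ^ η := by
        calc (2 : ℝ) = ((2 : ℝ) ^ (1 / η)) ^ η := by
              rw [← Real.rpow_mul (by norm_num), one_div_mul_cancel hη.ne', Real.rpow_one]
          _ ≤ _ := by gcongr
      calc ((n.factorization p : ℝ) + 1) ≤ (2 : ℝ) ^ (n.factorization p) := by
            have : n.factorization p + 1 ≤ 2 ^ (n.factorization p) := Nat.lt_two_pow_self
            exact_mod_cast this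
        _ ≤ _ := by gcongr
  rw [e1, e2]
  refine (Finset.prod_le_prod (fun p _ => by positivity) hle).trans ?_
  rw [Finset.prod_mul_distrib]
  refine mul_le_mul_of_nonneg_right ?_ (Finset.prod_nonneg fun p _ => by positivity)
  rw [Finset.prod_ite, Finset.prod_const, Finset.prod_const_one, mul_one]
  refine pow_le_pow_right₀ hM1 ?_
  calc (n.primeFactors.filter (fun x => x ∈ Finset.range (P0 + 1))).card ≤ (Finset.range (P0 + 1)).card :=
        Finset.card_le_card fun x hx => (Finset.mem_filter.1 hx).2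
    _ = P0 + 1 := Finset.card_range _

private theorem csH_tel {K : ℝ} (hK : 1 ≤ K) {x : ℝ} (hx : 0 ≤ x) :
    1 / ((1 + (x + 1) / K) * Real.sqrt (1 + (x + 1) / K)) ≤
      2 * K * (1 / Real.sqrt (1 + x / K) - 1 / Real.sqrt (1 + (x + 1) / K)) := by
  have hK0 : 0 < K := by linarith
  have hu : 0 < 1 + x / K := by positivity
  have hv : 0 < 1 + (x + 1) / K := by positivity
  obtain ⟨a, ha⟩ : ∃ a, a = Real.sqrt (1 + x / K) := ⟨_, rfl⟩
  obtain ⟨b, hb⟩ : ∃ b, b = Real.sqrt (1 + (x + 1) / K) := ⟨_, rfl⟩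
  have ha2 : a ^ 2 = 1 + x / K := by rw [ha, Real.sq_sqrt hu.le]
  have hb2 : b ^ 2 = 1 + (x + 1) / K := by rw [hb, Real.sq_sqrt hv.le]
  have ha0 : 0 < a := by rw [ha]; exact Real.sqrt_pos.mpr hu
  have hb0 : 0 < b := by rw [hb]; exact Real.sqrt_pos.mpr hv
  have hab : K * (b ^ 2 - a ^ 2) = 1 := by
    rw [ha2, hb2]
    field_simp
    ring
  have hle : a ≤ b := by
    rw [ha, hb]
    refine Real.sqrt_le_sqrt ?_
    have : x / K ≤ (x + 1) / K := by gcongr; linarith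
    linarith
  rw [← ha, ← hb, ← hb2]
  have h1 : 2 * K * (1 / a - 1 / b) = 2 / (a * b * (a + b)) := by
    have h2 : (0:ℝ) < a + b := by positivity
    field_simp
    linear_combination hab
  rw [h1, div_le_div_iff₀ (by positivity) (by positivity)]
  nlinarith [mul_pos ha0 hb0, mul_pos hb0 hb0, mul_nonneg (sub_nonneg.mpr hle) hb0.le,
    mul_nonneg (mul_nonneg (sub_nonneg.mpr hle) hb0.le) ha0.le,
    mul_nonneg (mul_nonneg (sub_nonneg.mpr hle) hb0.le) hb0.le]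

private theorem csH_term {ε : ℝ} (hε : 0 < ε) (hε1 : ε ≤ 1 / 2) {C : ℝ} (hC : 1 ≤ C)
    (hd : ∀ n : ℕ, n ≠ 0 → (n.divisors.card : ℝ) ≤ C * (n : ℝ) ^ (ε / 2)) {K : ℝ} (hK : 1 ≤ K) (m : ℕ) (hm : m ≠ 0) :
    ((m.divisors.card : ℝ)) ^ 2 / (1 + (m : ℝ) ^ 2 / K ^ 2) ≤
      2 * C ^ 2 * K ^ ε * (1 / ((1 + (m : ℝ) / K) * Real.sqrt (1 + (m : ℝ) / K))) := by
  have hK0 : 0 < K := by linarith
  have hm0 : (0:ℝ) ≤ m := Nat.cast_nonneg m
  obtain ⟨x, hx⟩ : ∃ x : ℝ, x = (m : ℝ) / K := ⟨_, rfl⟩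
  have hx0 : 0 ≤ x := by rw [hx]; positivity
  have hmx : (m : ℝ) = K * x := by rw [hx]; field_simp
  have h1 : ((m.divisors.card : ℝ)) ^ 2 ≤ C ^ 2 * (K ^ ε * x ^ ε) := by
    calc ((m.divisors.card : ℝ)) ^ 2 ≤ (C * (m : ℝ) ^ (ε / 2)) ^ 2 := pow_le_pow_left₀ (Nat.cast_nonneg _) (hd m hm) 2
      _ = C ^ 2 * (m : ℝ) ^ ε := by
        rw [mul_pow, ← Real.rpow_natCast ((m : ℝ) ^ (ε / 2)) 2, ← Real.rpow_mul hm0]
        congr 2
        push_cast
        ring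
      _ = C ^ 2 * (K ^ ε * x ^ ε) := by rw [hmx, Real.mul_rpow hK0.le hx0]
  have h2 : x ^ ε ≤ Real.sqrt (1 + x) := by
    calc x ^ ε ≤ (1 + x) ^ ε := Real.rpow_le_rpow hx0 (by linarith) hε.le
      _ ≤ (1 + x) ^ (1 / 2 : ℝ) := Real.rpow_le_rpow_of_exponent_le (by linarith) hε1
      _ = Real.sqrt (1 + x) := (Real.sqrt_eq_rpow _).symm
  have h3 : 1 + (m : ℝ) ^ 2 / K ^ 2 = 1 + x ^ 2 := by rw [hx, div_pow]
  have hs : 0 < Real.sqrt (1 + x) := Real.sqrt_pos.mpr (by linarith)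
  have hs2 : Real.sqrt (1 + x) * Real.sqrt (1 + x) = 1 + x := Real.mul_self_sqrt (by linarith)
  rw [h3, ← hx, div_le_iff₀ (by positivity)]
  have h4 : C ^ 2 * (K ^ ε * x ^ ε) ≤ C ^ 2 * (K ^ ε * Real.sqrt (1 + x)) := by gcongr
  refine (h1.trans h4).trans ?_
  have h5 : Real.sqrt (1 + x) ≤ 2 * (1 / ((1 + x) * Real.sqrt (1 + x))) * (1 + x ^ 2) := by
    have h6 : 2 * (1 / ((1 + x) * Real.sqrt (1 + x))) * (1 + x ^ 2) = (2 * (1 + x ^ 2)) / ((1 + x) * Real.sqrt (1 + x)) := by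
      field_simp
    rw [h6, le_div_iff₀ (by positivity)]
    have h7 : Real.sqrt (1 + x) * ((1 + x) * Real.sqrt (1 + x)) = (1 + x) ^ 2 := by
      linear_combination (1 + x) * hs2
    rw [h7]
    nlinarith [sq_nonneg (1 - x)]
  have h8 : 0 ≤ C ^ 2 * K ^ ε := by positivity
  calc C ^ 2 * (K ^ ε * Real.sqrt (1 + x)) = C ^ 2 * K ^ ε * Real.sqrt (1 + x) := by ring
    _ ≤ C ^ 2 * K ^ ε * (2 * (1 / ((1 + x) * Real.sqrt (1 + x))) * (1 + x ^ 2)) := mul_le_mul_of_nonneg_left h5 h8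
    _ = _ := by ring

private theorem csH_sum {ε : ℝ} (hε : 0 < ε) (hε1 : ε ≤ 1 / 2) {C : ℝ} (hC : 1 ≤ C)
    (hd : ∀ n : ℕ, n ≠ 0 → (n.divisors.card : ℝ) ≤ C * (n : ℝ) ^ (ε / 2)) {K : ℝ} (hK : 1 ≤ K) (M : ℕ) :
    ∑ m ∈ Finset.range (M + 1), ((m.divisors.card : ℝ)) ^ 2 / (1 + (m : ℝ) ^ 2 / K ^ 2) ≤
      2 * C ^ 2 * K ^ ε * (2 * K * (1 - 1 / Real.sqrt (1 + (M : ℝ) / K))) := by
  have hK0 : 0 < K := by linarith
  induction M with
  | zero => simp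
  | succ M ih =>
    rw [Finset.sum_range_succ]
    have h1 := csH_term hε hε1 hC hd hK (M + 1) (by omega)
    have h2 := csH_tel hK (Nat.cast_nonneg M : (0:ℝ) ≤ M)
    have h3 : 0 ≤ 2 * C ^ 2 * K ^ ε := by positivity
    have h4 := mul_le_mul_of_nonneg_left h2 h3
    push_cast at h1 ⊢
    calc _ ≤ 2 * C ^ 2 * K ^ ε * (2 * K * (1 - 1 / Real.sqrt (1 + (M : ℝ) / K))) +
          2 * C ^ 2 * K ^ ε * (2 * K * (1 / Real.sqrt (1 + (M : ℝ) / K) - 1 / Real.sqrt (1 + ((M : ℝ) + 1) / K))) :=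
          add_le_add ih (h1.trans h4)
      _ = _ := by ring

/-- PROOF. `d(n) ≤ C_ε n^(ε/2)` (the library has divisor bounds, or `d(n) ≤ C n^δ`), so
`sum d(n)² (1 + n²/K²)^(-1) ≤ C K^(1+ε)` for `ε ≤ 1/2` (split at `|n| ≤ K`; the term `n = 0` has `divisors 0 = ∅`), and Cauchy-Schwarz for `tsum`. -/
theorem cs_div {ε : ℝ} (hε : 0 < ε) (hε1 : ε ≤ 1 / 2) : ∃ C : ℝ, 0 ≤ C ∧ ∀ K : ℝ, 1 ≤ K → ∀ a : ℤ → ℝ, (∀ n, 0 ≤ a n) →
    Summable (fun n : ℤ => (1 + (n : ℝ) ^ 2 / K ^ 2) * a n ^ 2) →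
    Summable (fun n : ℤ => ((Nat.divisors n.natAbs).card : ℝ) * a n) ∧
    (∑' n : ℤ, ((Nat.divisors n.natAbs).card : ℝ) * a n) ^ 2 ≤
      C * K ^ (1 + ε) * ∑' n : ℤ, (1 + (n : ℝ) ^ 2 / K ^ 2) * a n ^ 2 := by
  obtain ⟨C, hC, hd⟩ := csH_div (half_pos hε)
  refine ⟨8 * C ^ 2, by positivity, ?_⟩
  intro K hK a ha hsum
  have hK0 : 0 < K := by linarith
  obtain ⟨g, hg⟩ : ∃ g : ℕ → ℝ, g = fun m : ℕ => ((m.divisors.card : ℝ)) ^ 2 / (1 + (m : ℝ) ^ 2 / K ^ 2) := ⟨_, rfl⟩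
  have hg0 : ∀ m, 0 ≤ g m := fun m => by rw [hg]; positivity
  obtain ⟨B, hB⟩ : ∃ B : ℝ, B = 4 * C ^ 2 * K ^ (1 + ε) := ⟨_, rfl⟩
  have hgB : ∀ n, ∑ m ∈ Finset.range n, g m ≤ B := by
    intro n
    have h1 : ∑ m ∈ Finset.range n, g m ≤ ∑ m ∈ Finset.range (n + 1), g m :=
      Finset.sum_le_sum_of_subset_of_nonneg (Finset.range_mono (by omega)) (fun m _ _ => hg0 m)
    refine h1.trans ?_
    have h2 := csH_sum hε hε1 hC hd hK n
    rw [hg]
    refine h2.trans ?_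
    have h3 : 0 < Real.sqrt (1 + (n : ℝ) / K) := Real.sqrt_pos.mpr (by positivity)
    have h4 : 1 - 1 / Real.sqrt (1 + (n : ℝ) / K) ≤ 1 := by
      have : 0 < 1 / Real.sqrt (1 + (n : ℝ) / K) := by positivity
      linarith
    rw [hB, Real.rpow_add hK0, Real.rpow_one]
    calc 2 * C ^ 2 * K ^ ε * (2 * K * (1 - 1 / Real.sqrt (1 + (n : ℝ) / K))) ≤ 2 * C ^ 2 * K ^ ε * (2 * K * 1) := by gcongr
      _ = 4 * C ^ 2 * (K * K ^ ε) := by ring
  have hgs : Summable g := summable_of_sum_range_le hg0 hgB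
  have hgt : ∑' m, g m ≤ B := Real.tsum_le_of_sum_range_le hg0 hgB
  obtain ⟨f, hf⟩ : ∃ f : ℤ → ℝ, f = fun n : ℤ => ((Nat.divisors n.natAbs).card : ℝ) ^ 2 / (1 + (n : ℝ) ^ 2 / K ^ 2) := ⟨_, rfl⟩
  have hf0 : ∀ n, 0 ≤ f n := fun n => by rw [hf]; positivity
  have hf1 : (fun n : ℕ => f n) = g := by
    rw [hf, hg]
    funext n
    simp
  have hf2 : (fun n : ℕ => f (-n)) = g := by
    rw [hf, hg]
    funext n
    simp
  have hs1 : Summable (fun n : ℕ => f n) := by rw [hf1]; exact hgs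
  have hs2 : Summable (fun n : ℕ => f (-n)) := by rw [hf2]; exact hgs
  have hfs : Summable f := Summable.of_nat_of_neg hs1 hs2
  have hft : ∑' n, f n ≤ 2 * B := by
    have h1 := Summable.tsum_of_nat_of_neg hs1 hs2
    rw [h1, hf1, hf2]
    have := hf0 0
    linarith
  obtain ⟨S, hS⟩ : ∃ S : ℝ, S = ∑' n : ℤ, (1 + (n : ℝ) ^ 2 / K ^ 2) * a n ^ 2 := ⟨_, rfl⟩
  have hS0 : 0 ≤ S := by rw [hS]; exact tsum_nonneg fun n => by positivity
  have hB0 : 0 ≤ B := by rw [hB]; positivity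
  rw [← hS]
  have hfin : ∀ u : Finset ℤ, ∑ n ∈ u, ((Nat.divisors n.natAbs).card : ℝ) * a n ≤ Real.sqrt (2 * B * S) := by
    intro u
    refine Real.le_sqrt_of_sq_le ?_
    have h1 := Finset.sum_sq_le_sum_mul_sum_of_sq_eq_mul u (r := fun n : ℤ => ((Nat.divisors n.natAbs).card : ℝ) * a n)
      (f := f) (g := fun n : ℤ => (1 + (n : ℝ) ^ 2 / K ^ 2) * a n ^ 2) (fun n _ => hf0 n) (fun n _ => by positivity)
      (fun n _ => by
        rw [hf]
        have hw : (1 + (n : ℝ) ^ 2 / K ^ 2) ≠ 0 := by positivity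
        simp only
        field_simp)
    refine h1.trans ?_
    have h2 : ∑ n ∈ u, f n ≤ 2 * B := (hfs.sum_le_tsum u (fun n _ => hf0 n)).trans hft
    have h3 : ∑ n ∈ u, (1 + (n : ℝ) ^ 2 / K ^ 2) * a n ^ 2 ≤ S := by
      rw [hS]
      exact hsum.sum_le_tsum u (fun n _ => by positivity)
    exact mul_le_mul h2 h3 (Finset.sum_nonneg fun n _ => by positivity) (by positivity)
  have hnn : ∀ n : ℤ, 0 ≤ ((Nat.divisors n.natAbs).card : ℝ) * a n := fun n => mul_nonneg (Nat.cast_nonneg _) (ha n)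
  have hss : Summable (fun n : ℤ => ((Nat.divisors n.natAbs).card : ℝ) * a n) := summable_of_sum_le hnn hfin
  refine ⟨hss, ?_⟩
  have ht : ∑' n : ℤ, ((Nat.divisors n.natAbs).card : ℝ) * a n ≤ Real.sqrt (2 * B * S) := Real.tsum_le_of_sum_le hnn hfin
  calc (∑' n : ℤ, ((Nat.divisors n.natAbs).card : ℝ) * a n) ^ 2 ≤ (Real.sqrt (2 * B * S)) ^ 2 :=
        pow_le_pow_left₀ (tsum_nonneg hnn) ht 2
    _ = 2 * B * S := Real.sq_sqrt (by positivity)
    _ = 8 * C ^ 2 * K ^ (1 + ε) * S := by rw [hB]; ring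

end Pool.Agent.Lib.TW
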