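import Mathlib

/-!
# TW: Heath-Brown's twelfth power moment in block form: definitions

`ch x v = x^(iv)`; `A w N t = sum w(n/N) n^(-it)`; `Wt w`: smooth weight on `(1/2, 4)` with an integrable Mellin transform; `LM`:
the Gaussian local mean square; `EH`, `ED`: its off-diagonal terms with difference `h`, `h` in `[H, 2H)`; `amp`, `Ph`: the function
of `y = n/h`; `Am2`, `Am1`: amplitudes on `[Y/8, 8Y]`; `KK`: the kernel; `QQ`: the quadratic form; `SS`: the bound of the kernel sum.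
-/

set_option autoImplicit false

open MeasureTheory

namespace Pool.Agent.Lib.TW

/-- `x^(iv)` -/
noncomputable def ch (x v : ℝ) : ℂ := Complex.exp (((v * Real.log x : ℝ) : ℂ) * Complex.I)

/-- the smooth Dirichlet polynomial of length `N` -/
noncomputable def A (w : ℝ → ℝ) (N : ℕ) (t : ℝ) : ℂ :=
  ∑ n ∈ Finset.Icc 1 (4 * N), ((w ((n : ℝ) / N) : ℝ) : ℂ) * ch n (-t)

/-- weights: smooth, supported in `[1/2, 4]`, with Mellin transform `g` -/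
def Wt (w : ℝ → ℝ) : Prop :=
  ContDiff ℝ 2 w ∧ (∀ x, x ≤ 1 / 2 → w x = 0) ∧ (∀ x, 4 ≤ x → w x = 0) ∧
    ∃ g : ℝ → ℂ, Continuous g ∧ Integrable (fun v : ℝ => (1 + |v|) ^ 4 * ‖g v‖) ∧
      ∀ x : ℝ, 0 < x → ((w x : ℝ) : ℂ) = ∫ v : ℝ, g v * ch x v

/-- the Gaussian local mean square -/
noncomputable def LM (w : ℝ → ℝ) (N : ℕ) (G τ : ℝ) : ℝ :=
  ∫ u : ℝ, ‖A w N u‖ ^ 2 * Real.exp (-Real.pi * ((u - τ) / G) ^ 2)

/-- the Gaussian factor -/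
noncomputable def gs (G x : ℝ) : ℝ := Real.exp (-(G * Real.log x) ^ 2 / (4 * Real.pi))

/-- the terms with difference `h` -/
noncomputable def EH (w : ℝ → ℝ) (N : ℕ) (G : ℝ) (h : ℕ) (τ : ℝ) : ℂ :=
  ∑ n ∈ Finset.Icc 1 (4 * N),
    ((w ((n : ℝ) / N) * w (((n : ℝ) + h) / N) * gs G (1 + (h : ℝ) / n) : ℝ) : ℂ) * ch (1 + (h : ℝ) / n) (-τ)

/-- the terms with difference in `[H, 2H)` -/
noncomputable def ED (w : ℝ → ℝ) (N : ℕ) (G : ℝ) (H : ℕ) (τ : ℝ) : ℂ :=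
  ∑ h ∈ Finset.Ico H (2 * H), EH w N G h τ

/-- smooth cutoff, `1` on `[1/4, 4]`, `0` outside `(1/8, 8)` -/
noncomputable def rho (x : ℝ) : ℝ := Real.smoothTransition (8 * x - 1) * Real.smoothTransition (2 - x / 4)

/-- the amplitude -/
noncomputable def amp (Y G v v' : ℝ) (y : ℝ) : ℂ :=
  if 0 < y then ((rho (y / Y) * gs G (1 + 1 / y) : ℝ) : ℂ) * ch y v * ch (1 + y) v' else 0

/-- the exponential polynomial -/
noncomputable def PP (J : Finset ℕ) (c : ℕ → ℂ) (τ : ℕ → ℝ) (y : ℝ) : ℂ := ∑ j ∈ J, c j * ch (1 + 1 / y) (-(τ j))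

/-- amplitudes of class `C^2` on `[Y/8, 8Y]` -/
def Am2 (Y B : ℝ) (b : ℝ → ℂ) : Prop :=
  ContDiff ℝ 2 b ∧ (∀ y, b y ≠ 0 → Y / 8 ≤ y ∧ y ≤ 8 * Y) ∧ (∀ y, ‖b y‖ ≤ B) ∧ (∀ y, ‖deriv b y‖ ≤ B / Y) ∧
    ∀ y, ‖deriv (deriv b) y‖ ≤ B / Y ^ 2

/-- amplitudes of class `C^1` on `[Y/8, 8Y]` -/
def Am1 (Y B : ℝ) (b : ℝ → ℂ) : Prop :=
  ContDiff ℝ 1 b ∧ (∀ y, b y ≠ 0 → Y / 8 ≤ y ∧ y ≤ 8 * Y) ∧ (∀ y, ‖b y‖ ≤ B) ∧ ∀ y, ‖deriv b y‖ ≤ B / Y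

/-- the kernel -/
noncomputable def KK (b b' : ℝ → ℂ) (t t' k : ℝ) : ℂ :=
  ∫ y : ℝ, (b (y + k) * ch (1 + 1 / (y + k)) (-t)) * (starRingEnd ℂ) (b' y * ch (1 + 1 / y) (-t'))

/-- the sum of the correlations of `f` -/
noncomputable def QQ (L : ℕ) (f : ℝ → ℂ) : ℝ :=
  ∑ k ∈ Finset.Icc (-(L : ℤ)) L, ‖∫ y : ℝ, f (y + k) * (starRingEnd ℂ) (f y)‖

/-- the bound of the kernel sum -/
noncomputable def SS (Y T u : ℝ) : ℝ :=
  Y / (1 + |u| / Y) + Y ^ 3 * Real.log (2 + Y) / T + Y ^ (5 / 2 : ℝ) * |u| ^ (1 / 2 : ℝ) / T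

theorem norm_ch (x v : ℝ) : ‖ch x v‖ = 1 := Complex.norm_exp_ofReal_mul_I _

theorem ch_zero (x : ℝ) : ch x 0 = 1 := by
  unfold ch
  simp

theorem ch_add (x u v : ℝ) : ch x (u + v) = ch x u * ch x v := by
  unfold ch
  rw [← Complex.exp_add]
  congr 1
  push_cast
  ring

theorem ch_mul {x y : ℝ} (hx : x ≠ 0) (hy : y ≠ 0) (v : ℝ) : ch (x * y) v = ch x v * ch y v := by
  unfold ch
  rw [← Complex.exp_add, Real.log_mul hx hy]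
  congr 1
  push_cast
  ring

theorem conj_ch (x v : ℝ) : (starRingEnd ℂ) (ch x v) = ch x (-v) := by
  unfold ch
  rw [← Complex.exp_conj]
  congr 1
  simp

theorem ch_eq_cpow {n : ℕ} (hn : 1 ≤ n) (t : ℝ) : ch n (-t) = (n : ℂ) ^ (-((t : ℂ) * Complex.I)) := by
  have h : (n : ℂ) ≠ 0 := by exact_mod_cast (by omega : n ≠ 0)
  unfold ch
  rw [Complex.cpow_def_of_ne_zero h, ← Complex.natCast_log]
  congr 1
  push_cast
  ring

end Pool.Agent.Lib.TW
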