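import Pool.Agent.Lib.TW.Defs

/-!
# TW / Defs5: definitions for the third derivative test in the kernel

`sp t ν` is the stationary point of `-t log(1+1/y) - 2πνy`: `sp (sp + 1) = t/(2πν)`; `ps` the value of the phase there; `sa` the
inverse square root of the second derivative; `kap` the Fresnel constant; `Mn` the main term; `Fo` the Fourier transform;
`near T Y`: the frequencies with a possible stationary point.
-/

set_option autoImplicit false

open MeasureTheory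
open scoped FourierTransform

namespace Pool.Agent.Lib.TW

/-- the stationary point -/
noncomputable def sp (t ν : ℝ) : ℝ := (Real.sqrt (1 + 2 * t / (Real.pi * ν)) - 1) / 2

/-- the phase at the stationary point -/
noncomputable def ps (t ν : ℝ) : ℝ := -(t * Real.log (1 + 1 / sp t ν)) - 2 * Real.pi * ν * sp t ν

/-- the amplitude factor -/
noncomputable def sa (t ν : ℝ) : ℝ := sp t ν * (sp t ν + 1) / Real.sqrt (t * (2 * sp t ν + 1))

/-- the Fresnel constant -/
noncomputable def kap : ℂ :=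
  Filter.limUnder Filter.atTop fun R : ℝ => ∫ x in (-R)..R, Complex.exp (((-(x ^ 2 / 2) : ℝ) : ℂ) * Complex.I)

/-- the main term -/
noncomputable def Mn (b : ℝ → ℂ) (t ν : ℝ) : ℂ :=
  kap * b (sp t ν) * (sa t ν : ℂ) * Complex.exp ((ps t ν : ℂ) * Complex.I)

/-- the Fourier transform of one term -/
noncomputable def Fo (b : ℝ → ℂ) (t ν : ℝ) : ℂ := 𝓕 (fun y : ℝ => b y * ch (1 + 1 / y) (-t)) ν

/-- the frequencies with a possible stationary point -/
noncomputable def near (T Y : ℝ) : Finset ℕ := Finset.Ico ⌈T / (10000 * Y ^ 2)⌉₊ ⌊10000 * T / Y ^ 2⌋₊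

/-- `lambda` of the third derivative test -/
noncomputable def lam (T Y u : ℝ) : ℝ := |u| * Y ^ 5 / T ^ 3

/-- the bound for one pair -/
noncomputable def tb (T Y u : ℝ) : ℝ :=
  Y ^ (11 / 6 : ℝ) * |u| ^ (1 / 6 : ℝ) / T ^ (1 / 2 : ℝ) + Y ^ (7 / 6 : ℝ) / |u| ^ (1 / 6 : ℝ)

/-- the bound of the mean square of the main terms -/
noncomputable def rb (T Y G U T₀ R : ℝ) : ℝ :=
  R * (Y + Y ^ 2 / G) + R ^ 2 * (Y ^ (5 / 2 : ℝ) * U ^ (1 / 2 : ℝ) / T + Y ^ 3 / T + Y ^ (6 / 5 : ℝ) / T ^ (1 / 5 : ℝ) +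
    Y ^ (11 / 6 : ℝ) * T₀ ^ (1 / 6 : ℝ) / T ^ (1 / 2 : ℝ) + Y ^ (7 / 6 : ℝ) / U ^ (1 / 6 : ℝ))

end Pool.Agent.Lib.TW
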