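import Pool.Agent.Lib.TW.Defs

/-!
# TW / Ds: the sum over pairs of separated points
-/

set_option autoImplicit false

open MeasureTheory

namespace Pool.Agent.Lib.TW

private theorem ds_harm (M : ℕ) : ∑ i ∈ Finset.Icc 1 M, 1 / (i : ℝ) ≤ 1 + Real.log M := by
  have h := harmonic_le_one_add_log M
  rw [harmonic_eq_sum_Icc] at h
  push_cast at h
  refine le_trans (le_of_eq ?_) h
  exact Finset.sum_congr rfl fun i _ => one_div _

private theorem ds_half (S : Finset ℕ) (f : ℕ → ℕ) (M : ℕ) (hf : Set.InjOn f S) (h : ∀ l ∈ S, f l ∈ Finset.Icc 1 M) :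
    ∑ l ∈ S, 1 / (f l : ℝ) ≤ 1 + Real.log M := by
  refine le_trans ?_ (ds_harm M)
  rw [← Finset.sum_image (f := fun i : ℕ => 1 / (i : ℝ)) hf]
  refine Finset.sum_le_sum_of_subset_of_nonneg ?_ fun i _ _ => by positivity
  intro i hi
  obtain ⟨l, hl, rfl⟩ := Finset.mem_image.1 hi
  exact h l hl

private theorem ds_pair (J : Finset ℕ) (j M : ℕ) (h : ∀ l ∈ J, |(j : ℝ) - l| ≤ M) :
    ∑ l ∈ J.erase j, 1 / |(j : ℝ) - l| ≤ 2 * (1 + Real.log M) := by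
  rw [← Finset.sum_filter_add_sum_filter_not (J.erase j) (fun l => l < j)]
  have h1 : ∑ l ∈ (J.erase j).filter (fun l => l < j), 1 / |(j : ℝ) - l| ≤ 1 + Real.log M := by
    refine le_trans (le_of_eq ?_) (ds_half ((J.erase j).filter (fun l => l < j)) (fun l => j - l) M ?_ ?_)
    · refine Finset.sum_congr rfl fun l hl => ?_
      have hlj := (Finset.mem_filter.1 hl).2
      rw [Nat.cast_sub hlj.le, abs_of_nonneg]
      have : (l : ℝ) ≤ j := by exact_mod_cast hlj.le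
      linarith
    · intro a ha b hb hab
      have ha' := (Finset.mem_filter.1 (Finset.mem_coe.1 ha)).2
      have hb' := (Finset.mem_filter.1 (Finset.mem_coe.1 hb)).2
      simp only at hab
      omega
    · intro l hl
      obtain ⟨hl1, hl2⟩ := Finset.mem_filter.1 hl
      have hb := h l (Finset.mem_of_mem_erase hl1)
      rw [Finset.mem_Icc]
      refine ⟨by omega, ?_⟩
      have h3 : ((j - l : ℕ) : ℝ) ≤ M := by
        rw [Nat.cast_sub hl2.le]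
        exact (le_abs_self _).trans hb
      exact_mod_cast h3
  have h2 : ∑ l ∈ (J.erase j).filter (fun l => ¬ l < j), 1 / |(j : ℝ) - l| ≤ 1 + Real.log M := by
    refine le_trans (le_of_eq ?_) (ds_half ((J.erase j).filter (fun l => ¬ l < j)) (fun l => l - j) M ?_ ?_)
    · refine Finset.sum_congr rfl fun l hl => ?_
      have hlj := not_lt.1 (Finset.mem_filter.1 hl).2
      rw [Nat.cast_sub hlj, abs_of_nonpos, neg_sub]
      have : (j : ℝ) ≤ l := by exact_mod_cast hlj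
      linarith
    · intro a ha b hb hab
      have ha' := not_lt.1 (Finset.mem_filter.1 (Finset.mem_coe.1 ha)).2
      have hb' := not_lt.1 (Finset.mem_filter.1 (Finset.mem_coe.1 hb)).2
      simp only at hab
      omega
    · intro l hl
      obtain ⟨hl1, hl2⟩ := Finset.mem_filter.1 hl
      have hb := h l (Finset.mem_of_mem_erase hl1)
      have hne := Finset.ne_of_mem_erase hl1
      have hle := not_lt.1 hl2
      rw [Finset.mem_Icc]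
      refine ⟨by omega, ?_⟩
      have h3 : ((l - j : ℕ) : ℝ) ≤ M := by
        rw [Nat.cast_sub hle]
        refine le_trans ?_ hb
        rw [← neg_sub]
        exact neg_le_abs _
      exact_mod_cast h3
  linarith

/-- PROOF. `|τ_j - τ_l| = |j - l| G`.  First term: `Y/(1+|u|/Y) ≤ Y` for `j = l` and `≤ Y²/(iG)` for `|j-l| = i ≥ 1`, at most two `l` for
each `i`, `sum_(i ≤ 2T/G + 1) 1/i ≤ C_ε T^ε` (all `|j-l| G ≤ 2T`).  Second: `log(2+Y) ≤ C_ε T^ε` as `Y ≤ T`.  Third: `|u| ≤ T₀`. -/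
theorem pair_sum {ε : ℝ} (hε : 0 < ε) : ∃ C : ℝ, 0 ≤ C ∧ ∀ T : ℝ, 1 ≤ T → ∀ Y : ℝ, 1 / 4 ≤ Y → Y ≤ T → ∀ G : ℕ, 1 ≤ G →
    ∀ T₀ : ℝ, 0 ≤ T₀ → T₀ ≤ 2 * T → ∀ J : Finset ℕ, (∀ j ∈ J, ∀ l ∈ J, |(j : ℝ) * G - (l : ℝ) * G| ≤ T₀) →
    ∑ j ∈ J, ∑ l ∈ J, SS Y T ((j : ℝ) * G - (l : ℝ) * G) ≤ C * T ^ ε * ((J.card : ℝ) * (Y + Y ^ 2 / G) +
      (J.card : ℝ) ^ 2 * (Y ^ (5 / 2 : ℝ) * T₀ ^ (1 / 2 : ℝ) / T + Y ^ 3 / T)) := by
  classical
  have hA : 0 < (2 : ℝ) ^ ε / ε := by positivity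
  have hB : 0 < (3 : ℝ) ^ ε / ε := by positivity
  refine ⟨2 + 2 * (2 * ((2 : ℝ) ^ ε / ε)) + (3 : ℝ) ^ ε / ε, by positivity, fun T hT Y hY hYT G hG T₀ hT0 hT0T J hJ => ?_⟩
  set C : ℝ := 2 + 2 * (2 * ((2 : ℝ) ^ ε / ε)) + (3 : ℝ) ^ ε / ε with hC
  have hY0 : 0 < Y := by linarith
  have hTp : 0 < T := by linarith
  have hG1 : (1 : ℝ) ≤ G := by exact_mod_cast hG
  have hG0 : (0 : ℝ) < G := by linarith
  have hTe : 1 ≤ T ^ ε := Real.one_le_rpow hT hε.le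
  have hTe0 : 0 < T ^ ε := by linarith
  set M : ℕ := ⌊2 * T⌋₊ with hM
  -- the logarithms
  have hl1 : 2 * (1 + Real.log M) ≤ (2 + 2 * ((2 : ℝ) ^ ε / ε)) * T ^ ε := by
    have h1 : Real.log M ≤ Real.log (2 * T) := by
      have hM1 : 1 ≤ M := Nat.le_floor (by push_cast; linarith)
      refine Real.log_le_log (by exact_mod_cast hM1) (Nat.floor_le (by linarith))
    have h2 : Real.log (2 * T) ≤ (2 * T) ^ ε / ε := Real.log_le_rpow_div (by linarith) hε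
    have h3 : (2 * T) ^ ε / ε = (2 : ℝ) ^ ε / ε * T ^ ε := by
      rw [Real.mul_rpow (by norm_num) hTp.le]
      ring
    rw [h3] at h2
    nlinarith
  have hl2 : Real.log (2 + Y) ≤ (3 : ℝ) ^ ε / ε * T ^ ε := by
    have h1 : Real.log (2 + Y) ≤ Real.log (3 * T) := Real.log_le_log (by linarith) (by linarith)
    have h2 : Real.log (3 * T) ≤ (3 * T) ^ ε / ε := Real.log_le_rpow_div (by linarith) hε
    have h3 : (3 * T) ^ ε / ε = (3 : ℝ) ^ ε / ε * T ^ ε := by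
      rw [Real.mul_rpow (by norm_num) hTp.le]
      ring
    rw [h3] at h2
    exact h1.trans h2
  have hl2' : 0 ≤ Real.log (2 + Y) := Real.log_nonneg (by linarith)
  -- the three terms
  have hfirst : ∀ j ∈ J, ∑ l ∈ J, Y / (1 + |(j : ℝ) * G - (l : ℝ) * G| / Y) ≤
      (2 + 2 * (2 * ((2 : ℝ) ^ ε / ε))) * T ^ ε * (Y + Y ^ 2 / G) := by
    intro j hj
    rw [← Finset.add_sum_erase J _ hj]
    have e0 : Y / (1 + |(j : ℝ) * G - (j : ℝ) * G| / Y) = Y := by simp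
    rw [e0]
    have h1 : ∑ l ∈ J.erase j, Y / (1 + |(j : ℝ) * G - (l : ℝ) * G| / Y) ≤
        ∑ l ∈ J.erase j, Y ^ 2 / G * (1 / |(j : ℝ) - l|) := by
      refine Finset.sum_le_sum fun l hl => ?_
      have hne := Finset.ne_of_mem_erase hl
      have hd : 0 < |(j : ℝ) - l| := by
        rw [abs_pos, sub_ne_zero]
        exact_mod_cast hne.symm
      have e1 : |(j : ℝ) * G - (l : ℝ) * G| = |(j : ℝ) - l| * G := by
        rw [← sub_mul, abs_mul, abs_of_pos hG0]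
      rw [e1, div_mul_div_comm, mul_one, div_le_div_iff₀ (by positivity) (by positivity)]
      have e2 : Y ^ 2 * (1 + |(j : ℝ) - l| * G / Y) = Y ^ 2 + Y * (G * |(j : ℝ) - l|) := by
        field_simp
      rw [e2]
      have : 0 ≤ Y ^ 2 := by positivity
      linarith
    rw [← Finset.mul_sum] at h1
    have h2 : ∑ l ∈ J.erase j, 1 / |(j : ℝ) - l| ≤ 2 * (1 + Real.log M) := by
      refine ds_pair J j M fun l hl => ?_
      have h3 := hJ j hj l hl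
      rw [← sub_mul, abs_mul, abs_of_pos hG0] at h3
      have h4 : |(j : ℝ) - l| ≤ 2 * T := by
        have h5 : |(j : ℝ) - l| * 1 ≤ |(j : ℝ) - l| * G := mul_le_mul_of_nonneg_left hG1 (abs_nonneg _)
        linarith
      have h6 : |(j : ℝ) - l| = ((((j : ℤ) - (l : ℤ)).natAbs : ℕ) : ℝ) := by
        rw [Nat.cast_natAbs]
        push_cast
        rfl
      rw [h6] at h4 ⊢
      exact_mod_cast Nat.le_floor h4
    have h7 : Y ^ 2 / G * ∑ l ∈ J.erase j, 1 / |(j : ℝ) - l| ≤ Y ^ 2 / G * ((2 + 2 * ((2 : ℝ) ^ ε / ε)) * T ^ ε) :=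
      mul_le_mul_of_nonneg_left (h2.trans hl1) (by positivity)
    have h8 : 0 ≤ Y ^ 2 / G := by positivity
    have h9 : (0 : ℝ) ≤ (2 : ℝ) ^ ε / ε * T ^ ε := by positivity
    have h10 : (2 + 2 * ((2 : ℝ) ^ ε / ε)) * T ^ ε ≤ (2 + 2 * (2 * ((2 : ℝ) ^ ε / ε))) * T ^ ε := by linarith
    have h11 : 1 ≤ (2 + 2 * (2 * ((2 : ℝ) ^ ε / ε))) * T ^ ε := by linarith
    have h12 : Y * 1 ≤ Y * ((2 + 2 * (2 * ((2 : ℝ) ^ ε / ε))) * T ^ ε) := mul_le_mul_of_nonneg_left h11 hY0.le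
    have h13 := mul_le_mul_of_nonneg_left h10 h8
    linarith
  have hT0' : ∀ j ∈ J, ∀ l ∈ J, |(j : ℝ) * G - (l : ℝ) * G| ^ (1 / 2 : ℝ) ≤ T₀ ^ (1 / 2 : ℝ) := fun j hj l hl =>
    Real.rpow_le_rpow (abs_nonneg _) (hJ j hj l hl) (by norm_num)
  have hcard : ∀ c : ℝ, ∑ _j ∈ J, ∑ _l ∈ J, c = (J.card : ℝ) ^ 2 * c := by
    intro c
    rw [Finset.sum_const, Finset.sum_const, nsmul_eq_mul, nsmul_eq_mul]
    ring
  have e : ∑ j ∈ J, ∑ l ∈ J, SS Y T ((j : ℝ) * G - (l : ℝ) * G) =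
      ∑ j ∈ J, ∑ l ∈ J, Y / (1 + |(j : ℝ) * G - (l : ℝ) * G| / Y) + ∑ j ∈ J, ∑ l ∈ J, Y ^ 3 * Real.log (2 + Y) / T +
      ∑ j ∈ J, ∑ l ∈ J, Y ^ (5 / 2 : ℝ) * |(j : ℝ) * G - (l : ℝ) * G| ^ (1 / 2 : ℝ) / T := by
    unfold SS
    simp only [Finset.sum_add_distrib]
  rw [e, hcard]
  have s1 : ∑ j ∈ J, ∑ l ∈ J, Y / (1 + |(j : ℝ) * G - (l : ℝ) * G| / Y) ≤
      (J.card : ℝ) * ((2 + 2 * (2 * ((2 : ℝ) ^ ε / ε))) * T ^ ε * (Y + Y ^ 2 / G)) := by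
    refine (Finset.sum_le_sum hfirst).trans (le_of_eq ?_)
    rw [Finset.sum_const, nsmul_eq_mul]
  have s3 : ∑ j ∈ J, ∑ l ∈ J, Y ^ (5 / 2 : ℝ) * |(j : ℝ) * G - (l : ℝ) * G| ^ (1 / 2 : ℝ) / T ≤
      (J.card : ℝ) ^ 2 * (Y ^ (5 / 2 : ℝ) * T₀ ^ (1 / 2 : ℝ) / T) := by
    rw [← hcard]
    refine Finset.sum_le_sum fun j hj => Finset.sum_le_sum fun l hl => ?_
    have h1 := hT0' j hj l hl
    have h2 : 0 ≤ Y ^ (5 / 2 : ℝ) := Real.rpow_nonneg hY0.le _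
    gcongr
  have s2 : (J.card : ℝ) ^ 2 * (Y ^ 3 * Real.log (2 + Y) / T) ≤
      (J.card : ℝ) ^ 2 * ((3 : ℝ) ^ ε / ε * T ^ ε * (Y ^ 3 / T)) := by
    refine mul_le_mul_of_nonneg_left ?_ (by positivity)
    have h1 : Y ^ 3 * Real.log (2 + Y) / T = Real.log (2 + Y) * (Y ^ 3 / T) := by ring
    rw [h1]
    exact mul_le_mul_of_nonneg_right hl2 (by positivity)
  set P : ℝ := (J.card : ℝ) * (Y + Y ^ 2 / G) with hP
  set Q : ℝ := (J.card : ℝ) ^ 2 * (Y ^ (5 / 2 : ℝ) * T₀ ^ (1 / 2 : ℝ) / T) with hQ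
  set R : ℝ := (J.card : ℝ) ^ 2 * (Y ^ 3 / T) with hR
  have hP0 : 0 ≤ P := by positivity
  have hQ0 : 0 ≤ Q := by
    have h2 : 0 ≤ Y ^ (5 / 2 : ℝ) := Real.rpow_nonneg hY0.le _
    have h3 : 0 ≤ T₀ ^ (1 / 2 : ℝ) := Real.rpow_nonneg hT0 _
    positivity
  have hR0 : 0 ≤ R := by positivity
  have t1 : (J.card : ℝ) * ((2 + 2 * (2 * ((2 : ℝ) ^ ε / ε))) * T ^ ε * (Y + Y ^ 2 / G)) =
      (2 + 2 * (2 * ((2 : ℝ) ^ ε / ε))) * T ^ ε * P := by rw [hP]; ring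
  have t2 : (J.card : ℝ) ^ 2 * ((3 : ℝ) ^ ε / ε * T ^ ε * (Y ^ 3 / T)) = (3 : ℝ) ^ ε / ε * T ^ ε * R := by rw [hR]; ring
  have t3 : C * T ^ ε * ((J.card : ℝ) * (Y + Y ^ 2 / G) +
      (J.card : ℝ) ^ 2 * (Y ^ (5 / 2 : ℝ) * T₀ ^ (1 / 2 : ℝ) / T + Y ^ 3 / T)) =
      C * T ^ ε * P + C * T ^ ε * Q + C * T ^ ε * R := by rw [hP, hQ, hR]; ring
  rw [t1] at s1
  rw [t2] at s2
  rw [t3]
  have u1 : (2 + 2 * (2 * ((2 : ℝ) ^ ε / ε))) * T ^ ε * P ≤ C * T ^ ε * P := by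
    refine mul_le_mul_of_nonneg_right (mul_le_mul_of_nonneg_right ?_ hTe0.le) hP0
    rw [hC]; linarith
  have u2 : (3 : ℝ) ^ ε / ε * T ^ ε * R ≤ C * T ^ ε * R := by
    refine mul_le_mul_of_nonneg_right (mul_le_mul_of_nonneg_right ?_ hTe0.le) hR0
    rw [hC]; linarith
  have u3 : Q ≤ C * T ^ ε * Q := by
    refine le_mul_of_one_le_left hQ0 ?_
    refine one_le_mul_of_one_le_of_one_le ?_ hTe
    rw [hC]; linarith
  linarith

end Pool.Agent.Lib.TW
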