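import Pool.Agent.Lib.TW.Defs

/-!
# TW / Pa: Parseval
-/

set_option autoImplicit false

open MeasureTheory
open scoped FourierTransform

namespace Pool.Agent.Lib.TW

private theorem sum_unit {h : ℝ → ℂ} (hc : Continuous h) (L : ℕ) :
    ∑ k ∈ Finset.range L, ∫ x in (0 : ℝ)..1, h (x + k) = ∫ x in (0 : ℝ)..L, h x := by
  have h1 := intervalIntegral.sum_integral_adjacent_intervals (f := h) (μ := volume) (a := fun k : ℕ => (k : ℝ)) (n := L)
    (fun k _ => hc.intervalIntegrable _ _)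
  simp only [Nat.cast_zero] at h1
  rw [← h1]
  refine Finset.sum_congr rfl fun k _ => ?_
  rw [intervalIntegral.integral_comp_add_right (fun x => h x)]
  congr 1
  · simp
  · push_cast
    ring

private theorem int_supp {h : ℝ → ℂ} {L : ℕ} (hs : ∀ y, h y ≠ 0 → 0 < y ∧ y ≤ L) :
    ∫ x in (0 : ℝ)..L, h x = ∫ x, h x := by
  refine intervalIntegral.integral_eq_integral_of_support_subset fun y hy => ?_
  exact hs y hy

private theorem sum_all {f : ℝ → ℂ} {L : ℕ} (hs : ∀ y, f y ≠ 0 → 0 < y ∧ y ≤ L) {x : ℝ} (h0 : 0 < x) (h1 : x ≤ 1) {l : ℕ}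
    (hl : l < L) :
    ∑ d ∈ Finset.Icc (-(L : ℤ)) L, f (x + l + d) = ∑ k ∈ Finset.range L, f (x + k) := by
  symm
  have hinj : Set.InjOn (fun k : ℕ => (k : ℤ) - l) (Finset.range L : Set ℕ) := by
    intro a _ b _ hab
    simp only at hab
    omega
  rw [← Finset.sum_subset (s₁ := (Finset.range L).image (fun k : ℕ => (k : ℤ) - l))]
  · rw [Finset.sum_image hinj]
    refine Finset.sum_congr rfl fun k _ => ?_
    congr 1
    push_cast
    ring
  · intro d hd
    simp only [Finset.mem_image, Finset.mem_range, Finset.mem_Icc] at hd ⊢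
    obtain ⟨k, hk, rfl⟩ := hd
    omega
  · intro d _ hd
    by_contra hne
    obtain ⟨h2, h3⟩ := hs _ hne
    apply hd
    simp only [Finset.mem_image, Finset.mem_range]
    have h4 : (-1 : ℝ) < (l : ℝ) + d := by linarith
    have h5 : (l : ℝ) + d < L := by linarith
    have h6 : (-1 : ℤ) < (l : ℤ) + d := by exact_mod_cast h4
    have h7 : (l : ℤ) + d < L := by exact_mod_cast h5
    refine ⟨((l : ℤ) + d).toNat, by omega, by omega⟩

private theorem coef {f : ℝ → ℂ} (hf : Continuous f) {L : ℕ} (hs : ∀ y, f y ≠ 0 → 0 < y ∧ y ≤ L) (m : ℤ) :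
    fourierCoeffOn zero_lt_one (fun x : ℝ => ∑ k ∈ Finset.range L, f (x + k)) m = 𝓕 f (m : ℝ) := by
  rw [fourierCoeffOn_eq_integral, Real.fourier_real_eq_integral_exp_smul]
  have hc : Continuous fun v : ℝ => Complex.exp (((-2 * Real.pi * v * (m : ℝ) : ℝ) : ℂ) * Complex.I) • f v := by
    have : Continuous fun v : ℝ => Complex.exp (((-2 * Real.pi * v * (m : ℝ) : ℝ) : ℂ) * Complex.I) := by fun_prop
    exact this.smul hf
  have h1 := int_supp (L := L) (h := fun v : ℝ => Complex.exp (((-2 * Real.pi * v * (m : ℝ) : ℝ) : ℂ) * Complex.I) • f v)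
    (fun y hy => hs y fun h => hy (by simp [h]))
  rw [← h1, ← sum_unit hc L, ← intervalIntegral.integral_finsetSum]
  · simp only [sub_zero, div_one, one_smul]
    refine intervalIntegral.integral_congr fun x _ => ?_
    rw [Finset.smul_sum]
    refine Finset.sum_congr rfl fun k _ => ?_
    congr 1
    rw [fourier_coe_apply]
    have h2 : ((-2 * Real.pi * (x + (k : ℝ)) * (m : ℝ) : ℝ) : ℂ) * Complex.I
        = 2 * Real.pi * Complex.I * ((-m : ℤ) : ℂ) * x / ((1 : ℝ) : ℂ) + ((-(k * m) : ℤ) : ℂ) * (2 * Real.pi * Complex.I) := by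
      push_cast
      ring
    rw [h2, Complex.exp_add, Complex.exp_int_mul_two_pi_mul_I, mul_one]
    norm_num
  · intro k _
    exact (hc.comp (continuous_id.add continuous_const)).intervalIntegrable _ _

private theorem corr {f : ℝ → ℂ} (hf : Continuous f) {L : ℕ} (hs : ∀ y, f y ≠ 0 → 0 < y ∧ y ≤ L) :
    ((∫ x in (0 : ℝ)..1, ‖∑ k ∈ Finset.range L, f (x + k)‖ ^ 2 : ℝ) : ℂ)
      = ∑ d ∈ Finset.Icc (-(L : ℤ)) L, ∫ y : ℝ, f (y + d) * (starRingEnd ℂ) (f y) := by
  have hcc : Continuous fun y : ℝ => (starRingEnd ℂ) (f y) := Complex.continuous_conj.comp hf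
  have hcd : ∀ d : ℤ, Continuous fun y : ℝ => f (y + d) * (starRingEnd ℂ) (f y) := fun d =>
    (hf.comp (continuous_id.add continuous_const)).mul hcc
  have h1 : ∀ d ∈ Finset.Icc (-(L : ℤ)) L, ∫ y : ℝ, f (y + d) * (starRingEnd ℂ) (f y)
      = ∑ l ∈ Finset.range L, ∫ x in (0 : ℝ)..1, f (x + l + d) * (starRingEnd ℂ) (f (x + l)) := by
    intro d _
    rw [← int_supp (L := L) (h := fun y : ℝ => f (y + d) * (starRingEnd ℂ) (f y)), ← sum_unit (hcd d) L]
    intro y hy
    exact hs y fun h => hy (by simp [h])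
  rw [Finset.sum_congr rfl h1, Finset.sum_comm, ← intervalIntegral.integral_ofReal]
  have h2 : ∀ l ∈ Finset.range L, ∑ d ∈ Finset.Icc (-(L : ℤ)) L,
      ∫ x in (0 : ℝ)..1, f (x + l + d) * (starRingEnd ℂ) (f (x + l))
      = ∫ x in (0 : ℝ)..1, (∑ k ∈ Finset.range L, f (x + k)) * (starRingEnd ℂ) (f (x + l)) := by
    intro l hl
    rw [← intervalIntegral.integral_finsetSum]
    · refine intervalIntegral.integral_congr_ae (Filter.Eventually.of_forall fun x hx => ?_)
      rw [Set.uIoc_of_le zero_le_one] at hx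
      rw [← Finset.sum_mul, sum_all hs hx.1 hx.2 (Finset.mem_range.mp hl)]
    · intro d _
      exact ((hcd d).comp (continuous_id.add continuous_const)).intervalIntegrable _ _
  rw [Finset.sum_congr rfl h2, ← intervalIntegral.integral_finsetSum]
  · refine intervalIntegral.integral_congr fun x _ => ?_
    rw [← Finset.mul_sum, ← map_sum, Complex.mul_conj, Complex.normSq_eq_norm_sq]
  · intro l _
    refine Continuous.intervalIntegrable ?_ _ _
    refine (continuous_finsetSum _ fun k _ => hf.comp (continuous_id.add continuous_const)).mul ?_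
    exact hcc.comp (continuous_id.add continuous_const)

/-- PROOF. `sum_m ‖𝓕 f (m)‖² = ∫_0^1 |sum_k f(y+k)|² dy = sum_k ∫ f(y+k) conj f(y) dy` (Mathlib: Fourier coefficients of the periodisation,
`Real.fourierCoeff_tsum_comp_add`, and `tsum_sq_fourierCoeff`; or Poisson summation for the autocorrelation `R(x) = ∫ f(y+x) conj f(y) dy`,
whose Fourier transform is `‖𝓕 f‖²`).  `f` is zero outside `[0, L]`, so the terms with `|k| > L` vanish. -/
theorem parseval {f : ℝ → ℂ} (hf : ContDiff ℝ 1 f) {L : ℕ} (hs : ∀ y, f y ≠ 0 → 0 < y ∧ y ≤ L) :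
    Summable (fun m : ℤ => ‖𝓕 f (m : ℝ)‖ ^ 2) ∧
    ∑' m : ℤ, ‖𝓕 f (m : ℝ)‖ ^ 2 ≤ QQ L f := by
  have hc := hf.continuous
  have hF : Continuous fun x : ℝ => ∑ k ∈ Finset.range L, f (x + k) :=
    continuous_finsetSum _ fun k _ => hc.comp (continuous_id.add continuous_const)
  have hL2 : MemLp (fun x : ℝ => ∑ k ∈ Finset.range L, f (x + k)) 2 (volume.restrict (Set.Ioc (0 : ℝ) 1)) := by
    have h1 : IsCompact (Set.Icc (0 : ℝ) 1) := isCompact_Icc
    obtain ⟨C, hC⟩ := h1.exists_bound_of_continuousOn hF.continuousOn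
    refine MemLp.of_bound hF.aestronglyMeasurable C ?_
    refine (ae_restrict_iff' measurableSet_Ioc).mpr (Filter.Eventually.of_forall fun x hx => ?_)
    exact hC x ⟨hx.1.le, hx.2⟩
  have h2 := hasSum_sq_fourierCoeffOn zero_lt_one hL2
  simp only [coef hc hs, sub_zero, inv_one, one_smul] at h2
  refine ⟨h2.summable, ?_⟩
  rw [h2.tsum_eq]
  have h3 := corr hc hs
  have h4 : ∫ x in (0 : ℝ)..1, ‖∑ k ∈ Finset.range L, f (x + k)‖ ^ 2
      = ‖∑ d ∈ Finset.Icc (-(L : ℤ)) L, ∫ y : ℝ, f (y + d) * (starRingEnd ℂ) (f y)‖ := by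
    rw [← h3, Complex.norm_real, Real.norm_of_nonneg]
    exact intervalIntegral.integral_nonneg zero_le_one fun x _ => by positivity
  rw [h4]
  exact norm_sum_le _ _

end Pool.Agent.Lib.TW
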