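import Pool.Agent.Lib.TW.Fd

/-!
# TW / Po: Poisson summation for dilates
-/

set_option autoImplicit false

open MeasureTheory
open scoped FourierTransform

namespace Pool.Agent.Lib.TW

private theorem po_fourier (f : ℝ → ℂ) {h : ℝ} (hh : 0 < h) (ξ : ℝ) :
    𝓕 (fun x : ℝ => f (x / h)) ξ = h * 𝓕 f (ξ * h) := by
  rw [Real.fourier_real_eq_integral_exp_smul, Real.fourier_real_eq_integral_exp_smul]
  have h1 := MeasureTheory.Measure.integral_comp_div
    (fun y : ℝ => Complex.exp (↑(-2 * Real.pi * y * (ξ * h)) * Complex.I) • f y) h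
  rw [abs_of_pos hh] at h1
  have h2 : (fun x : ℝ => Complex.exp (↑(-2 * Real.pi * x * ξ) * Complex.I) • f (x / h)) =
      fun x : ℝ => Complex.exp (↑(-2 * Real.pi * (x / h) * (ξ * h)) * Complex.I) • f (x / h) := by
    funext x
    congr 4
    field_simp
  rw [h2, h1, Complex.real_smul]

/-- PROOF. Poisson summation for `g(x) = f(x/h)`: `sum g(n) = sum 𝓕 g (m)`, `𝓕 g (m) = h 𝓕 f (mh)`; `g` is continuous with compact
support and `𝓕 g (m) = O(m^(-2))` (`Fd.fd_decay` may be used: import it), Mathlib `Real.tsum_eq_tsum_fourierIntegral` and variants. -/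
theorem poisson_dil {f : ℝ → ℂ} (hf : ContDiff ℝ 2 f) (hs : HasCompactSupport f) {h : ℕ} (hh : 1 ≤ h) :
    ∑' n : ℤ, f ((n : ℝ) / h) = h * ∑' m : ℤ, 𝓕 f ((m : ℝ) * h) := by
  have hh' : (0 : ℝ) < h := by exact_mod_cast hh
  have hg : ContDiff ℝ 2 (fun x : ℝ => f (x / h)) := hf.comp (contDiff_id.div_const _)
  have hgs : HasCompactSupport (fun x : ℝ => f (x / h)) := by
    have h1 := hs.comp_homeomorph (Homeomorph.mulRight₀ ((h : ℝ)⁻¹) (inv_ne_zero hh'.ne'))
    have h2 : (f ∘ Homeomorph.mulRight₀ ((h : ℝ)⁻¹) (inv_ne_zero hh'.ne')) = fun x : ℝ => f (x / h) := by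
      funext x
      simp [div_eq_mul_inv]
    rwa [h2] at h1
  obtain ⟨C, hC0, hC⟩ := fd_decay hg hgs
  have hO1 : (fun x : ℝ => f (x / h)) =O[Filter.cocompact ℝ] (fun x : ℝ => |x| ^ (-(2 : ℝ))) := by
    have h1 := hasCompactSupport_iff_eventuallyEq.1 hgs
    rw [Filter.coclosedCompact_eq_cocompact] at h1
    refine Asymptotics.IsBigO.of_bound 1 (h1.mono fun x hx => ?_)
    have hx' : f (x / h) = 0 := hx
    rw [hx', norm_zero]
    positivity
  have hO2 : (𝓕 (fun x : ℝ => f (x / h))) =O[Filter.cocompact ℝ] (fun x : ℝ => |x| ^ (-(2 : ℝ))) := by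
    have h0 : ∀ᶠ x : ℝ in Filter.cocompact ℝ, x ≠ 0 := by
      have h1 := (isCompact_singleton (x := (0 : ℝ))).compl_mem_cocompact
      exact Filter.mem_of_superset h1 fun x hx => hx
    refine Asymptotics.IsBigO.of_bound C (h0.mono fun x hx => ?_)
    have h1 : 0 < |x| := abs_pos.2 hx
    have h2 : |x| ^ (-(2 : ℝ)) = (x ^ 2)⁻¹ := by
      rw [Real.rpow_neg h1.le, Real.rpow_two, sq_abs]
    rw [h2, Real.norm_eq_abs, abs_of_nonneg (by positivity)]
    have h3 : 0 < x ^ 2 := by positivity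
    rw [← div_eq_mul_inv, le_div_iff₀ h3]
    have h4 := hC x
    nlinarith [norm_nonneg (𝓕 (fun x : ℝ => f (x / h)) x)]
  have key := Real.tsum_eq_tsum_fourier_of_rpow_decay hg.continuous one_lt_two hO1 hO2 0
  simp only [zero_add] at key
  rw [key, ← tsum_mul_left]
  refine tsum_congr fun m => ?_
  rw [po_fourier f hh']
  have e : ((0 : ℝ) : UnitAddCircle) = 0 := rfl
  rw [e, fourier_eval_zero, mul_one]
  simp

end Pool.Agent.Lib.TW
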