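import Pool.Agent.Lib.TW.Defs

/-!
# TW / Re: rearrangement by divisors
-/

set_option autoImplicit false

open MeasureTheory

namespace Pool.Agent.Lib.TW

/-- PROOF. The pairs `(h, m)`, `h ∈ [H, 2H)`, `m ≠ 0`, with `m h = n` are at most `d(|n|)` in number: `sum_h sum_(m ≠ 0) a(mh) =
sum_(n ≠ 0) a(n) #{h ∈ [H,2H) : h ∣ n}`. -/
theorem rearr (H : ℕ) (hH : 1 ≤ H) (a : ℤ → ℝ) (ha : ∀ n, 0 ≤ a n)
    (hs : Summable fun n : ℤ => ((Nat.divisors n.natAbs).card : ℝ) * a n) :
    (∀ h ∈ Finset.Ico H (2 * H), Summable fun m : ℤ => if m = 0 then 0 else a (m * h)) ∧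
    ∑ h ∈ Finset.Ico H (2 * H), ∑' m : ℤ, (if m = 0 then 0 else a (m * h)) ≤
      ∑' n : ℤ, ((Nat.divisors n.natAbs).card : ℝ) * a n := by
  classical
  set f : ℕ → ℤ → ℝ := fun h n => if ((h : ℤ) ∣ n ∧ n ≠ 0) then a n else 0 with hf
  have hfn : ∀ h n, 0 ≤ f h n := by
    intro h n
    simp only [hf]
    split_ifs with hc
    · exact ha n
    · exact le_refl _
  have hfle : ∀ h n, f h n ≤ ((Nat.divisors n.natAbs).card : ℝ) * a n := by
    intro h n
    simp only [hf]
    split_ifs with hc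
    · have h1 : 1 ≤ (Nat.divisors n.natAbs).card :=
        Finset.card_pos.mpr ⟨1, Nat.one_mem_divisors.mpr (Int.natAbs_ne_zero.mpr hc.2)⟩
      have h2 : (1 : ℝ) ≤ ((Nat.divisors n.natAbs).card : ℝ) := by exact_mod_cast h1
      nlinarith [ha n, mul_le_mul_of_nonneg_right h2 (ha n)]
    · exact mul_nonneg (Nat.cast_nonneg _) (ha n)
  have hfs : ∀ h, Summable (f h) := fun h => Summable.of_nonneg_of_le (hfn h) (hfle h) hs
  have hinj : ∀ h : ℕ, 1 ≤ h → Function.Injective (fun m : ℤ => m * (h : ℤ)) := by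
    intro h hh x y hxy
    have hne : (h : ℤ) ≠ 0 := by positivity
    exact mul_right_cancel₀ hne hxy
  have hcomp : ∀ h : ℕ, 1 ≤ h → (fun m : ℤ => if m = 0 then (0 : ℝ) else a (m * h)) =
      f h ∘ (fun m : ℤ => m * (h : ℤ)) := by
    intro h hh
    have hne : (h : ℤ) ≠ 0 := by positivity
    funext m
    simp only [hf, Function.comp]
    by_cases hm : m = 0
    · simp [hm]
    · rw [if_neg hm, if_pos ⟨Dvd.intro_left m rfl, mul_ne_zero hm hne⟩]
  refine ⟨fun h hh => ?_, ?_⟩
  · have hh1 : 1 ≤ h := le_trans hH (Finset.mem_Ico.mp hh).1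
    rw [hcomp h hh1]
    exact (hfs h).comp_injective (hinj h hh1)
  · have h1 : ∀ h ∈ Finset.Ico H (2 * H),
        ∑' m : ℤ, (if m = 0 then (0 : ℝ) else a (m * h)) = ∑' n : ℤ, f h n := by
      intro h hh
      have hh1 : 1 ≤ h := le_trans hH (Finset.mem_Ico.mp hh).1
      have hsup : Function.support (f h) ⊆ Set.range (fun m : ℤ => m * (h : ℤ)) := by
        intro n hn
        simp only [hf, Function.mem_support] at hn
        by_contra hcon
        apply hn
        rw [if_neg]
        rintro ⟨⟨c, hc⟩, _⟩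
        exact hcon ⟨c, by simp only [hc, mul_comm]⟩
      rw [← (hinj h hh1).tsum_eq hsup]
      exact tsum_congr (fun m => congrFun (hcomp h hh1) m)
    rw [Finset.sum_congr rfl h1, ← Summable.tsum_finsetSum (fun h _ => hfs h)]
    refine Summable.tsum_le_tsum (fun n => ?_) (summable_sum fun h _ => hfs h) hs
    by_cases hn : n = 0
    · simp [hf, hn]
    · have h2 : ∑ h ∈ Finset.Ico H (2 * H), f h n =
          (((Finset.Ico H (2 * H)).filter (fun h : ℕ => (h : ℤ) ∣ n)).card : ℝ) * a n := by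
        rw [← nsmul_eq_mul, ← Finset.sum_const, Finset.sum_filter]
        refine Finset.sum_congr rfl (fun h _ => ?_)
        simp only [hf, hn, ne_eq, not_false_eq_true, and_true]
      rw [h2]
      refine mul_le_mul_of_nonneg_right ?_ (ha n)
      have h3 : ((Finset.Ico H (2 * H)).filter (fun h : ℕ => (h : ℤ) ∣ n)).card ≤
          (Nat.divisors n.natAbs).card := by
        refine Finset.card_le_card (fun h hh => ?_)
        exact Nat.mem_divisors.mpr ⟨Int.natCast_dvd.mp (Finset.mem_filter.mp hh).2,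
          Int.natAbs_ne_zero.mpr hn⟩
      exact_mod_cast h3

end Pool.Agent.Lib.TW
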