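import Pool.Agent.Lib.TW.Fd
import Pool.Agent.Lib.TW.Po
import Pool.Agent.Lib.TW.Re
import Pool.Agent.Lib.TW.Cs
import Pool.Agent.Lib.TW.Pa

/-!
# TW / Ps: the sum over fractions
-/

set_option autoImplicit false

open MeasureTheory
open scoped FourierTransform

namespace Pool.Agent.Lib.TW

private theorem ps_deriv_supp {f : ℝ → ℂ} {L : ℕ} (hf : ContDiff ℝ 1 f) (hs : ∀ y, f y ≠ 0 → 0 < y ∧ y ≤ L) :
    ∀ y, deriv f y ≠ 0 → 0 < y ∧ y ≤ L := by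
  intro y hy
  constructor
  · by_contra h
    have h' : y ≤ 0 := not_lt.1 h
    apply hy
    have h1 : HasDerivWithinAt f (deriv f y) (Set.Iic y) y :=
      ((hf.differentiable one_ne_zero) y).hasDerivAt.hasDerivWithinAt
    have hz : ∀ z ∈ Set.Iic y, f z = 0 := by
      intro z hz
      by_contra hne
      exact absurd (hs z hne).1 (not_lt.2 ((Set.mem_Iic.1 hz).trans h'))
    have h2 : HasDerivWithinAt f 0 (Set.Iic y) y :=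
      (hasDerivWithinAt_const y (Set.Iic y) (0 : ℂ)).congr hz (hz y (Set.mem_Iic.2 le_rfl))
    exact (uniqueDiffWithinAt_Iic y).eq_deriv _ h1 h2
  · by_contra h
    have h' : (L : ℝ) < y := not_le.1 h
    apply hy
    have h1 : f =ᶠ[nhds y] fun _ => 0 := by
      filter_upwards [Ioi_mem_nhds h'] with z hz
      by_contra hne
      exact absurd (hs z hne).2 (not_le.2 hz)
    rw [h1.deriv_eq, deriv_const]

private theorem ps_fderiv {f : ℝ → ℂ} (hf : ContDiff ℝ 1 f) (hc : HasCompactSupport f) (x : ℝ) :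
    x ^ 2 * ‖𝓕 f x‖ ^ 2 ≤ ‖𝓕 (deriv f) x‖ ^ 2 := by
  have hi : Integrable f := hf.continuous.integrable_of_hasCompactSupport hc
  have hi' : Integrable (deriv f) := (hf.continuous_deriv le_rfl).integrable_of_hasCompactSupport hc.deriv
  have h1 := congrFun (Real.fourier_deriv hi (hf.differentiable one_ne_zero) hi') x
  have h2 : ‖𝓕 (deriv f) x‖ = 2 * Real.pi * |x| * ‖𝓕 f x‖ := by
    rw [h1, norm_smul, norm_mul, norm_mul, norm_mul, Complex.norm_I, Complex.norm_real,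
      Complex.norm_real, Complex.norm_two, mul_one, Real.norm_of_nonneg Real.pi_pos.le, Real.norm_eq_abs]
  rw [h2, mul_pow, mul_pow, sq_abs, mul_assoc]
  have h3 : (1 : ℝ) ≤ (2 * Real.pi) ^ 2 := by
    have := Real.pi_gt_three
    nlinarith
  have h4 : 0 ≤ x ^ 2 * ‖𝓕 f x‖ ^ 2 := by positivity
  nlinarith

private theorem ps_inner {f : ℝ → ℂ} (hf : ContDiff ℝ 2 f) (hc : HasCompactSupport f) {L M H h : ℕ} (hs : ∀ y, f y ≠ 0 → 0 < y ∧ y ≤ L)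
    (hh : 1 ≤ h) (hh2 : h ≤ 2 * H) (hM : ∀ n : ℕ, M < n → f ((n : ℝ) / h) = 0)
    (hr : Summable fun m : ℤ => if m = 0 then 0 else ‖𝓕 f (((m * h : ℤ) : ℝ))‖) :
    ‖∑ n ∈ Finset.Icc 1 M, f ((n : ℝ) / h)‖ ≤
      (2 * H) * (‖∫ y : ℝ, f y‖ + ∑' m : ℤ, if m = 0 then 0 else ‖𝓕 f (((m * h : ℤ) : ℝ))‖) := by
  have h0 : (0 : ℝ) < h := by exact_mod_cast hh
  have e1 : ∑' n : ℤ, f ((n : ℝ) / h) = ∑ n ∈ Finset.Icc 1 M, f ((n : ℝ) / h) := by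
    have h1 : ∑' n : ℤ, f ((n : ℝ) / h) = ∑ n ∈ (Finset.Icc 1 M).map Nat.castEmbedding, f (((n : ℤ) : ℝ) / h) := by
      refine tsum_eq_sum fun n hn => ?_
      by_contra hne
      have h2 := (hs _ hne).1
      have h3 : (0 : ℝ) < n := by
        by_contra h4
        exact absurd h2 (not_lt.2 (div_nonpos_of_nonpos_of_nonneg (not_lt.1 h4) h0.le))
      have h5 : 0 < n := by exact_mod_cast h3
      obtain ⟨k, rfl⟩ := Int.eq_ofNat_of_zero_le h5.le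
      apply hn
      rw [Finset.mem_map]
      refine ⟨k, Finset.mem_Icc.2 ⟨by exact_mod_cast h5, ?_⟩, rfl⟩
      by_contra h6
      refine hne ?_
      have h7 := hM k (not_le.1 h6)
      simpa using h7
    rw [h1, Finset.sum_map]
    refine Finset.sum_congr rfl fun n _ => ?_
    simp
  have hsm : Summable fun m : ℤ => ‖𝓕 f ((m : ℝ) * h)‖ := by
    have h1 : Summable fun m : ℤ => if m = 0 then ‖𝓕 f 0‖ else 0 := (hasSum_ite_eq (0 : ℤ) ‖𝓕 f 0‖).summable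
    refine (hr.add h1).congr fun m => ?_
    by_cases hm : m = 0
    · subst hm
      simp
    · rw [if_neg hm, if_neg hm, add_zero]
      push_cast
      rfl
  have e3 : ∑' m : ℤ, ‖𝓕 f ((m : ℝ) * h)‖ =
      ‖∫ y : ℝ, f y‖ + ∑' m : ℤ, if m = 0 then 0 else ‖𝓕 f (((m * h : ℤ) : ℝ))‖ := by
    rw [hsm.tsum_eq_add_tsum_ite 0]
    congr 1
    · rw [Int.cast_zero, zero_mul, Real.fourier_eq]
      simp
    · refine tsum_congr fun m => ?_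
      push_cast
      rfl
  rw [← e1, poisson_dil hf hc hh, norm_mul, Complex.norm_natCast, ← e3]
  have h8 : ‖∑' m : ℤ, 𝓕 f ((m : ℝ) * h)‖ ≤ ∑' m : ℤ, ‖𝓕 f ((m : ℝ) * h)‖ := norm_tsum_le_tsum_norm hsm
  have h9 : (h : ℝ) ≤ 2 * H := by exact_mod_cast hh2
  exact mul_le_mul h9 h8 (norm_nonneg _) (by positivity)

/-- PROOF (over the imported rows). `f(n/h) = 0` for `n ≤ 0` and for `n > M`, so the inner sum is the `tsum` over `ℤ` and equals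
`h sum_m 𝓕 f (mh)` (`poisson_dil`).  The terms `m = 0` give `≤ 2H · H ‖∫ f‖`, the others `≤ 2H sum_(n ≠ 0) d(|n|) ‖𝓕 f (n)‖` (`rearr`,
`a n = ‖𝓕 f n‖`), and `cs_div` with `K`; `n² ‖𝓕 f (n)‖² ≤ ‖𝓕 f' (n)‖²` and `parseval` for `f` and for `f'`; `(x+y)² ≤ 2x²+2y²`. -/
theorem pois {ε : ℝ} (hε : 0 < ε) (hε1 : ε ≤ 1 / 2) : ∃ C : ℝ, 0 ≤ C ∧ ∀ K : ℝ, 1 ≤ K → ∀ H : ℕ, 1 ≤ H → ∀ L : ℕ,
    ∀ f : ℝ → ℂ, ContDiff ℝ 2 f → (∀ y, f y ≠ 0 → 0 < y ∧ y ≤ L) → ∀ M : ℕ,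
      (∀ h ∈ Finset.Ico H (2 * H), ∀ n : ℕ, M < n → f ((n : ℝ) / h) = 0) → ∀ c : ℕ → ℂ, (∀ h, ‖c h‖ ≤ 1) →
      ‖∑ h ∈ Finset.Ico H (2 * H), c h * ∑ n ∈ Finset.Icc 1 M, f ((n : ℝ) / h)‖ ^ 2 ≤
        C * (H : ℝ) ^ 2 * K ^ ε * ((H : ℝ) ^ 2 * ‖∫ y : ℝ, f y‖ ^ 2 + K * (QQ L f + QQ L (deriv f) / K ^ 2)) := by
  obtain ⟨C0, hC0, hcs⟩ := cs_div hε hε1
  refine ⟨8 * (1 + C0), by positivity, ?_⟩
  intro K hK H hH L f hf hs M hM c hc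
  have hK0 : 0 < K := by linarith
  have hcomp : HasCompactSupport f := by
    refine HasCompactSupport.intro (isCompact_Icc (a := (0 : ℝ)) (b := L)) ?_
    intro x hx
    by_contra hne
    have h1 := hs x hne
    exact hx ⟨h1.1.le, h1.2⟩
  have hf1 : ContDiff ℝ 1 f := hf.of_le one_le_two
  have hd1 : ContDiff ℝ 1 (deriv f) := by
    have h1 : ContDiff ℝ (1 + 1) f := by
      rw [one_add_one_eq_two]
      exact hf
    exact (contDiff_succ_iff_deriv.1 h1).2.2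
  have hsd := ps_deriv_supp hf1 hs
  set a : ℤ → ℝ := fun n => ‖𝓕 f (n : ℝ)‖ with ha
  have ha0 : ∀ n, 0 ≤ a n := fun n => norm_nonneg _
  obtain ⟨hp1, hp2⟩ := parseval hf1 hs
  obtain ⟨hq1, hq2⟩ := parseval hd1 hsd
  have hle : ∀ n : ℤ, (n : ℝ) ^ 2 * a n ^ 2 ≤ ‖𝓕 (deriv f) (n : ℝ)‖ ^ 2 := fun n => ps_fderiv hf1 hcomp n
  have hsum1 : Summable fun n : ℤ => a n ^ 2 := hp1
  have hsum2 : Summable fun n : ℤ => (n : ℝ) ^ 2 * a n ^ 2 :=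
    Summable.of_nonneg_of_le (fun n => by positivity) hle hq1
  have hsum : Summable fun n : ℤ => (1 + (n : ℝ) ^ 2 / K ^ 2) * a n ^ 2 := by
    refine (hsum1.add (hsum2.mul_left (1 / K ^ 2))).congr fun n => ?_
    ring
  have hS : ∑' n : ℤ, (1 + (n : ℝ) ^ 2 / K ^ 2) * a n ^ 2 ≤ QQ L f + QQ L (deriv f) / K ^ 2 := by
    have e : ∑' n : ℤ, (1 + (n : ℝ) ^ 2 / K ^ 2) * a n ^ 2 =
        ∑' n : ℤ, a n ^ 2 + (1 / K ^ 2) * ∑' n : ℤ, (n : ℝ) ^ 2 * a n ^ 2 := by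
      rw [← tsum_mul_left, ← hsum1.tsum_add (hsum2.mul_left _)]
      refine tsum_congr fun n => ?_
      ring
    rw [e]
    have h1 : ∑' n : ℤ, (n : ℝ) ^ 2 * a n ^ 2 ≤ QQ L (deriv f) := (hsum2.tsum_le_tsum hle hq1).trans hq2
    have h2 : (1 / K ^ 2) * ∑' n : ℤ, (n : ℝ) ^ 2 * a n ^ 2 ≤ QQ L (deriv f) / K ^ 2 := by
      rw [one_div, div_eq_inv_mul]
      exact mul_le_mul_of_nonneg_left h1 (by positivity)
    have h3 : ∑' n : ℤ, a n ^ 2 ≤ QQ L f := hp2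
    linarith
  obtain ⟨hd, hdle⟩ := hcs K hK a ha0 hsum
  obtain ⟨hr, hrle⟩ := rearr H hH a ha0 hd
  set D := ∑' n : ℤ, ((Nat.divisors n.natAbs).card : ℝ) * a n with hD
  set I := ‖∫ y : ℝ, f y‖ with hI
  have hI0 : 0 ≤ I := norm_nonneg _
  have hD0 : 0 ≤ D := tsum_nonneg fun n => mul_nonneg (Nat.cast_nonneg _) (ha0 n)
  have hin : ∀ h ∈ Finset.Ico H (2 * H), ‖c h * ∑ n ∈ Finset.Icc 1 M, f ((n : ℝ) / h)‖ ≤
      (2 * H) * (I + ∑' m : ℤ, if m = 0 then 0 else a (m * h)) := by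
    intro h hh
    have hh' := Finset.mem_Ico.1 hh
    rw [norm_mul]
    have h1 := ps_inner (M := M) (H := H) hf hcomp hs (hH.trans hh'.1) hh'.2.le (hM h hh) (hr h hh)
    calc ‖c h‖ * ‖∑ n ∈ Finset.Icc 1 M, f ((n : ℝ) / h)‖ ≤ 1 * ‖∑ n ∈ Finset.Icc 1 M, f ((n : ℝ) / h)‖ :=
          mul_le_mul_of_nonneg_right (hc h) (norm_nonneg _)
      _ = ‖∑ n ∈ Finset.Icc 1 M, f ((n : ℝ) / h)‖ := one_mul _
      _ ≤ _ := h1
  have htot : ‖∑ h ∈ Finset.Ico H (2 * H), c h * ∑ n ∈ Finset.Icc 1 M, f ((n : ℝ) / h)‖ ≤ (2 * H) * (H * I + D) := by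
    refine (norm_sum_le _ _).trans ((Finset.sum_le_sum hin).trans ?_)
    rw [← Finset.mul_sum, Finset.sum_add_distrib, Finset.sum_const, Nat.card_Ico, nsmul_eq_mul]
    have h2 : ((2 * H - H : ℕ) : ℝ) = H := by
      congr 1
      omega
    rw [h2]
    refine mul_le_mul_of_nonneg_left ?_ (by positivity)
    linarith
  have hsq : ‖∑ h ∈ Finset.Ico H (2 * H), c h * ∑ n ∈ Finset.Icc 1 M, f ((n : ℝ) / h)‖ ^ 2 ≤
      ((2 * H) * (H * I + D)) ^ 2 := pow_le_pow_left₀ (norm_nonneg _) htot 2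
  set S := QQ L f + QQ L (deriv f) / K ^ 2 with hSdef
  have hD2 : D ^ 2 ≤ C0 * K ^ (1 + ε) * S :=
    hdle.trans (mul_le_mul_of_nonneg_left hS (mul_nonneg hC0 (Real.rpow_nonneg hK0.le _)))
  have hKe : K ^ (1 + ε) = K * K ^ ε := by
    rw [Real.rpow_add hK0, Real.rpow_one]
  have hKe1 : 1 ≤ K ^ ε := Real.one_le_rpow hK hε.le
  have hS0 : 0 ≤ S := (tsum_nonneg fun n => by positivity).trans hS
  rw [hKe] at hD2
  have h3 : ((2 * (H : ℝ)) * (H * I + D)) ^ 2 ≤ 8 * (H : ℝ) ^ 2 * ((H : ℝ) ^ 2 * I ^ 2 + D ^ 2) := by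
    nlinarith [sq_nonneg ((H : ℝ) * ((H : ℝ) * I - D))]
  have h4 : (H : ℝ) ^ 2 * I ^ 2 + D ^ 2 ≤ (1 + C0) * K ^ ε * ((H : ℝ) ^ 2 * I ^ 2 + K * S) := by
    have h5 : 0 ≤ (H : ℝ) ^ 2 * I ^ 2 := by positivity
    have h6 : 0 ≤ K * S := by positivity
    have h7 : (H : ℝ) ^ 2 * I ^ 2 ≤ K ^ ε * ((H : ℝ) ^ 2 * I ^ 2) := le_mul_of_one_le_left h5 hKe1
    have h8 : 0 ≤ C0 * (K ^ ε * ((H : ℝ) ^ 2 * I ^ 2)) := by positivity
    have h9 : 0 ≤ K ^ ε * (K * S) := by positivity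
    nlinarith
  calc _ ≤ ((2 * (H : ℝ)) * (H * I + D)) ^ 2 := hsq
    _ ≤ 8 * (H : ℝ) ^ 2 * ((H : ℝ) ^ 2 * I ^ 2 + D ^ 2) := h3
    _ ≤ 8 * (H : ℝ) ^ 2 * ((1 + C0) * K ^ ε * ((H : ℝ) ^ 2 * I ^ 2 + K * S)) :=
        mul_le_mul_of_nonneg_left h4 (by positivity)
    _ = _ := by ring

end Pool.Agent.Lib.TW
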