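import Pool.Agent.Lib.TW.Km

/-!
# TW / Qf: the quadratic forms of `f` and of its derivative
-/

set_option autoImplicit false

open MeasureTheory

namespace Pool.Agent.Lib.TW

private theorem SS_nonneg' {Y T u : ℝ} (hY : 0 < Y) (hT : 0 < T) : 0 ≤ SS Y T u := by
  unfold SS
  have h1 : 0 ≤ Real.log (2 + Y) := Real.log_nonneg (by linarith)
  have h2 : 0 ≤ |u| := abs_nonneg u
  positivity

private theorem meas_ch (t : ℝ) : Measurable (fun y : ℝ => ch (1 + 1 / y) t) := by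
  unfold ch
  fun_prop

private theorem integrable_term {b b' : ℝ → ℂ} (hb : Continuous b) (hb' : Continuous b') {B R : ℝ} (hB : ∀ y, ‖b y‖ ≤ B)
    (hs : ∀ y, b' y ≠ 0 → -R ≤ y ∧ y ≤ R) (t t' k : ℝ) :
    Integrable (fun y : ℝ => (b (y + k) * ch (1 + 1 / (y + k)) (-t)) * (starRingEnd ℂ) (b' y * ch (1 + 1 / y) (-t'))) := by
  have h1 : Integrable b' := by
    refine hb'.integrable_of_hasCompactSupport (HasCompactSupport.intro (isCompact_Icc (a := -R) (b := R)) fun y hy => ?_)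
    by_contra h
    exact hy (hs y h)
  refine (h1.norm.const_mul B).mono' ?_ (Filter.Eventually.of_forall fun y => ?_)
  · refine Measurable.aestronglyMeasurable ?_
    refine Measurable.mul ?_ ?_
    · exact (hb.measurable.comp (measurable_add_const k)).mul ((meas_ch (-t)).comp (measurable_add_const k))
    · exact Complex.continuous_conj.measurable.comp (hb'.measurable.mul (meas_ch (-t')))
  · rw [norm_mul, norm_mul, norm_ch, mul_one, RCLike.norm_conj, norm_mul, norm_ch, mul_one]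
    exact mul_le_mul_of_nonneg_right (hB _) (norm_nonneg _)

private theorem qq_gen {C0 : ℝ} (h0 : ∀ Y : ℝ, 1 / 4 ≤ Y → ∀ (B B' : ℝ) (b b' : ℝ → ℂ), Am1 Y B b → Am1 Y B' b' →
      ∀ T : ℝ, 1 ≤ T → ∀ t t' : ℝ, T / 2 ≤ t → t ≤ 2 * T → T / 2 ≤ t' → t' ≤ 2 * T → ∀ L : ℕ,
      ∑ k ∈ Finset.Icc (-(L : ℤ)) L, ‖KK b b' t t' k‖ ≤ C0 * B * B' * SS Y T (t - t'))
    {Y : ℝ} (hY : 1 / 4 ≤ Y) {T : ℝ} (hT : 1 ≤ T) (B : ℝ) (J : Finset ℕ) (c : ℕ → ℂ) (τ : ℕ → ℝ) (b : ℕ → ℝ → ℂ)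
    (hb : ∀ j ∈ J, Am1 Y B (b j)) (hc : ∀ j, ‖c j‖ ≤ 1) (hτ : ∀ j ∈ J, T / 2 ≤ τ j ∧ τ j ≤ 2 * T) (L : ℕ) :
    QQ L (fun y => ∑ j ∈ J, c j * (b j y * ch (1 + 1 / y) (-(τ j)))) ≤
      C0 * B ^ 2 * ∑ j ∈ J, ∑ l ∈ J, SS Y T (τ j - τ l) := by
  unfold QQ
  have key : ∀ k : ℤ, ‖∫ y : ℝ, (∑ j ∈ J, c j * (b j (y + k) * ch (1 + 1 / (y + k)) (-(τ j)))) *
      (starRingEnd ℂ) (∑ j ∈ J, c j * (b j y * ch (1 + 1 / y) (-(τ j))))‖ ≤
      ∑ j ∈ J, ∑ l ∈ J, ‖KK (b j) (b l) (τ j) (τ l) k‖ := by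
    intro k
    have e : ∀ y : ℝ, (∑ j ∈ J, c j * (b j (y + k) * ch (1 + 1 / (y + k)) (-(τ j)))) *
        (starRingEnd ℂ) (∑ j ∈ J, c j * (b j y * ch (1 + 1 / y) (-(τ j)))) =
        ∑ j ∈ J, ∑ l ∈ J, (c j * (starRingEnd ℂ) (c l)) *
          ((b j (y + k) * ch (1 + 1 / (y + k)) (-(τ j))) * (starRingEnd ℂ) (b l y * ch (1 + 1 / y) (-(τ l)))) := by
      intro y
      rw [map_sum, Finset.sum_mul_sum]
      refine Finset.sum_congr rfl fun j _ => Finset.sum_congr rfl fun l _ => ?_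
      rw [map_mul (starRingEnd ℂ) (c l)]
      ring
    have hint : ∀ j ∈ J, ∀ l ∈ J, Integrable (fun y : ℝ =>
        (b j (y + k) * ch (1 + 1 / (y + k)) (-(τ j))) * (starRingEnd ℂ) (b l y * ch (1 + 1 / y) (-(τ l)))) := by
      intro j hj l hl
      refine integrable_term (hb j hj).1.continuous (hb l hl).1.continuous (R := 8 * Y) (hb j hj).2.2.1 (fun y hy => ?_) _ _ _
      have := (hb l hl).2.1 y hy
      exact ⟨by linarith [this.1], this.2⟩
    rw [integral_congr_ae (Filter.Eventually.of_forall e), integral_finsetSum _ fun j hj =>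
      integrable_finsetSum _ fun l hl => (hint j hj l hl).const_mul _]
    refine (norm_sum_le _ _).trans (Finset.sum_le_sum fun j hj => ?_)
    rw [integral_finsetSum _ fun l hl => (hint j hj l hl).const_mul _]
    refine (norm_sum_le _ _).trans (Finset.sum_le_sum fun l hl => ?_)
    rw [integral_const_mul, norm_mul, norm_mul, RCLike.norm_conj]
    have h3 : ‖c j‖ * ‖c l‖ ≤ 1 := mul_le_one₀ (hc j) (norm_nonneg _) (hc l)
    calc ‖c j‖ * ‖c l‖ * _ ≤ 1 * _ := mul_le_mul_of_nonneg_right h3 (norm_nonneg _)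
      _ = ‖KK (b j) (b l) (τ j) (τ l) k‖ := by rw [one_mul]; rfl
  refine (Finset.sum_le_sum fun k _ => key k).trans ?_
  rw [Finset.sum_comm, Finset.mul_sum]
  refine Finset.sum_le_sum fun j hj => ?_
  rw [Finset.sum_comm, Finset.mul_sum]
  refine Finset.sum_le_sum fun l hl => ?_
  have h4 := h0 Y hY B B (b j) (b l) (hb j hj) (hb l hl) T hT (τ j) (τ l) (hτ j hj).1 (hτ j hj).2 (hτ l hl).1 (hτ l hl).2 L
  refine h4.trans (le_of_eq ?_)
  ring

private theorem zero_near {Y : ℝ} {b : ℝ → ℂ} (hs : ∀ y, b y ≠ 0 → Y / 8 ≤ y ∧ y ≤ 8 * Y) {y : ℝ}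
    (hy : ¬ (Y / 8 ≤ y ∧ y ≤ 8 * Y)) : b =ᶠ[nhds y] fun _ => 0 := by
  have h1 : (Set.Icc (Y / 8) (8 * Y))ᶜ ∈ nhds y := isClosed_Icc.isOpen_compl.mem_nhds hy
  filter_upwards [h1] with z hz
  by_contra h
  exact hz (hs z h)

private theorem hasDeriv_ch {y : ℝ} (hy : 0 < y) (t : ℝ) :
    HasDerivAt (fun y : ℝ => ch (1 + 1 / y) (-t)) (Complex.I * t * ((((y * (y + 1))⁻¹ : ℝ)) : ℂ) * ch (1 + 1 / y) (-t)) y := by
  have h1 : HasDerivAt (fun y : ℝ => 1 + 1 / y) (-(y ^ 2)⁻¹) y := by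
    have := (hasDerivAt_inv hy.ne').const_add 1
    simpa [one_div] using this
  have hp : 0 < 1 + 1 / y := by positivity
  have h2 : HasDerivAt (fun y : ℝ => -t * Real.log (1 + 1 / y)) (t * (y * (y + 1))⁻¹) y := by
    have h3 := (h1.log hp.ne').const_mul (-t)
    have e : t * (y * (y + 1))⁻¹ = -t * (-(y ^ 2)⁻¹ / (1 + 1 / y)) := by
      have h5 : y ≠ 0 := hy.ne'
      have h6 : y + 1 ≠ 0 := by positivity
      have h7 : 1 + 1 / y = (y + 1) / y := by field_simp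
      rw [h7]
      field_simp
    rw [e]
    exact h3
  have h4 := (h2.ofReal_comp.mul_const Complex.I).cexp
  unfold ch
  convert h4 using 1
  push_cast
  ring

private theorem hasDeriv_g {y : ℝ} (hy : 0 < y) :
    HasDerivAt (fun y : ℝ => (y * (y + 1))⁻¹) (-(2 * y + 1) / (y * (y + 1)) ^ 2) y := by
  have h1 : HasDerivAt (fun y : ℝ => y * (y + 1)) (2 * y + 1) y := by
    have h2 := (hasDerivAt_id' y).mul ((hasDerivAt_id' y).add_const 1)
    refine h2.congr_deriv ?_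
    ring
  exact h1.inv (by positivity)

/-- the amplitude of the derivative -/
private noncomputable def bj (b : ℝ → ℂ) (t : ℝ) (y : ℝ) : ℂ :=
  deriv b y + Complex.I * t * (((((y * (y + 1))⁻¹ : ℝ)) : ℂ) * b y)

private theorem bj_zero {Y : ℝ} {b : ℝ → ℂ} (hs : ∀ y, b y ≠ 0 → Y / 8 ≤ y ∧ y ≤ 8 * Y) {y t : ℝ}
    (hy : ¬ (Y / 8 ≤ y ∧ y ≤ 8 * Y)) : bj b t y = 0 := by
  have h1 := zero_near hs hy
  unfold bj
  rw [h1.deriv_eq, deriv_const, h1.eq_of_nhds]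
  simp

private theorem hasDeriv_bj {b : ℝ → ℂ} (hb : ContDiff ℝ 2 b) {y : ℝ} (hy : 0 < y) (t : ℝ) :
    HasDerivAt (bj b t) (deriv (deriv b) y + Complex.I * t * ((((-(2 * y + 1) / (y * (y + 1)) ^ 2 : ℝ)) : ℂ) * b y +
      ((((y * (y + 1))⁻¹ : ℝ)) : ℂ) * deriv b y)) y := by
  have hb' : ContDiff ℝ (1 + 1) b := by
    have : ((1 : WithTop ℕ∞) + 1) = 2 := by norm_num
    rw [this]; exact hb
  have h1 := contDiff_succ_iff_deriv.1 hb'
  have h2 : HasDerivAt (deriv b) (deriv (deriv b) y) y := (h1.2.2.differentiable (by norm_num) y).hasDerivAt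
  have h3 : HasDerivAt b (deriv b y) y := (h1.1 y).hasDerivAt
  exact h2.add (((hasDeriv_g hy).ofReal_comp.mul h3).const_mul (Complex.I * t))

private theorem am_bj {Y B : ℝ} {b : ℝ → ℂ} (hY : 1 / 4 ≤ Y) (hb : Am2 Y B b) {T t : ℝ} (hT : 1 ≤ T) (ht : |t| ≤ 2 * T) :
    Am1 Y (2180 * (B * (1 + T / Y ^ 2))) (bj b t) := by
  obtain ⟨h2, hs, hB0, hB1, hB2⟩ := hb
  have hY0 : 0 < Y := by linarith
  have hB : 0 ≤ B := (norm_nonneg _).trans (hB0 0)
  have hb' : ContDiff ℝ (1 + 1) b := by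
    have : ((1 : WithTop ℕ∞) + 1) = 2 := by norm_num
    rw [this]; exact h2
  have h1 := contDiff_succ_iff_deriv.1 hb'
  have hTY : 0 ≤ T / Y ^ 2 := by positivity
  have hK : 1 ≤ 1 + T / Y ^ 2 := by linarith
  have hg : ∀ y, Y / 8 ≤ y → (y * (y + 1))⁻¹ ≤ 64 / Y ^ 2 := by
    intro y hy
    have hy0 : 0 < y := by linarith
    rw [inv_le_comm₀ (by positivity) (by positivity), inv_div]
    nlinarith
  have hg' : ∀ y, Y / 8 ≤ y → (2 * y + 1) / (y * (y + 1)) ^ 2 ≤ 1024 / Y ^ 3 := by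
    intro y hy
    have hy0 : 0 < y := by linarith
    have e1 : (Y / 8) ^ 3 ≤ y ^ 3 := pow_le_pow_left₀ (by positivity) hy 3
    calc (2 * y + 1) / (y * (y + 1)) ^ 2 ≤ 2 / y ^ 3 := by
          rw [div_le_div_iff₀ (by positivity) (by positivity)]
          have : (2 * (y * (y + 1)) ^ 2) - (2 * y + 1) * y ^ 3 = y ^ 2 * (3 * y + 2) := by ring
          have h5 : 0 ≤ y ^ 2 * (3 * y + 2) := by positivity
          linarith
      _ ≤ 1024 / Y ^ 3 := by
          rw [div_le_div_iff₀ (by positivity) (by positivity)]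
          have : (Y / 8) ^ 3 = Y ^ 3 / 512 := by ring
          rw [this] at e1
          linarith
  have hT0 : 0 ≤ 2 * T := by linarith
  have hIt : ‖Complex.I * (t : ℂ)‖ ≤ 2 * T := by
    rw [norm_mul, Complex.norm_I, one_mul, Complex.norm_real]
    exact ht
  refine ⟨?_, fun y hy => ?_, fun y => ?_, fun y => ?_⟩
  · rw [contDiff_iff_contDiffAt]
    intro y
    by_cases hy : Y / 8 ≤ y ∧ y ≤ 8 * Y
    · have hy0 : 0 < y := by linarith [hy.1]
      have h3 : ContDiffAt ℝ 1 (fun y : ℝ => (((y * (y + 1))⁻¹ : ℝ) : ℂ)) y := by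
        have h4 : ContDiffAt ℝ 1 (fun y : ℝ => (y * (y + 1))⁻¹) y :=
          (contDiffAt_id.mul (contDiffAt_id.add contDiffAt_const)).inv (by simp only [id]; positivity)
        exact Complex.ofRealCLM.contDiff.contDiffAt.comp y h4
      exact h1.2.2.contDiffAt.add (contDiffAt_const.mul (h3.mul (h2.of_le (by norm_num)).contDiffAt))
    · have h3 : bj b t =ᶠ[nhds y] fun _ => 0 := by
        have h4 : (Set.Icc (Y / 8) (8 * Y))ᶜ ∈ nhds y := isClosed_Icc.isOpen_compl.mem_nhds hy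
        filter_upwards [h4] with z hz
        exact bj_zero hs hz
      exact contDiffAt_const.congr_of_eventuallyEq h3
  · by_contra h
    exact hy (bj_zero hs h)
  · by_cases hy : Y / 8 ≤ y ∧ y ≤ 8 * Y
    · have hy0 : 0 < y := by linarith [hy.1]
      unfold bj
      have e1 : B / Y ≤ 4 * B := by
        rw [div_le_iff₀ hY0]
        nlinarith
      have e2 : ‖Complex.I * (t : ℂ) * (((((y * (y + 1))⁻¹ : ℝ)) : ℂ) * b y)‖ ≤ 2 * T * (64 / Y ^ 2 * B) := by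
        rw [norm_mul, norm_mul (((((y * (y + 1))⁻¹ : ℝ)) : ℂ)), Complex.norm_real, Real.norm_of_nonneg (by positivity)]
        exact mul_le_mul hIt (mul_le_mul (hg y hy.1) (hB0 y) (norm_nonneg _) (by positivity)) (by positivity) hT0
      have e3 : 2 * T * (64 / Y ^ 2 * B) = 128 * (B * (T / Y ^ 2)) := by ring
      have e4 : 0 ≤ B * (T / Y ^ 2) := by positivity
      refine (norm_add_le _ _).trans ?_
      have := hB1 y
      nlinarith
    · rw [bj_zero hs hy, norm_zero]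
      positivity
  · by_cases hy : Y / 8 ≤ y ∧ y ≤ 8 * Y
    · have hy0 : 0 < y := by linarith [hy.1]
      rw [(hasDeriv_bj h2 hy0 t).deriv]
      have f1 : B / Y ^ 2 ≤ 4 * (B / Y) := by
        have : B / Y ^ 2 = B / Y * (1 / Y) := by ring
        rw [this]
        have h5 : 1 / Y ≤ 4 := by
          rw [div_le_iff₀ hY0]; linarith
        have h6 : 0 ≤ B / Y := by positivity
        nlinarith
      have f2 : ‖((((-(2 * y + 1) / (y * (y + 1)) ^ 2 : ℝ)) : ℂ) * b y + ((((y * (y + 1))⁻¹ : ℝ)) : ℂ) * deriv b y)‖ ≤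
          1024 / Y ^ 3 * B + 64 / Y ^ 2 * (B / Y) := by
        refine (norm_add_le _ _).trans (add_le_add ?_ ?_)
        · rw [norm_mul, Complex.norm_real, neg_div, norm_neg, Real.norm_of_nonneg (by positivity)]
          exact mul_le_mul (hg' y hy.1) (hB0 y) (norm_nonneg _) (by positivity)
        · rw [norm_mul, Complex.norm_real, Real.norm_of_nonneg (by positivity)]
          exact mul_le_mul (hg y hy.1) (hB1 y) (norm_nonneg _) (by positivity)
      have f3 : ‖Complex.I * (t : ℂ) * ((((-(2 * y + 1) / (y * (y + 1)) ^ 2 : ℝ)) : ℂ) * b y +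
          ((((y * (y + 1))⁻¹ : ℝ)) : ℂ) * deriv b y)‖ ≤ 2 * T * (1024 / Y ^ 3 * B + 64 / Y ^ 2 * (B / Y)) := by
        rw [norm_mul]
        exact mul_le_mul hIt f2 (norm_nonneg _) hT0
      have f4 : 2 * T * (1024 / Y ^ 3 * B + 64 / Y ^ 2 * (B / Y)) = 2176 * (B / Y * (T / Y ^ 2)) := by
        field_simp
        ring
      have f5 : 2180 * (B * (1 + T / Y ^ 2)) / Y = 2180 * (B / Y) + 2180 * (B / Y * (T / Y ^ 2)) := by ring
      have f6 : 0 ≤ B / Y * (T / Y ^ 2) := by positivity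
      have f7 : 0 ≤ B / Y := by positivity
      refine (norm_add_le _ _).trans ?_
      rw [f5]
      have := hB2 y
      linarith
    · have h3 : bj b t =ᶠ[nhds y] fun _ => 0 := by
        have h4 : (Set.Icc (Y / 8) (8 * Y))ᶜ ∈ nhds y := isClosed_Icc.isOpen_compl.mem_nhds hy
        filter_upwards [h4] with z hz
        exact bj_zero hs hz
      rw [h3.deriv_eq, deriv_const, norm_zero]
      positivity

private theorem deriv_eq {Y B : ℝ} {b : ℝ → ℂ} (hY : 0 < Y) (hb : Am2 Y B b) (J : Finset ℕ) (c : ℕ → ℂ) (τ : ℕ → ℝ) :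
    deriv (fun y => b y * PP J c τ y) = fun y => ∑ j ∈ J, c j * (bj b (τ j) y * ch (1 + 1 / y) (-(τ j))) := by
  obtain ⟨h2, hs, -⟩ := hb
  funext y
  by_cases hy : Y / 8 ≤ y ∧ y ≤ 8 * Y
  · have hy0 : 0 < y := by linarith [hy.1]
    have h3 : HasDerivAt b (deriv b y) y := ((h2.differentiable (by norm_num)) y).hasDerivAt
    have h4 : HasDerivAt (PP J c τ) (∑ j ∈ J, c j * (Complex.I * (τ j) * ((((y * (y + 1))⁻¹ : ℝ)) : ℂ) *
        ch (1 + 1 / y) (-(τ j)))) y := by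
      unfold PP
      exact HasDerivAt.fun_sum fun j _ => (hasDeriv_ch hy0 (τ j)).const_mul (c j)
    have h5 := (h3.mul h4).deriv
    have h6 : deriv (fun y => b y * PP J c τ y) y = _ := h5
    rw [h6]
    unfold PP bj
    rw [Finset.mul_sum, Finset.mul_sum, ← Finset.sum_add_distrib]
    refine Finset.sum_congr rfl fun j _ => ?_
    ring
  · have h3 : (fun y => b y * PP J c τ y) =ᶠ[nhds y] fun _ => 0 := by
      filter_upwards [zero_near hs hy] with z hz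
      rw [hz, zero_mul]
    rw [h3.deriv_eq, deriv_const]
    symm
    refine Finset.sum_eq_zero fun j _ => ?_
    rw [bj_zero hs hy]
    ring

/-- PROOF. `f(y) = sum_j c_j b(y) ch(1+1/y)(-τ_j)`, so `∫ f(y+k) conj f(y) = sum_(j,l) c_j conj c_l KK b b τ_j τ_l k` and `kk_sum`.
`f'(y) = sum_j c_j b_j(y) ch(1+1/y)(-τ_j)`, `b_j = b' + iτ_j b/(y(y+1))` (zero where `b` is), and `b_j` is in `Am1 Y (C B K)`:
`1/Y ≤ 4K`, `|τ_j| /(y(y+1)) ≤ 2T·64/Y²`, and the derivative `b'' + iτ_j (b'/(y(y+1)) - b (2y+1)/(y(y+1))²)` is `≤ C B K/Y`. -/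
theorem qq_f : ∃ C : ℝ, 0 ≤ C ∧ ∀ Y : ℝ, 1 / 4 ≤ Y → ∀ (B : ℝ) (b : ℝ → ℂ), Am2 Y B b → ∀ T : ℝ, 1 ≤ T →
    ∀ (J : Finset ℕ) (c : ℕ → ℂ) (τ : ℕ → ℝ), (∀ j, ‖c j‖ ≤ 1) → (∀ j ∈ J, T / 2 ≤ τ j ∧ τ j ≤ 2 * T) → ∀ L : ℕ,
    QQ L (fun y => b y * PP J c τ y) ≤ C * B ^ 2 * ∑ j ∈ J, ∑ l ∈ J, SS Y T (τ j - τ l) ∧
    QQ L (deriv fun y => b y * PP J c τ y) / (1 + T / Y ^ 2) ^ 2 ≤
      C * B ^ 2 * ∑ j ∈ J, ∑ l ∈ J, SS Y T (τ j - τ l) := by
  obtain ⟨C0, hC0, h0⟩ := kk_sum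
  refine ⟨C0 * 2180 ^ 2, by positivity, fun Y hY B b hb T hT J c τ hc hτ L => ?_⟩
  have hY0 : 0 < Y := by linarith
  have hT0 : 0 < T := by linarith
  have hSS : 0 ≤ ∑ j ∈ J, ∑ l ∈ J, SS Y T (τ j - τ l) :=
    Finset.sum_nonneg fun j _ => Finset.sum_nonneg fun l _ => SS_nonneg' hY0 hT0
  constructor
  · have e1 : (fun y => b y * PP J c τ y) = fun y => ∑ j ∈ J, c j * (b y * ch (1 + 1 / y) (-(τ j))) := by
      funext y
      unfold PP
      rw [Finset.mul_sum]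
      refine Finset.sum_congr rfl fun j _ => ?_
      ring
    rw [e1]
    have h1 : Am1 Y B b := ⟨hb.1.of_le (by norm_num), hb.2.1, hb.2.2.1, hb.2.2.2.1⟩
    refine (qq_gen h0 hY hT B J c τ (fun _ => b) (fun _ _ => h1) hc hτ L).trans ?_
    have h3 : C0 * B ^ 2 ≤ C0 * 2180 ^ 2 * B ^ 2 := by
      have : 0 ≤ C0 * B ^ 2 := by positivity
      nlinarith
    exact mul_le_mul_of_nonneg_right h3 hSS
  · rw [deriv_eq hY0 hb]
    have h1 : ∀ j ∈ J, Am1 Y (2180 * (B * (1 + T / Y ^ 2))) (bj b (τ j)) := fun j hj =>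
      am_bj hY hb hT (by rw [abs_of_nonneg (by linarith [(hτ j hj).1])]; exact (hτ j hj).2)
    have h2 := qq_gen h0 hY hT _ J c τ (fun j => bj b (τ j)) h1 hc hτ L
    rw [div_le_iff₀ (by positivity)]
    refine h2.trans (le_of_eq ?_)
    ring

end Pool.Agent.Lib.TW
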