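import Pool.Agent.Lib.TW.Mel
import Pool.Agent.Lib.TW.Ab
import Pool.Agent.Lib.TW.Ps
import Pool.Agent.Lib.TW.Qf
import Pool.Agent.Lib.TW.Ds

/-!
# TW / Dy: the dyadic estimate
-/

set_option autoImplicit false

open MeasureTheory

namespace Pool.Agent.Lib.TW

private theorem dy_unit (z : ℂ) : ∃ c : ℂ, ‖c‖ ≤ 1 ∧ c * z = ((‖z‖ : ℝ) : ℂ) := by
  by_cases hz : z = 0
  · exact ⟨0, by simp, by simp [hz]⟩
  · have h0 : ‖z‖ ≠ 0 := norm_ne_zero_iff.2 hz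
    have h1 : ((‖z‖ : ℝ) : ℂ) ≠ 0 := by exact_mod_cast h0
    refine ⟨(starRingEnd ℂ) z / ((‖z‖ : ℝ) : ℂ), ?_, ?_⟩
    · rw [norm_div, RCLike.norm_conj, Complex.norm_real, norm_norm, div_self h0]
    · rw [div_mul_eq_mul_div, div_eq_iff h1, mul_comm, Complex.mul_conj, Complex.normSq_eq_norm_sq]
      push_cast
      ring

private theorem dy_ch (t : ℝ) {y : ℝ} (hy : 0 < y) : ContDiffAt ℝ 2 (fun y : ℝ => ch (1 + 1 / y) (-t)) y := by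
  unfold ch
  have h1 : ContDiffAt ℝ 2 (fun y : ℝ => 1 + 1 / y) y := contDiffAt_const.add (contDiffAt_const.div contDiffAt_id hy.ne')
  have h2 : (1 + 1 / y) ≠ 0 := by positivity
  have h3 : ContDiffAt ℝ 2 (fun y : ℝ => Real.log (1 + 1 / y)) y := h1.log h2
  have h4 : ContDiffAt ℝ 2 (fun y : ℝ => (((-t * Real.log (1 + 1 / y) : ℝ)) : ℂ)) y :=
    Complex.ofRealCLM.contDiff.contDiffAt.comp y (contDiffAt_const.mul h3)
  exact (h4.mul contDiffAt_const).cexp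

private theorem dy_smooth {Y B : ℝ} (hY : 0 < Y) {b : ℝ → ℂ} (hb : Am2 Y B b) {g : ℝ → ℂ}
    (hg : ∀ y, 0 < y → ContDiffAt ℝ 2 g y) : ContDiff ℝ 2 (fun y => b y * g y) := by
  rw [contDiff_iff_contDiffAt]
  intro y
  by_cases hy : 0 < y
  · exact hb.1.contDiffAt.mul (hg y hy)
  · have h1 : (fun y => b y * g y) =ᶠ[nhds y] fun _ => 0 := by
      filter_upwards [gt_mem_nhds (show y < Y / 8 by linarith)] with z hz
      have h2 : b z = 0 := by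
        by_contra h
        linarith [(hb.2.1 z h).1]
      rw [h2, zero_mul]
    exact (contDiffAt_const (c := (0 : ℂ))).congr_of_eventuallyEq h1

private theorem dy_int {Y B : ℝ} {b : ℝ → ℂ} (hb : Am2 Y B b) {g : ℝ → ℂ}
    (hg : ContDiff ℝ 2 (fun y => b y * g y)) : Integrable (fun y => b y * g y) := by
  refine hg.continuous.integrable_of_hasCompactSupport ?_
  refine HasCompactSupport.intro (isCompact_Icc (a := Y / 8) (b := 8 * Y)) fun y hy => ?_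
  have h2 : b y = 0 := by
    by_contra h
    exact hy (Set.mem_Icc.2 (hb.2.1 y h))
  simp only [h2, zero_mul]

private theorem dy_a {n t T M : ℝ} (hn : 0 ≤ n) (h : n * t ≤ M) (ht : T / 2 ≤ t) : n * T ≤ 2 * M := by
  have h1 : n * (T / 2) ≤ n * t := mul_le_mul_of_nonneg_left ht hn
  linarith

private theorem dy_k {T Y : ℝ} (hT : 1 ≤ T) (hY : 1 / 4 ≤ Y) : 1 + T / Y ^ 2 ≤ 17 * T := by
  have h1 : T / Y ^ 2 ≤ 16 * T := by
    rw [div_le_iff₀ (by positivity)]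
    have h2 : 1 ≤ 16 * Y ^ 2 := by nlinarith
    nlinarith
  linarith

private theorem dy_alg {Cp H Ke q s Cz Cq Cs Ca W K R Z I Q : ℝ} (hCp : 0 ≤ Cp) (hCq : 0 ≤ Cq)
    (hCs : 0 ≤ Cs) (hK : 0 ≤ K) (hR : 0 ≤ R) (hZ : 0 ≤ Z) (hKe0 : 0 ≤ Ke) (hq : 1 ≤ q)
    (hKe : Ke ≤ s * q) (hI : H ^ 2 * I ≤ 4 * Cz ^ 2 * (Ca * W) ^ 2 * Z)
    (hQ : Q ≤ 2 * (Cq * (Ca * W) ^ 2 * (Cs * q * R))) :
    Cp * H ^ 2 * Ke * (H ^ 2 * I + K * Q) ≤
      Cp * s * (4 * Cz ^ 2 + 2 * Cq * Cs) * Ca ^ 2 * (q * q * H ^ 2 * (K * R + Z)) * W ^ 2 := by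
  have hq0 : 0 ≤ q := by linarith
  have g1 : H ^ 2 * I ≤ 4 * Cz ^ 2 * (Ca * W) ^ 2 * Z * q := by
    refine hI.trans ?_
    have : 0 ≤ 4 * Cz ^ 2 * (Ca * W) ^ 2 * Z := by positivity
    nlinarith
  have g2 : K * Q ≤ K * (2 * (Cq * (Ca * W) ^ 2 * (Cs * q * R))) := mul_le_mul_of_nonneg_left hQ hK
  have g4 : 0 ≤ 4 * Cz ^ 2 * (Ca * W) ^ 2 * (K * R) * q := by positivity
  have g5 : 0 ≤ 2 * Cq * Cs * (Ca * W) ^ 2 * Z * q := by positivity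
  have g3 : H ^ 2 * I + K * Q ≤ (4 * Cz ^ 2 + 2 * Cq * Cs) * (Ca * W) ^ 2 * (K * R + Z) * q := by
    have e : (4 * Cz ^ 2 + 2 * Cq * Cs) * (Ca * W) ^ 2 * (K * R + Z) * q =
      4 * Cz ^ 2 * (Ca * W) ^ 2 * Z * q + K * (2 * (Cq * (Ca * W) ^ 2 * (Cs * q * R))) +
      4 * Cz ^ 2 * (Ca * W) ^ 2 * (K * R) * q + 2 * Cq * Cs * (Ca * W) ^ 2 * Z * q := by ring
    linarith
  have g6 : 0 ≤ (4 * Cz ^ 2 + 2 * Cq * Cs) * (Ca * W) ^ 2 * (K * R + Z) * q := by positivity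
  calc Cp * H ^ 2 * Ke * (H ^ 2 * I + K * Q) ≤
      Cp * H ^ 2 * Ke * ((4 * Cz ^ 2 + 2 * Cq * Cs) * (Ca * W) ^ 2 * (K * R + Z) * q) :=
        mul_le_mul_of_nonneg_left g3 (by positivity)
    _ ≤ Cp * H ^ 2 * (s * q) * ((4 * Cz ^ 2 + 2 * Cq * Cs) * (Ca * W) ^ 2 * (K * R + Z) * q) :=
        mul_le_mul_of_nonneg_right (mul_le_mul_of_nonneg_left hKe (by positivity)) g6
    _ = _ := by ring

private theorem dy_end {C W x : ℝ} (hC : 0 ≤ C) (hW : 1 ≤ W) (hx : x ^ 2 ≤ C * W ^ 2) :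
    x ≤ Real.sqrt C * W ^ 2 := by
  have h8 : Real.sqrt C ^ 2 = C := Real.sq_sqrt hC
  refine (abs_le_of_sq_le_sq' (hx.trans ?_) (by positivity)).2
  rw [mul_pow, h8]
  refine mul_le_mul_of_nonneg_left ?_ hC
  have h9 : 1 ≤ W ^ 2 := one_le_pow₀ hW
  calc W ^ 2 = 1 * W ^ 2 := (one_mul _).symm
    _ ≤ W ^ 2 * W ^ 2 := mul_le_mul_of_nonneg_right h9 (by positivity)
    _ = (W ^ 2) ^ 2 := by ring

/-- PROOF (over the imported rows). Choose `c j` of modulus `≤ 1` with `c j ED = ‖ED‖`; `mel` with `D` from `pois` for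
`f = amp · PP` (`C²`, supported in `[Y/8, 8Y]`, `L = ⌈8Y⌉`, `M = 16N`: `n/h > 16N/(2H) = 8Y`), `K = 1 + T/Y²`, `K^ε ≤ (17 T)^ε`;
`‖∫ f‖ ≤ |J| C B Y²/T` by the third part of `kk_zero`; `qq_f` and `pair_sum`; `B = C (1+|v|)²(1+|v'|)²` enters linearly after the
square root. -/
theorem dyad (w : ℝ → ℝ) (hw : Wt w) {ε : ℝ} (hε : 0 < ε) (hε1 : ε ≤ 1 / 2) : ∃ C : ℝ, 0 ≤ C ∧ ∀ T : ℝ, 1 ≤ T →
    ∀ N G H : ℕ, 1 ≤ N → 1 ≤ G → 1 ≤ H → (N : ℝ) ≤ T → H ≤ 4 * N → ∀ T₀ : ℝ, 0 ≤ T₀ → T₀ ≤ 2 * T →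
    ∀ J : Finset ℕ, (∀ j ∈ J, T / 2 ≤ (j : ℝ) * G ∧ (j : ℝ) * G ≤ 2 * T) →
    (∀ j ∈ J, ∀ l ∈ J, |(j : ℝ) * G - (l : ℝ) * G| ≤ T₀) →
    (∑ j ∈ J, ‖ED w N G H ((j : ℝ) * G)‖) ^ 2 ≤ C * T ^ ε * (H : ℝ) ^ 2 *
      ((1 + T / ((N : ℝ) / H) ^ 2) * ((J.card : ℝ) * ((N : ℝ) / H + ((N : ℝ) / H) ^ 2 / G) +
        (J.card : ℝ) ^ 2 * (((N : ℝ) / H) ^ (5 / 2 : ℝ) * T₀ ^ (1 / 2 : ℝ) / T + ((N : ℝ) / H) ^ 3 / T)) +
        (H : ℝ) ^ 2 * (J.card : ℝ) ^ 2 * ((N : ℝ) / H) ^ 4 / T ^ 2) := by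
  classical
  have hε2 : 0 < ε / 2 := by positivity
  obtain ⟨Cm, hCm, hmel⟩ := mel w hw
  obtain ⟨Ca, hCa, hamp⟩ := amp_am2
  obtain ⟨Cp, hCp, hpois⟩ := pois hε2 (by linarith)
  obtain ⟨Cq, hCq, hqq⟩ := qq_f
  obtain ⟨Cz, hCz, hzero⟩ := kk_zero
  obtain ⟨Cs, hCs, hpair⟩ := pair_sum hε2
  -- the constant of the square of the inner sum
  set C₁ : ℝ := Cp * (17 : ℝ) ^ (ε / 2) * (4 * Cz ^ 2 + 2 * Cq * Cs) * Ca ^ 2 with hC₁
  have hC₁0 : 0 ≤ C₁ := by positivity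
  refine ⟨Cm ^ 2 * C₁, by positivity, ?_⟩
  intro T hT N G H hN hG hH hNT hHN T₀ hT₀ hT₀T J hJ hJT
  have hTp : 0 < T := by linarith
  have hN0 : (0 : ℝ) < N := by exact_mod_cast hN
  have hG0 : (0 : ℝ) < G := by exact_mod_cast hG
  have hH0 : (0 : ℝ) < H := by exact_mod_cast hH
  have hH1 : (1 : ℝ) ≤ H := by exact_mod_cast hH
  have hHN' : (H : ℝ) ≤ 4 * N := by exact_mod_cast hHN
  set Y : ℝ := (N : ℝ) / H with hYdef
  have hY4 : 1 / 4 ≤ Y := by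
    rw [hYdef, le_div_iff₀ hH0]
    linarith
  have hY0 : 0 < Y := by linarith
  have hYT : Y ≤ T := by
    refine le_trans ?_ hNT
    rw [hYdef]
    exact div_le_self hN0.le hH1
  set K : ℝ := 1 + T / Y ^ 2 with hK
  have hK1 : 1 ≤ K := by
    have : 0 ≤ T / Y ^ 2 := by positivity
    linarith
  have hK0 : 0 < K := by linarith
  have hK17 : K ≤ 17 * T := dy_k hT hY4
  set R : ℝ := (J.card : ℝ) * (Y + Y ^ 2 / G) +
      (J.card : ℝ) ^ 2 * (Y ^ (5 / 2 : ℝ) * T₀ ^ (1 / 2 : ℝ) / T + Y ^ 3 / T) with hR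
  have hR0 : 0 ≤ R := by positivity
  set Z : ℝ := (H : ℝ) ^ 2 * (J.card : ℝ) ^ 2 * Y ^ 4 / T ^ 2 with hZ
  have hZ0 : 0 ≤ Z := by positivity
  set X : ℝ := T ^ ε * (H : ℝ) ^ 2 * (K * R + Z) with hX
  have hX0 : 0 ≤ X := by positivity
  choose c hc1 hc2 using fun j : ℕ => dy_unit (ED w N G H ((j : ℝ) * G))
  have hTe : T ^ (ε / 2) * T ^ (ε / 2) = T ^ ε := by
    rw [← Real.rpow_add hTp]
    congr 1
    ring
  have hTe1 : (1 : ℝ) ≤ T ^ (ε / 2) := Real.one_le_rpow hT hε2.le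
  have hKe : K ^ (ε / 2) ≤ (17 : ℝ) ^ (ε / 2) * T ^ (ε / 2) := by
    rw [← Real.mul_rpow (by norm_num) hTp.le]
    exact Real.rpow_le_rpow hK0.le hK17 hε2.le
  -- the inner sums
  have hin : ∀ v v' : ℝ, ‖∑ h ∈ Finset.Ico H (2 * H), ch h (v + v') *
        ∑ n ∈ Finset.Icc 1 (16 * N), amp ((N : ℝ) / H) G v v' ((n : ℝ) / h) *
          PP J c (fun j => (j : ℝ) * G) ((n : ℝ) / h)‖ ≤
          Real.sqrt (C₁ * X) * ((1 + |v|) ^ 4 * (1 + |v'|) ^ 4) := by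
    intro v v'
    set b : ℝ → ℂ := amp Y G v v' with hb
    set W : ℝ := (1 + |v|) ^ 2 * (1 + |v'|) ^ 2 with hW
    have hW1 : 1 ≤ W := by
      have h1 : (1 : ℝ) ≤ (1 + |v|) ^ 2 := one_le_pow₀ (by linarith [abs_nonneg v])
      have h2 : (1 : ℝ) ≤ (1 + |v'|) ^ 2 := one_le_pow₀ (by linarith [abs_nonneg v'])
      exact one_le_mul_of_one_le_of_one_le h1 h2
    set B : ℝ := Ca * W with hB
    have hB0 : 0 ≤ B := by positivity
    have ham : Am2 Y B b := hamp Y hY4 G hG0 v v'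
    have hPP : ∀ y : ℝ, 0 < y → ContDiffAt ℝ 2 (PP J c (fun j => (j : ℝ) * G)) y := by
      intro y hy
      unfold PP
      exact ContDiffAt.sum fun j _ => contDiffAt_const.mul (dy_ch _ hy)
    have hf2 : ContDiff ℝ 2 (fun y => b y * PP J c (fun j => (j : ℝ) * G) y) := dy_smooth hY0 ham hPP
    have hsupp : ∀ y, b y * PP J c (fun j => (j : ℝ) * G) y ≠ 0 → Y / 8 ≤ y ∧ y ≤ 8 * Y := fun y hy =>
      ham.2.1 y (left_ne_zero_of_mul hy)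
    have hp := hpois K hK1 H hH ⌈8 * Y⌉₊ (fun y => b y * PP J c (fun j => (j : ℝ) * G) y) hf2
      (fun y hy => ⟨by linarith [(hsupp y hy).1], (hsupp y hy).2.trans (Nat.le_ceil _)⟩) (16 * N) ?_
      (fun h => ch h (v + v')) (fun h => (norm_ch _ _).le)
    swap
    · intro h hh n hn
      rw [Finset.mem_Ico] at hh
      have hh0 : (0 : ℝ) < h := by exact_mod_cast (lt_of_lt_of_le (by omega) hh.1 : 0 < h)
      have hh2 : (h : ℝ) < 2 * H := by exact_mod_cast hh.2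
      have hn2 : (16 : ℝ) * N < n := by exact_mod_cast hn
      by_contra h0
      have h1 := (hsupp _ h0).2
      rw [div_le_iff₀ hh0, hYdef] at h1
      have h2 : 8 * ((N : ℝ) / H) * h ≤ 8 * ((N : ℝ) / H) * (2 * H) :=
        mul_le_mul_of_nonneg_left hh2.le (by positivity)
      have h3 : 8 * ((N : ℝ) / H) * (2 * H) = 16 * N := by
        field_simp
        norm_num
      linarith
    -- the integral
    have hI : ‖∫ y : ℝ, b y * PP J c (fun j => (j : ℝ) * G) y‖ ≤ (J.card : ℝ) * (2 * Cz * B * Y ^ 2 / T) := by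
      have e1 : (fun y : ℝ => b y * PP J c (fun j => (j : ℝ) * G) y) =
          fun y => ∑ j ∈ J, c j * (b y * ch (1 + 1 / y) (-((j : ℝ) * G))) := by
        funext y
        unfold PP
        rw [Finset.mul_sum]
        exact Finset.sum_congr rfl fun j _ => by ring
      rw [e1, integral_finsetSum]
      · refine (norm_sum_le _ _).trans ?_
        rw [← nsmul_eq_mul]
        refine Finset.sum_le_card_nsmul _ _ _ fun j hj => ?_
        rw [integral_const_mul, norm_mul]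
        have hb1 : Am1 Y B b := ⟨ham.1.of_le one_le_two, ham.2.1, ham.2.2.1, ham.2.2.2.1⟩
        have ht := (hJ j hj).1
        have ht0 : 0 < (j : ℝ) * G := by linarith
        have h3 := (hzero Y hY4 B B b b hb1 hb1 ((j : ℝ) * G) 0).2.2 ht0
        have h4 : ‖∫ y : ℝ, b y * ch (1 + 1 / y) (-((j : ℝ) * G))‖ ≤ 2 * Cz * B * Y ^ 2 / T := by
          rw [le_div_iff₀ hTp]
          refine (dy_a (norm_nonneg _) h3 ht).trans_eq ?_
          ring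
        calc ‖c j‖ * ‖∫ y : ℝ, b y * ch (1 + 1 / y) (-((j : ℝ) * G))‖ ≤ 1 * (2 * Cz * B * Y ^ 2 / T) :=
              mul_le_mul (hc1 j) h4 (norm_nonneg _) zero_le_one
          _ = _ := one_mul _
      · intro j _
        exact (dy_int ham (dy_smooth hY0 ham fun y hy => dy_ch _ hy)).const_mul _
    -- the quadratic forms
    have hq := hqq Y hY4 B b ham T hT J c (fun j => (j : ℝ) * G) hc1 hJ ⌈8 * Y⌉₊
    have hs := hpair T hT Y hY4 hYT G hG T₀ hT₀ hT₀T J hJT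
    have hq1 : QQ ⌈8 * Y⌉₊ (fun y => b y * PP J c (fun j => (j : ℝ) * G) y) ≤ Cq * B ^ 2 * (Cs * T ^ (ε / 2) * R) :=
      hq.1.trans (mul_le_mul_of_nonneg_left hs (by positivity))
    have hq2 : QQ ⌈8 * Y⌉₊ (deriv fun y => b y * PP J c (fun j => (j : ℝ) * G) y) / K ^ 2 ≤
        Cq * B ^ 2 * (Cs * T ^ (ε / 2) * R) :=
      hq.2.trans (mul_le_mul_of_nonneg_left hs (by positivity))
    have hI2 : (H : ℝ) ^ 2 * ‖∫ y : ℝ, b y * PP J c (fun j => (j : ℝ) * G) y‖ ^ 2 ≤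
        4 * Cz ^ 2 * (Ca * W) ^ 2 * Z := by
      refine (mul_le_mul_of_nonneg_left (pow_le_pow_left₀ (norm_nonneg _) hI 2) (by positivity)).trans (le_of_eq ?_)
      rw [hZ, hB]
      ring
    have hQ2 : QQ ⌈8 * Y⌉₊ (fun y => b y * PP J c (fun j => (j : ℝ) * G) y) +
          QQ ⌈8 * Y⌉₊ (deriv fun y => b y * PP J c (fun j => (j : ℝ) * G) y) / K ^ 2 ≤
          2 * (Cq * (Ca * W) ^ 2 * (Cs * T ^ (ε / 2) * R)) := by
      refine (add_le_add hq1 hq2).trans_eq ?_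
      rw [hB, two_mul]
    have hsq : ‖∑ h ∈ Finset.Ico H (2 * H), ch h (v + v') *
        ∑ n ∈ Finset.Icc 1 (16 * N), b ((n : ℝ) / h) * PP J c (fun j => (j : ℝ) * G) ((n : ℝ) / h)‖ ^ 2 ≤
          C₁ * X * W ^ 2 := by
      refine hp.trans ((dy_alg hCp hCq hCs hK0.le hR0 hZ0 (Real.rpow_nonneg hK0.le _) hTe1 hKe hI2 hQ2).trans_eq ?_)
      rw [hTe]
    have hW2 : (1 + |v|) ^ 4 * (1 + |v'|) ^ 4 = W ^ 2 := by
      rw [hW]
      ring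
    rw [hW2]
    exact dy_end (by positivity) hW1 hsq
  have hfin := hmel N H hN hH G hG0 J c (fun j => (j : ℝ) * G) _ hin
  have e2 : ∑ j ∈ J, c j * ED w N G H ((j : ℝ) * G) = ((∑ j ∈ J, ‖ED w N G H ((j : ℝ) * G)‖ : ℝ) : ℂ) := by
    push_cast
    exact Finset.sum_congr rfl fun j _ => hc2 j
  rw [e2, Complex.norm_real, Real.norm_of_nonneg (Finset.sum_nonneg fun j _ => norm_nonneg _)] at hfin
  refine (pow_le_pow_left₀ (Finset.sum_nonneg fun j _ => norm_nonneg _) hfin 2).trans (le_of_eq ?_)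
  rw [mul_pow, Real.sq_sqrt (by positivity), hX]
  ring

end Pool.Agent.Lib.TW
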