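import Pool.Agent.Lib.TW.Vn

/-!
# TW / K0: the kernel, `k = 0`, and the zero frequency
-/

set_option autoImplicit false

open MeasureTheory

namespace Pool.Agent.Lib.TW

private theorem k0_aux : ∃ C : ℝ, 0 ≤ C ∧ ∀ Y : ℝ, 1 / 4 ≤ Y → ∀ (B : ℝ) (β : ℝ → ℂ), Am1 Y B β → ∀ s : ℝ,
    ‖∫ y : ℝ, β y * ch (1 + 1 / y) s‖ ≤ C * B * Y ∧ ‖∫ y : ℝ, β y * ch (1 + 1 / y) s‖ * |s| ≤ C * B * Y ^ 2 := by
  obtain ⟨C, hC, hv⟩ := vcn
  refine ⟨96 * C + 8, by positivity, ?_⟩
  rintro Y hY B β ⟨hd, hs, hb, hb'⟩ s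
  have hY0 : 0 < Y := by linarith
  have hB : 0 ≤ B := (norm_nonneg _).trans (hb 0)
  have e1 : (∫ y : ℝ, β y * ch (1 + 1 / y) s) = ∫ y in (Y / 8)..(8 * Y), β y * ch (1 + 1 / y) s := by
    rw [intervalIntegral.integral_of_le (by linarith), ← integral_Icc_eq_integral_Ioc]
    symm
    refine setIntegral_eq_integral_of_forall_compl_eq_zero fun y hy => ?_
    have h0 : β y = 0 := by
      by_contra h
      exact hy (Set.mem_Icc.2 (hs y h))
    rw [h0, zero_mul]
  rw [e1]
  have t1 : ‖∫ y in (Y / 8)..(8 * Y), β y * ch (1 + 1 / y) s‖ ≤ B * |8 * Y - Y / 8| := by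
    refine intervalIntegral.norm_integral_le_of_norm_le_const fun y _ => ?_
    rw [norm_mul, norm_ch, mul_one]
    exact hb y
  have e2 : |8 * Y - Y / 8| ≤ 8 * Y := by
    rw [abs_of_nonneg (by linarith)]
    linarith
  constructor
  · refine t1.trans ?_
    calc B * |8 * Y - Y / 8| ≤ B * (8 * Y) := mul_le_mul_of_nonneg_left e2 hB
      _ ≤ (96 * C + 8) * B * Y := by
        have : 0 ≤ 96 * C * B * Y := by positivity
        linarith
  · by_cases hs0 : s = 0
    · rw [hs0, abs_zero, mul_zero]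
      positivity
    have hsp : 0 < |s| := abs_pos.2 hs0
    have h1 := hv (Y / 8) (8 * Y) Y B (96 * Y ^ 2) |s| β (deriv β) (fun y => s * Real.log (1 + 1 / y))
      (fun y => y * (y + 1)) (fun y => 2 * y + 1) (fun _ => -s) (fun _ => 0) (by linarith) hY0 (by linarith) hsp ?_
      ((hd.continuous_deriv le_rfl).continuousOn) (by fun_prop) (by fun_prop) ?_
    · have e3 : (∫ y in (Y / 8)..(8 * Y), β y * ch (1 + 1 / y) s) =
          ∫ y in (Y / 8)..(8 * Y), β y * Complex.exp (((s * Real.log (1 + 1 / y) : ℝ) : ℂ) * Complex.I) := rfl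
      rw [e3]
      rw [le_div_iff₀ hsp] at h1
      refine h1.trans ?_
      have : 0 ≤ 8 * B * Y ^ 2 := by positivity
      calc C * B * (96 * Y ^ 2) = 96 * C * B * Y ^ 2 := by ring
        _ ≤ (96 * C + 8) * B * Y ^ 2 := by linarith
    · intro y hy
      have hy0 : 0 < y := by
        have := hy.1
        linarith
      refine ⟨((hd.differentiable one_ne_zero) y).hasDerivAt, ?_, ?_, hasDerivAt_const _ _⟩
      · have h2 : HasDerivAt (fun y : ℝ => 1 + 1 / y) (-(1 / y ^ 2)) y := by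
          have h3 := (hasDerivAt_inv hy0.ne').const_add 1
          simp only [one_div]
          exact h3
        have hpos : 1 + 1 / y ≠ 0 := by positivity
        have h3 := (h2.log hpos).const_mul s
        refine h3.congr_deriv ?_
        field_simp
      · have h2 := (hasDerivAt_id y).mul ((hasDerivAt_id y).add_const 1)
        refine h2.congr_deriv ?_
        simp
        ring
    · intro y hy
      obtain ⟨hy1, hy2⟩ := hy
      have hy0 : 0 < y := by linarith
      refine ⟨hb y, hb' y, by positivity, ?_, ?_, le_rfl, ?_⟩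
      · nlinarith
      · rw [abs_of_nonneg (by positivity), le_div_iff₀ hY0]
        nlinarith
      · rw [abs_neg]

/-- PROOF. The integrand is supported in `[Y/8, 8Y]`, `Y ≥ 1/4`.  First bound: trivial.  Second: `ch(1+1/y)(-t) conj ch(1+1/y)(-t')
= e^(iφ)`, `φ = (t'-t) log(1+1/y)`, `φ' = q/p`, `p = y(y+1) ≤ 96Y²`, `p' = 2y+1`, `q = t - t'` constant: `vcn` with `Q₀ = |t-t'|`.
Third: the same with `b' = 1`, `t' = 0`, `φ = -t log(1+1/y)`, `q = t ≥ T/2`. -/
theorem kk_zero : ∃ C : ℝ, 0 ≤ C ∧ ∀ Y : ℝ, 1 / 4 ≤ Y → ∀ (B B' : ℝ) (b b' : ℝ → ℂ), Am1 Y B b → Am1 Y B' b' → ∀ t t' : ℝ,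
    ‖KK b b' t t' 0‖ ≤ C * B * B' * Y ∧ ‖KK b b' t t' 0‖ * |t - t'| ≤ C * B * B' * Y ^ 2 ∧
    (0 < t → ‖∫ y : ℝ, b y * ch (1 + 1 / y) (-t)‖ * t ≤ C * B * Y ^ 2) := by
  obtain ⟨C, hC, h⟩ := k0_aux
  refine ⟨2 * C, by positivity, ?_⟩
  intro Y hY B B' b b' hb hb' t t'
  have hY0 : 0 < Y := by linarith
  have hB : 0 ≤ B := (norm_nonneg _).trans (hb.2.2.1 0)
  have hB' : 0 ≤ B' := (norm_nonneg _).trans (hb'.2.2.1 0)
  have hβ : Am1 Y (2 * (B * B')) (fun y => b y * (starRingEnd ℂ) (b' y)) := by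
    obtain ⟨d1, s1, n1, m1⟩ := hb
    obtain ⟨d2, s2, n2, m2⟩ := hb'
    have d3 : ContDiff ℝ 1 (fun y => (starRingEnd ℂ) (b' y)) := Complex.conjCLE.contDiff.comp d2
    have hder : ∀ y, deriv (fun y => (starRingEnd ℂ) (b' y)) y = (starRingEnd ℂ) (deriv b' y) := by
      intro y
      have h1 := ((d2.differentiable one_ne_zero) y).hasDerivAt
      exact (Complex.conjCLE.toContinuousLinearMap.hasFDerivAt.comp_hasDerivAt y h1).deriv
    refine ⟨d1.mul d3, ?_, ?_, ?_⟩
    · intro y hy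
      exact s1 y (left_ne_zero_of_mul hy)
    · intro y
      rw [norm_mul, RCLike.norm_conj]
      have := mul_le_mul (n1 y) (n2 y) (norm_nonneg _) hB
      have h0 : 0 ≤ B * B' := by positivity
      linarith
    · intro y
      have h1 : deriv (fun y => b y * (starRingEnd ℂ) (b' y)) y =
          deriv b y * (starRingEnd ℂ) (b' y) + b y * (starRingEnd ℂ) (deriv b' y) := by
        rw [← hder y]
        exact deriv_fun_mul ((d1.differentiable one_ne_zero) y) ((d3.differentiable one_ne_zero) y)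
      rw [h1]
      refine (norm_add_le _ _).trans ?_
      rw [norm_mul, norm_mul, RCLike.norm_conj, RCLike.norm_conj]
      have a1 := mul_le_mul (m1 y) (n2 y) (norm_nonneg _) (by positivity)
      have a2 := mul_le_mul (n1 y) (m2 y) (norm_nonneg _) hB
      have a3 : 2 * (B * B') / Y = B / Y * B' + B * (B' / Y) := by ring
      rw [a3]
      linarith
  have hKK : KK b b' t t' 0 = ∫ y : ℝ, (b y * (starRingEnd ℂ) (b' y)) * ch (1 + 1 / y) (t' - t) := by
    unfold KK
    refine integral_congr_ae (Filter.Eventually.of_forall fun y => ?_)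
    simp only [add_zero]
    rw [map_mul, conj_ch, neg_neg, sub_eq_add_neg, ch_add]
    ring
  obtain ⟨h1, h2⟩ := h Y hY _ _ hβ (t' - t)
  refine ⟨?_, ?_, ?_⟩
  · rw [hKK]
    refine h1.trans (le_of_eq ?_)
    ring
  · rw [hKK, abs_sub_comm t t']
    refine h2.trans (le_of_eq ?_)
    ring
  · intro ht
    have h3 := (h Y hY B b hb (-t)).2
    rw [abs_neg, abs_of_pos ht] at h3
    refine h3.trans ?_
    have : 0 ≤ C * B * Y ^ 2 := by positivity
    linarith

end Pool.Agent.Lib.TW
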