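import Pool.Agent.Lib.TW.Defs

/-!
# TW / Mel: separation of the variables
-/

set_option autoImplicit false

open MeasureTheory

namespace Pool.Agent.Lib.TW

private theorem cont_ch (x : ℝ) : Continuous (fun v : ℝ => ch x v) := by
  unfold ch
  fun_prop

private theorem ch_inv (x v : ℝ) : ch x⁻¹ v = ch x (-v) := by
  unfold ch
  rw [Real.log_inv]
  congr 1
  push_cast
  ring

private theorem int_gch {g : ℝ → ℂ} (hc : Continuous g)
    (hi : Integrable (fun v : ℝ => (1 + |v|) ^ 4 * ‖g v‖)) (x : ℝ) :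
    Integrable (fun v => g v * ch x v) := by
  refine hi.mono' (hc.mul (cont_ch x)).aestronglyMeasurable (Filter.Eventually.of_forall fun v => ?_)
  rw [norm_mul, norm_ch, mul_one]
  have h1 : (1 : ℝ) ≤ (1 + |v|) ^ 4 := one_le_pow₀ (by linarith [abs_nonneg v])
  nlinarith [norm_nonneg (g v)]

private theorem ch_split {n h N : ℕ} (hn : 1 ≤ n) (hh : 1 ≤ h) (hN : 1 ≤ N) (v v' : ℝ) :
    ch N (-(v + v')) * (ch h (v + v') * (ch ((n : ℝ) / h) v * ch (1 + (n : ℝ) / h) v')) =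
      ch ((n : ℝ) / N) v * ch (((n : ℝ) + h) / N) v' := by
  have hn0 : (0 : ℝ) < n := by exact_mod_cast hn
  have hh0 : (0 : ℝ) < h := by exact_mod_cast hh
  have hN0 : (0 : ℝ) < N := by exact_mod_cast hN
  have e1 : (n : ℝ) / N = ((n : ℝ) / h) * ((h : ℝ) * (N : ℝ)⁻¹) := by
    field_simp
  have e2 : ((n : ℝ) + h) / N = (1 + (n : ℝ) / h) * ((h : ℝ) * (N : ℝ)⁻¹) := by
    field_simp
    ring
  have hy : (0 : ℝ) < (n : ℝ) / h := by positivity
  have hx : (0 : ℝ) < (h : ℝ) * (N : ℝ)⁻¹ := by positivity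
  have hi : (0 : ℝ) < (N : ℝ)⁻¹ := by positivity
  rw [e1, e2, ch_mul hy.ne' hx.ne', ch_mul (by linarith : (1 + (n : ℝ) / h) ≠ 0) hx.ne',
    ch_mul hh0.ne' hi.ne', ch_mul hh0.ne' hi.ne', ch_inv, ch_inv,
    show -(v + v') = -v + -v' by ring, ch_add, ch_add]
  ring

private theorem rho_one {x : ℝ} (h1 : 1 / 4 ≤ x) (h2 : x ≤ 4) : rho x = 1 := by
  unfold rho
  rw [Real.smoothTransition.one_of_one_le (by linarith), Real.smoothTransition.one_of_one_le (by linarith),
    mul_one]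

/-- PROOF. `w(n/N) w((n+h)/N) = ∬ g(v) g(v') ch(n/N) v · ch((n+h)/N) v'`; with `y = n/h`: `n/N = (h/N) y`, `(n+h)/N = (h/N)(1+y)`, so the
product is `ch(h/N)(v+v') ch y v ch(1+y) v'` (`ch_mul`), and `ch(h/N)(v+v') = ch h (v+v') · ch N (-(v+v'))`, the last of modulus one and
independent of `h, n`.  Where `w(n/N) w((n+h)/N) ≠ 0` one has `N/2 < n`, `n + h < 4N`, `H ≤ h < 2H`, so `y H/N ∈ [1/4, 4]` and
`rho = 1`: the factor `rho (y/Y)`, `Y = N/H`, may be inserted; the terms `4N < n ≤ 16N` are zero.  Finite sums and the integral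
may be exchanged; `C = (∫ (1+|v|)^4 ‖g v‖)²`. -/
theorem mel (w : ℝ → ℝ) (hw : Wt w) : ∃ C : ℝ, 0 ≤ C ∧ ∀ N H : ℕ, 1 ≤ N → 1 ≤ H → ∀ G : ℝ, 0 < G →
    ∀ (J : Finset ℕ) (c : ℕ → ℂ) (τ : ℕ → ℝ) (D : ℝ),
      (∀ v v' : ℝ, ‖∑ h ∈ Finset.Ico H (2 * H), ch h (v + v') *
        ∑ n ∈ Finset.Icc 1 (16 * N), amp ((N : ℝ) / H) G v v' ((n : ℝ) / h) * PP J c τ ((n : ℝ) / h)‖ ≤
          D * ((1 + |v|) ^ 4 * (1 + |v'|) ^ 4)) →
      ‖∑ j ∈ J, c j * ED w N G H (τ j)‖ ≤ C * D := by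
  obtain ⟨-, h0, h4, g, gc, gi, gw⟩ := hw
  set I : ℝ := ∫ v : ℝ, (1 + |v|) ^ 4 * ‖g v‖ with hI
  have hI0 : 0 ≤ I := integral_nonneg fun v => by positivity
  refine ⟨I ^ 2, sq_nonneg _, fun N H hN hH G hG J c τ D hD => ?_⟩
  have hN0 : (0 : ℝ) < N := by exact_mod_cast hN
  have hH0 : (0 : ℝ) < H := by exact_mod_cast hH
  -- the coefficient of the pair
  set κ : ℕ → ℕ → ℂ := fun h n => ((rho (((n : ℝ) / h) / ((N : ℝ) / H)) * gs G (1 + 1 / ((n : ℝ) / h)) : ℝ) : ℂ) *
    PP J c τ ((n : ℝ) / h) with hκ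
  set F : ℝ → ℝ → ℂ := fun v v' => g v * g v' * ch N (-(v + v')) *
    ∑ h ∈ Finset.Ico H (2 * H), ch h (v + v') *
        ∑ n ∈ Finset.Icc 1 (16 * N), amp ((N : ℝ) / H) G v v' ((n : ℝ) / h) * PP J c τ ((n : ℝ) / h) with hF
  have hFe : ∀ v v', F v v' = ∑ h ∈ Finset.Ico H (2 * H), ∑ n ∈ Finset.Icc 1 (16 * N),
      (κ h n * (g v * ch ((n : ℝ) / N) v)) * (g v' * ch (((n : ℝ) + h) / N) v') := by
    intro v v'
    simp only [hF, Finset.mul_sum]
    refine Finset.sum_congr rfl fun h hh => Finset.sum_congr rfl fun n hn => ?_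
    rw [Finset.mem_Ico] at hh
    rw [Finset.mem_Icc] at hn
    have hn1 : 1 ≤ n := hn.1
    have hh1 : 1 ≤ h := by omega
    have hn0 : (0 : ℝ) < n := by exact_mod_cast hn1
    have hh0 : (0 : ℝ) < h := by exact_mod_cast hh1
    have hs := ch_split hn1 hh1 hN v v'
    have hy : (0 : ℝ) < (n : ℝ) / h := by positivity
    simp only [amp, if_pos hy, hκ]
    linear_combination (g v * g v' * (((rho (((n : ℝ) / h) / ((N : ℝ) / H)) * gs G (1 + 1 / ((n : ℝ) / h)) : ℝ) : ℂ) *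
      PP J c τ ((n : ℝ) / h))) * hs
  have hin : ∀ v, (∫ v', F v v') = ∑ h ∈ Finset.Ico H (2 * H), ∑ n ∈ Finset.Icc 1 (16 * N),
      (κ h n * (g v * ch ((n : ℝ) / N) v)) * ((w (((n : ℝ) + h) / N) : ℝ) : ℂ) := by
    intro v
    simp only [hFe]
    rw [integral_finsetSum _ fun h hh => integrable_finsetSum _ fun n hn => (int_gch gc gi _).const_mul _]
    refine Finset.sum_congr rfl fun h hh => ?_
    rw [integral_finsetSum _ fun n hn => (int_gch gc gi _).const_mul _]
    refine Finset.sum_congr rfl fun n hn => ?_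
    rw [Finset.mem_Icc] at hn
    have hn0 : (0 : ℝ) < n := by exact_mod_cast hn.1
    rw [integral_const_mul, gw _ (by positivity)]
  have hout : (∫ v, ∫ v', F v v') = ∑ h ∈ Finset.Ico H (2 * H), ∑ n ∈ Finset.Icc 1 (16 * N),
      κ h n * ((w ((n : ℝ) / N) : ℝ) : ℂ) * ((w (((n : ℝ) + h) / N) : ℝ) : ℂ) := by
    simp only [hin]
    rw [integral_finsetSum _ fun h hh => integrable_finsetSum _ fun n hn =>
      ((int_gch gc gi _).const_mul _).mul_const _]
    refine Finset.sum_congr rfl fun h hh => ?_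
    rw [integral_finsetSum _ fun n hn => ((int_gch gc gi _).const_mul _).mul_const _]
    refine Finset.sum_congr rfl fun n hn => ?_
    rw [Finset.mem_Icc] at hn
    have hn0 : (0 : ℝ) < n := by exact_mod_cast hn.1
    rw [integral_mul_const, integral_const_mul, gw ((n : ℝ) / N) (by positivity)]
  have hsum : ∑ j ∈ J, c j * ED w N G H (τ j) = ∫ v, ∫ v', F v v' := by
    rw [hout]
    simp only [ED, EH, Finset.mul_sum]
    rw [Finset.sum_comm]
    refine Finset.sum_congr rfl fun h hh => ?_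
    rw [Finset.mem_Ico] at hh
    have hh1 : 1 ≤ h := by omega
    have hh0 : (0 : ℝ) < h := by exact_mod_cast hh1
    rw [Finset.sum_comm]
    rw [← Finset.sum_subset (Finset.Icc_subset_Icc_right (by omega : 4 * N ≤ 16 * N)) (fun n hn hn' => ?_)]
    · refine Finset.sum_congr rfl fun n hn => ?_
      rw [Finset.mem_Icc] at hn
      have hn0 : (0 : ℝ) < n := by exact_mod_cast hn.1
      have he : 1 + 1 / ((n : ℝ) / h) = 1 + (h : ℝ) / n := by
        rw [one_div_div]
      simp only [hκ, PP, he]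
      by_cases hz : w ((n : ℝ) / N) * w (((n : ℝ) + h) / N) = 0
      · rcases mul_eq_zero.mp hz with hz | hz <;> simp [hz]
      · have hz1 : w ((n : ℝ) / N) ≠ 0 := left_ne_zero_of_mul hz
        have hz2 : w (((n : ℝ) + h) / N) ≠ 0 := right_ne_zero_of_mul hz
        have a1 : 1 / 2 < (n : ℝ) / N := by
          by_contra hc
          exact hz1 (h0 _ (not_lt.mp hc))
        have a2 : ((n : ℝ) + h) / N < 4 := by
          by_contra hc
          exact hz2 (h4 _ (not_lt.mp hc))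
        rw [lt_div_iff₀ hN0] at a1
        rw [div_lt_iff₀ hN0] at a2
        have b1 : (H : ℝ) ≤ h := by exact_mod_cast hh.1
        have b2 : (h : ℝ) < 2 * H := by exact_mod_cast hh.2
        have e3 : ((n : ℝ) / h) / ((N : ℝ) / H) = (n * H) / (h * N) := by
          field_simp
        rw [e3, rho_one]
        · rw [one_mul, Finset.mul_sum, Finset.sum_mul, Finset.sum_mul]
          refine Finset.sum_congr rfl fun j hj => ?_
          push_cast
          ring
        · rw [le_div_iff₀ (by positivity)]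
          nlinarith
        · rw [div_le_iff₀ (by positivity)]
          nlinarith
    · rw [Finset.mem_Icc] at hn hn'
      have h5 : 4 * N < n := by
        by_contra hc
        exact hn' ⟨hn.1, not_lt.mp hc⟩
      have h6 : (4 : ℝ) * N < n := by exact_mod_cast h5
      have h7 : w ((n : ℝ) / N) = 0 := h4 _ (by rw [le_div_iff₀ hN0]; linarith)
      rw [h7]
      simp
  rw [hsum]
  have hb1 : ∀ v, ‖∫ v', F v v'‖ ≤ (D * I) * ((1 + |v|) ^ 4 * ‖g v‖) := by
    intro v
    have h8 : ∀ v', ‖F v v'‖ ≤ (D * ((1 + |v|) ^ 4 * ‖g v‖)) * ((1 + |v'|) ^ 4 * ‖g v'‖) := by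
      intro v'
      simp only [hF]
      rw [norm_mul, norm_mul, norm_mul, norm_ch, mul_one]
      calc ‖g v‖ * ‖g v'‖ * _ ≤ ‖g v‖ * ‖g v'‖ * (D * ((1 + |v|) ^ 4 * (1 + |v'|) ^ 4)) :=
            mul_le_mul_of_nonneg_left (hD v v') (by positivity)
        _ = _ := by ring
    refine (norm_integral_le_of_norm_le (gi.const_mul _) (Filter.Eventually.of_forall h8)).trans ?_
    rw [integral_const_mul, ← hI]
    exact le_of_eq (by ring)
  refine (norm_integral_le_of_norm_le (gi.const_mul _) (Filter.Eventually.of_forall hb1)).trans ?_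
  rw [integral_const_mul, ← hI]
  exact le_of_eq (by ring)

end Pool.Agent.Lib.TW
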