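import Pool.Agent.Lib.TW.Fd
import Pool.Agent.Lib.TW.Po
import Pool.Agent.Lib.TW.Re
import Pool.Agent.Lib.TW.Cs

/-!
# TW / P5: the sum over fractions, linear form
-/

set_option autoImplicit false

open MeasureTheory
open scoped FourierTransform

namespace Pool.Agent.Lib.TW

private theorem p5_inner {f : ℝ → ℂ} (hf : ContDiff ℝ 2 f) (hc : HasCompactSupport f) {L M H h : ℕ} (hs : ∀ y, f y ≠ 0 → 0 < y ∧ y ≤ L)
    (hh : 1 ≤ h) (hh2 : h ≤ 2 * H) (hM : ∀ n : ℕ, M < n → f ((n : ℝ) / h) = 0)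
    (hr : Summable fun m : ℤ => if m = 0 then 0 else ‖𝓕 f (((m * h : ℤ) : ℝ))‖) :
    ‖∑ n ∈ Finset.Icc 1 M, f ((n : ℝ) / h)‖ ≤
      (2 * H) * (‖∫ y : ℝ, f y‖ + ∑' m : ℤ, if m = 0 then 0 else ‖𝓕 f (((m * h : ℤ) : ℝ))‖) := by
  have h0 : (0 : ℝ) < h := by exact_mod_cast hh
  have e1 : ∑' n : ℤ, f ((n : ℝ) / h) = ∑ n ∈ Finset.Icc 1 M, f ((n : ℝ) / h) := by
    have h1 : ∑' n : ℤ, f ((n : ℝ) / h) = ∑ n ∈ (Finset.Icc 1 M).map Nat.castEmbedding, f (((n : ℤ) : ℝ) / h) := by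
      refine tsum_eq_sum fun n hn => ?_
      by_contra hne
      have h2 := (hs _ hne).1
      have h3 : (0 : ℝ) < n := by
        by_contra h4
        exact absurd h2 (not_lt.2 (div_nonpos_of_nonpos_of_nonneg (not_lt.1 h4) h0.le))
      have h5 : 0 < n := by exact_mod_cast h3
      obtain ⟨k, rfl⟩ := Int.eq_ofNat_of_zero_le h5.le
      apply hn
      rw [Finset.mem_map]
      refine ⟨k, Finset.mem_Icc.2 ⟨by exact_mod_cast h5, ?_⟩, rfl⟩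
      by_contra h6
      refine hne ?_
      have h7 := hM k (not_le.1 h6)
      simpa using h7
    rw [h1, Finset.sum_map]
    refine Finset.sum_congr rfl fun n _ => ?_
    simp
  have hsm : Summable fun m : ℤ => ‖𝓕 f ((m : ℝ) * h)‖ := by
    have h1 : Summable fun m : ℤ => if m = 0 then ‖𝓕 f 0‖ else 0 := (hasSum_ite_eq (0 : ℤ) ‖𝓕 f 0‖).summable
    refine (hr.add h1).congr fun m => ?_
    by_cases hm : m = 0
    · subst hm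
      simp
    · rw [if_neg hm, if_neg hm, add_zero]
      push_cast
      rfl
  have e3 : ∑' m : ℤ, ‖𝓕 f ((m : ℝ) * h)‖ =
      ‖∫ y : ℝ, f y‖ + ∑' m : ℤ, if m = 0 then 0 else ‖𝓕 f (((m * h : ℤ) : ℝ))‖ := by
    rw [hsm.tsum_eq_add_tsum_ite 0]
    congr 1
    · rw [Int.cast_zero, zero_mul, Real.fourier_eq]
      simp
    · refine tsum_congr fun m => ?_
      push_cast
      rfl
  rw [← e1, poisson_dil hf hc hh, norm_mul, Complex.norm_natCast, ← e3]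
  have h8 : ‖∑' m : ℤ, 𝓕 f ((m : ℝ) * h)‖ ≤ ∑' m : ℤ, ‖𝓕 f ((m : ℝ) * h)‖ := norm_tsum_le_tsum_norm hsm
  have h9 : (h : ℝ) ≤ 2 * H := by exact_mod_cast hh2
  exact mul_le_mul h9 h8 (norm_nonneg _) (by positivity)

private theorem p5_sum {f : ℝ → ℂ} (hf : ContDiff ℝ 2 f) (hc : HasCompactSupport f) :
    Summable fun n : ℤ => ((Nat.divisors n.natAbs).card : ℝ) * ‖𝓕 f (n : ℝ)‖ := by
  obtain ⟨C0, -, hcs⟩ := cs_div (ε := 1 / 2) (by norm_num) le_rfl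
  refine (hcs 1 le_rfl (fun n : ℤ => ‖𝓕 f (n : ℝ)‖) (fun n => norm_nonneg _) ?_).1
  obtain ⟨C, hC0, hC⟩ := fd_decay hf hc
  have h1 : Summable fun n : ℤ => C ^ 2 * ((if n = 0 then 1 else 0) + 1 / (n : ℝ) ^ 2) :=
    (((hasSum_ite_eq (0 : ℤ) (1 : ℝ)).summable).add (Real.summable_one_div_int_pow.2 one_lt_two)).mul_left _
  refine Summable.of_nonneg_of_le (fun n => by positivity) (fun n => ?_) h1
  have h2 := hC (n : ℝ)
  have h3 : 0 < 1 + (n : ℝ) ^ 2 := by positivity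
  have h4 : ‖𝓕 f (n : ℝ)‖ ≤ C / (1 + (n : ℝ) ^ 2) := by
    rw [le_div_iff₀ h3, mul_comm]
    exact h2
  have h5 : (1 + (n : ℝ) ^ 2 / 1 ^ 2) * ‖𝓕 f (n : ℝ)‖ ^ 2 ≤ C ^ 2 * (1 / (1 + (n : ℝ) ^ 2)) := by
    have h6 : ‖𝓕 f (n : ℝ)‖ ^ 2 ≤ (C / (1 + (n : ℝ) ^ 2)) ^ 2 := pow_le_pow_left₀ (norm_nonneg _) h4 2
    calc (1 + (n : ℝ) ^ 2 / 1 ^ 2) * ‖𝓕 f (n : ℝ)‖ ^ 2 ≤ (1 + (n : ℝ) ^ 2 / 1 ^ 2) * (C / (1 + (n : ℝ) ^ 2)) ^ 2 :=
          mul_le_mul_of_nonneg_left h6 (by positivity)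
      _ = C ^ 2 * (1 / (1 + (n : ℝ) ^ 2)) := by
          field_simp
  refine h5.trans (mul_le_mul_of_nonneg_left ?_ (by positivity))
  by_cases hn : n = 0
  · subst hn
    simp
  · rw [if_neg hn, zero_add]
    have h7 : (0 : ℝ) < (n : ℝ) ^ 2 := by
      have : (n : ℝ) ≠ 0 := by exact_mod_cast hn
      positivity
    exact one_div_le_one_div_of_le h7 (by linarith)

/-- PROOF. As the first half of `Ps` (without Cauchy-Schwarz): the inner sum is `h sum_m 𝓕 f (mh)` (`poisson_dil`), the terms `m = 0` give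
`≤ 2H · H ‖∫ f‖`, the others `≤ 2H sum_(n ≠ 0) d(|n|) ‖𝓕 f (n)‖` (`rearr`; summable by `fd_decay` and a divisor bound, or by `cs_div`). -/
theorem pois_lin : ∀ H : ℕ, 1 ≤ H → ∀ L : ℕ, ∀ f : ℝ → ℂ, ContDiff ℝ 2 f → (∀ y, f y ≠ 0 → 0 < y ∧ y ≤ L) → ∀ M : ℕ,
      (∀ h ∈ Finset.Ico H (2 * H), ∀ n : ℕ, M < n → f ((n : ℝ) / h) = 0) → ∀ c : ℕ → ℂ, (∀ h, ‖c h‖ ≤ 1) →
      (Summable fun n : ℤ => ((Nat.divisors n.natAbs).card : ℝ) * ‖𝓕 f (n : ℝ)‖) ∧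
      ‖∑ h ∈ Finset.Ico H (2 * H), c h * ∑ n ∈ Finset.Icc 1 M, f ((n : ℝ) / h)‖ ≤
        2 * (H : ℝ) * ((H : ℝ) * ‖∫ y : ℝ, f y‖ + ∑' n : ℤ, ((Nat.divisors n.natAbs).card : ℝ) * ‖𝓕 f (n : ℝ)‖) := by
  intro H hH L f hf hs M hM c hc
  have hcomp : HasCompactSupport f := by
    refine HasCompactSupport.intro (isCompact_Icc (a := (0 : ℝ)) (b := L)) ?_
    intro x hx
    by_contra hne
    have h1 := hs x hne
    exact hx ⟨h1.1.le, h1.2⟩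
  have hd := p5_sum hf hcomp
  refine ⟨hd, ?_⟩
  set a : ℤ → ℝ := fun n => ‖𝓕 f (n : ℝ)‖ with ha
  have ha0 : ∀ n, 0 ≤ a n := fun n => norm_nonneg _
  obtain ⟨hr, hrle⟩ := rearr H hH a ha0 hd
  set D := ∑' n : ℤ, ((Nat.divisors n.natAbs).card : ℝ) * a n with hD
  set I := ‖∫ y : ℝ, f y‖ with hI
  have hin : ∀ h ∈ Finset.Ico H (2 * H), ‖c h * ∑ n ∈ Finset.Icc 1 M, f ((n : ℝ) / h)‖ ≤
      (2 * H) * (I + ∑' m : ℤ, if m = 0 then 0 else a (m * h)) := by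
    intro h hh
    have hh' := Finset.mem_Ico.1 hh
    rw [norm_mul]
    have h1 := p5_inner (M := M) (H := H) hf hcomp hs (hH.trans hh'.1) hh'.2.le (hM h hh) (hr h hh)
    calc ‖c h‖ * ‖∑ n ∈ Finset.Icc 1 M, f ((n : ℝ) / h)‖ ≤ 1 * ‖∑ n ∈ Finset.Icc 1 M, f ((n : ℝ) / h)‖ :=
          mul_le_mul_of_nonneg_right (hc h) (norm_nonneg _)
      _ = ‖∑ n ∈ Finset.Icc 1 M, f ((n : ℝ) / h)‖ := one_mul _
      _ ≤ _ := h1
  refine (norm_sum_le _ _).trans ((Finset.sum_le_sum hin).trans ?_)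
  rw [← Finset.mul_sum, Finset.sum_add_distrib, Finset.sum_const, Nat.card_Ico, nsmul_eq_mul]
  have h2 : ((2 * H - H : ℕ) : ℝ) = H := by
    congr 1
    omega
  rw [h2]
  refine mul_le_mul_of_nonneg_left ?_ (by positivity)
  linarith

end Pool.Agent.Lib.TW
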