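import Pool.Agent.Lib.TW.Defs

/-!
# TW / Fd: Fourier transforms of `C^2` functions with compact support
-/

set_option autoImplicit false

open MeasureTheory
open scoped FourierTransform

namespace Pool.Agent.Lib.TW

private theorem nf_le (g : ℝ → ℂ) (ξ : ℝ) : ‖𝓕 g ξ‖ ≤ ∫ x, ‖g x‖ := by
  rw [Real.fourier_eq]
  refine (norm_integral_le_integral_norm _).trans (le_of_eq ?_)
  refine integral_congr_ae (Filter.Eventually.of_forall fun x => ?_)
  simp [Circle.norm_smul]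

private theorem compactSupport_iter {f : ℝ → ℂ} (hs : HasCompactSupport f) (n : ℕ) :
    HasCompactSupport (iteratedDeriv n f) := by
  induction n with
  | zero => rwa [iteratedDeriv_zero]
  | succ n ih =>
    rw [iteratedDeriv_succ]
    exact ih.deriv

/-- `𝓕 f' (ξ) = 2πiξ 𝓕 f (ξ)`, twice, and `‖𝓕 g‖ ≤ ∫ ‖g‖`. -/
theorem fd_decay {f : ℝ → ℂ} (hf : ContDiff ℝ 2 f) (hs : HasCompactSupport f) :
    ∃ C : ℝ, 0 ≤ C ∧ ∀ ξ : ℝ, (1 + ξ ^ 2) * ‖𝓕 f ξ‖ ≤ C := by
  have hint : ∀ n : ℕ, (n : ℕ∞) ≤ (2 : ℕ∞) → Integrable (iteratedDeriv n f) := by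
    intro n hn
    have hc : Continuous (iteratedDeriv n f) := by
      refine hf.continuous_iteratedDeriv n ?_
      exact_mod_cast hn
    exact hc.integrable_of_hasCompactSupport (compactSupport_iter hs n)
  have h2 := Real.fourier_iteratedDeriv (N := 2) (n := 2) (by exact_mod_cast hf) hint le_rfl
  refine ⟨(∫ x, ‖f x‖) + ∫ x, ‖iteratedDeriv 2 f x‖, by positivity, fun ξ => ?_⟩
  have h3 := congrFun h2 ξ
  have h4 : ‖𝓕 (iteratedDeriv 2 f) ξ‖ = (2 * Real.pi) ^ 2 * ξ ^ 2 * ‖𝓕 f ξ‖ := by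
    rw [h3, norm_smul, norm_pow, norm_mul, norm_mul, norm_mul, Complex.norm_I, Complex.norm_real,
      Complex.norm_real, Complex.norm_two, mul_one, Real.norm_of_nonneg Real.pi_pos.le, mul_pow, Real.norm_eq_abs,
      sq_abs]
  have h5 := nf_le f ξ
  have h6 := nf_le (iteratedDeriv 2 f) ξ
  rw [h4] at h6
  have h7 : (1 : ℝ) ≤ (2 * Real.pi) ^ 2 := by
    have := Real.pi_gt_three
    nlinarith
  have h8 : 0 ≤ ξ ^ 2 * ‖𝓕 f ξ‖ := by positivity
  nlinarith

end Pool.Agent.Lib.TW
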