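import Pool.Agent.Lib.PR.KBO

/-!
# TW / Op: the arithmetic of the exponents for the mean square with the twelfth power moment, all `k ≥ 8`

For `5/13 ≤ a ≤ 9/10` the twelfth power moment: `a (m - 3) ≤ (k - 6) s`; for `a ≥ 9/10` the square with Halász-Montgomery-Huxley; for
`a ≤ 5/13` as in `PR/KBO`.
-/

set_option autoImplicit false

namespace Pool.Agent.Lib.TW

open Pool.Agent.Lib.PR

/-- `m` is at most all the corner values -/
def RecT (k m : ℝ) : Prop :=
  m ≤ (k + 24) / 10 ∧ m ≤ (k + 32) / 12 ∧ m ≤ (k + 58) / 18 ∧ m ≤ (k + 68) / 20 ∧ ∀ q : ℕ, 5 ≤ q → m ≤ HKB k q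

/-- the conclusion of the arithmetic -/
def ConclT (k m a s e : ℝ) : Prop :=
  ConclB k m a s e ∨ (4 * s ≤ 2 + 2 * k * s - 2 * a * m + 2 * k * e ∧ KerC k a s e) ∨
    (a ≤ 9 / 10 ∧ 2 - 6 * a + 12 * s ≤ 2 + 2 * k * s - 2 * a * m + 2 * k * e)

/-- the twelfth power moment on an interval where the saving is linear -/
theorem conclT_lin {k m a s e : ℝ} (c d a1 a2 : ℝ) (hk : 6 ≤ k) (he : 0 ≤ e) (hs : c * a + d - e ≤ s)
    (l1 : a1 ≤ a) (l2 : a ≤ a2) (l3 : a ≤ 9 / 10)
    (p1 : a1 * (m - 3) ≤ (k - 6) * (c * a1 + d)) (p2 : a2 * (m - 3) ≤ (k - 6) * (c * a2 + d)) :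
    ConclT k m a s e := by
  have h3 : (k - 6) * (c * a + d - e) ≤ (k - 6) * s := mul_le_mul_of_nonneg_left hs (by linarith)
  have h6 := lin_between (A := (k - 6) * d) (B := (k - 6) * c - (m - 3)) l1 l2 (by linarith) (by linarith)
  refine Or.inr (Or.inr ⟨l3, ?_⟩)
  nlinarith

/-- the arithmetic of the exponents -/
theorem optT {k m a s e : ℝ} (hk : 8 ≤ k) (hR : RecT k m) (ha0 : 0 ≤ a) (ha1 : a ≤ 1) (he : 0 ≤ e) (hs0 : -e ≤ s)
    (hv : ∀ q : ℕ, q ≤ 3 → a * ((q : ℝ) + nu q) ≤ 1 → kp q * (((q : ℝ) + 2) * a - 1) - e ≤ s)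
    (hh : ∀ q : ℕ, 4 ≤ q → (q : ℝ) ≤ k → hb q a - e ≤ s) : ConclT k m a s e := by
  obtain ⟨g2, g3, g4, g5, g6⟩ := hR
  have n0 : nu 0 = 1 := by unfold nu; norm_num
  have n1 : nu 1 = 1 / 2 := by unfold nu; norm_num
  have n2 : nu 2 = 1 / 4 := by unfold nu; norm_num
  have n3 : nu 3 = 1 / 8 := by unfold nu; norm_num
  have k0 : kp 0 = 1 / 2 := by unfold kp; norm_num
  have k1 : kp 1 = 1 / 6 := by unfold kp; norm_num
  have k2 : kp 2 = 1 / 14 := by unfold kp; norm_num
  have k3 : kp 3 = 1 / 30 := by unfold kp; norm_num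
  rcases le_total (2 / 3) a with h | h
  · have hs := hv 0 (by norm_num) (by rw [n0]; push_cast; linarith)
    rw [k0] at hs
    push_cast at hs
    rcases le_total (9 / 10) a with h9 | h9
    · refine Or.inl (conclB_lin 2 1 (-1 / 2) (9 / 10) 1 (by push_cast; linarith) he (by linarith) h9 ha1 ?_ ?_ ?_ ?_) <;>
        push_cast <;> linarith
    · refine conclT_lin 1 (-1 / 2) (2 / 3) (9 / 10) (by linarith) he (by linarith) h h9 h9 ?_ ?_ <;> linarith
  have h' := h
  rcases le_total (4 / 9) a with h | h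
  · have hs := hv 1 (by norm_num) (by rw [n1]; push_cast; linarith)
    rw [k1] at hs
    push_cast at hs
    refine conclT_lin (1 / 2) (-1 / 6) (4 / 9) (2 / 3) (by linarith) he (by linarith) h h' (by linarith) ?_ ?_ <;> linarith
  clear h'
  have h' := h
  rcases le_total (6 / 17) a with h | h
  · have hs := hv 2 (by norm_num) (by rw [n2]; push_cast; linarith)
    rw [k2] at hs
    push_cast at hs
    rcases le_total (5 / 13) a with h9 | h9
    · refine conclT_lin (2 / 7) (-1 / 14) (5 / 13) (4 / 9) (by linarith) he (by linarith) h9 h' (by linarith) ?_ ?_ <;> linarith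
    · refine Or.inl (conclB_lin 2 (2 / 7) (-1 / 14) (6 / 17) (5 / 13) (by push_cast; linarith) he (by linarith) h h9 ?_ ?_ ?_ ?_) <;>
        push_cast <;> linarith
  clear h'
  have h' := h
  rcases le_total (1 / 3) a with h | h
  · have hs1 := hb_flat (q := 4) (a := a) (by norm_num) (by push_cast; linarith) (by push_cast; linarith)
    have hs2 := hh 4 le_rfl (by push_cast; linarith)
    push_cast at hs1 hs2
    refine Or.inl (conclB_lin 2 (1 / 12) 0 (1 / 3) (6 / 17) (by push_cast; linarith) he (by linarith) h h' ?_ ?_ ?_ ?_) <;>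
      push_cast <;> linarith
  clear h'
  have h' := h
  rcases le_total (3 / 10) a with h | h
  · have hs1 := hb_rise (q := 4) (a := a) (by norm_num) (by push_cast; linarith)
    have hs2 := hh 4 le_rfl (by push_cast; linarith)
    push_cast at hs1 hs2
    refine Or.inl (conclB_lin 2 (1 / 3) (-1 / 12) (3 / 10) (1 / 3) (by push_cast; linarith) he (by linarith) h h' ?_ ?_ ?_ ?_) <;>
      push_cast <;> linarith
  clear h'
  have h' := h
  rcases le_total (2 / 7) a with h | h
  · have hs := hv 3 (by norm_num) (by rw [n3]; push_cast; linarith)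
    rw [k3] at hs
    push_cast at hs
    refine Or.inl (conclB_lin 2 (1 / 6) (-1 / 30) (2 / 7) (3 / 10) (by push_cast; linarith) he (by linarith) h h' ?_ ?_ ?_ ?_) <;>
      push_cast <;> linarith
  clear h'
  have h' := h
  rcases le_total (1 / 4) a with h | h
  · have hs1 := hb_flat (q := 5) (a := a) (by norm_num) (by push_cast; linarith) (by push_cast; linarith)
    have hs2 := hh 5 (by norm_num) (by push_cast; linarith)
    push_cast at hs1 hs2
    refine Or.inl (conclB_lin 2 (1 / 20) 0 (1 / 4) (2 / 7) (by push_cast; linarith) he (by linarith) h h' ?_ ?_ ?_ ?_) <;>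
      push_cast <;> linarith
  clear h'
  have h' := h
  -- now `a ≤ 1/4`
  have hM1 : m ≤ (⌈m⌉₊ : ℝ) := Nat.le_ceil m
  rcases le_or_gt (a * m) 1 with h1 | h1
  · have hM2 : (⌈m⌉₊ : ℝ) ≤ max m 0 + 1 := by
      rcases le_total m 0 with h2 | h2
      · rw [Nat.ceil_eq_zero.2 h2, Nat.cast_zero]
        linarith [le_max_right m 0]
      · rw [max_eq_left h2]
        exact (Nat.ceil_lt_add_one h2).le
    have hM3 : max m 0 ≤ (k + 24) / 10 := max_le g2 (by linarith)
    exact Or.inl (conclB_mv ⌈m⌉₊ (by linarith) he ha0 hs0 hM1 h1)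
  have ha : 0 < a := by
    rcases ha0.eq_or_lt with h2 | h2
    · rw [← h2, zero_mul] at h1
      linarith
    · exact h2
  obtain ⟨Q, hQ⟩ : ∃ Q : ℕ, Q = ⌊1 / a⌋₊ + 1 := ⟨_, rfl⟩
  have h2 : 1 / a < Q := by
    rw [hQ]
    push_cast
    exact Nat.lt_floor_add_one _
  have h3 : (Q : ℝ) - 1 ≤ 1 / a := by
    rw [hQ]
    push_cast
    have := Nat.floor_le (show 0 ≤ 1 / a by positivity)
    linarith
  have h4 : 1 / a < m := by
    rw [div_lt_iff₀ ha]
    linarith
  have h6 : (Q : ℝ) ≤ m + 1 := by linarith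
  have h7 : 5 ≤ Q := by
    have e1 : (4 : ℝ) ≤ 1 / a := by
      rw [le_div_iff₀ ha]
      linarith
    have e2 : 4 ≤ ⌊1 / a⌋₊ := Nat.le_floor (by exact_mod_cast e1)
    omega
  have hQ5 : (5 : ℝ) ≤ Q := by exact_mod_cast h7
  have hm4 : 4 < m := by
    have e1 : (4 : ℝ) ≤ 1 / a := by
      rw [le_div_iff₀ ha]
      linarith
    linarith
  have l1 : 1 / (Q : ℝ) ≤ a := by
    rw [div_le_iff₀ (by linarith)]
    rw [div_lt_iff₀ ha] at h2
    linarith
  have l2 : a ≤ 1 / ((Q : ℝ) - 1) := by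
    rw [le_div_iff₀ (by linarith)]
    rw [le_div_iff₀ ha] at h3
    linarith
  have hk16 : 16 < k := by linarith
  have hk3 : 3 * ((Q : ℝ) + 1) ≤ 2 * k := by linarith
  have s1 := hh (Q + 1) (by omega) (by push_cast; linarith)
  have s2 := hh Q (by omega) (by linarith)
  have toT : ConclKB k m a s e → ConclT k m a s e := fun h => h.elim Or.inl (fun h => Or.inr (Or.inl h))
  rcases h7.eq_or_lt with h9 | h9
  · subst h9
    have g7 := g6 5 le_rfl
    unfold HKB at g7
    refine toT (okMainB 5 le_rfl hk3 he (g6 5 le_rfl) (by push_cast; linarith) ?_ l1 l2 s1 s2)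
    intro R hR
    norm_num at hR
    have hR3 : R = 3 := by linarith
    rw [hR3]
    push_cast at g7 ⊢
    norm_num at g7 ⊢
    linarith
  · exact toT (okMainB Q h7 hk3 he (g6 Q h7) (HKB_two Q h9 (g6 (Q - 1) (by omega)))
      (fun R hR => HKB_three Q h9 (by linarith) (g6 (Q - 1) (by omega)) R hR) l1 l2 s1 s2)

end Pool.Agent.Lib.TW
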