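import Pool.Agent.Lib.TW.Bf
import Pool.Agent.Lib.TW.Op
import Pool.Agent.Lib.PR.K6
import Pool.Agent.Lib.PR.BR

/-!
# TW / Fi: the bounds for the mean square exponent for all `k ≥ 8` with the twelfth power moment

`betaAllT`: `beta k ≤ 1 - m/k` for every `k ≥ 8` and every `m` with `RecT k m`: `m ≤ (k+24)/10`, `(k+32)/12`, `(k+58)/18`, `(k+68)/20` and
`(k+q^3+q-2)/(q(q+1))` for all `q ≥ 5`.
-/

set_option autoImplicit false

namespace Pool.Agent.Lib.TW

open Pool.Agent.Lib.MP_bc6037_nt Pool.Agent.Lib.PR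

theorem betaAllT (k : ℕ) (hk1 : 8 ≤ k) {m : ℝ} (hR : RecT k m) (hz : ∀ q : ℕ, 3 ≤ q → HBB q) :
    beta k ≤ 1 - m / k := by
  have hk : (8 : ℝ) ≤ k := by exact_mod_cast hk1
  have hk0 : (0 : ℝ) < k := by linarith
  have hb1 : beta k < 1 := (Limit.beta_le_alpha k).trans_lt (Limit.alpha_lt_one k)
  rcases le_or_gt m 0 with hm | hm
  · have h2 : m / k ≤ 0 := div_nonpos_of_nonpos_of_nonneg hm hk0.le
    linarith
  have h3 : 0 < m / k := div_pos hm hk0
  have h4 : m / k ≤ 1 / 2 := by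
    rw [div_le_iff₀ hk0]
    linarith [hR.1]
  refine Rec.beta_le_of_fin (by linarith) fun σ hσ => ?_
  rcases lt_or_ge σ 1 with hσ1 | hσ1
  swap
  · exact Rec.fin_of_beta (by omega) (hb1.trans_le hσ1)
  refine fin_genT k k (by omega) (m / k) (2 * k) h3 h4 le_rfl (fun a => max (thv 8 a) (thh k a))
    (fun a => le_max_of_le_left (thv_nonneg 8 a))
    (fun σ h0 => PW_max (PW_thv h0 8) (PW_thh h0 hz k)) ?_ hσ hσ1
  intro a s e ha0 ha1 he0 _ hs
  have hs1 : thv 8 a - e ≤ s := by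
    have := le_max_left (thv 8 a) (thh k a)
    linarith
  have hs2 : thh k a - e ≤ s := by
    have := le_max_right (thv 8 a) (thh k a)
    linarith
  have hs0 : -e ≤ s := by
    have := thv_nonneg 8 a
    linarith
  have h6 : 2 * (k : ℝ) * (s - a * (m / k)) = 2 * k * s - 2 * a * m := by
    field_simp
  rcases optT hk hR ha0 ha1 he0 hs0
    (fun q hq hqa => by
      have := le_thv (show q < 8 by omega) hqa
      linarith)
    (fun q hq hqk => by
      have hqk' : q ≤ k := by exact_mod_cast hqk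
      have := le_thh (n := k) (q := q) (by omega) (by omega) a
      linarith) with ⟨j, hj, h7, h8⟩ | ⟨h7, h8⟩ | ⟨h7, h8⟩
  · refine Or.inl ⟨j, by exact_mod_cast hj, ?_⟩
    rw [h6]
    exact ⟨by linarith, h8.imp (fun h => by linarith) (fun h => by linarith)⟩
  · refine Or.inr (Or.inl ⟨?_, kerC_use ha0 h8⟩)
    rw [h6]
    linarith
  · refine Or.inr (Or.inr ⟨h7, ?_⟩)
    rw [h6]
    linarith

/-- for `8 ≤ k ≤ 16` the value `m = (k+24)/10` is admissible -/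
theorem recT_small {k : ℝ} (h1 : 8 ≤ k) (h2 : k ≤ 16) : RecT k ((k + 24) / 10) := by
  refine ⟨le_rfl, by linarith, by linarith, by linarith, fun q hq => ?_⟩
  have hq5 : (5 : ℝ) ≤ q := by exact_mod_cast hq
  unfold HKB
  rw [div_le_div_iff₀ (by norm_num) (by positivity)]
  have h3 : (k + 24) * (q * (q + 1)) ≤ 40 * ((q : ℝ) * (q + 1)) := mul_le_mul_of_nonneg_right (by linarith) (by positivity)
  have h4 : (4 : ℝ) * (q * (q + 1)) ≤ q ^ 3 + q - 2 + 8 := by
    nlinarith [mul_nonneg (show (0 : ℝ) ≤ q - 5 by linarith) (show (0 : ℝ) ≤ (q : ℝ) by linarith),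
      mul_nonneg (mul_nonneg (show (0 : ℝ) ≤ q - 5 by linarith) (show (0 : ℝ) ≤ (q : ℝ) by linarith)) (show (0 : ℝ) ≤ (q : ℝ) by linarith)]
  nlinarith

/-- `beta k ≤ (9k - 24)/(10k)` for `8 ≤ k ≤ 16`; `beta 8 ≤ 3/5`, `beta 9 ≤ 19/30`, `beta 10 ≤ 33/50`, `beta 11 ≤ 15/22`, `beta 12 ≤ 7/10` -/
theorem betaSmallT (k : ℕ) (h1 : 8 ≤ k) (h2 : k ≤ 16) (hz : ∀ q : ℕ, 3 ≤ q → HBB q) : beta k ≤ (9 * k - 24) / (10 * k) := by
  have hk : (8 : ℝ) ≤ k := by exact_mod_cast h1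
  have hk2 : (k : ℝ) ≤ 16 := by exact_mod_cast h2
  have h := betaAllT k h1 (recT_small hk hk2) hz
  have e1 : 1 - ((k : ℝ) + 24) / 10 / k = (9 * k - 24) / (10 * k) := by
    field_simp
    ring
  rwa [e1] at h

end Pool.Agent.Lib.TW
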