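import Pool.Agent.Lib.TW.Op

/-!
# TW / Op5: the arithmetic of the exponents with the third derivative test in the kernel, `a ≥ 3/8`, all `k ≥ 7`
-/

set_option autoImplicit false

namespace Pool.Agent.Lib.TW

open Pool.Agent.Lib.PR

/-- the conclusion of the arithmetic -/
def ConclT5 (k m a s e : ℝ) : Prop :=
  ConclKB k m a s e ∨ (a ≤ 9 / 10 ∧ 2 - 6 * a + 12 * s ≤ 2 + 2 * k * s - 2 * a * m + 2 * k * e) ∨
    (a ≤ 9 / 10 ∧ 1 - 3 * a + 6 * s ≤ 2 + 2 * k * s - 2 * a * m + 2 * k * e ∧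
      5 - 16 * a + 32 * s ≤ 2 + 2 * k * s - 2 * a * m + 2 * k * e)

theorem ConclT5.of_T {k m a s e : ℝ} (h : ConclT k m a s e) : ConclT5 k m a s e := by
  rcases h with h | h | h
  · exact Or.inl (Or.inl h)
  · exact Or.inl (Or.inr h)
  · exact Or.inr (Or.inl h)

theorem ConclT5.of_B {k m a s e : ℝ} (h : ConclB k m a s e) : ConclT5 k m a s e := Or.inl (Or.inl h)

/-- a function linear in `s` which is nonnegative (with slack) at both ends -/
private theorem lin_s {P Q s s0 s1 e E : ℝ} (h0 : s0 - e ≤ s) (h1 : s ≤ s1) (hE : Q * e ≤ E) (hE0 : 0 ≤ E) (p0 : 0 ≤ P + Q * s0)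
    (p1 : 0 ≤ P + Q * s1) : 0 ≤ P + Q * s + E := by
  rcases le_total 0 Q with h | h
  · have := mul_le_mul_of_nonneg_left h0 h
    nlinarith
  · have := mul_le_mul_of_nonpos_left h1 h
    linarith

/-- `a` between `2/5` and `4/9`: the twelfth moment for `s ≥ a/2 - 3/20`, the third derivative test below -/
private theorem reg_a {k m a s e : ℝ} (hk : 7 ≤ k) (g1 : m ≤ (k + 18) / 8) (g2 : m ≤ 2 * (k + 26) / 21) (he : 0 ≤ e)
    (l1 : 2 / 5 ≤ a) (l2 : a ≤ 4 / 9) (hs : 2 / 7 * a + (-1 / 14) - e ≤ s) : ConclT5 k m a s e := by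
  -- the value at `s = a/2 - 3/20`
  have q1 : 0 ≤ (9 / 10 - 3 / 20 * k) + (k / 2 - m) * a :=
    lin_between (a1 := 2 / 5) (a2 := 4 / 9) l1 l2 (by linarith) (by linarith)
  rcases le_total (a / 2 - 3 / 20) s with h | h
  · refine Or.inr (Or.inl ⟨by linarith, ?_⟩)
    have h2 : (2 * k - 12) * (a / 2 - 3 / 20) ≤ (2 * k - 12) * s := mul_le_mul_of_nonneg_left h (by linarith)
    have h3 : 0 ≤ k * e := mul_nonneg (by linarith) he
    linarith
  · refine Or.inr (Or.inr ⟨by linarith, ?_, ?_⟩)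
    · have h2 : (2 * k - 6) * (2 / 7 * a + (-1 / 14) - e) ≤ (2 * k - 6) * s := mul_le_mul_of_nonneg_left hs (by linarith)
      have q2 : 0 ≤ (1 + (2 * k - 6) * (-1 / 14)) + (3 + (2 * k - 6) * (2 / 7) - 2 * m) * a :=
        lin_between (a1 := 2 / 5) (a2 := 4 / 9) l1 l2 (by linarith) (by linarith)
      linarith
    · have q3 : 0 ≤ (-3 + (2 * k - 32) * (-1 / 14)) + (16 + (2 * k - 32) * (2 / 7) - 2 * m) * a :=
        lin_between (a1 := 2 / 5) (a2 := 4 / 9) l1 l2 (by linarith) (by linarith)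
      have h4 := lin_s (P := -3 + (16 - 2 * m) * a) (Q := 2 * k - 32) (E := 2 * k * e) hs h
        (mul_le_mul_of_nonneg_right (by linarith) he) (by positivity)
        (by linarith) (by linarith)
      linarith

/-- `a` between `3/8` and `2/5`: the square for `s ≥ (16 a - 5)/28`, the third derivative test below -/
private theorem reg_b {k m a s e : ℝ} (hk : 7 ≤ k) (g1 : m ≤ (k + 18) / 8) (g2 : m ≤ 2 * (k + 26) / 21) (he : 0 ≤ e)
    (l1 : 3 / 8 ≤ a) (l2 : a ≤ 2 / 5) (hs : 2 / 7 * a + (-1 / 14) - e ≤ s) : ConclT5 k m a s e := by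
  have h3 : 0 ≤ k * e := mul_nonneg (by linarith) he
  -- the value at `s = (16 a - 5)/28`
  have q1 : 0 ≤ (2 + (2 * k - 4) * (-5 / 28)) + ((2 * k - 4) * (16 / 28) - 2 * m) * a :=
    lin_between (a1 := 3 / 8) (a2 := 2 / 5) l1 l2 (by linarith) (by linarith)
  rcases le_total ((16 * a - 5) / 28) s with h | h
  · have h2 : (2 * k - 4) * ((16 * a - 5) / 28) ≤ (2 * k - 4) * s := mul_le_mul_of_nonneg_left h (by linarith)
    have h5 : (2 * k - 12) * ((16 * a - 5) / 28) ≤ (2 * k - 12) * s := mul_le_mul_of_nonneg_left h (by linarith)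
    have q2 : 0 ≤ (1 + (2 * k - 12) * (-5 / 28)) + (4 + (2 * k - 12) * (16 / 28) - 2 * m) * a :=
      lin_between (a1 := 3 / 8) (a2 := 2 / 5) l1 l2 (by linarith) (by linarith)
    refine Or.inl (Or.inl ⟨2, by push_cast; linarith, ?_, Or.inl ?_⟩)
    · push_cast
      linarith
    · push_cast
      linarith
  · refine Or.inr (Or.inr ⟨by linarith, ?_, ?_⟩)
    · have h2 : (2 * k - 6) * (2 / 7 * a + (-1 / 14) - e) ≤ (2 * k - 6) * s := mul_le_mul_of_nonneg_left hs (by linarith)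
      have q2 : 0 ≤ (1 + (2 * k - 6) * (-1 / 14)) + (3 + (2 * k - 6) * (2 / 7) - 2 * m) * a :=
        lin_between (a1 := 3 / 8) (a2 := 2 / 5) l1 l2 (by linarith) (by linarith)
      linarith
    · have q3 : 0 ≤ (-3 + (2 * k - 32) * (-1 / 14)) + (16 + (2 * k - 32) * (2 / 7) - 2 * m) * a :=
        lin_between (a1 := 3 / 8) (a2 := 2 / 5) l1 l2 (by linarith) (by linarith)
      have h4 := lin_s (P := -3 + (16 - 2 * m) * a) (Q := 2 * k - 32) (E := 2 * k * e) hs h
        (mul_le_mul_of_nonneg_right (by linarith) he) (by positivity)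
        (by linarith) (by linarith)
      linarith

/-- the arithmetic of the exponents, `a ≥ 3/8` -/
theorem top5 {k m a s e : ℝ} (hk : 7 ≤ k) (g1 : m ≤ (k + 18) / 8) (g2 : m ≤ 2 * (k + 26) / 21) (ha0 : 3 / 8 ≤ a) (ha1 : a ≤ 1)
    (he : 0 ≤ e) (ht : ∀ q : ℕ, q ≤ 3 → a * ((q : ℝ) + nu q) ≤ 1 → kp q * (((q : ℝ) + 2) * a - 1) - e ≤ s) :
    ConclT5 k m a s e := by
  have n0 : nu 0 = 1 := by unfold nu; norm_num
  have n1 : nu 1 = 1 / 2 := by unfold nu; norm_num
  have n2 : nu 2 = 1 / 4 := by unfold nu; norm_num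
  have k0 : kp 0 = 1 / 2 := by unfold kp; norm_num
  have k1 : kp 1 = 1 / 6 := by unfold kp; norm_num
  have k2 : kp 2 = 1 / 14 := by unfold kp; norm_num
  rcases le_total (2 / 3) a with h | h
  · have hs := ht 0 (by norm_num) (by rw [n0]; push_cast; linarith)
    rw [k0] at hs
    push_cast at hs
    rcases le_total (9 / 10) a with h9 | h9
    · have h3 : 0 ≤ e := he
      have h2 : (2 * k - 4) * (a - 1 / 2 - e) ≤ (2 * k - 4) * s := mul_le_mul_of_nonneg_left (by linarith) (by linarith)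
      have q2 : 0 ≤ (2 + (2 * k - 4) * (-1 / 2)) + ((2 * k - 4) - 2 * m) * a :=
        lin_between (a1 := 9 / 10) (a2 := 1) h9 ha1 (by linarith) (by linarith)
      refine ConclT5.of_B ⟨2, by push_cast; linarith, ?_, Or.inr ?_⟩
      · push_cast
        linarith
      · push_cast
        linarith
    · refine ConclT5.of_T (conclT_lin 1 (-1 / 2) (2 / 3) (9 / 10) (by linarith) he (by linarith) h h9 h9 ?_ ?_) <;> linarith
  have h' := h
  rcases le_total (4 / 9) a with h | h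
  · have hs := ht 1 (by norm_num) (by rw [n1]; push_cast; linarith)
    rw [k1] at hs
    push_cast at hs
    refine ConclT5.of_T (conclT_lin (1 / 2) (-1 / 6) (4 / 9) (2 / 3) (by linarith) he (by linarith) h h' (by linarith) ?_ ?_) <;>
      linarith
  clear h'
  have hs := ht 2 (by norm_num) (by rw [n2]; push_cast; linarith)
  rw [k2] at hs
  push_cast at hs
  rcases le_total (2 / 5) a with h9 | h9
  · exact reg_a hk g1 g2 he h9 h (by linarith)
  · exact reg_b hk g1 g2 he ha0 h9 (by linarith)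

/-- `a` between `6/17` and `3/8`: the square with the saving of order 2 -/
theorem mid5 {k m a s e : ℝ} (hk : 7 ≤ k) (g2 : m ≤ 2 * (k + 26) / 21) (g3 : m ≤ (k + 32) / 12) (ha0 : 6 / 17 ≤ a) (ha1 : a ≤ 3 / 8)
    (he : 0 ≤ e) (ht : ∀ q : ℕ, q ≤ 3 → a * ((q : ℝ) + nu q) ≤ 1 → kp q * (((q : ℝ) + 2) * a - 1) - e ≤ s) :
    ConclB k m a s e := by
  have n2 : nu 2 = 1 / 4 := by unfold nu; norm_num
  have k2 : kp 2 = 1 / 14 := by unfold kp; norm_num
  have hs := ht 2 (by norm_num) (by rw [n2]; push_cast; linarith)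
  rw [k2] at hs
  push_cast at hs
  refine conclB_lin 2 (2 / 7) (-1 / 14) (6 / 17) (3 / 8) (by push_cast; linarith) he (by linarith) ha0 ha1 ?_ ?_ ?_ ?_ <;>
    push_cast <;> linarith

end Pool.Agent.Lib.TW
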