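import Pool.Agent.Lib.TW.Op
import Pool.Agent.Lib.PR.LVB

/-!
# TW / OpV: the arithmetic of the exponents for the mean square with the twelfth power moment and the new derivative test, all `k ≥ 8`
-/

set_option autoImplicit false

namespace Pool.Agent.Lib.TW

open Pool.Agent.Lib.PR

/-- `m` is at most all the corner values -/
def RecTV (k m : ℝ) : Prop := m ≤ (k + 24) / 10 ∧ RecVL k m

/-- the arithmetic of the exponents for `a ≤ 6/17` -/
theorem optTV_low {k m a s e : ℝ} (hk : 8 ≤ k) (g0 : m ≤ (k + 24) / 10) (hR : RecVL k m) (ha0 : 0 ≤ a) (ha1 : a ≤ 6 / 17) (he : 0 ≤ e)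
    (hs0 : -e ≤ s)
    (ht : ∀ q : ℕ, q ≤ 3 → a * ((q : ℝ) + nu q) ≤ 1 → kp q * (((q : ℝ) + 2) * a - 1) - e ≤ s)
    (hh : ∀ q : ℕ, 4 ≤ q → (q : ℝ) ≤ k → hb q a - e ≤ s)
    (hn : ∀ q : ℕ, 4 ≤ q → (q : ℝ) ≤ k → ((q : ℝ) - 1) * a ≤ 1 → hv q a - e ≤ s) : ConclKB k m a s e := by
  obtain ⟨g1, g2, g3, g4⟩ := hR
  have n3 : nu 3 = 1 / 8 := by unfold nu; norm_num
  have k3 : kp 3 = 1 / 30 := by unfold kp; norm_num
  rcases le_total (1 / 3) a with h | h
  · have hs1 := hb_flat (q := 4) (a := a) (by norm_num) (by push_cast; linarith) (by push_cast; linarith)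
    have hs2 := hh 4 le_rfl (by push_cast; linarith)
    push_cast at hs1 hs2
    refine Or.inl (conclB_lin 2 (1 / 12) 0 (1 / 3) (6 / 17) (by push_cast; linarith) he (by linarith) h ha1 ?_ ?_ ?_ ?_) <;>
      push_cast <;> linarith
  have h' := h
  rcases le_total (13 / 40) a with h | h
  · have hs := hv_flat4 h (hn 4 le_rfl (by push_cast; linarith) (by push_cast; linarith))
    refine Or.inl (conclB_lin 2 (1 / 12) 0 (13 / 40) (1 / 3) (by push_cast; linarith) he hs h h' ?_ ?_ ?_ ?_) <;>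
      push_cast <;> linarith
  clear h'
  have h' := h
  rcases le_total (41 / 140) a with h | h
  · have hs := hv_rise4 h' (hn 4 le_rfl (by push_cast; linarith) (by push_cast; linarith))
    refine Or.inl (conclB_lin 2 (13 / 36) (-13 / 144) (41 / 140) (13 / 40) (by push_cast; linarith) he hs h h' ?_ ?_ ?_ ?_) <;>
      push_cast <;> linarith
  clear h'
  have h' := h
  rcases le_total (2 / 7) a with h | h
  · have hs := ht 3 (by norm_num) (by rw [n3]; push_cast; linarith)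
    rw [k3] at hs
    push_cast at hs
    refine Or.inl (conclB_lin 2 (1 / 6) (-1 / 30) (2 / 7) (41 / 140) (by push_cast; linarith) he (by linarith) h h' ?_ ?_ ?_ ?_) <;>
      push_cast <;> linarith
  clear h'
  have h' := h
  rcases le_total (1 / 4) a with h | h
  · have hs1 := hb_flat (q := 5) (a := a) (by norm_num) (by push_cast; linarith) (by push_cast; linarith)
    have hs2 := hh 5 (by norm_num) (by push_cast; linarith)
    push_cast at hs1 hs2
    refine Or.inl (conclB_lin 2 (1 / 20) 0 (1 / 4) (2 / 7) (by push_cast; linarith) he (by linarith) h h' ?_ ?_ ?_ ?_) <;>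
      push_cast <;> linarith
  clear h'
  have h' := h
  -- now `a ≤ 1/4`
  have hM1 : m ≤ (⌈m⌉₊ : ℝ) := Nat.le_ceil m
  rcases le_or_gt (a * m) 1 with h1 | h1
  · have hM2 : (⌈m⌉₊ : ℝ) ≤ max m 0 + 1 := by
      rcases le_total m 0 with h2 | h2
      · rw [Nat.ceil_eq_zero.2 h2, Nat.cast_zero]
        linarith [le_max_right m 0]
      · rw [max_eq_left h2]
        exact (Nat.ceil_lt_add_one h2).le
    have hM3 : max m 0 ≤ (k + 24) / 10 := max_le g0 (by linarith)
    exact Or.inl (conclB_mv ⌈m⌉₊ (by linarith) he ha0 hs0 hM1 h1)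
  have ha : 0 < a := by
    rcases ha0.eq_or_lt with h2 | h2
    · rw [← h2, zero_mul] at h1
      linarith
    · exact h2
  obtain ⟨Q, hQ⟩ : ∃ Q : ℕ, Q = ⌊1 / a⌋₊ + 1 := ⟨_, rfl⟩
  have h2 : 1 / a < Q := by
    rw [hQ]
    push_cast
    exact Nat.lt_floor_add_one _
  have h3 : (Q : ℝ) - 1 ≤ 1 / a := by
    rw [hQ]
    push_cast
    have := Nat.floor_le (show 0 ≤ 1 / a by positivity)
    linarith
  have h4 : 1 / a < m := by
    rw [div_lt_iff₀ ha]
    linarith
  have h6 : (Q : ℝ) ≤ m + 1 := by linarith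
  have h7 : 5 ≤ Q := by
    have e1 : (4 : ℝ) ≤ 1 / a := by
      rw [le_div_iff₀ ha]
      linarith
    have e2 : 4 ≤ ⌊1 / a⌋₊ := Nat.le_floor (by exact_mod_cast e1)
    omega
  have hQ5 : (5 : ℝ) ≤ Q := by exact_mod_cast h7
  have hm4 : 4 < m := by
    have e1 : (4 : ℝ) ≤ 1 / a := by
      rw [le_div_iff₀ ha]
      linarith
    linarith
  have hk16 : 16 < k := by linarith
  have l1 : 1 / (Q : ℝ) ≤ a := by
    rw [div_le_iff₀ (by linarith)]
    rw [div_lt_iff₀ ha] at h2
    linarith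
  have l3 : ((Q : ℝ) - 1) * a ≤ 1 := by
    rwa [le_div_iff₀ ha] at h3
  have l2 : a ≤ 1 / ((Q : ℝ) - 1) := by
    rw [le_div_iff₀ (by linarith)]
    linarith
  exact okVB Q h7 (by linarith) he g3 g4 l1 l2 (hh (Q + 1) (by omega) (by push_cast; linarith)) (hn Q (by omega) (by linarith) l3)

/-- the arithmetic of the exponents -/
theorem optTV {k m a s e : ℝ} (hk : 8 ≤ k) (hR : RecTV k m) (ha0 : 0 ≤ a) (ha1 : a ≤ 1) (he : 0 ≤ e) (hs0 : -e ≤ s)
    (ht : ∀ q : ℕ, q ≤ 3 → a * ((q : ℝ) + nu q) ≤ 1 → kp q * (((q : ℝ) + 2) * a - 1) - e ≤ s)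
    (hh : ∀ q : ℕ, 4 ≤ q → (q : ℝ) ≤ k → hb q a - e ≤ s)
    (hn : ∀ q : ℕ, 4 ≤ q → (q : ℝ) ≤ k → ((q : ℝ) - 1) * a ≤ 1 → hv q a - e ≤ s) : ConclT k m a s e := by
  obtain ⟨g2, hR'⟩ := hR
  have g3 := hR'.1
  have n0 : nu 0 = 1 := by unfold nu; norm_num
  have n1 : nu 1 = 1 / 2 := by unfold nu; norm_num
  have n2 : nu 2 = 1 / 4 := by unfold nu; norm_num
  have k0 : kp 0 = 1 / 2 := by unfold kp; norm_num
  have k1 : kp 1 = 1 / 6 := by unfold kp; norm_num
  have k2 : kp 2 = 1 / 14 := by unfold kp; norm_num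
  rcases le_total (2 / 3) a with h | h
  · have hs := ht 0 (by norm_num) (by rw [n0]; push_cast; linarith)
    rw [k0] at hs
    push_cast at hs
    rcases le_total (9 / 10) a with h9 | h9
    · refine Or.inl (conclB_lin 2 1 (-1 / 2) (9 / 10) 1 (by push_cast; linarith) he (by linarith) h9 ha1 ?_ ?_ ?_ ?_) <;>
        push_cast <;> linarith
    · refine conclT_lin 1 (-1 / 2) (2 / 3) (9 / 10) (by linarith) he (by linarith) h h9 h9 ?_ ?_ <;> linarith
  have h' := h
  rcases le_total (4 / 9) a with h | h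
  · have hs := ht 1 (by norm_num) (by rw [n1]; push_cast; linarith)
    rw [k1] at hs
    push_cast at hs
    refine conclT_lin (1 / 2) (-1 / 6) (4 / 9) (2 / 3) (by linarith) he (by linarith) h h' (by linarith) ?_ ?_ <;> linarith
  clear h'
  have h' := h
  rcases le_total (6 / 17) a with h | h
  · have hs := ht 2 (by norm_num) (by rw [n2]; push_cast; linarith)
    rw [k2] at hs
    push_cast at hs
    rcases le_total (5 / 13) a with h9 | h9
    · refine conclT_lin (2 / 7) (-1 / 14) (5 / 13) (4 / 9) (by linarith) he (by linarith) h9 h' (by linarith) ?_ ?_ <;> linarith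
    · refine Or.inl (conclB_lin 2 (2 / 7) (-1 / 14) (6 / 17) (5 / 13) (by push_cast; linarith) he (by linarith) h h9 ?_ ?_ ?_ ?_) <;>
        push_cast <;> linarith
  exact (optTV_low hk g2 hR' ha0 h he hs0 ht hh hn).elim Or.inl (fun h => Or.inr (Or.inl h))

end Pool.Agent.Lib.TW
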