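import Pool.Agent.Lib.TW.Bf
import Pool.Agent.Lib.TW.OpV
import Pool.Agent.Lib.PR.LR

/-!
# TW / FiV: the bounds for the mean square exponent for all `k ≥ 8` with the twelfth power moment and the new derivative test

`betaAllTV`: `beta k ≤ 1 - m/k` for every `k ≥ 8` and every `m` with `RecTV k m`: `m ≤ (k+24)/10`, `(k+32)/12`, `(13k+814)/246`, `(k+68)/20`
and `HV (k-2) q` for all `q ≥ 5`.
-/

set_option autoImplicit false

namespace Pool.Agent.Lib.TW

open Pool.Agent.Lib.MP_bc6037_nt Pool.Agent.Lib.PR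

theorem betaAllTV (k : ℕ) (hk1 : 8 ≤ k) {m : ℝ} (hR : RecTV k m) (hz : ∀ q : ℕ, 3 ≤ q → HBB q) (hj : ∀ q : ℕ, 4 ≤ q → HJB q) :
    beta k ≤ 1 - m / k := by
  have hk : (8 : ℝ) ≤ k := by exact_mod_cast hk1
  have hk0 : (0 : ℝ) < k := by linarith
  have hb1 : beta k < 1 := (Limit.beta_le_alpha k).trans_lt (Limit.alpha_lt_one k)
  rcases le_or_gt m 0 with hm | hm
  · have h2 : m / k ≤ 0 := div_nonpos_of_nonpos_of_nonneg hm hk0.le
    linarith
  have h3 : 0 < m / k := div_pos hm hk0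
  have h4 : m / k ≤ 1 / 2 := by
    rw [div_le_iff₀ hk0]
    linarith [hR.1]
  refine Rec.beta_le_of_fin (by linarith) fun σ hσ => ?_
  rcases lt_or_ge σ 1 with hσ1 | hσ1
  swap
  · exact Rec.fin_of_beta (by omega) (hb1.trans_le hσ1)
  refine fin_genT k k (by omega) (m / k) (2 * k) h3 h4 le_rfl (thw k) (thw_nonneg k)
    (fun σ h0 => PW_thw h0 hz hj k) ?_ hσ hσ1
  intro a s e ha0 ha1 he0 _ hs
  have hs0 : -e ≤ s := by
    have := thw_nonneg k a
    linarith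
  have h6 : 2 * (k : ℝ) * (s - a * (m / k)) = 2 * k * s - 2 * a * m := by
    field_simp
  rcases optTV hk hR ha0 ha1 he0 hs0 (thw_v hs) (thw_h hs) (thw_j hs) with ⟨j, hj, h7, h8⟩ | ⟨h7, h8⟩ | ⟨h7, h8⟩
  · refine Or.inl ⟨j, by exact_mod_cast hj, ?_⟩
    rw [h6]
    exact ⟨by linarith, h8.imp (fun h => by linarith) (fun h => by linarith)⟩
  · refine Or.inr (Or.inl ⟨?_, kerC_useV ha0 h8⟩)
    rw [h6]
    linarith
  · refine Or.inr (Or.inr ⟨h7, ?_⟩)
    rw [h6]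
    linarith

end Pool.Agent.Lib.TW
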