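import Pool.Agent.Lib.TW.Bf5
import Pool.Agent.Lib.TW.OpV5
import Pool.Agent.Lib.PR.LR
import Pool.Agent.Lib.PR.LC

/-!
# TW / FiV5: the bounds for the mean square exponent for all `k ≥ 7`

`betaAllTV5`: `beta k ≤ 1 - m/k` for every `k ≥ 7` and every `m` with `RecTV5 k m`: `m ≤ (k+18)/8`, `2(k+26)/21`, `(k+32)/12`,
`(13k+814)/246`, `(k+68)/20` and `HV (k-2) q` for all `q ≥ 5`.
-/

set_option autoImplicit false

namespace Pool.Agent.Lib.TW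

open Pool.Agent.Lib.MP_bc6037_nt Pool.Agent.Lib.PR

theorem betaAllTV5 (k : ℕ) (hk1 : 7 ≤ k) {m : ℝ} (hR : RecTV5 k m) (hz : ∀ q : ℕ, 3 ≤ q → HBB q) (hj : ∀ q : ℕ, 4 ≤ q → HJB q) :
    beta k ≤ 1 - m / k := by
  have hk : (7 : ℝ) ≤ k := by exact_mod_cast hk1
  have hk0 : (0 : ℝ) < k := by linarith
  have hb1 : beta k < 1 := (Limit.beta_le_alpha k).trans_lt (Limit.alpha_lt_one k)
  rcases le_or_gt m 0 with hm | hm
  · have h2 : m / k ≤ 0 := div_nonpos_of_nonpos_of_nonneg hm hk0.le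
    linarith
  have h3 : 0 < m / k := div_pos hm hk0
  have h4 : m / k ≤ 1 / 2 := by
    rw [div_le_iff₀ hk0]
    linarith [hR.1]
  refine Rec.beta_le_of_fin (by linarith) fun σ hσ => ?_
  rcases lt_or_ge σ 1 with hσ1 | hσ1
  swap
  · exact Rec.fin_of_beta (by omega) (hb1.trans_le hσ1)
  refine fin_genT5 k k (by omega) (m / k) (2 * k) h3 h4 le_rfl (thw k) (thw_nonneg k)
    (fun σ h0 => PW_thw h0 hz hj k) ?_ hσ hσ1
  intro a s e ha0 ha1 he0 _ hs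
  have hs0 : -e ≤ s := by
    have := thw_nonneg k a
    linarith
  have h6 : 2 * (k : ℝ) * (s - a * (m / k)) = 2 * k * s - 2 * a * m := by
    field_simp
  rcases optTV5 hk hR ha0 ha1 he0 hs0 (thw_v hs) (thw_h hs) (thw_j hs) with (⟨j, hj, h7, h8⟩ | ⟨h7, h8⟩) | ⟨h7, h8⟩ | ⟨h7, h8, h9⟩
  · refine Or.inl ⟨j, by exact_mod_cast hj, ?_⟩
    rw [h6]
    exact ⟨by linarith, h8.imp (fun h => by linarith) (fun h => by linarith)⟩
  · refine Or.inr (Or.inl ⟨?_, kerC_useV ha0 h8⟩)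
    rw [h6]
    linarith
  · refine Or.inr (Or.inr (Or.inl ⟨h7, ?_⟩))
    rw [h6]
    linarith
  · refine Or.inr (Or.inr (Or.inr ⟨h7, ?_, ?_⟩))
    · rw [h6]
      linarith
    · rw [h6]
      linarith

/-- small `k` -/
theorem recTV5_small {k : ℝ} (h1 : 7 ≤ k) (h2 : k ≤ 16) : RecTV5 k (min ((k + 18) / 8) (2 * (k + 26) / 21)) := by
  have h3 : min ((k + 18) / 8) (2 * (k + 26) / 21) ≤ 2 * (k + 26) / 21 := min_le_right _ _
  refine ⟨min_le_left _ _, h3, by linarith, by linarith, by linarith, fun q hq => ?_⟩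
  have h4 := HV_low (K := k - 2) q hq
  have hq5 : (5 : ℝ) ≤ q := by exact_mod_cast hq
  have h5 : 0 ≤ 15 / (16 * ((q : ℝ) + 1)) := by positivity
  have h6 : 0 ≤ (k - 2) / ((q : ℝ) * (q + 1)) := div_nonneg (by linarith) (by positivity)
  linarith

/-- `beta 7 ≤ 31/56` -/
theorem beta_seven5 (hz : ∀ q : ℕ, 3 ≤ q → HBB q) (hj : ∀ q : ℕ, 4 ≤ q → HJB q) : beta 7 ≤ 31 / 56 := by
  have h := betaAllTV5 7 le_rfl (recTV5_small (k := ((7 : ℕ) : ℝ)) (by norm_num) (by norm_num)) hz hj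
  have e : min ((((7 : ℕ) : ℝ) + 18) / 8) (2 * (((7 : ℕ) : ℝ) + 26) / 21) = 25 / 8 := by
    push_cast
    rw [min_eq_left (by norm_num)]
    norm_num
  rw [e] at h
  push_cast at h
  linarith

/-- `beta k ≤ (19k - 52)/(21k)` for `8 ≤ k ≤ 16`: `beta 8 ≤ 25/42`, `beta 9 ≤ 17/27`, `beta 10 ≤ 23/35`, `beta 11 ≤ 157/231`, `beta 12 ≤ 44/63` -/
theorem betaSmall5 (k : ℕ) (h1 : 8 ≤ k) (h2 : k ≤ 16) (hz : ∀ q : ℕ, 3 ≤ q → HBB q) (hj : ∀ q : ℕ, 4 ≤ q → HJB q) :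
    beta k ≤ (19 * k - 52) / (21 * k) := by
  have hk : (8 : ℝ) ≤ k := by exact_mod_cast h1
  have hk2 : (k : ℝ) ≤ 16 := by exact_mod_cast h2
  have h := betaAllTV5 k (by omega) (recTV5_small (by linarith) hk2) hz hj
  have e : min (((k : ℝ) + 18) / 8) (2 * (k + 26) / 21) = 2 * (k + 26) / 21 := min_eq_right (by linarith)
  rw [e] at h
  have e1 : 1 - 2 * ((k : ℝ) + 26) / 21 / k = (19 * k - 52) / (21 * k) := by
    field_simp
    ring
  rwa [e1] at h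

end Pool.Agent.Lib.TW
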