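import Pool.Agent.Lib.TW.Defs5

/-!
# TW / Fr5: the Fresnel integral
-/

set_option autoImplicit false

open MeasureTheory
open scoped FourierTransform

namespace Pool.Agent.Lib.TW

private noncomputable def fre (x : ℝ) : ℂ := Complex.exp (((-(x ^ 2 / 2) : ℝ) : ℂ) * Complex.I)

private theorem fre_norm (x : ℝ) : ‖fre x‖ = 1 := by
  unfold fre
  exact Complex.norm_exp_ofReal_mul_I _

private theorem fre_cont : Continuous fre := by
  unfold fre
  fun_prop

private theorem fre_neg (x : ℝ) : fre (-x) = fre x := by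
  unfold fre
  rw [neg_sq]

private theorem fre_deriv (x : ℝ) : HasDerivAt fre (fre x * (((-x : ℝ) : ℂ) * Complex.I)) x := by
  have h1 : HasDerivAt (fun y : ℝ => -(y ^ 2 / 2)) (-x) x := by
    have h := ((hasDerivAt_pow 2 x).div_const 2).neg
    refine h.congr_deriv ?_
    norm_num
  have h2 : HasDerivAt (fun y : ℝ => (((-(y ^ 2 / 2) : ℝ) : ℂ))) ((-x : ℝ) : ℂ) x := h1.ofReal_comp
  exact (h2.mul_const Complex.I).cexp

private theorem fre_far {a b : ℝ} (ha : 0 < a) (hab : a ≤ b) : ‖∫ x in a..b, fre x‖ ≤ 2 / a := by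
  have hb : 0 < b := ha.trans_le hab
  have hx0 : ∀ x ∈ Set.uIcc a b, 0 < x := fun x hx => by
    rw [Set.uIcc_of_le hab] at hx
    exact ha.trans_le hx.1
  -- the primitive
  have hG : ∀ x ∈ Set.uIcc a b, HasDerivAt (fun y : ℝ => ((y⁻¹ : ℝ) : ℂ) * (Complex.I * fre y))
      (((-(x ^ 2)⁻¹ : ℝ) : ℂ) * (Complex.I * fre x) + fre x) x := fun x hx => by
    have hx1 : x ≠ 0 := (hx0 x hx).ne'
    have h1 : HasDerivAt (fun y : ℝ => ((y⁻¹ : ℝ) : ℂ)) ((-(x ^ 2)⁻¹ : ℝ) : ℂ) x := (hasDerivAt_inv hx1).ofReal_comp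
    have h2 := h1.mul ((fre_deriv x).const_mul Complex.I)
    refine h2.congr_deriv ?_
    have hxc : (x : ℂ) ≠ 0 := by exact_mod_cast hx1
    push_cast
    have hI : Complex.I * (fre x * (-(x : ℂ) * Complex.I)) = (x : ℂ) * fre x := by
      calc Complex.I * (fre x * (-(x : ℂ) * Complex.I)) = -(Complex.I * Complex.I) * ((x : ℂ) * fre x) := by ring
        _ = (x : ℂ) * fre x := by rw [Complex.I_mul_I]; ring
    rw [hI, ← mul_assoc ((x : ℂ)⁻¹), inv_mul_cancel₀ hxc, one_mul]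
  have hc1 : ContinuousOn (fun x : ℝ => ((-(x ^ 2)⁻¹ : ℝ) : ℂ) * (Complex.I * fre x)) (Set.uIcc a b) := by
    refine ContinuousOn.mul ?_ (continuous_const.mul fre_cont).continuousOn
    refine Complex.continuous_ofReal.comp_continuousOn ?_
    exact ((continuousOn_id.pow 2).inv₀ fun x hx => pow_ne_zero 2 (hx0 x hx).ne').neg
  have hi1 : IntervalIntegrable (fun x : ℝ => ((-(x ^ 2)⁻¹ : ℝ) : ℂ) * (Complex.I * fre x)) volume a b := hc1.intervalIntegrable
  have hi2 : IntervalIntegrable fre volume a b := fre_cont.intervalIntegrable a b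
  have hFTC := intervalIntegral.integral_eq_sub_of_hasDerivAt hG (hi1.add hi2)
  have hsplit : (∫ x in a..b, (((-(x ^ 2)⁻¹ : ℝ) : ℂ) * (Complex.I * fre x) + fre x)) =
      (∫ x in a..b, ((-(x ^ 2)⁻¹ : ℝ) : ℂ) * (Complex.I * fre x)) + ∫ x in a..b, fre x := intervalIntegral.integral_add hi1 hi2
  rw [hsplit] at hFTC
  have hreal : ∀ x ∈ Set.uIcc a b, HasDerivAt (fun y : ℝ => -y⁻¹) ((x ^ 2)⁻¹) x := fun x hx => by
    have h1 := (hasDerivAt_inv (hx0 x hx).ne').neg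
    refine h1.congr_deriv ?_
    ring
  have hc2 : ContinuousOn (fun x : ℝ => (x ^ 2)⁻¹) (Set.uIcc a b) :=
    (continuousOn_id.pow 2).inv₀ fun x hx => pow_ne_zero 2 (hx0 x hx).ne'
  have hR := intervalIntegral.integral_eq_sub_of_hasDerivAt hreal hc2.intervalIntegrable
  have hbd : ‖∫ x in a..b, ((-(x ^ 2)⁻¹ : ℝ) : ℂ) * (Complex.I * fre x)‖ ≤ ∫ x in a..b, (x ^ 2)⁻¹ := by
    refine intervalIntegral.norm_integral_le_of_norm_le hab (Filter.Eventually.of_forall fun x hx => ?_) hc2.intervalIntegrable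
    rw [norm_mul, norm_mul, fre_norm, Complex.norm_I, Complex.norm_real, Real.norm_eq_abs, abs_neg, abs_of_nonneg (by positivity)]
    simp
  rw [hR] at hbd
  have hval : ∀ y : ℝ, 0 < y → ‖((y⁻¹ : ℝ) : ℂ) * (Complex.I * fre y)‖ = y⁻¹ := fun y hy => by
    rw [norm_mul, norm_mul, fre_norm, Complex.norm_I, Complex.norm_real, Real.norm_eq_abs, abs_of_pos (inv_pos.2 hy)]
    simp
  have heq : (∫ x in a..b, fre x) = ((b⁻¹ : ℝ) : ℂ) * (Complex.I * fre b) - ((a⁻¹ : ℝ) : ℂ) * (Complex.I * fre a) -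
      ∫ x in a..b, ((-(x ^ 2)⁻¹ : ℝ) : ℂ) * (Complex.I * fre x) := by
    rw [← hFTC]
    ring
  rw [heq]
  refine (norm_sub_le _ _).trans ?_
  have h3 := norm_sub_le (((b⁻¹ : ℝ) : ℂ) * (Complex.I * fre b)) (((a⁻¹ : ℝ) : ℂ) * (Complex.I * fre a))
  rw [hval b hb, hval a ha] at h3
  have e2 : 2 / a = a⁻¹ + a⁻¹ := by
    rw [div_eq_mul_inv]
    ring
  rw [e2]
  linarith

private theorem fre_diff {a b : ℝ} (ha : 0 < a) (hab : a ≤ b) :
    ‖(∫ x in (-b)..b, fre x) - ∫ x in (-a)..a, fre x‖ ≤ 4 / a := by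
  have hi : ∀ u v : ℝ, IntervalIntegrable fre volume u v := fun u v => fre_cont.intervalIntegrable u v
  have h1 : (∫ x in (-b)..b, fre x) = (∫ x in (-b)..(-a), fre x) + ((∫ x in (-a)..a, fre x) + ∫ x in a..b, fre x) := by
    rw [intervalIntegral.integral_add_adjacent_intervals (hi _ _) (hi _ _),
      intervalIntegral.integral_add_adjacent_intervals (hi _ _) (hi _ _)]
  have h2 : (∫ x in (-b)..(-a), fre x) = ∫ x in a..b, fre x := by
    rw [← intervalIntegral.integral_comp_neg]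
    simp only [fre_neg]
  have h3 : (∫ x in (-b)..b, fre x) - (∫ x in (-a)..a, fre x) = (∫ x in a..b, fre x) + ∫ x in a..b, fre x := by
    rw [h1, h2]
    ring
  rw [h3]
  refine (norm_add_le _ _).trans ?_
  have h4 := fre_far ha hab
  have e4 : 4 / a = 2 / a + 2 / a := by ring
  rw [e4]
  linarith

private theorem fre_tendsto : Filter.Tendsto (fun R : ℝ => ∫ x in (-R)..R, fre x) Filter.atTop (nhds kap) := by
  have hc : CauchySeq (fun R : ℝ => ∫ x in (-R)..R, fre x) := by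
    rw [Metric.cauchySeq_iff']
    intro ε hε
    refine ⟨4 / ε + 1, fun n hn => ?_⟩
    have h4 : 0 < 4 / ε := by positivity
    have hpos : 0 < 4 / ε + 1 := by linarith
    rw [dist_eq_norm]
    refine (fre_diff hpos hn).trans_lt ?_
    rw [div_lt_iff₀ hpos]
    have : ε * (4 / ε + 1) = 4 + ε := by field_simp
    rw [this]
    linarith
  obtain ⟨y, hy⟩ := cauchySeq_tendsto_of_complete hc
  have hk : kap = y := by
    unfold kap
    exact hy.limUnder_eq
  rw [hk]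
  exact hy

private theorem fre_kap {R : ℝ} (hR : 0 < R) : ‖(∫ x in (-R)..R, fre x) - kap‖ ≤ 4 / R := by
  have h1 : Filter.Tendsto (fun b : ℝ => ‖(∫ x in (-b)..b, fre x) - ∫ x in (-R)..R, fre x‖) Filter.atTop
      (nhds ‖kap - ∫ x in (-R)..R, fre x‖) := (fre_tendsto.sub_const _).norm
  rw [norm_sub_rev]
  refine le_of_tendsto h1 ?_
  filter_upwards [Filter.eventually_ge_atTop R] with b hb
  exact fre_diff hR hb

/-- PROOF. `e^(-ix²/2) = (i/x) (e^(-ix²/2))'`; integration by parts on `[R, R']`, `0 < R < R'`: the integral is at most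
`1/R + 1/R' + (1/R - 1/R') = 2/R`, the same on `[-R', -R]`.  So the function of `R` is Cauchy at infinity, it tends to `kap`
(`tendsto_nhds_limUnder`), and `‖∫_(-R)^R - kap‖ ≤ 4/R`.  Scaling `x → x/√l`. -/
theorem fresnel : ∃ C : ℝ, 0 ≤ C ∧ ∀ l η : ℝ, 0 < l → 0 < η →
    ‖(∫ x in (-η)..η, Complex.exp (((-(l * x ^ 2 / 2) : ℝ) : ℂ) * Complex.I)) - kap / (Real.sqrt l : ℂ)‖ ≤ C / (l * η) := by
  refine ⟨4, by norm_num, fun l η hl hη => ?_⟩
  have hs : 0 < Real.sqrt l := Real.sqrt_pos.2 hl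
  have hsc : (Real.sqrt l : ℂ) ≠ 0 := by exact_mod_cast hs.ne'
  have h1 : (∫ x in (-η)..η, Complex.exp (((-(l * x ^ 2 / 2) : ℝ) : ℂ) * Complex.I)) =
      ∫ x in (-η)..η, fre (Real.sqrt l * x) := by
    refine intervalIntegral.integral_congr fun x _ => ?_
    show Complex.exp (((-(l * x ^ 2 / 2) : ℝ) : ℂ) * Complex.I) = fre (Real.sqrt l * x)
    unfold fre
    rw [mul_pow, Real.sq_sqrt hl.le]
  have h2 := intervalIntegral.integral_comp_mul_left (a := -η) (b := η) fre hs.ne'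
  rw [h1, h2, mul_neg, Complex.real_smul]
  have h3 : ((((Real.sqrt l)⁻¹ : ℝ) : ℂ) * ∫ x in (-(Real.sqrt l * η))..(Real.sqrt l * η), fre x) - kap / (Real.sqrt l : ℂ) =
      (((Real.sqrt l)⁻¹ : ℝ) : ℂ) * ((∫ x in (-(Real.sqrt l * η))..(Real.sqrt l * η), fre x) - kap) := by
    push_cast
    rw [div_eq_inv_mul]
    ring
  rw [h3, norm_mul, Complex.norm_real, Real.norm_eq_abs, abs_of_pos (inv_pos.2 hs)]
  have h4 := fre_kap (mul_pos hs hη)
  calc (Real.sqrt l)⁻¹ * ‖(∫ x in (-(Real.sqrt l * η))..(Real.sqrt l * η), fre x) - kap‖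
      ≤ (Real.sqrt l)⁻¹ * (4 / (Real.sqrt l * η)) := mul_le_mul_of_nonneg_left h4 (inv_pos.2 hs).le
    _ = 4 / (Real.sqrt l * Real.sqrt l * η) := by
        field_simp
    _ = 4 / (l * η) := by rw [Real.mul_self_sqrt hl.le]

end Pool.Agent.Lib.TW
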