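import Pool.Agent.Lib.TW.Sob

/-!
# TW / Gr: grouping
-/

set_option autoImplicit false

open MeasureTheory

namespace Pool.Agent.Lib.TW

private theorem gr_cont (w : ℝ → ℝ) (N : ℕ) : Continuous (fun u => A w N u) := by
  unfold A ch
  fun_prop

private theorem gr_bdd (w : ℝ → ℝ) (N : ℕ) (u : ℝ) :
    ‖A w N u‖ ≤ ∑ n ∈ Finset.Icc 1 (4 * N), |w ((n : ℝ) / N)| := by
  unfold A
  refine (norm_sum_le _ _).trans (Finset.sum_le_sum fun n _ => ?_)
  rw [norm_mul, norm_ch, mul_one, Complex.norm_real, Real.norm_eq_abs]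

private theorem gr_int (w : ℝ → ℝ) (N : ℕ) (G : ℝ) (hG : 0 < G) (τ : ℝ) :
    Integrable (fun u : ℝ => ‖A w N u‖ ^ 2 * Real.exp (-Real.pi * ((u - τ) / G) ^ 2)) := by
  have hg : Integrable (fun u : ℝ => Real.exp (-Real.pi * ((u - τ) / G) ^ 2)) := by
    have h := (integrable_exp_neg_mul_sq (b := Real.pi / G ^ 2) (by positivity)).comp_sub_right τ
    refine h.congr (Filter.Eventually.of_forall fun u => ?_)
    show Real.exp (-(Real.pi / G ^ 2) * (u - τ) ^ 2) = Real.exp (-Real.pi * ((u - τ) / G) ^ 2)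
    congr 1
    field_simp
  refine hg.bdd_mul (c := (∑ n ∈ Finset.Icc 1 (4 * N), |w ((n : ℝ) / N)|) ^ 2)
    ((gr_cont w N).norm.pow 2).aestronglyMeasurable (Filter.Eventually.of_forall fun u => ?_)
  rw [Real.norm_eq_abs, abs_of_nonneg (by positivity)]
  exact pow_le_pow_left₀ (norm_nonneg _) (gr_bdd w N u) 2

private theorem gr_sum (h : ℝ → ℝ) (h0 : ∀ u, 0 ≤ h u) (hi : Integrable h) (S : Finset ℕ) :
    ∑ p ∈ S, ∫ u in (p : ℝ)..(p + 1), h u ≤ ∫ u, h u := by
  have e1 : ∑ p ∈ S, ∫ u in (p : ℝ)..(p + 1), h u = ∫ u in ⋃ p ∈ S, Set.Ioc (p : ℝ) (p + 1), h u := by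
    rw [integral_biUnion_finset S (fun p _ => measurableSet_Ioc)]
    · refine Finset.sum_congr rfl fun p _ => ?_
      rw [intervalIntegral.integral_of_le (by linarith)]
    · intro p _ q _ hpq
      show Disjoint (Set.Ioc (p : ℝ) (p + 1)) (Set.Ioc (q : ℝ) (q + 1))
      rw [Set.disjoint_left]
      intro x hx hx'
      rcases Nat.lt_or_gt_of_ne hpq with h1 | h1
      · have h2 : (p : ℝ) + 1 ≤ q := by exact_mod_cast h1
        linarith [hx.2, hx'.1]
      · have h2 : (q : ℝ) + 1 ≤ p := by exact_mod_cast h1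
        linarith [hx.1, hx'.2]
    · exact fun p _ => hi.integrableOn
  rw [e1]
  exact setIntegral_le_integral hi (Filter.Eventually.of_forall h0)

/-- PROOF. `sob` at each `p`; the intervals `[p, p+1]` with `⌊p/G⌋ = j` are disjoint and contained in `[jG, (j+1)G]`, where
`exp(-π((u-jG)/G)²) ≥ exp(-π)`, so the sum over these `p` of the integrals is `≤ exp(π) (2 LM w + LM (w log))`. -/
theorem grp (w : ℝ → ℝ) (N : ℕ) (hN : 1 ≤ N) (G : ℕ) (hG : 1 ≤ G) {W : ℝ} (hW : 0 ≤ W) (P : Finset ℕ) (t : ℕ → ℝ)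
    (h1 : ∀ p ∈ P, (p : ℝ) ≤ t p ∧ t p ≤ p + 1 ∧ W ≤ ‖A w N (t p)‖) :
    (P.card : ℝ) * W ^ 2 ≤ Real.exp Real.pi * ∑ j ∈ P.image (fun p => p / G),
      (2 * LM w N G ((j : ℝ) * G) + LM (fun x => w x * Real.log x) N G ((j : ℝ) * G)) := by
  have hGr : (0 : ℝ) < G := by exact_mod_cast hG
  set w' : ℝ → ℝ := fun x => w x * Real.log x with hw'
  set g : ℝ → ℝ := fun u => 2 * ‖A w N u‖ ^ 2 + ‖A w' N u‖ ^ 2 with hg
  set E : ℕ → ℝ → ℝ := fun j u => Real.exp (-Real.pi * ((u - (j : ℝ) * G) / G) ^ 2) with hE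
  have hg0 : ∀ u, 0 ≤ g u := fun u => by
    simp only [hg]
    positivity
  have hgc : Continuous g := by
    simp only [hg]
    exact (continuous_const.mul ((gr_cont w N).norm.pow 2)).add ((gr_cont w' N).norm.pow 2)
  have hEc : ∀ j, Continuous (E j) := fun j => by
    simp only [hE]
    fun_prop
  have hi : ∀ j, Integrable (fun u => g u * E j u) := fun j => by
    have h := ((gr_int w N G hGr ((j : ℝ) * G)).const_mul 2).add (gr_int w' N G hGr ((j : ℝ) * G))
    refine h.congr (Filter.Eventually.of_forall fun u => ?_)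
    simp only [hg, hE, Pi.add_apply]
    ring
  have hLM : ∀ j : ℕ, ∫ u, g u * E j u = 2 * LM w N G ((j : ℝ) * G) + LM w' N G ((j : ℝ) * G) := fun j => by
    unfold LM
    rw [← integral_const_mul, ← integral_add ((gr_int w N G hGr ((j : ℝ) * G)).const_mul 2)
      (gr_int w' N G hGr ((j : ℝ) * G))]
    refine integral_congr_ae (Filter.Eventually.of_forall fun u => ?_)
    simp only [hg, hE]
    ring
  have key : ∀ p ∈ P, W ^ 2 ≤ Real.exp Real.pi * ∫ u in (p : ℝ)..(p + 1), g u * E (p / G) u := by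
    intro p hp
    obtain ⟨ha, hb, hc⟩ := h1 p hp
    have h2 := sob w N hN p (t p) ha hb
    have h3 : W ^ 2 ≤ ‖A w N (t p)‖ ^ 2 := pow_le_pow_left₀ hW hc 2
    refine (h3.trans h2).trans ?_
    rw [← intervalIntegral.integral_const_mul]
    refine intervalIntegral.integral_mono_on (by linarith) (hgc.intervalIntegrable _ _)
      ((continuous_const.mul (hgc.mul (hEc _))).intervalIntegrable _ _) ?_
    intro u hu
    have hq1 : ((p / G : ℕ) : ℝ) * G ≤ p := by exact_mod_cast Nat.div_mul_le_self p G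
    have hq2 : (p : ℝ) + 1 ≤ ((p / G : ℕ) : ℝ) * G + G := by
      have h5 : p + 1 ≤ p / G * G + G := by
        have h6 := Nat.div_add_mod p G
        have h7 := Nat.mod_lt p (by omega : 0 < G)
        have h8 : G * (p / G) = p / G * G := Nat.mul_comm _ _
        omega
      exact_mod_cast h5
    have hx0 : 0 ≤ (u - ((p / G : ℕ) : ℝ) * G) / G := div_nonneg (by linarith [hu.1]) hGr.le
    have hx1 : (u - ((p / G : ℕ) : ℝ) * G) / G ≤ 1 := by
      rw [div_le_one hGr]
      linarith [hu.2]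
    have hx2 : ((u - ((p / G : ℕ) : ℝ) * G) / G) ^ 2 ≤ 1 := pow_le_one₀ hx0 hx1
    have h9 : 1 ≤ Real.exp Real.pi * E (p / G) u := by
      simp only [hE]
      rw [← Real.exp_add]
      refine Real.one_le_exp ?_
      nlinarith [Real.pi_pos]
    calc g u = g u * 1 := (mul_one _).symm
      _ ≤ g u * (Real.exp Real.pi * E (p / G) u) := mul_le_mul_of_nonneg_left h9 (hg0 u)
      _ = Real.exp Real.pi * (g u * E (p / G) u) := by ring
  calc (P.card : ℝ) * W ^ 2 = ∑ p ∈ P, W ^ 2 := by rw [Finset.sum_const, nsmul_eq_mul]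
    _ ≤ ∑ p ∈ P, Real.exp Real.pi * ∫ u in (p : ℝ)..(p + 1), g u * E (p / G) u := Finset.sum_le_sum key
    _ = Real.exp Real.pi * ∑ j ∈ P.image (fun p => p / G), ∑ p ∈ P with p / G = j,
          ∫ u in (p : ℝ)..(p + 1), g u * E (p / G) u := by
        rw [← Finset.mul_sum, Finset.sum_fiberwise_of_maps_to (fun p hp => Finset.mem_image_of_mem _ hp)]
    _ ≤ Real.exp Real.pi * ∑ j ∈ P.image (fun p => p / G), ∫ u, g u * E j u := by
        refine mul_le_mul_of_nonneg_left (Finset.sum_le_sum fun j _ => ?_) (Real.exp_pos _).le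
        have h4 : ∑ p ∈ P with p / G = j, ∫ u in (p : ℝ)..(p + 1), g u * E (p / G) u =
            ∑ p ∈ P with p / G = j, ∫ u in (p : ℝ)..(p + 1), g u * E j u := by
          refine Finset.sum_congr rfl fun p hp => ?_
          rw [(Finset.mem_filter.1 hp).2]
        rw [h4]
        exact gr_sum _ (fun u => mul_nonneg (hg0 u) (Real.exp_pos _).le) (hi j) _
    _ = _ := by
        congr 1
        exact Finset.sum_congr rfl fun j _ => hLM j

end Pool.Agent.Lib.TW
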