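import Pool.Agent.Lib.TW.Vn

/-!
# TW / Kn: the kernel, `k ≥ 1`, no stationary point
-/

set_option autoImplicit false

open MeasureTheory

namespace Pool.Agent.Lib.TW

private theorem kn_log {y : ℝ} (hy : 0 < y) :
    HasDerivAt (fun y : ℝ => Real.log (1 + 1 / y)) (-(1 / (y * (y + 1)))) y := by
  have h0 : y ≠ 0 := hy.ne'
  have h1 : HasDerivAt (fun y : ℝ => 1 + 1 / y) (-(1 / y ^ 2)) y := by
    have h := (hasDerivAt_inv h0).const_add 1
    have e : (fun y : ℝ => 1 + 1 / y) = fun y : ℝ => 1 + y⁻¹ := by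
      funext z
      rw [one_div]
    rw [e, one_div]
    exact h
  have h2 : 1 + 1 / y ≠ 0 := by positivity
  refine (h1.log h2).congr_deriv ?_
  field_simp

private theorem kn_r {y k : ℝ} (hy : 0 < y) (hk : 0 ≤ k) :
    HasDerivAt (fun y : ℝ => y * (y + 1) / ((y + k) * (y + k + 1)))
      (k * (2 * y ^ 2 + 2 * y * k + 2 * y + k + 1) / ((y + k) * (y + k + 1)) ^ 2) y := by
  have h1 : HasDerivAt (fun y : ℝ => y * (y + 1)) (2 * y + 1) y := by
    exact ((hasDerivAt_id' y).mul ((hasDerivAt_id' y).add_const 1)).congr_deriv (by ring)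
  have h2 : HasDerivAt (fun y : ℝ => (y + k) * (y + k + 1)) (2 * (y + k) + 1) y := by
    exact (((hasDerivAt_id' y).add_const k).mul (((hasDerivAt_id' y).add_const k).add_const 1)).congr_deriv (by ring)
  have h3 : (y + k) * (y + k + 1) ≠ 0 := by positivity
  refine (h1.div h2 h3).congr_deriv ?_
  congr 1
  ring

/-- PROOF. On `[Y/8, 8Y - k]` (empty unless `k < 8Y`), phase `φ = -t log(1+1/(y+k)) + t' log(1+1/y)`, `φ' = q/p`, `p = y(y+1) ≤ 96Y²`,
`q = t r(y) - t'`, `r(y) = y(y+1)/((y+k)(y+k+1))`, `q' = t r' ≥ 0` (numerator of `r'`: `k(2y² + 2yk + 2y + k + 1)`).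
`1 - r = k(2y+k+1)/((y+k)(y+k+1)) ≥ k (Y/8)/(96Y²)`, so `t(1-r) ≥ Tk/(1536Y)`; for `|t-t'| ≤ Tk/(3072Y)`: `-q = (t'-t) + t(1-r) ≥
Tk/(3072Y) = Q₀`, and `vcn` with amplitude `b(y+k) conj b'(y)` (`≤ BB'`, derivative `≤ 2BB'/Y`). -/
theorem kk_non : ∃ C : ℝ, 0 ≤ C ∧ ∀ Y : ℝ, 1 / 4 ≤ Y → ∀ (B B' : ℝ) (b b' : ℝ → ℂ), Am1 Y B b → Am1 Y B' b' → ∀ T : ℝ, 1 ≤ T →
    ∀ t t' : ℝ, T / 2 ≤ t → t ≤ 2 * T → T / 2 ≤ t' → t' ≤ 2 * T → ∀ k : ℕ, 1 ≤ k → |t - t'| ≤ T * k / (3072 * Y) →
    ‖KK b b' t t' k‖ ≤ C * B * B' * Y ^ 3 / (T * k) := by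
  obtain ⟨C0, hC0, hv⟩ := vcn
  refine ⟨C0 * 2 * 96 * 3072, by positivity, ?_⟩
  intro Y hY B B' b b' hb hb' T hT t t' ht1 ht2 ht1' ht2' k hk hkt
  have hY0 : 0 < Y := by linarith
  have hk1 : (1 : ℝ) ≤ k := by exact_mod_cast hk
  have hk0 : (0 : ℝ) < k := by linarith
  have hT0 : 0 < T := by linarith
  have ht0 : 0 < t := by linarith
  have hB : 0 ≤ B := (norm_nonneg _).trans (hb.2.2.1 0)
  have hB' : 0 ≤ B' := (norm_nonneg _).trans (hb'.2.2.1 0)
  have hzero : ∀ y : ℝ, y ∉ Set.Icc (Y / 8) (8 * Y - k) →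
      (b (y + k) * ch (1 + 1 / (y + k)) (-t)) * (starRingEnd ℂ) (b' y * ch (1 + 1 / y) (-t')) = 0 := by
    intro y hy
    by_contra h
    apply hy
    have h1 : b (y + k) ≠ 0 := by
      intro h2
      apply h
      rw [h2, zero_mul, zero_mul]
    have h2 : b' y ≠ 0 := by
      intro h2
      apply h
      rw [h2, zero_mul, map_zero, mul_zero]
    have h3 := hb.2.1 _ h1
    have h4 := hb'.2.1 _ h2
    exact ⟨h4.1, by linarith [h3.2]⟩
  rcases lt_or_ge (8 * Y - k) (Y / 8) with hlt | hle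
  · have h1 : KK b b' t t' k = 0 := by
      unfold KK
      rw [← integral_zero ℝ ℂ (μ := volume)]
      refine integral_congr_ae (Filter.Eventually.of_forall fun y => ?_)
      refine hzero y ?_
      rintro ⟨h2, h3⟩
      linarith
    rw [h1, norm_zero]
    positivity
  have hKK : KK b b' t t' k = ∫ y in (Y / 8)..(8 * Y - k), (b (y + k) * (starRingEnd ℂ) (b' y)) *
      Complex.exp (((-t * Real.log (1 + 1 / (y + k)) + t' * Real.log (1 + 1 / y) : ℝ) : ℂ) * Complex.I) := by
    unfold KK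
    rw [← setIntegral_eq_integral_of_forall_compl_eq_zero hzero, integral_Icc_eq_integral_Ioc,
      ← intervalIntegral.integral_of_le hle]
    refine intervalIntegral.integral_congr fun y _ => ?_
    show (b (y + k) * ch (1 + 1 / (y + k)) (-t)) * (starRingEnd ℂ) (b' y * ch (1 + 1 / y) (-t')) = _
    rw [map_mul, conj_ch, neg_neg]
    unfold ch
    have h2 : Complex.exp (((-t * Real.log (1 + 1 / (y + k)) + t' * Real.log (1 + 1 / y) : ℝ) : ℂ) * Complex.I) =
        Complex.exp (((-t * Real.log (1 + 1 / (y + k)) : ℝ) : ℂ) * Complex.I) *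
          Complex.exp (((t' * Real.log (1 + 1 / y) : ℝ) : ℂ) * Complex.I) := by
      rw [← Complex.exp_add]
      congr 1
      push_cast
      ring
    rw [h2]
    ring
  rw [hKK]
  have hd : ∀ y, HasDerivAt b (deriv b y) y := fun y =>
    ((hb.1.differentiable one_ne_zero) y).hasDerivAt
  have hd' : ∀ y, HasDerivAt b' (deriv b' y) y := fun y =>
    ((hb'.1.differentiable one_ne_zero) y).hasDerivAt
  have hcb : Continuous b := hb.1.continuous
  have hcb' : Continuous b' := hb'.1.continuous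
  have hcd : Continuous (deriv b) := hb.1.continuous_deriv le_rfl
  have hcd' : Continuous (deriv b') := hb'.1.continuous_deriv le_rfl
  have hmain := hv (Y / 8) (8 * Y - k) Y (2 * B * B') (96 * Y ^ 2) (T * k / (3072 * Y))
    (fun y => b (y + k) * (starRingEnd ℂ) (b' y))
    (fun y => deriv b (y + k) * (starRingEnd ℂ) (b' y) + b (y + k) * (starRingEnd ℂ) (deriv b' y))
    (fun y => -t * Real.log (1 + 1 / (y + k)) + t' * Real.log (1 + 1 / y))
    (fun y => y * (y + 1)) (fun y => 2 * y + 1)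
    (fun y => t * (y * (y + 1) / ((y + k) * (y + k + 1))) - t')
    (fun y => t * (k * (2 * y ^ 2 + 2 * y * k + 2 * y + k + 1) / ((y + k) * (y + k + 1)) ^ 2))
    hle hY0 (by linarith) (by positivity) ?_ ?_ ?_ ?_ ?_
  · refine hmain.trans (le_of_eq ?_)
    field_simp
  · intro y hy
    have hy0 : 0 < y := by linarith [hy.1]
    refine ⟨?_, ?_, ?_, ?_⟩
    · have h1 := (hd (y + k)).comp_add_const y (k : ℝ)
      have h2 : HasDerivAt (fun y => (starRingEnd ℂ) (b' y)) ((starRingEnd ℂ) (deriv b' y)) y := (hd' y).star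
      exact h1.mul h2
    · have h1 := (kn_log (y := y + k) (by linarith)).comp_add_const y (k : ℝ)
      refine ((h1.const_mul (-t)).add ((kn_log hy0).const_mul t')).congr_deriv ?_
      field_simp
      ring
    · exact ((hasDerivAt_id' y).mul ((hasDerivAt_id' y).add_const 1)).congr_deriv (by ring)
    · exact ((kn_r hy0 hk0.le).const_mul t).sub_const t'
  · apply Continuous.continuousOn
    exact ((hcd.comp (continuous_id.add continuous_const)).mul (Complex.continuous_conj.comp hcb')).add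
      ((hcb.comp (continuous_id.add continuous_const)).mul (Complex.continuous_conj.comp hcd'))
  · fun_prop
  · intro y hy
    have hy0 : 0 < y := by linarith [hy.1]
    have h3 : ((y + k) * (y + k + 1)) ^ 2 ≠ 0 := by positivity
    apply ContinuousAt.continuousWithinAt
    fun_prop (disch := assumption)
  · intro y hy
    have hy1 := hy.1
    have hy2 := hy.2
    have hy0 : 0 < y := by linarith
    have hy3 : y ≤ 8 * Y := by linarith
    refine ⟨?_, ?_, by positivity, ?_, ?_, by positivity, ?_⟩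
    · rw [norm_mul, RCLike.norm_conj]
      have h1 := hb.2.2.1 (y + k)
      have h2 := hb'.2.2.1 y
      have h3 : ‖b (y + k)‖ * ‖b' y‖ ≤ B * B' := mul_le_mul h1 h2 (norm_nonneg _) hB
      nlinarith [mul_nonneg hB hB']
    · have h1 := hb.2.2.1 (y + k)
      have h2 := hb'.2.2.1 y
      have h3 := hb.2.2.2 (y + k)
      have h4 := hb'.2.2.2 y
      have h5 : ‖deriv b (y + k) * (starRingEnd ℂ) (b' y)‖ ≤ B / Y * B' := by
        rw [norm_mul, RCLike.norm_conj]
        exact mul_le_mul h3 h2 (norm_nonneg _) (by positivity)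
      have h6 : ‖b (y + k) * (starRingEnd ℂ) (deriv b' y)‖ ≤ B * (B' / Y) := by
        rw [norm_mul, RCLike.norm_conj]
        exact mul_le_mul h1 h4 (norm_nonneg _) hB
      refine (norm_add_le _ _).trans ((add_le_add h5 h6).trans (le_of_eq ?_))
      ring
    · nlinarith
    · rw [abs_of_pos (by positivity)]
      have h1 : 96 * Y ^ 2 / Y = 96 * Y := by field_simp
      rw [h1]
      linarith
    · have h1 : t * (y * (y + 1) / ((y + k) * (y + k + 1))) - t' =
          -((t' - t) + t * (k * (2 * y + k + 1) / ((y + k) * (y + k + 1)))) := by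
        field_simp
        ring
      have h2 : (k : ℝ) / (384 * Y) ≤ k * (2 * y + k + 1) / ((y + k) * (y + k + 1)) := by
        rw [div_le_div_iff₀ (by positivity) (by positivity)]
        have h3 : (y + k) * (y + k + 1) ≤ 96 * Y ^ 2 := by
          have h4 : y + k ≤ 8 * Y := by linarith
          have h5 : y + k + 1 ≤ 12 * Y := by linarith
          calc (y + k) * (y + k + 1) ≤ (8 * Y) * (12 * Y) := mul_le_mul h4 h5 (by positivity) (by positivity)
            _ = 96 * Y ^ 2 := by ring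
        have h6 : Y / 4 ≤ 2 * y + k + 1 := by linarith
        calc (k : ℝ) * ((y + k) * (y + k + 1)) ≤ k * (96 * Y ^ 2) := mul_le_mul_of_nonneg_left h3 hk0.le
          _ = k * (Y / 4) * (384 * Y) := by ring
          _ ≤ k * (2 * y + k + 1) * (384 * Y) := by
              refine mul_le_mul_of_nonneg_right ?_ (by positivity)
              exact mul_le_mul_of_nonneg_left h6 hk0.le
      have h7 : T / 2 * (k / (384 * Y)) ≤ t * (k * (2 * y + k + 1) / ((y + k) * (y + k + 1))) :=
        mul_le_mul ht1 h2 (by positivity) (by linarith)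
      have h8 : T / 2 * (k / (384 * Y)) = 4 * (T * k / (3072 * Y)) := by
        field_simp
        ring
      have h9 := abs_le.1 hkt
      have h10 : 0 ≤ T * k / (3072 * Y) := by positivity
      show _ ≤ |t * (y * (y + 1) / ((y + k) * (y + k + 1))) - t'|
      rw [h1, abs_neg]
      refine le_trans ?_ (le_abs_self _)
      linarith [h9.2]

end Pool.Agent.Lib.TW
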