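import Pool.Agent.Lib.TW.Vs

/-!
# TW / Ks: the kernel, `k ≥ 1`, in general
-/

set_option autoImplicit false

open MeasureTheory

namespace Pool.Agent.Lib.TW

private theorem ks_log {c : ℝ} {y : ℝ} (hy : 0 < y + c) :
    HasDerivAt (fun y : ℝ => Real.log (1 + 1 / (y + c))) (-(1 / ((y + c) * (y + c + 1)))) y := by
  have h1 : HasDerivAt (fun y : ℝ => y + c) 1 y := (hasDerivAt_id' y).add_const c
  have h2 : HasDerivAt (fun y : ℝ => 1 + 1 / (y + c)) (-(1 / (y + c) ^ 2)) y := by
    have h3 := (h1.fun_inv hy.ne').const_add 1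
    have e : (fun y : ℝ => 1 + 1 / (y + c)) = fun y : ℝ => 1 + (y + c)⁻¹ := by
      funext z
      rw [one_div]
    rw [e]
    exact h3.congr_deriv (by rw [neg_div])
  have hpos : 0 < 1 + 1 / (y + c) := by positivity
  have h4 := h2.log hpos.ne'
  refine h4.congr_deriv ?_
  have h5 : y + c ≠ 0 := hy.ne'
  have h6 : y + c + 1 ≠ 0 := by positivity
  field_simp

private theorem ks_q {c t t' : ℝ} {y : ℝ} (hy : 0 < y) (hc : 0 < c) :
    HasDerivAt (fun y : ℝ => t * (y * (y + 1) / ((y + c) * (y + c + 1))) - t')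
      (t * (c * (2 * y ^ 2 + 2 * y * c + 2 * y + c + 1) / ((y + c) * (y + c + 1)) ^ 2)) y := by
  have h0 : HasDerivAt (fun y : ℝ => y) 1 y := hasDerivAt_id' y
  have h1 := h0.fun_mul (h0.add_const 1)
  have h2 := (h0.add_const c).fun_mul ((h0.add_const c).add_const 1)
  have hne : (y + c) * (y + c + 1) ≠ 0 := by positivity
  have h3 := ((h1.fun_div h2 hne).const_mul t).sub_const t'
  refine h3.congr_deriv ?_
  congr 1
  congr 1
  ring

private theorem ks_phi {c t t' : ℝ} {y : ℝ} (hy : 0 < y) (hc : 0 < c) :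
    HasDerivAt (fun y : ℝ => -t * Real.log (1 + 1 / (y + c)) + t' * Real.log (1 + 1 / y))
      ((t * (y * (y + 1) / ((y + c) * (y + c + 1))) - t') / (y * (y + 1))) y := by
  have h1 := (ks_log (c := c) (y := y) (by positivity)).const_mul (-t)
  have h2 := (ks_log (c := 0) (y := y) (by simpa using hy)).const_mul t'
  simp only [add_zero] at h2
  have h3 := h1.fun_add h2
  refine h3.congr_deriv ?_
  have e1 : y ≠ 0 := hy.ne'
  have e2 : y + 1 ≠ 0 := by positivity
  have e3 : y + c ≠ 0 := by positivity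
  have e4 : y + c + 1 ≠ 0 := by positivity
  field_simp
  ring

/-- PROOF. As in row Kn: `φ' = q/p`, `p = y(y+1) ≤ 96Y²`, `|p'| = 2y+1`, `q = t r(y) - t'`, and
`r' = k(2y²+2yk+2y+k+1)/((y+k)(y+k+1))² ≥ 2ky(y+k)/((y+k)·33(y+k))² ≥ c k/Y²` for `y, y+k ∈ [Y/8, 8Y]`, `Y ≥ 1/4` (`y+k+1 ≤ 33(y+k)`
because `y+k ≥ 1/32`), so `q' ≥ (T/2) c k/Y² = m`, and `vcs`: `√(P/m) ≤ C Y²/√(Tk)`. -/
theorem kk_st : ∃ C : ℝ, 0 ≤ C ∧ ∀ Y : ℝ, 1 / 4 ≤ Y → ∀ (B B' : ℝ) (b b' : ℝ → ℂ), Am1 Y B b → Am1 Y B' b' → ∀ T : ℝ, 1 ≤ T →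
    ∀ t t' : ℝ, T / 2 ≤ t → t ≤ 2 * T → T / 2 ≤ t' → t' ≤ 2 * T → ∀ k : ℕ, 1 ≤ k →
    ‖KK b b' t t' k‖ ≤ C * B * B' * Y ^ 2 / Real.sqrt (T * k) := by
  obtain ⟨C, hC, H⟩ := vcs
  refine ⟨C * 2 * 7680, by positivity, ?_⟩
  intro Y hY B B' b b' hb hb' T hT t t' ht1 _ _ _ k hk
  obtain ⟨hbc, hbs, hb0, hb1⟩ := hb
  obtain ⟨hbc', hbs', hb0', hb1'⟩ := hb'
  have hk1 : (1 : ℝ) ≤ k := by exact_mod_cast hk
  have hB : 0 ≤ B := le_trans (norm_nonneg _) (hb0 0)
  have hB' : 0 ≤ B' := le_trans (norm_nonneg _) (hb0' 0)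
  have hYp : 0 < Y := by linarith
  have hT0 : 0 < T := by linarith
  have hTk : 0 < T * k := by positivity
  set f : ℝ → ℂ := fun y => (b (y + k) * ch (1 + 1 / (y + k)) (-t)) * (starRingEnd ℂ) (b' y * ch (1 + 1 / y) (-t')) with hf
  have hzero : ∀ y, y ∉ Set.Icc (Y / 8) (8 * Y - k) → f y = 0 := by
    intro y hy
    by_contra hne
    apply hy
    have h1 : b (y + k) ≠ 0 := by
      intro h
      apply hne
      simp [hf, h]
    have h2 : b' y ≠ 0 := by
      intro h
      apply hne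
      simp [hf, h]
    have h3 := (hbs _ h1).2
    have h4 := (hbs' _ h2).1
    exact ⟨h4, by linarith⟩
  have hKK : KK b b' t t' k = ∫ y in Set.Icc (Y / 8) (8 * Y - k), f y := by
    unfold KK
    rw [setIntegral_eq_integral_of_forall_compl_eq_zero hzero]
  have hR : 0 ≤ C * 2 * 7680 * B * B' * Y ^ 2 / Real.sqrt (T * k) := by positivity
  by_cases hab : Y / 8 ≤ 8 * Y - k
  swap
  · rw [hKK, Set.Icc_eq_empty hab]
    simpa using hR
  rw [hKK, integral_Icc_eq_integral_Ioc, ← intervalIntegral.integral_of_le hab]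
  have hcongr : ∫ y in (Y / 8)..(8 * Y - k), f y = ∫ y in (Y / 8)..(8 * Y - k),
      (b (y + k) * (starRingEnd ℂ) (b' y)) *
        Complex.exp (((-t * Real.log (1 + 1 / (y + k)) + t' * Real.log (1 + 1 / y) : ℝ) : ℂ) * Complex.I) := by
    apply intervalIntegral.integral_congr
    intro y _
    simp only [hf, map_mul, conj_ch, neg_neg]
    have e : Complex.exp (((-t * Real.log (1 + 1 / (y + k)) + t' * Real.log (1 + 1 / y) : ℝ) : ℂ) * Complex.I) =
        ch (1 + 1 / (y + k)) (-t) * ch (1 + 1 / y) t' := by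
      unfold ch
      rw [← Complex.exp_add]
      congr 1
      push_cast
      ring
    rw [e]
    ring
  rw [hcongr]
  have hder : ∀ y : ℝ, HasDerivAt (fun y : ℝ => b (y + k) * (starRingEnd ℂ) (b' y))
      (deriv b (y + k) * (starRingEnd ℂ) (b' y) + b (y + k) * (starRingEnd ℂ) (deriv b' y)) y := by
    intro y
    have h1 : HasDerivAt b (deriv b (y + k)) (y + k) := (hbc.differentiable (by norm_num)).differentiableAt.hasDerivAt
    have h2 : HasDerivAt (fun y : ℝ => b (y + k)) (deriv b (y + k)) y := h1.comp_add_const y k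
    have h3 : HasDerivAt b' (deriv b' y) y := (hbc'.differentiable (by norm_num)).differentiableAt.hasDerivAt
    have h4 : HasDerivAt (fun y : ℝ => (starRingEnd ℂ) (b' y)) ((starRingEnd ℂ) (deriv b' y)) y := h3.star
    exact h2.fun_mul h4
  have hdb : Continuous (deriv b) := hbc.continuous_deriv (by norm_num)
  have hdb' : Continuous (deriv b') := hbc'.continuous_deriv (by norm_num)
  have hcb : Continuous b := hbc.continuous
  have hcb' : Continuous b' := hbc'.continuous
  have hcβ : Continuous (fun y : ℝ => deriv b (y + k) * (starRingEnd ℂ) (b' y) + b (y + k) * (starRingEnd ℂ) (deriv b' y)) := by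
    fun_prop
  have key := H (Y / 8) (8 * Y - k) Y (2 * (B * B')) (96 * Y ^ 2) (T * k / (589824 * Y ^ 2))
    (fun y => b (y + k) * (starRingEnd ℂ) (b' y))
    (fun y => deriv b (y + k) * (starRingEnd ℂ) (b' y) + b (y + k) * (starRingEnd ℂ) (deriv b' y))
    (fun y => -t * Real.log (1 + 1 / (y + k)) + t' * Real.log (1 + 1 / y))
    (fun y => y * (y + 1)) (fun y => 2 * y + 1)
    (fun y => t * (y * (y + 1) / ((y + k) * (y + k + 1))) - t')
    (fun y => t * (k * (2 * y ^ 2 + 2 * y * k + 2 * y + k + 1) / ((y + k) * (y + k + 1)) ^ 2))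
    hab hYp (by linarith) (by positivity)
    (by
      intro y hy
      have hy0 : 0 < y := lt_of_lt_of_le (by positivity) hy.1
      refine ⟨hder y, ks_phi hy0 (by positivity), ?_, ks_q hy0 (by positivity)⟩
      have h0 : HasDerivAt (fun y : ℝ => y) 1 y := hasDerivAt_id' y
      exact (h0.fun_mul (h0.add_const 1)).congr_deriv (by ring))
    hcβ.continuousOn (by fun_prop)
    (by
      intro y hy
      have hy0 : 0 < y := lt_of_lt_of_le (by positivity) hy.1
      apply ContinuousAt.continuousWithinAt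
      have : ((y + k) * (y + k + 1)) ^ 2 ≠ 0 := by positivity
      fun_prop (disch := assumption))
    (by
      intro y hy
      obtain ⟨hy1, hy2⟩ := hy
      have hy0 : 0 < y := lt_of_lt_of_le (by positivity) hy1
      have hy8 : y ≤ 8 * Y := by linarith
      refine ⟨?_, ?_, by positivity, ?_, ?_, ?_⟩
      · rw [norm_mul, RCLike.norm_conj]
        calc ‖b (y + k)‖ * ‖b' y‖ ≤ B * B' := mul_le_mul (hb0 _) (hb0' _) (norm_nonneg _) hB
          _ ≤ 2 * (B * B') := by nlinarith [mul_nonneg hB hB']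
      · calc ‖deriv b (y + k) * (starRingEnd ℂ) (b' y) + b (y + k) * (starRingEnd ℂ) (deriv b' y)‖
            ≤ ‖deriv b (y + k)‖ * ‖b' y‖ + ‖b (y + k)‖ * ‖deriv b' y‖ := by
              refine (norm_add_le _ _).trans ?_
              rw [norm_mul, norm_mul, RCLike.norm_conj, RCLike.norm_conj]
          _ ≤ (B / Y) * B' + B * (B' / Y) :=
              add_le_add (mul_le_mul (hb1 _) (hb0' _) (norm_nonneg _) (by positivity))
                (mul_le_mul (hb0 _) (hb1' _) (norm_nonneg _) hB)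
          _ = 2 * (B * B') / Y := by ring
      · nlinarith [mul_nonneg hYp.le (by linarith : (0 : ℝ) ≤ 4 * Y - 1)]
      · rw [abs_of_nonneg (by positivity)]
        have e : 96 * Y ^ 2 / Y = 96 * Y := by field_simp
        rw [e]
        linarith
      · have hs1 : y + k ≤ 8 * Y := by linarith
        have hs2 : y + k + 1 ≤ 12 * Y := by linarith
        have hs3 : (y + k) * (y + k + 1) ≤ 96 * Y ^ 2 := by
          calc (y + k) * (y + k + 1) ≤ (8 * Y) * (12 * Y) :=
                mul_le_mul hs1 hs2 (by positivity) (by positivity)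
            _ = 96 * Y ^ 2 := by ring
        have hs4 : ((y + k) * (y + k + 1)) ^ 2 ≤ (96 * Y ^ 2) ^ 2 := by gcongr
        have hs5 : Y ^ 2 / 64 ≤ y * (y + k) := by
          calc Y ^ 2 / 64 = (Y / 8) * (Y / 8) := by ring
            _ ≤ y * (y + k) := mul_le_mul hy1 (by linarith) (by positivity) hy0.le
        have hs6 : (k : ℝ) * (Y ^ 2 / 32) ≤ k * (2 * y ^ 2 + 2 * y * k + 2 * y + k + 1) := by
          apply mul_le_mul_of_nonneg_left _ (by positivity)
          nlinarith [hs5, hy0, hk1]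
        have hs7 : (k : ℝ) / (294912 * Y ^ 2) ≤
            k * (2 * y ^ 2 + 2 * y * k + 2 * y + k + 1) / ((y + k) * (y + k + 1)) ^ 2 := by
          calc (k : ℝ) / (294912 * Y ^ 2) = k * (Y ^ 2 / 32) / (96 * Y ^ 2) ^ 2 := by
                field_simp
                norm_num
            _ ≤ k * (2 * y ^ 2 + 2 * y * k + 2 * y + k + 1) / ((y + k) * (y + k + 1)) ^ 2 :=
                div_le_div₀ (by positivity) hs6 (by positivity) hs4
        calc T * k / (589824 * Y ^ 2) = (T / 2) * (k / (294912 * Y ^ 2)) := by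
              field_simp
              norm_num
          _ ≤ t * (k * (2 * y ^ 2 + 2 * y * k + 2 * y + k + 1) / ((y + k) * (y + k + 1)) ^ 2) :=
              mul_le_mul ht1 hs7 (by positivity) (by linarith))
  refine key.trans ?_
  have hsq : Real.sqrt (96 * Y ^ 2 / (T * k / (589824 * Y ^ 2))) ≤ 7680 * Y ^ 2 / Real.sqrt (T * k) := by
    rw [Real.sqrt_le_left (by positivity), div_pow, mul_pow, Real.sq_sqrt hTk.le]
    have e : 96 * Y ^ 2 / (T * k / (589824 * Y ^ 2)) = 56623104 * (Y ^ 2) ^ 2 / (T * k) := by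
      field_simp
      norm_num
    rw [e]
    gcongr
    norm_num
  calc C * (2 * (B * B')) * Real.sqrt (96 * Y ^ 2 / (T * k / (589824 * Y ^ 2)))
      ≤ C * (2 * (B * B')) * (7680 * Y ^ 2 / Real.sqrt (T * k)) := by gcongr
    _ = C * 2 * 7680 * B * B' * Y ^ 2 / Real.sqrt (T * k) := by ring

end Pool.Agent.Lib.TW
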