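import Pool.Agent.Lib.TW.K0
import Pool.Agent.Lib.TW.Kn
import Pool.Agent.Lib.TW.Ks

/-!
# TW / Km: the kernel sum
-/

set_option autoImplicit false

open MeasureTheory

namespace Pool.Agent.Lib.TW

private theorem km_split (F : ℤ → ℝ) (L : ℕ) : ∑ k ∈ Finset.Icc (-(L : ℤ)) L, F k =
    F 0 + ∑ k ∈ Finset.Icc 1 L, (F (k : ℤ) + F (-(k : ℤ))) := by
  induction L with
  | zero => simp
  | succ L ih =>
    have h : Finset.Icc (-((L + 1 : ℕ) : ℤ)) ((L + 1 : ℕ) : ℤ) =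
        insert ((L + 1 : ℕ) : ℤ) (insert (-((L + 1 : ℕ) : ℤ)) (Finset.Icc (-(L : ℤ)) L)) := by
      ext x
      simp only [Finset.mem_Icc, Finset.mem_insert]
      push_cast
      omega
    rw [h, Finset.sum_insert, Finset.sum_insert, ih, Finset.sum_Icc_succ_top (by omega)]
    · ring
    · simp only [Finset.mem_Icc, not_and, not_le]
      push_cast
      omega
    · simp only [Finset.mem_insert, Finset.mem_Icc, not_or, not_and, not_le]
      push_cast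
      omega

private theorem km_van {Y B B' : ℝ} {b b' : ℝ → ℂ} (hY : 0 < Y) (hb : Am1 Y B b) (hb' : Am1 Y B' b') (t t' k : ℝ)
    (hk : 8 * Y ≤ k) : KK b b' t t' k = 0 := by
  unfold KK
  have h : ∀ y : ℝ, (b (y + k) * ch (1 + 1 / (y + k)) (-t)) * (starRingEnd ℂ) (b' y * ch (1 + 1 / y) (-t')) = 0 := by
    intro y
    by_cases h1 : b' y = 0
    · rw [h1, zero_mul, map_zero, mul_zero]
    · by_cases h2 : b (y + k) = 0
      · rw [h2, zero_mul, zero_mul]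
      · have e1 := (hb'.2.1 y h1).1
        have e2 := (hb.2.1 _ h2).2
        linarith
  simp_rw [h]
  exact integral_zero _ _

private theorem km_neg (b b' : ℝ → ℂ) (t t' k : ℝ) : ‖KK b b' t t' (-k)‖ = ‖KK b' b t' t k‖ := by
  have h1 : KK b b' t t' (-k) = (starRingEnd ℂ) (KK b' b t' t k) := by
    unfold KK
    rw [← integral_add_right_eq_self _ k, ← integral_conj]
    congr 1
    funext y
    have e : y + k + -k = y := by ring
    rw [e, map_mul (starRingEnd ℂ) (b' (y + k) * ch (1 + 1 / (y + k)) (-t')), Complex.conj_conj, mul_comm]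
  rw [h1, RCLike.norm_conj]

private theorem km_harm (Y : ℝ) (hY : 1 / 4 ≤ Y) (L : ℕ) :
    ∑ k ∈ Finset.Icc 1 L, (if (k : ℝ) < 8 * Y then 1 / (k : ℝ) else 0) ≤ 5 * Real.log (2 + Y) := by
  have h1 : ∑ k ∈ Finset.Icc 1 L, (if (k : ℝ) < 8 * Y then 1 / (k : ℝ) else 0) ≤
      ∑ k ∈ Finset.Icc 1 ⌊8 * Y⌋₊, 1 / (k : ℝ) := by
    rw [← Finset.sum_filter]
    refine Finset.sum_le_sum_of_subset_of_nonneg ?_ fun k _ _ => by positivity
    intro k hk
    rw [Finset.mem_filter, Finset.mem_Icc] at hk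
    rw [Finset.mem_Icc]
    exact ⟨hk.1.1, Nat.le_floor hk.2.le⟩
  have h2 : ∑ k ∈ Finset.Icc 1 ⌊8 * Y⌋₊, 1 / (k : ℝ) ≤ 1 + Real.log (8 * Y) := by
    have h3 := harmonic_floor_le_one_add_log (8 * Y) (by linarith)
    rw [harmonic_eq_sum_Icc] at h3
    push_cast at h3
    simpa [one_div] using h3
  have h4 : Real.log (8 * Y) ≤ 3 * Real.log 2 + Real.log (2 + Y) := by
    have e : (8 : ℝ) * Y ≤ 2 ^ 3 * (2 + Y) := by linarith
    have e2 := Real.log_le_log (by linarith) e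
    rw [Real.log_mul (by norm_num : (2 : ℝ) ^ 3 ≠ 0) (by linarith : (2 : ℝ) + Y ≠ 0), Real.log_pow] at e2
    push_cast at e2
    exact e2
  have h5 : Real.log 2 ≤ 0.6931471808 := Real.log_two_lt_d9.le
  have h6 : (0.8 : ℝ) ≤ Real.log (2 + Y) := by
    have e1 : Real.log ((9 : ℝ) / 4) ≤ Real.log (2 + Y) := Real.log_le_log (by norm_num) (by linarith)
    have e2 : Real.log ((9 : ℝ) / 4) = 2 * Real.log (3 / 2) := by
      rw [show (9 : ℝ) / 4 = (3 / 2) ^ 2 by norm_num, Real.log_pow]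
      push_cast
      ring
    have e3 : (0.4 : ℝ) ≤ Real.log (3 / 2) := by
      rw [Real.le_log_iff_exp_le (by norm_num)]
      have e4 := Real.exp_bound' (x := 0.4) (by norm_num) (by norm_num) (n := 4) (by norm_num)
      refine e4.trans ?_
      simp only [Finset.sum_range_succ, Finset.sum_range_zero, Nat.factorial]
      norm_num
    linarith
  linarith

private theorem km_sqrt (n : ℕ) : ∑ k ∈ Finset.Icc 1 n, 1 / Real.sqrt k ≤ 2 * Real.sqrt n := by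
  induction n with
  | zero => simp
  | succ n ih =>
    rw [Finset.sum_Icc_succ_top (by omega)]
    have h0 : (0 : ℝ) < ((n + 1 : ℕ) : ℝ) := by positivity
    have h1 : 0 < Real.sqrt ((n + 1 : ℕ) : ℝ) := Real.sqrt_pos.2 h0
    have h2 : Real.sqrt (n : ℝ) ≤ Real.sqrt ((n + 1 : ℕ) : ℝ) := Real.sqrt_le_sqrt (by push_cast; linarith)
    have h3 : Real.sqrt ((n + 1 : ℕ) : ℝ) * Real.sqrt ((n + 1 : ℕ) : ℝ) = n + 1 := by
      rw [Real.mul_self_sqrt h0.le]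
      push_cast
      ring
    have h4 : Real.sqrt (n : ℝ) * Real.sqrt (n : ℝ) = n := Real.mul_self_sqrt (Nat.cast_nonneg _)
    have h5 : 1 / Real.sqrt ((n + 1 : ℕ) : ℝ) ≤ 2 * (Real.sqrt ((n + 1 : ℕ) : ℝ) - Real.sqrt n) := by
      rw [div_le_iff₀ h1]
      have h6 : 0 ≤ Real.sqrt (n : ℝ) := Real.sqrt_nonneg _
      nlinarith
    linarith

private theorem km_sqrt' (X : ℝ) (hX : 0 ≤ X) (L : ℕ) :
    ∑ k ∈ Finset.Icc 1 L, (if (k : ℝ) < X then 1 / Real.sqrt k else 0) ≤ 2 * Real.sqrt X := by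
  have h1 : ∑ k ∈ Finset.Icc 1 L, (if (k : ℝ) < X then 1 / Real.sqrt k else 0) ≤
      ∑ k ∈ Finset.Icc 1 ⌊X⌋₊, 1 / Real.sqrt k := by
    rw [← Finset.sum_filter]
    refine Finset.sum_le_sum_of_subset_of_nonneg ?_ fun k _ _ => by positivity
    intro k hk
    rw [Finset.mem_filter, Finset.mem_Icc] at hk
    rw [Finset.mem_Icc]
    exact ⟨hk.1.1, Nat.le_floor hk.2.le⟩
  have h2 := km_sqrt ⌊X⌋₊
  have h3 : Real.sqrt (⌊X⌋₊ : ℝ) ≤ Real.sqrt X := Real.sqrt_le_sqrt (Nat.floor_le hX)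
  linarith

/-- PROOF. `k = 0`: `kk_zero` (`min(Y, Y²/|u|) ≤ 2Y/(1+|u|/Y)`, `u = t - t'`).  `k ≥ 1`: zero unless `k < 8Y` (supports); if
`|u| ≤ Tk/(3072Y)` use `kk_non`, the sum over `k < 8Y` is `≤ C Y³ log(2+Y)/T`; else `k < X = 3072Y|u|/T`, `kk_st`,
`sum_(k ≤ X) k^(-1/2) ≤ 2X^(1/2)`, giving `C Y² T^(-1/2) X^(1/2) = C' Y^(5/2) |u|^(1/2)/T`.  `k ≤ -1`: substitution `y → y + |k|` and
conjugation give `KK b' b t' t |k|`. -/
theorem kk_sum : ∃ C : ℝ, 0 ≤ C ∧ ∀ Y : ℝ, 1 / 4 ≤ Y → ∀ (B B' : ℝ) (b b' : ℝ → ℂ), Am1 Y B b → Am1 Y B' b' → ∀ T : ℝ, 1 ≤ T →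
    ∀ t t' : ℝ, T / 2 ≤ t → t ≤ 2 * T → T / 2 ≤ t' → t' ≤ 2 * T → ∀ L : ℕ,
    ∑ k ∈ Finset.Icc (-(L : ℤ)) L, ‖KK b b' t t' k‖ ≤ C * B * B' * SS Y T (t - t') := by
  obtain ⟨C0, hC0, h0⟩ := kk_zero
  obtain ⟨C1, hC1, h1⟩ := kk_non
  obtain ⟨C2, hC2, h2⟩ := kk_st
  refine ⟨2 * C0 + 10 * C1 + 224 * C2, by positivity, ?_⟩
  intro Y hY B B' b b' hb hb' T hT t t' ht1 ht2 ht1' ht2' L
  have hY0 : 0 < Y := by linarith
  have hT0 : 0 < T := by linarith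
  have hB : 0 ≤ B := (norm_nonneg (b 0)).trans (hb.2.2.1 0)
  have hB' : 0 ≤ B' := (norm_nonneg (b' 0)).trans (hb'.2.2.1 0)
  -- one value of k
  have pt : ∀ (B B' : ℝ) (b b' : ℝ → ℂ), 0 ≤ B → 0 ≤ B' → Am1 Y B b → Am1 Y B' b' → ∀ t t' : ℝ, T / 2 ≤ t → t ≤ 2 * T →
      T / 2 ≤ t' → t' ≤ 2 * T → ∀ k : ℕ, 1 ≤ k → ‖KK b b' t t' k‖ ≤
        C1 * B * B' * (Y ^ 3 / T) * (if (k : ℝ) < 8 * Y then 1 / (k : ℝ) else 0) +
        C2 * B * B' * (Y ^ 2 / Real.sqrt T) * (if (k : ℝ) < 3072 * Y * |t - t'| / T then 1 / Real.sqrt k else 0) := by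
    intro B B' b b' hB hB' hb hb' t t' ht1 ht2 ht1' ht2' k hk
    have hk0 : (0 : ℝ) < k := by exact_mod_cast hk
    have n1 : 0 ≤ C1 * B * B' * (Y ^ 3 / T) * (if (k : ℝ) < 8 * Y then 1 / (k : ℝ) else 0) := by
      refine mul_nonneg (by positivity) ?_
      split_ifs
      · positivity
      · exact le_rfl
    have n2 : 0 ≤ C2 * B * B' * (Y ^ 2 / Real.sqrt T) *
        (if (k : ℝ) < 3072 * Y * |t - t'| / T then 1 / Real.sqrt k else 0) := by
      refine mul_nonneg (by positivity) ?_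
      split_ifs
      · positivity
      · exact le_rfl
    by_cases hk8 : (k : ℝ) < 8 * Y
    · by_cases hu : |t - t'| ≤ T * k / (3072 * Y)
      · have e := h1 Y hY B B' b b' hb hb' T hT t t' ht1 ht2 ht1' ht2' k hk hu
        have e2 : C1 * B * B' * Y ^ 3 / (T * k) =
            C1 * B * B' * (Y ^ 3 / T) * (if (k : ℝ) < 8 * Y then 1 / (k : ℝ) else 0) := by
          rw [if_pos hk8]
          field_simp
        rw [e2] at e
        linarith
      · have e := h2 Y hY B B' b b' hb hb' T hT t t' ht1 ht2 ht1' ht2' k hk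
        have hkX : (k : ℝ) < 3072 * Y * |t - t'| / T := by
          rw [not_le, div_lt_iff₀ (by positivity)] at hu
          rw [lt_div_iff₀ hT0]
          linarith
        have e2 : C2 * B * B' * Y ^ 2 / Real.sqrt (T * k) =
            C2 * B * B' * (Y ^ 2 / Real.sqrt T) *
              (if (k : ℝ) < 3072 * Y * |t - t'| / T then 1 / Real.sqrt k else 0) := by
          rw [if_pos hkX, Real.sqrt_mul hT0.le]
          have s1 : Real.sqrt T ≠ 0 := (Real.sqrt_pos.2 hT0).ne'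
          have s2 : Real.sqrt (k : ℝ) ≠ 0 := (Real.sqrt_pos.2 hk0).ne'
          field_simp
        rw [e2] at e
        linarith
    · rw [km_van hY0 hb hb' t t' k (not_lt.1 hk8), norm_zero]
      linarith
  -- k = 0
  obtain ⟨z1, z2, -⟩ := h0 Y hY B B' b b' hb hb' t t'
  have hd : 0 < 1 + |t - t'| / Y := by positivity
  have z3 : ‖KK b b' t t' 0‖ ≤ 2 * C0 * B * B' * (Y / (1 + |t - t'| / Y)) := by
    rw [mul_div_assoc', le_div_iff₀ hd]
    have e1 : ‖KK b b' t t' 0‖ * (|t - t'| / Y) ≤ C0 * B * B' * Y := by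
      rw [mul_div_assoc', div_le_iff₀ hY0]
      linarith
    have e2 : ‖KK b b' t t' 0‖ * (1 + |t - t'| / Y) = ‖KK b b' t t' 0‖ + ‖KK b b' t t' 0‖ * (|t - t'| / Y) := by ring
    rw [e2]
    linarith
  rw [km_split]
  have hsum : ∑ k ∈ Finset.Icc 1 L, (‖KK b b' t t' ((k : ℤ) : ℝ)‖ + ‖KK b b' t t' ((-(k : ℤ) : ℤ) : ℝ)‖) ≤
      ∑ k ∈ Finset.Icc 1 L, (2 * C1 * B * B' * (Y ^ 3 / T) * (if (k : ℝ) < 8 * Y then 1 / (k : ℝ) else 0) +
        2 * C2 * B * B' * (Y ^ 2 / Real.sqrt T) *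
          (if (k : ℝ) < 3072 * Y * |t - t'| / T then 1 / Real.sqrt k else 0)) := by
    refine Finset.sum_le_sum fun k hk => ?_
    have hk1 := (Finset.mem_Icc.1 hk).1
    have e1 := pt B B' b b' hB hB' hb hb' t t' ht1 ht2 ht1' ht2' k hk1
    have e2 := pt B' B b' b hB' hB hb' hb t' t ht1' ht2' ht1 ht2 k hk1
    rw [abs_sub_comm t' t] at e2
    have e3 : ‖KK b b' t t' ((-(k : ℤ) : ℤ) : ℝ)‖ = ‖KK b' b t' t k‖ := by
      rw [Int.cast_neg, Int.cast_natCast, km_neg]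
    rw [e3, Int.cast_natCast]
    have e4 : C1 * B' * B * (Y ^ 3 / T) = C1 * B * B' * (Y ^ 3 / T) := by ring
    have e5 : C2 * B' * B * (Y ^ 2 / Real.sqrt T) = C2 * B * B' * (Y ^ 2 / Real.sqrt T) := by ring
    rw [e4, e5] at e2
    linarith
  have hR : ∀ (c d : ℝ) (f g : ℕ → ℝ), ∑ k ∈ Finset.Icc 1 L, (c * f k + d * g k) =
      c * ∑ k ∈ Finset.Icc 1 L, f k + d * ∑ k ∈ Finset.Icc 1 L, g k := by
    intro c d f g
    rw [Finset.sum_add_distrib, ← Finset.mul_sum, ← Finset.mul_sum]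
  rw [hR] at hsum
  have hX : 0 ≤ 3072 * Y * |t - t'| / T := by positivity
  have s1 := mul_le_mul_of_nonneg_left (km_harm Y hY L) (by positivity : 0 ≤ 2 * C1 * B * B' * (Y ^ 3 / T))
  have s2 := mul_le_mul_of_nonneg_left (km_sqrt' _ hX L) (by positivity : 0 ≤ 2 * C2 * B * B' * (Y ^ 2 / Real.sqrt T))
  have s3 : 2 * C2 * B * B' * (Y ^ 2 / Real.sqrt T) * (2 * Real.sqrt (3072 * Y * |t - t'| / T)) ≤
      224 * C2 * B * B' * (Y ^ (5 / 2 : ℝ) * |t - t'| ^ (1 / 2 : ℝ) / T) := by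
    have q1 : Real.sqrt (3072 * Y * |t - t'| / T) =
        Real.sqrt 3072 * Real.sqrt Y * Real.sqrt |t - t'| / Real.sqrt T := by
      rw [Real.sqrt_div (by positivity), Real.sqrt_mul (by positivity), Real.sqrt_mul (by norm_num)]
    have q2 : Y ^ (5 / 2 : ℝ) = Y ^ 2 * Real.sqrt Y := by
      rw [show (5 / 2 : ℝ) = ((2 : ℕ) : ℝ) + 1 / 2 by norm_num, Real.rpow_add hY0, Real.rpow_natCast, ← Real.sqrt_eq_rpow]
    have q3 : |t - t'| ^ (1 / 2 : ℝ) = Real.sqrt |t - t'| := (Real.sqrt_eq_rpow _).symm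
    have q4 : Real.sqrt 3072 ≤ 56 := by
      rw [Real.sqrt_le_left (by norm_num)]
      norm_num
    have q5 : Real.sqrt T * Real.sqrt T = T := Real.mul_self_sqrt hT0.le
    have q6 : 0 < Real.sqrt T := Real.sqrt_pos.2 hT0
    rw [q1, q2, q3]
    have q7 : 2 * C2 * B * B' * (Y ^ 2 / Real.sqrt T) *
        (2 * (Real.sqrt 3072 * Real.sqrt Y * Real.sqrt |t - t'| / Real.sqrt T)) =
        4 * C2 * B * B' * (Y ^ 2 * Real.sqrt Y * Real.sqrt |t - t'| / (Real.sqrt T * Real.sqrt T)) * Real.sqrt 3072 := by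
      field_simp
      ring
    rw [q7, q5]
    have q8 := mul_le_mul_of_nonneg_left q4
      (by positivity : 0 ≤ 4 * C2 * B * B' * (Y ^ 2 * Real.sqrt Y * Real.sqrt |t - t'| / T))
    linarith
  have hBB : 0 ≤ B * B' := mul_nonneg hB hB'
  have a1 : 0 ≤ Y / (1 + |t - t'| / Y) := by positivity
  have a2 : 0 ≤ Y ^ 3 * Real.log (2 + Y) / T := by
    have : 0 ≤ Real.log (2 + Y) := Real.log_nonneg (by linarith)
    positivity
  have a3 : 0 ≤ Y ^ (5 / 2 : ℝ) * |t - t'| ^ (1 / 2 : ℝ) / T := by positivity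
  have s4 : 2 * C1 * B * B' * (Y ^ 3 / T) * (5 * Real.log (2 + Y)) =
      10 * C1 * B * B' * (Y ^ 3 * Real.log (2 + Y) / T) := by ring
  rw [s4] at s1
  have f1 : ‖KK b b' t t' ((0 : ℤ) : ℝ)‖ = ‖KK b b' t t' 0‖ := by rw [Int.cast_zero]
  rw [f1]
  unfold SS
  have c1 : 2 * C0 * B * B' * (Y / (1 + |t - t'| / Y)) ≤
      (2 * C0 + 10 * C1 + 224 * C2) * B * B' * (Y / (1 + |t - t'| / Y)) := by
    have : 0 ≤ (10 * C1 + 224 * C2) * (B * B') * (Y / (1 + |t - t'| / Y)) := by positivity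
    linarith
  have c2 : 10 * C1 * B * B' * (Y ^ 3 * Real.log (2 + Y) / T) ≤
      (2 * C0 + 10 * C1 + 224 * C2) * B * B' * (Y ^ 3 * Real.log (2 + Y) / T) := by
    have : 0 ≤ (2 * C0 + 224 * C2) * (B * B') * (Y ^ 3 * Real.log (2 + Y) / T) := mul_nonneg (by positivity) a2
    linarith
  have c3 : 224 * C2 * B * B' * (Y ^ (5 / 2 : ℝ) * |t - t'| ^ (1 / 2 : ℝ) / T) ≤
      (2 * C0 + 10 * C1 + 224 * C2) * B * B' * (Y ^ (5 / 2 : ℝ) * |t - t'| ^ (1 / 2 : ℝ) / T) := by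
    have : 0 ≤ (2 * C0 + 10 * C1) * (B * B') * (Y ^ (5 / 2 : ℝ) * |t - t'| ^ (1 / 2 : ℝ) / T) := by positivity
    linarith
  rw [mul_add, mul_add]
  linarith

end Pool.Agent.Lib.TW
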