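import Pool.Agent.Lib.TW.Wi

/-!
# TW / La: large values, all points
-/

set_option autoImplicit false

open MeasureTheory

namespace Pool.Agent.Lib.TW

private lemma la_bound (w : ℝ → ℝ) (hw : Wt w) : ∃ B : ℝ, 1 ≤ B ∧ ∀ x, |w x| ≤ B := by
  obtain ⟨hc, h0, h4, -⟩ := hw
  obtain ⟨B, hB⟩ := (isCompact_Icc (a := (1 / 2 : ℝ)) (b := 4)).exists_bound_of_continuousOn
    hc.continuous.continuousOn
  refine ⟨max B 1, le_max_right _ _, fun x => ?_⟩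
  by_cases h1 : x ≤ 1 / 2
  · rw [h0 x h1, abs_zero]
    exact le_trans zero_le_one (le_max_right _ _)
  by_cases h2 : 4 ≤ x
  · rw [h4 x h2, abs_zero]
    exact le_trans zero_le_one (le_max_right _ _)
  · push Not at h1 h2
    exact (hB x ⟨h1.le, h2.le⟩).trans (le_max_left _ _)

private lemma la_A (w : ℝ → ℝ) (B : ℝ) (hB : ∀ x, |w x| ≤ B) (N : ℕ) (t : ℝ) : ‖A w N t‖ ≤ 4 * N * B := by
  unfold A
  calc ‖∑ n ∈ Finset.Icc 1 (4 * N), ((w ((n : ℝ) / N) : ℝ) : ℂ) * ch n (-t)‖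
      ≤ ∑ n ∈ Finset.Icc 1 (4 * N), ‖((w ((n : ℝ) / N) : ℝ) : ℂ) * ch n (-t)‖ := norm_sum_le _ _
    _ ≤ ∑ n ∈ Finset.Icc 1 (4 * N), B := by
        refine Finset.sum_le_sum fun n _ => ?_
        rw [norm_mul, norm_ch, mul_one, Complex.norm_real]
        exact hB _
    _ = 4 * N * B := by
        rw [Finset.sum_const, Nat.card_Icc, Nat.add_sub_cancel, nsmul_eq_mul]
        push_cast
        ring

private lemma la_cover (P : Finset ℕ) (T D K : ℝ) (hD : 0 < D) (hT : 0 ≤ T) (hK : 0 ≤ K)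
    (hP : ∀ p ∈ P, (p : ℝ) ≤ 2 * T)
    (h : ∀ Q : Finset ℕ, Q ⊆ P → (∀ p ∈ Q, ∀ q ∈ Q, |(p : ℝ) - q| ≤ D) → (Q.card : ℝ) ≤ K) :
    (P.card : ℝ) ≤ (2 * T / D + 1) * K := by
  classical
  have h1 : ∀ p ∈ P, ⌊(p : ℝ) / D⌋₊ ∈ Finset.range (⌊2 * T / D⌋₊ + 1) := by
    intro p hp
    rw [Finset.mem_range, Nat.lt_succ_iff]
    exact Nat.floor_le_floor (div_le_div_of_nonneg_right (hP p hp) hD.le)
  have h2 : P.card = ∑ j ∈ Finset.range (⌊2 * T / D⌋₊ + 1), (P.filter fun p : ℕ => ⌊(p : ℝ) / D⌋₊ = j).card :=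
    Finset.card_eq_sum_card_fiberwise h1
  rw [h2]
  push_cast
  have h3 : ∀ j ∈ Finset.range (⌊2 * T / D⌋₊ + 1),
      ((P.filter fun p : ℕ => ⌊(p : ℝ) / D⌋₊ = j).card : ℝ) ≤ K := by
    intro j _
    refine h _ (Finset.filter_subset _ _) fun p hp q hq => ?_
    have hp2 := (Finset.mem_filter.1 hp).2
    have hq2 := (Finset.mem_filter.1 hq).2
    have p0 : (0 : ℝ) ≤ (p : ℝ) / D := by positivity
    have q0 : (0 : ℝ) ≤ (q : ℝ) / D := by positivity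
    have a1 := Nat.floor_le p0
    have a2 := Nat.lt_floor_add_one ((p : ℝ) / D)
    have b1 := Nat.floor_le q0
    have b2 := Nat.lt_floor_add_one ((q : ℝ) / D)
    rw [hp2] at a1 a2
    rw [hq2] at b1 b2
    have c1 : (j : ℝ) * D ≤ p := (le_div_iff₀ hD).1 a1
    have c2 : (p : ℝ) < (j + 1) * D := (div_lt_iff₀ hD).1 a2
    have c3 : (j : ℝ) * D ≤ q := (le_div_iff₀ hD).1 b1
    have c4 : (q : ℝ) < (j + 1) * D := (div_lt_iff₀ hD).1 b2
    rw [abs_le]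
    constructor <;> nlinarith
  calc ∑ j ∈ Finset.range (⌊2 * T / D⌋₊ + 1), ((P.filter fun p : ℕ => ⌊(p : ℝ) / D⌋₊ = j).card : ℝ)
      ≤ ∑ _j ∈ Finset.range (⌊2 * T / D⌋₊ + 1), K := Finset.sum_le_sum h3
    _ = ((⌊2 * T / D⌋₊ : ℝ) + 1) * K := by
        rw [Finset.sum_const, Finset.card_range, nsmul_eq_mul]
        push_cast
        ring
    _ ≤ (2 * T / D + 1) * K := by
        refine mul_le_mul_of_nonneg_right ?_ hK
        have := Nat.floor_le (show (0 : ℝ) ≤ 2 * T / D by positivity)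
        linarith

private lemma la_card (P : Finset ℕ) (T : ℝ) (hT : 1 ≤ T) (hP : ∀ p ∈ P, (p : ℝ) ≤ 2 * T) :
    (P.card : ℝ) ≤ 3 * T := by
  have h1 : P ⊆ Finset.range (⌊2 * T⌋₊ + 1) := by
    intro p hp
    rw [Finset.mem_range, Nat.lt_succ_iff]
    exact Nat.le_floor (hP p hp)
  have h2 := Finset.card_le_card h1
  rw [Finset.card_range] at h2
  have h3 : (P.card : ℝ) ≤ (⌊2 * T⌋₊ : ℝ) + 1 := by exact_mod_cast h2
  have h4 := Nat.floor_le (show (0 : ℝ) ≤ 2 * T by linarith)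
  linarith

/-- PROOF (over `window`). Take `ε' = min(ε,1)/1000` in `window`.  `P ⊆ [T-1, 2T]` is covered by `≤ 2 + T/(G³T^(-10ε'))` windows of length
`G³T^(-10ε')`, so `|P| ≤ C T^(17ε') (1 + T/G³)²` when `G` is admissible.  `G = ⌊c₀' W²/N⌋`, `c₀'` small: if `G < T^(6ε')` or `G < 1` then
`W² ≤ C N T^(6ε')`, `T² N⁶/W¹² ≥ c T^(2-36ε')` and the claim is trivial (`|P| ≤ 2T+2`); `G ≤ T/4` because `W ≤ 4 B N` (else `P = ∅`);
`G ≥ c W²/N`, so `T/G³ ≤ C T N³/W⁶`. -/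
theorem large (w : ℝ → ℝ) (hw : Wt w) (hw1 : Wt fun x => w x * Real.log x) {ε : ℝ} (hε : 0 < ε) :
    ∃ C : ℝ, 0 ≤ C ∧ ∀ T : ℝ, 1 ≤ T → ∀ N : ℕ, 1 ≤ N → (N : ℝ) ≤ T ^ (19 / 20 : ℝ) → ∀ W : ℝ, 0 < W → ∀ (P : Finset ℕ) (t : ℕ → ℝ),
      (∀ p ∈ P, (p : ℝ) ≤ t p ∧ t p ≤ p + 1 ∧ T ≤ t p ∧ t p ≤ 2 * T ∧ W ≤ ‖A w N (t p)‖) →
      (P.card : ℝ) ≤ C * T ^ ε * (1 + T ^ 2 * (N : ℝ) ^ 6 / W ^ 12) := by
  obtain ⟨B, hB1, hB⟩ := la_bound w hw
  set e : ℝ := min ε 1 / 1000 with he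
  have he0 : 0 < e := by
    rw [he]
    have : 0 < min ε 1 := lt_min hε one_pos
    positivity
  have he1 : e ≤ 1 / 1000 := by
    rw [he]
    have : min ε 1 ≤ 1 := min_le_right _ _
    linarith
  have he2 : 1000 * e ≤ ε := by
    rw [he]
    have : min ε 1 ≤ ε := min_le_left _ _
    linarith
  obtain ⟨c₀, hc₀, C, hC, hwin⟩ := window w hw hw1 he0 he1
  have hB0 : 0 < B := by linarith
  set c : ℝ := min c₀ (1 / (64 * B ^ 2)) with hc
  have hc0 : 0 < c := by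
    rw [hc]
    exact lt_min hc₀ (by positivity)
  have hcc : c ≤ c₀ := min_le_left _ _
  have hcB : c * (64 * B ^ 2) ≤ 1 := by
    have : c ≤ 1 / (64 * B ^ 2) := min_le_right _ _
    rwa [le_div_iff₀ (by positivity)] at this
  refine ⟨3 * (64 / c ^ 6) + 4 * C * (1 + 64 / c ^ 6), by positivity, fun T hT N hN hNT W hW P t hP => ?_⟩
  have hT0 : 0 < T := by linarith
  have hN0 : (0 : ℝ) < N := by
    have : 0 < N := hN
    exact_mod_cast this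
  have hTε : 1 ≤ T ^ ε := Real.one_le_rpow hT hε.le
  set X : ℝ := T ^ 2 * (N : ℝ) ^ 6 / W ^ 12 with hX
  have hX0 : 0 ≤ X := by positivity
  have hPT : ∀ p ∈ P, (p : ℝ) ≤ 2 * T := fun p hp => by
    obtain ⟨h1, -, -, h4, -⟩ := hP p hp
    linarith
  have hNT' : (N : ℝ) ≤ T := by
    refine hNT.trans ?_
    calc T ^ (19 / 20 : ℝ) ≤ T ^ (1 : ℝ) := Real.rpow_le_rpow_of_exponent_le hT (by norm_num)
      _ = T := Real.rpow_one T
  have hq0 : 0 ≤ 3 * (64 / c ^ 6) := by positivity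
  have hq1 : 0 ≤ 4 * C * (1 + 64 / c ^ 6) := by positivity
  rcases P.eq_empty_or_nonempty with hPe | ⟨p0, hp0⟩
  · rw [hPe, Finset.card_empty, Nat.cast_zero]
    positivity
  have hWB : W ≤ 4 * N * B := (hP p0 hp0).2.2.2.2.trans (la_A w B hB N _)
  set G : ℕ := ⌊c * W ^ 2 / N⌋₊ with hG
  have hG1 : (G : ℝ) ≤ c * W ^ 2 / N := Nat.floor_le (by positivity)
  have hG2 : c * W ^ 2 / N < G + 1 := Nat.lt_floor_add_one _
  have hG1' : (G : ℝ) * N ≤ c * W ^ 2 := (le_div_iff₀ hN0).1 hG1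
  have hG2' : c * W ^ 2 < (G + 1) * N := (div_lt_iff₀ hN0).1 hG2
  by_cases hGc : 1 ≤ G ∧ T ^ (6 * e) ≤ G
  · obtain ⟨hGa, hGb⟩ := hGc
    have hGr : (1 : ℝ) ≤ G := by exact_mod_cast hGa
    have hG0 : (0 : ℝ) < G := by linarith
    have hGN : (G : ℝ) * N ≤ c₀ * W ^ 2 := hG1'.trans (mul_le_mul_of_nonneg_right hcc (by positivity))
    have hGT : (G : ℝ) ≤ T / 4 := by
      have h1 : W ^ 2 ≤ (4 * N * B) ^ 2 := pow_le_pow_left₀ hW.le hWB 2
      have h2 : (G : ℝ) * N ≤ N / 4 * N := by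
        calc (G : ℝ) * N ≤ c * W ^ 2 := hG1'
          _ ≤ c * (4 * N * B) ^ 2 := mul_le_mul_of_nonneg_left h1 hc0.le
          _ = c * (64 * B ^ 2) * (N / 4 * N) := by ring
          _ ≤ 1 * (N / 4 * N) := mul_le_mul_of_nonneg_right hcB (by positivity)
          _ = N / 4 * N := one_mul _
      have h3 : (G : ℝ) ≤ N / 4 := le_of_mul_le_mul_right h2 hN0
      linarith
    set D : ℝ := (G : ℝ) ^ 3 * T ^ (-(10 * e)) with hD
    have hD0 : 0 < D := by positivity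
    set a : ℝ := T / (G : ℝ) ^ 3 with ha
    have ha0 : 0 ≤ a := by positivity
    have hK0 : 0 ≤ C * T ^ (6 * e) * (1 + a) := by positivity
    have hcov := la_cover P T D (C * T ^ (6 * e) * (1 + a)) hD0 hT0.le hK0 hPT fun Q hQ hd =>
      hwin T hT N G hN hGa hNT W hW hGN hGb hGT Q t (fun p hp => hP p (hQ hp)) hd
    set u : ℝ := T ^ (10 * e) with hu
    have hu1 : 1 ≤ u := Real.one_le_rpow hT (by positivity)
    have hDa : 2 * T / D = 2 * u * a := by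
      rw [hD, Real.rpow_neg hT0.le, ha, hu]
      have h1 : T ^ (10 * e) ≠ 0 := (Real.rpow_pos_of_pos hT0 _).ne'
      field_simp
    -- `a ≤ 8 T N^3 / (c^3 W^6)`
    have hcW : c * W ^ 2 ≤ 2 * ((G : ℝ) * N) := by nlinarith
    have hcW3 : (c * W ^ 2) ^ 3 ≤ (2 * ((G : ℝ) * N)) ^ 3 := pow_le_pow_left₀ (by positivity) hcW 3
    have ha1 : a ≤ 8 * T * (N : ℝ) ^ 3 / (c ^ 3 * W ^ 6) := by
      rw [ha, div_le_div_iff₀ (by positivity) (by positivity)]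
      have h1 : c ^ 3 * W ^ 6 ≤ 8 * ((G : ℝ) ^ 3 * (N : ℝ) ^ 3) := by
        calc c ^ 3 * W ^ 6 = (c * W ^ 2) ^ 3 := by ring
          _ ≤ (2 * ((G : ℝ) * N)) ^ 3 := hcW3
          _ = 8 * ((G : ℝ) ^ 3 * (N : ℝ) ^ 3) := by ring
      calc T * (c ^ 3 * W ^ 6) ≤ T * (8 * ((G : ℝ) ^ 3 * (N : ℝ) ^ 3)) := mul_le_mul_of_nonneg_left h1 hT0.le
        _ = 8 * T * (N : ℝ) ^ 3 * (G : ℝ) ^ 3 := by ring
    have ha2 : a ^ 2 ≤ 64 / c ^ 6 * X := by
      calc a ^ 2 ≤ (8 * T * (N : ℝ) ^ 3 / (c ^ 3 * W ^ 6)) ^ 2 := pow_le_pow_left₀ ha0 ha1 2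
        _ = 64 / c ^ 6 * X := by
          rw [hX]
          field_simp
          ring
    have hT16 : u * T ^ (6 * e) ≤ T ^ ε := by
      rw [hu, ← Real.rpow_add hT0]
      exact Real.rpow_le_rpow_of_exponent_le hT (by linarith)
    have h6 : 0 ≤ T ^ (6 * e) := Real.rpow_nonneg hT0.le _
    have hr : 0 ≤ 64 / c ^ 6 := by positivity
    calc (P.card : ℝ) ≤ (2 * T / D + 1) * (C * T ^ (6 * e) * (1 + a)) := hcov
      _ ≤ (2 * u * (1 + a)) * (C * T ^ (6 * e) * (1 + a)) := by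
          refine mul_le_mul_of_nonneg_right ?_ hK0
          rw [hDa]
          nlinarith
      _ = 2 * C * (u * T ^ (6 * e)) * (1 + a) ^ 2 := by ring
      _ ≤ 2 * C * T ^ ε * (1 + a) ^ 2 := by
          refine mul_le_mul_of_nonneg_right ?_ (by positivity)
          exact mul_le_mul_of_nonneg_left hT16 (by positivity)
      _ ≤ 2 * C * T ^ ε * (2 * ((1 + 64 / c ^ 6) * (1 + X))) := by
          refine mul_le_mul_of_nonneg_left ?_ (by positivity)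
          have h7 : (1 + a) ^ 2 ≤ 2 * (1 + a ^ 2) := by nlinarith [sq_nonneg (1 - a)]
          have h8 : 1 + 64 / c ^ 6 * X ≤ (1 + 64 / c ^ 6) * (1 + X) := by nlinarith
          linarith
      _ = 4 * C * (1 + 64 / c ^ 6) * (T ^ ε * (1 + X)) := by ring
      _ ≤ (3 * (64 / c ^ 6) + 4 * C * (1 + 64 / c ^ 6)) * (T ^ ε * (1 + X)) := by
          refine mul_le_mul_of_nonneg_right (by linarith) (by positivity)
      _ = (3 * (64 / c ^ 6) + 4 * C * (1 + 64 / c ^ 6)) * T ^ ε * (1 + X) := by ring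
  · -- `c W^2 ≤ 2 T^(6e) N`
    have h6 : 1 ≤ T ^ (6 * e) := Real.one_le_rpow hT (by positivity)
    have hGs : (G : ℝ) + 1 ≤ 2 * T ^ (6 * e) := by
      by_cases h1 : 1 ≤ G
      · have h2 : (G : ℝ) < T ^ (6 * e) := by
          by_contra h3
          exact hGc ⟨h1, not_lt.1 h3⟩
        linarith
      · have h2 : G = 0 := by omega
        rw [h2, Nat.cast_zero]
        linarith
    have hcW : c * W ^ 2 ≤ 2 * T ^ (6 * e) * N :=
      hG2'.le.trans (mul_le_mul_of_nonneg_right hGs hN0.le)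
    have hcW6 : (c * W ^ 2) ^ 6 ≤ (2 * T ^ (6 * e) * N) ^ 6 := pow_le_pow_left₀ (by positivity) hcW 6
    have h36 : (T ^ (6 * e)) ^ 6 ≤ T := by
      rw [← Real.rpow_natCast, ← Real.rpow_mul hT0.le]
      calc T ^ (6 * e * ((6 : ℕ) : ℝ)) ≤ T ^ (1 : ℝ) :=
            Real.rpow_le_rpow_of_exponent_le hT (by push_cast; linarith)
        _ = T := Real.rpow_one T
    have hWX : T ≤ 64 / c ^ 6 * X := by
      have h1 : c ^ 6 * W ^ 12 ≤ 64 * T * (N : ℝ) ^ 6 := by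
        calc c ^ 6 * W ^ 12 = (c * W ^ 2) ^ 6 := by ring
          _ ≤ (2 * T ^ (6 * e) * N) ^ 6 := hcW6
          _ = 64 * (T ^ (6 * e)) ^ 6 * (N : ℝ) ^ 6 := by ring
          _ ≤ 64 * T * (N : ℝ) ^ 6 := by
              refine mul_le_mul_of_nonneg_right ?_ (by positivity)
              linarith
      have h2 : 64 / c ^ 6 * X = 64 * T ^ 2 * (N : ℝ) ^ 6 / (c ^ 6 * W ^ 12) := by
        rw [hX]
        field_simp
      rw [h2, le_div_iff₀ (by positivity)]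
      calc T * (c ^ 6 * W ^ 12) ≤ T * (64 * T * (N : ℝ) ^ 6) := mul_le_mul_of_nonneg_left h1 hT0.le
        _ = 64 * T ^ 2 * (N : ℝ) ^ 6 := by ring
    have hr : 0 ≤ 64 / c ^ 6 := by positivity
    calc (P.card : ℝ) ≤ 3 * T := la_card P T hT hPT
      _ ≤ 3 * (64 / c ^ 6 * X) := by linarith
      _ ≤ 3 * (64 / c ^ 6) * (T ^ ε * (1 + X)) := by
          have h1 : X ≤ T ^ ε * (1 + X) := by nlinarith
          calc 3 * (64 / c ^ 6 * X) = 3 * (64 / c ^ 6) * X := by ring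
            _ ≤ 3 * (64 / c ^ 6) * (T ^ ε * (1 + X)) := mul_le_mul_of_nonneg_left h1 hq0
      _ ≤ (3 * (64 / c ^ 6) + 4 * C * (1 + 64 / c ^ 6)) * (T ^ ε * (1 + X)) := by
          refine mul_le_mul_of_nonneg_right (by linarith) (by positivity)
      _ = (3 * (64 / c ^ 6) + 4 * C * (1 + 64 / c ^ 6)) * T ^ ε * (1 + X) := by ring

end Pool.Agent.Lib.TW
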