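import Pool.Agent.Lib.TW.Wi5
import Pool.Agent.Lib.TW.La

/-!
# TW / La5: large values with the third derivative test, all points
-/

set_option autoImplicit false

open MeasureTheory
open scoped FourierTransform

namespace Pool.Agent.Lib.TW

private lemma la5_bound (w : ℝ → ℝ) (hw : Wt w) : ∃ B : ℝ, 1 ≤ B ∧ ∀ x, |w x| ≤ B := by
  obtain ⟨hc, h0, h4, -⟩ := hw
  obtain ⟨B, hB⟩ := (isCompact_Icc (a := (1 / 2 : ℝ)) (b := 4)).exists_bound_of_continuousOn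
    hc.continuous.continuousOn
  refine ⟨max B 1, le_max_right _ _, fun x => ?_⟩
  by_cases h1 : x ≤ 1 / 2
  · rw [h0 x h1, abs_zero]
    exact le_trans zero_le_one (le_max_right _ _)
  by_cases h2 : 4 ≤ x
  · rw [h4 x h2, abs_zero]
    exact le_trans zero_le_one (le_max_right _ _)
  · push Not at h1 h2
    exact (hB x ⟨h1.le, h2.le⟩).trans (le_max_left _ _)

private lemma la5_A (w : ℝ → ℝ) (B : ℝ) (hB : ∀ x, |w x| ≤ B) (N : ℕ) (t : ℝ) : ‖A w N t‖ ≤ 4 * N * B := by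
  unfold A
  calc ‖∑ n ∈ Finset.Icc 1 (4 * N), ((w ((n : ℝ) / N) : ℝ) : ℂ) * ch n (-t)‖
      ≤ ∑ n ∈ Finset.Icc 1 (4 * N), ‖((w ((n : ℝ) / N) : ℝ) : ℂ) * ch n (-t)‖ := norm_sum_le _ _
    _ ≤ ∑ n ∈ Finset.Icc 1 (4 * N), B := by
        refine Finset.sum_le_sum fun n _ => ?_
        rw [norm_mul, norm_ch, mul_one, Complex.norm_real]
        exact hB _
    _ = 4 * N * B := by
        rw [Finset.sum_const, Nat.card_Icc, Nat.add_sub_cancel, nsmul_eq_mul]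
        push_cast
        ring

private lemma la5_cover (P : Finset ℕ) (T D K : ℝ) (hD : 0 < D) (hT : 0 ≤ T) (hK : 0 ≤ K)
    (hP : ∀ p ∈ P, (p : ℝ) ≤ 2 * T)
    (h : ∀ Q : Finset ℕ, Q ⊆ P → (∀ p ∈ Q, ∀ q ∈ Q, |(p : ℝ) - q| ≤ D) → (Q.card : ℝ) ≤ K) :
    (P.card : ℝ) ≤ (2 * T / D + 1) * K := by
  classical
  have h1 : ∀ p ∈ P, ⌊(p : ℝ) / D⌋₊ ∈ Finset.range (⌊2 * T / D⌋₊ + 1) := by
    intro p hp
    rw [Finset.mem_range, Nat.lt_succ_iff]
    exact Nat.floor_le_floor (div_le_div_of_nonneg_right (hP p hp) hD.le)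
  have h2 : P.card = ∑ j ∈ Finset.range (⌊2 * T / D⌋₊ + 1), (P.filter fun p : ℕ => ⌊(p : ℝ) / D⌋₊ = j).card :=
    Finset.card_eq_sum_card_fiberwise h1
  rw [h2]
  push_cast
  have h3 : ∀ j ∈ Finset.range (⌊2 * T / D⌋₊ + 1),
      ((P.filter fun p : ℕ => ⌊(p : ℝ) / D⌋₊ = j).card : ℝ) ≤ K := by
    intro j _
    refine h _ (Finset.filter_subset _ _) fun p hp q hq => ?_
    have hp2 := (Finset.mem_filter.1 hp).2
    have hq2 := (Finset.mem_filter.1 hq).2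
    have p0 : (0 : ℝ) ≤ (p : ℝ) / D := by positivity
    have q0 : (0 : ℝ) ≤ (q : ℝ) / D := by positivity
    have a1 := Nat.floor_le p0
    have a2 := Nat.lt_floor_add_one ((p : ℝ) / D)
    have b1 := Nat.floor_le q0
    have b2 := Nat.lt_floor_add_one ((q : ℝ) / D)
    rw [hp2] at a1 a2
    rw [hq2] at b1 b2
    have c1 : (j : ℝ) * D ≤ p := (le_div_iff₀ hD).1 a1
    have c2 : (p : ℝ) < (j + 1) * D := (div_lt_iff₀ hD).1 a2
    have c3 : (j : ℝ) * D ≤ q := (le_div_iff₀ hD).1 b1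
    have c4 : (q : ℝ) < (j + 1) * D := (div_lt_iff₀ hD).1 b2
    rw [abs_le]
    constructor <;> nlinarith
  calc ∑ j ∈ Finset.range (⌊2 * T / D⌋₊ + 1), ((P.filter fun p : ℕ => ⌊(p : ℝ) / D⌋₊ = j).card : ℝ)
      ≤ ∑ _j ∈ Finset.range (⌊2 * T / D⌋₊ + 1), K := Finset.sum_le_sum h3
    _ = ((⌊2 * T / D⌋₊ : ℝ) + 1) * K := by
        rw [Finset.sum_const, Finset.card_range, nsmul_eq_mul]
        push_cast
        ring
    _ ≤ (2 * T / D + 1) * K := by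
        refine mul_le_mul_of_nonneg_right ?_ hK
        have := Nat.floor_le (show (0 : ℝ) ≤ 2 * T / D by positivity)
        linarith

/-- PROOF (over `window5`, `large`). `ε' = min(ε,1)/1000`, `G = ⌊c₀' W²/N⌋`, `c₀'` small, as in `La` (helper58).  If `G ≥ T^(3/10+20ε')`: `P` is covered by
`≤ 2 + T/(G¹³T^(-3-100ε'))` windows, `|P| ≤ C T^(106ε') (1 + T⁴/G¹³)(1 + T/G³) ≤ C T^(106ε') (1 + T/G³ + T⁵/G¹⁶)` up to a constant
(`T⁴/G¹³ ≤ T⁵/G¹⁶` if `G³ ≤ T`, else `≤ T/G³` as `T³ ≤ G¹⁰`), `G ≥ c W²/N`.  If `G < T^(3/10+20ε')`: `W²/N ≤ C T^(3/10+20ε')` and `large`: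
`T²N⁶/W¹² = (T⁵N¹⁶/W³²) (W²/N)¹⁰/T³ ≤ C T^(200ε') T⁵N¹⁶/W³²`. -/
theorem large5 (w : ℝ → ℝ) (hw : Wt w) (hw1 : Wt fun x => w x * Real.log x) {ε : ℝ} (hε : 0 < ε) :
    ∃ C : ℝ, 0 ≤ C ∧ ∀ T : ℝ, 1 ≤ T → ∀ N : ℕ, 1 ≤ N → (N : ℝ) ≤ T ^ (19 / 20 : ℝ) → ∀ W : ℝ, 0 < W → ∀ (P : Finset ℕ) (t : ℕ → ℝ),
      (∀ p ∈ P, (p : ℝ) ≤ t p ∧ t p ≤ p + 1 ∧ T ≤ t p ∧ t p ≤ 2 * T ∧ W ≤ ‖A w N (t p)‖) →
      (P.card : ℝ) ≤ C * T ^ ε * (1 + T * (N : ℝ) ^ 3 / W ^ 6 + T ^ 5 * (N : ℝ) ^ 16 / W ^ 32) := by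
  obtain ⟨B, hB1, hB⟩ := la5_bound w hw
  set e : ℝ := min ε 1 / 1000 with he
  have he0 : 0 < e := by
    rw [he]
    have : 0 < min ε 1 := lt_min hε one_pos
    positivity
  have he1 : e ≤ 1 / 1000 := by
    rw [he]
    have : min ε 1 ≤ 1 := min_le_right _ _
    linarith
  have he2 : 1000 * e ≤ ε := by
    rw [he]
    have : min ε 1 ≤ ε := min_le_left _ _
    linarith
  obtain ⟨c₀, hc₀, C5, hC5, hwin⟩ := window5 w hw hw1 he0 he1
  obtain ⟨CL, hCL, hlar⟩ := large w hw hw1 (half_pos hε)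
  have hB0 : 0 < B := by linarith
  set c : ℝ := min c₀ (1 / (64 * B ^ 2)) with hc
  have hc0 : 0 < c := by
    rw [hc]
    exact lt_min hc₀ (by positivity)
  have hcc : c ≤ c₀ := min_le_left _ _
  have hcB : c * (64 * B ^ 2) ≤ 1 := by
    have : c ≤ 1 / (64 * B ^ 2) := min_le_right _ _
    rwa [le_div_iff₀ (by positivity)] at this
  have hq1 : 0 ≤ 4 * C5 * (1 + 8 / c ^ 3 + 65536 / c ^ 16) := by positivity
  have hq2 : 0 ≤ CL * (1 + 1024 / c ^ 10) := by positivity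
  refine ⟨4 * C5 * (1 + 8 / c ^ 3 + 65536 / c ^ 16) + CL * (1 + 1024 / c ^ 10), by positivity,
    fun T hT N hN hNT W hW P t hP => ?_⟩
  have hT0 : 0 < T := by linarith
  have hN0 : (0 : ℝ) < N := by
    have : 0 < N := hN
    exact_mod_cast this
  have hTε : 1 ≤ T ^ ε := Real.one_le_rpow hT hε.le
  set X1 : ℝ := T * (N : ℝ) ^ 3 / W ^ 6 with hX1
  set X5 : ℝ := T ^ 5 * (N : ℝ) ^ 16 / W ^ 32 with hX5
  have hX10 : 0 ≤ X1 := by positivity
  have hX50 : 0 ≤ X5 := by positivity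
  have hPT : ∀ p ∈ P, (p : ℝ) ≤ 2 * T := fun p hp => by
    obtain ⟨h1, -, -, h4, -⟩ := hP p hp
    linarith
  have hNT' : (N : ℝ) ≤ T := by
    refine hNT.trans ?_
    calc T ^ (19 / 20 : ℝ) ≤ T ^ (1 : ℝ) := Real.rpow_le_rpow_of_exponent_le hT (by norm_num)
      _ = T := Real.rpow_one T
  rcases P.eq_empty_or_nonempty with hPe | ⟨p0, hp0⟩
  · rw [hPe, Finset.card_empty, Nat.cast_zero]
    positivity
  have hWB : W ≤ 4 * N * B := (hP p0 hp0).2.2.2.2.trans (la5_A w B hB N _)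
  set G : ℕ := ⌊c * W ^ 2 / N⌋₊ with hG
  have hG1 : (G : ℝ) ≤ c * W ^ 2 / N := Nat.floor_le (by positivity)
  have hG2 : c * W ^ 2 / N < G + 1 := Nat.lt_floor_add_one _
  have hG1' : (G : ℝ) * N ≤ c * W ^ 2 := (le_div_iff₀ hN0).1 hG1
  have hG2' : c * W ^ 2 < (G + 1) * N := (div_lt_iff₀ hN0).1 hG2
  have h310 : 1 ≤ T ^ (3 / 10 + 20 * e) := Real.one_le_rpow hT (by positivity)
  by_cases hGb : T ^ (3 / 10 + 20 * e) ≤ G
  · have hGr : (1 : ℝ) ≤ G := h310.trans hGb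
    have hGa : 1 ≤ G := by exact_mod_cast hGr
    have hG0 : (0 : ℝ) < G := by linarith
    have hGN : (G : ℝ) * N ≤ c₀ * W ^ 2 := hG1'.trans (mul_le_mul_of_nonneg_right hcc (by positivity))
    have hGT : (G : ℝ) ≤ T / 4 := by
      have h1 : W ^ 2 ≤ (4 * N * B) ^ 2 := pow_le_pow_left₀ hW.le hWB 2
      have h2 : (G : ℝ) * N ≤ N / 4 * N := by
        calc (G : ℝ) * N ≤ c * W ^ 2 := hG1'
          _ ≤ c * (4 * N * B) ^ 2 := mul_le_mul_of_nonneg_left h1 hc0.le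
          _ = c * (64 * B ^ 2) * (N / 4 * N) := by ring
          _ ≤ 1 * (N / 4 * N) := mul_le_mul_of_nonneg_right hcB (by positivity)
          _ = N / 4 * N := one_mul _
      have h3 : (G : ℝ) ≤ N / 4 := le_of_mul_le_mul_right h2 hN0
      linarith
    set D : ℝ := (G : ℝ) ^ 13 * T ^ (-(3 + 100 * e)) with hD
    have hD0 : 0 < D := by positivity
    set a : ℝ := T / (G : ℝ) ^ 3 with ha
    have ha0 : 0 ≤ a := by positivity
    have hK0 : 0 ≤ C5 * T ^ (6 * e) * (1 + a) := by positivity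
    have hcov := la5_cover P T D (C5 * T ^ (6 * e) * (1 + a)) hD0 hT0.le hK0 hPT fun Q hQ hd =>
      hwin T hT N G hN hGa hNT W hW hGN hGb hGT Q t (fun p hp => hP p (hQ hp)) hd
    set u : ℝ := T ^ (100 * e) with hu
    have hu1 : 1 ≤ u := Real.one_le_rpow hT (by positivity)
    set b : ℝ := T ^ 4 / (G : ℝ) ^ 13 with hb
    have hb0 : 0 ≤ b := by positivity
    have hDa : 2 * T / D = 2 * u * b := by
      have h1 : T ^ (3 + 100 * e) = T ^ 3 * u := by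
        rw [Real.rpow_add hT0, hu]
        congr 1
        exact_mod_cast Real.rpow_natCast T 3
      have h2 : T ^ (3 + 100 * e) ≠ 0 := (Real.rpow_pos_of_pos hT0 _).ne'
      rw [hD, Real.rpow_neg hT0.le, hb]
      calc 2 * T / ((G : ℝ) ^ 13 * (T ^ (3 + 100 * e))⁻¹) = 2 * T * T ^ (3 + 100 * e) / (G : ℝ) ^ 13 := by
            field_simp
        _ = 2 * u * (T ^ 4 / (G : ℝ) ^ 13) := by
            rw [h1]
            ring
    -- `b ≤ a`
    have hG10 : T ^ 3 ≤ (G : ℝ) ^ 10 := by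
      calc T ^ 3 = T ^ ((3 : ℕ) : ℝ) := (Real.rpow_natCast T 3).symm
        _ ≤ T ^ ((3 / 10 + 20 * e) * ((10 : ℕ) : ℝ)) := Real.rpow_le_rpow_of_exponent_le hT (by push_cast; linarith)
        _ = (T ^ (3 / 10 + 20 * e)) ^ 10 := by rw [Real.rpow_mul hT0.le, Real.rpow_natCast]
        _ ≤ (G : ℝ) ^ 10 := pow_le_pow_left₀ (by linarith) hGb 10
    have hba : b ≤ a := by
      rw [hb, ha, div_le_div_iff₀ (by positivity) (by positivity)]
      calc T ^ 4 * (G : ℝ) ^ 3 = T * (G : ℝ) ^ 3 * T ^ 3 := by ring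
        _ ≤ T * (G : ℝ) ^ 3 * (G : ℝ) ^ 10 := mul_le_mul_of_nonneg_left hG10 (by positivity)
        _ = T * (G : ℝ) ^ 13 := by ring
    have hcW : c * W ^ 2 ≤ 2 * ((G : ℝ) * N) := by nlinarith
    have ha1 : a ≤ 8 / c ^ 3 * X1 := by
      have h1 : c ^ 3 * W ^ 6 ≤ 8 * ((G : ℝ) ^ 3 * (N : ℝ) ^ 3) := by
        calc c ^ 3 * W ^ 6 = (c * W ^ 2) ^ 3 := by ring
          _ ≤ (2 * ((G : ℝ) * N)) ^ 3 := pow_le_pow_left₀ (by positivity) hcW 3
          _ = 8 * ((G : ℝ) ^ 3 * (N : ℝ) ^ 3) := by ring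
      have h2 : 8 / c ^ 3 * X1 = 8 * T * (N : ℝ) ^ 3 / (c ^ 3 * W ^ 6) := by
        rw [hX1]
        field_simp
      rw [h2, ha, div_le_div_iff₀ (by positivity) (by positivity)]
      calc T * (c ^ 3 * W ^ 6) ≤ T * (8 * ((G : ℝ) ^ 3 * (N : ℝ) ^ 3)) := mul_le_mul_of_nonneg_left h1 hT0.le
        _ = 8 * T * (N : ℝ) ^ 3 * (G : ℝ) ^ 3 := by ring
    have hab : a * b ≤ 65536 / c ^ 16 * X5 := by
      have h1 : c ^ 16 * W ^ 32 ≤ 65536 * ((G : ℝ) ^ 16 * (N : ℝ) ^ 16) := by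
        calc c ^ 16 * W ^ 32 = (c * W ^ 2) ^ 16 := by ring
          _ ≤ (2 * ((G : ℝ) * N)) ^ 16 := pow_le_pow_left₀ (by positivity) hcW 16
          _ = 65536 * ((G : ℝ) ^ 16 * (N : ℝ) ^ 16) := by ring
      have h2 : 65536 / c ^ 16 * X5 = 65536 * T ^ 5 * (N : ℝ) ^ 16 / (c ^ 16 * W ^ 32) := by
        rw [hX5]
        field_simp
      have h3 : a * b = T ^ 5 / (G : ℝ) ^ 16 := by
        rw [ha, hb, div_mul_div_comm]
        congr 1 <;> ring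
      rw [h2, h3, div_le_div_iff₀ (by positivity) (by positivity)]
      calc T ^ 5 * (c ^ 16 * W ^ 32) ≤ T ^ 5 * (65536 * ((G : ℝ) ^ 16 * (N : ℝ) ^ 16)) :=
            mul_le_mul_of_nonneg_left h1 (by positivity)
        _ = 65536 * T ^ 5 * (N : ℝ) ^ 16 * (G : ℝ) ^ 16 := by ring
    have hT106 : u * T ^ (6 * e) ≤ T ^ ε := by
      rw [hu, ← Real.rpow_add hT0]
      exact Real.rpow_le_rpow_of_exponent_le hT (by linarith)
    have h6 : 0 ≤ T ^ (6 * e) := Real.rpow_nonneg hT0.le _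
    have hr3 : 0 ≤ 8 / c ^ 3 := by positivity
    have hr16 : 0 ≤ 65536 / c ^ 16 := by positivity
    have hab0 : 0 ≤ a * b := mul_nonneg ha0 hb0
    calc (P.card : ℝ) ≤ (2 * T / D + 1) * (C5 * T ^ (6 * e) * (1 + a)) := hcov
      _ ≤ (2 * u * (1 + b)) * (C5 * T ^ (6 * e) * (1 + a)) := by
          refine mul_le_mul_of_nonneg_right ?_ hK0
          rw [hDa]
          nlinarith
      _ = 2 * C5 * (u * T ^ (6 * e)) * ((1 + a) * (1 + b)) := by ring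
      _ ≤ 2 * C5 * T ^ ε * ((1 + a) * (1 + b)) := by
          refine mul_le_mul_of_nonneg_right ?_ (by positivity)
          exact mul_le_mul_of_nonneg_left hT106 (by positivity)
      _ ≤ 2 * C5 * T ^ ε * (2 * ((1 + 8 / c ^ 3 + 65536 / c ^ 16) * (1 + X1 + X5))) := by
          refine mul_le_mul_of_nonneg_left ?_ (by positivity)
          have h7 : (1 + a) * (1 + b) ≤ 2 * (1 + a + a * b) := by nlinarith
          have h8 : 1 + 8 / c ^ 3 * X1 + 65536 / c ^ 16 * X5 ≤ (1 + 8 / c ^ 3 + 65536 / c ^ 16) * (1 + X1 + X5) := by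
            have m1 := mul_nonneg hr3 hX50
            have m2 := mul_nonneg hr16 hX10
            nlinarith
          linarith
      _ = 4 * C5 * (1 + 8 / c ^ 3 + 65536 / c ^ 16) * (T ^ ε * (1 + X1 + X5)) := by ring
      _ ≤ (4 * C5 * (1 + 8 / c ^ 3 + 65536 / c ^ 16) + CL * (1 + 1024 / c ^ 10)) * (T ^ ε * (1 + X1 + X5)) := by
          refine mul_le_mul_of_nonneg_right (by linarith) (by positivity)
      _ = (4 * C5 * (1 + 8 / c ^ 3 + 65536 / c ^ 16) + CL * (1 + 1024 / c ^ 10)) * T ^ ε * (1 + X1 + X5) := by ring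
  · push Not at hGb
    have hcW : c * W ^ 2 ≤ 2 * T ^ (3 / 10 + 20 * e) * N :=
      hG2'.le.trans (mul_le_mul_of_nonneg_right (by linarith) hN0.le)
    set v : ℝ := T ^ (200 * e) with hv
    have hv1 : 1 ≤ v := Real.one_le_rpow hT (by positivity)
    have h10 : (T ^ (3 / 10 + 20 * e)) ^ 10 = T ^ 3 * v := by
      rw [hv, ← Real.rpow_natCast (T ^ (3 / 10 + 20 * e)) 10, ← Real.rpow_mul hT0.le, ← Real.rpow_natCast T 3,
        ← Real.rpow_add hT0]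
      congr 1
      push_cast
      ring
    have hcW10 : c ^ 10 * W ^ 20 ≤ 1024 * (T ^ 3 * v) * (N : ℝ) ^ 10 := by
      calc c ^ 10 * W ^ 20 = (c * W ^ 2) ^ 10 := by ring
        _ ≤ (2 * T ^ (3 / 10 + 20 * e) * N) ^ 10 := pow_le_pow_left₀ (by positivity) hcW 10
        _ = 1024 * (T ^ (3 / 10 + 20 * e)) ^ 10 * (N : ℝ) ^ 10 := by ring
        _ = 1024 * (T ^ 3 * v) * (N : ℝ) ^ 10 := by rw [h10]
    have hX2 : T ^ 2 * (N : ℝ) ^ 6 / W ^ 12 ≤ 1024 / c ^ 10 * (v * X5) := by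
      have h2 : 1024 / c ^ 10 * (v * X5) = 1024 * v * T ^ 5 * (N : ℝ) ^ 16 / (c ^ 10 * W ^ 32) := by
        rw [hX5]
        field_simp
      rw [h2, div_le_div_iff₀ (by positivity) (by positivity)]
      calc T ^ 2 * (N : ℝ) ^ 6 * (c ^ 10 * W ^ 32) = T ^ 2 * (N : ℝ) ^ 6 * W ^ 12 * (c ^ 10 * W ^ 20) := by ring
        _ ≤ T ^ 2 * (N : ℝ) ^ 6 * W ^ 12 * (1024 * (T ^ 3 * v) * (N : ℝ) ^ 10) :=
            mul_le_mul_of_nonneg_left hcW10 (by positivity)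
        _ = 1024 * v * T ^ 5 * (N : ℝ) ^ 16 * W ^ 12 := by ring
    have hTv : T ^ (ε / 2) * v ≤ T ^ ε := by
      rw [hv, ← Real.rpow_add hT0]
      exact Real.rpow_le_rpow_of_exponent_le hT (by linarith)
    have hr10 : 0 ≤ 1024 / c ^ 10 := by positivity
    have hTh : 0 ≤ T ^ (ε / 2) := Real.rpow_nonneg hT0.le _
    calc (P.card : ℝ) ≤ CL * T ^ (ε / 2) * (1 + T ^ 2 * (N : ℝ) ^ 6 / W ^ 12) := hlar T hT N hN hNT W hW P t hP
      _ ≤ CL * T ^ (ε / 2) * (v * ((1 + 1024 / c ^ 10) * (1 + X1 + X5))) := by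
          refine mul_le_mul_of_nonneg_left ?_ (by positivity)
          have h1 : 1 + 1024 / c ^ 10 * X5 ≤ (1 + 1024 / c ^ 10) * (1 + X1 + X5) := by
            have m1 := mul_nonneg hr10 hX10
            nlinarith
          have h2 : v * (1 + 1024 / c ^ 10 * X5) ≤ v * ((1 + 1024 / c ^ 10) * (1 + X1 + X5)) :=
            mul_le_mul_of_nonneg_left h1 (by linarith)
          have h3 : 1024 / c ^ 10 * (v * X5) = v * (1024 / c ^ 10 * X5) := by ring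
          rw [h3] at hX2
          linarith
      _ = CL * (1 + 1024 / c ^ 10) * (T ^ (ε / 2) * v) * (1 + X1 + X5) := by ring
      _ ≤ CL * (1 + 1024 / c ^ 10) * T ^ ε * (1 + X1 + X5) := by
          refine mul_le_mul_of_nonneg_right ?_ (by positivity)
          exact mul_le_mul_of_nonneg_left hTv hq2
      _ ≤ (4 * C5 * (1 + 8 / c ^ 3 + 65536 / c ^ 16) + CL * (1 + 1024 / c ^ 10)) * T ^ ε * (1 + X1 + X5) := by
          refine mul_le_mul_of_nonneg_right ?_ (by positivity)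
          exact mul_le_mul_of_nonneg_right (by linarith) (by positivity)

end Pool.Agent.Lib.TW
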