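import Pool.Agent.Lib.TW.Defs
import Pool.Agent.Lib.PR.Z3

/-!
# TW / Pm: the pointwise bound
-/

set_option autoImplicit false

open MeasureTheory

namespace Pool.Agent.Lib.TW

private theorem pm_block : ∃ C : ℝ, 0 ≤ C ∧ ∀ N : ℕ, 1 ≤ N → ∀ φ : ℕ → ℝ, (∀ n, 0 ≤ φ n) → (∀ n, φ n ≤ 1) →
    Antitone φ → ∀ t : ℝ, (N : ℝ) ≤ t →
      ‖∑ n ∈ Finset.Ioc N (2 * N), ((φ n : ℝ) : ℂ) * (n : ℂ) ^ (-((t : ℂ) * Complex.I))‖ ≤
        C * ((N : ℝ) ^ (1 / 2 : ℝ) * t ^ (1 / 6 : ℝ)) := by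
  obtain ⟨C0, hC0, h0⟩ := PR.blockD 0 (le_refl (0 : ℝ))
  obtain ⟨C1, hC1, h1⟩ := PR.blockD 1 (le_refl (0 : ℝ))
  refine ⟨C0 + C1, by positivity, ?_⟩
  intro N hN φ p0 p1 pa t ht
  have hN1 : (1 : ℝ) ≤ N := by exact_mod_cast hN
  have hN0 : (0 : ℝ) < N := by linarith
  have ht0 : 0 < t := by linarith
  have hX : 0 ≤ (N : ℝ) ^ (1 / 2 : ℝ) * t ^ (1 / 6 : ℝ) := by positivity
  have hs : ∀ n : ℕ, ((φ n * (n : ℝ) ^ (-(0 : ℝ)) : ℝ) : ℂ) = ((φ n : ℝ) : ℂ) := by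
    intro n
    rw [neg_zero, Real.rpow_zero, mul_one]
  rcases le_or_gt ((N : ℝ) ^ (3 / 2 : ℝ)) t with h | h
  · have hc : (N : ℝ) ^ (((1 : ℕ) : ℝ) + PR.nu 1) ≤ t := by
      have e : ((1 : ℕ) : ℝ) + PR.nu 1 = 3 / 2 := by
        unfold PR.nu
        norm_num
      rw [e]
      exact h
    have h2 := h1 N hN φ p0 p1 pa t ht0 hc
    simp only [hs] at h2
    refine h2.trans ?_
    have e1 : PR.kp 1 = 1 / 6 := by
      unfold PR.kp
      norm_num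
    have e2 : (N : ℝ) ^ (1 - (0 : ℝ)) * (t / (N : ℝ) ^ (1 + 2)) ^ PR.kp 1 =
        (N : ℝ) ^ (1 / 2 : ℝ) * t ^ (1 / 6 : ℝ) := by
      rw [e1, Real.div_rpow ht0.le (by positivity), ← Real.rpow_natCast, ← Real.rpow_mul hN0.le, sub_zero]
      have e3 : (((1 + 2 : ℕ) : ℝ)) * (1 / 6) = 1 / 2 := by norm_num
      rw [e3]
      have e4 : (N : ℝ) ^ (1 : ℝ) = (N : ℝ) ^ (1 / 2 : ℝ) * (N : ℝ) ^ (1 / 2 : ℝ) := by
        rw [← Real.rpow_add hN0]
        norm_num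
      rw [e4]
      have e5 : (N : ℝ) ^ (1 / 2 : ℝ) ≠ 0 := (Real.rpow_pos_of_pos hN0 _).ne'
      field_simp
    rw [e2]
    nlinarith
  · have hc : (N : ℝ) ^ (((0 : ℕ) : ℝ) + PR.nu 0) ≤ t := by
      have e : ((0 : ℕ) : ℝ) + PR.nu 0 = 1 := by
        unfold PR.nu
        norm_num
      rw [e, Real.rpow_one]
      exact ht
    have h2 := h0 N hN φ p0 p1 pa t ht0 hc
    simp only [hs] at h2
    refine h2.trans ?_
    have e1 : PR.kp 0 = 1 / 2 := by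
      unfold PR.kp
      norm_num
    have e2 : (N : ℝ) ^ (1 - (0 : ℝ)) * (t / (N : ℝ) ^ (0 + 2)) ^ PR.kp 0 = t ^ (1 / 2 : ℝ) := by
      rw [e1, Real.div_rpow ht0.le (by positivity), ← Real.rpow_natCast, ← Real.rpow_mul hN0.le, sub_zero]
      have e3 : (((0 + 2 : ℕ) : ℝ)) * (1 / 2) = 1 := by norm_num
      rw [e3, Real.rpow_one]
      field_simp
    have e6 : t ^ (1 / 2 : ℝ) ≤ (N : ℝ) ^ (1 / 2 : ℝ) * t ^ (1 / 6 : ℝ) := by
      have e7 : t ^ (1 / 2 : ℝ) = t ^ (1 / 3 : ℝ) * t ^ (1 / 6 : ℝ) := by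
        rw [← Real.rpow_add ht0]
        norm_num
      have e8 : t ^ (1 / 3 : ℝ) ≤ (N : ℝ) ^ (1 / 2 : ℝ) := by
        have e9 : ((N : ℝ) ^ (3 / 2 : ℝ)) ^ (1 / 3 : ℝ) = (N : ℝ) ^ (1 / 2 : ℝ) := by
          rw [← Real.rpow_mul hN0.le]
          norm_num
        rw [← e9]
        exact Real.rpow_le_rpow ht0.le h.le (by norm_num)
      rw [e7]
      exact mul_le_mul_of_nonneg_right e8 (by positivity)
    rw [e2]
    nlinarith

private theorem pm_S : ∃ K : ℝ, 0 ≤ K ∧ ∀ t : ℝ, 1 ≤ t → ∀ x : ℕ, (x : ℝ) ≤ t →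
    ‖∑ n ∈ Finset.Icc 1 x, (n : ℂ) ^ (-((t : ℂ) * Complex.I))‖ ≤ K * ((x : ℝ) ^ (1 / 2 : ℝ) * t ^ (1 / 6 : ℝ)) := by
  obtain ⟨C, hC, hb⟩ := pm_block
  refine ⟨7 * C + 1, by positivity, ?_⟩
  intro t ht x
  induction x using Nat.strong_induction_on with
  | _ x ih =>
    intro hx
    rcases Nat.lt_or_ge x 2 with h | h
    · have h2 : x = 0 ∨ x = 1 := by omega
      rcases h2 with rfl | rfl
      · simp
      · have h3 : (1 : ℝ) ≤ t ^ (1 / 6 : ℝ) := Real.one_le_rpow ht (by norm_num)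
        simp only [Finset.Icc_self, Finset.sum_singleton, Nat.cast_one, Complex.one_cpow, norm_one, Real.one_rpow,
          one_mul]
        nlinarith
    · obtain ⟨m, hm⟩ : ∃ m, m = (x + 1) / 2 := ⟨_, rfl⟩
      have hm1 : m < x := by omega
      have hm2 : x ≤ 2 * m := by omega
      have hm3 : 1 ≤ m := by omega
      have hm4 : 4 * m ≤ 3 * x := by omega
      have hmx : (m : ℝ) ≤ t := le_trans (by exact_mod_cast hm1.le) hx
      have h4 := ih m hm1 hmx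
      have h5 := hb m hm3 (fun n => if n ≤ x then 1 else 0) (fun n => by split_ifs <;> norm_num)
        (fun n => by split_ifs <;> norm_num) (by
          intro a b hab
          dsimp only
          split_ifs with h6 h7
          · exact le_rfl
          · exact absurd (hab.trans h6) h7
          · norm_num
          · exact le_rfl) t hmx
      have h6 : ∑ n ∈ Finset.Ioc m (2 * m), (((if n ≤ x then 1 else 0 : ℝ)) : ℂ) * (n : ℂ) ^ (-((t : ℂ) * Complex.I)) =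
          ∑ n ∈ Finset.Ioc m x, (n : ℂ) ^ (-((t : ℂ) * Complex.I)) := by
        have e : Finset.Ioc m x = (Finset.Ioc m (2 * m)).filter fun n => n ≤ x := by
          ext n
          simp only [Finset.mem_Ioc, Finset.mem_filter]
          omega
        rw [e, Finset.sum_filter]
        refine Finset.sum_congr rfl fun n _ => ?_
        split_ifs <;> simp
      rw [h6] at h5
      have h7 : ∑ n ∈ Finset.Icc 1 x, (n : ℂ) ^ (-((t : ℂ) * Complex.I)) =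
          ∑ n ∈ Finset.Icc 1 m, (n : ℂ) ^ (-((t : ℂ) * Complex.I)) +
            ∑ n ∈ Finset.Ioc m x, (n : ℂ) ^ (-((t : ℂ) * Complex.I)) := by
        rw [← Finset.sum_union]
        · congr 1
          ext n
          simp only [Finset.mem_Icc, Finset.mem_union, Finset.mem_Ioc]
          omega
        · rw [Finset.disjoint_left]
          intro n h8 h9
          simp only [Finset.mem_Icc, Finset.mem_Ioc] at h8 h9
          omega
      rw [h7]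
      refine (norm_add_le _ _).trans ((add_le_add h4 h5).trans ?_)
      have h8 : (m : ℝ) ^ (1 / 2 : ℝ) ≤ 7 / 8 * (x : ℝ) ^ (1 / 2 : ℝ) := by
        have h9 : (m : ℝ) ≤ (7 / 8) ^ 2 * x := by
          have : (4 : ℝ) * m ≤ 3 * x := by exact_mod_cast hm4
          have hx0 : (0 : ℝ) ≤ x := Nat.cast_nonneg x
          linarith
        calc (m : ℝ) ^ (1 / 2 : ℝ) ≤ ((7 / 8) ^ 2 * (x : ℝ)) ^ (1 / 2 : ℝ) :=
              Real.rpow_le_rpow (Nat.cast_nonneg m) h9 (by norm_num)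
          _ = 7 / 8 * (x : ℝ) ^ (1 / 2 : ℝ) := by
              rw [Real.mul_rpow (by positivity) (Nat.cast_nonneg x), ← Real.sqrt_eq_rpow, ← Real.sqrt_eq_rpow,
                Real.sqrt_sq (by norm_num)]
      have h10 : 0 ≤ t ^ (1 / 6 : ℝ) := by positivity
      have h11 : (m : ℝ) ^ (1 / 2 : ℝ) * t ^ (1 / 6 : ℝ) ≤ 7 / 8 * ((x : ℝ) ^ (1 / 2 : ℝ) * t ^ (1 / 6 : ℝ)) := by
        calc (m : ℝ) ^ (1 / 2 : ℝ) * t ^ (1 / 6 : ℝ) ≤ (7 / 8 * (x : ℝ) ^ (1 / 2 : ℝ)) * t ^ (1 / 6 : ℝ) :=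
              mul_le_mul_of_nonneg_right h8 h10
          _ = _ := by ring
      have h12 : 0 ≤ (x : ℝ) ^ (1 / 2 : ℝ) * t ^ (1 / 6 : ℝ) := by positivity
      calc (7 * C + 1) * ((m : ℝ) ^ (1 / 2 : ℝ) * t ^ (1 / 6 : ℝ)) + C * ((m : ℝ) ^ (1 / 2 : ℝ) * t ^ (1 / 6 : ℝ))
          = (8 * C + 1) * ((m : ℝ) ^ (1 / 2 : ℝ) * t ^ (1 / 6 : ℝ)) := by ring
        _ ≤ (8 * C + 1) * (7 / 8 * ((x : ℝ) ^ (1 / 2 : ℝ) * t ^ (1 / 6 : ℝ))) :=
            mul_le_mul_of_nonneg_left h11 (by positivity)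
        _ ≤ (7 * C + 1) * ((x : ℝ) ^ (1 / 2 : ℝ) * t ^ (1 / 6 : ℝ)) := by nlinarith

private theorem pm_abel (f c : ℕ → ℂ) (m : ℕ) : ∑ i ∈ Finset.range m, f i * c i =
    f m * ∑ i ∈ Finset.range m, c i -
      ∑ i ∈ Finset.range m, (f (i + 1) - f i) * ∑ j ∈ Finset.range (i + 1), c j := by
  induction m with
  | zero => simp
  | succ m ih =>
    rw [Finset.sum_range_succ (fun i => f i * c i), ih, Finset.sum_range_succ (fun i => (f (i + 1) - f i) * _),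
      Finset.sum_range_succ c m]
    ring

private theorem pm_shift (g : ℕ → ℂ) (m : ℕ) : ∑ n ∈ Finset.Icc 1 m, g n = ∑ i ∈ Finset.range m, g (i + 1) := by
  have h1 : Finset.Icc 1 m = Finset.Ico 1 (m + 1) := by
    ext x
    simp only [Finset.mem_Icc, Finset.mem_Ico]
    omega
  rw [h1, Finset.sum_Ico_eq_sum_range, Nat.add_sub_cancel]
  refine Finset.sum_congr rfl fun i _ => ?_
  rw [add_comm]

/-- PROOF. For bounded `T` trivial (`‖A‖ ≤ 4BN`).  For `T` large `4N ≤ T`.  Abel summation: `A w N t = -∫ (w'(x/N)/N) S(x) dx` (or the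
discrete form; `w` is of bounded variation, independent of `N`), `S(x) = sum_(N/2 < n ≤ x) n^(-it)`, `x ≤ 4N`, a sum of at most four
parts of blocks `(N', 2N']`, `N/2 - 1 ≤ N' ≤ 2N`, with `φ n = 1` for `n ≤ x` and `0` for `n > x`.  `PR.PW_thv` (`σ = 0`, `n = 2`) and
`PR.le_thv`: the saving is `≥ (3a-1)/6` for `a ≤ 2/3` (`q = 1`) and `≥ a - 1/2 ≥ a/2 - 1/6` for `a ≥ 2/3` (`q = 0`), `a = log N'/log T`, so
each part is `≤ C T^ε N'^(1/2) T^(1/6)`. -/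
theorem pmax (w : ℝ → ℝ) (hw : Wt w) {ε : ℝ} (hε : 0 < ε) :
    ∃ C : ℝ, 0 ≤ C ∧ ∀ T : ℝ, 1 ≤ T → ∀ N : ℕ, 1 ≤ N → (N : ℝ) ≤ T ^ (19 / 20 : ℝ) → ∀ t : ℝ, T ≤ t → t ≤ 2 * T →
      ‖A w N t‖ ≤ C * (N : ℝ) ^ (1 / 2 : ℝ) * T ^ (1 / 6 + ε) := by
  obtain ⟨hw1, hw2, hw3, -⟩ := hw
  have hcs : HasCompactSupport w := by
    refine HasCompactSupport.intro (isCompact_Icc (a := (1 / 2 : ℝ)) (b := 4)) fun x hx => ?_
    rcases lt_or_ge x (1 / 2) with h | h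
    · exact hw2 x h.le
    · refine hw3 x ?_
      by_contra h2
      exact hx ⟨h, (not_le.1 h2).le⟩
  obtain ⟨L, hL⟩ := ContDiff.lipschitzWith_of_hasCompactSupport hcs hw1 (by norm_num)
  obtain ⟨K, hK, hS⟩ := pm_S
  have hL0 : (0 : ℝ) ≤ L := L.coe_nonneg
  have hlip : ∀ x y : ℝ, |w x - w y| ≤ L * |x - y| := by
    intro x y
    have h := hL.dist_le_mul x y
    rwa [Real.dist_eq, Real.dist_eq] at h
  refine ⟨16 * L * K + 16 * L * 2 ^ 20, by positivity, ?_⟩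
  intro T hT N hN hNT t ht1 ht2
  have hT0 : 0 < T := by linarith
  have ht0 : 0 < t := by linarith
  have hN1 : (1 : ℝ) ≤ N := by exact_mod_cast hN
  have hN0 : (0 : ℝ) < N := by linarith
  have hTe : T ^ (1 / 6 : ℝ) ≤ T ^ (1 / 6 + ε) := Real.rpow_le_rpow_of_exponent_le hT (by linarith)
  have hTe1 : (1 : ℝ) ≤ T ^ (1 / 6 + ε) := Real.one_le_rpow hT (by linarith)
  have hsN : 0 ≤ (N : ℝ) ^ (1 / 2 : ℝ) := by positivity
  rcases le_or_gt ((2 : ℝ) ^ 40) T with hbig | hsmall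
  · -- `4 N ≤ T`
    have h4N : 4 * (N : ℝ) ≤ T := by
      have h1 : (4 : ℝ) ≤ T ^ (1 / 20 : ℝ) := by
        calc (4 : ℝ) = ((2 : ℝ) ^ 40) ^ (1 / 20 : ℝ) := by
              rw [← Real.rpow_natCast, ← Real.rpow_mul (by norm_num)]
              norm_num
          _ ≤ T ^ (1 / 20 : ℝ) := Real.rpow_le_rpow (by positivity) hbig (by norm_num)
      calc 4 * (N : ℝ) ≤ T ^ (1 / 20 : ℝ) * T ^ (19 / 20 : ℝ) :=
            mul_le_mul h1 hNT hN0.le (by positivity)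
        _ = T := by
            rw [← Real.rpow_add hT0]
            norm_num
    have hA : A w N t = -∑ i ∈ Finset.range (4 * N),
        (((w (((i + 1 + 1 : ℕ) : ℝ) / N) - w (((i + 1 : ℕ) : ℝ) / N) : ℝ)) : ℂ) *
          ∑ n ∈ Finset.Icc 1 (i + 1), (n : ℂ) ^ (-((t : ℂ) * Complex.I)) := by
      unfold A
      rw [pm_shift, pm_abel (fun i => ((w (((i + 1 : ℕ) : ℝ) / N) : ℝ) : ℂ)) (fun i => ch ((i + 1 : ℕ) : ℝ) (-t))]
      have h1 : w (((4 * N + 1 : ℕ) : ℝ) / N) = 0 := by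
        refine hw3 _ ?_
        rw [le_div_iff₀ hN0]
        push_cast
        linarith
      rw [h1, Complex.ofReal_zero, zero_mul, zero_sub]
      congr 1
      refine Finset.sum_congr rfl fun i _ => ?_
      rw [pm_shift]
      push_cast
      congr 1
      refine Finset.sum_congr rfl fun j _ => ?_
      have h2 := ch_eq_cpow (n := j + 1) (by omega) t
      push_cast at h2
      exact h2
    rw [hA, norm_neg]
    refine (norm_sum_le _ _).trans ?_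
    have hterm : ∀ i ∈ Finset.range (4 * N), ‖(((w (((i + 1 + 1 : ℕ) : ℝ) / N) - w (((i + 1 : ℕ) : ℝ) / N) : ℝ)) : ℂ) *
          ∑ n ∈ Finset.Icc 1 (i + 1), (n : ℂ) ^ (-((t : ℂ) * Complex.I))‖ ≤
        (L / N) * (K * ((2 * (N : ℝ) ^ (1 / 2 : ℝ)) * (2 * T ^ (1 / 6 : ℝ)))) := by
      intro i hi
      have hi' : i + 1 ≤ 4 * N := Finset.mem_range.1 hi
      have hi2 : ((i + 1 : ℕ) : ℝ) ≤ 4 * N := by exact_mod_cast hi'
      rw [norm_mul, Complex.norm_real, Real.norm_eq_abs]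
      have h1 : |w (((i + 1 + 1 : ℕ) : ℝ) / N) - w (((i + 1 : ℕ) : ℝ) / N)| ≤ L / N := by
        refine (hlip _ _).trans (le_of_eq ?_)
        have e : ((i + 1 + 1 : ℕ) : ℝ) / N - ((i + 1 : ℕ) : ℝ) / N = 1 / N := by
          push_cast
          ring
        rw [e, abs_of_pos (by positivity)]
        ring
      have h2 := hS t (by linarith) (i + 1) (by linarith)
      have h3 : (((i + 1 : ℕ) : ℝ)) ^ (1 / 2 : ℝ) ≤ 2 * (N : ℝ) ^ (1 / 2 : ℝ) := by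
        calc (((i + 1 : ℕ) : ℝ)) ^ (1 / 2 : ℝ) ≤ (4 * (N : ℝ)) ^ (1 / 2 : ℝ) :=
              Real.rpow_le_rpow (Nat.cast_nonneg _) hi2 (by norm_num)
          _ = 2 * (N : ℝ) ^ (1 / 2 : ℝ) := by
              rw [Real.mul_rpow (by norm_num) hN0.le]
              congr 1
              have e : (4 : ℝ) = 2 ^ (2 : ℝ) := by norm_num
              rw [e, ← Real.rpow_mul (by norm_num)]
              norm_num
      have h4 : t ^ (1 / 6 : ℝ) ≤ 2 * T ^ (1 / 6 : ℝ) := by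
        calc t ^ (1 / 6 : ℝ) ≤ (2 * T) ^ (1 / 6 : ℝ) := Real.rpow_le_rpow ht0.le ht2 (by norm_num)
          _ = 2 ^ (1 / 6 : ℝ) * T ^ (1 / 6 : ℝ) := Real.mul_rpow (by norm_num) hT0.le
          _ ≤ 2 * T ^ (1 / 6 : ℝ) := by
              refine mul_le_mul_of_nonneg_right ?_ (by positivity)
              calc (2 : ℝ) ^ (1 / 6 : ℝ) ≤ 2 ^ (1 : ℝ) := Real.rpow_le_rpow_of_exponent_le (by norm_num) (by norm_num)
                _ = 2 := Real.rpow_one 2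
      refine mul_le_mul h1 (h2.trans ?_) (norm_nonneg _) (by positivity)
      refine mul_le_mul_of_nonneg_left ?_ hK
      exact mul_le_mul h3 h4 (by positivity) (by positivity)
    refine (Finset.sum_le_sum hterm).trans ?_
    rw [Finset.sum_const, Finset.card_range, nsmul_eq_mul]
    have h5 : ((4 * N : ℕ) : ℝ) * ((L / N) * (K * ((2 * (N : ℝ) ^ (1 / 2 : ℝ)) * (2 * T ^ (1 / 6 : ℝ))))) =
        16 * L * K * (N : ℝ) ^ (1 / 2 : ℝ) * T ^ (1 / 6 : ℝ) := by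
      push_cast
      field_simp
      ring
    rw [h5]
    calc 16 * L * K * (N : ℝ) ^ (1 / 2 : ℝ) * T ^ (1 / 6 : ℝ) ≤ 16 * L * K * (N : ℝ) ^ (1 / 2 : ℝ) * T ^ (1 / 6 + ε) :=
          mul_le_mul_of_nonneg_left hTe (by positivity)
      _ ≤ (16 * L * K + 16 * L * 2 ^ 20) * (N : ℝ) ^ (1 / 2 : ℝ) * T ^ (1 / 6 + ε) := by
          have : 0 ≤ 16 * (L : ℝ) * 2 ^ 20 := by positivity
          gcongr
          linarith
  · -- bounded `T`
    have hNs : (N : ℝ) ≤ 2 ^ 20 * (N : ℝ) ^ (1 / 2 : ℝ) := by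
      have h1 : (N : ℝ) ≤ 2 ^ 40 := by
        calc (N : ℝ) ≤ T ^ (19 / 20 : ℝ) := hNT
          _ ≤ T ^ (1 : ℝ) := Real.rpow_le_rpow_of_exponent_le hT (by norm_num)
          _ = T := Real.rpow_one T
          _ ≤ 2 ^ 40 := hsmall.le
      have h2 : (N : ℝ) ^ (1 / 2 : ℝ) ≤ 2 ^ 20 := by
        calc (N : ℝ) ^ (1 / 2 : ℝ) ≤ ((2 : ℝ) ^ 40) ^ (1 / 2 : ℝ) := Real.rpow_le_rpow hN0.le h1 (by norm_num)
          _ = 2 ^ 20 := by
              rw [← Real.rpow_natCast, ← Real.rpow_mul (by norm_num)]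
              norm_num
      calc (N : ℝ) = (N : ℝ) ^ (1 / 2 : ℝ) * (N : ℝ) ^ (1 / 2 : ℝ) := by
            rw [← Real.rpow_add hN0]
            norm_num
        _ ≤ 2 ^ 20 * (N : ℝ) ^ (1 / 2 : ℝ) := mul_le_mul_of_nonneg_right h2 hsN
    unfold A
    refine (norm_sum_le _ _).trans ?_
    have hterm : ∀ n ∈ Finset.Icc 1 (4 * N), ‖((w ((n : ℝ) / N) : ℝ) : ℂ) * ch n (-t)‖ ≤ 4 * L := by
      intro n hn
      have hn' := (Finset.mem_Icc.1 hn).2
      have hn2 : (n : ℝ) ≤ 4 * N := by exact_mod_cast hn'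
      rw [norm_mul, norm_ch, mul_one, Complex.norm_real, Real.norm_eq_abs]
      have h1 := hlip ((n : ℝ) / N) 4
      rw [hw3 4 le_rfl, sub_zero] at h1
      refine h1.trans ?_
      have h2 : |(n : ℝ) / N - 4| ≤ 4 := by
        have h3 : 0 ≤ (n : ℝ) / N := by positivity
        have h4 : (n : ℝ) / N ≤ 4 := by
          rw [div_le_iff₀ hN0]
          exact hn2
        rw [abs_le]
        constructor <;> linarith
      calc (L : ℝ) * |(n : ℝ) / N - 4| ≤ L * 4 := mul_le_mul_of_nonneg_left h2 hL0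
        _ = 4 * L := by ring
    refine (Finset.sum_le_sum hterm).trans ?_
    rw [Finset.sum_const, Nat.card_Icc, Nat.add_sub_cancel, nsmul_eq_mul]
    push_cast
    calc 4 * (N : ℝ) * (4 * L) = 16 * L * N := by ring
      _ ≤ 16 * L * (2 ^ 20 * (N : ℝ) ^ (1 / 2 : ℝ)) := mul_le_mul_of_nonneg_left hNs (by positivity)
      _ = 16 * L * 2 ^ 20 * (N : ℝ) ^ (1 / 2 : ℝ) * 1 := by ring
      _ ≤ 16 * L * 2 ^ 20 * (N : ℝ) ^ (1 / 2 : ℝ) * T ^ (1 / 6 + ε) :=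
          mul_le_mul_of_nonneg_left hTe1 (by positivity)
      _ ≤ (16 * L * K + 16 * L * 2 ^ 20) * (N : ℝ) ^ (1 / 2 : ℝ) * T ^ (1 / 6 + ε) := by
          have : 0 ≤ 16 * (L : ℝ) * K := by positivity
          gcongr
          linarith

end Pool.Agent.Lib.TW
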