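import Pool.Agent.Lib.TW.La5
import Pool.Agent.Lib.TW.Pm

/-!
# TW / Lm5: large values with the third derivative test, measure
-/

set_option autoImplicit false

open MeasureTheory
open scoped FourierTransform

namespace Pool.Agent.Lib.TW

/-- PROOF (over `large5`, `pmax`). As `Lm` (helper96): the set is covered by the `[p, p+1]`, `p ∈ P`.  If `P ≠ ∅` then `W ≤ C N^(1/2) T^(1/6+ε')`, so
`1 ≤ C T^(6ε') T N³/W⁶`. -/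
theorem large_meas5 (w : ℝ → ℝ) (hw : Wt w) (hw1 : Wt fun x => w x * Real.log x) {ε : ℝ} (hε : 0 < ε) :
    ∃ C : ℝ, 0 ≤ C ∧ ∀ T : ℝ, 1 ≤ T → ∀ N : ℕ, 1 ≤ N → (N : ℝ) ≤ T ^ (19 / 20 : ℝ) → ∀ W : ℝ, 0 < W →
      (volume {t : ℝ | t ∈ Set.Icc T (2 * T) ∧ W ≤ ‖A w N t‖}).toReal ≤
        C * T ^ ε * (T * (N : ℝ) ^ 3 / W ^ 6 + T ^ 5 * (N : ℝ) ^ 16 / W ^ 32) := by
  classical
  obtain ⟨C1, hC1, h1⟩ := large5 w hw hw1 (ε := ε / 2) (by positivity)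
  obtain ⟨C2, hC2, h2⟩ := pmax w hw (ε := ε / 12) (by positivity)
  refine ⟨C1 * (C2 ^ 6 + 1), by positivity, fun T hT N hN hNT W hW => ?_⟩
  have hT0 : 0 < T := by linarith
  have hN0 : (0 : ℝ) < N := by exact_mod_cast hN
  obtain ⟨P, hP⟩ : ∃ P : Finset ℕ, P = (Finset.range (⌊2 * T⌋₊ + 1)).filter (fun p : ℕ =>
      ∃ t : ℝ, (p : ℝ) ≤ t ∧ t ≤ p + 1 ∧ T ≤ t ∧ t ≤ 2 * T ∧ W ≤ ‖A w N t‖) := ⟨_, rfl⟩
  have hmem : ∀ p ∈ P, ∃ t : ℝ, (p : ℝ) ≤ t ∧ t ≤ p + 1 ∧ T ≤ t ∧ t ≤ 2 * T ∧ W ≤ ‖A w N t‖ := by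
    intro p hp
    rw [hP, Finset.mem_filter] at hp
    exact hp.2
  have hcov : {t : ℝ | t ∈ Set.Icc T (2 * T) ∧ W ≤ ‖A w N t‖} ⊆ ⋃ p ∈ P, Set.Icc (p : ℝ) (p + 1) := by
    rintro t ⟨⟨ht1, ht2⟩, ht3⟩
    have h3 : (⌊t⌋₊ : ℝ) ≤ t := Nat.floor_le (by linarith)
    have h4 : t ≤ (⌊t⌋₊ : ℝ) + 1 := (Nat.lt_floor_add_one t).le
    refine Set.mem_biUnion (x := ⌊t⌋₊) ?_ ⟨h3, h4⟩
    show ⌊t⌋₊ ∈ P
    rw [hP, Finset.mem_filter, Finset.mem_range]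
    exact ⟨Nat.lt_succ_of_le (Nat.floor_le_floor ht2), t, h3, h4, ht1, ht2, ht3⟩
  have hvol : volume {t : ℝ | t ∈ Set.Icc T (2 * T) ∧ W ≤ ‖A w N t‖} ≤ (P.card : ENNReal) := by
    refine (measure_mono hcov).trans ((measure_biUnion_finset_le P _).trans (le_of_eq ?_))
    rw [Finset.sum_congr rfl (g := fun _ => (1 : ENNReal)) fun p _ => ?_]
    · simp
    · rw [Real.volume_Icc]
      simp
  have hcard : (volume {t : ℝ | t ∈ Set.Icc T (2 * T) ∧ W ≤ ‖A w N t‖}).toReal ≤ (P.card : ℝ) := by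
    have h3 := ENNReal.toReal_mono (ENNReal.natCast_ne_top _) hvol
    rwa [ENNReal.toReal_natCast] at h3
  refine hcard.trans ?_
  rcases P.eq_empty_or_nonempty with hPe | ⟨p0, hp0⟩
  · rw [hPe, Finset.card_empty, Nat.cast_zero]
    positivity
  have h3 := h1 T hT N hN hNT W hW P (fun p => if h : p ∈ P then (hmem p h).choose else 0) (by
    intro p hp
    simp only [dif_pos hp]
    exact (hmem p hp).choose_spec)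
  obtain ⟨t, _, _, ht1, ht2, ht3⟩ := hmem p0 hp0
  have h4 := ht3.trans (h2 T hT N hN hNT t ht1 ht2)
  have hNp : ((N : ℝ) ^ (1 / 2 : ℝ)) ^ 6 = (N : ℝ) ^ 3 := by
    rw [← Real.rpow_natCast, ← Real.rpow_mul hN0.le, ← Real.rpow_natCast]
    norm_num
  have hTp : (T ^ (1 / 6 + ε / 12)) ^ 6 = T * T ^ (ε / 2) := by
    rw [← Real.rpow_natCast, ← Real.rpow_mul hT0.le]
    have e : (1 / 6 + ε / 12) * (((6 : ℕ) : ℝ)) = 1 + ε / 2 := by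
      push_cast
      ring
    rw [e, Real.rpow_add hT0, Real.rpow_one]
  have h5 : W ^ 6 ≤ C2 ^ 6 * (N : ℝ) ^ 3 * (T * T ^ (ε / 2)) := by
    calc W ^ 6 ≤ (C2 * (N : ℝ) ^ (1 / 2 : ℝ) * T ^ (1 / 6 + ε / 12)) ^ 6 :=
          pow_le_pow_left₀ hW.le h4 6
      _ = C2 ^ 6 * ((N : ℝ) ^ (1 / 2 : ℝ)) ^ 6 * (T ^ (1 / 6 + ε / 12)) ^ 6 := by ring
      _ = C2 ^ 6 * (N : ℝ) ^ 3 * (T * T ^ (ε / 2)) := by rw [hNp, hTp]
  have hW6 : 0 < W ^ 6 := by positivity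
  have hTee : T ^ ε = T ^ (ε / 2) * T ^ (ε / 2) := by
    rw [← Real.rpow_add hT0]
    congr 1
    ring
  have hone : 1 ≤ T ^ (ε / 2) := Real.one_le_rpow hT (by positivity)
  obtain ⟨a, ha⟩ : ∃ a : ℝ, a = T ^ (ε / 2) := ⟨_, rfl⟩
  obtain ⟨q, hq⟩ : ∃ q : ℝ, q = T * (N : ℝ) ^ 3 / W ^ 6 := ⟨_, rfl⟩
  obtain ⟨r, hr⟩ : ∃ r : ℝ, r = T ^ 5 * (N : ℝ) ^ 16 / W ^ 32 := ⟨_, rfl⟩
  have hq0 : 0 ≤ q := by rw [hq]; positivity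
  have hr0 : 0 ≤ r := by rw [hr]; positivity
  have h6 : 1 ≤ C2 ^ 6 * a * q := by
    rw [hq, ha]
    have e : C2 ^ 6 * T ^ (ε / 2) * (T * (N : ℝ) ^ 3 / W ^ 6) =
        (C2 ^ 6 * (N : ℝ) ^ 3 * (T * T ^ (ε / 2))) / W ^ 6 := by
      ring
    rw [e, le_div_iff₀ hW6, one_mul]
    exact h5
  have e2 : C1 * (C2 ^ 6 + 1) * T ^ ε * (T * (N : ℝ) ^ 3 / W ^ 6 + T ^ 5 * (N : ℝ) ^ 16 / W ^ 32) =
      C1 * a * ((C2 ^ 6 + 1) * a * (q + r)) := by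
    rw [hTee, hq, hr, ha]; ring
  rw [e2]
  rw [← ha, ← hq, ← hr] at h3
  rw [← ha] at hone
  refine h3.trans (mul_le_mul_of_nonneg_left ?_ (by rw [ha]; positivity))
  have hc6 : 0 ≤ C2 ^ 6 := by positivity
  have ha0 : 0 ≤ a := by linarith
  have h7 : q + r ≤ a * (q + r) := by
    nlinarith [mul_nonneg (sub_nonneg.2 hone) (add_nonneg hq0 hr0)]
  have h8 : 0 ≤ C2 ^ 6 * a * r := by positivity
  have e3 : (C2 ^ 6 + 1) * a * (q + r) = C2 ^ 6 * a * q + C2 ^ 6 * a * r + a * (q + r) := by ring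
  rw [e3]
  linarith

end Pool.Agent.Lib.TW
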