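import Pool.Agent.Lib.TW.Defs

/-!
# TW / Lms: the local mean square
-/

set_option autoImplicit false

open MeasureTheory

namespace Pool.Agent.Lib.TW

private theorem lm_sq (w : ℝ → ℝ) (N : ℕ) (u : ℝ) :
    ‖A w N u‖ ^ 2 = ∑ m ∈ Finset.Icc 1 (4 * N), ∑ n ∈ Finset.Icc 1 (4 * N),
      w ((m : ℝ) / N) * w ((n : ℝ) / N) * Real.cos (u * Real.log ((m : ℝ) / n)) := by
  have h1 : ((‖A w N u‖ ^ 2 : ℝ) : ℂ) = A w N u * (starRingEnd ℂ) (A w N u) := by
    rw [Complex.mul_conj, Complex.sq_norm]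
  have h2 : ‖A w N u‖ ^ 2 = (A w N u * (starRingEnd ℂ) (A w N u)).re := by
    rw [← h1, Complex.ofReal_re]
  rw [h2]
  unfold A
  rw [map_sum, Finset.sum_mul_sum, Complex.re_sum]
  refine Finset.sum_congr rfl fun m hm => ?_
  rw [Complex.re_sum]
  refine Finset.sum_congr rfl fun n hn => ?_
  rw [Finset.mem_Icc] at hm hn
  have hm0 : (m : ℝ) ≠ 0 := by
    have : m ≠ 0 := by omega
    exact_mod_cast this
  have hn0 : (n : ℝ) ≠ 0 := by
    have : n ≠ 0 := by omega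
    exact_mod_cast this
  rw [map_mul, conj_ch, neg_neg, Complex.conj_ofReal]
  have e : ((w ((m : ℝ) / N) : ℝ) : ℂ) * ch m (-u) * (((w ((n : ℝ) / N) : ℝ) : ℂ) * ch n u) =
      ((w ((m : ℝ) / N) * w ((n : ℝ) / N) : ℝ) : ℂ) *
        Complex.exp (((-(u * Real.log ((m : ℝ) / n)) : ℝ) : ℂ) * Complex.I) := by
    unfold ch
    rw [Real.log_div hm0 hn0]
    have e2 : ((-(u * (Real.log m - Real.log n)) : ℝ) : ℂ) * Complex.I =
        ((-u * Real.log m : ℝ) : ℂ) * Complex.I + ((u * Real.log n : ℝ) : ℂ) * Complex.I := by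
      push_cast
      ring
    rw [e2, Complex.exp_add]
    push_cast
    ring
  rw [e, Complex.re_ofReal_mul, Complex.exp_ofReal_mul_I_re, Real.cos_neg]

private theorem lm_gauss {G : ℝ} (hG : 0 < G) (τ ξ : ℝ) :
    Integrable (fun u : ℝ => Real.cos (u * ξ) * Real.exp (-Real.pi * ((u - τ) / G) ^ 2)) ∧
    ∫ u : ℝ, Real.cos (u * ξ) * Real.exp (-Real.pi * ((u - τ) / G) ^ 2) =
      G * (Real.exp (-(G * ξ) ^ 2 / (4 * Real.pi)) * Real.cos (τ * ξ)) := by
  have hpi := Real.pi_pos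
  have hG' : (G : ℂ) ≠ 0 := by exact_mod_cast hG.ne'
  have hpi' : (Real.pi : ℂ) ≠ 0 := by exact_mod_cast hpi.ne'
  set b : ℂ := ((-(Real.pi / G ^ 2) : ℝ) : ℂ) with hb
  have hbre : b.re < 0 := by
    rw [hb, Complex.ofReal_re]
    have : 0 < Real.pi / G ^ 2 := by positivity
    linarith
  set c : ℂ := ((2 * Real.pi * τ / G ^ 2 : ℝ) : ℂ) + (ξ : ℂ) * Complex.I with hc
  set d : ℂ := ((-(Real.pi * τ ^ 2 / G ^ 2) : ℝ) : ℂ) with hd
  have hpt : ∀ u : ℝ, Real.cos (u * ξ) * Real.exp (-Real.pi * ((u - τ) / G) ^ 2) =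
      (Complex.exp (b * u ^ 2 + c * u + d)).re := by
    intro u
    have e1 : b * u ^ 2 + c * u + d = ((-Real.pi * ((u - τ) / G) ^ 2 : ℝ) : ℂ) + ((u * ξ : ℝ) : ℂ) * Complex.I := by
      rw [hb, hc, hd]
      push_cast
      field_simp
      ring
    rw [e1, Complex.exp_add, ← Complex.ofReal_exp, Complex.re_ofReal_mul, Complex.exp_ofReal_mul_I_re]
    ring
  have hint := integrable_cexp_quadratic' hbre c d
  have hval := integral_cexp_quadratic hbre c d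
  have hfun : (fun u : ℝ => Real.cos (u * ξ) * Real.exp (-Real.pi * ((u - τ) / G) ^ 2)) =
      fun u : ℝ => (Complex.exp (b * u ^ 2 + c * u + d)).re := funext hpt
  refine ⟨?_, ?_⟩
  · rw [hfun]
    exact hint.re
  · rw [hfun]
    have h1 : ∫ u : ℝ, (Complex.exp (b * u ^ 2 + c * u + d)).re = (∫ u : ℝ, Complex.exp (b * u ^ 2 + c * u + d)).re :=
      integral_re hint
    rw [h1, hval]
    have e2 : (Real.pi / -b : ℂ) ^ (1 / 2 : ℂ) = (G : ℂ) := by
      have e3 : (Real.pi / -b : ℂ) = ((G ^ 2 : ℝ) : ℂ) := by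
        rw [hb]
        push_cast
        field_simp
      have e4 : (1 / 2 : ℂ) = ((1 / 2 : ℝ) : ℂ) := by push_cast; rfl
      rw [e3, e4, ← Complex.ofReal_cpow (by positivity), ← Real.sqrt_eq_rpow, Real.sqrt_sq hG.le]
    have e5 : d - c ^ 2 / (4 * b) = ((-(G * ξ) ^ 2 / (4 * Real.pi) : ℝ) : ℂ) + ((τ * ξ : ℝ) : ℂ) * Complex.I := by
      have hI := Complex.I_sq
      rw [hb, hc, hd]
      push_cast
      field_simp
      ring_nf
      rw [hI]
      ring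
    rw [e2, e5, Complex.re_ofReal_mul, Complex.exp_add, ← Complex.ofReal_exp, Complex.re_ofReal_mul,
      Complex.exp_ofReal_mul_I_re]

/-- PROOF. Open the square: `‖A‖² = sum_(m,n) w(m/N) w(n/N) e^(-iu log(m/n))`; the Gaussian integral
`∫ e^(-π((u-τ)/G)²) e^(-iuξ) du = G e^(-iτξ) e^(-G²ξ²/4π)` (Mathlib: `fourierIntegral_gaussian_pi` or `integral_cexp_neg_mul_sq_add_const`
and a substitution); the sum is real (swap `m`, `n`). -/
theorem lm_eq (w : ℝ → ℝ) (N : ℕ) {G : ℝ} (hG : 0 < G) (τ : ℝ) :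
    LM w N G τ = G * ∑ m ∈ Finset.Icc 1 (4 * N), ∑ n ∈ Finset.Icc 1 (4 * N),
      w ((m : ℝ) / N) * w ((n : ℝ) / N) * gs G ((m : ℝ) / n) * Real.cos (τ * Real.log ((m : ℝ) / n)) := by
  have hI : ∀ m n : ℕ, Integrable (fun u : ℝ => w ((m : ℝ) / N) * w ((n : ℝ) / N) *
      (Real.cos (u * Real.log ((m : ℝ) / n)) * Real.exp (-Real.pi * ((u - τ) / G) ^ 2))) :=
    fun m n => (lm_gauss hG τ _).1.const_mul _
  unfold LM
  have h1 : ∀ u : ℝ, ‖A w N u‖ ^ 2 * Real.exp (-Real.pi * ((u - τ) / G) ^ 2) =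
      ∑ m ∈ Finset.Icc 1 (4 * N), ∑ n ∈ Finset.Icc 1 (4 * N), w ((m : ℝ) / N) * w ((n : ℝ) / N) *
      (Real.cos (u * Real.log ((m : ℝ) / n)) * Real.exp (-Real.pi * ((u - τ) / G) ^ 2)) := by
    intro u
    rw [lm_sq, Finset.sum_mul]
    refine Finset.sum_congr rfl fun m _ => ?_
    rw [Finset.sum_mul]
    exact Finset.sum_congr rfl fun n _ => mul_assoc _ _ _
  simp_rw [h1]
  rw [integral_finsetSum _ fun m _ => integrable_finsetSum _ fun n _ => hI m n, Finset.mul_sum]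
  refine Finset.sum_congr rfl fun m _ => ?_
  rw [integral_finsetSum _ fun n _ => hI m n, Finset.mul_sum]
  refine Finset.sum_congr rfl fun n _ => ?_
  rw [integral_const_mul, (lm_gauss hG τ _).2]
  unfold gs
  ring

end Pool.Agent.Lib.TW
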