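import Pool.Agent.Lib.TW.Lm

/-!
# TW / Mo: the twelfth power moment of a smooth block
-/

set_option autoImplicit false

open MeasureTheory

namespace Pool.Agent.Lib.TW

private theorem mo_cont (w : ℝ → ℝ) (N : ℕ) : Continuous fun t : ℝ => A w N t := by
  unfold A ch
  refine continuous_finsetSum _ fun n _ => ?_
  fun_prop

private theorem mo_bd (w : ℝ → ℝ) (hw : Wt w) : ∃ B : ℝ, 1 ≤ B ∧ ∀ x, |w x| ≤ B := by
  obtain ⟨C, hC⟩ := (isCompact_Icc (a := (1 / 2 : ℝ)) (b := 4)).exists_bound_of_continuousOn hw.1.continuous.continuousOn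
  refine ⟨max C 1, le_max_right _ _, fun x => ?_⟩
  by_cases h1 : x ≤ 1 / 2
  · rw [hw.2.1 x h1, abs_zero]
    exact le_trans zero_le_one (le_max_right _ _)
  · by_cases h2 : 4 ≤ x
    · rw [hw.2.2.1 x h2, abs_zero]
      exact le_trans zero_le_one (le_max_right _ _)
    · have h3 := hC x ⟨by linarith, by linarith⟩
      rw [Real.norm_eq_abs] at h3
      exact h3.trans (le_max_left _ _)

private theorem mo_le (w : ℝ → ℝ) (B : ℝ) (hB : ∀ x, |w x| ≤ B) (N : ℕ) (t : ℝ) : ‖A w N t‖ ≤ 4 * B * N := by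
  unfold A
  refine (norm_sum_le _ _).trans ?_
  have h1 : ∀ n ∈ Finset.Icc 1 (4 * N), ‖((w ((n : ℝ) / N) : ℝ) : ℂ) * ch n (-t)‖ ≤ B := by
    intro n _
    rw [norm_mul, norm_ch, mul_one, Complex.norm_real, Real.norm_eq_abs]
    exact hB _
  refine (Finset.sum_le_sum h1).trans ?_
  rw [Finset.sum_const, Nat.card_Icc, nsmul_eq_mul, Nat.add_sub_cancel]
  push_cast
  exact le_of_eq (by ring)

/-- the pointwise dyadic bound -/
private theorem mo_pt (K : ℕ) (x : ℝ) (hx0 : 0 ≤ x) (hx : x < 2 ^ K) :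
    x ^ 12 ≤ 1 + ∑ i ∈ Finset.range K, (2 : ℝ) ^ (12 * (i + 1)) * (if (2 : ℝ) ^ i ≤ x then 1 else 0) := by
  have hnn : ∀ i ∈ Finset.range K, (0 : ℝ) ≤ (2 : ℝ) ^ (12 * (i + 1)) * (if (2 : ℝ) ^ i ≤ x then 1 else 0) := by
    intro i _
    split_ifs <;> positivity
  rcases lt_or_ge x 1 with h1 | h1
  · have h2 : x ^ 12 ≤ 1 := pow_le_one₀ hx0 h1.le
    linarith [Finset.sum_nonneg hnn]
  · obtain ⟨i, hi1, hi2⟩ : ∃ i : ℕ, (2 : ℝ) ^ i ≤ x ∧ x < 2 ^ (i + 1) := exists_nat_pow_near h1 (by norm_num)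
    have hiK : i < K := by
      by_contra hc
      push Not at hc
      have : (2 : ℝ) ^ K ≤ 2 ^ i := pow_le_pow_right₀ (by norm_num) hc
      linarith
    have h3 := Finset.single_le_sum hnn (Finset.mem_range.2 hiK)
    rw [if_pos hi1, mul_one] at h3
    have h4 : x ^ 12 ≤ (2 : ℝ) ^ (12 * (i + 1)) := by
      calc x ^ 12 ≤ (2 ^ (i + 1)) ^ 12 := pow_le_pow_left₀ hx0 hi2.le 12
        _ = 2 ^ (12 * (i + 1)) := by rw [← pow_mul, mul_comm]
    linarith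

/-- the dyadic decomposition of the moment -/
private theorem mo_int (f : ℝ → ℝ) (hf : Continuous f) (hf0 : ∀ t, 0 ≤ f t) (K : ℕ) (hK : ∀ t, f t < 2 ^ K) (a b V : ℝ) (hab : a ≤ b)
    (hV : ∀ W : ℝ, 0 < W → (volume {t : ℝ | t ∈ Set.Icc a b ∧ W ≤ f t}).toReal ≤ V / W ^ 12) :
    ∫ u in a..b, f u ^ 12 ≤ (b - a) + K * (2 ^ 12 * V) := by
  rw [intervalIntegral.integral_of_le hab]
  set μ := volume.restrict (Set.Ioc a b) with hμ
  have hS : ∀ i : ℕ, MeasurableSet {t : ℝ | (2 : ℝ) ^ i ≤ f t} := fun i => measurableSet_le measurable_const hf.measurable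
  have hI1 : Integrable (fun u => f u ^ 12) μ := by
    rw [hμ]
    exact ((hf.pow 12).integrableOn_Icc (a := a) (b := b)).mono_set Set.Ioc_subset_Icc_self
  have hI2 : ∀ i ∈ Finset.range K, Integrable (fun u => (2 : ℝ) ^ (12 * (i + 1)) * ({t : ℝ | (2 : ℝ) ^ i ≤ f t}.indicator 1 u)) μ := by
    intro i _
    refine Integrable.const_mul ?_ _
    exact (integrable_const (1 : ℝ)).indicator (hS i)
  have h1 : ∫ u, f u ^ 12 ∂μ ≤ ∫ u, (1 + ∑ i ∈ Finset.range K, (2 : ℝ) ^ (12 * (i + 1)) * ({t : ℝ | (2 : ℝ) ^ i ≤ f t}.indicator 1 u)) ∂μ := by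
    refine integral_mono hI1 ((integrable_const _).add (integrable_finsetSum _ hI2)) fun u => ?_
    refine (mo_pt K (f u) (hf0 u) (hK u)).trans (le_of_eq ?_)
    congr 1
  refine h1.trans ?_
  rw [integral_add (integrable_const _) (integrable_finsetSum _ hI2), integral_finsetSum _ hI2]
  have h2 : ∫ _u, (1 : ℝ) ∂μ = b - a := by
    rw [hμ, integral_const, smul_eq_mul, mul_one, measureReal_restrict_apply_univ, Real.volume_real_Ioc_of_le hab]
  rw [h2]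
  have h3 : ∀ i ∈ Finset.range K, ∫ u, (2 : ℝ) ^ (12 * (i + 1)) * ({t : ℝ | (2 : ℝ) ^ i ≤ f t}.indicator 1 u) ∂μ ≤ 2 ^ 12 * V := by
    intro i _
    rw [integral_const_mul, integral_indicator_one (hS i), hμ, measureReal_restrict_apply (hS i)]
    have h4 : volume.real ({t : ℝ | (2 : ℝ) ^ i ≤ f t} ∩ Set.Ioc a b) ≤ (volume {t : ℝ | t ∈ Set.Icc a b ∧ (2 : ℝ) ^ i ≤ f t}).toReal := by
      refine measureReal_mono (fun t ht => ⟨Set.Ioc_subset_Icc_self ht.2, ht.1⟩) ?_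
      refine ne_top_of_le_ne_top ?_ (measure_mono (fun t ht => ht.1 : {t : ℝ | t ∈ Set.Icc a b ∧ (2 : ℝ) ^ i ≤ f t} ⊆ Set.Icc a b))
      rw [Real.volume_Icc]
      exact ENNReal.ofReal_ne_top
    have h5 := h4.trans (hV (2 ^ i) (by positivity))
    calc (2 : ℝ) ^ (12 * (i + 1)) * volume.real ({t : ℝ | (2 : ℝ) ^ i ≤ f t} ∩ Set.Ioc a b)
        ≤ (2 : ℝ) ^ (12 * (i + 1)) * (V / (2 ^ i) ^ 12) := mul_le_mul_of_nonneg_left h5 (by positivity)
      _ = 2 ^ 12 * V := by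
        have e : (2 : ℝ) ^ (12 * (i + 1)) = (2 ^ i) ^ 12 * 2 ^ 12 := by
          rw [← pow_mul, ← pow_add]
          congr 1
          ring
        rw [e]
        field_simp
  have h6 := Finset.sum_le_sum h3
  rw [Finset.sum_const, Finset.card_range, nsmul_eq_mul] at h6
  linarith

/-- PROOF (over `large_meas`). Bounded `T`: trivial (`‖A‖ ≤ 4BN`, `N ≤ T`).  `T ≥ 2^19`: `T^(9/10) ≤ (T/2)^(19/20)`, so `large_meas` applies on
`[T/2, T]`, `[T, 2T]`, `[2T, 4T]`.  `‖A‖ ≤ 4BN`: `∫ ‖A‖^12 ≤ 4T + sum_(0 ≤ i ≤ log₂(4BN)) 2^(12(i+1)) vol{‖A‖ ≥ 2^i}`, at most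
`C log T` terms, each `≤ C T^(2+ε') N⁶`. -/
theorem mom12 (w : ℝ → ℝ) (hw : Wt w) (hw1 : Wt fun x => w x * Real.log x) {ε : ℝ} (hε : 0 < ε) :
    ∃ C : ℝ, 0 ≤ C ∧ ∀ T : ℝ, 1 ≤ T → ∀ N : ℕ, 1 ≤ N → (N : ℝ) ≤ T ^ (9 / 10 : ℝ) →
      ∫ u in (T / 2)..(4 * T), ‖A w N u‖ ^ 12 ≤ C * T ^ (2 + ε) * (N : ℝ) ^ 6 := by
  obtain ⟨B, hB1, hB⟩ := mo_bd w hw
  obtain ⟨C1, hC1, hlm⟩ := large_meas w hw hw1 (ε := ε / 2) (by linarith)
  have hl2 : 0 < Real.log 2 := Real.log_pos (by norm_num)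
  set C2 : ℝ := Real.log (4 * B + 2) / Real.log 2 + 1 + 1 / (ε / 2) / Real.log 2 with hC2
  have hlB : 0 ≤ Real.log (4 * B + 2) := Real.log_nonneg (by linarith)
  have hC20 : 0 ≤ C2 := by positivity
  set C3 : ℝ := 3 * C1 * 2 ^ (2 + ε / 2) with hC3
  have hC30 : 0 ≤ C3 := by positivity
  refine ⟨4 * (4 * B) ^ 12 * (2 ^ 19) ^ 6 + (4 + C2 * (2 ^ 12 * C3)), by positivity, ?_⟩
  intro T hT N hN hNT
  have hN1 : (1 : ℝ) ≤ N := by exact_mod_cast hN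
  have hT0 : 0 < T := by linarith
  have hNT1 : (N : ℝ) ≤ T := by
    refine hNT.trans ?_
    calc T ^ (9 / 10 : ℝ) ≤ T ^ (1 : ℝ) := Real.rpow_le_rpow_of_exponent_le hT (by norm_num)
      _ = T := Real.rpow_one T
  have hcont : Continuous fun u : ℝ => ‖A w N u‖ := (mo_cont w N).norm
  have hTe : T ≤ T ^ (2 + ε) := by
    calc T = T ^ (1 : ℝ) := (Real.rpow_one T).symm
      _ ≤ T ^ (2 + ε) := Real.rpow_le_rpow_of_exponent_le hT (by linarith)
  have hN6 : (1 : ℝ) ≤ (N : ℝ) ^ 6 := one_le_pow₀ hN1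
  have hX0 : 0 ≤ T ^ (2 + ε) * (N : ℝ) ^ 6 := by positivity
  have hab : T / 2 ≤ 4 * T := by linarith
  rcases lt_or_ge T (2 ^ 19) with hs | hs
  · -- small `T`
    have h1 : ∫ u in (T / 2)..(4 * T), ‖A w N u‖ ^ 12 ≤ ∫ _u in (T / 2)..(4 * T), (4 * B * (N : ℝ)) ^ 12 := by
      refine intervalIntegral.integral_mono_on hab ((hcont.pow 12).intervalIntegrable _ _) (continuous_const.intervalIntegrable _ _) ?_
      intro u _
      exact pow_le_pow_left₀ (norm_nonneg _) (mo_le w B hB N u) 12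
    rw [intervalIntegral.integral_const, smul_eq_mul] at h1
    have h2 : (4 * T - T / 2) * (4 * B * (N : ℝ)) ^ 12 ≤ 4 * (4 * B) ^ 12 * (2 ^ 19) ^ 6 * (T ^ (2 + ε) * (N : ℝ) ^ 6) := by
      have h3 : (N : ℝ) ^ 6 ≤ (2 ^ 19) ^ 6 := pow_le_pow_left₀ (by linarith) (by linarith) 6
      calc (4 * T - T / 2) * (4 * B * (N : ℝ)) ^ 12 ≤ (4 * T) * (4 * B * (N : ℝ)) ^ 12 :=
            mul_le_mul_of_nonneg_right (by linarith) (by positivity)
        _ = 4 * (4 * B) ^ 12 * (N : ℝ) ^ 6 * (T * (N : ℝ) ^ 6) := by ring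
        _ ≤ 4 * (4 * B) ^ 12 * (2 ^ 19) ^ 6 * (T ^ (2 + ε) * (N : ℝ) ^ 6) := by
            refine mul_le_mul ?_ ?_ (by positivity) (by positivity)
            · exact mul_le_mul_of_nonneg_left h3 (by positivity)
            · exact mul_le_mul_of_nonneg_right hTe (by positivity)
    calc _ ≤ _ := h1
      _ ≤ _ := h2
      _ ≤ (4 * (4 * B) ^ 12 * (2 ^ 19) ^ 6 + (4 + C2 * (2 ^ 12 * C3))) * (T ^ (2 + ε) * (N : ℝ) ^ 6) := by
          refine mul_le_mul_of_nonneg_right ?_ hX0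
          have : 0 ≤ 4 + C2 * (2 ^ 12 * C3) := by positivity
          linarith
      _ = _ := by ring
  · -- large `T`
    have hexp : T ^ (9 / 10 : ℝ) ≤ (T / 2) ^ (19 / 20 : ℝ) := by
      rw [Real.div_rpow hT0.le (by norm_num), le_div_iff₀ (by positivity)]
      have h1 : (2 : ℝ) ^ (19 / 20 : ℝ) ≤ T ^ (1 / 20 : ℝ) := by
        calc (2 : ℝ) ^ (19 / 20 : ℝ) = ((2 : ℝ) ^ (19 : ℝ)) ^ (1 / 20 : ℝ) := by
              rw [← Real.rpow_mul (by norm_num)]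
              norm_num
          _ ≤ T ^ (1 / 20 : ℝ) := by
              refine Real.rpow_le_rpow (by positivity) ?_ (by norm_num)
              have : (2 : ℝ) ^ (19 : ℝ) = 2 ^ 19 := by
                rw [← Real.rpow_natCast]
                norm_num
              rw [this]
              exact hs
      calc T ^ (9 / 10 : ℝ) * 2 ^ (19 / 20 : ℝ) ≤ T ^ (9 / 10 : ℝ) * T ^ (1 / 20 : ℝ) := mul_le_mul_of_nonneg_left h1 (by positivity)
        _ = T ^ (19 / 20 : ℝ) := by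
            rw [← Real.rpow_add hT0]
            norm_num
    have hmono : ∀ S : ℝ, T / 2 ≤ S → (N : ℝ) ≤ S ^ (19 / 20 : ℝ) := fun S hS =>
      hNT.trans (hexp.trans (Real.rpow_le_rpow (by positivity) hS (by norm_num)))
    have hS : ∀ S : ℝ, 1 ≤ S → T / 2 ≤ S → S ≤ 2 * T → ∀ W : ℝ, 0 < W →
        (volume {t : ℝ | t ∈ Set.Icc S (2 * S) ∧ W ≤ ‖A w N t‖}).toReal ≤ C1 * 2 ^ (2 + ε / 2) * T ^ (2 + ε / 2) * (N : ℝ) ^ 6 / W ^ 12 := by
      intro S hS1 hS2 hS3 W hW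
      refine (hlm S hS1 N hN (hmono S hS2) W hW).trans ?_
      refine div_le_div_of_nonneg_right ?_ (by positivity)
      refine mul_le_mul_of_nonneg_right ?_ (by positivity)
      rw [mul_assoc]
      refine mul_le_mul_of_nonneg_left ?_ hC1
      rw [← Real.mul_rpow (by norm_num) hT0.le]
      exact Real.rpow_le_rpow (by linarith) hS3 (by linarith)
    have hV : ∀ W : ℝ, 0 < W → (volume {t : ℝ | t ∈ Set.Icc (T / 2) (4 * T) ∧ W ≤ ‖A w N t‖}).toReal ≤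
        (C3 * T ^ (2 + ε / 2) * (N : ℝ) ^ 6) / W ^ 12 := by
      intro W hW
      have hT2 : (1 : ℝ) ≤ T / 2 := by
        have : (2 : ℝ) ≤ 2 ^ 19 := by norm_num
        linarith
      have h1 := hS (T / 2) hT2 le_rfl (by linarith) W hW
      have h2 := hS T hT (by linarith) (by linarith) W hW
      have h3 := hS (2 * T) (by linarith) (by linarith) le_rfl W hW
      have hfin : ∀ S S' : ℝ, volume {t : ℝ | t ∈ Set.Icc S S' ∧ W ≤ ‖A w N t‖} ≠ ⊤ := by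
        intro S S'
        refine ne_top_of_le_ne_top ?_ (measure_mono (fun t ht => ht.1 : {t : ℝ | t ∈ Set.Icc S S' ∧ W ≤ ‖A w N t‖} ⊆ Set.Icc S S'))
        rw [Real.volume_Icc]
        exact ENNReal.ofReal_ne_top
      have hsub : {t : ℝ | t ∈ Set.Icc (T / 2) (4 * T) ∧ W ≤ ‖A w N t‖} ⊆
          ({t : ℝ | t ∈ Set.Icc (T / 2) (2 * (T / 2)) ∧ W ≤ ‖A w N t‖} ∪ {t : ℝ | t ∈ Set.Icc T (2 * T) ∧ W ≤ ‖A w N t‖}) ∪
            {t : ℝ | t ∈ Set.Icc (2 * T) (2 * (2 * T)) ∧ W ≤ ‖A w N t‖} := by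
        rintro t ⟨⟨ht1, ht2⟩, ht3⟩
        rcases le_total t T with h | h
        · exact Or.inl (Or.inl ⟨⟨ht1, by linarith⟩, ht3⟩)
        · rcases le_total t (2 * T) with h' | h'
          · exact Or.inl (Or.inr ⟨⟨h, h'⟩, ht3⟩)
          · exact Or.inr ⟨⟨h', by linarith⟩, ht3⟩
      have h4 : volume.real {t : ℝ | t ∈ Set.Icc (T / 2) (4 * T) ∧ W ≤ ‖A w N t‖} ≤
          (volume.real {t : ℝ | t ∈ Set.Icc (T / 2) (2 * (T / 2)) ∧ W ≤ ‖A w N t‖} + volume.real {t : ℝ | t ∈ Set.Icc T (2 * T) ∧ W ≤ ‖A w N t‖}) +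
            volume.real {t : ℝ | t ∈ Set.Icc (2 * T) (2 * (2 * T)) ∧ W ≤ ‖A w N t‖} := by
        refine (measureReal_mono hsub ?_).trans ?_
        · exact measure_union_ne_top (measure_union_ne_top (hfin _ _) (hfin _ _)) (hfin _ _)
        · refine (measureReal_union_le _ _).trans ?_
          have := measureReal_union_le (μ := (volume : Measure ℝ)) {t : ℝ | t ∈ Set.Icc (T / 2) (2 * (T / 2)) ∧ W ≤ ‖A w N t‖}
            {t : ℝ | t ∈ Set.Icc T (2 * T) ∧ W ≤ ‖A w N t‖}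
          linarith
      have h5 : (C3 * T ^ (2 + ε / 2) * (N : ℝ) ^ 6) / W ^ 12 = 3 * (C1 * 2 ^ (2 + ε / 2) * T ^ (2 + ε / 2) * (N : ℝ) ^ 6 / W ^ 12) := by
        rw [hC3]
        ring
      rw [h5]
      unfold Measure.real at h4
      linarith
    -- the number of dyadic values
    set m : ℕ := ⌈4 * B * (N : ℝ)⌉₊ + 1 with hm
    set K : ℕ := Nat.log 2 m + 1 with hK
    have hmK : (m : ℝ) < 2 ^ K := by
      exact_mod_cast Nat.lt_pow_succ_log_self (by norm_num) m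
    have hfK : ∀ t, ‖A w N t‖ < 2 ^ K := by
      intro t
      have h1 := mo_le w B hB N t
      have h2 : 4 * B * (N : ℝ) ≤ ⌈4 * B * (N : ℝ)⌉₊ := Nat.le_ceil _
      have h3 : (m : ℝ) = ⌈4 * B * (N : ℝ)⌉₊ + 1 := by
        rw [hm]
        push_cast
        rfl
      linarith
    have hTh : 1 ≤ T ^ (ε / 2) := Real.one_le_rpow hT (by linarith)
    have hKb : (K : ℝ) ≤ C2 * T ^ (ε / 2) := by
      have h1 : ((2 ^ (Nat.log 2 m) : ℕ) : ℝ) ≤ m := by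
        exact_mod_cast Nat.pow_log_le_self 2 (by omega)
      have h2 : (m : ℝ) ≤ (4 * B + 2) * T := by
        have h3 : (m : ℝ) = ⌈4 * B * (N : ℝ)⌉₊ + 1 := by
          rw [hm]
          push_cast
          rfl
        have h4 : (⌈4 * B * (N : ℝ)⌉₊ : ℝ) < 4 * B * (N : ℝ) + 1 := Nat.ceil_lt_add_one (by positivity)
        have h5 : 4 * B * (N : ℝ) ≤ 4 * B * T := mul_le_mul_of_nonneg_left hNT1 (by linarith)
        nlinarith
      have h6 : Real.log ((2 ^ (Nat.log 2 m) : ℕ) : ℝ) ≤ Real.log ((4 * B + 2) * T) :=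
        Real.log_le_log (by positivity) (h1.trans h2)
      rw [Real.log_mul (by positivity) (by positivity)] at h6
      push_cast at h6
      rw [Real.log_pow] at h6
      have h7 : Real.log T ≤ T ^ (ε / 2) / (ε / 2) := Real.log_le_rpow_div hT0.le (by linarith)
      have h8 : (Nat.log 2 m : ℝ) ≤ (Real.log (4 * B + 2) + T ^ (ε / 2) / (ε / 2)) / Real.log 2 := by
        rw [le_div_iff₀ hl2]
        linarith
      have h9 : (K : ℝ) = (Nat.log 2 m : ℝ) + 1 := by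
        rw [hK]
        push_cast
        rfl
      rw [h9, hC2]
      have h10 : (Real.log (4 * B + 2) + T ^ (ε / 2) / (ε / 2)) / Real.log 2 + 1 ≤
          (Real.log (4 * B + 2) / Real.log 2 + 1 + 1 / (ε / 2) / Real.log 2) * T ^ (ε / 2) := by
        have e1 : (Real.log (4 * B + 2) + T ^ (ε / 2) / (ε / 2)) / Real.log 2 + 1 =
            (Real.log (4 * B + 2) / Real.log 2 + 1) + 1 / (ε / 2) / Real.log 2 * T ^ (ε / 2) := by
          ring
        rw [e1, add_mul (Real.log (4 * B + 2) / Real.log 2 + 1)]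
        have h11 : 0 ≤ Real.log (4 * B + 2) / Real.log 2 + 1 := by positivity
        have h12 : (Real.log (4 * B + 2) / Real.log 2 + 1) * 1 ≤ (Real.log (4 * B + 2) / Real.log 2 + 1) * T ^ (ε / 2) :=
          mul_le_mul_of_nonneg_left hTh h11
        linarith
      linarith
    have hV0 : 0 ≤ C3 * T ^ (2 + ε / 2) * (N : ℝ) ^ 6 := by positivity
    have key := mo_int (fun u => ‖A w N u‖) hcont (fun t => norm_nonneg _) K hfK (T / 2) (4 * T) (C3 * T ^ (2 + ε / 2) * (N : ℝ) ^ 6) hab hV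
    refine key.trans ?_
    have h13 : (K : ℝ) * (2 ^ 12 * (C3 * T ^ (2 + ε / 2) * (N : ℝ) ^ 6)) ≤ C2 * (2 ^ 12 * C3) * (T ^ (2 + ε) * (N : ℝ) ^ 6) := by
      calc (K : ℝ) * (2 ^ 12 * (C3 * T ^ (2 + ε / 2) * (N : ℝ) ^ 6))
          ≤ (C2 * T ^ (ε / 2)) * (2 ^ 12 * (C3 * T ^ (2 + ε / 2) * (N : ℝ) ^ 6)) := mul_le_mul_of_nonneg_right hKb (by positivity)
        _ = C2 * (2 ^ 12 * C3) * ((T ^ (ε / 2) * T ^ (2 + ε / 2)) * (N : ℝ) ^ 6) := by ring
        _ = C2 * (2 ^ 12 * C3) * (T ^ (2 + ε) * (N : ℝ) ^ 6) := by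
            rw [← Real.rpow_add hT0, show ε / 2 + (2 + ε / 2) = 2 + ε by ring]
    have h14 : 4 * T - T / 2 ≤ 4 * (T ^ (2 + ε) * (N : ℝ) ^ 6) := by
      have : T ^ (2 + ε) ≤ T ^ (2 + ε) * (N : ℝ) ^ 6 := le_mul_of_one_le_right (by positivity) hN6
      linarith
    have h15 : 0 ≤ 4 * (4 * B) ^ 12 * (2 ^ 19) ^ 6 * (T ^ (2 + ε) * (N : ℝ) ^ 6) := by positivity
    calc (4 * T - T / 2) + (K : ℝ) * (2 ^ 12 * (C3 * T ^ (2 + ε / 2) * (N : ℝ) ^ 6))
        ≤ 4 * (T ^ (2 + ε) * (N : ℝ) ^ 6) + C2 * (2 ^ 12 * C3) * (T ^ (2 + ε) * (N : ℝ) ^ 6) := add_le_add h14 h13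
      _ ≤ 4 * (4 * B) ^ 12 * (2 ^ 19) ^ 6 * (T ^ (2 + ε) * (N : ℝ) ^ 6) +
          (4 * (T ^ (2 + ε) * (N : ℝ) ^ 6) + C2 * (2 ^ 12 * C3) * (T ^ (2 + ε) * (N : ℝ) ^ 6)) := by linarith
      _ = (4 * (4 * B) ^ 12 * (2 ^ 19) ^ 6 + (4 + C2 * (2 ^ 12 * C3))) * T ^ (2 + ε) * (N : ℝ) ^ 6 := by ring

end Pool.Agent.Lib.TW
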