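import Pool.Agent.Lib.TW.Defs

/-!
# TW / Vn: first derivative test, the phase derivative bounded below
-/

set_option autoImplicit false

open MeasureTheory

namespace Pool.Agent.Lib.TW

/-- `p / q` and its derivative -/
private theorem vn_deriv {p p' q q' : ℝ → ℝ} {x : ℝ} (hp : HasDerivAt p (p' x) x) (hq : HasDerivAt q (q' x) x) (h0 : q x ≠ 0)
    {β β' : ℝ → ℂ} (hβ : HasDerivAt β (β' x) x) :
    HasDerivAt (fun y => β y * ((p y / q y : ℝ) : ℂ))
      (β' x * ((p x / q x : ℝ) : ℂ) + β x * (((p' x * q x - p x * q' x) / q x ^ 2 : ℝ) : ℂ)) x :=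
  hβ.mul (hp.div hq h0).ofReal_comp

/-- PROOF. `e^(iφ) = (p/(iq)) (e^(iφ))'`, integration by parts: boundary terms `≤ 2BP/Q₀`, and
`∫ |(β p/q)'| ≤ ∫ (|β'| P/|q| + |β| |p'|/|q| + |β| P q'/q²) ≤ (8 + 8 + 1) B P/Q₀` (`q` is monotone of constant sign, so
`∫ q'/q² ≤ 1/Q₀`). -/
theorem vcn : ∃ C : ℝ, 0 ≤ C ∧ ∀ (a b Y B P Q₀ : ℝ) (β β' : ℝ → ℂ) (φ p p' q q' : ℝ → ℝ), a ≤ b → 0 < Y → b - a ≤ 8 * Y → 0 < Q₀ →
    (∀ x ∈ Set.Icc a b, HasDerivAt β (β' x) x ∧ HasDerivAt φ (q x / p x) x ∧ HasDerivAt p (p' x) x ∧ HasDerivAt q (q' x) x) →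
    ContinuousOn β' (Set.Icc a b) → ContinuousOn p' (Set.Icc a b) → ContinuousOn q' (Set.Icc a b) →
    (∀ x ∈ Set.Icc a b, ‖β x‖ ≤ B ∧ ‖β' x‖ ≤ B / Y ∧ 0 < p x ∧ p x ≤ P ∧ |p' x| ≤ P / Y ∧ 0 ≤ q' x ∧ Q₀ ≤ |q x|) →
    ‖∫ x in a..b, β x * Complex.exp ((φ x : ℂ) * Complex.I)‖ ≤ C * B * P / Q₀ := by
  refine ⟨20, by norm_num, ?_⟩
  intro a b Y B P Q₀ β β' φ p p' q q' hab hY hbY hQ hd hcβ hcp hcq hb
  have ha : a ∈ Set.Icc a b := ⟨le_rfl, hab⟩
  have hbb : b ∈ Set.Icc a b := ⟨hab, le_rfl⟩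
  have hB : 0 ≤ B := (norm_nonneg _).trans (hb a ha).1
  have hP : 0 < P := (hb a ha).2.2.1.trans_le (hb a ha).2.2.2.1
  have hq0 : ∀ x ∈ Set.Icc a b, q x ≠ 0 := by
    intro x hx h0
    have h1 := (hb x hx).2.2.2.2.2.2
    rw [h0, abs_zero] at h1
    linarith
  have hp0 : ∀ x ∈ Set.Icc a b, p x ≠ 0 := fun x hx => ((hb x hx).2.2.1).ne'
  have huI : Set.uIcc a b = Set.Icc a b := Set.uIcc_of_le hab
  -- the functions
  set w : ℝ → ℂ := fun y => β y * ((p y / q y : ℝ) : ℂ) with hw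
  set w' : ℝ → ℂ := fun x => β' x * ((p x / q x : ℝ) : ℂ) + β x * (((p' x * q x - p x * q' x) / q x ^ 2 : ℝ) : ℂ) with hw'
  set E : ℝ → ℂ := fun x => Complex.exp ((φ x : ℂ) * Complex.I) with hE
  set E' : ℝ → ℂ := fun x => Complex.exp ((φ x : ℂ) * Complex.I) * (((q x / p x : ℝ) : ℂ) * Complex.I) with hE'
  have hcontβ : ContinuousOn β (Set.Icc a b) := fun x hx => (hd x hx).1.continuousAt.continuousWithinAt
  have hcontφ : ContinuousOn φ (Set.Icc a b) := fun x hx => (hd x hx).2.1.continuousAt.continuousWithinAt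
  have hcontp : ContinuousOn p (Set.Icc a b) := fun x hx => (hd x hx).2.2.1.continuousAt.continuousWithinAt
  have hcontq : ContinuousOn q (Set.Icc a b) := fun x hx => (hd x hx).2.2.2.continuousAt.continuousWithinAt
  have hdw : ∀ x ∈ Set.uIcc a b, HasDerivAt w (w' x) x := by
    intro x hx
    rw [huI] at hx
    exact vn_deriv (hd x hx).2.2.1 (hd x hx).2.2.2 (hq0 x hx) (hd x hx).1
  have hdE : ∀ x ∈ Set.uIcc a b, HasDerivAt E (E' x) x := by
    intro x hx
    rw [huI] at hx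
    exact ((hd x hx).2.1.ofReal_comp.mul_const Complex.I).cexp
  have hcofReal : ∀ f : ℝ → ℝ, ContinuousOn f (Set.Icc a b) → ContinuousOn (fun x => ((f x : ℝ) : ℂ)) (Set.Icc a b) :=
    fun f hf => Complex.continuous_ofReal.comp_continuousOn hf
  have hcw' : ContinuousOn w' (Set.Icc a b) := by
    refine (hcβ.mul (hcofReal _ (hcontp.div hcontq hq0))).add (hcontβ.mul (hcofReal _ ?_))
    exact ((hcp.mul hcontq).sub (hcontp.mul hcq)).div (hcontq.pow 2) fun x hx => pow_ne_zero 2 (hq0 x hx)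
  have hcE : ContinuousOn E (Set.Icc a b) :=
    Complex.continuous_exp.comp_continuousOn ((hcofReal _ hcontφ).mul continuousOn_const)
  have hcE' : ContinuousOn E' (Set.Icc a b) :=
    hcE.mul ((hcofReal _ (hcontq.div hcontp hp0)).mul continuousOn_const)
  have hparts := intervalIntegral.integral_mul_deriv_eq_deriv_mul hdw hdE
    (ContinuousOn.intervalIntegrable (by rw [huI]; exact hcw')) (ContinuousOn.intervalIntegrable (by rw [huI]; exact hcE'))
  have h1 : ∫ x in a..b, w x * E' x = Complex.I * ∫ x in a..b, β x * Complex.exp ((φ x : ℂ) * Complex.I) := by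
    rw [← intervalIntegral.integral_const_mul]
    refine intervalIntegral.integral_congr fun x hx => ?_
    rw [huI] at hx
    have hq1 : ((q x : ℝ) : ℂ) ≠ 0 := by exact_mod_cast hq0 x hx
    have hp1 : ((p x : ℝ) : ℂ) ≠ 0 := by exact_mod_cast hp0 x hx
    show β x * ((p x / q x : ℝ) : ℂ) * (Complex.exp ((φ x : ℂ) * Complex.I) * (((q x / p x : ℝ) : ℂ) * Complex.I)) =
      Complex.I * (β x * Complex.exp ((φ x : ℂ) * Complex.I))
    push_cast
    field_simp
  have hnormE : ∀ x, ‖E x‖ = 1 := fun x => Complex.norm_exp_ofReal_mul_I (φ x)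
  have hpq : ∀ x ∈ Set.Icc a b, |p x / q x| ≤ P / Q₀ := by
    intro x hx
    obtain ⟨_, _, h3, h4, _, _, h7⟩ := hb x hx
    rw [abs_div, abs_of_pos h3]
    exact div_le_div₀ hP.le h4 hQ h7
  have hbd : ∀ x ∈ Set.Icc a b, ‖w x * E x‖ ≤ B * (P / Q₀) := by
    intro x hx
    rw [norm_mul, hnormE, mul_one]
    show ‖β x * ((p x / q x : ℝ) : ℂ)‖ ≤ _
    rw [norm_mul, Complex.norm_real, Real.norm_eq_abs]
    exact mul_le_mul (hb x hx).1 (hpq x hx) (abs_nonneg _) hB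
  set g : ℝ → ℝ := fun x => 2 * (B * P / (Y * Q₀)) + B * P * (q' x / q x ^ 2) with hg
  have hgb : ∀ x ∈ Set.Icc a b, ‖w' x * E x‖ ≤ g x := by
    intro x hx
    obtain ⟨h1, h2, h3, h4, h5, h6, h7⟩ := hb x hx
    have hq2 : (0 : ℝ) < |q x| := hQ.trans_le h7
    rw [norm_mul, hnormE, mul_one]
    have e1 : (p' x * q x - p x * q' x) / q x ^ 2 = p' x / q x - p x * q' x / q x ^ 2 := by
      have := hq0 x hx
      field_simp
    have t1 : ‖β' x * ((p x / q x : ℝ) : ℂ)‖ ≤ B * P / (Y * Q₀) := by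
      rw [norm_mul, Complex.norm_real, Real.norm_eq_abs]
      calc ‖β' x‖ * |p x / q x| ≤ B / Y * (P / Q₀) := mul_le_mul h2 (hpq x hx) (abs_nonneg _) (by positivity)
        _ = B * P / (Y * Q₀) := by field_simp
    have t2 : ‖β x * (((p' x * q x - p x * q' x) / q x ^ 2 : ℝ) : ℂ)‖ ≤ B * P / (Y * Q₀) + B * P * (q' x / q x ^ 2) := by
      rw [norm_mul, Complex.norm_real, Real.norm_eq_abs, e1]
      have t3 : |p' x / q x| ≤ P / Y / Q₀ := by
        rw [abs_div]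
        exact div_le_div₀ (by positivity) h5 hQ h7
      have t4 : |p x * q' x / q x ^ 2| ≤ P * (q' x / q x ^ 2) := by
        rw [abs_of_nonneg (by positivity), mul_div_assoc]
        exact mul_le_mul_of_nonneg_right h4 (by positivity)
      calc ‖β x‖ * |p' x / q x - p x * q' x / q x ^ 2| ≤ B * (P / Y / Q₀ + P * (q' x / q x ^ 2)) := by
            refine mul_le_mul h1 ((abs_sub _ _).trans (add_le_add t3 t4)) (abs_nonneg _) hB
        _ = B * P / (Y * Q₀) + B * P * (q' x / q x ^ 2) := by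
            field_simp
    refine (norm_add_le _ _).trans ((add_le_add t1 t2).trans (le_of_eq ?_))
    show _ = 2 * (B * P / (Y * Q₀)) + B * P * (q' x / q x ^ 2)
    ring
  have hcqq : ContinuousOn (fun x => q' x / q x ^ 2) (Set.Icc a b) :=
    hcq.div (hcontq.pow 2) fun x hx => pow_ne_zero 2 (hq0 x hx)
  have hcg : ContinuousOn g (Set.Icc a b) := continuousOn_const.add (continuousOn_const.mul hcqq)
  have h2 : ‖∫ x in a..b, w' x * E x‖ ≤ ∫ x in a..b, g x := by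
    refine intervalIntegral.norm_integral_le_of_norm_le hab ?_ (ContinuousOn.intervalIntegrable (by rw [huI]; exact hcg))
    exact Filter.Eventually.of_forall fun x hx => hgb x ⟨hx.1.le, hx.2⟩
  have h3 : ∫ x in a..b, g x = 2 * (B * P / (Y * Q₀)) * (b - a) + B * P * (-(q b)⁻¹ - -(q a)⁻¹) := by
    have h4 : ∫ x in a..b, q' x / q x ^ 2 = -(q b)⁻¹ - -(q a)⁻¹ := by
      refine intervalIntegral.integral_eq_sub_of_hasDerivAt (f := fun x => -(q x)⁻¹) (fun x hx => ?_)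
        (ContinuousOn.intervalIntegrable (by rw [huI]; exact hcqq))
      rw [huI] at hx
      have h5 := ((hd x hx).2.2.2.inv (hq0 x hx)).neg
      refine h5.congr_deriv ?_
      ring
    rw [hg, intervalIntegral.integral_add intervalIntegrable_const
      ((ContinuousOn.intervalIntegrable (by rw [huI]; exact hcqq)).const_mul _), intervalIntegral.integral_const,
      intervalIntegral.integral_const_mul, h4, smul_eq_mul]
    ring
  have hqi : ∀ x ∈ Set.Icc a b, |(q x)⁻¹| ≤ 1 / Q₀ := by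
    intro x hx
    rw [abs_inv, ← one_div]
    exact one_div_le_one_div_of_le hQ (hb x hx).2.2.2.2.2.2
  have h6 : -(q b)⁻¹ - -(q a)⁻¹ ≤ 2 * (1 / Q₀) := by
    have h7 := abs_le.1 (hqi a ha)
    have h8 := abs_le.1 (hqi b hbb)
    linarith [h7.2, h8.1]
  have hBP : 0 ≤ B * P := by positivity
  have h9 : ∫ x in a..b, g x ≤ 18 * (B * P / Q₀) := by
    rw [h3]
    have h10 : 2 * (B * P / (Y * Q₀)) * (b - a) ≤ 2 * (B * P / (Y * Q₀)) * (8 * Y) :=
      mul_le_mul_of_nonneg_left hbY (by positivity)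
    have h11 : 2 * (B * P / (Y * Q₀)) * (8 * Y) = 16 * (B * P / Q₀) := by
      field_simp
      ring
    have h12 : B * P * (-(q b)⁻¹ - -(q a)⁻¹) ≤ B * P * (2 * (1 / Q₀)) := mul_le_mul_of_nonneg_left h6 hBP
    have h13 : B * P * (2 * (1 / Q₀)) = 2 * (B * P / Q₀) := by ring
    linarith
  have h14 : ‖∫ x in a..b, β x * Complex.exp ((φ x : ℂ) * Complex.I)‖ = ‖∫ x in a..b, w x * E' x‖ := by
    rw [h1, norm_mul, Complex.norm_I, one_mul]
  rw [h14, hparts]
  calc ‖w b * E b - w a * E a - ∫ x in a..b, w' x * E x‖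
      ≤ ‖w b * E b‖ + ‖w a * E a‖ + ‖∫ x in a..b, w' x * E x‖ :=
        (norm_sub_le _ _).trans (add_le_add (norm_sub_le _ _) le_rfl)
    _ ≤ B * (P / Q₀) + B * (P / Q₀) + 18 * (B * P / Q₀) := by
        exact add_le_add (add_le_add (hbd b hbb) (hbd a ha)) (h2.trans h9)
    _ = 20 * B * P / Q₀ := by ring

end Pool.Agent.Lib.TW
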