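import Pool.Agent.Lib.TW.Defs5
import Pool.Agent.Lib.TW.Vn

/-!
# TW / Sf5: the other frequencies
-/

set_option autoImplicit false

open MeasureTheory
open scoped FourierTransform

namespace Pool.Agent.Lib.TW

/-- the phase -/
private noncomputable def sf5ph (t ν y : ℝ) : ℝ := -(t * Real.log (1 + 1 / y)) - 2 * Real.pi * ν * y

private theorem sf5ph_deriv (t ν : ℝ) {y : ℝ} (hy : 0 < y) :
    HasDerivAt (sf5ph t ν) ((t - 2 * Real.pi * ν * (y * (y + 1))) / (y * (y + 1))) y := by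
  have h1 : HasDerivAt (fun y : ℝ => 1 + 1 / y) (-(y ^ 2)⁻¹) y := by
    have := (hasDerivAt_inv hy.ne').const_add 1
    simpa [one_div] using this
  have h2 : (1 + 1 / y) ≠ 0 := by positivity
  have h3 := (h1.log h2).const_mul t
  have h4 := (hasDerivAt_id y).const_mul (2 * Real.pi * ν)
  have h5 := h3.neg.sub h4
  refine h5.congr_deriv ?_
  field_simp

private theorem sf5_pderiv (y : ℝ) : HasDerivAt (fun y : ℝ => y * (y + 1)) (2 * y + 1) y := by
  have h := (hasDerivAt_id y).mul ((hasDerivAt_id y).add_const 1)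
  refine h.congr_deriv ?_
  simp
  ring

private theorem sf5_qderiv (t ν y : ℝ) :
    HasDerivAt (fun y : ℝ => t - 2 * Real.pi * ν * (y * (y + 1))) (-(2 * Real.pi * ν * (2 * y + 1))) y :=
  ((sf5_pderiv y).const_mul (2 * Real.pi * ν)).const_sub t

private theorem sf5_key : ∃ C : ℝ, 0 ≤ C ∧ ∀ (Y M Q₀ t ν : ℝ) (β β' : ℝ → ℂ), 1 ≤ Y → 0 < Q₀ →
    (∀ y ∈ Set.Icc (Y / 8) (8 * Y), HasDerivAt β (β' y) y) → ContinuousOn β' (Set.Icc (Y / 8) (8 * Y)) →
    (∀ y ∈ Set.Icc (Y / 8) (8 * Y), ‖β y‖ ≤ M ∧ ‖β' y‖ ≤ M / Y) →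
    (∀ y ∈ Set.Icc (Y / 8) (8 * Y), Q₀ ≤ |t - 2 * Real.pi * ν * (y * (y + 1))|) →
    ‖∫ y in (Y / 8)..(8 * Y), β y * Complex.exp ((sf5ph t ν y : ℂ) * Complex.I)‖ ≤ C * M * (72 * Y ^ 2) / Q₀ := by
  obtain ⟨C, hC, hv⟩ := vcn
  refine ⟨C, hC, ?_⟩
  intro Y M Q₀ t ν β β' hY hQ hd hc hb hq
  have hY0 : 0 < Y := by linarith
  have hpos : ∀ y ∈ Set.Icc (Y / 8) (8 * Y), 0 < y := fun y hy => lt_of_lt_of_le (by positivity) hy.1
  have hp : ∀ y ∈ Set.Icc (Y / 8) (8 * Y), 0 < y * (y + 1) ∧ y * (y + 1) ≤ 72 * Y ^ 2 ∧ |2 * y + 1| ≤ 72 * Y ^ 2 / Y ∧ 0 < 2 * y + 1 := by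
    intro y hy
    have h0 := hpos y hy
    refine ⟨by positivity, ?_, ?_, by linarith⟩
    · nlinarith [hy.2, hy.1]
    · rw [abs_of_pos (by linarith), show 72 * Y ^ 2 / Y = 72 * Y by field_simp]
      linarith [hy.2]
  have hcp : ContinuousOn (fun y : ℝ => 2 * y + 1) (Set.Icc (Y / 8) (8 * Y)) := by fun_prop
  rcases le_or_gt ν 0 with hν | hν
  · refine hv (Y / 8) (8 * Y) Y M (72 * Y ^ 2) Q₀ β β' (sf5ph t ν) (fun y => y * (y + 1)) (fun y => 2 * y + 1)
      (fun y => t - 2 * Real.pi * ν * (y * (y + 1))) (fun y => -(2 * Real.pi * ν * (2 * y + 1))) (by linarith) hY0 (by linarith) hQ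
      (fun y hy => ⟨hd y hy, sf5ph_deriv t ν (hpos y hy), sf5_pderiv y, sf5_qderiv t ν y⟩) hc hcp (by fun_prop) ?_
    intro y hy
    obtain ⟨h1, h2, h3, h4⟩ := hp y hy
    refine ⟨(hb y hy).1, (hb y hy).2, h1, h2, h3, ?_, hq y hy⟩
    have : 0 ≤ Real.pi * (-ν) * (2 * y + 1) := by
      have := Real.pi_pos
      have : 0 ≤ -ν := by linarith
      positivity
    linarith
  · have e : ‖∫ y in (Y / 8)..(8 * Y), β y * Complex.exp ((sf5ph t ν y : ℂ) * Complex.I)‖ =
        ‖∫ y in (Y / 8)..(8 * Y), (starRingEnd ℂ) (β y) * Complex.exp (((-sf5ph t ν y : ℝ) : ℂ) * Complex.I)‖ := by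
      rw [← RCLike.norm_conj, ← intervalIntegral.intervalIntegral_conj]
      congr 1
      refine intervalIntegral.integral_congr fun y _ => ?_
      show (starRingEnd ℂ) (β y * Complex.exp ((sf5ph t ν y : ℂ) * Complex.I)) = _
      rw [map_mul, ← Complex.exp_conj]
      congr 2
      simp
    rw [e]
    refine hv (Y / 8) (8 * Y) Y M (72 * Y ^ 2) Q₀ (fun y => (starRingEnd ℂ) (β y)) (fun y => (starRingEnd ℂ) (β' y))
      (fun y => -sf5ph t ν y) (fun y => y * (y + 1)) (fun y => 2 * y + 1)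
      (fun y => -(t - 2 * Real.pi * ν * (y * (y + 1)))) (fun y => -(-(2 * Real.pi * ν * (2 * y + 1)))) (by linarith) hY0 (by linarith) hQ
      (fun y hy => ⟨?_, ?_, sf5_pderiv y, (sf5_qderiv t ν y).neg⟩) ?_ hcp (by fun_prop) ?_
    · exact (hd y hy).star
    · refine (sf5ph_deriv t ν (hpos y hy)).neg.congr_deriv ?_
      rw [neg_div]
    · exact Complex.continuous_conj.comp_continuousOn hc
    · intro y hy
      obtain ⟨h1, h2, h3, h4⟩ := hp y hy
      refine ⟨by rw [RCLike.norm_conj]; exact (hb y hy).1, by rw [RCLike.norm_conj]; exact (hb y hy).2, h1, h2, h3, ?_, ?_⟩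
      · have := Real.pi_pos
        have : 0 ≤ 2 * Real.pi * ν * (2 * y + 1) := by positivity
        linarith
      · rw [abs_neg]
        exact hq y hy

private theorem sf5_end {Y B : ℝ} {b : ℝ → ℂ} (h : Am2 Y B b) : b (Y / 8) = 0 ∧ b (8 * Y) = 0 := by
  have hc : Continuous b := h.1.continuous
  constructor
  · by_contra h0
    have h1 : ∀ᶠ y in nhds (Y / 8), b y ≠ 0 := hc.continuousAt.eventually_ne h0
    have h2 : ∀ᶠ y in nhdsWithin (Y / 8) (Set.Iio (Y / 8)), b y ≠ 0 := h1.filter_mono nhdsWithin_le_nhds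
    obtain ⟨y, hy1, hy2⟩ := (h2.and self_mem_nhdsWithin).exists
    have := (h.2.1 y hy1).1
    have hy3 : y < Y / 8 := hy2
    linarith
  · by_contra h0
    have h1 : ∀ᶠ y in nhds (8 * Y), b y ≠ 0 := hc.continuousAt.eventually_ne h0
    have h2 : ∀ᶠ y in nhdsWithin (8 * Y) (Set.Ioi (8 * Y)), b y ≠ 0 := h1.filter_mono nhdsWithin_le_nhds
    obtain ⟨y, hy1, hy2⟩ := (h2.and self_mem_nhdsWithin).exists
    have := (h.2.1 y hy1).2
    have hy3 : 8 * Y < y := hy2
    linarith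

private theorem sf5_Fo {Y B : ℝ} {b : ℝ → ℂ} (h : Am2 Y B b) (hY : 1 ≤ Y) (t ν : ℝ) :
    Fo b t ν = ∫ y in (Y / 8)..(8 * Y), b y * Complex.exp ((sf5ph t ν y : ℂ) * Complex.I) := by
  unfold Fo
  rw [Real.fourier_real_eq_integral_exp_smul, intervalIntegral.integral_of_le (by linarith), ← integral_Icc_eq_integral_Ioc,
    setIntegral_eq_integral_of_forall_compl_eq_zero]
  · refine integral_congr_ae (Filter.Eventually.of_forall fun y => ?_)
    show Complex.exp (((-2 * Real.pi * y * ν : ℝ) : ℂ) * Complex.I) • (b y * ch (1 + 1 / y) (-t)) = _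
    unfold ch sf5ph
    rw [smul_eq_mul, mul_left_comm, ← Complex.exp_add]
    congr 2
    push_cast
    ring
  · intro y hy
    have : b y = 0 := by
      by_contra h0
      exact hy (h.2.1 y h0)
    rw [this, zero_mul]

/-- PROOF. `p = y(y+1)`, `Y²/64 ≤ p ≤ 72Y²` on `[Y/8, 8Y]`, `q = t - 2πνp` (phase derivative `q/p`), `q' = -2πν(2y+1)` of constant sign
(conjugate if necessary): `vcn`.  In all cases `|q| ≥ c T` and `|q| ≥ c |ν| Y²`: for `ν < 0` `q ≥ t + 2π|ν|Y²/64`; for `0 < ν ≤ T/(10⁴Y²)`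
`2πνp ≤ 144π T/10⁴ ≤ T/20`; for `ν ≥ 5000T/Y²` `2πνp ≥ 2πνY²/64 ≥ 2·t`.  First part: `vcn` for `b` gives `C B Y²/T`.  Second part:
`2πiν Fo b t ν = Fo b₁ t ν`, `b₁ = b' + i t b/(y(y+1))` (the derivative of `ch(1+1/y)(-t)` is `i t/(y(y+1))` times it) satisfies the bounds
of `Am1 Y (C B (1+T/Y²))`, and `vcn` for `b₁` gives `C B (1+T/Y²)/|ν|`. -/
theorem sf5 : ∃ C : ℝ, 0 ≤ C ∧ ∀ Y : ℝ, 1 ≤ Y → ∀ (B : ℝ) (b : ℝ → ℂ), Am2 Y B b → ∀ T : ℝ, 1 ≤ T → ∀ t : ℝ, T / 2 ≤ t → t ≤ 2 * T →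
    ∀ ν : ℝ, ν ≠ 0 → (ν ≤ T / (10000 * Y ^ 2) ∨ 5000 * T / Y ^ 2 ≤ ν) →
    ‖Fo b t ν‖ * (T / Y ^ 2) ≤ C * B ∧ ‖Fo b t ν‖ * ν ^ 2 ≤ C * B * (1 + T / Y ^ 2) := by
  obtain ⟨C, hC, hk⟩ := sf5_key
  refine ⟨C * 72 * 64 * 139392, by positivity, ?_⟩
  intro Y hY B b hb T hT t ht1 ht2 ν hν hcase
  have hY0 : 0 < Y := by linarith
  have hT0 : 0 < T := by linarith
  have ht0 : 0 < t := by linarith
  have hB : 0 ≤ B := (norm_nonneg _).trans (hb.2.2.1 0)
  have hpi := Real.pi_gt_three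
  have hpi2 := Real.pi_lt_d2
  have hpos : ∀ y ∈ Set.Icc (Y / 8) (8 * Y), 0 < y := fun y hy => lt_of_lt_of_le (by positivity) hy.1
  have hplo : ∀ y ∈ Set.Icc (Y / 8) (8 * Y), Y ^ 2 / 64 ≤ y * (y + 1) := by
    intro y hy
    have h0 := hpos y hy
    nlinarith [hy.1, mul_self_nonneg (y - Y / 8)]
  have hphi : ∀ y ∈ Set.Icc (Y / 8) (8 * Y), y * (y + 1) ≤ 72 * Y ^ 2 := by
    intro y hy
    nlinarith [hy.1, hy.2]
  -- lower bounds of `q`
  have hqT : ∀ y ∈ Set.Icc (Y / 8) (8 * Y), T / 4 ≤ |t - 2 * Real.pi * ν * (y * (y + 1))| ∧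
      |ν| * Y ^ 2 / 64 ≤ |t - 2 * Real.pi * ν * (y * (y + 1))| := by
    intro y hy
    have h1 := hplo y hy
    have h2 := hphi y hy
    have hY2 : 0 < Y ^ 2 := by positivity
    rcases lt_or_gt_of_ne hν with h | h
    · have h3 : 0 ≤ Real.pi * (-ν) * (y * (y + 1)) := by
        have : 0 ≤ y * (y + 1) := le_trans (by positivity) h1
        have : 0 ≤ -ν := by linarith
        positivity
      have h5 : (-ν) * (Y ^ 2 / 64) ≤ (-ν) * (y * (y + 1)) := mul_le_mul_of_nonneg_left h1 (by linarith)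
      have h6 : 0 ≤ (-ν) * (y * (y + 1)) := le_trans (by have : 0 ≤ -ν := by linarith
                                                         positivity) h5
      have h4 : (-ν) * (y * (y + 1)) ≤ 2 * (Real.pi * (-ν) * (y * (y + 1))) := by nlinarith
      have hq : t - 2 * Real.pi * ν * (y * (y + 1)) = t + 2 * (Real.pi * (-ν) * (y * (y + 1))) := by ring
      rw [hq, abs_of_nonneg (by linarith), abs_of_neg h]
      constructor
      · linarith
      · have : -ν * Y ^ 2 / 64 = (-ν) * (Y ^ 2 / 64) := by ring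
        linarith
    · have h3 : 0 < ν * Y ^ 2 := by positivity
      have hνp1 : ν * (Y ^ 2 / 64) ≤ ν * (y * (y + 1)) := mul_le_mul_of_nonneg_left h1 h.le
      have hνp2 : ν * (y * (y + 1)) ≤ ν * (72 * Y ^ 2) := mul_le_mul_of_nonneg_left h2 h.le
      rcases hcase with hc | hc
      · have h4 : ν * (10000 * Y ^ 2) ≤ T := by
          rwa [le_div_iff₀ (by positivity)] at hc
        have h5 : 2 * Real.pi * ν * (y * (y + 1)) ≤ 2 * 3.15 * (ν * (72 * Y ^ 2)) := by
          calc 2 * Real.pi * ν * (y * (y + 1)) = 2 * Real.pi * (ν * (y * (y + 1))) := by ring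
            _ ≤ 2 * 3.15 * (ν * (72 * Y ^ 2)) := by
              refine mul_le_mul (by linarith) hνp2 ?_ (by norm_num)
              exact le_trans (by positivity) hνp1
        have h6 : T / 4 ≤ t - 2 * Real.pi * ν * (y * (y + 1)) := by
          nlinarith
        rw [abs_of_nonneg (by linarith), abs_of_pos h]
        refine ⟨h6, ?_⟩
        nlinarith
      · have h4 : 5000 * T ≤ ν * Y ^ 2 := by
          rwa [div_le_iff₀ (by positivity)] at hc
        have h5 : 2 * 3 * (ν * (Y ^ 2 / 64)) ≤ 2 * Real.pi * ν * (y * (y + 1)) := by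
          calc 2 * 3 * (ν * (Y ^ 2 / 64)) ≤ 2 * Real.pi * (ν * (y * (y + 1))) := by
                refine mul_le_mul (by linarith) hνp1 (by positivity) (by positivity)
            _ = 2 * Real.pi * ν * (y * (y + 1)) := by ring
        rw [abs_sub_comm, abs_of_nonneg (by nlinarith), abs_of_pos h]
        constructor
        · nlinarith
        · nlinarith
  have hFo := sf5_Fo hb hY t ν
  -- first part
  have hdb : Differentiable ℝ b := hb.1.differentiable two_ne_zero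
  have hcd : ContDiff ℝ 1 (deriv b) := by
    have := hb.1
    rw [show (2 : WithTop ℕ∞) = 1 + 1 by norm_num, contDiff_succ_iff_deriv] at this
    exact this.2.2
  have hcd0 : Continuous (deriv b) := hcd.continuous
  have hdd : Differentiable ℝ (deriv b) := hcd.differentiable one_ne_zero
  have hcdd : Continuous (deriv (deriv b)) := hcd.continuous_deriv le_rfl
  have hI1 : ‖Fo b t ν‖ ≤ C * B * (72 * Y ^ 2) / (T / 4) := by
    rw [hFo]
    exact hk Y B (T / 4) t ν b (deriv b) hY (by positivity) (fun y _ => (hdb y).hasDerivAt) hcd0.continuousOn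
      (fun y _ => ⟨hb.2.2.1 y, hb.2.2.2.1 y⟩) (fun y hy => (hqT y hy).1)
  -- second part
  set b₁ : ℝ → ℂ := fun y => deriv b y + Complex.I * t * (b y * (((y * (y + 1))⁻¹ : ℝ) : ℂ)) with hb₁
  set b₁' : ℝ → ℂ := fun y => deriv (deriv b) y + Complex.I * t * (deriv b y * (((y * (y + 1))⁻¹ : ℝ) : ℂ) +
    b y * ((-(2 * y + 1) / (y * (y + 1)) ^ 2 : ℝ) : ℂ)) with hb₁'
  set E : ℝ → ℂ := fun y => Complex.exp ((sf5ph t ν y : ℂ) * Complex.I) with hE
  have hp0 : ∀ y ∈ Set.Icc (Y / 8) (8 * Y), y * (y + 1) ≠ 0 := by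
    intro y hy
    have := hpos y hy
    positivity
  have hpinv : ContinuousOn (fun y : ℝ => (((y * (y + 1))⁻¹ : ℝ) : ℂ)) (Set.Icc (Y / 8) (8 * Y)) := by
    refine Complex.continuous_ofReal.comp_continuousOn (ContinuousOn.inv₀ (by fun_prop) hp0)
  have hdb₁ : ∀ y ∈ Set.Icc (Y / 8) (8 * Y), HasDerivAt b₁ (b₁' y) y := by
    intro y hy
    have h1 := (sf5_pderiv y).inv (hp0 y hy)
    exact ((hdd y).hasDerivAt).add (((hdb y).hasDerivAt.mul h1.ofReal_comp).const_mul (Complex.I * t))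
  have hcb₁ : ContinuousOn b₁ (Set.Icc (Y / 8) (8 * Y)) := fun y hy => (hdb₁ y hy).continuousAt.continuousWithinAt
  have hcb₁' : ContinuousOn b₁' (Set.Icc (Y / 8) (8 * Y)) := by
    refine hcdd.continuousOn.add (continuousOn_const.mul ((hcd0.continuousOn.mul hpinv).add (hdb.continuous.continuousOn.mul ?_)))
    refine Complex.continuous_ofReal.comp_continuousOn (ContinuousOn.div (by fun_prop) (by fun_prop) ?_)
    exact fun y hy => pow_ne_zero 2 (hp0 y hy)
  have hdE : ∀ y ∈ Set.Icc (Y / 8) (8 * Y), HasDerivAt E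
      (E y * ((((t - 2 * Real.pi * ν * (y * (y + 1))) / (y * (y + 1)) : ℝ) : ℂ) * Complex.I)) y :=
    fun y hy => ((sf5ph_deriv t ν (hpos y hy)).ofReal_comp.mul_const Complex.I).cexp
  have hcE : ContinuousOn E (Set.Icc (Y / 8) (8 * Y)) := fun y hy => (hdE y hy).continuousAt.continuousWithinAt
  have huI : Set.uIcc (Y / 8) (8 * Y) = Set.Icc (Y / 8) (8 * Y) := Set.uIcc_of_le (by linarith)
  have hi1 : IntervalIntegrable (fun y => b₁ y * E y) volume (Y / 8) (8 * Y) :=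
    ContinuousOn.intervalIntegrable (by rw [huI]; exact hcb₁.mul hcE)
  have hi2 : IntervalIntegrable (fun y => (2 * Real.pi * ν * Complex.I) * (b y * E y)) volume (Y / 8) (8 * Y) :=
    ContinuousOn.intervalIntegrable (by rw [huI]; exact continuousOn_const.mul (hdb.continuous.continuousOn.mul hcE))
  have hftc : ∫ y in (Y / 8)..(8 * Y), (b₁ y * E y - (2 * Real.pi * ν * Complex.I) * (b y * E y)) = 0 := by
    have h1 : ∫ y in (Y / 8)..(8 * Y), (b₁ y * E y - (2 * Real.pi * ν * Complex.I) * (b y * E y)) =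
        b (8 * Y) * E (8 * Y) - b (Y / 8) * E (Y / 8) := by
      refine intervalIntegral.integral_eq_sub_of_hasDerivAt (f := fun y => b y * E y) (fun y hy => ?_) (hi1.sub hi2)
      rw [huI] at hy
      refine ((hdb y).hasDerivAt.mul (hdE y hy)).congr_deriv ?_
      have h2 : ((y * (y + 1) : ℝ) : ℂ) ≠ 0 := by exact_mod_cast hp0 y hy
      have h3 : (y : ℂ) ≠ 0 := by
        have := hpos y hy
        exact_mod_cast this.ne'
      have h4 : (y : ℂ) + 1 ≠ 0 := by
        have := hpos y hy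
        exact_mod_cast (by positivity : (0 : ℝ) < y + 1).ne'
      simp only [hb₁]
      push_cast
      field_simp
      ring
    rw [h1, (sf5_end hb).1, (sf5_end hb).2]
    simp
  rw [intervalIntegral.integral_sub hi1 hi2, intervalIntegral.integral_const_mul, sub_eq_zero] at hftc
  have hnorm : 2 * Real.pi * |ν| * ‖Fo b t ν‖ = ‖∫ y in (Y / 8)..(8 * Y), b₁ y * E y‖ := by
    rw [hftc, hFo, norm_mul]
    congr 1
    rw [norm_mul, norm_mul, norm_mul, Complex.norm_I, Complex.norm_real, Complex.norm_real, Real.norm_eq_abs, Real.norm_eq_abs,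
      abs_of_pos Real.pi_pos]
    norm_num
  have hM : ∀ y ∈ Set.Icc (Y / 8) (8 * Y), ‖b₁ y‖ ≤ 139392 * B * (1 + T / Y ^ 2) ∧ ‖b₁' y‖ ≤ 139392 * B * (1 + T / Y ^ 2) / Y := by
    intro y hy
    have h0 := hpos y hy
    have h1 := hplo y hy
    have hY2 : 0 < Y ^ 2 / 64 := by positivity
    have hinv : (y * (y + 1))⁻¹ ≤ 64 / Y ^ 2 := by
      rw [show 64 / Y ^ 2 = (Y ^ 2 / 64)⁻¹ by rw [inv_div]]
      exact inv_anti₀ hY2 h1
    have hinv0 : 0 < (y * (y + 1))⁻¹ := by positivity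
    have hinv2 : (2 * y + 1) / (y * (y + 1)) ^ 2 ≤ 17 * Y * (64 / Y ^ 2) ^ 2 := by
      rw [div_eq_mul_inv, ← inv_pow]
      refine mul_le_mul (by linarith [hy.2]) ?_ (by positivity) (by positivity)
      exact pow_le_pow_left₀ hinv0.le hinv 2
    have hinv20 : 0 ≤ (2 * y + 1) / (y * (y + 1)) ^ 2 := by positivity
    have hTY : 0 ≤ T / Y ^ 2 := by positivity
    constructor
    · have h2 : ‖b₁ y‖ ≤ B / Y + t * (B * (64 / Y ^ 2)) := by
        refine (norm_add_le _ _).trans (add_le_add (hb.2.2.2.1 y) ?_)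
        rw [norm_mul, norm_mul, norm_mul, Complex.norm_I, Complex.norm_real, Complex.norm_real, Real.norm_eq_abs, Real.norm_eq_abs,
          abs_of_pos ht0, abs_of_pos hinv0, one_mul]
        exact mul_le_mul_of_nonneg_left (mul_le_mul (hb.2.2.1 y) hinv hinv0.le hB) ht0.le
      refine h2.trans ?_
      have h3 : B / Y ≤ B := div_le_self hB hY
      have h4 : t * (B * (64 / Y ^ 2)) ≤ 128 * B * (T / Y ^ 2) := by
        calc t * (B * (64 / Y ^ 2)) ≤ (2 * T) * (B * (64 / Y ^ 2)) := mul_le_mul_of_nonneg_right ht2 (by positivity)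
          _ = 128 * B * (T / Y ^ 2) := by ring
      nlinarith [mul_nonneg hB hTY]
    · have h2 : ‖b₁' y‖ ≤ B / Y ^ 2 + t * (B / Y * (64 / Y ^ 2) + B * (17 * Y * (64 / Y ^ 2) ^ 2)) := by
        refine (norm_add_le _ _).trans (add_le_add (hb.2.2.2.2 y) ?_)
        rw [norm_mul, norm_mul, Complex.norm_I, Complex.norm_real, Real.norm_eq_abs, abs_of_pos ht0, one_mul]
        refine mul_le_mul_of_nonneg_left ((norm_add_le _ _).trans (add_le_add ?_ ?_)) ht0.le
        · rw [norm_mul, Complex.norm_real, Real.norm_eq_abs, abs_of_pos hinv0]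
          exact mul_le_mul (hb.2.2.2.1 y) hinv hinv0.le (by positivity)
        · rw [norm_mul, Complex.norm_real, Real.norm_eq_abs, neg_div, abs_neg, abs_of_nonneg hinv20]
          exact mul_le_mul (hb.2.2.1 y) hinv2 hinv20 hB
      refine h2.trans ?_
      have h3 : B / Y ^ 2 ≤ B / Y := by
        refine div_le_div_of_nonneg_left hB hY0 ?_
        nlinarith
      have h4 : t * (B / Y * (64 / Y ^ 2) + B * (17 * Y * (64 / Y ^ 2) ^ 2)) ≤ 139392 * B * (T / Y ^ 2) / Y := by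
        calc t * (B / Y * (64 / Y ^ 2) + B * (17 * Y * (64 / Y ^ 2) ^ 2))
            ≤ (2 * T) * (B / Y * (64 / Y ^ 2) + B * (17 * Y * (64 / Y ^ 2) ^ 2)) := mul_le_mul_of_nonneg_right ht2 (by positivity)
          _ = 139392 * B * (T / Y ^ 2) / Y := by
            field_simp
            ring
      have h5 : 139392 * B * (1 + T / Y ^ 2) / Y = 139392 * (B / Y) + 139392 * B * (T / Y ^ 2) / Y := by ring
      have h6 : 0 ≤ B / Y := by positivity
      linarith
  have hν0 : 0 < |ν| := abs_pos.2 hν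
  have hI2 : ‖∫ y in (Y / 8)..(8 * Y), b₁ y * E y‖ ≤ C * (139392 * B * (1 + T / Y ^ 2)) * (72 * Y ^ 2) / (|ν| * Y ^ 2 / 64) :=
    hk Y _ _ t ν b₁ b₁' hY (by positivity) hdb₁ hcb₁' hM (fun y hy => (hqT y hy).2)
  constructor
  · calc ‖Fo b t ν‖ * (T / Y ^ 2) ≤ C * B * (72 * Y ^ 2) / (T / 4) * (T / Y ^ 2) := mul_le_mul_of_nonneg_right hI1 (by positivity)
      _ = C * B * 72 * 4 := by field_simp
      _ ≤ C * 72 * 64 * 139392 * B := by nlinarith [mul_nonneg hC hB]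
  · rw [← hnorm] at hI2
    have h1 : C * (139392 * B * (1 + T / Y ^ 2)) * (72 * Y ^ 2) / (|ν| * Y ^ 2 / 64) =
        C * 72 * 64 * 139392 * B * (1 + T / Y ^ 2) / |ν| := by
      field_simp
    rw [h1, le_div_iff₀ hν0] at hI2
    have h2 : 0 ≤ ‖Fo b t ν‖ * ν ^ 2 := by positivity
    calc ‖Fo b t ν‖ * ν ^ 2 ≤ 2 * Real.pi * (‖Fo b t ν‖ * ν ^ 2) := by nlinarith
      _ = 2 * Real.pi * |ν| * ‖Fo b t ν‖ * |ν| := by
        rw [← sq_abs ν]
        ring
      _ ≤ _ := hI2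

end Pool.Agent.Lib.TW
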