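import Pool.Agent.Lib.TW.Xb5
import Pool.Agent.Lib.TW.Sf5
import Pool.Agent.Lib.TW.Cs

/-!
# TW / Nu5: the sum over all frequencies
-/

set_option autoImplicit false

open MeasureTheory
open scoped FourierTransform

namespace Pool.Agent.Lib.TW

private theorem nuH_meas (t : ℝ) : Measurable (fun y : ℝ => ch (1 + 1 / y) t) := by
  unfold ch
  fun_prop

private theorem nuH_int {b : ℝ → ℂ} {Y B : ℝ} (hb : Am2 Y B b) (t n : ℝ) :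
    Integrable (fun y : ℝ => Complex.exp (((-2 * Real.pi * y * n : ℝ) : ℂ) * Complex.I) • (b y * ch (1 + 1 / y) (-t))) := by
  have h1 : Integrable b := by
    refine hb.1.continuous.integrable_of_hasCompactSupport
      (HasCompactSupport.intro (isCompact_Icc (a := Y / 8) (b := 8 * Y)) fun y hy => ?_)
    by_contra h
    exact hy (hb.2.1 y h)
  refine h1.norm.mono' ?_ (Filter.Eventually.of_forall fun y => ?_)
  · refine Measurable.aestronglyMeasurable ?_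
    simp only [smul_eq_mul]
    have hE : Measurable (fun y : ℝ => Complex.exp (((-2 * Real.pi * y * n : ℝ) : ℂ) * Complex.I)) := by fun_prop
    exact hE.mul (hb.1.continuous.measurable.mul (nuH_meas (-t)))
  · rw [norm_smul, norm_mul, norm_ch, mul_one, Complex.norm_exp_ofReal_mul_I, one_mul]

private theorem nuH_four {b : ℝ → ℂ} {Y B : ℝ} (hb : Am2 Y B b) (J : Finset ℕ) (c : ℕ → ℂ) (τ : ℕ → ℝ) (n : ℝ) :
    𝓕 (fun y : ℝ => b y * PP J c τ y) n = ∑ j ∈ J, c j * Fo b (τ j) n := by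
  rw [Real.fourier_real_eq_integral_exp_smul]
  have e1 : (fun y : ℝ => Complex.exp (((-2 * Real.pi * y * n : ℝ) : ℂ) * Complex.I) • (b y * PP J c τ y)) =
      fun y => ∑ j ∈ J, c j * (Complex.exp (((-2 * Real.pi * y * n : ℝ) : ℂ) * Complex.I) • (b y * ch (1 + 1 / y) (-(τ j)))) := by
    funext y
    unfold PP
    rw [Finset.mul_sum, Finset.smul_sum]
    refine Finset.sum_congr rfl fun j _ => ?_
    rw [smul_eq_mul, smul_eq_mul]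
    ring
  rw [e1, integral_finsetSum]
  · refine Finset.sum_congr rfl fun j _ => ?_
    rw [integral_const_mul]
    unfold Fo
    rw [Real.fourier_real_eq_integral_exp_smul]
  · intro j _
    exact (nuH_int hb _ _).const_mul _

private theorem nuH_tel {K : ℝ} (hK : 1 ≤ K) (M : ℕ) :
    ∑ m ∈ Finset.range (M + 1), 1 / (1 + (m : ℝ) ^ 2 / K ^ 2) ≤ 1 + 2 * K * (1 - 1 / (1 + (M : ℝ) / K)) := by
  have hK0 : 0 < K := by linarith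
  induction M with
  | zero => simp
  | succ M ih =>
    rw [Finset.sum_range_succ]
    have hM : (0 : ℝ) ≤ M := Nat.cast_nonneg M
    obtain ⟨x, hx⟩ : ∃ x : ℝ, x = (M : ℝ) / K := ⟨_, rfl⟩
    obtain ⟨z, hz⟩ : ∃ z : ℝ, z = 1 / K := ⟨_, rfl⟩
    have hx0 : 0 ≤ x := by rw [hx]; positivity
    have hz0 : 0 < z := by rw [hz]; positivity
    have e1 : (((M + 1 : ℕ) : ℝ)) / K = x + z := by rw [hx, hz]; push_cast; ring
    have e2 : (((M + 1 : ℕ) : ℝ)) ^ 2 / K ^ 2 = (x + z) ^ 2 := by rw [← e1, div_pow]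
    have hKz : K * z = 1 := by rw [hz]; field_simp
    have h1 : 1 / (1 + (x + z) ^ 2) ≤ 2 * K * (1 / (1 + x) - 1 / (1 + (x + z))) := by
      have h2 : 2 * K * (1 / (1 + x) - 1 / (1 + (x + z))) = 2 / ((1 + x) * (1 + (x + z))) := by
        field_simp
        linear_combination hKz
      rw [h2, div_le_div_iff₀ (by positivity) (by positivity)]
      nlinarith [sq_nonneg (1 - (x + z)), mul_nonneg hz0.le (by linarith : 0 ≤ 1 + (x + z))]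
    rw [e1, e2]
    rw [← hx] at ih
    linarith

private theorem nuH_sumZ {K : ℝ} (hK : 1 ≤ K) : Summable (fun n : ℤ => 1 / (1 + (n : ℝ) ^ 2 / K ^ 2)) ∧
    ∑' n : ℤ, 1 / (1 + (n : ℝ) ^ 2 / K ^ 2) ≤ 6 * K := by
  have hK0 : 0 < K := by linarith
  obtain ⟨g, hg⟩ : ∃ g : ℕ → ℝ, g = fun m : ℕ => 1 / (1 + (m : ℝ) ^ 2 / K ^ 2) := ⟨_, rfl⟩
  have hg0 : ∀ m, 0 ≤ g m := fun m => by rw [hg]; positivity
  have hgB : ∀ n, ∑ m ∈ Finset.range n, g m ≤ 3 * K := by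
    intro n
    have h1 : ∑ m ∈ Finset.range n, g m ≤ ∑ m ∈ Finset.range (n + 1), g m :=
      Finset.sum_le_sum_of_subset_of_nonneg (Finset.range_mono (by omega)) (fun m _ _ => hg0 m)
    refine h1.trans ?_
    have h2 := nuH_tel hK n
    rw [hg]
    refine h2.trans ?_
    have h3 : 0 ≤ 1 / (1 + (n : ℝ) / K) := by positivity
    nlinarith
  have hgs : Summable g := summable_of_sum_range_le hg0 hgB
  have hgt : ∑' m, g m ≤ 3 * K := Real.tsum_le_of_sum_range_le hg0 hgB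
  obtain ⟨f, hf⟩ : ∃ f : ℤ → ℝ, f = fun n : ℤ => 1 / (1 + (n : ℝ) ^ 2 / K ^ 2) := ⟨_, rfl⟩
  have hf0 : ∀ n, 0 ≤ f n := fun n => by rw [hf]; positivity
  have hf1 : (fun n : ℕ => f n) = g := by
    rw [hf, hg]
    funext n
    simp
  have hf2 : (fun n : ℕ => f (-n)) = g := by
    rw [hf, hg]
    funext n
    simp
  have hs1 : Summable (fun n : ℕ => f n) := by rw [hf1]; exact hgs
  have hs2 : Summable (fun n : ℕ => f (-n)) := by rw [hf2]; exact hgs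
  have hfs : Summable f := Summable.of_nat_of_neg hs1 hs2
  have hft : ∑' n, f n ≤ 6 * K := by
    have h1 := Summable.tsum_of_nat_of_neg hs1 hs2
    rw [h1, hf1, hf2]
    have := hf0 0
    linarith
  rw [← hf]
  exact ⟨hfs, hft⟩

private theorem nuH_pow {T Y : ℝ} (hT : 0 < T) (hY : 0 < Y) :
    T * ((T / Y) ^ (-(3 / 5) : ℝ)) ^ 2 = Y ^ (6 / 5 : ℝ) / T ^ (1 / 5 : ℝ) := by
  have h1 : ((T / Y) ^ (-(3 / 5) : ℝ)) ^ 2 = T ^ (-(6 / 5) : ℝ) * Y ^ (6 / 5 : ℝ) := by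
    rw [← Real.rpow_natCast ((T / Y) ^ (-(3 / 5) : ℝ)) 2, ← Real.rpow_mul (by positivity), Real.div_rpow hT.le hY.le]
    have e : (-(3 / 5) : ℝ) * ((2 : ℕ) : ℝ) = -(6 / 5) := by push_cast; ring
    rw [e, Real.rpow_neg hY.le, div_inv_eq_mul]
  have h2 : T * T ^ (-(6 / 5) : ℝ) = (T ^ (1 / 5 : ℝ))⁻¹ := by
    rw [← Real.rpow_neg hT.le]
    nth_rewrite 1 [← Real.rpow_one T]
    rw [← Real.rpow_add hT]
    norm_num
  rw [h1, ← mul_assoc, h2]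
  exact inv_mul_eq_div _ _

/-- PROOF (over the imported rows). `𝓕 f (n) = sum_j c_j Fo b (jG) n`, `R = |J|`; `d(n) ≤ C n^(ε/8)`.  `n = 0`: `divisors 0 = ∅`.
`n ∈ near`: `≤ ‖sum_j c_j Mn‖ + R C B Y (T/Y)^(-3/5)` (`sx5`); Cauchy-Schwarz with `sum_near d(n)² ≤ C T^(ε/2) T/Y²` and `xb5`; the second part
squared is `≤ C T^(ε/2) (T/Y²)² R² B² Y² (T/Y)^(-6/5) = C T^(ε/2) (T/Y²) R² B² Y^(6/5) T^(-1/5)`.  Other `n ≠ 0`: `n ≤ T/(10⁴Y²)` or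
`n ≥ ⌊10⁴T/Y²⌋ ≥ 5000T/Y²`, `sf5`: `‖𝓕 f (n)‖ ≤ R C B min(Y²/T, 2(T/Y²)/n²)`, and the sum with `d(|n|)` is `≤ R C B T^(ε/2)`
(split at `|n| = T/Y²`). -/
theorem nu5 {ε : ℝ} (hε : 0 < ε) (hε1 : ε ≤ 1 / 2) : ∃ C : ℝ, 0 ≤ C ∧ ∀ Y : ℝ, 1 ≤ Y → ∀ T : ℝ, Y ^ 2 ≤ T →
    ∀ (B : ℝ) (b : ℝ → ℂ), Am2 Y B b → ∀ G : ℕ, 1 ≤ G → ∀ U : ℝ, 1 ≤ U → U ≤ 2 * T → ∀ T₀ : ℝ, T₀ ≤ 2 * T →
    ∀ (J : Finset ℕ) (c : ℕ → ℂ), (∀ j, ‖c j‖ ≤ 1) →
    (∀ j ∈ J, T / 2 ≤ (j : ℝ) * G ∧ (j : ℝ) * G ≤ 2 * T) → (∀ j ∈ J, ∀ l ∈ J, |(j : ℝ) * G - (l : ℝ) * G| ≤ T₀) →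
    (Summable fun n : ℤ => ((Nat.divisors n.natAbs).card : ℝ) * ‖𝓕 (fun y : ℝ => b y * PP J c (fun j => (j : ℝ) * G) y) (n : ℝ)‖) →
    (∑' n : ℤ, ((Nat.divisors n.natAbs).card : ℝ) * ‖𝓕 (fun y : ℝ => b y * PP J c (fun j => (j : ℝ) * G) y) (n : ℝ)‖) ^ 2 ≤
      C * T ^ ε * B ^ 2 * ((J.card : ℝ) ^ 2 + T / Y ^ 2 * rb T Y G U T₀ J.card) := by
  classical
  obtain ⟨Cc, hCc, hcs⟩ := cs_div (half_pos hε) (by linarith : ε / 2 ≤ 1 / 2)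
  obtain ⟨Cb, hCb, hxb⟩ := xb5 (half_pos hε)
  obtain ⟨Cs, hCs, hsf⟩ := sf5
  obtain ⟨Cx, hCx, hsx⟩ := sx5
  refine ⟨Cc * (4 * (1 + 10000 ^ 2) * (Cb + 10000 * Cx ^ 2) + 108 * Cs ^ 2), by positivity, ?_⟩
  intro Y hY T hYT B b hb G hG U hU hUT T₀ hT₀ J c hc hJ hJT hsum
  have hB0 : 0 ≤ B := (norm_nonneg _).trans (hb.2.2.1 0)
  have hY0 : 0 < Y := by linarith
  have hT1 : 1 ≤ T := le_trans (one_le_pow₀ hY) hYT
  have hT0 : 0 < T := by linarith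
  have hb1 : Am1 Y B b := ⟨hb.1.of_le (by norm_num), hb.2.1, hb.2.2.1, hb.2.2.2.1⟩
  rcases J.eq_empty_or_nonempty with hJe | ⟨j0, hj0⟩
  · subst hJe
    have h0 : ∀ n : ℤ, ((Nat.divisors n.natAbs).card : ℝ) *
        ‖𝓕 (fun y : ℝ => b y * PP ∅ c (fun j => (j : ℝ) * G) y) (n : ℝ)‖ = 0 := by
      intro n
      rw [nuH_four hb]
      simp
    rw [tsum_congr h0, tsum_zero]
    simp [rb]
  have hT00 : 0 ≤ T₀ := by
    have := hJT j0 hj0 j0 hj0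
    simpa using this
  have hGr : (1 : ℝ) ≤ G := by exact_mod_cast hG
  obtain ⟨Q, hQ⟩ : ∃ Q : ℝ, Q = T / Y ^ 2 := ⟨_, rfl⟩
  have hQ1 : 1 ≤ Q := by
    rw [hQ, le_div_iff₀ (by positivity)]
    linarith
  have hQ0 : 0 < Q := by linarith
  have hQT : Q ≤ T := by
    rw [hQ]
    exact div_le_self hT0.le (one_le_pow₀ hY)
  have hQY : Q * Y ^ 2 = T := by
    rw [hQ]
    field_simp
  have hlow : T / (10000 * Y ^ 2) = Q / 10000 := by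
    rw [hQ]
    field_simp
  have hup : 10000 * T / Y ^ 2 = 10000 * Q := by
    rw [hQ]
    field_simp
  have hup2 : 5000 * T / Y ^ 2 = 5000 * Q := by
    rw [hQ]
    field_simp
  obtain ⟨R, hR⟩ : ∃ R : ℝ, R = (J.card : ℝ) := ⟨_, rfl⟩
  have hR0 : 0 ≤ R := by rw [hR]; exact Nat.cast_nonneg _
  obtain ⟨x, hx⟩ : ∃ x : ℤ → ℝ, x = fun n : ℤ => ‖∑ j ∈ J, c j * Mn b ((j : ℝ) * G) (n : ℝ)‖ := ⟨_, rfl⟩
  obtain ⟨y, hy⟩ : ∃ y : ℝ, y = R * (Cx * B * Y * (T / Y) ^ (-(3 / 5) : ℝ)) := ⟨_, rfl⟩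
  obtain ⟨κ, hκ⟩ : ∃ κ : ℝ, κ = R * (3 * Cs * B) / Q := ⟨_, rfl⟩
  obtain ⟨E, hE⟩ : ∃ E : Finset ℤ, E = (near T Y).map Nat.castEmbedding := ⟨_, rfl⟩
  have hx0 : ∀ n, 0 ≤ x n := fun n => by rw [hx]; exact norm_nonneg _
  have hy0 : 0 ≤ y := by rw [hy]; positivity
  have hκ0 : 0 ≤ κ := by rw [hκ]; positivity
  have hEm : ∀ n : ℤ, n ∈ E → ∃ ν : ℕ, ν ∈ near T Y ∧ (ν : ℤ) = n := by
    intro n hn
    rw [hE, Finset.mem_map] at hn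
    obtain ⟨ν, hν, h⟩ := hn
    exact ⟨ν, hν, h⟩
  have hnear : ∀ ν ∈ near T Y, Q / 10000 ≤ (ν : ℝ) ∧ (ν : ℝ) ≤ 10000 * Q := by
    intro ν hν
    unfold near at hν
    rw [Finset.mem_Ico, hlow, hup] at hν
    refine ⟨Nat.ceil_le.mp hν.1, ?_⟩
    have h1 : (ν : ℝ) ≤ (⌊10000 * Q⌋₊ : ℝ) := by exact_mod_cast hν.2.le
    exact h1.trans (Nat.floor_le (by positivity))
  have hW : ∀ n : ℤ, 0 < 1 + (n : ℝ) ^ 2 / Q ^ 2 := fun n => by positivity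
  obtain ⟨a, ha⟩ : ∃ a : ℤ → ℝ, a = fun n : ℤ => (if n ∈ E then x n + y else 0) + κ / (1 + (n : ℝ) ^ 2 / Q ^ 2) := ⟨_, rfl⟩
  have ha0 : ∀ n, 0 ≤ a n := by
    intro n
    rw [ha]
    have h1 : 0 ≤ κ / (1 + (n : ℝ) ^ 2 / Q ^ 2) := div_nonneg hκ0 (hW n).le
    have h2 := hx0 n
    show 0 ≤ (if n ∈ E then x n + y else 0) + κ / (1 + (n : ℝ) ^ 2 / Q ^ 2)
    split_ifs <;> linarith
  -- the pointwise bound
  have hpt : ∀ n : ℤ, n ≠ 0 → ‖𝓕 (fun y : ℝ => b y * PP J c (fun j => (j : ℝ) * G) y) (n : ℝ)‖ ≤ a n := by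
    intro n hn
    rw [nuH_four hb, ha]
    show _ ≤ (if n ∈ E then x n + y else 0) + κ / (1 + (n : ℝ) ^ 2 / Q ^ 2)
    have h0 : 0 ≤ κ / (1 + (n : ℝ) ^ 2 / Q ^ 2) := div_nonneg hκ0 (hW n).le
    by_cases hnE : n ∈ E
    · rw [if_pos hnE]
      obtain ⟨ν, hν, hνn⟩ := hEm n hnE
      have hn1 := hnear ν hν
      have e1 : ((n : ℤ) : ℝ) = (ν : ℝ) := by rw [← hνn]; simp
      have h1 : ∑ j ∈ J, c j * Fo b ((j : ℝ) * G) (n : ℝ) = ∑ j ∈ J, c j * Mn b ((j : ℝ) * G) (n : ℝ) +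
          ∑ j ∈ J, c j * (Fo b ((j : ℝ) * G) (n : ℝ) - Mn b ((j : ℝ) * G) (n : ℝ)) := by
        rw [← Finset.sum_add_distrib]
        refine Finset.sum_congr rfl fun j _ => ?_
        ring
      have h2 : ‖∑ j ∈ J, c j * (Fo b ((j : ℝ) * G) (n : ℝ) - Mn b ((j : ℝ) * G) (n : ℝ))‖ ≤ y := by
        refine (norm_sum_le _ _).trans ?_
        have h3 : ∀ j ∈ J, ‖c j * (Fo b ((j : ℝ) * G) (n : ℝ) - Mn b ((j : ℝ) * G) (n : ℝ))‖ ≤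
            Cx * B * Y * (T / Y) ^ (-(3 / 5) : ℝ) := by
          intro j hj
          rw [norm_mul]
          have h4 := hsx Y hY B b hb1 T (by nlinarith) ((j : ℝ) * G) (hJ j hj).1 (hJ j hj).2 (n : ℝ)
            (by rw [hlow, e1]; exact hn1.1) (by rw [hup, e1]; exact hn1.2)
          calc ‖c j‖ * ‖Fo b ((j : ℝ) * G) (n : ℝ) - Mn b ((j : ℝ) * G) (n : ℝ)‖ ≤
                1 * (Cx * B * Y * (T / Y) ^ (-(3 / 5) : ℝ)) := mul_le_mul (hc j) h4 (norm_nonneg _) zero_le_one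
            _ = _ := one_mul _
        refine (Finset.sum_le_card_nsmul _ _ _ h3).trans_eq ?_
        rw [nsmul_eq_mul, ← hR, hy]
      rw [h1]
      refine (norm_add_le _ _).trans ?_
      have h5 : ‖∑ j ∈ J, c j * Mn b ((j : ℝ) * G) (n : ℝ)‖ = x n := by rw [hx]
      rw [h5]
      linarith
    · rw [if_neg hnE, zero_add]
      have hcase : (n : ℝ) ≤ T / (10000 * Y ^ 2) ∨ 5000 * T / Y ^ 2 ≤ (n : ℝ) := by
        by_contra hcon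
        rw [not_or, not_le, not_le, hlow, hup2] at hcon
        obtain ⟨h1, h2⟩ := hcon
        have h3 : (0 : ℝ) < (n : ℝ) := lt_trans (by positivity) h1
        have h4 : 0 < n := by exact_mod_cast h3
        obtain ⟨ν, hν⟩ := Int.eq_ofNat_of_zero_le h4.le
        refine hnE ?_
        rw [hE, Finset.mem_map]
        refine ⟨ν, ?_, by rw [hν]; rfl⟩
        have e1 : ((n : ℤ) : ℝ) = (ν : ℝ) := by rw [hν]; simp
        rw [e1] at h1 h2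
        unfold near
        rw [Finset.mem_Ico, hlow, hup]
        refine ⟨Nat.ceil_le.mpr h1.le, ?_⟩
        refine lt_of_lt_of_le (Nat.lt_succ_self ν) (Nat.le_floor ?_)
        push_cast
        linarith
      have hnr : (n : ℝ) ≠ 0 := by exact_mod_cast hn
      have h3 : ∀ j ∈ J, ‖c j * Fo b ((j : ℝ) * G) (n : ℝ)‖ ≤ 3 * Cs * B / Q / (1 + (n : ℝ) ^ 2 / Q ^ 2) := by
        intro j hj
        rw [norm_mul]
        obtain ⟨h4, h5⟩ := hsf Y hY B b hb T hT1 ((j : ℝ) * G) (hJ j hj).1 (hJ j hj).2 (n : ℝ) hnr hcase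
        rw [← hQ] at h4 h5
        have h6 : ‖Fo b ((j : ℝ) * G) (n : ℝ)‖ ≤ 3 * Cs * B / Q / (1 + (n : ℝ) ^ 2 / Q ^ 2) := by
          rw [div_div, le_div_iff₀ (mul_pos hQ0 (hW n))]
          have h7 : ‖Fo b ((j : ℝ) * G) (n : ℝ)‖ * (Q * (1 + (n : ℝ) ^ 2 / Q ^ 2)) =
              ‖Fo b ((j : ℝ) * G) (n : ℝ)‖ * Q + ‖Fo b ((j : ℝ) * G) (n : ℝ)‖ * (n : ℝ) ^ 2 / Q := by
            field_simp
          have h8 : ‖Fo b ((j : ℝ) * G) (n : ℝ)‖ * (n : ℝ) ^ 2 / Q ≤ 2 * Cs * B := by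
            rw [div_le_iff₀ hQ0]
            refine h5.trans ?_
            have h9 : 0 ≤ Cs * B := mul_nonneg hCs hB0
            nlinarith
          rw [h7]
          linarith
        calc ‖c j‖ * ‖Fo b ((j : ℝ) * G) (n : ℝ)‖ ≤ 1 * (3 * Cs * B / Q / (1 + (n : ℝ) ^ 2 / Q ^ 2)) :=
              mul_le_mul (hc j) h6 (norm_nonneg _) zero_le_one
          _ = _ := one_mul _
      refine (norm_sum_le _ _).trans ((Finset.sum_le_card_nsmul _ _ _ h3).trans_eq ?_)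
      rw [nsmul_eq_mul, ← hR, hκ]
      ring
  -- the weighted square
  have hsq : ∀ n : ℤ, (1 + (n : ℝ) ^ 2 / Q ^ 2) * a n ^ 2 ≤
      (if n ∈ E then 4 * (1 + 10000 ^ 2) * (x n ^ 2 + y ^ 2) else 0) + 2 * κ ^ 2 * (1 / (1 + (n : ℝ) ^ 2 / Q ^ 2)) := by
    intro n
    have hWn := hW n
    have e1 : a n = (if n ∈ E then x n + y else 0) + κ / (1 + (n : ℝ) ^ 2 / Q ^ 2) := by rw [ha]
    obtain ⟨w, hw⟩ : ∃ w : ℝ, w = 1 + (n : ℝ) ^ 2 / Q ^ 2 := ⟨_, rfl⟩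
    rw [e1, ← hw]
    rw [← hw] at hWn
    have h1 : w * (κ / w) ^ 2 = κ ^ 2 * (1 / w) := by field_simp
    by_cases hnE : n ∈ E
    · rw [if_pos hnE, if_pos hnE]
      obtain ⟨ν, hν, hνn⟩ := hEm n hnE
      have hn1 := hnear ν hν
      have e2 : ((n : ℤ) : ℝ) = (ν : ℝ) := by rw [← hνn]; simp
      have hw2 : w ≤ 1 + 10000 ^ 2 := by
        rw [hw, e2, ← div_pow]
        have h2 : (ν : ℝ) / Q ≤ 10000 := by rw [div_le_iff₀ hQ0]; exact hn1.2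
        have h3 : 0 ≤ (ν : ℝ) / Q := by positivity
        have := pow_le_pow_left₀ h3 h2 2
        linarith
      have h2 : (x n + y + κ / w) ^ 2 ≤ 4 * (x n ^ 2 + y ^ 2) + 2 * (κ / w) ^ 2 := by
        nlinarith [sq_nonneg (x n - y), sq_nonneg (x n + y - κ / w)]
      have h3 : 0 ≤ x n ^ 2 + y ^ 2 := by positivity
      calc w * (x n + y + κ / w) ^ 2 ≤ w * (4 * (x n ^ 2 + y ^ 2) + 2 * (κ / w) ^ 2) := mul_le_mul_of_nonneg_left h2 hWn.le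
        _ = w * (4 * (x n ^ 2 + y ^ 2)) + 2 * (w * (κ / w) ^ 2) := by ring
        _ ≤ (1 + 10000 ^ 2) * (4 * (x n ^ 2 + y ^ 2)) + 2 * (w * (κ / w) ^ 2) :=
            add_le_add_left (mul_le_mul_of_nonneg_right hw2 (by positivity)) _
        _ = 4 * (1 + 10000 ^ 2) * (x n ^ 2 + y ^ 2) + 2 * κ ^ 2 * (1 / w) := by rw [h1]; ring
    · rw [if_neg hnE, if_neg hnE, zero_add, zero_add, h1]
      have h2 : 0 ≤ κ ^ 2 * (1 / w) := by positivity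
      linarith
  obtain ⟨hs1, hs2⟩ := nuH_sumZ hQ1
  have hfin : Summable (fun n : ℤ => if n ∈ E then 4 * (1 + 10000 ^ 2) * (x n ^ 2 + y ^ 2) else 0) :=
    summable_of_ne_finset_zero (s := E) fun n hn => if_neg hn
  have hsr : Summable (fun n : ℤ => (if n ∈ E then 4 * (1 + 10000 ^ 2) * (x n ^ 2 + y ^ 2) else 0) +
      2 * κ ^ 2 * (1 / (1 + (n : ℝ) ^ 2 / Q ^ 2))) := hfin.add (hs1.mul_left _)
  have hsa : Summable (fun n : ℤ => (1 + (n : ℝ) ^ 2 / Q ^ 2) * a n ^ 2) :=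
    Summable.of_nonneg_of_le (fun n => mul_nonneg (hW n).le (sq_nonneg _)) hsq hsr
  obtain ⟨hc1, hc2⟩ := hcs Q hQ1 a ha0 hsa
  -- comparison
  have hle : ∑' n : ℤ, ((Nat.divisors n.natAbs).card : ℝ) *
      ‖𝓕 (fun y : ℝ => b y * PP J c (fun j => (j : ℝ) * G) y) (n : ℝ)‖ ≤ ∑' n : ℤ, ((Nat.divisors n.natAbs).card : ℝ) * a n := by
    refine Summable.tsum_le_tsum (fun n => ?_) hsum hc1
    by_cases hn : n = 0
    · subst hn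
      simp
    · exact mul_le_mul_of_nonneg_left (hpt n hn) (Nat.cast_nonneg _)
  have hnn : 0 ≤ ∑' n : ℤ, ((Nat.divisors n.natAbs).card : ℝ) *
      ‖𝓕 (fun y : ℝ => b y * PP J c (fun j => (j : ℝ) * G) y) (n : ℝ)‖ :=
    tsum_nonneg fun n => mul_nonneg (Nat.cast_nonneg _) (norm_nonneg _)
  refine (pow_le_pow_left₀ hnn hle 2).trans (hc2.trans ?_)
  -- the sum of the weighted squares
  have hX := hxb Y hY T hYT B b hb G hG U hU hUT T₀ hT₀ J c hc hJ hJT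
  obtain ⟨ρ, hρ⟩ : ∃ ρ : ℝ, ρ = rb T Y G U T₀ J.card := ⟨_, rfl⟩
  rw [← hρ] at hX ⊢
  have hρ1 : R ^ 2 * (Y ^ (6 / 5 : ℝ) / T ^ (1 / 5 : ℝ)) ≤ ρ := by
    rw [hρ, hR]
    unfold rb
    have h1 : 0 ≤ (J.card : ℝ) * (Y + Y ^ 2 / G) := by positivity
    have h2 : 0 ≤ (J.card : ℝ) ^ 2 * (Y ^ (5 / 2 : ℝ) * U ^ (1 / 2 : ℝ) / T + Y ^ 3 / T +
      Y ^ (11 / 6 : ℝ) * T₀ ^ (1 / 6 : ℝ) / T ^ (1 / 2 : ℝ) + Y ^ (7 / 6 : ℝ) / U ^ (1 / 6 : ℝ)) := by positivity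
    nlinarith
  have hρ0 : 0 ≤ ρ := le_trans (by positivity) hρ1
  have hcard : ((near T Y).card : ℝ) ≤ 10000 * Q := by
    unfold near
    rw [Nat.card_Ico, hup]
    have h1 : ((⌊10000 * Q⌋₊ - ⌈T / (10000 * Y ^ 2)⌉₊ : ℕ) : ℝ) ≤ (⌊10000 * Q⌋₊ : ℝ) := by
      exact_mod_cast Nat.sub_le _ _
    exact h1.trans (Nat.floor_le (by positivity))
  obtain ⟨θ, hθ⟩ : ∃ θ : ℝ, θ = T ^ (ε / 2) := ⟨_, rfl⟩
  have hθ1 : 1 ≤ θ := by rw [hθ]; exact Real.one_le_rpow hT1 (by linarith)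
  have hθ2 : T ^ ε = θ * θ := by
    rw [hθ, ← Real.rpow_add hT0]
    congr 1
    ring
  have hQθ : Q ^ (1 + ε / 2) ≤ Q * θ := by
    rw [Real.rpow_add hQ0, Real.rpow_one, hθ]
    exact mul_le_mul_of_nonneg_left (Real.rpow_le_rpow hQ0.le hQT (by linarith)) hQ0.le
  rw [← hθ] at hX
  have hy2 : 10000 * Q * y ^ 2 ≤ 10000 * Cx ^ 2 * B ^ 2 * ρ := by
    have h1 := nuH_pow hT0 hY0
    have h2 : 10000 * Q * y ^ 2 = 10000 * Cx ^ 2 * B ^ 2 * (R ^ 2 * ((Q * Y ^ 2) * ((T / Y) ^ (-(3 / 5) : ℝ)) ^ 2)) := by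
      rw [hy]
      ring
    rw [h2, hQY, h1]
    exact mul_le_mul_of_nonneg_left hρ1 (by positivity)
  have hS : ∑' n : ℤ, (1 + (n : ℝ) ^ 2 / Q ^ 2) * a n ^ 2 ≤
      4 * (1 + 10000 ^ 2) * (Cb * θ * B ^ 2 * ρ + 10000 * Cx ^ 2 * B ^ 2 * ρ) + 2 * κ ^ 2 * (6 * Q) := by
    refine (Summable.tsum_le_tsum hsq hsa hsr).trans ?_
    rw [Summable.tsum_add hfin (hs1.mul_left _), tsum_mul_left]
    refine add_le_add ?_ (mul_le_mul_of_nonneg_left hs2 (by positivity))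
    rw [tsum_eq_sum (s := E) (fun n hn => if_neg hn), Finset.sum_congr rfl (fun n hn => if_pos hn), ← Finset.mul_sum]
    refine mul_le_mul_of_nonneg_left ?_ (by norm_num)
    rw [Finset.sum_add_distrib, Finset.sum_const, nsmul_eq_mul]
    refine add_le_add ?_ ?_
    · rw [hE, Finset.sum_map, hx]
      refine le_trans (le_of_eq ?_) hX
      refine Finset.sum_congr rfl fun ν _ => ?_
      simp
    · rw [hE, Finset.card_map]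
      refine le_trans ?_ hy2
      exact mul_le_mul_of_nonneg_right hcard (sq_nonneg _)
  have hκ2 : 2 * κ ^ 2 * (6 * Q) * Q = 108 * Cs ^ 2 * B ^ 2 * R ^ 2 := by
    rw [hκ]
    field_simp
    ring
  have hSn : 0 ≤ ∑' n : ℤ, (1 + (n : ℝ) ^ 2 / Q ^ 2) * a n ^ 2 := tsum_nonneg fun n => mul_nonneg (hW n).le (sq_nonneg _)
  rw [hθ2, ← hQ, ← hR]
  calc Cc * Q ^ (1 + ε / 2) * ∑' n : ℤ, (1 + (n : ℝ) ^ 2 / Q ^ 2) * a n ^ 2 ≤
        Cc * (Q * θ) * (4 * (1 + 10000 ^ 2) * (Cb * θ * B ^ 2 * ρ + 10000 * Cx ^ 2 * B ^ 2 * ρ) + 2 * κ ^ 2 * (6 * Q)) :=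
        mul_le_mul (mul_le_mul_of_nonneg_left hQθ hCc) hS hSn (by positivity)
    _ = Cc * θ * (4 * (1 + 10000 ^ 2) * (Cb * θ + 10000 * Cx ^ 2) * B ^ 2 * (Q * ρ) + 2 * κ ^ 2 * (6 * Q) * Q) := by ring
    _ = Cc * θ * (4 * (1 + 10000 ^ 2) * (Cb * θ + 10000 * Cx ^ 2) * B ^ 2 * (Q * ρ) + 108 * Cs ^ 2 * B ^ 2 * R ^ 2) := by rw [hκ2]
    _ ≤ Cc * θ * (4 * (1 + 10000 ^ 2) * (Cb * θ + 10000 * Cx ^ 2 * θ) * B ^ 2 * (Q * ρ) + 108 * Cs ^ 2 * B ^ 2 * R ^ 2 * θ) := by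
        refine mul_le_mul_of_nonneg_left (add_le_add ?_ ?_) (by positivity)
        · have h1 : 10000 * Cx ^ 2 ≤ 10000 * Cx ^ 2 * θ := le_mul_of_one_le_right (by positivity) hθ1
          gcongr
        · exact le_mul_of_one_le_right (by positivity) hθ1
    _ = Cc * (θ * θ) * B ^ 2 * (4 * (1 + 10000 ^ 2) * (Cb + 10000 * Cx ^ 2) * (Q * ρ) + 108 * Cs ^ 2 * R ^ 2) := by ring
    _ ≤ Cc * (θ * θ) * B ^ 2 * ((4 * (1 + 10000 ^ 2) * (Cb + 10000 * Cx ^ 2) + 108 * Cs ^ 2) * (R ^ 2 + Q * ρ)) := by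
        refine mul_le_mul_of_nonneg_left ?_ (by positivity)
        have h1 : 0 ≤ 4 * (1 + 10000 ^ 2) * (Cb + 10000 * Cx ^ 2) * R ^ 2 := by positivity
        have h2 : 0 ≤ 108 * Cs ^ 2 * (Q * ρ) := by positivity
        linarith
    _ = Cc * (4 * (1 + 10000 ^ 2) * (Cb + 10000 * Cx ^ 2) + 108 * Cs ^ 2) * (θ * θ) * B ^ 2 * (R ^ 2 + Q * ρ) := by ring

end Pool.Agent.Lib.TW
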