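import Pool.Agent.Lib.TW.Lms

/-!
# TW / Off: the off-diagonal terms
-/

set_option autoImplicit false

open MeasureTheory

namespace Pool.Agent.Lib.TW

/-- PROOF. `lm_eq`; the diagonal is at most `4 N B²` (`gs G 1 = 1`); for `m = n + h`, `h ≥ 1` the term is the real part of the term of
`EH w N G h τ` (`m/n = 1 + h/n`; `n + h > 4N` gives `w = 0`), and `(m, n)`, `(n, m)` give the same (`gs G (1/x) = gs G x`, `cos` even). -/
theorem lm_le (w : ℝ → ℝ) (hw : ∀ x, 4 ≤ x → w x = 0) {B : ℝ} (hB : ∀ x, |w x| ≤ B) (N : ℕ) (hN : 1 ≤ N) {G : ℝ}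
    (hG : 0 < G) (τ : ℝ) :
    LM w N G τ ≤ G * (4 * N * B ^ 2) + 2 * G * ‖∑ h ∈ Finset.Ico 1 (4 * N), EH w N G h τ‖ := by
  classical
  obtain ⟨F, hF⟩ : ∃ F : ℕ → ℕ → ℝ, F = fun m n : ℕ => w ((m : ℝ) / N) * w ((n : ℝ) / N) * gs G ((m : ℝ) / n) *
      Real.cos (τ * Real.log ((m : ℝ) / n)) := ⟨_, rfl⟩
  have hN0 : (0 : ℝ) < N := by exact_mod_cast hN
  have hsym : ∀ m n, F m n = F n m := by
    intro m n
    rw [hF]
    simp only
    have h1 : Real.log ((m : ℝ) / n) = -Real.log ((n : ℝ) / m) := by rw [← Real.log_inv, inv_div]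
    have e1 : (G * Real.log ((m : ℝ) / n)) ^ 2 = (G * Real.log ((n : ℝ) / m)) ^ 2 := by rw [h1]; ring
    have e2 : Real.cos (τ * Real.log ((m : ℝ) / n)) = Real.cos (τ * Real.log ((n : ℝ) / m)) := by
      rw [h1, mul_neg, Real.cos_neg]
    unfold gs
    rw [e1, e2]
    ring
  have hz : ∀ m n, 4 * N < m → F m n = 0 := by
    intro m n hm
    have h1 : w ((m : ℝ) / N) = 0 := by
      refine hw _ ?_
      rw [le_div_iff₀ hN0]
      have : ((4 * N : ℕ) : ℝ) ≤ m := by exact_mod_cast hm.le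
      push_cast at this
      exact this
    rw [hF]
    simp only
    rw [h1]
    ring
  have hdiag : ∀ n ∈ Finset.Icc 1 (4 * N), F n n ≤ B ^ 2 := by
    intro n hn
    rw [Finset.mem_Icc] at hn
    have hn0 : (n : ℝ) ≠ 0 := by exact_mod_cast (by omega : n ≠ 0)
    have h1 : F n n = w ((n : ℝ) / N) ^ 2 := by
      rw [hF]
      simp only
      unfold gs
      rw [div_self hn0, Real.log_one]
      simp
      ring
    rw [h1]
    exact sq_le_sq' (by linarith [abs_le.1 (hB ((n : ℝ) / N))]) (abs_le.1 (hB ((n : ℝ) / N))).2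
  have hsplit : ∀ m n : ℕ, F m n = (if m = n then F m n else 0) +
      ((if n < m then F m n else 0) + (if m < n then F m n else 0)) := by
    intro m n
    split_ifs with h1 h2 h3 h4 h5 h6 <;> first | (exfalso; omega) | ring
  have hS : ∑ m ∈ Finset.Icc 1 (4 * N), ∑ n ∈ Finset.Icc 1 (4 * N), F m n =
      ∑ m ∈ Finset.Icc 1 (4 * N), F m m + 2 * ∑ h ∈ Finset.Ico 1 (4 * N), ∑ n ∈ Finset.Icc 1 (4 * N), F (n + h) n := by
    have a1 : ∑ m ∈ Finset.Icc 1 (4 * N), ∑ n ∈ Finset.Icc 1 (4 * N), F m n =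
        ∑ m ∈ Finset.Icc 1 (4 * N), ∑ n ∈ Finset.Icc 1 (4 * N), (if m = n then F m n else 0) +
        (∑ m ∈ Finset.Icc 1 (4 * N), ∑ n ∈ Finset.Icc 1 (4 * N), (if n < m then F m n else 0) +
          ∑ m ∈ Finset.Icc 1 (4 * N), ∑ n ∈ Finset.Icc 1 (4 * N), (if m < n then F m n else 0)) := by
      rw [← Finset.sum_add_distrib, ← Finset.sum_add_distrib]
      refine Finset.sum_congr rfl fun m _ => ?_
      rw [← Finset.sum_add_distrib, ← Finset.sum_add_distrib]
      exact Finset.sum_congr rfl fun n _ => hsplit m n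
    have a2 : ∑ m ∈ Finset.Icc 1 (4 * N), ∑ n ∈ Finset.Icc 1 (4 * N), (if m = n then F m n else 0) =
        ∑ m ∈ Finset.Icc 1 (4 * N), F m m := by
      refine Finset.sum_congr rfl fun m hm => ?_
      rw [Finset.sum_ite_eq, if_pos hm]
    have a3 : ∑ m ∈ Finset.Icc 1 (4 * N), ∑ n ∈ Finset.Icc 1 (4 * N), (if m < n then F m n else 0) =
        ∑ m ∈ Finset.Icc 1 (4 * N), ∑ n ∈ Finset.Icc 1 (4 * N), (if n < m then F m n else 0) := by
      rw [Finset.sum_comm]
      refine Finset.sum_congr rfl fun m _ => Finset.sum_congr rfl fun n _ => ?_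
      rw [hsym n m]
    have a4 : ∑ m ∈ Finset.Icc 1 (4 * N), ∑ n ∈ Finset.Icc 1 (4 * N), (if n < m then F m n else 0) =
        ∑ h ∈ Finset.Ico 1 (4 * N), ∑ n ∈ Finset.Icc 1 (4 * N), F (n + h) n := by
      rw [Finset.sum_comm, Finset.sum_comm (s := Finset.Ico 1 (4 * N))]
      refine Finset.sum_congr rfl fun n hn => ?_
      rw [Finset.mem_Icc] at hn
      rw [← Finset.sum_filter, Finset.sum_Ico_add (fun m => F m n) 1 (4 * N) n]
      refine Finset.sum_subset ?_ ?_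
      · intro m hm
        rw [Finset.mem_filter, Finset.mem_Icc] at hm
        rw [Finset.mem_Ico]
        omega
      · intro m hm hm2
        rw [Finset.mem_Ico] at hm
        rw [Finset.mem_filter, Finset.mem_Icc] at hm2
        exact hz m n (by omega)
    rw [a1, a2, a3, a4]
    ring
  have hre : ∑ h ∈ Finset.Ico 1 (4 * N), ∑ n ∈ Finset.Icc 1 (4 * N), F (n + h) n =
      (∑ h ∈ Finset.Ico 1 (4 * N), EH w N G h τ).re := by
    rw [Complex.re_sum]
    refine Finset.sum_congr rfl fun h _ => ?_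
    unfold EH
    rw [Complex.re_sum]
    refine Finset.sum_congr rfl fun n hn => ?_
    rw [Finset.mem_Icc] at hn
    have hn0 : (n : ℝ) ≠ 0 := by exact_mod_cast (by omega : n ≠ 0)
    have e1 : ((n + h : ℕ) : ℝ) / n = 1 + (h : ℝ) / n := by
      push_cast
      rw [add_div, div_self hn0]
    have e2 : (ch (1 + (h : ℝ) / n) (-τ)).re = Real.cos (τ * Real.log (1 + (h : ℝ) / n)) := by
      unfold ch
      rw [Complex.exp_ofReal_mul_I_re, neg_mul, Real.cos_neg]
    rw [Complex.re_ofReal_mul, e2, hF]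
    simp only
    rw [e1]
    push_cast
    ring
  have hlm : LM w N G τ = G * ∑ m ∈ Finset.Icc 1 (4 * N), ∑ n ∈ Finset.Icc 1 (4 * N), F m n := by
    rw [lm_eq w N hG τ, hF]
  have h1 : ∑ m ∈ Finset.Icc 1 (4 * N), F m m ≤ 4 * N * B ^ 2 := by
    refine (Finset.sum_le_sum hdiag).trans ?_
    rw [Finset.sum_const, Nat.card_Icc, nsmul_eq_mul]
    push_cast [Nat.add_sub_cancel]
    exact le_rfl
  have h2 := Complex.re_le_norm (∑ h ∈ Finset.Ico 1 (4 * N), EH w N G h τ)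
  rw [hlm, hS, hre, mul_add]
  have h3 : G * ∑ m ∈ Finset.Icc 1 (4 * N), F m m ≤ G * (4 * N * B ^ 2) := mul_le_mul_of_nonneg_left h1 hG.le
  have h4 : G * (2 * (∑ h ∈ Finset.Ico 1 (4 * N), EH w N G h τ).re) ≤
      2 * G * ‖∑ h ∈ Finset.Ico 1 (4 * N), EH w N G h τ‖ := by
    nlinarith
  linarith

end Pool.Agent.Lib.TW
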