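import Pool.Agent.Lib.TW.Defs5
import Pool.Agent.Lib.PR.V3

/-!
# TW / Pd5: the third derivative of the phase
-/

set_option autoImplicit false

open MeasureTheory
open scoped FourierTransform

namespace Pool.Agent.Lib.TW

/-- the function `φ` with `sp'' = φ(x) / (2 ν²)`, `x = 2t/(πν)` -/
private noncomputable def pd5_phi (x : ℝ) : ℝ := (x + 3 * x ^ 2 / 4) / Real.sqrt (1 + x) ^ 3

private noncomputable def pd5_phi' (x : ℝ) : ℝ := (1 + x + 3 * x ^ 2 / 8) / Real.sqrt (1 + x) ^ 5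

private theorem pd5_sqrt {x : ℝ} (hx : 0 < x) : HasDerivAt (fun y : ℝ => Real.sqrt (1 + y)) (1 / (2 * Real.sqrt (1 + x))) x := by
  have h1 : HasDerivAt (fun y : ℝ => 1 + y) 1 x := (hasDerivAt_id x).const_add 1
  have h2 := h1.sqrt (by linarith : (1 + x : ℝ) ≠ 0)
  simpa using h2

private theorem pd5_phi_deriv {x : ℝ} (hx : 0 < x) : HasDerivAt pd5_phi (pd5_phi' x) x := by
  have hw : 0 < Real.sqrt (1 + x) := Real.sqrt_pos.2 (by linarith)
  have hw2 : Real.sqrt (1 + x) ^ 2 = 1 + x := Real.sq_sqrt (by linarith)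
  have h1 : HasDerivAt (fun y : ℝ => y + 3 * y ^ 2 / 4) (1 + 3 * (2 * x) / 4) x := by
    have h2 : HasDerivAt (fun y : ℝ => y ^ 2) (2 * x) x := by simpa using hasDerivAt_pow 2 x
    exact (hasDerivAt_id x).add ((h2.const_mul 3).div_const 4)
  have h3 : HasDerivAt (fun y : ℝ => Real.sqrt (1 + y) ^ 3) (3 * Real.sqrt (1 + x) ^ 2 * (1 / (2 * Real.sqrt (1 + x)))) x := by
    have h5 := (pd5_sqrt hx).fun_pow 3
    refine h5.congr_deriv ?_
    norm_num
  have h4 := h1.div h3 (pow_ne_zero 3 hw.ne')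
  refine h4.congr_deriv ?_
  unfold pd5_phi'
  set w := Real.sqrt (1 + x) with hwd
  have hx' : x = w ^ 2 - 1 := by linarith
  rw [hx']
  field_simp
  ring

private theorem pd5_phi'_bd {x : ℝ} (hx : 0 < x) : 3 / 8 / Real.sqrt (1 + x) ≤ pd5_phi' x ∧ pd5_phi' x ≤ 1 / Real.sqrt (1 + x) := by
  have hw : 0 < Real.sqrt (1 + x) := Real.sqrt_pos.2 (by linarith)
  have hw2 : Real.sqrt (1 + x) ^ 2 = 1 + x := Real.sq_sqrt (by linarith)
  unfold pd5_phi'
  set w := Real.sqrt (1 + x) with hwd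
  have hw4 : w ^ 4 = (1 + x) ^ 2 := by
    calc w ^ 4 = (w ^ 2) ^ 2 := by ring
      _ = (1 + x) ^ 2 := by rw [hw2]
  constructor
  · have e : 3 / 8 / w = (3 / 8 * w ^ 4) / w ^ 5 := by field_simp
    rw [e, hw4]
    refine div_le_div_of_nonneg_right ?_ (by positivity)
    nlinarith
  · have e : 1 / w = w ^ 4 / w ^ 5 := by field_simp
    rw [e, hw4]
    refine div_le_div_of_nonneg_right ?_ (by positivity)
    nlinarith [sq_nonneg x]

private noncomputable def pd5_s1 (t ν : ℝ) : ℝ := -(t / (2 * Real.pi * ν ^ 2) / Real.sqrt (1 + 2 * t / (Real.pi * ν)))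

private noncomputable def pd5_s2 (t ν : ℝ) : ℝ := 1 / (2 * ν ^ 2) * pd5_phi (2 * t / (Real.pi * ν))

private theorem pd5_x_deriv (t : ℝ) {ν : ℝ} (hν : 0 < ν) :
    HasDerivAt (fun y : ℝ => 1 + 2 * t / (Real.pi * y)) (-(2 * t / (Real.pi * ν ^ 2))) ν := by
  have hpi := Real.pi_pos
  have h1 : HasDerivAt (fun y : ℝ => y⁻¹) (-(ν ^ 2)⁻¹) ν := hasDerivAt_inv hν.ne'
  have h2 := (h1.const_mul (2 * t / Real.pi)).const_add 1
  have e : (fun y : ℝ => 1 + 2 * t / (Real.pi * y)) = fun y => 1 + 2 * t / Real.pi * y⁻¹ := by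
    funext y
    rw [← div_eq_mul_inv, div_div]
  rw [e]
  refine h2.congr_deriv ?_
  field_simp

private theorem pd5_S_deriv {t ν : ℝ} (ht : 0 < t) (hν : 0 < ν) :
    HasDerivAt (fun y : ℝ => Real.sqrt (1 + 2 * t / (Real.pi * y)))
      (-(2 * t / (Real.pi * ν ^ 2)) / (2 * Real.sqrt (1 + 2 * t / (Real.pi * ν)))) ν := by
  have hpi := Real.pi_pos
  exact (pd5_x_deriv t hν).sqrt (by positivity)

private theorem pd5_sp_deriv {t ν : ℝ} (ht : 0 < t) (hν : 0 < ν) : HasDerivAt (fun y => sp t y) (pd5_s1 t ν) ν := by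
  have hpi := Real.pi_pos
  have hw : 0 < Real.sqrt (1 + 2 * t / (Real.pi * ν)) := Real.sqrt_pos.2 (by positivity)
  have h1 := ((pd5_S_deriv ht hν).sub_const 1).div_const 2
  unfold sp
  refine h1.congr_deriv ?_
  unfold pd5_s1
  field_simp

private theorem pd5_s1_deriv {t ν : ℝ} (ht : 0 < t) (hν : 0 < ν) : HasDerivAt (fun y => pd5_s1 t y) (pd5_s2 t ν) ν := by
  have hpi := Real.pi_pos
  have hpos : 0 < 1 + 2 * t / (Real.pi * ν) := by positivity
  have hw : 0 < Real.sqrt (1 + 2 * t / (Real.pi * ν)) := Real.sqrt_pos.2 hpos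
  have hw2 : Real.sqrt (1 + 2 * t / (Real.pi * ν)) ^ 2 = 1 + 2 * t / (Real.pi * ν) := Real.sq_sqrt hpos.le
  have h1 : HasDerivAt (fun y : ℝ => t / (2 * Real.pi * y ^ 2)) (-(t / (Real.pi * ν ^ 3))) ν := by
    have h2 : HasDerivAt (fun y : ℝ => y ^ 2) (2 * ν) ν := by simpa using hasDerivAt_pow 2 ν
    have h3 := (h2.inv (pow_ne_zero 2 hν.ne')).const_mul (t / (2 * Real.pi))
    have e : (fun y : ℝ => t / (2 * Real.pi * y ^ 2)) = fun y => t / (2 * Real.pi) * (y ^ 2)⁻¹ := by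
      funext y
      rw [← div_eq_mul_inv, div_div]
    rw [e]
    refine h3.congr_deriv ?_
    field_simp
  have h4 := (h1.div (pd5_S_deriv ht hν) hw.ne').neg
  unfold pd5_s1
  refine h4.congr_deriv ?_
  unfold pd5_s2 pd5_phi
  set w := Real.sqrt (1 + 2 * t / (Real.pi * ν)) with hwd
  have ht' : t = Real.pi * ν * (w ^ 2 - 1) / 2 := by
    rw [hw2]
    field_simp
    ring
  have hx' : 2 * t / (Real.pi * ν) = w ^ 2 - 1 := by linarith
  rw [hx', ht']
  field_simp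
  ring

private theorem pd5_sp_pos {t ν : ℝ} (ht : 0 < t) (hν : 0 < ν) : 0 < sp t ν := by
  have hpi := Real.pi_pos
  unfold sp
  have h1 : 1 < Real.sqrt (1 + 2 * t / (Real.pi * ν)) := by
    rw [Real.lt_sqrt (by norm_num)]
    have : 0 < 2 * t / (Real.pi * ν) := by positivity
    linarith
  linarith

private theorem pd5_sp_eq {t ν : ℝ} (ht : 0 < t) (hν : 0 < ν) : t = 2 * Real.pi * ν * (sp t ν * (sp t ν + 1)) := by
  have hpi := Real.pi_pos
  have hpos : 0 < 1 + 2 * t / (Real.pi * ν) := by positivity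
  have hw2 : Real.sqrt (1 + 2 * t / (Real.pi * ν)) ^ 2 = 1 + 2 * t / (Real.pi * ν) := Real.sq_sqrt hpos.le
  unfold sp
  set w := Real.sqrt (1 + 2 * t / (Real.pi * ν)) with hwd
  have e : (w - 1) / 2 * ((w - 1) / 2 + 1) = (w ^ 2 - 1) / 4 := by ring
  rw [e, hw2]
  field_simp
  ring

private theorem pd5_ps_deriv {t ν : ℝ} (ht : 0 < t) (hν : 0 < ν) : HasDerivAt (fun y => ps t y) (-(2 * Real.pi * sp t ν)) ν := by
  have hs := pd5_sp_deriv ht hν
  have hsp := pd5_sp_pos ht hν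
  have h1 : HasDerivAt (fun y => 1 + 1 / sp t y) (-pd5_s1 t ν / sp t ν ^ 2) ν := by
    have h2 := (hs.inv hsp.ne').const_add 1
    have e : (fun y => 1 + 1 / sp t y) = fun y => 1 + (sp t y)⁻¹ := by
      funext y
      rw [one_div]
    rw [e]
    exact h2
  have hne : 1 + 1 / sp t ν ≠ 0 := by positivity
  have h3 := ((h1.log hne).const_mul t).neg
  have h4 : HasDerivAt (fun y => 2 * Real.pi * y * sp t y) (2 * Real.pi * 1 * sp t ν + 2 * Real.pi * ν * pd5_s1 t ν) ν :=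
    ((hasDerivAt_id ν).const_mul (2 * Real.pi)).mul hs
  have h5 := h3.sub h4
  unfold ps
  refine h5.congr_deriv ?_
  have ht' := pd5_sp_eq ht hν
  set s := sp t ν with hsd
  set s1 := pd5_s1 t ν with hs1
  rw [ht']
  field_simp
  ring

/-- the chain of derivatives -/
private noncomputable def pd5_g (t t' : ℝ) : ℕ → ℝ → ℝ
  | 0, y => ps t' y - ps t y
  | 1, y => 2 * Real.pi * (sp t y - sp t' y)
  | 2, y => 2 * Real.pi * (pd5_s1 t y - pd5_s1 t' y)
  | _ + 3, y => 2 * Real.pi * (pd5_s2 t y - pd5_s2 t' y)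

/-- the third derivative by the mean value theorem in `t` -/
private theorem pd5_mvt {t t' ν : ℝ} (ht' : 0 < t') (htt : t' < t) (hν : 0 < ν) :
    ∃ y ∈ Set.Icc (2 * t' / (Real.pi * ν)) (2 * t / (Real.pi * ν)),
      2 * Real.pi * (pd5_s2 t ν - pd5_s2 t' ν) = 2 * (t - t') * pd5_phi' y / ν ^ 3 := by
  have hpi := Real.pi_pos
  have hlt : 2 * t' / (Real.pi * ν) < 2 * t / (Real.pi * ν) := by
    rw [div_lt_div_iff_of_pos_right (by positivity)]
    linarith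
  have hx0 : 0 < 2 * t' / (Real.pi * ν) := by positivity
  obtain ⟨y, hy, he⟩ := exists_hasDerivAt_eq_slope pd5_phi pd5_phi' hlt
    (fun y hy => (pd5_phi_deriv (hx0.trans_le hy.1)).continuousAt.continuousWithinAt)
    (fun y hy => pd5_phi_deriv (hx0.trans hy.1))
  refine ⟨y, ⟨hy.1.le, hy.2.le⟩, ?_⟩
  have h1 : pd5_phi (2 * t / (Real.pi * ν)) - pd5_phi (2 * t' / (Real.pi * ν)) =
      pd5_phi' y * (2 * t / (Real.pi * ν) - 2 * t' / (Real.pi * ν)) := by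
    rw [he, div_mul_cancel₀]
    exact (sub_pos.2 hlt).ne'
  unfold pd5_s2
  rw [← mul_sub, h1]
  field_simp

/-- PROOF. `c = sp t ν`: `c(c+1) = t/(2πν)`; `ps' = -2πc` in `ν` (because `t/(c(c+1)) = 2πν`).  `sp = (√(1+x) - 1)/2`, `x = 2t/(πν)`:
`sp' = -(t/(2πν²))/√(1+x)`, `sp'' = (t/(πν³)) (1+3x/4) (1+x)^(-3/2) =: s₂(t)`.  The derivative of `s₂` in `t` is
`(1/(πν³)) (1+x)^(-5/2) (1 + x + 3x²/8)`, between constants times `ν^(-3) x^(-1/2)` (`x ≥ c Y² ≥ c` in our range), so between constants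
times `Y⁵/T³`.  `VD_chain 1` with `g₀ = ps t' - ps t`, `g₁ = 2π(sp t - sp t')`, `g₂`, `g₃ = 2π(s₂(t) - s₂(t'))` (mean value theorem in `t`). -/
theorem vd5 : ∃ c C : ℝ, 0 < c ∧ 1 ≤ C ∧ ∀ Y : ℝ, 1 ≤ Y → ∀ T : ℝ, 1 ≤ T → ∀ t t' : ℝ, T / 2 ≤ t' → t' < t → t ≤ 2 * T →
    ∀ a L : ℕ, 0 < a → T / (10000 * Y ^ 2) ≤ a → (a : ℝ) + L ≤ 10000 * T / Y ^ 2 →
    PR.VD 1 (fun n => ps t' ((a : ℝ) + n) - ps t ((a : ℝ) + n)) L (c * lam T Y (t - t')) C := by
  refine ⟨1 / 10 ^ 15, 10 ^ 30, by positivity, by norm_num, ?_⟩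
  intro Y hY T hT t t' ht1 htt ht2 a L ha haT haL
  have hT0 : 0 < T := by linarith
  have hY0 : 0 < Y := by linarith
  have ht'0 : 0 < t' := by linarith
  have ht0 : 0 < t := by linarith
  have ha0 : (0 : ℝ) < a := by exact_mod_cast ha
  have hpi3 : 3 < Real.pi := Real.pi_gt_three
  have hpi4 : Real.pi < 4 := by have := Real.pi_lt_d2; linarith
  have hpi := Real.pi_pos
  refine PR.VD_chain 1 (pd5_g t t') (a : ℝ) L _ _ ?_ ?_
  · intro i hi x hx
    have hx0 : 0 < x := ha0.trans_le hx.1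
    have hi' : i = 0 ∨ i = 1 ∨ i = 2 := by omega
    rcases hi' with rfl | rfl | rfl
    · have h := (pd5_ps_deriv ht'0 hx0).sub (pd5_ps_deriv ht0 hx0)
      refine h.congr_deriv ?_
      simp only [pd5_g]
      ring
    · exact ((pd5_sp_deriv ht0 hx0).sub (pd5_sp_deriv ht'0 hx0)).const_mul (2 * Real.pi)
    · exact ((pd5_s1_deriv ht0 hx0).sub (pd5_s1_deriv ht'0 hx0)).const_mul (2 * Real.pi)
  · intro ν hν
    have hν0 : 0 < ν := ha0.trans_le hν.1
    obtain ⟨y, hy, he⟩ := pd5_mvt ht'0 htt hν0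
    have hY2 : 0 < Y ^ 2 := by positivity
    -- the range of `ν`
    have hν1 : T ≤ 10000 * (Y ^ 2 * ν) := by
      have h1 : T / (10000 * Y ^ 2) ≤ ν := haT.trans hν.1
      rw [div_le_iff₀ (by positivity)] at h1
      linarith
    have hν2 : Y ^ 2 * ν ≤ 10000 * T := by
      have h1 : ν ≤ 10000 * T / Y ^ 2 := hν.2.trans haL
      rw [le_div_iff₀ hY2] at h1
      linarith
    -- the range of `y`
    have hpν : 0 < Real.pi * ν := by positivity
    have hy1 : Y ^ 2 / 40000 ≤ y := by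
      refine le_trans ?_ hy.1
      rw [div_le_div_iff₀ (by norm_num) hpν]
      have h1 : Y ^ 2 * (Real.pi * ν) ≤ 4 * (Y ^ 2 * ν) := by nlinarith [mul_pos hY2 hν0]
      linarith
    have hy2 : y ≤ 40000 / 3 * Y ^ 2 := by
      refine hy.2.trans ?_
      rw [div_le_iff₀ hpν]
      have h1 : 3 * (Y ^ 2 * ν) ≤ Y ^ 2 * (Real.pi * ν) := by nlinarith [mul_pos hY2 hν0]
      have h2 : 40000 / 3 * Y ^ 2 * (Real.pi * ν) = 40000 / 3 * (Y ^ 2 * (Real.pi * ν)) := by ring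
      rw [h2]
      linarith
    have hy0 : 0 < y := lt_of_lt_of_le (by positivity) hy1
    have hw : 0 < Real.sqrt (1 + y) := Real.sqrt_pos.2 (by linarith)
    have hY1 : 1 ≤ Y ^ 2 := one_le_pow₀ hY
    have hw1 : Real.sqrt (1 + y) ≤ 116 * Y := by
      rw [Real.sqrt_le_left (by positivity)]
      nlinarith
    have hw2 : Y / 200 ≤ Real.sqrt (1 + y) := by
      refine Real.le_sqrt_of_sq_le ?_
      nlinarith
    obtain ⟨hp1, hp2⟩ := pd5_phi'_bd hy0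
    have hq1 : 3 / 8 / (116 * Y) ≤ pd5_phi' y :=
      (div_le_div_of_nonneg_left (by norm_num) hw hw1).trans hp1
    have hq2 : pd5_phi' y ≤ 200 / Y := by
      refine hp2.trans ?_
      rw [div_le_div_iff₀ hw hY0]
      have := hw2
      linarith
    have hYν : 0 < Y ^ 2 * ν := by positivity
    have hcub1 : T ^ 3 ≤ (10000 * (Y ^ 2 * ν)) ^ 3 := pow_le_pow_left₀ hT0.le hν1 3
    have hcub2 : (Y ^ 2 * ν) ^ 3 ≤ (10000 * T) ^ 3 := pow_le_pow_left₀ hYν.le hν2 3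
    have hr1 : Y ^ 6 / (10 ^ 12 * T ^ 3) ≤ 1 / ν ^ 3 := by
      rw [div_le_div_iff₀ (by positivity) (by positivity)]
      have e1 : Y ^ 6 * ν ^ 3 = (Y ^ 2 * ν) ^ 3 := by ring
      have e2 : 1 * (10 ^ 12 * T ^ 3) = (10000 * T) ^ 3 := by ring
      rw [e1, e2]
      exact hcub2
    have hr2 : 1 / ν ^ 3 ≤ 10 ^ 12 * Y ^ 6 / T ^ 3 := by
      rw [div_le_div_iff₀ (by positivity) (by positivity)]
      have e1 : 10 ^ 12 * Y ^ 6 * ν ^ 3 = (10000 * (Y ^ 2 * ν)) ^ 3 := by ring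
      rw [e1, one_mul]
      exact hcub1
    have hu : 0 < t - t' := by linarith
    have hlam : lam T Y (t - t') = (t - t') * (Y ^ 5 / T ^ 3) := by
      unfold lam
      rw [abs_of_pos hu]
      ring
    have hg : pd5_g t t' (1 + 2) ν = 2 * (t - t') * (pd5_phi' y * (1 / ν ^ 3)) := by
      have h1 : pd5_g t t' (1 + 2) ν = 2 * Real.pi * (pd5_s2 t ν - pd5_s2 t' ν) := rfl
      rw [h1, he]
      ring
    rw [hg, hlam]
    have hνi : 0 < 1 / ν ^ 3 := by positivity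
    have hphi0 : 0 ≤ pd5_phi' y := le_trans (by positivity) hq1
    have hYT : 0 < Y ^ 5 / T ^ 3 := by positivity
    constructor
    · have h1 : 3 / 8 / (116 * Y) * (Y ^ 6 / (10 ^ 12 * T ^ 3)) ≤ pd5_phi' y * (1 / ν ^ 3) :=
        mul_le_mul hq1 hr1 (by positivity) hphi0
      have h2 : 3 / 8 / (116 * Y) * (Y ^ 6 / (10 ^ 12 * T ^ 3)) = 3 / (928 * 10 ^ 12) * (Y ^ 5 / T ^ 3) := by
        field_simp
        norm_num
      rw [h2] at h1
      have h3 : 1 / 10 ^ 15 * (Y ^ 5 / T ^ 3) ≤ 3 / (928 * 10 ^ 12) * (Y ^ 5 / T ^ 3) :=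
        mul_le_mul_of_nonneg_right (by norm_num) hYT.le
      calc 1 / 10 ^ 15 * ((t - t') * (Y ^ 5 / T ^ 3)) = (t - t') * (1 / 10 ^ 15 * (Y ^ 5 / T ^ 3)) := by ring
        _ ≤ (t - t') * (pd5_phi' y * (1 / ν ^ 3)) := mul_le_mul_of_nonneg_left (h3.trans h1) hu.le
        _ ≤ 2 * (t - t') * (pd5_phi' y * (1 / ν ^ 3)) := by
            have : 0 ≤ (t - t') * (pd5_phi' y * (1 / ν ^ 3)) := mul_nonneg hu.le (mul_nonneg hphi0 hνi.le)
            linarith
    · have h1 : pd5_phi' y * (1 / ν ^ 3) ≤ 200 / Y * (10 ^ 12 * Y ^ 6 / T ^ 3) :=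
        mul_le_mul hq2 hr2 hνi.le (by positivity)
      have h2 : 200 / Y * (10 ^ 12 * Y ^ 6 / T ^ 3) = 200 * 10 ^ 12 * (Y ^ 5 / T ^ 3) := by
        field_simp
      rw [h2] at h1
      calc 2 * (t - t') * (pd5_phi' y * (1 / ν ^ 3)) ≤ 2 * (t - t') * (200 * 10 ^ 12 * (Y ^ 5 / T ^ 3)) :=
            mul_le_mul_of_nonneg_left h1 (by positivity)
        _ = 4 * 10 ^ 14 * ((t - t') * (Y ^ 5 / T ^ 3)) := by ring
        _ ≤ 10 ^ 30 * (1 / 10 ^ 15) * ((t - t') * (Y ^ 5 / T ^ 3)) :=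
            mul_le_mul_of_nonneg_right (by norm_num) (mul_nonneg hu.le hYT.le)
        _ = 10 ^ 30 * (1 / 10 ^ 15 * ((t - t') * (Y ^ 5 / T ^ 3))) := by ring

end Pool.Agent.Lib.TW
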