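import Pool.Agent.Lib.TW.Vt5
import Pool.Agent.Lib.TW.At5

/-!
# TW / Sm5: one pair of main terms
-/

set_option autoImplicit false

open MeasureTheory
open scoped FourierTransform

namespace Pool.Agent.Lib.TW

private theorem sm5_id1 {Y T u : ℝ} (hY : 0 < Y) (hT : 0 < T) (hu : 0 < u) :
    (u * Y ^ 5 / T ^ 3) ^ (1 / 6 : ℝ) = u ^ (1 / 6 : ℝ) * Y ^ (5 / 6 : ℝ) / T ^ (1 / 2 : ℝ) := by
  rw [Real.div_rpow (by positivity) (by positivity), Real.mul_rpow hu.le (by positivity)]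
  have e1 : (Y ^ 5) ^ (1 / 6 : ℝ) = Y ^ (5 / 6 : ℝ) := by
    rw [← Real.rpow_natCast, ← Real.rpow_mul hY.le]
    norm_num
  have e2 : (T ^ 3) ^ (1 / 6 : ℝ) = T ^ (1 / 2 : ℝ) := by
    rw [← Real.rpow_natCast, ← Real.rpow_mul hT.le]
    norm_num
  rw [e1, e2]

private theorem sm5_w {Y T : ℝ} (hY : 0 < Y) (hT : 0 < T) : (Y ^ (3 / 2 : ℝ) / T ^ (1 / 2 : ℝ)) ^ 2 = Y ^ 3 / T := by
  rw [div_pow]
  have e1 : (Y ^ (3 / 2 : ℝ)) ^ 2 = Y ^ 3 := by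
    rw [← Real.rpow_natCast, ← Real.rpow_mul hY.le, ← Real.rpow_natCast]
    norm_num
  have e2 : (T ^ (1 / 2 : ℝ)) ^ 2 = T := by
    rw [← Real.rpow_natCast, ← Real.rpow_mul hT.le]
    norm_num
  rw [e1, e2]

private theorem sm5_tb {Y T u : ℝ} (hY : 0 < Y) (hT : 0 < T) (hu : 0 < |u|) :
    Y ^ 3 / T * (T / Y ^ 2 * lam T Y u ^ (1 / 6 : ℝ) + (T / Y ^ 2) ^ (1 / 2 : ℝ) * lam T Y u ^ (-(1 / 6) : ℝ)) = tb T Y u := by
  unfold lam tb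
  have h1 := sm5_id1 hY hT hu
  have hT2 : T ^ (1 / 2 : ℝ) * T ^ (1 / 2 : ℝ) = T := by
    rw [← Real.rpow_add hT]
    norm_num
  have hY1 : Y ^ (11 / 6 : ℝ) = Y * Y ^ (5 / 6 : ℝ) := by
    rw [show (11 / 6 : ℝ) = 1 + 5 / 6 by norm_num, Real.rpow_add hY, Real.rpow_one]
  have hY2 : Y ^ (7 / 6 : ℝ) * Y ^ (5 / 6 : ℝ) = Y ^ 2 := by
    rw [← Real.rpow_add hY, ← Real.rpow_natCast]
    norm_num
  have hq : (T / Y ^ 2) ^ (1 / 2 : ℝ) = T ^ (1 / 2 : ℝ) / Y := by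
    rw [Real.div_rpow hT.le (by positivity)]
    congr 1
    rw [← Real.rpow_natCast, ← Real.rpow_mul hY.le]
    norm_num
  have hu6 : 0 < |u| ^ (1 / 6 : ℝ) := Real.rpow_pos_of_pos hu _
  have hY6 : 0 < Y ^ (5 / 6 : ℝ) := Real.rpow_pos_of_pos hY _
  have hTh : 0 < T ^ (1 / 2 : ℝ) := Real.rpow_pos_of_pos hT _
  rw [Real.rpow_neg (by positivity), h1, hq, hY1, mul_add]
  congr 1
  · field_simp
  · rw [inv_div, eq_div_iff hu6.ne']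
    have h2 : Y ^ 3 / T * (T ^ (1 / 2 : ℝ) / Y * (T ^ (1 / 2 : ℝ) / (|u| ^ (1 / 6 : ℝ) * Y ^ (5 / 6 : ℝ)))) * |u| ^ (1 / 6 : ℝ) =
        Y ^ 2 * (T ^ (1 / 2 : ℝ) * T ^ (1 / 2 : ℝ)) / (T * Y ^ (5 / 6 : ℝ)) := by
      field_simp
    rw [h2, hT2, ← hY2]
    field_simp

private theorem sm5_abel (L : ℕ) (A E : ℕ → ℂ) (a0 d0 V : ℝ) (hV : 0 ≤ V) (ha : 0 ≤ a0) (hd : 0 ≤ d0)
    (hA : ∀ n, n < L → ‖A n‖ ≤ a0) (hdA : ∀ n, n + 1 < L → ‖A (n + 1) - A n‖ ≤ d0)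
    (hE : ∀ m, m ≤ L → ‖∑ n ∈ Finset.range m, E n‖ ≤ V) :
    ‖∑ n ∈ Finset.range L, A n * E n‖ ≤ (a0 + L * d0) * V := by
  rcases Nat.eq_zero_or_pos L with hL | hL
  · subst hL
    rw [Finset.sum_range_zero, norm_zero]
    positivity
  · have h1 := Finset.sum_range_by_parts A E L
    simp only [smul_eq_mul] at h1
    rw [h1]
    refine (norm_sub_le _ _).trans ?_
    have h2 : ‖A (L - 1) * ∑ i ∈ Finset.range L, E i‖ ≤ a0 * V := by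
      rw [norm_mul]
      have h3 := hA (L - 1) (by omega)
      exact mul_le_mul h3 (hE L le_rfl) (norm_nonneg _) ((norm_nonneg _).trans h3)
    have h4 : ‖∑ i ∈ Finset.range (L - 1), (A (i + 1) - A i) * ∑ i ∈ Finset.range (i + 1), E i‖ ≤ L * d0 * V := by
      refine (norm_sum_le _ _).trans ?_
      have h5 : ∀ i ∈ Finset.range (L - 1), ‖(A (i + 1) - A i) * ∑ i ∈ Finset.range (i + 1), E i‖ ≤ d0 * V := by
        intro i hi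
        rw [Finset.mem_range] at hi
        rw [norm_mul]
        exact mul_le_mul (hdA i (by omega)) (hE (i + 1) (by omega)) (norm_nonneg _) hd
      refine (Finset.sum_le_card_nsmul _ _ _ h5).trans ?_
      rw [Finset.card_range, nsmul_eq_mul]
      have h6 : ((L - 1 : ℕ) : ℝ) ≤ L := by exact_mod_cast Nat.sub_le L 1
      calc ((L - 1 : ℕ) : ℝ) * (d0 * V) ≤ L * (d0 * V) := mul_le_mul_of_nonneg_right h6 (mul_nonneg hd hV)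
        _ = L * d0 * V := by ring
    linarith

/-- PROOF. `near T Y = Ico a (a+L)`, `a ≥ T/(10⁴Y²) > 0`, `a + L ≤ 10⁴T/Y²` (empty: trivial).  Abel summation: the amplitude
`A ν = |kap|² b(sp t ν) sa t ν conj(b(sp t' ν) sa t' ν)` is `≤ C B² Y³/T` and its differences are `≤ C B² (Y³/T)(Y²/T)` (`at5`), there are at most
`10⁴T/Y²` of them; the partial sums of the phases by `vt5`.  `(Y³/T)(T/Y²) lam^(1/6) = Y^(11/6) |u|^(1/6) T^(-1/2)` and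
`(Y³/T)(T/Y²)^(1/2) lam^(-1/6) = Y^(7/6) |u|^(-1/6)`. -/
theorem sm5 : ∃ C : ℝ, 0 ≤ C ∧ ∀ Y : ℝ, 1 ≤ Y → ∀ (B : ℝ) (b : ℝ → ℂ), Am1 Y B b → ∀ T : ℝ, Y ^ 2 ≤ T → ∀ t t' : ℝ, T / 2 ≤ t → t ≤ 2 * T →
    T / 2 ≤ t' → t' ≤ 2 * T → t ≠ t' →
    ‖∑ ν ∈ near T Y, Mn b t ν * (starRingEnd ℂ) (Mn b t' ν)‖ ≤ C * B ^ 2 * tb T Y (t - t') := by
  obtain ⟨Cv, hCv, hvt⟩ := vt5
  obtain ⟨Ca, hCa, hat⟩ := at5
  refine ⟨20001 * ‖kap‖ ^ 2 * Ca ^ 2 * Cv, by positivity, ?_⟩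
  intro Y hY B b hb T hYT t t' ht1 ht2 ht1' ht2' hne
  have hY0 : 0 < Y := by linarith
  have hY2 : 0 < Y ^ 2 := by positivity
  have hT : 1 ≤ T := (one_le_pow₀ hY).trans hYT
  have hT0 : 0 < T := by linarith
  have hB : 0 ≤ B := le_trans (norm_nonneg _) (hb.2.2.1 0)
  have hu : 0 < |t - t'| := abs_pos.2 (sub_ne_zero.2 hne)
  have hR : 0 ≤ tb T Y (t - t') := by
    unfold tb
    positivity
  unfold near
  obtain ⟨a, ha⟩ : ∃ a : ℕ, a = ⌈T / (10000 * Y ^ 2)⌉₊ := ⟨_, rfl⟩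
  obtain ⟨b', hb'⟩ : ∃ b' : ℕ, b' = ⌊10000 * T / Y ^ 2⌋₊ := ⟨_, rfl⟩
  rw [← ha, ← hb']
  by_cases hab : b' ≤ a
  · rw [Finset.Ico_eq_empty (by omega)]
    simp only [Finset.sum_empty, norm_zero]
    positivity
  obtain ⟨L, hL⟩ : ∃ L : ℕ, b' = a + L := ⟨b' - a, by omega⟩
  have haT : T / (10000 * Y ^ 2) ≤ a := ha ▸ Nat.le_ceil _
  have ha0 : 0 < a := by
    have h1 : 0 < T / (10000 * Y ^ 2) := by positivity
    exact_mod_cast lt_of_lt_of_le h1 haT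
  have hbT : (b' : ℝ) ≤ 10000 * T / Y ^ 2 := hb' ▸ Nat.floor_le (by positivity)
  have hLT : (a : ℝ) + L ≤ 10000 * T / Y ^ 2 := by
    have h1 : ((a : ℝ) + L) = b' := by rw [hL]; push_cast; ring
    rw [h1]
    exact hbT
  have haR : (0 : ℝ) ≤ a := Nat.cast_nonneg _
  rw [Finset.sum_Ico_eq_sum_range, hL, Nat.add_sub_cancel_left]
  -- amplitude and phase
  obtain ⟨β, hβ⟩ : ∃ β : ℝ → ℕ → ℂ, β = fun (s : ℝ) (n : ℕ) => b (sp s ((a : ℝ) + (n : ℝ))) * (sa s ((a : ℝ) + (n : ℝ)) : ℂ) := ⟨_, rfl⟩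
  obtain ⟨E, hE⟩ : ∃ E : ℕ → ℂ, E = fun n : ℕ => Complex.exp (((ps t ((a : ℝ) + (n : ℝ)) - ps t' ((a : ℝ) + (n : ℝ)) : ℝ) : ℂ) * Complex.I) := ⟨_, rfl⟩
  have hterm : ∀ n : ℕ, Mn b t ((a + n : ℕ) : ℝ) * (starRingEnd ℂ) (Mn b t' ((a + n : ℕ) : ℝ)) =
      (‖kap‖ ^ 2 : ℝ) * ((β t n * (starRingEnd ℂ) (β t' n)) * E n) := by
    intro n
    have e0 : ((a + n : ℕ) : ℝ) = (a : ℝ) + n := by push_cast; ring
    rw [e0, hβ, hE]
    unfold Mn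
    simp only [map_mul, Complex.conj_ofReal]
    have e1 : (starRingEnd ℂ) (Complex.exp ((ps t' ((a : ℝ) + n) : ℂ) * Complex.I)) =
        Complex.exp (-((ps t' ((a : ℝ) + n) : ℂ) * Complex.I)) := by
      rw [← Complex.exp_conj, map_mul, Complex.conj_ofReal, Complex.conj_I, mul_neg]
    have e2 : Complex.exp (((ps t ((a : ℝ) + n) - ps t' ((a : ℝ) + n) : ℝ) : ℂ) * Complex.I) =
        Complex.exp ((ps t ((a : ℝ) + n) : ℂ) * Complex.I) * Complex.exp (-((ps t' ((a : ℝ) + n) : ℂ) * Complex.I)) := by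
      rw [← Complex.exp_add]
      congr 1
      push_cast
      ring
    have e3 : (((‖kap‖ ^ 2 : ℝ)) : ℂ) = kap * (starRingEnd ℂ) kap := by
      rw [Complex.mul_conj, Complex.normSq_eq_norm_sq]
    rw [e1, e2, e3]
    ring
  simp only [hterm]
  rw [← Finset.mul_sum, norm_mul, Complex.norm_real, Real.norm_of_nonneg (by positivity)]
  -- the estimate of the amplitude
  obtain ⟨w, hw⟩ : ∃ w, w = Y ^ (3 / 2 : ℝ) / T ^ (1 / 2 : ℝ) := ⟨_, rfl⟩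
  have hw0 : 0 ≤ w := hw ▸ by positivity
  have hw2 : w ^ 2 = Y ^ 3 / T := hw ▸ sm5_w hY0 hT0
  have hcw : 0 ≤ Ca * B * w := by positivity
  have hYT' : 0 ≤ Y ^ 2 / T := by positivity
  have hall : ∀ s : ℝ, T / 2 ≤ s → s ≤ 2 * T → ∀ n : ℕ, n < L → ‖β s n‖ ≤ Ca * B * w ∧ ‖β s (n + 1)‖ ≤ Ca * B * w ∧
      ‖β s (n + 1) - β s n‖ ≤ Ca * B * w * (Y ^ 2 / T) := by
    intro s hs1 hs2 n hn
    have hn' : (n : ℝ) + 1 ≤ L := by exact_mod_cast hn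
    have hn0 : (0 : ℝ) ≤ n := Nat.cast_nonneg _
    have haR' : (0 : ℝ) < a := by exact_mod_cast ha0
    have h := hat Y hY B b hb T hT s hs1 hs2 ((a : ℝ) + n) (by positivity) (by linarith) (by linarith)
    rw [← hw] at h
    have e1 : ((a : ℝ) + ((n + 1 : ℕ) : ℝ)) = (a : ℝ) + n + 1 := by push_cast; ring
    rw [hβ]
    simp only [e1]
    exact h
  have hA : ∀ n, n < L → ‖β t n * (starRingEnd ℂ) (β t' n)‖ ≤ (Ca * B * w) ^ 2 := by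
    intro n hn
    rw [norm_mul, RCLike.norm_conj, pow_two]
    exact mul_le_mul (hall t ht1 ht2 n hn).1 (hall t' ht1' ht2' n hn).1 (norm_nonneg _) hcw
  have hdA : ∀ n, n + 1 < L → ‖β t (n + 1) * (starRingEnd ℂ) (β t' (n + 1)) - β t n * (starRingEnd ℂ) (β t' n)‖ ≤
      2 * (Ca * B * w) ^ 2 * (Y ^ 2 / T) := by
    intro n hn
    have h1 := hall t ht1 ht2 n (by omega)
    have h2 := hall t' ht1' ht2' n (by omega)
    have e1 : β t (n + 1) * (starRingEnd ℂ) (β t' (n + 1)) - β t n * (starRingEnd ℂ) (β t' n) =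
        (β t (n + 1) - β t n) * (starRingEnd ℂ) (β t' (n + 1)) + β t n * (starRingEnd ℂ) (β t' (n + 1) - β t' n) := by
      rw [map_sub]
      ring
    rw [e1]
    refine (norm_add_le _ _).trans ?_
    rw [norm_mul, norm_mul, RCLike.norm_conj, RCLike.norm_conj]
    have h3 := mul_le_mul h1.2.2 h2.2.1 (norm_nonneg _) (mul_nonneg hcw hYT')
    have h4 := mul_le_mul h1.1 h2.2.2 (norm_nonneg _) hcw
    calc ‖β t (n + 1) - β t n‖ * ‖β t' (n + 1)‖ + ‖β t n‖ * ‖β t' (n + 1) - β t' n‖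
        ≤ Ca * B * w * (Y ^ 2 / T) * (Ca * B * w) + Ca * B * w * (Ca * B * w * (Y ^ 2 / T)) := add_le_add h3 h4
      _ = 2 * (Ca * B * w) ^ 2 * (Y ^ 2 / T) := by ring
  -- the partial sums of the phases
  obtain ⟨V, hV⟩ : ∃ V, V = Cv * (T / Y ^ 2 * lam T Y (t - t') ^ (1 / 6 : ℝ) +
    (T / Y ^ 2) ^ (1 / 2 : ℝ) * lam T Y (t - t') ^ (-(1 / 6) : ℝ)) := ⟨_, rfl⟩
  have hEm : ∀ m, m ≤ L → ‖∑ n ∈ Finset.range m, E n‖ ≤ V := by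
    intro m hm
    have hm' : (m : ℝ) ≤ L := by exact_mod_cast hm
    rw [hE, hV]
    exact hvt Y hY T hYT t t' ht1 ht2 ht1' ht2' hne a m ha0 haT (by linarith)
  have hV0 : 0 ≤ V := (norm_nonneg _).trans (hEm 0 (Nat.zero_le _))
  have h1 := sm5_abel L (fun n => β t n * (starRingEnd ℂ) (β t' n)) E ((Ca * B * w) ^ 2) (2 * (Ca * B * w) ^ 2 * (Y ^ 2 / T)) V
    hV0 (by positivity) (by positivity) hA hdA hEm
  have hLY : (L : ℝ) * (Y ^ 2 / T) ≤ 10000 := by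
    have h2 : (L : ℝ) ≤ 10000 * T / Y ^ 2 := by linarith
    calc (L : ℝ) * (Y ^ 2 / T) ≤ 10000 * T / Y ^ 2 * (Y ^ 2 / T) := mul_le_mul_of_nonneg_right h2 hYT'
      _ = 10000 := by field_simp
  have h3 : (Ca * B * w) ^ 2 + L * (2 * (Ca * B * w) ^ 2 * (Y ^ 2 / T)) ≤ 20001 * (Ca * B * w) ^ 2 := by
    have h4 : L * (2 * (Ca * B * w) ^ 2 * (Y ^ 2 / T)) = 2 * (Ca * B * w) ^ 2 * (L * (Y ^ 2 / T)) := by ring
    have h5 := mul_le_mul_of_nonneg_left hLY (by positivity : 0 ≤ 2 * (Ca * B * w) ^ 2)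
    rw [h4]
    linarith
  calc ‖kap‖ ^ 2 * ‖∑ n ∈ Finset.range L, β t n * (starRingEnd ℂ) (β t' n) * E n‖
      ≤ ‖kap‖ ^ 2 * (20001 * (Ca * B * w) ^ 2 * V) := by
        refine mul_le_mul_of_nonneg_left (h1.trans (mul_le_mul_of_nonneg_right h3 hV0)) (by positivity)
    _ = 20001 * ‖kap‖ ^ 2 * Ca ^ 2 * Cv * B ^ 2 * (Y ^ 3 / T * (T / Y ^ 2 * lam T Y (t - t') ^ (1 / 6 : ℝ) +
          (T / Y ^ 2) ^ (1 / 2 : ℝ) * lam T Y (t - t') ^ (-(1 / 6) : ℝ))) := by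
        rw [← hw2, hV]
        ring
    _ = 20001 * ‖kap‖ ^ 2 * Ca ^ 2 * Cv * B ^ 2 * tb T Y (t - t') := by rw [sm5_tb hY0 hT0 hu]

end Pool.Agent.Lib.TW
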