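import Pool.Agent.Lib.TW.Defs

/-!
# TW / Sob: the Sobolev inequality on unit intervals
-/

set_option autoImplicit false

open MeasureTheory

namespace Pool.Agent.Lib.TW

private theorem sob_aux (f f' : ℝ → ℂ) (hf : ∀ u, HasDerivAt f (f' u) u) (hc : Continuous f')
    (p t : ℝ) (h1 : p ≤ t) (h2 : t ≤ p + 1) :
    ‖f t‖ ^ 2 ≤ ∫ u in p..(p + 1), (2 * ‖f u‖ ^ 2 + ‖f' u‖ ^ 2) := by
  have hfc : Continuous f := continuous_iff_continuousAt.2 fun u => (hf u).continuousAt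
  have hg : ∀ u, HasDerivAt (fun x => ‖f x‖ ^ 2) (2 * inner ℝ (f u) (f' u)) u := fun u => (hf u).norm_sq
  have hgc : Continuous fun u => 2 * inner ℝ (f u) (f' u) := by fun_prop
  have hqc : Continuous fun u => ‖f u‖ ^ 2 + ‖f' u‖ ^ 2 := by fun_prop
  have hab : ∀ u, |2 * inner ℝ (f u) (f' u)| ≤ ‖f u‖ ^ 2 + ‖f' u‖ ^ 2 := by
    intro u
    have e1 := abs_real_inner_le_norm (f u) (f' u)
    rw [abs_mul, abs_of_pos (by norm_num : (0 : ℝ) < 2)]
    nlinarith [sq_nonneg (‖f u‖ - ‖f' u‖)]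
  have hq0 : ∀ u, 0 ≤ ‖f u‖ ^ 2 + ‖f' u‖ ^ 2 := fun u => by positivity
  have key : ∀ s, p ≤ s → s ≤ p + 1 →
      ‖f t‖ ^ 2 ≤ ‖f s‖ ^ 2 + ∫ u in p..(p + 1), (‖f u‖ ^ 2 + ‖f' u‖ ^ 2) := by
    intro s hs1 hs2
    rcases le_total s t with h | h
    · have e1 : ∫ u in s..t, 2 * inner ℝ (f u) (f' u) = ‖f t‖ ^ 2 - ‖f s‖ ^ 2 :=
        intervalIntegral.integral_eq_sub_of_hasDerivAt (fun u _ => hg u) (hgc.intervalIntegrable _ _)
      have e2 : ∫ u in s..t, 2 * inner ℝ (f u) (f' u) ≤ ∫ u in s..t, (‖f u‖ ^ 2 + ‖f' u‖ ^ 2) :=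
        intervalIntegral.integral_mono_on h (hgc.intervalIntegrable _ _) (hqc.intervalIntegrable _ _)
          fun u _ => (le_abs_self _).trans (hab u)
      have e3 : ∫ u in s..t, (‖f u‖ ^ 2 + ‖f' u‖ ^ 2) ≤ ∫ u in p..(p + 1), (‖f u‖ ^ 2 + ‖f' u‖ ^ 2) :=
        intervalIntegral.integral_mono_interval hs1 h h2 (Filter.Eventually.of_forall hq0)
          (hqc.intervalIntegrable _ _)
      linarith
    · have e1 : ∫ u in t..s, 2 * inner ℝ (f u) (f' u) = ‖f s‖ ^ 2 - ‖f t‖ ^ 2 :=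
        intervalIntegral.integral_eq_sub_of_hasDerivAt (fun u _ => hg u) (hgc.intervalIntegrable _ _)
      have e2 : ∫ u in t..s, -(2 * inner ℝ (f u) (f' u)) ≤ ∫ u in t..s, (‖f u‖ ^ 2 + ‖f' u‖ ^ 2) :=
        intervalIntegral.integral_mono_on h (hgc.neg.intervalIntegrable _ _)
          (hqc.intervalIntegrable _ _) fun u _ => (neg_le_abs _).trans (hab u)
      have e3 : ∫ u in t..s, (‖f u‖ ^ 2 + ‖f' u‖ ^ 2) ≤ ∫ u in p..(p + 1), (‖f u‖ ^ 2 + ‖f' u‖ ^ 2) :=
        intervalIntegral.integral_mono_interval h1 h hs2 (Filter.Eventually.of_forall hq0)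
          (hqc.intervalIntegrable _ _)
      rw [intervalIntegral.integral_neg] at e2
      linarith
  have hfc2 : Continuous fun u => ‖f u‖ ^ 2 := by fun_prop
  have h3 : ∫ _s in p..(p + 1), ‖f t‖ ^ 2 ≤
      ∫ s in p..(p + 1), (‖f s‖ ^ 2 + ∫ u in p..(p + 1), (‖f u‖ ^ 2 + ‖f' u‖ ^ 2)) :=
    intervalIntegral.integral_mono_on (by linarith) (continuous_const.intervalIntegrable _ _)
      ((hfc2.add continuous_const).intervalIntegrable _ _) fun s hs => key s hs.1 hs.2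
  rw [intervalIntegral.integral_const, intervalIntegral.integral_add (hfc2.intervalIntegrable _ _)
    (continuous_const.intervalIntegrable _ _), intervalIntegral.integral_const] at h3
  simp only [add_sub_cancel_left, one_smul] at h3
  refine h3.trans (le_of_eq ?_)
  rw [← intervalIntegral.integral_add (hfc2.intervalIntegrable _ _) (hqc.intervalIntegrable _ _)]
  refine intervalIntegral.integral_congr fun u _ => ?_
  ring

/-- PROOF. `f(u) = N^(iu) A w N u = sum w(n/N) e^(-iu log(n/N))` has `|f| = |A w|` and `f' = -i sum w(n/N) log(n/N) e^(-iu log(n/N))`, so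
`|f'| = |A (w log)|`.  For `t, s ∈ [p, p+1]`: `|f(t)|² ≤ |f(s)|² + 2 ∫ |f| |f'| ≤ |f(s)|² + ∫ (|f|² + |f'|²)`; integrate over `s`. -/
theorem sob (w : ℝ → ℝ) (N : ℕ) (hN : 1 ≤ N) (p t : ℝ) (h1 : p ≤ t) (h2 : t ≤ p + 1) :
    ‖A w N t‖ ^ 2 ≤ ∫ u in p..(p + 1), (2 * ‖A w N u‖ ^ 2 + ‖A (fun x => w x * Real.log x) N u‖ ^ 2) := by
  have hN0 : (N : ℝ) ≠ 0 := by exact_mod_cast (by omega : N ≠ 0)
  set f : ℝ → ℂ := fun u => ∑ n ∈ Finset.Icc 1 (4 * N), ((w ((n : ℝ) / N) : ℝ) : ℂ) * ch ((n : ℝ) / N) (-u) with hf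
  set f' : ℝ → ℂ := fun u => ∑ n ∈ Finset.Icc 1 (4 * N), ((w ((n : ℝ) / N) : ℝ) : ℂ) *
    (ch ((n : ℝ) / N) (-u) * (((-Real.log ((n : ℝ) / N) : ℝ) : ℂ) * Complex.I)) with hf'
  have hch : ∀ (x u : ℝ), HasDerivAt (fun u => ch x (-u))
      (ch x (-u) * (((-Real.log x : ℝ) : ℂ) * Complex.I)) u := by
    intro x u
    unfold ch
    have e1 : HasDerivAt (fun u : ℝ => -u * Real.log x) (-Real.log x) u := by
      have e0 := ((hasDerivAt_id u).neg).mul_const (Real.log x)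
      simpa using e0
    exact (e1.ofReal_comp.mul_const Complex.I).cexp
  have hder : ∀ u, HasDerivAt f (f' u) u := by
    intro u
    rw [hf, hf']
    exact HasDerivAt.fun_sum fun n _ => (hch _ u).const_mul _
  have hchc : ∀ x : ℝ, Continuous fun u => ch x (-u) := fun x =>
    continuous_iff_continuousAt.2 fun u => (hch x u).continuousAt
  have hc : Continuous f' := by
    rw [hf']
    exact continuous_finsetSum _ fun n _ => continuous_const.mul ((hchc _).mul continuous_const)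
  have hsplit : ∀ n ∈ Finset.Icc 1 (4 * N), ∀ u : ℝ, ch ((n : ℝ) / N) (-u) = ch N u * ch n (-u) := by
    intro n hn u
    have hn1 := (Finset.mem_Icc.1 hn).1
    have hn0 : (n : ℝ) ≠ 0 := by exact_mod_cast (by omega : n ≠ 0)
    unfold ch
    rw [← Complex.exp_add, Real.log_div hn0 hN0]
    congr 1
    push_cast
    ring
  have hA : ∀ (v : ℝ → ℝ) (u : ℝ), ∑ n ∈ Finset.Icc 1 (4 * N), ((v ((n : ℝ) / N) : ℝ) : ℂ) * ch ((n : ℝ) / N) (-u) =
      ch N u * A v N u := by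
    intro v u
    unfold A
    rw [Finset.mul_sum]
    refine Finset.sum_congr rfl fun n hn => ?_
    rw [hsplit n hn u]
    ring
  have hnf : ∀ u, ‖f u‖ = ‖A w N u‖ := by
    intro u
    rw [hf]
    simp only
    rw [hA w u, norm_mul, norm_ch, one_mul]
  have hnf' : ∀ u, ‖f' u‖ = ‖A (fun x => w x * Real.log x) N u‖ := by
    intro u
    have e1 : f' u = -Complex.I * (ch N u * A (fun x => w x * Real.log x) N u) := by
      rw [← hA (fun x => w x * Real.log x) u, hf', Finset.mul_sum]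
      refine Finset.sum_congr rfl fun n _ => ?_
      push_cast
      ring
    rw [e1, norm_mul, norm_neg, Complex.norm_I, one_mul, norm_mul, norm_ch, one_mul]
  have h := sob_aux f f' hder hc p t h1 h2
  simp only [hnf, hnf'] at h
  exact h

end Pool.Agent.Lib.TW
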