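import Pool.Agent.Lib.TW.Defs5

/-!
# TW / Sq5: the neighbourhood of the stationary point
-/

set_option autoImplicit false

open MeasureTheory
open scoped FourierTransform

namespace Pool.Agent.Lib.TW

private theorem sq5_phase {t c x : ℝ} (ht : 0 < t) (hc : 0 < c) (hx : |x| ≤ c / 2) :
    |(-(t * Real.log (1 + 1 / (c + x))) - t / (c * (c + 1)) * (c + x)) -
      (-(t * Real.log (1 + 1 / c)) - t / (c * (c + 1)) * c) + t * (2 * c + 1) / (c * (c + 1)) ^ 2 * x ^ 2 / 2| ≤
      20 * t / c ^ 4 * |x| ^ 3 := by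
  have hlog : ∀ u : ℝ, |u| ≤ c / 2 → Real.log (1 + 1 / (c + u)) = Real.log (c + u + 1) - Real.log (c + u) := by
    intro u hu
    have hu1 := (abs_le.mp hu).1
    have h1 : 0 < c + u := by linarith
    rw [← Real.log_div (by linarith) h1.ne']
    congr 1
    field_simp
  have hlog0 : Real.log (1 + 1 / c) = Real.log (c + 0 + 1) - Real.log (c + 0) := by
    have := hlog 0 (by rw [abs_zero]; positivity)
    rw [← this, add_zero]
  set h : ℝ → ℝ := fun u => -(t * (Real.log (c + u + 1) - Real.log (c + u))) - t / (c * (c + 1)) * (c + u) +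
    t * (2 * c + 1) / (c * (c + 1)) ^ 2 * u ^ 2 / 2 with hh
  have hd : ∀ u : ℝ, |u| ≤ c / 2 → HasDerivAt h
      (t * u ^ 2 * ((2 * c + 1) * (2 * c + 1 + u) - c * (c + 1)) / ((c * (c + 1)) ^ 2 * ((c + u) * (c + u + 1)))) u := by
    intro u hu
    have hu1 := (abs_le.mp hu).1
    have h1 : 0 < c + u := by linarith
    have h2 : 0 < c + u + 1 := by linarith
    have e1 : HasDerivAt (fun u : ℝ => c + u) 1 u := by simpa using (hasDerivAt_id u).const_add c
    have e2 : HasDerivAt (fun u : ℝ => c + u + 1) 1 u := e1.add_const 1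
    have e3 := (((e2.log h2.ne').sub (e1.log h1.ne')).const_mul t).neg
    have e4 := e1.const_mul (t / (c * (c + 1)))
    have e5 := ((hasDerivAt_pow 2 u).const_mul (t * (2 * c + 1) / (c * (c + 1)) ^ 2)).div_const 2
    refine ((e3.sub e4).add e5).congr_deriv ?_
    field_simp
    ring
  have hb : ∀ u : ℝ, |u| ≤ |x| →
      ‖t * u ^ 2 * ((2 * c + 1) * (2 * c + 1 + u) - c * (c + 1)) / ((c * (c + 1)) ^ 2 * ((c + u) * (c + u + 1)))‖ ≤
        20 * t / c ^ 4 * |x| ^ 2 := by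
    intro u hu
    have hu0 : |u| ≤ c / 2 := hu.trans hx
    obtain ⟨hu1, hu2⟩ := abs_le.mp hu0
    have h1 : c / 2 ≤ c + u := by linarith
    have h2 : 0 < c + u + 1 := by linarith
    have hN0 : 0 ≤ (2 * c + 1) * (2 * c + 1 + u) - c * (c + 1) := by nlinarith
    have hN1 : (2 * c + 1) * (2 * c + 1 + u) - c * (c + 1) ≤ 5 * (c + 1) ^ 2 := by nlinarith
    have hD : c ^ 2 / 4 ≤ (c + u) * (c + u + 1) := by nlinarith
    have hux : u ^ 2 ≤ |x| ^ 2 := by
      rw [← sq_abs u]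
      exact pow_le_pow_left₀ (abs_nonneg _) hu 2
    have hD0 : 0 < (c + u) * (c + u + 1) := mul_pos (by linarith) h2
    rw [Real.norm_eq_abs, abs_of_nonneg (div_nonneg (mul_nonneg (by positivity) hN0) (by positivity))]
    have s1 : t * u ^ 2 * ((2 * c + 1) * (2 * c + 1 + u) - c * (c + 1)) / ((c * (c + 1)) ^ 2 * ((c + u) * (c + u + 1))) ≤
        t * u ^ 2 * (5 * (c + 1) ^ 2) / ((c * (c + 1)) ^ 2 * (c ^ 2 / 4)) := by
      gcongr
    refine s1.trans ?_
    have s2 : t * u ^ 2 * (5 * (c + 1) ^ 2) / ((c * (c + 1)) ^ 2 * (c ^ 2 / 4)) = 20 * t / c ^ 4 * u ^ 2 := by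
      field_simp
      ring
    rw [s2]
    gcongr
  have hmv := Convex.norm_image_sub_le_of_norm_hasDerivWithin_le (f := h) (s := Set.Icc (-|x|) |x|)
    (f' := fun u => t * u ^ 2 * ((2 * c + 1) * (2 * c + 1 + u) - c * (c + 1)) /
      ((c * (c + 1)) ^ 2 * ((c + u) * (c + u + 1)))) (C := 20 * t / c ^ 4 * |x| ^ 2) (x := 0) (y := x)
    (fun u hu => (hd u ((abs_le.mpr hu).trans hx)).hasDerivWithinAt) (fun u hu => hb u (abs_le.mpr hu))
    (convex_Icc _ _) ⟨by simp, by simp⟩ ⟨neg_abs_le x, le_abs_self x⟩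
  rw [sub_zero, Real.norm_eq_abs, Real.norm_eq_abs] at hmv
  have e : (-(t * Real.log (1 + 1 / (c + x))) - t / (c * (c + 1)) * (c + x)) -
      (-(t * Real.log (1 + 1 / c)) - t / (c * (c + 1)) * c) + t * (2 * c + 1) / (c * (c + 1)) ^ 2 * x ^ 2 / 2 =
      h x - h 0 := by
    simp only [hh]
    rw [hlog x hx, hlog0]
    ring
  rw [e]
  calc |h x - h 0| ≤ 20 * t / c ^ 4 * |x| ^ 2 * |x| := hmv
    _ = 20 * t / c ^ 4 * |x| ^ 3 := by ring

private theorem sq5_exp (α β : ℝ) : ‖Complex.exp ((α : ℂ) * Complex.I) - Complex.exp ((β : ℂ) * Complex.I)‖ ≤ |α - β| := by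
  have h1 : Complex.exp ((α : ℂ) * Complex.I) - Complex.exp ((β : ℂ) * Complex.I) =
      Complex.exp ((β : ℂ) * Complex.I) * (Complex.exp (Complex.I * ((α - β : ℝ) : ℂ)) - 1) := by
    rw [mul_sub, mul_one, ← Complex.exp_add]
    congr 2
    push_cast
    ring
  rw [h1, norm_mul, Complex.norm_exp_ofReal_mul_I, one_mul]
  exact Real.norm_exp_I_mul_ofReal_sub_one_le

/-- PROOF. `c = sp t ν`, `c(c+1) = t/(2πν)`, `2c + 1 = √(1+2t/(πν))`.  `φ(y) = -t log(1+1/y) - 2πνy`: `φ'(c) = t/(c(c+1)) - 2πν = 0`,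
`φ''(c) = -t(2c+1)/(c(c+1))² = -1/(sa t ν)²`, and `φ''' = -2t((y+1)^(-3) - y^(-3))`, `|φ'''| ≤ 6t/y⁴ ≤ C T/Y⁴` for `|y-c| ≤ η`
(`y ≥ Y/32`).  Taylor: `|φ(y) - φ(c) + (y-c)²/(2 sa²)| ≤ C (T/Y⁴) |y-c|³`.  `‖b y - b c‖ ≤ (B/Y) |y-c|`, `|e^(iα) - e^(iβ)| ≤ |α-β|`,
`φ(c) = ps t ν`.  Substitution `y = c + x`. -/
theorem sq5 : ∃ C : ℝ, 0 ≤ C ∧ ∀ Y : ℝ, 1 ≤ Y → ∀ (B : ℝ) (b : ℝ → ℂ), Am1 Y B b → ∀ T : ℝ, 1 ≤ T → ∀ t : ℝ, T / 2 ≤ t → t ≤ 2 * T →
    ∀ ν : ℝ, 0 < ν → Y / 16 ≤ sp t ν → sp t ν ≤ 16 * Y → ∀ η : ℝ, 0 < η → η ≤ Y / 32 →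
    ‖(∫ y in (sp t ν - η)..(sp t ν + η), b y * ch (1 + 1 / y) (-t) * Complex.exp (((-(2 * Real.pi * ν * y) : ℝ) : ℂ) * Complex.I)) -
      b (sp t ν) * Complex.exp ((ps t ν : ℂ) * Complex.I) *
        ∫ x in (-η)..η, Complex.exp (((-(1 / sa t ν ^ 2 * x ^ 2 / 2) : ℝ) : ℂ) * Complex.I)‖ ≤
      C * B * (η ^ 2 / Y + T * η ^ 4 / Y ^ 4) := by
  refine ⟨5242880, by norm_num, ?_⟩
  intro Y hY B b hb T hT t ht1 ht2 ν hν hc1 hc2 η hη0 hη1
  obtain ⟨hbc, -, hbB, hbd⟩ := hb
  have hpi := Real.pi_pos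
  have ht : 0 < t := by linarith
  have hY0 : 0 < Y := by linarith
  set c : ℝ := sp t ν with hcdef
  have hc : 0 < c := by
    have : 0 < Y / 16 := by positivity
    linarith
  have hB : 0 ≤ B := (norm_nonneg _).trans (hbB 0)
  have hcc : c * (c + 1) = t / (2 * Real.pi * ν) := by
    have h1 : 0 ≤ 1 + 2 * t / (Real.pi * ν) := by positivity
    have h2 : 2 * c + 1 = Real.sqrt (1 + 2 * t / (Real.pi * ν)) := by
      rw [hcdef, sp]
      ring
    have h3 : (2 * c + 1) ^ 2 = 1 + 2 * t / (Real.pi * ν) := by rw [h2, Real.sq_sqrt h1]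
    have h4 : 4 * (c * (c + 1)) = 2 * t / (Real.pi * ν) := by linarith
    have h5 : 2 * t / (Real.pi * ν) = 4 * (t / (2 * Real.pi * ν)) := by
      field_simp
      ring
    linarith
  have hnu : 2 * Real.pi * ν = t / (c * (c + 1)) := by
    rw [hcc]
    field_simp
  have hsa : 1 / sa t ν ^ 2 = t * (2 * c + 1) / (c * (c + 1)) ^ 2 := by
    unfold sa
    rw [← hcdef, div_pow, Real.sq_sqrt (by positivity), one_div_div]
  have hcη : c / 2 ≥ η := by linarith
  -- the integrands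
  set F : ℝ → ℂ := fun x => b (c + x) * ch (1 + 1 / (c + x)) (-t) *
    Complex.exp (((-(2 * Real.pi * ν * (c + x)) : ℝ) : ℂ) * Complex.I) with hF
  set G : ℝ → ℂ := fun x => Complex.exp (((-(1 / sa t ν ^ 2 * x ^ 2 / 2) : ℝ) : ℂ) * Complex.I) with hG
  have hsub : (∫ y in (c - η)..(c + η), b y * ch (1 + 1 / y) (-t) *
      Complex.exp (((-(2 * Real.pi * ν * y) : ℝ) : ℂ) * Complex.I)) = ∫ x in (-η)..η, F x := by
    have := intervalIntegral.integral_comp_add_left (a := -η) (b := η) (fun y : ℝ => b y * ch (1 + 1 / y) (-t) *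
      Complex.exp (((-(2 * Real.pi * ν * y) : ℝ) : ℂ) * Complex.I)) c
    rw [← sub_eq_add_neg] at this
    exact this.symm
  rw [hsub]
  have hFe : ∀ x : ℝ, F x = b (c + x) *
      Complex.exp (((-(t * Real.log (1 + 1 / (c + x))) - t / (c * (c + 1)) * (c + x) : ℝ) : ℂ) * Complex.I) := by
    intro x
    simp only [hF, ch]
    rw [mul_assoc, ← Complex.exp_add]
    congr 2
    rw [hnu]
    push_cast
    ring
  have hps : ps t ν = -(t * Real.log (1 + 1 / c)) - t / (c * (c + 1)) * c := by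
    unfold ps
    rw [← hcdef, hnu]
  have hGe : ∀ x : ℝ, G x = Complex.exp (((-(t * (2 * c + 1) / (c * (c + 1)) ^ 2 * x ^ 2 / 2) : ℝ) : ℂ) * Complex.I) := by
    intro x
    simp only [hG]
    rw [hsa]
  have hIG : IntervalIntegrable G volume (-η) η := by
    apply Continuous.intervalIntegrable
    simp only [hG]
    fun_prop
  have hIF : IntervalIntegrable F volume (-η) η := by
    apply ContinuousOn.intervalIntegrable
    rw [Set.uIcc_of_le (by linarith)]
    have hpos : ∀ x ∈ Set.Icc (-η) η, c + x ≠ 0 := by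
      intro x hx
      have := hx.1
      have : 0 < c + x := by linarith
      exact this.ne'
    have hpos2 : ∀ x ∈ Set.Icc (-η) η, 1 + 1 / (c + x) ≠ 0 := by
      intro x hx
      have := hx.1
      have : 0 < c + x := by linarith
      positivity
    have hbcon : Continuous b := hbc.continuous
    simp only [hF, ch]
    refine ContinuousOn.mul (ContinuousOn.mul ?_ ?_) ?_
    · exact (hbcon.comp (continuous_const.add continuous_id)).continuousOn
    · refine Complex.continuous_exp.comp_continuousOn ?_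
      refine ContinuousOn.mul ?_ continuousOn_const
      refine Complex.continuous_ofReal.comp_continuousOn ?_
      refine ContinuousOn.mul continuousOn_const ?_
      refine ContinuousOn.log ?_ hpos2
      refine ContinuousOn.add continuousOn_const ?_
      exact ContinuousOn.div continuousOn_const (by fun_prop) hpos
    · apply Continuous.continuousOn
      fun_prop
  rw [← intervalIntegral.integral_const_mul, ← intervalIntegral.integral_sub hIF (hIG.const_mul _)]
  have hpt : ∀ x ∈ Set.uIoc (-η) η, ‖F x - b c * Complex.exp ((ps t ν : ℂ) * Complex.I) * G x‖ ≤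
      B / Y * η + B * (2621440 * T / Y ^ 4 * η ^ 3) := by
    intro x hx
    rw [Set.uIoc_of_le (by linarith)] at hx
    have hxη : |x| ≤ η := abs_le.mpr ⟨hx.1.le, hx.2⟩
    have hxc : |x| ≤ c / 2 := hxη.trans hcη
    set A₁ : ℝ := -(t * Real.log (1 + 1 / (c + x))) - t / (c * (c + 1)) * (c + x) with hA₁
    set A₂ : ℝ := -(t * Real.log (1 + 1 / c)) - t / (c * (c + 1)) * c - t * (2 * c + 1) / (c * (c + 1)) ^ 2 * x ^ 2 / 2 with hA₂
    have e1 : b c * Complex.exp ((ps t ν : ℂ) * Complex.I) * G x = b c * Complex.exp ((A₂ : ℂ) * Complex.I) := by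
      rw [hGe, hps, mul_assoc, ← Complex.exp_add]
      congr 2
      rw [hA₂]
      push_cast
      ring
    rw [e1, hFe x]
    have e2 : b (c + x) * Complex.exp ((A₁ : ℂ) * Complex.I) - b c * Complex.exp ((A₂ : ℂ) * Complex.I) =
        (b (c + x) - b c) * Complex.exp ((A₁ : ℂ) * Complex.I) +
          b c * (Complex.exp ((A₁ : ℂ) * Complex.I) - Complex.exp ((A₂ : ℂ) * Complex.I)) := by ring
    rw [e2]
    have n1 : ‖b (c + x) - b c‖ ≤ B / Y * |x| := by
      have := Convex.norm_image_sub_le_of_norm_deriv_le (f := b) (s := Set.univ) (C := B / Y) (x := c) (y := c + x)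
        (fun y _ => (hbc.differentiable (by norm_num)).differentiableAt) (fun y _ => hbd y) convex_univ
        (Set.mem_univ _) (Set.mem_univ _)
      simpa using this
    have n2 : |A₁ - A₂| ≤ 20 * t / c ^ 4 * |x| ^ 3 := by
      have := sq5_phase ht hc hxc
      rw [← hA₁] at this
      convert this using 2
      rw [hA₂]
      ring
    have n3 : 20 * t / c ^ 4 * |x| ^ 3 ≤ 2621440 * T / Y ^ 4 * η ^ 3 := by
      have m1 : 20 * t / c ^ 4 ≤ 2621440 * T / Y ^ 4 := by
        calc 20 * t / c ^ 4 ≤ 20 * (2 * T) / (Y / 16) ^ 4 := by gcongr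
          _ = 2621440 * T / Y ^ 4 := by
            field_simp
            norm_num
      gcongr
    calc ‖(b (c + x) - b c) * Complex.exp ((A₁ : ℂ) * Complex.I) +
          b c * (Complex.exp ((A₁ : ℂ) * Complex.I) - Complex.exp ((A₂ : ℂ) * Complex.I))‖
        ≤ ‖b (c + x) - b c‖ * 1 + ‖b c‖ * |A₁ - A₂| := by
          refine (norm_add_le _ _).trans ?_
          rw [norm_mul, norm_mul, Complex.norm_exp_ofReal_mul_I]
          gcongr
          exact sq5_exp _ _
      _ ≤ B / Y * η + B * (2621440 * T / Y ^ 4 * η ^ 3) := by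
          rw [mul_one]
          refine add_le_add (n1.trans (by gcongr)) ?_
          exact mul_le_mul (hbB c) (n2.trans n3) (abs_nonneg _) hB
  have hfin := intervalIntegral.norm_integral_le_of_norm_le_const hpt
  refine hfin.trans ?_
  have h2η : |η - -η| = 2 * η := by
    rw [abs_of_nonneg (by linarith)]
    ring
  rw [h2η]
  have : 0 ≤ B * (η ^ 2 / Y) := by positivity
  have e : (B / Y * η + B * (2621440 * T / Y ^ 4 * η ^ 3)) * (2 * η) =
      2 * (B * (η ^ 2 / Y)) + 5242880 * (B * (T * η ^ 4 / Y ^ 4)) := by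
    field_simp
    ring
  rw [e]
  nlinarith

end Pool.Agent.Lib.TW
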