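import Pool.Agent.Lib.TW.Fr5
import Pool.Agent.Lib.TW.Sq5
import Pool.Agent.Lib.TW.Vn

/-!
# TW / Sx5: stationary phase
-/

set_option autoImplicit false

open MeasureTheory
open scoped FourierTransform

namespace Pool.Agent.Lib.TW

/-- the phase -/
private noncomputable def sxp (t ν y : ℝ) : ℝ := -(t * Real.log (1 + 1 / y)) - 2 * Real.pi * ν * y

private theorem sxp_deriv {t ν y : ℝ} (hy : 0 < y) :
    HasDerivAt (fun x => -sxp t ν x) ((2 * Real.pi * ν * (y * (y + 1)) - t) / (y * (y + 1))) y := by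
  have h1 : HasDerivAt (fun x : ℝ => 1 + 1 / x) (-(y ^ 2)⁻¹) y := by
    simpa [one_div] using (hasDerivAt_inv hy.ne').const_add (1 : ℝ)
  have h0 : (1 : ℝ) + 1 / y ≠ 0 := by positivity
  have h2 := h1.log h0
  have h3 := (((h2.const_mul t).neg).sub ((hasDerivAt_id y).const_mul (2 * Real.pi * ν))).neg
  refine h3.congr_deriv ?_
  have : y + 1 ≠ 0 := by positivity
  field_simp
  ring

private theorem sxp_eq (b : ℝ → ℂ) (t ν y : ℝ) :
    b y * ch (1 + 1 / y) (-t) * Complex.exp (((-(2 * Real.pi * ν * y) : ℝ) : ℂ) * Complex.I) =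
      b y * Complex.exp ((sxp t ν y : ℂ) * Complex.I) := by
  unfold ch sxp
  rw [mul_assoc, ← Complex.exp_add]
  congr 2
  push_cast
  ring

private theorem sx_fo (b : ℝ → ℂ) (t ν : ℝ) :
    Fo b t ν = ∫ y : ℝ, b y * Complex.exp ((sxp t ν y : ℂ) * Complex.I) := by
  unfold Fo
  rw [Real.fourier_real_eq_integral_exp_smul]
  refine integral_congr_ae (Filter.Eventually.of_forall fun y => ?_)
  show Complex.exp _ • (b y * ch (1 + 1 / y) (-t)) = b y * Complex.exp ((sxp t ν y : ℂ) * Complex.I)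
  rw [← sxp_eq, smul_eq_mul, mul_comm]
  congr 3
  push_cast
  ring

private theorem sx_cont {Y B : ℝ} {b : ℝ → ℂ} (hb : Am1 Y B b) (t ν : ℝ) {α β : ℝ} (hα : 0 < α) :
    ContinuousOn (fun y => b y * Complex.exp ((sxp t ν y : ℂ) * Complex.I)) (Set.Icc α β) := by
  have h1 : ContinuousOn (sxp t ν) (Set.Icc α β) := by
    intro x hx
    have h0 := (sxp_deriv (t := t) (ν := ν) (hα.trans_le hx.1)).continuousAt
    have h2 : ContinuousAt (fun x => -(-sxp t ν x)) x := h0.neg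
    have h3 : (fun x => -(-sxp t ν x)) = sxp t ν := funext fun x => neg_neg _
    rw [h3] at h2
    exact h2.continuousWithinAt
  exact hb.1.continuous.continuousOn.mul (Complex.continuous_exp.comp_continuousOn
    ((Complex.continuous_ofReal.comp_continuousOn h1).mul continuousOn_const))

private theorem sx_v : ∃ C : ℝ, 0 ≤ C ∧ ∀ Y : ℝ, 1 ≤ Y → ∀ (B : ℝ) (b : ℝ → ℂ), Am1 Y B b → ∀ t ν : ℝ, 0 < t → 0 < ν →
    ∀ α β Q₀ : ℝ, Y / 32 ≤ α → α ≤ β → β ≤ 17 * Y → 0 < Q₀ →
    (∀ x ∈ Set.Icc α β, Q₀ ≤ |2 * Real.pi * ν * (x * (x + 1)) - t|) →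
    ‖∫ y in α..β, b y * Complex.exp ((sxp t ν y : ℂ) * Complex.I)‖ ≤ C * B * Y ^ 2 / Q₀ := by
  obtain ⟨C, hC, hv⟩ := vcn
  refine ⟨1224 * C, by positivity, fun Y hY B b hb t ν ht hν α β Q₀ hα hαβ hβ hQ hq => ?_⟩
  have hY0 : 0 < Y := by linarith
  have hα0 : 0 < α := by linarith
  have hπ := Real.pi_pos
  have h := hv α β (4 * Y) (4 * B) (306 * Y ^ 2) Q₀ (fun x => star (b x)) (fun x => star (deriv b x)) (fun x => -sxp t ν x)
    (fun x => x * (x + 1)) (fun x => 2 * x + 1) (fun x => 2 * Real.pi * ν * (x * (x + 1)) - t)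
    (fun x => 2 * Real.pi * ν * (2 * x + 1)) hαβ (by linarith) (by linarith) hQ
    (fun x hx => ?_) ?_ ?_ ?_ (fun x hx => ?_)
  · have e : ∫ x in α..β, star (b x) * Complex.exp (((-sxp t ν x : ℝ) : ℂ) * Complex.I) =
        star (∫ x in α..β, b x * Complex.exp ((sxp t ν x : ℂ) * Complex.I)) := by
      have e1 := intervalIntegral.intervalIntegral_conj (𝕜 := ℂ) (f := fun x => b x * Complex.exp ((sxp t ν x : ℂ) * Complex.I)) (a := α) (b := β)
        (μ := volume)
      refine Eq.trans ?_ e1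
      refine intervalIntegral.integral_congr fun x _ => ?_
      show star (b x) * Complex.exp (((-sxp t ν x : ℝ) : ℂ) * Complex.I) =
        (starRingEnd ℂ) (b x * Complex.exp ((sxp t ν x : ℂ) * Complex.I))
      rw [map_mul, ← Complex.exp_conj, map_mul, Complex.conj_ofReal, Complex.conj_I]
      congr 2
      push_cast
      ring
    rw [e, norm_star] at h
    refine h.trans (le_of_eq ?_)
    ring
  · have hx0 : 0 < x := hα0.trans_le hx.1
    refine ⟨?_, sxp_deriv hx0, ?_, ?_⟩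
    · exact ((hb.1.differentiable one_ne_zero) x).hasDerivAt.star
    · have := (hasDerivAt_id x).mul ((hasDerivAt_id x).add_const 1)
      refine this.congr_deriv ?_
      simp only [id]
      ring
    · have := (((hasDerivAt_id x).mul ((hasDerivAt_id x).add_const 1)).const_mul (2 * Real.pi * ν)).sub_const t
      refine this.congr_deriv ?_
      simp only [id]
      ring
  · exact (continuous_star.comp (hb.1.continuous_deriv le_rfl)).continuousOn
  · fun_prop
  · fun_prop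
  · have hx0 : 0 < x := hα0.trans_le hx.1
    have hx1 : x ≤ 17 * Y := hx.2.trans hβ
    refine ⟨?_, ?_, by positivity, ?_, ?_, by positivity, hq x hx⟩
    · rw [norm_star]
      have := hb.2.2.1 x
      have h0 := (norm_nonneg _).trans this
      linarith
    · rw [norm_star]
      have e : 4 * B / (4 * Y) = B / Y := by field_simp
      rw [e]
      exact hb.2.2.2 x
    · nlinarith
    · rw [abs_of_pos (by positivity)]
      have e : 306 * Y ^ 2 / (4 * Y) = 153 / 2 * Y := by field_simp; ring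
      rw [e]
      linarith

private theorem sx_sp {t ν : ℝ} (ht : 0 < t) (hν : 0 < ν) :
    0 < sp t ν ∧ 2 * Real.pi * ν * (sp t ν * (sp t ν + 1)) = t := by
  have hπ := Real.pi_pos
  have h1 : 0 < 2 * t / (Real.pi * ν) := by positivity
  have h2 : 1 < Real.sqrt (1 + 2 * t / (Real.pi * ν)) := by
    rw [Real.lt_sqrt (by norm_num)]
    linarith
  have h3 : Real.sqrt (1 + 2 * t / (Real.pi * ν)) ^ 2 = 1 + 2 * t / (Real.pi * ν) := Real.sq_sqrt (by linarith)
  unfold sp
  refine ⟨by linarith, ?_⟩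
  have h4 : (Real.sqrt (1 + 2 * t / (Real.pi * ν)) - 1) / 2 * ((Real.sqrt (1 + 2 * t / (Real.pi * ν)) - 1) / 2 + 1) =
      (Real.sqrt (1 + 2 * t / (Real.pi * ν)) ^ 2 - 1) / 4 := by ring
  rw [h4, h3]
  field_simp
  ring

/-- powers of `F` -/
private theorem sx_pow {F : ℝ} (hF : 1 ≤ F) : ∃ r G : ℝ, G = F ^ (-(3 / 5) : ℝ) ∧ 0 < r ∧ r ≤ 1 ∧ 0 < G ∧ r ^ 2 ≤ G ∧ F * r ^ 4 = G ∧
    F * r * G = 1 ∧ 1 ≤ F * G := by
  have hF0 : 0 < F := by linarith
  refine ⟨F ^ (-(2 / 5) : ℝ), F ^ (-(3 / 5) : ℝ), rfl, Real.rpow_pos_of_pos hF0 _, ?_, Real.rpow_pos_of_pos hF0 _, ?_, ?_, ?_, ?_⟩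
  · exact Real.rpow_le_one_of_one_le_of_nonpos hF (by norm_num)
  · rw [← Real.rpow_natCast, ← Real.rpow_mul hF0.le]
    exact Real.rpow_le_rpow_of_exponent_le hF (by norm_num)
  · rw [← Real.rpow_natCast, ← Real.rpow_mul hF0.le]
    nth_rewrite 1 [← Real.rpow_one F]
    rw [← Real.rpow_add hF0]
    norm_num
  · nth_rewrite 1 [← Real.rpow_one F]
    rw [← Real.rpow_add hF0, ← Real.rpow_add hF0]
    norm_num
  · nth_rewrite 1 [← Real.rpow_one F]
    rw [← Real.rpow_add hF0]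
    exact Real.one_le_rpow hF (by norm_num)

/-- PROOF (over the imported rows). `c = sp t ν`, `c(c+1) = t/(2πν)`, `F = T/Y ≥ 1`.  The conjugate of the integrand has the phase derivative
`q/p`, `p = y(y+1) ≤ 72Y²` on `[Y/8, 8Y]`, `q = 2πν p - t = 2πν(y-c)(y+c+1)`, `q' ≥ 0`: `vcn`.
(i) `c` not in `[Y/16, 16Y]`: `b c = 0`, `|q| ≥ 2πν (Y/16)(Y/8) ≥ c₁ T`, so the integral is `≤ C B Y²/T ≤ C B Y F^(-3/5)`.
(ii) `c` in `[Y/16, 16Y]`: `sa² ≤ C Y³/T`.  `η = Y F^(-2/5)/32`: on `[c-η, c+η]` `sq5`, error `C B Y (F^(-4/5) + F^(1-8/5))`; `fresnel` with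
`l = 1/sa²`, error `B C sa²/η ≤ C B Y³/(Tη) = C B Y F^(-3/5)`; outside `|q| ≥ 2πν η Y/8 ≥ c₁ T η/Y`, `vcn`: `≤ C B Y³/(Tη)`. -/
theorem sx5 : ∃ C : ℝ, 0 ≤ C ∧ ∀ Y : ℝ, 1 ≤ Y → ∀ (B : ℝ) (b : ℝ → ℂ), Am1 Y B b → ∀ T : ℝ, Y ≤ T → ∀ t : ℝ, T / 2 ≤ t → t ≤ 2 * T →
    ∀ ν : ℝ, T / (10000 * Y ^ 2) ≤ ν → ν ≤ 10000 * T / Y ^ 2 →
    ‖Fo b t ν - Mn b t ν‖ ≤ C * B * Y * (T / Y) ^ (-(3 / 5) : ℝ) := by
  obtain ⟨C1, hC1, hv⟩ := sx_v
  obtain ⟨C2, hC2, hs⟩ := sq5
  obtain ⟨C3, hC3, hf⟩ := fresnel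
  refine ⟨C1 * 10 ^ 6 + 2 * (C1 * (32 * 10 ^ 5)) + 2 * C2 + C3 * (4624 * 32), by positivity, ?_⟩
  intro Y hY B b hb T hYT t ht1 ht2 ν hν1 hν2
  have hY0 : 0 < Y := by linarith
  have hT0 : 0 < T := by linarith
  have ht0 : 0 < t := by linarith
  have hν0 : 0 < ν := lt_of_lt_of_le (by positivity) hν1
  have hπ := Real.pi_pos
  have hπ3 := Real.pi_gt_three
  have hB : 0 ≤ B := (norm_nonneg _).trans (hb.2.2.1 0)
  obtain ⟨F, hF⟩ : ∃ F, F = T / Y := ⟨_, rfl⟩
  have hF1 : 1 ≤ F := by rw [hF, le_div_iff₀ hY0]; linarith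
  have hF0 : 0 < F := by linarith
  have hTF : T = F * Y := by rw [hF]; field_simp
  obtain ⟨r, G, hG, hr0, hr1, hG0, hrG, hFr, hFrG, hFG⟩ := sx_pow hF1
  rw [← hF, ← hG]
  obtain ⟨c, hc⟩ : ∃ c, c = sp t ν := ⟨_, rfl⟩
  obtain ⟨hc0, hc1⟩ := sx_sp ht0 hν0
  rw [← hc] at hc0 hc1
  have hq : ∀ x : ℝ, 2 * Real.pi * ν * (x * (x + 1)) - t = 2 * Real.pi * ν * ((x - c) * (x + c + 1)) := by
    intro x
    rw [← hc1]
    ring
  have hνT : T / (10000 * Y ^ 2) * 6 ≤ 2 * Real.pi * ν := by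
    have : 0 < T / (10000 * Y ^ 2) := by positivity
    nlinarith
  have hpν : 0 < 2 * Real.pi * ν := by positivity
  have hCpos : 0 ≤ B * Y * G := by positivity
  rw [sx_fo]
  by_cases hcase : Y / 16 ≤ c ∧ c ≤ 16 * Y
  · -- the stationary point is in the range
    obtain ⟨hcl, hcu⟩ := hcase
    obtain ⟨η, hη⟩ : ∃ η, η = Y * r / 32 := ⟨_, rfl⟩
    have hη0 : 0 < η := by rw [hη]; positivity
    have hηY : η ≤ Y / 32 := by
      rw [hη]
      have : Y * r ≤ Y := by nlinarith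
      linarith
    have hsup : Function.support (fun y => b y * Complex.exp ((sxp t ν y : ℂ) * Complex.I)) ⊆ Set.Ioc (Y / 32) (17 * Y) := by
      intro y hy
      have h1 : b y ≠ 0 := fun h => hy (by simp [h])
      have h2 := hb.2.1 y h1
      exact ⟨by linarith [h2.1], by linarith [h2.2]⟩
    rw [← intervalIntegral.integral_eq_integral_of_support_subset hsup]
    have hi : ∀ α β : ℝ, Y / 32 ≤ α → α ≤ β → IntervalIntegrable (fun y => b y * Complex.exp ((sxp t ν y : ℂ) * Complex.I)) volume α β := by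
      intro α β hα hαβ
      refine ContinuousOn.intervalIntegrable ?_
      rw [Set.uIcc_of_le hαβ]
      exact sx_cont hb t ν (by linarith)
    have a1 : Y / 32 ≤ c - η := by linarith
    have a2 : c - η ≤ c + η := by linarith
    have a3 : c + η ≤ 17 * Y := by linarith
    rw [← intervalIntegral.integral_add_adjacent_intervals (hi _ _ le_rfl a1) (hi _ _ a1 (a2.trans a3)),
      ← intervalIntegral.integral_add_adjacent_intervals (hi _ _ a1 a2) (hi _ _ (a1.trans a2) a3)]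
    have hQ0 : 0 < T * η / (10 ^ 5 * Y) := by positivity
    have hQle : ∀ x d : ℝ, 0 ≤ x → η ≤ d → T * η / (10 ^ 5 * Y) ≤ 2 * Real.pi * ν * (d * (x + c + 1)) := by
      intro x d hx hd
      have h1 : η * (Y / 16) ≤ d * (x + c + 1) := mul_le_mul hd (by linarith) (by positivity) (by linarith)
      have h2 : T / (10000 * Y ^ 2) * 6 * (η * (Y / 16)) ≤ 2 * Real.pi * ν * (d * (x + c + 1)) :=
        mul_le_mul hνT h1 (by positivity) hpν.le
      refine le_trans ?_ h2
      have h3 : T / (10000 * Y ^ 2) * 6 * (η * (Y / 16)) = 6 / 160000 * (T * η / Y) := by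
        field_simp
        norm_num
      have h4 : T * η / (10 ^ 5 * Y) = 1 / 10 ^ 5 * (T * η / Y) := by field_simp
      rw [h3, h4]
      apply mul_le_mul_of_nonneg_right _ (by positivity)
      norm_num
    have hend : C1 * B * Y ^ 2 / (T * η / (10 ^ 5 * Y)) = C1 * (32 * 10 ^ 5) * (B * Y * G) := by
      have h1 : G = 1 / (F * r) := by
        rw [eq_div_iff (by positivity)]
        linarith
      rw [h1, hη, hTF]
      field_simp
    have k1 : ‖∫ y in (Y / 32)..(c - η), b y * Complex.exp ((sxp t ν y : ℂ) * Complex.I)‖ ≤ C1 * (32 * 10 ^ 5) * (B * Y * G) := by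
      rw [← hend]
      refine hv Y hY B b hb t ν ht0 hν0 _ _ _ le_rfl a1 (by linarith) hQ0 fun x hx => ?_
      rw [hq]
      refine (hQle x (c - x) (by linarith [hx.1]) (by linarith [hx.2])).trans (le_trans (le_of_eq ?_) (neg_le_abs _))
      ring
    have k3 : ‖∫ y in (c + η)..(17 * Y), b y * Complex.exp ((sxp t ν y : ℂ) * Complex.I)‖ ≤ C1 * (32 * 10 ^ 5) * (B * Y * G) := by
      rw [← hend]
      refine hv Y hY B b hb t ν ht0 hν0 _ _ _ (a1.trans a2) a3 le_rfl hQ0 fun x hx => ?_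
      rw [hq]
      exact (hQle x (x - c) (by linarith [hx.1]) (by linarith [hx.1])).trans (le_abs_self _)
    obtain ⟨J, hJ⟩ : ∃ J : ℂ, J = ∫ x in (-η)..η, Complex.exp (((-(1 / sa t ν ^ 2 * x ^ 2 / 2) : ℝ) : ℂ) * Complex.I) := ⟨_, rfl⟩
    have k2 : ‖(∫ y in (c - η)..(c + η), b y * Complex.exp ((sxp t ν y : ℂ) * Complex.I)) -
        b c * Complex.exp ((ps t ν : ℂ) * Complex.I) * J‖ ≤ 2 * C2 * (B * Y * G) := by
      have h1 := hs Y hY B b hb T (by linarith) t ht1 ht2 ν hν0 (by rw [← hc]; exact hcl) (by rw [← hc]; exact hcu) η hη0 hηY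
      rw [← hc, ← hJ] at h1
      simp only [sxp_eq] at h1
      refine h1.trans ?_
      have h2 : η ^ 2 / Y ≤ Y * G := by
        have e : η ^ 2 / Y = Y * (r ^ 2 / 1024) := by
          rw [hη]
          field_simp
          norm_num
        rw [e]
        apply mul_le_mul_of_nonneg_left _ hY0.le
        have := sq_nonneg r
        linarith
      have h3 : T * η ^ 4 / Y ^ 4 ≤ Y * G := by
        have e : T * η ^ 4 / Y ^ 4 = Y * (G / 32 ^ 4) := by
          rw [hη, hTF, ← hFr]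
          field_simp
        rw [e]
        apply mul_le_mul_of_nonneg_left _ hY0.le
        rw [div_le_iff₀ (by norm_num)]
        linarith
      calc C2 * B * (η ^ 2 / Y + T * η ^ 4 / Y ^ 4) ≤ C2 * B * (Y * G + Y * G) :=
            mul_le_mul_of_nonneg_left (add_le_add h2 h3) (by positivity)
        _ = 2 * C2 * (B * Y * G) := by ring
    have hsa : 0 < sa t ν := by
      unfold sa
      rw [← hc]
      positivity
    have hsa2 : sa t ν ^ 2 ≤ 4624 * Y ^ 3 / T := by
      have e : sa t ν ^ 2 = (c * (c + 1)) ^ 2 / (t * (2 * c + 1)) := by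
        unfold sa
        rw [← hc, div_pow, Real.sq_sqrt (by positivity)]
      rw [e, div_le_div_iff₀ (by positivity) hT0]
      have h1 : T * c ≤ t * (2 * c + 1) := by nlinarith
      have h2 : c * (c + 1) ^ 2 ≤ 4624 * Y ^ 3 := by
        have h3 : (c + 1) ^ 2 ≤ (17 * Y) ^ 2 := pow_le_pow_left₀ (by positivity) (by linarith) 2
        calc c * (c + 1) ^ 2 ≤ (16 * Y) * (17 * Y) ^ 2 := mul_le_mul hcu h3 (by positivity) (by positivity)
          _ = 4624 * Y ^ 3 := by ring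
      calc (c * (c + 1)) ^ 2 * T = (c * (c + 1) ^ 2) * (T * c) := by ring
        _ ≤ (4624 * Y ^ 3) * (t * (2 * c + 1)) := mul_le_mul h2 h1 (by positivity) (by positivity)
    have k4 : ‖b c * Complex.exp ((ps t ν : ℂ) * Complex.I) * J - Mn b t ν‖ ≤ C3 * (4624 * 32) * (B * Y * G) := by
      have h1 := hf (1 / sa t ν ^ 2) η (by positivity) hη0
      have h2 : Real.sqrt (1 / sa t ν ^ 2) = (sa t ν)⁻¹ := by
        rw [one_div, Real.sqrt_inv, Real.sqrt_sq hsa.le]
      rw [← hJ, h2] at h1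
      have h3 : b c * Complex.exp ((ps t ν : ℂ) * Complex.I) * J - Mn b t ν =
          b c * Complex.exp ((ps t ν : ℂ) * Complex.I) * (J - kap / (((sa t ν)⁻¹ : ℝ) : ℂ)) := by
        unfold Mn
        rw [← hc]
        push_cast
        rw [div_inv_eq_mul]
        ring
      rw [h3, norm_mul, norm_mul, Complex.norm_exp_ofReal_mul_I, mul_one]
      have h4 : C3 / (1 / sa t ν ^ 2 * η) ≤ C3 * (4624 * 32) * (Y * G) := by
        have e1 : C3 / (1 / sa t ν ^ 2 * η) = C3 * (sa t ν ^ 2 / η) := by field_simp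
        have e2 : 4624 * Y ^ 3 / T / η = 4624 * 32 * (Y * G) := by
          have h5 : G = 1 / (F * r) := by
            rw [eq_div_iff (by positivity)]
            linarith
          rw [h5, hη, hTF]
          field_simp
        rw [e1, mul_assoc]
        apply mul_le_mul_of_nonneg_left _ hC3
        rw [← e2]
        exact div_le_div_of_nonneg_right hsa2 hη0.le
      calc ‖b c‖ * ‖J - kap / (((sa t ν)⁻¹ : ℝ) : ℂ)‖ ≤ B * (C3 * (4624 * 32) * (Y * G)) :=
            mul_le_mul (hb.2.2.1 c) (h1.trans h4) (norm_nonneg _) hB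
        _ = _ := by ring
    have e : ∀ I1 I2 I3 M K : ℂ, I1 + (I2 + I3) - M = I1 + ((I2 - K) + (K - M)) + I3 := by
      intros
      ring
    have h3 : (C1 * 10 ^ 6 + 2 * (C1 * (32 * 10 ^ 5)) + 2 * C2 + C3 * (4624 * 32)) * B * Y * G =
      C1 * (32 * 10 ^ 5) * (B * Y * G) + (2 * C2 * (B * Y * G) + C3 * (4624 * 32) * (B * Y * G)) + C1 * (32 * 10 ^ 5) * (B * Y * G) +
        C1 * 10 ^ 6 * (B * Y * G) := by ring
    have h4 : 0 ≤ C1 * 10 ^ 6 * (B * Y * G) := by positivity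
    rw [h3, e _ _ _ _ (b c * Complex.exp ((ps t ν : ℂ) * Complex.I) * J)]
    refine le_trans ?_ (le_add_of_nonneg_right h4)
    exact (norm_add_le _ _).trans (add_le_add ((norm_add_le _ _).trans (add_le_add k1 ((norm_add_le _ _).trans (add_le_add k2 k4)))) k3)
  · -- no stationary point
    have hbc : b c = 0 := by
      by_contra h
      have h2 := hb.2.1 c h
      exact hcase ⟨by linarith [h2.1], by linarith [h2.2]⟩
    have hM : Mn b t ν = 0 := by
      unfold Mn
      rw [← hc, hbc]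
      simp
    rw [hM, sub_zero]
    have hsup : Function.support (fun y => b y * Complex.exp ((sxp t ν y : ℂ) * Complex.I)) ⊆ Set.Ioc (Y / 10) (8 * Y) := by
      intro y hy
      have h1 : b y ≠ 0 := fun h => hy (by simp [h])
      have h2 := hb.2.1 y h1
      exact ⟨by linarith [h2.1], by linarith [h2.2]⟩
    rw [← intervalIntegral.integral_eq_integral_of_support_subset hsup]
    have hQ0 : 0 < T / 10 ^ 6 := by positivity
    have h := hv Y hY B b hb t ν ht0 hν0 (Y / 10) (8 * Y) (T / 10 ^ 6) (by linarith) (by linarith) (by linarith) hQ0 (fun x hx => ?_)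
    · refine h.trans ?_
      have e : C1 * B * Y ^ 2 / (T / 10 ^ 6) = C1 * 10 ^ 6 * (B * Y * (1 / F)) := by
        rw [hTF]
        field_simp
      rw [e]
      have h1 : 1 / F ≤ G := by
        rw [div_le_iff₀ hF0]
        linarith
      have h2 : C1 * 10 ^ 6 * (B * Y * (1 / F)) ≤ C1 * 10 ^ 6 * (B * Y * G) := by gcongr
      refine h2.trans ?_
      have h3 : (C1 * 10 ^ 6 + 2 * (C1 * (32 * 10 ^ 5)) + 2 * C2 + C3 * (4624 * 32)) * B * Y * G =
        C1 * 10 ^ 6 * (B * Y * G) + (2 * (C1 * (32 * 10 ^ 5)) + 2 * C2 + C3 * (4624 * 32)) * (B * Y * G) := by ring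
      rw [h3]
      have h4 : 0 ≤ (2 * (C1 * (32 * 10 ^ 5)) + 2 * C2 + C3 * (4624 * 32)) * (B * Y * G) := by positivity
      linarith
    · rw [hq]
      have hge : ∀ d : ℝ, 3 / 80 * Y ≤ d → T / 10 ^ 6 ≤ 2 * Real.pi * ν * (d * (x + c + 1)) := by
        intro d hd
        have h1 : 3 / 80 * Y * (Y / 10) ≤ d * (x + c + 1) := mul_le_mul hd (by linarith [hx.1]) (by positivity) (by linarith)
        have h2 : T / (10000 * Y ^ 2) * 6 * (3 / 80 * Y * (Y / 10)) ≤ 2 * Real.pi * ν * (d * (x + c + 1)) :=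
          mul_le_mul hνT h1 (by positivity) hpν.le
        refine le_trans ?_ h2
        have h3 : T / (10000 * Y ^ 2) * 6 * (3 / 80 * Y * (Y / 10)) = 18 / 8000000 * T := by
          field_simp
          norm_num
        rw [h3]
        linarith
      rcases not_and_or.1 hcase with h1 | h1
      · rw [not_le] at h1
        exact (hge (x - c) (by linarith [hx.1])).trans (le_abs_self _)
      · rw [not_le] at h1
        refine (hge (c - x) (by linarith [hx.2])).trans (le_trans (le_of_eq ?_) (neg_le_abs _))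
        ring

end Pool.Agent.Lib.TW
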