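import Pool.Agent.Lib.TW.Defs

/-!
# TW / Tl: the tail in h and the dyadic decomposition
-/

set_option autoImplicit false

open MeasureTheory

namespace Pool.Agent.Lib.TW

private theorem Tl_zero (w : ℝ → ℝ) (hw : ∀ x, 4 ≤ x → w x = 0) {N : ℕ} (hN : 1 ≤ N) (G τ : ℝ) {h : ℕ}
    (hh : 4 * N ≤ h) : EH w N G h τ = 0 := by
  unfold EH
  apply Finset.sum_eq_zero
  intro n _
  have hN' : (0 : ℝ) < N := by exact_mod_cast hN
  have h1 : w (((n : ℝ) + h) / N) = 0 := by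
    apply hw
    rw [le_div_iff₀ hN']
    have h2 : ((4 * N : ℕ) : ℝ) ≤ h := by exact_mod_cast hh
    push_cast at h2
    have h3 : (0 : ℝ) ≤ n := Nat.cast_nonneg n
    linarith
  rw [h1]
  simp

private theorem Tl_dyad (f : ℕ → ℂ) (I : ℕ) :
    ∑ i ∈ Finset.range I, ∑ h ∈ Finset.Ico (2 ^ i) (2 * 2 ^ i), f h = ∑ h ∈ Finset.Ico 1 (2 ^ I), f h := by
  induction I with
  | zero => simp
  | succ I ih =>
    rw [Finset.sum_range_succ, ih, pow_succ, mul_comm (2 ^ I) 2]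
    exact Finset.sum_Ico_consecutive f Nat.one_le_two_pow (by omega)

private theorem Tl_gs {T ε G : ℝ} (hT : 0 < T) (hG : 0 < G) {N n h : ℕ} (hN : 1 ≤ N) (hn : 1 ≤ n) (hn4 : n ≤ 4 * N)
    (hh4 : h ≤ 4 * N) (hh : T ^ ε * N / G ≤ h) :
    gs G (1 + (h : ℝ) / n) ≤ Real.exp (-((T ^ ε) ^ 2 / (256 * Real.pi))) := by
  have hN' : (0 : ℝ) < N := by exact_mod_cast hN
  have hn' : (0 : ℝ) < n := by exact_mod_cast hn
  have hTe : 0 < T ^ ε := Real.rpow_pos_of_pos hT ε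
  have hh0 : (0 : ℝ) < h := lt_of_lt_of_le (by positivity) hh
  have hn4' : (n : ℝ) ≤ 4 * N := by exact_mod_cast hn4
  have hh4' : (h : ℝ) ≤ 4 * N := by exact_mod_cast hh4
  have hx : 0 < 1 + (h : ℝ) / n := by positivity
  have h1 : 1 - (1 + (h : ℝ) / n)⁻¹ ≤ Real.log (1 + (h : ℝ) / n) := Real.one_sub_inv_le_log_of_pos hx
  have h2 : 1 - (1 + (h : ℝ) / n)⁻¹ = h / (n + h) := by
    field_simp
    ring
  have h3 : (h : ℝ) / (8 * N) ≤ h / (n + h) := by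
    apply div_le_div_of_nonneg_left hh0.le (by positivity)
    linarith
  have h4 : T ^ ε / (8 * G) ≤ (h : ℝ) / (8 * N) := by
    rw [div_le_iff₀ hG] at hh
    rw [div_le_div_iff₀ (by positivity) (by positivity)]
    nlinarith
  have h5 : T ^ ε / 8 ≤ G * Real.log (1 + (h : ℝ) / n) := by
    have h6 : T ^ ε / (8 * G) ≤ Real.log (1 + (h : ℝ) / n) := by linarith
    have h7 := mul_le_mul_of_nonneg_left h6 hG.le
    have h8 : G * (T ^ ε / (8 * G)) = T ^ ε / 8 := by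
      field_simp
    linarith
  have h9 : (T ^ ε / 8) ^ 2 ≤ (G * Real.log (1 + (h : ℝ) / n)) ^ 2 := pow_le_pow_left₀ (by positivity) h5 2
  unfold gs
  apply Real.exp_le_exp.2
  rw [neg_div]
  apply neg_le_neg
  have hpi := Real.pi_pos
  calc (T ^ ε) ^ 2 / (256 * Real.pi) = (T ^ ε / 8) ^ 2 / (4 * Real.pi) := by
        field_simp
        ring
    _ ≤ (G * Real.log (1 + (h : ℝ) / n)) ^ 2 / (4 * Real.pi) := by gcongr

private theorem Tl_term (w : ℝ → ℝ) {B : ℝ} (hB : ∀ x, |w x| ≤ B) {T ε G : ℝ} (hT : 0 < T) (hG : 0 < G) {N h : ℕ}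
    (hN : 1 ≤ N) (hh4 : h ≤ 4 * N) (hh : T ^ ε * N / G ≤ h) (τ : ℝ) :
    ‖EH w N G h τ‖ ≤ 4 * N * (B ^ 2 * Real.exp (-((T ^ ε) ^ 2 / (256 * Real.pi)))) := by
  have hB0 : 0 ≤ B := (abs_nonneg _).trans (hB 0)
  unfold EH
  calc ‖∑ n ∈ Finset.Icc 1 (4 * N),
    ((w ((n : ℝ) / N) * w (((n : ℝ) + h) / N) * gs G (1 + (h : ℝ) / n) : ℝ) : ℂ) * ch (1 + (h : ℝ) / n) (-τ)‖
      ≤ ∑ n ∈ Finset.Icc 1 (4 * N), (B ^ 2 * Real.exp (-((T ^ ε) ^ 2 / (256 * Real.pi)))) := by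
        apply norm_sum_le_of_le
        intro n hn
        rw [Finset.mem_Icc] at hn
        rw [norm_mul, norm_ch, mul_one, Complex.norm_real, Real.norm_eq_abs, abs_mul, abs_mul]
        have h1 := Tl_gs (ε := ε) hT hG hN hn.1 hn.2 hh4 hh
        have h2 : 0 ≤ gs G (1 + (h : ℝ) / n) := (Real.exp_pos _).le
        rw [abs_of_nonneg h2]
        have h3 : |w ((n : ℝ) / N)| * |w (((n : ℝ) + h) / N)| ≤ B ^ 2 := by
          rw [sq]
          exact mul_le_mul (hB _) (hB _) (abs_nonneg _) hB0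
        exact mul_le_mul h3 h1 h2 (by positivity)
    _ = 4 * N * (B ^ 2 * Real.exp (-((T ^ ε) ^ 2 / (256 * Real.pi)))) := by
        rw [Finset.sum_const, Nat.card_Icc, nsmul_eq_mul]
        push_cast
        simp

private theorem Tl_const {ε : ℝ} (hε : 0 < ε) : ∃ K : ℝ, 0 ≤ K ∧ ∀ T : ℝ, 1 ≤ T →
    T ^ 2 * Real.exp (-((T ^ ε) ^ 2 / (256 * Real.pi))) ≤ K := by
  obtain ⟨k, hk⟩ := exists_nat_ge (1 / ε)
  have hk1 : 1 ≤ ε * k := by
    rw [div_le_iff₀ hε] at hk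
    linarith
  have hpi := Real.pi_pos
  refine ⟨(k.factorial : ℝ) * (256 * Real.pi) ^ k, by positivity, ?_⟩
  intro T hT
  have hT0 : 0 < T := by linarith
  have hTe : 0 < T ^ ε := Real.rpow_pos_of_pos hT0 ε
  obtain ⟨u, hu⟩ : ∃ u, u = (T ^ ε) ^ 2 / (256 * Real.pi) := ⟨_, rfl⟩
  have hu0 : 0 < u := by rw [hu]; positivity
  have h1 := Real.pow_div_factorial_le_exp u hu0.le k
  have hf : (0 : ℝ) < k.factorial := by exact_mod_cast Nat.factorial_pos k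
  have h2 : T ^ 2 ≤ (T ^ ε) ^ (2 * k) := by
    have e1 : (T ^ ε) ^ (2 * k) = T ^ (ε * (2 * k : ℕ)) := by
      rw [← Real.rpow_natCast, ← Real.rpow_mul hT0.le]
    have e2 : T ^ 2 = T ^ ((2 : ℕ) : ℝ) := (Real.rpow_natCast T 2).symm
    rw [e1, e2]
    apply Real.rpow_le_rpow_of_exponent_le hT
    push_cast
    nlinarith
  have h3 : T ^ 2 ≤ (256 * Real.pi) ^ k * u ^ k := by
    rw [← mul_pow, hu]
    have e : 256 * Real.pi * ((T ^ ε) ^ 2 / (256 * Real.pi)) = (T ^ ε) ^ 2 := by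
      field_simp
    rw [e, ← pow_mul]
    exact h2
  have h4 : u ^ k ≤ k.factorial * Real.exp u := by
    rw [div_le_iff₀ hf] at h1
    linarith
  rw [← hu, Real.exp_neg, ← div_eq_mul_inv, div_le_iff₀ (Real.exp_pos u)]
  calc T ^ 2 ≤ (256 * Real.pi) ^ k * u ^ k := h3
    _ ≤ (256 * Real.pi) ^ k * (k.factorial * Real.exp u) := by gcongr
    _ = (k.factorial : ℝ) * (256 * Real.pi) ^ k * Real.exp u := by ring

/-- PROOF. `[1, 2^I)` is the disjoint union of the `[2^i, 2^(i+1))`, `i < I`.  For `h ≥ 2^I ≥ T^ε N / G` and `n ≤ 4N`, `h ≤ 4N`: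
`log(1+h/n) ≥ h/(n+h) ≥ h/(8N) ≥ T^ε/(8G)`, so `gs ≤ exp(-T^(2ε)/(256π))` and the sum over all `h, n ≤ 4N ≤ 4T` is at most
`16 B² T² exp(-T^(2ε)/(256π)) ≤ C`.  For `h ≥ 4N` the term `EH` is zero (`w((n+h)/N) = 0`), so the dyadic sums may go beyond `4N`. -/
theorem tail_dyad (w : ℝ → ℝ) (hw : ∀ x, 4 ≤ x → w x = 0) {B : ℝ} (hB : ∀ x, |w x| ≤ B) {ε : ℝ} (hε : 0 < ε) :
    ∃ C : ℝ, 0 ≤ C ∧ ∀ T : ℝ, 1 ≤ T → ∀ N : ℕ, 1 ≤ N → (N : ℝ) ≤ T → ∀ G : ℝ, 0 < G → ∀ I : ℕ, T ^ ε * N / G ≤ 2 ^ I →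
      ∀ τ : ℝ, ‖∑ h ∈ Finset.Ico 1 (4 * N), EH w N G h τ‖ ≤ ∑ i ∈ Finset.range I, ‖ED w N G (2 ^ i) τ‖ + C := by
  obtain ⟨K, hK0, hK⟩ := Tl_const hε
  have hB0 : 0 ≤ B := (abs_nonneg _).trans (hB 0)
  refine ⟨16 * B ^ 2 * K, by positivity, ?_⟩
  intro T hT N hN hNT G hG I hI τ
  have hT0 : 0 < T := by linarith
  obtain ⟨E, hE⟩ : ∃ E, E = Real.exp (-((T ^ ε) ^ 2 / (256 * Real.pi))) := ⟨_, rfl⟩
  have hE0 : 0 < E := by rw [hE]; exact Real.exp_pos _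
  obtain ⟨M, hM⟩ : ∃ M, M = max (4 * N) (2 ^ I) := ⟨_, rfl⟩
  have hM1 : 4 * N ≤ M := by rw [hM]; exact le_max_left _ _
  have hM2 : 2 ^ I ≤ M := by rw [hM]; exact le_max_right _ _
  have e1 : ∑ h ∈ Finset.Ico 1 (4 * N), EH w N G h τ = ∑ h ∈ Finset.Ico 1 M, EH w N G h τ := by
    rw [← Finset.sum_Ico_consecutive (fun h => EH w N G h τ) (by omega : 1 ≤ 4 * N) hM1]
    have h0 : ∑ h ∈ Finset.Ico (4 * N) M, EH w N G h τ = 0 := by
      apply Finset.sum_eq_zero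
      intro h hh
      exact Tl_zero w hw hN G τ (Finset.mem_Ico.1 hh).1
    rw [h0, add_zero]
  have e2 : ∑ h ∈ Finset.Ico 1 M, EH w N G h τ =
      ∑ i ∈ Finset.range I, ED w N G (2 ^ i) τ + ∑ h ∈ Finset.Ico (2 ^ I) M, EH w N G h τ := by
    rw [← Finset.sum_Ico_consecutive (fun h => EH w N G h τ) Nat.one_le_two_pow hM2, ← Tl_dyad]
    rfl
  have h3 : ‖∑ h ∈ Finset.Ico (2 ^ I) M, EH w N G h τ‖ ≤ 16 * B ^ 2 * K := by
    have h4 : ∑ h ∈ Finset.Ico (2 ^ I) M, EH w N G h τ =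
        ∑ h ∈ (Finset.Ico (2 ^ I) M).filter (fun h => h < 4 * N), EH w N G h τ := by
      rw [Finset.sum_filter]
      refine Finset.sum_congr rfl fun h _ => ?_
      split_ifs with hc
      · rfl
      · exact Tl_zero w hw hN G τ (not_lt.1 hc)
    rw [h4]
    calc ‖∑ h ∈ (Finset.Ico (2 ^ I) M).filter (fun h => h < 4 * N), EH w N G h τ‖
        ≤ ∑ h ∈ (Finset.Ico (2 ^ I) M).filter (fun h => h < 4 * N), 4 * N * (B ^ 2 * E) := by
          apply norm_sum_le_of_le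
          intro h hh
          rw [Finset.mem_filter, Finset.mem_Ico] at hh
          have h5 : T ^ ε * N / G ≤ h := by
            have h6 : ((2 ^ I : ℕ) : ℝ) ≤ h := by exact_mod_cast hh.1.1
            push_cast at h6
            exact hI.trans h6
          have h7 := Tl_term w hB hT0 hG hN hh.2.le h5 τ
          rw [← hE] at h7
          exact h7
      _ = (((Finset.Ico (2 ^ I) M).filter (fun h => h < 4 * N)).card : ℝ) * (4 * N * (B ^ 2 * E)) := by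
          rw [Finset.sum_const, nsmul_eq_mul]
      _ ≤ (4 * N) * (4 * N * (B ^ 2 * E)) := by
          apply mul_le_mul_of_nonneg_right _ (by positivity)
          have h8 : ((Finset.Ico (2 ^ I) M).filter (fun h => h < 4 * N)).card ≤ 4 * N := by
            calc ((Finset.Ico (2 ^ I) M).filter (fun h => h < 4 * N)).card ≤ (Finset.range (4 * N)).card := by
                  apply Finset.card_le_card
                  intro h hh
                  exact Finset.mem_range.2 (Finset.mem_filter.1 hh).2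
              _ = 4 * N := Finset.card_range _
          exact_mod_cast h8
      _ = 16 * B ^ 2 * ((N : ℝ) ^ 2 * E) := by ring
      _ ≤ 16 * B ^ 2 * (T ^ 2 * E) := by
          have h9 : (N : ℝ) ^ 2 ≤ T ^ 2 := pow_le_pow_left₀ (Nat.cast_nonneg N) hNT 2
          gcongr
      _ ≤ 16 * B ^ 2 * K := by
          have h10 := hK T hT
          rw [← hE] at h10
          gcongr
  rw [e1, e2]
  calc ‖∑ i ∈ Finset.range I, ED w N G (2 ^ i) τ + ∑ h ∈ Finset.Ico (2 ^ I) M, EH w N G h τ‖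
      ≤ ‖∑ i ∈ Finset.range I, ED w N G (2 ^ i) τ‖ + ‖∑ h ∈ Finset.Ico (2 ^ I) M, EH w N G h τ‖ := norm_add_le _ _
    _ ≤ ∑ i ∈ Finset.range I, ‖ED w N G (2 ^ i) τ‖ + 16 * B ^ 2 * K := add_le_add (norm_sum_le _ _) h3

end Pool.Agent.Lib.TW
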