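import Pool.Agent.Lib.TW.Vn

/-!
# TW / Vs: second derivative test in the form needed
-/

set_option autoImplicit false

open MeasureTheory

namespace Pool.Agent.Lib.TW

private theorem cut_point {a b s : ℝ} {q : ℝ → ℝ} (hab : a ≤ b) (hc : ContinuousOn q (Set.Icc a b))
    (hmo : ∀ x ∈ Set.Icc a b, ∀ y ∈ Set.Icc a b, x ≤ y → q x ≤ q y) :
    ∃ c ∈ Set.Icc a b, (c = a ∨ ∀ x ∈ Set.Icc a c, q x ≤ s) ∧ (c = b ∨ ∀ x ∈ Set.Icc c b, s ≤ q x) := by
  rcases le_or_gt s (q a) with h1 | h1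
  · refine ⟨a, ⟨le_rfl, hab⟩, Or.inl rfl, Or.inr ?_⟩
    intro x hx
    exact h1.trans (hmo a ⟨le_rfl, hab⟩ x hx hx.1)
  rcases le_or_gt (q b) s with h2 | h2
  · refine ⟨b, ⟨hab, le_rfl⟩, Or.inr ?_, Or.inl rfl⟩
    intro x hx
    exact (hmo x hx b ⟨hab, le_rfl⟩ hx.2).trans h2
  obtain ⟨c, hc1, hc2⟩ := intermediate_value_Icc hab hc ⟨h1.le, h2.le⟩
  refine ⟨c, hc1, Or.inr ?_, Or.inr ?_⟩
  · intro x hx
    rw [← hc2]
    exact hmo x ⟨hx.1, hx.2.trans hc1.2⟩ c hc1 hx.2
  · intro x hx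
    rw [← hc2]
    exact hmo c hc1 x ⟨hc1.1.trans hx.1, hx.2⟩ hx.1

/-- PROOF. `q` is strictly increasing with `q' ≥ m`; `Q₀ = √(mP)`.  `{|q| ≤ Q₀}` is an interval of length `≤ 2Q₀/m`, it contributes
`≤ 2BQ₀/m = 2B√(P/m)`; the (at most) two remaining intervals give `≤ C B P/Q₀ = C B √(P/m)` each by `vcn`.  (The case that `q` does
not reach `±Q₀`: compare with the point where `q` is nearest; intermediate value theorem.) -/
theorem vcs : ∃ C : ℝ, 0 ≤ C ∧ ∀ (a b Y B P m : ℝ) (β β' : ℝ → ℂ) (φ p p' q q' : ℝ → ℝ), a ≤ b → 0 < Y → b - a ≤ 8 * Y → 0 < m →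
    (∀ x ∈ Set.Icc a b, HasDerivAt β (β' x) x ∧ HasDerivAt φ (q x / p x) x ∧ HasDerivAt p (p' x) x ∧ HasDerivAt q (q' x) x) →
    ContinuousOn β' (Set.Icc a b) → ContinuousOn p' (Set.Icc a b) → ContinuousOn q' (Set.Icc a b) →
    (∀ x ∈ Set.Icc a b, ‖β x‖ ≤ B ∧ ‖β' x‖ ≤ B / Y ∧ 0 < p x ∧ p x ≤ P ∧ |p' x| ≤ P / Y ∧ m ≤ q' x) →
    ‖∫ x in a..b, β x * Complex.exp ((φ x : ℂ) * Complex.I)‖ ≤ C * B * Real.sqrt (P / m) := by
  obtain ⟨C, hC, hv⟩ := vcn
  refine ⟨2 * C + 2, by positivity, ?_⟩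
  intro a b Y B P m β β' φ p p' q q' hab hY hbY hm hd hβ' hp' hq' hb
  have haI : a ∈ Set.Icc a b := ⟨le_rfl, hab⟩
  have hB : 0 ≤ B := (norm_nonneg _).trans (hb a haI).1
  have hP : 0 < P := (hb a haI).2.2.1.trans_le (hb a haI).2.2.2.1
  have hqc : ContinuousOn q (Set.Icc a b) := fun x hx => (hd x hx).2.2.2.continuousAt.continuousWithinAt
  have hmv : ∀ x ∈ Set.Icc a b, ∀ y ∈ Set.Icc a b, x ≤ y → m * (y - x) ≤ q y - q x := by
    refine Convex.mul_sub_le_image_sub_of_le_deriv (convex_Icc a b) hqc ?_ ?_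
    · intro x hx
      exact (hd x (interior_subset hx)).2.2.2.differentiableAt.differentiableWithinAt
    · intro x hx
      rw [(hd x (interior_subset hx)).2.2.2.deriv]
      exact (hb x (interior_subset hx)).2.2.2.2.2
  have hmo : ∀ x ∈ Set.Icc a b, ∀ y ∈ Set.Icc a b, x ≤ y → q x ≤ q y := by
    intro x hx y hy hxy
    have h1 := hmv x hx y hy hxy
    have h2 : 0 ≤ m * (y - x) := mul_nonneg hm.le (sub_nonneg.mpr hxy)
    linarith
  have hQ : 0 < Real.sqrt (m * P) := Real.sqrt_pos.mpr (mul_pos hm hP)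
  obtain ⟨Q, hQd⟩ : ∃ Q : ℝ, Q = Real.sqrt (m * P) := ⟨_, rfl⟩
  rw [← hQd] at hQ
  have hQQ : Q * Q = m * P := by
    rw [hQd]
    exact Real.mul_self_sqrt (mul_pos hm hP).le
  have hR1 : Real.sqrt (P / m) = P / Q := by
    rw [Real.sqrt_eq_iff_mul_self_eq (by positivity) (by positivity)]
    field_simp
    nlinarith [hQQ]
  have hR2 : Real.sqrt (P / m) = Q / m := by
    rw [Real.sqrt_eq_iff_mul_self_eq (by positivity) (by positivity)]
    field_simp
    nlinarith [hQQ]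
  -- the two cut points
  obtain ⟨c, hc, hc1, hc2⟩ := cut_point (s := -Q) hab hqc hmo
  have hsub : Set.Icc c b ⊆ Set.Icc a b := Set.Icc_subset_Icc_left hc.1
  obtain ⟨d, hdI, hd1, hd2⟩ := cut_point (s := Q) (q := q) hc.2 (hqc.mono hsub)
    (fun x hx y hy => hmo x (hsub hx) y (hsub hy))
  have had : a ≤ d := hc.1.trans hdI.1
  -- continuity
  have hcont : ContinuousOn (fun x => β x * Complex.exp ((φ x : ℂ) * Complex.I)) (Set.Icc a b) := by
    intro x hx
    have h1 : ContinuousAt β x := (hd x hx).1.continuousAt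
    have h2 : ContinuousAt φ x := (hd x hx).2.1.continuousAt
    have h3 : ContinuousAt (fun x => β x * Complex.exp ((φ x : ℂ) * Complex.I)) x := by
      refine h1.mul ?_
      exact Complex.continuous_exp.continuousAt.comp ((Complex.continuous_ofReal.continuousAt.comp h2).mul continuousAt_const)
    exact h3.continuousWithinAt
  have hint : ∀ u v : ℝ, a ≤ u → u ≤ v → v ≤ b →
      IntervalIntegrable (fun x => β x * Complex.exp ((φ x : ℂ) * Complex.I)) volume u v := by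
    intro u v hu huv hvb
    refine ContinuousOn.intervalIntegrable_of_Icc huv ?_
    exact hcont.mono (Set.Icc_subset_Icc hu hvb)
  -- the outer parts
  have houter : ∀ u v : ℝ, a ≤ u → u ≤ v → v ≤ b → (u = v ∨ ∀ x ∈ Set.Icc u v, Q ≤ |q x|) →
      ‖∫ x in u..v, β x * Complex.exp ((φ x : ℂ) * Complex.I)‖ ≤ C * B * P / Q := by
    intro u v hu huv hvb hor
    rcases hor with h | h
    · rw [h, intervalIntegral.integral_same, norm_zero]
      positivity
    · have hs : Set.Icc u v ⊆ Set.Icc a b := Set.Icc_subset_Icc hu hvb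
      refine hv u v Y B P Q β β' φ p p' q q' huv hY (by linarith) hQ (fun x hx => hd x (hs hx)) (hβ'.mono hs) (hp'.mono hs)
        (hq'.mono hs) ?_
      intro x hx
      obtain ⟨e1, e2, e3, e4, e5, e6⟩ := hb x (hs hx)
      exact ⟨e1, e2, e3, e4, e5, hm.le.trans e6, h x hx⟩
  have hL : ‖∫ x in a..c, β x * Complex.exp ((φ x : ℂ) * Complex.I)‖ ≤ C * B * P / Q := by
    refine houter a c le_rfl hc.1 hc.2 ?_
    rcases hc1 with h | h
    · exact Or.inl h.symm
    · refine Or.inr fun x hx => ?_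
      have := h x hx
      rw [le_abs]
      right
      linarith
  have hRr : ‖∫ x in d..b, β x * Complex.exp ((φ x : ℂ) * Complex.I)‖ ≤ C * B * P / Q := by
    refine houter d b had hdI.2 le_rfl ?_
    rcases hd2 with h | h
    · exact Or.inl h
    · refine Or.inr fun x hx => ?_
      rw [le_abs]
      left
      exact h x hx
  have hM : ‖∫ x in c..d, β x * Complex.exp ((φ x : ℂ) * Complex.I)‖ ≤ 2 * B * (Q / m) := by
    have hlen : d - c ≤ 2 * (Q / m) := by
      rcases hd1 with h | h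
      · rw [h, sub_self]
        positivity
      · rcases hc2 with h' | h'
        · have : d = c := le_antisymm (h' ▸ hdI.2) hdI.1
          rw [this, sub_self]
          positivity
        · have e1 : q d ≤ Q := h d ⟨hdI.1, le_rfl⟩
          have e2 : -Q ≤ q c := h' c ⟨le_rfl, hc.2⟩
          have e3 := hmv c hc d ⟨had, hdI.2⟩ hdI.1
          have e4 : m * (d - c) ≤ 2 * Q := by linarith
          rw [← mul_div_assoc, le_div_iff₀ hm]
          linarith
    have h1 : ‖∫ x in c..d, β x * Complex.exp ((φ x : ℂ) * Complex.I)‖ ≤ B * |d - c| := by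
      refine intervalIntegral.norm_integral_le_of_norm_le_const ?_
      intro x hx
      rw [Set.uIoc_of_le hdI.1] at hx
      have hx' : x ∈ Set.Icc a b := ⟨hc.1.trans hx.1.le, hx.2.trans hdI.2⟩
      rw [norm_mul, Complex.norm_exp_ofReal_mul_I, mul_one]
      exact (hb x hx').1
    rw [abs_of_nonneg (sub_nonneg.mpr hdI.1)] at h1
    calc _ ≤ B * (d - c) := h1
      _ ≤ B * (2 * (Q / m)) := mul_le_mul_of_nonneg_left hlen hB
      _ = 2 * B * (Q / m) := by ring
  have hsum : (∫ x in a..b, β x * Complex.exp ((φ x : ℂ) * Complex.I)) =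
      (∫ x in a..c, β x * Complex.exp ((φ x : ℂ) * Complex.I)) +
        (∫ x in c..d, β x * Complex.exp ((φ x : ℂ) * Complex.I)) +
          ∫ x in d..b, β x * Complex.exp ((φ x : ℂ) * Complex.I) := by
    rw [intervalIntegral.integral_add_adjacent_intervals (hint a c le_rfl hc.1 hc.2) (hint c d hc.1 hdI.1 hdI.2),
      intervalIntegral.integral_add_adjacent_intervals (hint a d le_rfl had hdI.2) (hint d b had hdI.2 le_rfl)]
  rw [hsum]
  have hCB : C * B * P / Q = C * B * Real.sqrt (P / m) := by rw [hR1]; ring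
  rw [hCB] at hL hRr
  rw [← hR2] at hM
  calc _ ≤ ‖∫ x in a..c, β x * Complex.exp ((φ x : ℂ) * Complex.I)‖ +
        ‖∫ x in c..d, β x * Complex.exp ((φ x : ℂ) * Complex.I)‖ +
          ‖∫ x in d..b, β x * Complex.exp ((φ x : ℂ) * Complex.I)‖ := norm_add₃_le
    _ ≤ C * B * Real.sqrt (P / m) + 2 * B * Real.sqrt (P / m) + C * B * Real.sqrt (P / m) := by
        exact add_le_add (add_le_add hL hM) hRr
    _ = (2 * C + 2) * B * Real.sqrt (P / m) := by ring

end Pool.Agent.Lib.TW
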