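import Pool.Agent.Lib.TW.Pd5
import Pool.Agent.Lib.PR.V2

/-!
# TW / Vt5: the third derivative test for the phases
-/

set_option autoImplicit false

open MeasureTheory
open scoped FourierTransform

namespace Pool.Agent.Lib.TW

private theorem vt5_kp : PR.kp 1 = 1 / 6 := by
  unfold PR.kp
  norm_num

private theorem vt5_nu : 1 - PR.nu 1 = 1 / 2 := by
  unfold PR.nu
  norm_num

private theorem vt5_neg (θ : ℕ → ℝ) (L : ℕ) :
    ‖∑ n ∈ Finset.range L, Complex.exp (((-θ n : ℝ) : ℂ) * Complex.I)‖ =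
      ‖∑ n ∈ Finset.range L, Complex.exp (Complex.I * (θ n : ℂ))‖ := by
  rw [← Complex.norm_conj, map_sum]
  congr 1
  refine Finset.sum_congr rfl fun n _ => ?_
  rw [← Complex.exp_conj]
  congr 1
  rw [map_mul, Complex.conj_I, Complex.conj_ofReal]
  push_cast
  ring

private theorem vt5_pos (θ : ℕ → ℝ) (L : ℕ) :
    ‖∑ n ∈ Finset.range L, Complex.exp (((θ n : ℝ) : ℂ) * Complex.I)‖ =
      ‖∑ n ∈ Finset.range L, Complex.exp (Complex.I * (θ n : ℂ))‖ := by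
  congr 1
  exact Finset.sum_congr rfl fun n _ => by rw [mul_comm]

/-- PROOF. `t' < t`: the conjugate sum has the phase `ps t' - ps t`, `vd5` and `PR.vdq 1` (`PR.kp 1 = 1/6`, `PR.nu 1 = 1/2`), `L ≤ 10⁴T/Y²`.
`t < t'`: exchange.  `L = 0` trivial. -/
theorem vt5 : ∃ C : ℝ, 0 ≤ C ∧ ∀ Y : ℝ, 1 ≤ Y → ∀ T : ℝ, Y ^ 2 ≤ T → ∀ t t' : ℝ, T / 2 ≤ t → t ≤ 2 * T → T / 2 ≤ t' → t' ≤ 2 * T →
    t ≠ t' → ∀ a L : ℕ, 0 < a → T / (10000 * Y ^ 2) ≤ a → (a : ℝ) + L ≤ 10000 * T / Y ^ 2 →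
    ‖∑ n ∈ Finset.range L, Complex.exp (((ps t ((a : ℝ) + n) - ps t' ((a : ℝ) + n) : ℝ) : ℂ) * Complex.I)‖ ≤
      C * (T / Y ^ 2 * lam T Y (t - t') ^ (1 / 6 : ℝ) + (T / Y ^ 2) ^ (1 / 2 : ℝ) * lam T Y (t - t') ^ (-(1 / 6) : ℝ)) := by
  obtain ⟨c, C, hc, hC, hvd⟩ := vd5
  obtain ⟨A, hA, hq⟩ := PR.vdq 1
  have hc6 : 0 ≤ c ^ (1 / 6 : ℝ) := Real.rpow_nonneg hc.le _
  have hc6' : 0 ≤ c ^ (-(1 / 6) : ℝ) := Real.rpow_nonneg hc.le _
  have hAC : 0 ≤ A * C := by positivity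
  refine ⟨A * C * (10000 * c ^ (1 / 6 : ℝ) + 100 * c ^ (-(1 / 6) : ℝ)), by positivity, ?_⟩
  intro Y hY T hYT t t' ht1 ht2 ht1' ht2' hne a L ha haT haL
  have hY0 : 0 < Y := by linarith
  have hY2 : 0 < Y ^ 2 := by positivity
  have hY21 : 1 ≤ Y ^ 2 := one_le_pow₀ hY
  have hT : 1 ≤ T := hY21.trans hYT
  have hT0 : 0 < T := by linarith
  have hD : 0 < T / Y ^ 2 := div_pos hT0 hY2
  have hlam : 0 < lam T Y (t - t') := by
    unfold lam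
    have : 0 < |t - t'| := abs_pos.2 (sub_ne_zero.2 hne)
    positivity
  have hl6 : 0 ≤ lam T Y (t - t') ^ (1 / 6 : ℝ) := Real.rpow_nonneg hlam.le _
  have hl6' : 0 ≤ lam T Y (t - t') ^ (-(1 / 6) : ℝ) := Real.rpow_nonneg hlam.le _
  have hD2 : 0 ≤ (T / Y ^ 2) ^ (1 / 2 : ℝ) := Real.rpow_nonneg hD.le _
  have hLD : (L : ℝ) ≤ 10000 * (T / Y ^ 2) := by
    have h1 : (0 : ℝ) ≤ a := Nat.cast_nonneg a
    have h2 : 10000 * T / Y ^ 2 = 10000 * (T / Y ^ 2) := by ring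
    linarith
  have hL2 : (L : ℝ) ^ (1 / 2 : ℝ) ≤ 100 * (T / Y ^ 2) ^ (1 / 2 : ℝ) := by
    have h1 : (L : ℝ) ^ (1 / 2 : ℝ) ≤ (10000 * (T / Y ^ 2)) ^ (1 / 2 : ℝ) :=
      Real.rpow_le_rpow (Nat.cast_nonneg L) hLD (by norm_num)
    rw [Real.mul_rpow (by norm_num) hD.le] at h1
    have h2 : (10000 : ℝ) ^ (1 / 2 : ℝ) = 100 := by
      rw [show (10000 : ℝ) = 100 ^ 2 by norm_num, ← Real.sqrt_eq_rpow, Real.sqrt_sq (by norm_num)]
    rwa [h2] at h1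
  -- the bound for a phase with third differences
  have key : ∀ θ : ℕ → ℝ, PR.VD 1 θ L (c * lam T Y (t - t')) C →
      ‖∑ n ∈ Finset.range L, Complex.exp (Complex.I * (θ n : ℂ))‖ ≤
        A * C * (10000 * c ^ (1 / 6 : ℝ) + 100 * c ^ (-(1 / 6) : ℝ)) *
          (T / Y ^ 2 * lam T Y (t - t') ^ (1 / 6 : ℝ) + (T / Y ^ 2) ^ (1 / 2 : ℝ) * lam T Y (t - t') ^ (-(1 / 6) : ℝ)) := by
    intro θ hθ
    rcases Nat.eq_zero_or_pos L with hL | hL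
    · subst hL
      rw [Finset.sum_range_zero, norm_zero]
      positivity
    · have h1 := hq θ L (c * lam T Y (t - t')) C hL (mul_pos hc hlam) hC hθ
      rw [vt5_kp, vt5_nu, Real.mul_rpow hc.le hlam.le, Real.mul_rpow hc.le hlam.le] at h1
      refine h1.trans ?_
      have e1 : (L : ℝ) * (c ^ (1 / 6 : ℝ) * lam T Y (t - t') ^ (1 / 6 : ℝ)) ≤
          10000 * c ^ (1 / 6 : ℝ) * (T / Y ^ 2 * lam T Y (t - t') ^ (1 / 6 : ℝ)) := by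
        have := mul_le_mul_of_nonneg_right hLD (mul_nonneg hc6 hl6)
        linarith
      have e2 : (L : ℝ) ^ (1 / 2 : ℝ) * (c ^ (-(1 / 6) : ℝ) * lam T Y (t - t') ^ (-(1 / 6) : ℝ)) ≤
          100 * c ^ (-(1 / 6) : ℝ) * ((T / Y ^ 2) ^ (1 / 2 : ℝ) * lam T Y (t - t') ^ (-(1 / 6) : ℝ)) := by
        have := mul_le_mul_of_nonneg_right hL2 (mul_nonneg hc6' hl6')
        linarith
      have e3 : 0 ≤ 10000 * c ^ (1 / 6 : ℝ) * ((T / Y ^ 2) ^ (1 / 2 : ℝ) * lam T Y (t - t') ^ (-(1 / 6) : ℝ)) := by positivity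
      have e4 : 0 ≤ 100 * c ^ (-(1 / 6) : ℝ) * (T / Y ^ 2 * lam T Y (t - t') ^ (1 / 6 : ℝ)) := by positivity
      rw [mul_assoc (A * C)]
      refine mul_le_mul_of_nonneg_left ?_ hAC
      rw [add_mul, mul_add, mul_add]
      linarith
  rcases lt_or_gt_of_ne hne with h | h
  · -- `t < t'`
    have h1 := hvd Y hY T hT t' t ht1 h ht2' a L ha haT haL
    have h2 : lam T Y (t' - t) = lam T Y (t - t') := by
      unfold lam
      rw [abs_sub_comm]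
    rw [h2] at h1
    rw [vt5_pos (fun n => ps t ((a : ℝ) + n) - ps t' ((a : ℝ) + n)) L]
    exact key _ h1
  · have h1 := hvd Y hY T hT t t' ht1' h ht2 a L ha haT haL
    have h2 : (∑ n ∈ Finset.range L, Complex.exp (((ps t ((a : ℝ) + n) - ps t' ((a : ℝ) + n) : ℝ) : ℂ) * Complex.I)) =
        ∑ n ∈ Finset.range L, Complex.exp (((-(ps t' ((a : ℝ) + n) - ps t ((a : ℝ) + n)) : ℝ) : ℂ) * Complex.I) :=
      Finset.sum_congr rfl fun n _ => by rw [neg_sub]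
    rw [h2, vt5_neg (fun n => ps t' ((a : ℝ) + n) - ps t ((a : ℝ) + n)) L]
    exact key _ h1

end Pool.Agent.Lib.TW
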