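import Pool.Agent.Lib.TW.Dy
import Pool.Agent.Lib.TW.Gr
import Pool.Agent.Lib.TW.Off
import Pool.Agent.Lib.TW.Tl

/-!
# TW / Wi: the estimate in a window
-/

set_option autoImplicit false

open MeasureTheory

namespace Pool.Agent.Lib.TW

private theorem wi_bd (w : ℝ → ℝ) (hw : Wt w) : ∃ B : ℝ, 1 ≤ B ∧ ∀ x, |w x| ≤ B := by
  obtain ⟨h1, h2, h3, -⟩ := hw
  obtain ⟨C, hC⟩ := (isCompact_Icc (a := (1 / 2 : ℝ)) (b := 4)).exists_bound_of_continuousOn (f := w) h1.continuous.continuousOn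
  refine ⟨max 1 C, le_max_left _ _, fun x => ?_⟩
  by_cases hx : x ≤ 1 / 2
  · rw [h2 x hx, abs_zero]
    exact le_trans zero_le_one (le_max_left _ _)
  · by_cases hx4 : 4 ≤ x
    · rw [h3 x hx4, abs_zero]
      exact le_trans zero_le_one (le_max_left _ _)
    · push Not at hx hx4
      have := hC x ⟨hx.le, hx4.le⟩
      rw [Real.norm_eq_abs] at this
      exact this.trans (le_max_right _ _)

private theorem wi_card {T : ℝ} (hT : 1 ≤ T) (P : Finset ℕ) (h : ∀ p ∈ P, (p : ℝ) ≤ 2 * T) : (P.card : ℝ) ≤ 3 * T := by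
  have h1 : P ⊆ Finset.range (⌊2 * T⌋₊ + 1) := by
    intro p hp
    rw [Finset.mem_range, Nat.lt_succ_iff]
    exact Nat.le_floor (h p hp)
  have h2 : (P.card : ℝ) ≤ ((⌊2 * T⌋₊ + 1 : ℕ) : ℝ) := by
    have := Finset.card_le_card h1
    rw [Finset.card_range] at this
    exact_mod_cast this
  have h3 : ((⌊2 * T⌋₊ : ℕ) : ℝ) ≤ 2 * T := Nat.floor_le (by linarith)
  push_cast at h2
  linarith

private theorem wi_real {ε T N H G R J T₀ : ℝ} (hε : 0 < ε) (hε1 : ε ≤ 1 / 1000) (hT : 1 ≤ T) (hH : 1 ≤ H) (hN1 : 1 ≤ N)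
    (hN : N ≤ T ^ (19 / 20 : ℝ)) (hHG : H * G ≤ T ^ ε * N) (hG : T ^ (6 * ε) ≤ G) (hT0 : 0 ≤ T₀) (hT1 : T₀ ≤ 2 * T)
    (hT2 : T₀ ≤ 2 * (G ^ 3 * T ^ (-(10 * ε)))) (hJ : 0 ≤ J) (hJR : J ≤ R) :
    H ^ 2 * ((1 + T / (N / H) ^ 2) * (J * (N / H + (N / H) ^ 2 / G) +
        J ^ 2 * ((N / H) ^ (5 / 2 : ℝ) * T₀ ^ (1 / 2 : ℝ) / T + (N / H) ^ 3 / T)) +
        H ^ 2 * J ^ 2 * (N / H) ^ 4 / T ^ 2) ≤
      N ^ 2 * (2 * R * (T ^ ε) ^ 3 * (1 + T / G ^ 3) + 8 * R ^ 2 * T ^ (-(7 / 2 * ε))) := by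
  have hT' : 0 < T := by linarith
  have hH' : 0 < H := by linarith
  have hN' : 0 < N := by linarith
  have ha1 : 1 ≤ T ^ ε := Real.one_le_rpow hT hε.le
  have hG1 : 1 ≤ G := (Real.one_le_rpow hT (by linarith)).trans hG
  have hG' : 0 < G := by linarith
  have ha' : 0 < T ^ ε := by linarith
  obtain ⟨Y, hY⟩ : ∃ Y, Y = N / H := ⟨_, rfl⟩
  have hY' : 0 < Y := by rw [hY]; positivity
  have hHY : H = N / Y := by rw [hY]; field_simp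
  rw [← hY]
  set a := T ^ ε with ha
  set b := T ^ (-(7 / 2 * ε)) with hb
  have hb' : 0 < b := Real.rpow_pos_of_pos hT' _
  have hYG : 1 / Y ≤ a / G := by
    rw [hY, one_div_div, div_le_div_iff₀ hN' hG']
    linarith
  have hYN : Y ≤ T ^ (19 / 20 : ℝ) := by
    have : Y ≤ N := by
      rw [hY]
      exact div_le_self hN'.le hH
    exact this.trans hN
  -- square roots
  obtain ⟨s, hs⟩ : ∃ s, s = Y ^ (1 / 2 : ℝ) := ⟨_, rfl⟩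
  have hs' : 0 < s := by rw [hs]; positivity
  have hs2 : s ^ 2 = Y := by
    rw [hs, ← Real.rpow_natCast, ← Real.rpow_mul hY'.le]
    norm_num
  have hY52 : Y ^ (5 / 2 : ℝ) = Y ^ 2 * s := by
    have : (5 / 2 : ℝ) = 2 + 1 / 2 := by norm_num
    rw [this, Real.rpow_add hY', hs]
    norm_num
  obtain ⟨r, hr⟩ : ∃ r, r = T₀ ^ (1 / 2 : ℝ) := ⟨_, rfl⟩
  have hr' : 0 ≤ r := by rw [hr]; positivity
  have hr2 : r ^ 2 = T₀ := by
    rw [hr, ← Real.rpow_natCast, ← Real.rpow_mul hT0]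
    norm_num
  rw [hY52, ← hr]
  have hbb : b ^ 2 = T ^ (-(7 * ε)) := by
    rw [hb, ← Real.rpow_natCast, ← Real.rpow_mul hT'.le]
    congr 1
    push_cast
    ring
  have hmon : ∀ x y : ℝ, x ≤ y → T ^ x ≤ T ^ y := fun x y h => Real.rpow_le_rpow_of_exponent_le hT h
  -- (1)
  have t1 : s * r / T ≤ 2 * b := by
    have h1 : (s * r / T) ^ 2 ≤ (2 * b) ^ 2 := by
      have e1 : (s * r / T) ^ 2 = Y * T₀ / T ^ 2 := by
        rw [div_pow, mul_pow, hs2, hr2]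
      rw [e1, mul_pow, hbb, div_le_iff₀ (by positivity)]
      have h2 : Y * T₀ ≤ T ^ (19 / 20 : ℝ) * (2 * T) := mul_le_mul hYN hT1 hT0 (by positivity)
      have h3 : T ^ (19 / 20 : ℝ) ≤ T ^ (-(7 * ε)) * T := by
        have : T ^ (-(7 * ε)) * T = T ^ (-(7 * ε) + 1) := by rw [Real.rpow_add hT', Real.rpow_one]
        rw [this]
        exact hmon _ _ (by linarith)
      have h4 : 0 < T ^ (-(7 * ε)) := by positivity
      nlinarith [mul_le_mul_of_nonneg_right h3 hT'.le, mul_pos h4 (mul_pos hT' hT')]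
    exact (abs_le_of_sq_le_sq' h1 (by positivity)).2
  have t3 : r / (Y * s) ≤ 2 * b := by
    have h1 : (r / (Y * s)) ^ 2 ≤ (2 * b) ^ 2 := by
      have e1 : (r / (Y * s)) ^ 2 = T₀ * (1 / Y) ^ 3 := by
        rw [div_pow, mul_pow, hs2, hr2]
        field_simp
      rw [e1, mul_pow, hbb]
      have h2 : (1 / Y) ^ 3 ≤ (a / G) ^ 3 := pow_le_pow_left₀ (by positivity) hYG 3
      have h3 : T₀ * (1 / Y) ^ 3 ≤ 2 * (G ^ 3 * T ^ (-(10 * ε))) * (a / G) ^ 3 :=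
        mul_le_mul hT2 h2 (by positivity) (by positivity)
      have h4 : T ^ (-(10 * ε)) * a ^ 3 = T ^ (-(7 * ε)) := by
        rw [ha, ← Real.rpow_natCast (T ^ ε) 3, ← Real.rpow_mul hT'.le, ← Real.rpow_add hT']
        congr 1
        push_cast
        ring
      have h5 : 2 * (G ^ 3 * T ^ (-(10 * ε))) * (a / G) ^ 3 = 2 * (T ^ (-(10 * ε)) * a ^ 3) := by
        field_simp
      rw [h5, h4] at h3
      have h6 : 0 < T ^ (-(7 * ε)) := by positivity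
      linarith
    exact (abs_le_of_sq_le_sq' h1 (by positivity)).2
  have t2 : Y / T ≤ b := by
    rw [div_le_iff₀ hT']
    refine hYN.trans ?_
    have : b * T = T ^ (-(7 / 2 * ε) + 1) := by rw [Real.rpow_add hT', Real.rpow_one]
    rw [this]
    exact hmon _ _ (by linarith)
  have t4 : 1 / Y ≤ b := by
    refine hYG.trans ?_
    rw [div_le_iff₀ hG']
    have h1 : a ≤ b * T ^ (6 * ε) := by
      rw [ha, hb, ← Real.rpow_add hT']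
      exact hmon _ _ (by linarith)
    exact h1.trans (mul_le_mul_of_nonneg_left hG hb'.le)
  have t5 : N ^ 2 / T ^ 2 ≤ b := by
    rw [div_le_iff₀ (by positivity)]
    have h1 : N ^ 2 ≤ (T ^ (19 / 20 : ℝ)) ^ 2 := pow_le_pow_left₀ hN'.le hN 2
    have h2 : (T ^ (19 / 20 : ℝ)) ^ 2 = T ^ (19 / 10 : ℝ) := by
      rw [← Real.rpow_natCast, ← Real.rpow_mul hT'.le]
      norm_num
    have h3 : b * T ^ 2 = T ^ (-(7 / 2 * ε) + 2) := by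
      rw [Real.rpow_add hT']
      norm_num [hb]
    rw [h2] at h1
    rw [h3]
    exact h1.trans (hmon _ _ (by linarith))
  -- the R part
  have u1 : (1 + T / Y ^ 2) * (1 / Y + 1 / G) ≤ 2 * a ^ 3 * (1 + T / G ^ 3) := by
    have h1 : T / Y ^ 2 ≤ T * (a / G) ^ 2 := by
      have : T / Y ^ 2 = T * (1 / Y) ^ 2 := by field_simp
      rw [this]
      exact mul_le_mul_of_nonneg_left (pow_le_pow_left₀ (by positivity) hYG 2) hT'.le
    have h2 : 1 / Y + 1 / G ≤ 2 * a / G := by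
      have : 1 / G ≤ a / G := div_le_div_of_nonneg_right ha1 hG'.le
      have e : 2 * a / G = a / G + a / G := by ring
      rw [e]
      linarith
    have h3 : (1 + T / Y ^ 2) * (1 / Y + 1 / G) ≤ (1 + T * (a / G) ^ 2) * (2 * a / G) :=
      mul_le_mul (by linarith) h2 (by positivity) (by positivity)
    refine h3.trans ?_
    have e1 : (1 + T * (a / G) ^ 2) * (2 * a / G) = 2 * (a * (1 / G)) + 2 * a ^ 3 * (T / G ^ 3) := by
      field_simp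
    rw [e1]
    have h4 : 1 / G ≤ 1 := by rw [div_le_one hG']; exact hG1
    have h5 : a ≤ a ^ 3 := by
      have : a * 1 ≤ a * a ^ 2 := mul_le_mul_of_nonneg_left (one_le_pow₀ ha1) ha'.le
      calc a = a * 1 := (mul_one a).symm
        _ ≤ a * a ^ 2 := this
        _ = a ^ 3 := by ring
    have h6 : a * (1 / G) ≤ a ^ 3 * 1 := mul_le_mul h5 h4 (by positivity) (by positivity)
    have h7 : 0 ≤ T / G ^ 3 := by positivity
    nlinarith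
  have u2 : (1 + T / Y ^ 2) * (s * r / T + Y / T) + N ^ 2 / T ^ 2 ≤ 8 * b := by
    have e1 : (1 + T / Y ^ 2) * (s * r / T + Y / T) = s * r / T + Y / T + r / (Y * s) + 1 / Y := by
      have : s * r / Y ^ 2 = r / (Y * s) := by
        rw [div_eq_div_iff (by positivity) (by positivity)]
        calc s * r * (Y * s) = r * (Y * s ^ 2) := by ring
          _ = r * Y ^ 2 := by rw [hs2]; ring
      rw [← this]
      field_simp
      ring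
    rw [e1]
    linarith
  have e0 : H ^ 2 * ((1 + T / Y ^ 2) * (J * (Y + Y ^ 2 / G) + J ^ 2 * (Y ^ 2 * s * r / T + Y ^ 3 / T)) +
        H ^ 2 * J ^ 2 * Y ^ 4 / T ^ 2) =
      N ^ 2 * (J * ((1 + T / Y ^ 2) * (1 / Y + 1 / G)) +
        J ^ 2 * ((1 + T / Y ^ 2) * (s * r / T + Y / T) + N ^ 2 / T ^ 2)) := by
    rw [hHY]
    field_simp
    ring
  rw [e0]
  refine mul_le_mul_of_nonneg_left ?_ (by positivity)
  have hR : 0 ≤ R := hJ.trans hJR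
  have v1 : J * ((1 + T / Y ^ 2) * (1 / Y + 1 / G)) ≤ R * (2 * a ^ 3 * (1 + T / G ^ 3)) :=
    mul_le_mul hJR u1 (by positivity) hR
  have v2 : J ^ 2 * ((1 + T / Y ^ 2) * (s * r / T + Y / T) + N ^ 2 / T ^ 2) ≤ R ^ 2 * (8 * b) :=
    mul_le_mul (pow_le_pow_left₀ hJ hJR 2) u2 (by positivity) (by positivity)
  linarith

private theorem wi_pair (w : ℝ → ℝ) (hw4 : ∀ x, 4 ≤ x → w x = 0) {B Ct : ℝ} (hB : ∀ x, |w x| ≤ B) {ε : ℝ}
    (hCt : 0 ≤ Ct)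
    (tl : ∀ T : ℝ, 1 ≤ T → ∀ N : ℕ, 1 ≤ N → (N : ℝ) ≤ T → ∀ G : ℝ, 0 < G → ∀ I : ℕ, T ^ ε * N / G ≤ 2 ^ I →
      ∀ τ : ℝ, ‖∑ h ∈ Finset.Ico 1 (4 * N), EH w N G h τ‖ ≤ ∑ i ∈ Finset.range I, ‖ED w N G (2 ^ i) τ‖ + Ct)
    {T : ℝ} (hT : 1 ≤ T) {N G : ℕ} (hN : 1 ≤ N) (hG : 1 ≤ G) (hNT : (N : ℝ) ≤ T) {I : ℕ} (hI : T ^ ε * N / G ≤ 2 ^ I) (τ : ℝ) :
    LM w N G τ ≤ (G : ℝ) * N * (4 * B ^ 2 + 2 * Ct) + 2 * G * ∑ i ∈ Finset.range I, ‖ED w N G (2 ^ i) τ‖ := by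
  have hG' : (0 : ℝ) < G := by exact_mod_cast hG
  have hN' : (1 : ℝ) ≤ N := by exact_mod_cast hN
  have h1 := lm_le w hw4 hB N hN hG' τ
  have h2 := tl T hT N hN hNT G hG' I hI τ
  have h3 : 2 * (G : ℝ) * ‖∑ h ∈ Finset.Ico 1 (4 * N), EH w N G h τ‖ ≤
      2 * G * (∑ i ∈ Finset.range I, ‖ED w N G (2 ^ i) τ‖ + Ct) := mul_le_mul_of_nonneg_left h2 (by positivity)
  have h4 : 2 * (G : ℝ) * Ct ≤ 2 * G * (N * Ct) :=
    mul_le_mul_of_nonneg_left (le_mul_of_one_le_left hCt hN') (by positivity)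
  calc LM w N G τ ≤ G * (4 * N * B ^ 2) + 2 * G * ‖∑ h ∈ Finset.Ico 1 (4 * N), EH w N G h τ‖ := h1
    _ ≤ G * (4 * N * B ^ 2) + 2 * G * (∑ i ∈ Finset.range I, ‖ED w N G (2 ^ i) τ‖ + Ct) := by linarith
    _ = G * (4 * N * B ^ 2) + 2 * G * Ct + 2 * G * ∑ i ∈ Finset.range I, ‖ED w N G (2 ^ i) τ‖ := by ring
    _ ≤ G * (4 * N * B ^ 2) + 2 * G * (N * Ct) + 2 * G * ∑ i ∈ Finset.range I, ‖ED w N G (2 ^ i) τ‖ := by linarith
    _ = (G : ℝ) * N * (4 * B ^ 2 + 2 * Ct) + 2 * G * ∑ i ∈ Finset.range I, ‖ED w N G (2 ^ i) τ‖ := by ring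

private theorem wi_idx {ε : ℝ} (hε : 0 < ε) {T N G : ℝ} (hT : 1 ≤ T) (hN1 : 0 ≤ N) (hN : N ≤ T) (hG : T ^ (6 * ε) ≤ G) :
    ∃ I : ℕ, T ^ ε * N / G ≤ 2 ^ I ∧ (∀ i, i < I → ((2 ^ i : ℕ) : ℝ) ≤ T ^ ε * N / G) ∧
      (I : ℝ) ^ 2 ≤ (1 + 4 / ε) ^ 2 * T ^ ε := by
  have hT' : 0 < T := by linarith
  have hex : ∃ I : ℕ, T ^ ε * N / G ≤ 2 ^ I := by
    obtain ⟨I, hI⟩ := pow_unbounded_of_one_lt (T ^ ε * N / G) (one_lt_two)
    exact ⟨I, hI.le⟩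
  classical
  refine ⟨Nat.find hex, Nat.find_spec hex, fun i hi => ?_, ?_⟩
  · have := Nat.find_min hex hi
    push Not at this
    push_cast
    exact this.le
  · set I := Nat.find hex with hI
    have hI1 : (I : ℝ) ≤ (1 + 4 / ε) * T ^ (ε / 2) := by
      have hl : 0 ≤ Real.log T := Real.log_nonneg hT
      have h1 : (I : ℝ) ≤ 1 + 2 * Real.log T := by
        rcases Nat.eq_zero_or_pos I with h0 | h0
        · rw [h0]
          push_cast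
          linarith
        · have h2 := Nat.find_min hex (m := I - 1) (by omega)
          push Not at h2
          have h3 : T ^ ε * N / G ≤ T := by
            have hG' : 0 < G := lt_of_lt_of_le (by positivity) hG
            rw [div_le_iff₀ hG']
            have h4 : T ^ ε ≤ G := (Real.rpow_le_rpow_of_exponent_le hT (by linarith)).trans hG
            calc T ^ ε * N ≤ G * T := mul_le_mul h4 hN hN1 hG'.le
              _ = T * G := mul_comm _ _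
          have h5 : (2 : ℝ) ^ (I - 1) ≤ T := h2.le.trans h3
          have h6 : ((I - 1 : ℕ) : ℝ) * Real.log 2 ≤ Real.log T := by
            rw [← Real.log_pow]
            exact Real.log_le_log (by positivity) h5
          have h7 : (1 : ℝ) / 2 ≤ Real.log 2 := by
            have := Real.log_two_gt_d9
            linarith
          have h8 : ((I - 1 : ℕ) : ℝ) * (1 / 2) ≤ ((I - 1 : ℕ) : ℝ) * Real.log 2 :=
            mul_le_mul_of_nonneg_left h7 (Nat.cast_nonneg _)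
          have h9 : ((I - 1 : ℕ) : ℝ) = (I : ℝ) - 1 := by
            rw [Nat.cast_sub h0]
            norm_num
          rw [h9] at h8 h6
          linarith
      have h2 : Real.log T ≤ T ^ (ε / 2) / (ε / 2) := Real.log_le_rpow_div hT'.le (by positivity)
      have h3 : 1 ≤ T ^ (ε / 2) := Real.one_le_rpow hT (by positivity)
      have h4 : T ^ (ε / 2) / (ε / 2) = 2 / ε * T ^ (ε / 2) := by
        field_simp
      rw [h4] at h2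
      have h5 : (1 + 4 / ε) * T ^ (ε / 2) = T ^ (ε / 2) + 2 * (2 / ε * T ^ (ε / 2)) := by ring
      rw [h5]
      linarith
    have h2 : ((1 + 4 / ε) * T ^ (ε / 2)) ^ 2 = (1 + 4 / ε) ^ 2 * T ^ ε := by
      rw [mul_pow, ← Real.rpow_natCast (T ^ (ε / 2)), ← Real.rpow_mul hT'.le]
      congr 2
      push_cast
      ring
    rw [← h2]
    exact pow_le_pow_left₀ (Nat.cast_nonneg _) hI1 2

/-- PROOF (over the imported rows). `R = |P|`, `J = P.image (·/G)`, `|J| ≤ R`, `T/2 ≤ jG ≤ 2T` for `j ∈ J` (`jG > p - G`), `|jG - lG| ≤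
|p - q| + G ≤ 2 T₀'`.  `grp`, `lm_le` for `w` and `w log` (bounded by `B`), `tail_dyad` with `I` least with `T^ε N/G ≤ 2^I`, so
`H = 2^i ≤ T^ε N/G` and `Y = N/H ≥ G T^(-ε)`, `I ≤ C log T`: `R W² ≤ C R G N + C G sum_i sum_J ‖ED‖` with `C G N ≤ W²/2` (`c₀` small).
Cauchy-Schwarz over `i`, `dyad`, `H = N/Y`, and `W⁴ ≥ G²N²/c₀²`: the `R²` part is `≤ G²N²R² T^(2ε) C (Y^(1/2) T₀^(1/2)/T + Y/T +
Y^(-3/2) T₀^(1/2) + Y^(-1) + N²/T²)`, and `Y ≤ N ≤ T^(19/20)`, `T₀ = min(2G³T^(-10ε), 2T)`, `T₀ ≤ 2T`, `G ≥ T^(6ε)`, so it is `≤ W⁴R²/2` for `T` large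
(for bounded `T` the assertion is trivial, `R ≤ 2T + 2`).  The `R` part is `≤ C G²N² T^(5ε) R (1 + T/G³)`. -/
theorem window (w : ℝ → ℝ) (hw : Wt w) (hw1 : Wt fun x => w x * Real.log x) {ε : ℝ} (hε : 0 < ε) (hε1 : ε ≤ 1 / 1000) :
    ∃ c₀ : ℝ, 0 < c₀ ∧ ∃ C : ℝ, 0 ≤ C ∧ ∀ T : ℝ, 1 ≤ T → ∀ N G : ℕ, 1 ≤ N → 1 ≤ G → (N : ℝ) ≤ T ^ (19 / 20 : ℝ) → ∀ W : ℝ, 0 < W →
      (G : ℝ) * N ≤ c₀ * W ^ 2 → T ^ (6 * ε) ≤ G → (G : ℝ) ≤ T / 4 → ∀ (P : Finset ℕ) (t : ℕ → ℝ),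
      (∀ p ∈ P, (p : ℝ) ≤ t p ∧ t p ≤ p + 1 ∧ T ≤ t p ∧ t p ≤ 2 * T ∧ W ≤ ‖A w N (t p)‖) →
      (∀ p ∈ P, ∀ q ∈ P, |(p : ℝ) - q| ≤ (G : ℝ) ^ 3 * T ^ (-(10 * ε))) →
      (P.card : ℝ) ≤ C * T ^ (6 * ε) * (1 + T / (G : ℝ) ^ 3) := by
  obtain ⟨B1, hB1, hb1⟩ := wi_bd w hw
  obtain ⟨B2, hB2, hb2⟩ := wi_bd _ hw1
  obtain ⟨B, hB⟩ : ∃ B, B = max B1 B2 := ⟨_, rfl⟩
  have hBw : ∀ x, |w x| ≤ B := fun x => (hb1 x).trans (hB ▸ le_max_left _ _)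
  have hBw2 : ∀ x, |(fun x => w x * Real.log x) x| ≤ B := fun x => (hb2 x).trans (hB ▸ le_max_right _ _)
  have hBpos : 1 ≤ B := hB1.trans (hB ▸ le_max_left _ _)
  obtain ⟨Ct, hCt, tl⟩ := tail_dyad w hw.2.2.1 hBw hε
  obtain ⟨Ct2, hCt2, tl2⟩ := tail_dyad _ hw1.2.2.1 hBw2 hε
  obtain ⟨Cd, hCd, dy⟩ := dyad w hw hε (by linarith)
  obtain ⟨Cd2, hCd2, dy2⟩ := dyad _ hw1 hε (by linarith)
  obtain ⟨E, hE⟩ : ∃ E, E = Real.exp Real.pi := ⟨_, rfl⟩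
  have hE' : 0 < E := by rw [hE]; exact Real.exp_pos _
  obtain ⟨K, hK⟩ : ∃ K, K = 12 * B ^ 2 + 4 * Ct + 2 * Ct2 := ⟨_, rfl⟩
  have hK' : 0 < K := by
    rw [hK]
    have : 0 < B ^ 2 := by positivity
    linarith
  obtain ⟨c₀, hc₀⟩ : ∃ c₀, c₀ = 1 / (2 * (E * K)) := ⟨_, rfl⟩
  have hc' : 0 < c₀ := by rw [hc₀]; positivity
  obtain ⟨D, hD⟩ : ∃ D, D = max Cd Cd2 := ⟨_, rfl⟩
  have hD1 : Cd ≤ D := hD ▸ le_max_left _ _
  have hD2 : Cd2 ≤ D := hD ▸ le_max_right _ _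
  have hD' : 0 ≤ D := hCd.trans hD1
  obtain ⟨V, hV⟩ : ∃ V, V = 144 * E ^ 2 * (1 + 4 / ε) ^ 2 * D * c₀ ^ 2 := ⟨_, rfl⟩
  have hV' : 0 ≤ V := by rw [hV]; positivity
  refine ⟨c₀, hc', 4 * V + 3 * (16 * V) ^ (2 / (3 * ε)), by positivity, ?_⟩
  intro T hT N G hN hG hNT W hW hGN hGε hG4 P t hP hPP
  have hT' : 0 < T := by linarith
  have hN' : (1 : ℝ) ≤ N := by exact_mod_cast hN
  have hG' : (1 : ℝ) ≤ G := by exact_mod_cast hG
  have hG0 : (0 : ℝ) < G := by linarith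
  have hNT1 : (N : ℝ) ≤ T := by
    refine hNT.trans ?_
    calc T ^ (19 / 20 : ℝ) ≤ T ^ (1 : ℝ) := Real.rpow_le_rpow_of_exponent_le hT (by norm_num)
      _ = T := Real.rpow_one T
  have hR3 : (P.card : ℝ) ≤ 3 * T := wi_card hT P fun p hp => (hP p hp).1.trans (hP p hp).2.2.2.1
  have ha1 : 1 ≤ T ^ ε := Real.one_le_rpow hT hε.le
  have h6 : 1 ≤ T ^ (6 * ε) := Real.one_le_rpow hT (by positivity)
  have hGT : 0 ≤ T / (G : ℝ) ^ 3 := by positivity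
  -- bounded `T`
  by_cases hbig : 8 * V * T ^ (-(3 / 2 * ε)) ≤ 1 / 2
  swap
  · push Not at hbig
    have h1 : T ^ (3 / 2 * ε) ≤ 16 * V := by
      rw [Real.rpow_neg hT'.le] at hbig
      have h2 : 0 < T ^ (3 / 2 * ε) := by positivity
      have h3 : 1 / 2 * T ^ (3 / 2 * ε) < 8 * V := by
        calc 1 / 2 * T ^ (3 / 2 * ε) < 8 * V * (T ^ (3 / 2 * ε))⁻¹ * T ^ (3 / 2 * ε) :=
              mul_lt_mul_of_pos_right hbig h2
          _ = 8 * V := by rw [mul_assoc, inv_mul_cancel₀ h2.ne', mul_one]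
      linarith
    have h2 : T ≤ (16 * V) ^ (2 / (3 * ε)) := by
      calc T = (T ^ (3 / 2 * ε)) ^ (2 / (3 * ε)) := by
            rw [← Real.rpow_mul hT'.le]
            have : 3 / 2 * ε * (2 / (3 * ε)) = 1 := by field_simp
            rw [this, Real.rpow_one]
        _ ≤ (16 * V) ^ (2 / (3 * ε)) := Real.rpow_le_rpow (by positivity) h1 (by positivity)
    have h3 : (1 : ℝ) ≤ T ^ (6 * ε) * (1 + T / (G : ℝ) ^ 3) := one_le_mul_of_one_le_of_one_le h6 (by linarith)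
    have h4 : 0 ≤ 4 * V + 3 * (16 * V) ^ (2 / (3 * ε)) := by positivity
    calc (P.card : ℝ) ≤ 3 * T := hR3
      _ ≤ 4 * V + 3 * (16 * V) ^ (2 / (3 * ε)) := by linarith
      _ ≤ (4 * V + 3 * (16 * V) ^ (2 / (3 * ε))) * (T ^ (6 * ε) * (1 + T / (G : ℝ) ^ 3)) := le_mul_of_one_le_right h4 h3
      _ = _ := by ring
  -- the main case
  obtain ⟨R, hR⟩ : ∃ R : ℝ, R = (P.card : ℝ) := ⟨_, rfl⟩
  have hR0 : 0 ≤ R := by rw [hR]; positivity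
  obtain ⟨I, hI1, hI2, hI3⟩ := wi_idx hε hT (by linarith : (0 : ℝ) ≤ N) hNT1 hGε
  obtain ⟨J, hJ⟩ : ∃ J, J = P.image (fun p => p / G) := ⟨_, rfl⟩
  have hJR : (J.card : ℝ) ≤ R := by
    rw [hR, hJ]
    exact_mod_cast Finset.card_image_le
  have hT4 : 4 ≤ T := by linarith
  have hdiv : ∀ p : ℕ, ((p / G : ℕ) : ℝ) * G ≤ p ∧ (p : ℝ) < ((p / G : ℕ) : ℝ) * G + G := by
    intro p
    constructor
    · exact_mod_cast Nat.div_mul_le_self p G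
    · have := Nat.lt_div_mul_add (a := p) (b := G) hG
      exact_mod_cast this
  have hJ1 : ∀ j ∈ J, T / 2 ≤ (j : ℝ) * G ∧ (j : ℝ) * G ≤ 2 * T := by
    intro j hj
    rw [hJ, Finset.mem_image] at hj
    obtain ⟨p, hp, rfl⟩ := hj
    obtain ⟨q1, q2, q3, q4, -⟩ := hP p hp
    obtain ⟨d1, d2⟩ := hdiv p
    constructor <;> linarith
  obtain ⟨T₀, hT₀⟩ : ∃ T₀, T₀ = min (2 * ((G : ℝ) ^ 3 * T ^ (-(10 * ε)))) (2 * T) := ⟨_, rfl⟩
  have hT00 : 0 ≤ T₀ := by rw [hT₀]; positivity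
  have hT01 : T₀ ≤ 2 * T := hT₀ ▸ min_le_right _ _
  have hT02 : T₀ ≤ 2 * ((G : ℝ) ^ 3 * T ^ (-(10 * ε))) := hT₀ ▸ min_le_left _ _
  have hGG : (G : ℝ) ≤ (G : ℝ) ^ 3 * T ^ (-(10 * ε)) := by
    have h1 : T ^ (12 * ε) ≤ (G : ℝ) ^ 2 := by
      have : T ^ (12 * ε) = (T ^ (6 * ε)) ^ 2 := by
        rw [← Real.rpow_natCast, ← Real.rpow_mul hT'.le]
        congr 1
        push_cast
        ring
      rw [this]
      exact pow_le_pow_left₀ (by positivity) hGε 2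
    have h2 : 1 ≤ T ^ (12 * ε) * T ^ (-(10 * ε)) := by
      rw [← Real.rpow_add hT']
      exact Real.one_le_rpow hT (by linarith)
    have h3 : 1 ≤ (G : ℝ) ^ 2 * T ^ (-(10 * ε)) := h2.trans (mul_le_mul_of_nonneg_right h1 (by positivity))
    calc (G : ℝ) ≤ G * ((G : ℝ) ^ 2 * T ^ (-(10 * ε))) := le_mul_of_one_le_right hG0.le h3
      _ = (G : ℝ) ^ 3 * T ^ (-(10 * ε)) := by ring
  have hJ2 : ∀ j ∈ J, ∀ l ∈ J, |(j : ℝ) * G - (l : ℝ) * G| ≤ T₀ := by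
    intro j hj l hl
    rw [hT₀, le_min_iff]
    constructor
    · rw [hJ, Finset.mem_image] at hj hl
      obtain ⟨p, hp, rfl⟩ := hj
      obtain ⟨q, hq, rfl⟩ := hl
      have h1 := hPP p hp q hq
      obtain ⟨d1, d2⟩ := hdiv p
      obtain ⟨d3, d4⟩ := hdiv q
      rw [abs_le] at h1 ⊢
      constructor <;> linarith [h1.1, h1.2]
    · have h1 := hJ1 j hj
      have h2 := hJ1 l hl
      rw [abs_le]
      constructor <;> linarith [h1.1, h1.2, h2.1, h2.2]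
  -- the bound for one dyadic sum
  obtain ⟨Q, hQ⟩ : ∃ Q, Q = D * T ^ ε * ((N : ℝ) ^ 2 * (2 * R * (T ^ ε) ^ 3 * (1 + T / (G : ℝ) ^ 3) + 8 * R ^ 2 * T ^ (-(7 / 2 * ε)))) := ⟨_, rfl⟩
  have hQ0 : 0 ≤ Q := by rw [hQ]; positivity
  have hone : ∀ (f : ℝ → ℝ) (Cf : ℝ), 0 ≤ Cf → Cf ≤ D →
      (∀ T : ℝ, 1 ≤ T → ∀ N G H : ℕ, 1 ≤ N → 1 ≤ G → 1 ≤ H → (N : ℝ) ≤ T → H ≤ 4 * N → ∀ T₀ : ℝ, 0 ≤ T₀ → T₀ ≤ 2 * T →
        ∀ J : Finset ℕ, (∀ j ∈ J, T / 2 ≤ (j : ℝ) * G ∧ (j : ℝ) * G ≤ 2 * T) →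
        (∀ j ∈ J, ∀ l ∈ J, |(j : ℝ) * G - (l : ℝ) * G| ≤ T₀) →
        (∑ j ∈ J, ‖ED f N G H ((j : ℝ) * G)‖) ^ 2 ≤ Cf * T ^ ε * (H : ℝ) ^ 2 *
          ((1 + T / ((N : ℝ) / H) ^ 2) * ((J.card : ℝ) * ((N : ℝ) / H + ((N : ℝ) / H) ^ 2 / G) +
            (J.card : ℝ) ^ 2 * (((N : ℝ) / H) ^ (5 / 2 : ℝ) * T₀ ^ (1 / 2 : ℝ) / T + ((N : ℝ) / H) ^ 3 / T)) +
            (H : ℝ) ^ 2 * (J.card : ℝ) ^ 2 * ((N : ℝ) / H) ^ 4 / T ^ 2)) →
      ∀ i, i < I → ∑ j ∈ J, ‖ED f N G (2 ^ i) ((j : ℝ) * G)‖ ≤ √Q := by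
    intro f Cf hCf hCfD hdy i hi
    obtain ⟨H, hH⟩ : ∃ H : ℕ, H = 2 ^ i := ⟨_, rfl⟩
    have hHr : (H : ℝ) ≤ T ^ ε * N / G := by rw [hH]; exact hI2 i hi
    have hH1 : 1 ≤ H := by rw [hH]; exact Nat.one_le_two_pow
    have hH1' : (1 : ℝ) ≤ H := by exact_mod_cast hH1
    have hHG : (H : ℝ) * G ≤ T ^ ε * N := by rwa [le_div_iff₀ hG0] at hHr
    have hHN : (H : ℝ) ≤ N := by
      have h1 : T ^ ε ≤ G := (Real.rpow_le_rpow_of_exponent_le hT (by linarith)).trans hGε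
      have h2 : (H : ℝ) * G ≤ G * N := hHG.trans (mul_le_mul_of_nonneg_right h1 (by linarith))
      have h3 : (G : ℝ) * H ≤ G * N := by linarith
      exact le_of_mul_le_mul_left h3 hG0
    have hHN' : H ≤ 4 * N := by
      have : H ≤ N := by exact_mod_cast hHN
      omega
    rw [← hH]
    have h1 := hdy T hT N G H hN hG hH1 hNT1 hHN' T₀ hT00 hT01 J hJ1 hJ2
    have h2 := wi_real (J := (J.card : ℝ)) (R := R) hε hε1 hT hH1' hN' hNT hHG hGε hT00 hT01 hT02 (Nat.cast_nonneg _) hJR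
    apply Real.le_sqrt_of_sq_le
    refine h1.trans ?_
    rw [hQ]
    calc Cf * T ^ ε * (H : ℝ) ^ 2 * _ = Cf * T ^ ε * ((H : ℝ) ^ 2 *
          ((1 + T / ((N : ℝ) / H) ^ 2) * ((J.card : ℝ) * ((N : ℝ) / H + ((N : ℝ) / H) ^ 2 / G) +
            (J.card : ℝ) ^ 2 * (((N : ℝ) / H) ^ (5 / 2 : ℝ) * T₀ ^ (1 / 2 : ℝ) / T + ((N : ℝ) / H) ^ 3 / T)) +
            (H : ℝ) ^ 2 * (J.card : ℝ) ^ 2 * ((N : ℝ) / H) ^ 4 / T ^ 2)) := by ring
      _ ≤ Cf * T ^ ε * ((N : ℝ) ^ 2 * (2 * R * (T ^ ε) ^ 3 * (1 + T / (G : ℝ) ^ 3) + 8 * R ^ 2 * T ^ (-(7 / 2 * ε)))) :=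
          mul_le_mul_of_nonneg_left h2 (by positivity)
      _ ≤ D * T ^ ε * ((N : ℝ) ^ 2 * (2 * R * (T ^ ε) ^ 3 * (1 + T / (G : ℝ) ^ 3) + 8 * R ^ 2 * T ^ (-(7 / 2 * ε)))) := by
          refine mul_le_mul_of_nonneg_right (mul_le_mul_of_nonneg_right hCfD (by positivity)) (by positivity)
  have hS := hone w Cd hCd hD1 dy
  have hS2 := hone (fun x => w x * Real.log x) Cd2 hCd2 hD2 dy2
  -- grouping
  have hgr := grp w N hN G hG hW.le P t fun p hp => ⟨(hP p hp).1, (hP p hp).2.1, (hP p hp).2.2.2.2⟩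
  rw [← hE, ← hJ, ← hR] at hgr
  have hsum : ∑ j ∈ J, (2 * LM w N G ((j : ℝ) * G) + LM (fun x => w x * Real.log x) N G ((j : ℝ) * G)) ≤
      R * ((G : ℝ) * N * K) + 6 * G * (I * √Q) := by
    have h1 : ∀ j ∈ J, 2 * LM w N G ((j : ℝ) * G) + LM (fun x => w x * Real.log x) N G ((j : ℝ) * G) ≤
        (G : ℝ) * N * K + 2 * G * ∑ i ∈ Finset.range I, (2 * ‖ED w N G (2 ^ i) ((j : ℝ) * G)‖ +
          ‖ED (fun x => w x * Real.log x) N G (2 ^ i) ((j : ℝ) * G)‖) := by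
      intro j _
      have e1 := wi_pair w hw.2.2.1 hBw hCt tl hT hN hG hNT1 hI1 ((j : ℝ) * G)
      have e2 := wi_pair (fun x => w x * Real.log x) hw1.2.2.1 hBw2 hCt2 tl2 hT hN hG hNT1 hI1 ((j : ℝ) * G)
      have e3 : ∑ i ∈ Finset.range I, (2 * ‖ED w N G (2 ^ i) ((j : ℝ) * G)‖ +
          ‖ED (fun x => w x * Real.log x) N G (2 ^ i) ((j : ℝ) * G)‖) =
          2 * ∑ i ∈ Finset.range I, ‖ED w N G (2 ^ i) ((j : ℝ) * G)‖ +
          ∑ i ∈ Finset.range I, ‖ED (fun x => w x * Real.log x) N G (2 ^ i) ((j : ℝ) * G)‖ := by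
        rw [Finset.sum_add_distrib, Finset.mul_sum]
      rw [e3, hK]
      calc 2 * LM w N G ((j : ℝ) * G) + LM (fun x => w x * Real.log x) N G ((j : ℝ) * G) ≤
          2 * ((G : ℝ) * N * (4 * B ^ 2 + 2 * Ct) + 2 * G * ∑ i ∈ Finset.range I, ‖ED w N G (2 ^ i) ((j : ℝ) * G)‖) +
          ((G : ℝ) * N * (4 * B ^ 2 + 2 * Ct2) + 2 * G * ∑ i ∈ Finset.range I, ‖ED (fun x => w x * Real.log x) N G (2 ^ i) ((j : ℝ) * G)‖) := by
            linarith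
        _ = _ := by ring
    refine (Finset.sum_le_sum h1).trans ?_
    rw [Finset.sum_add_distrib, Finset.sum_const, nsmul_eq_mul, ← Finset.mul_sum, Finset.sum_comm]
    have h2 : ∑ i ∈ Finset.range I, ∑ j ∈ J, (2 * ‖ED w N G (2 ^ i) ((j : ℝ) * G)‖ +
          ‖ED (fun x => w x * Real.log x) N G (2 ^ i) ((j : ℝ) * G)‖) ≤ ∑ i ∈ Finset.range I, 3 * √Q := by
      refine Finset.sum_le_sum fun i hi => ?_
      rw [Finset.mem_range] at hi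
      rw [Finset.sum_add_distrib, ← Finset.mul_sum]
      linarith [hS i hi, hS2 i hi]
    rw [Finset.sum_const, Finset.card_range, nsmul_eq_mul] at h2
    have h3 : (J.card : ℝ) * ((G : ℝ) * N * K) ≤ R * ((G : ℝ) * N * K) := mul_le_mul_of_nonneg_right hJR (by positivity)
    have h4 := mul_le_mul_of_nonneg_left h2 (by positivity : 0 ≤ 2 * (G : ℝ))
    calc _ ≤ R * ((G : ℝ) * N * K) + 2 * (G : ℝ) * ((I : ℝ) * (3 * √Q)) := add_le_add h3 h4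
      _ = _ := by ring
  have hmain : R * W ^ 2 ≤ 12 * E * G * (I * √Q) := by
    have h1 : R * W ^ 2 ≤ E * (R * ((G : ℝ) * N * K) + 6 * G * (I * √Q)) :=
      hgr.trans (mul_le_mul_of_nonneg_left hsum hE'.le)
    have h2 : E * (R * ((G : ℝ) * N * K)) ≤ R * W ^ 2 / 2 := by
      have h3 : E * K * ((G : ℝ) * N) ≤ E * K * (c₀ * W ^ 2) := mul_le_mul_of_nonneg_left hGN (by positivity)
      have h4 : E * K * (c₀ * W ^ 2) = W ^ 2 / 2 := by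
        rw [hc₀]
        field_simp
      rw [h4] at h3
      calc E * (R * ((G : ℝ) * N * K)) = R * (E * K * ((G : ℝ) * N)) := by ring
        _ ≤ R * (W ^ 2 / 2) := mul_le_mul_of_nonneg_left h3 hR0
        _ = R * W ^ 2 / 2 := by ring
    have h5 : E * (R * ((G : ℝ) * N * K) + 6 * G * (I * √Q)) = E * (R * ((G : ℝ) * N * K)) + 6 * E * G * (I * √Q) := by ring
    rw [h5] at h1
    linarith
  -- squares
  have hsq : R ^ 2 * W ^ 4 ≤ 144 * E ^ 2 * (G : ℝ) ^ 2 * (I : ℝ) ^ 2 * Q := by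
    have h1 := pow_le_pow_left₀ (by positivity) hmain 2
    have h2 : (12 * E * G * (I * √Q)) ^ 2 = 144 * E ^ 2 * (G : ℝ) ^ 2 * (I : ℝ) ^ 2 * (√Q) ^ 2 := by ring
    rw [h2, Real.sq_sqrt hQ0] at h1
    calc R ^ 2 * W ^ 4 = (R * W ^ 2) ^ 2 := by ring
      _ ≤ _ := h1
  have hfin : R ^ 2 ≤ V * T ^ ε * T ^ ε * (2 * R * (T ^ ε) ^ 3 * (1 + T / (G : ℝ) ^ 3) + 8 * R ^ 2 * T ^ (-(7 / 2 * ε))) := by
    obtain ⟨Z, hZ⟩ : ∃ Z, Z = 2 * R * (T ^ ε) ^ 3 * (1 + T / (G : ℝ) ^ 3) + 8 * R ^ 2 * T ^ (-(7 / 2 * ε)) := ⟨_, rfl⟩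
    have hZ0 : 0 ≤ Z := by rw [hZ]; positivity
    rw [← hZ] at hQ ⊢
    have hW4 : 0 < W ^ 4 := by positivity
    have h1 : ((G : ℝ) * N) ^ 2 ≤ (c₀ * W ^ 2) ^ 2 := pow_le_pow_left₀ (by positivity) hGN 2
    have h2 : 144 * E ^ 2 * (G : ℝ) ^ 2 * (I : ℝ) ^ 2 * Q ≤ 144 * E ^ 2 * (G : ℝ) ^ 2 * ((1 + 4 / ε) ^ 2 * T ^ ε) * Q :=
      mul_le_mul_of_nonneg_right (mul_le_mul_of_nonneg_left hI3 (by positivity)) hQ0
    have h3 : 144 * E ^ 2 * (G : ℝ) ^ 2 * ((1 + 4 / ε) ^ 2 * T ^ ε) * Q =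
        (144 * E ^ 2 * (1 + 4 / ε) ^ 2 * D) * (T ^ ε * T ^ ε * Z) * ((G : ℝ) * N) ^ 2 := by
      rw [hQ]
      ring
    have h4 : (144 * E ^ 2 * (1 + 4 / ε) ^ 2 * D) * (T ^ ε * T ^ ε * Z) * ((G : ℝ) * N) ^ 2 ≤
        (144 * E ^ 2 * (1 + 4 / ε) ^ 2 * D) * (T ^ ε * T ^ ε * Z) * (c₀ * W ^ 2) ^ 2 :=
      mul_le_mul_of_nonneg_left h1 (by positivity)
    have h5 : (144 * E ^ 2 * (1 + 4 / ε) ^ 2 * D) * (T ^ ε * T ^ ε * Z) * (c₀ * W ^ 2) ^ 2 =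
        V * T ^ ε * T ^ ε * Z * W ^ 4 := by
      rw [hV]
      ring
    have h6 : R ^ 2 * W ^ 4 ≤ V * T ^ ε * T ^ ε * Z * W ^ 4 := by
      calc R ^ 2 * W ^ 4 ≤ _ := hsq
        _ ≤ _ := h2
        _ = _ := h3
        _ ≤ _ := h4
        _ = _ := h5
    exact le_of_mul_le_mul_right h6 hW4
  have he1 : T ^ ε * T ^ ε * T ^ (-(7 / 2 * ε)) = T ^ (-(3 / 2 * ε)) := by
    rw [← Real.rpow_add hT', ← Real.rpow_add hT']
    congr 1
    ring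
  have he2 : T ^ ε * T ^ ε * (T ^ ε) ^ 3 ≤ T ^ (6 * ε) := by
    have : T ^ ε * T ^ ε * (T ^ ε) ^ 3 = T ^ (5 * ε) := by
      rw [← Real.rpow_natCast (T ^ ε) 3, ← Real.rpow_mul hT'.le, ← Real.rpow_add hT', ← Real.rpow_add hT']
      congr 1
      push_cast
      ring
    rw [this]
    exact Real.rpow_le_rpow_of_exponent_le hT (by linarith)
  have hfin2 : R ^ 2 ≤ 2 * V * R * (T ^ (6 * ε) * (1 + T / (G : ℝ) ^ 3)) + R ^ 2 / 2 := by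
    have h1 : V * T ^ ε * T ^ ε * (2 * R * (T ^ ε) ^ 3 * (1 + T / (G : ℝ) ^ 3) + 8 * R ^ 2 * T ^ (-(7 / 2 * ε))) =
        2 * V * R * ((T ^ ε * T ^ ε * (T ^ ε) ^ 3) * (1 + T / (G : ℝ) ^ 3)) +
        R ^ 2 * (8 * V * (T ^ ε * T ^ ε * T ^ (-(7 / 2 * ε)))) := by ring
    rw [h1, he1] at hfin
    have h2 : 2 * V * R * ((T ^ ε * T ^ ε * (T ^ ε) ^ 3) * (1 + T / (G : ℝ) ^ 3)) ≤
        2 * V * R * (T ^ (6 * ε) * (1 + T / (G : ℝ) ^ 3)) :=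
      mul_le_mul_of_nonneg_left (mul_le_mul_of_nonneg_right he2 (by positivity)) (by positivity)
    have h3 : R ^ 2 * (8 * V * T ^ (-(3 / 2 * ε))) ≤ R ^ 2 * (1 / 2) := mul_le_mul_of_nonneg_left hbig (by positivity)
    linarith
  have hlast : R ≤ 4 * V * (T ^ (6 * ε) * (1 + T / (G : ℝ) ^ 3)) := by
    rcases hR0.eq_or_lt with h0 | h0
    · rw [← h0]
      positivity
    · have h1 : R * R ≤ R * (4 * V * (T ^ (6 * ε) * (1 + T / (G : ℝ) ^ 3))) := by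
        have e : R * R = R ^ 2 := by ring
        rw [e]
        linarith
      exact le_of_mul_le_mul_left h1 h0
  rw [hR] at hlast
  refine hlast.trans ?_
  have h7 : 0 ≤ (16 * V) ^ (2 / (3 * ε)) := by positivity
  have h8 : 0 ≤ T ^ (6 * ε) * (1 + T / (G : ℝ) ^ 3) := by positivity
  calc 4 * V * (T ^ (6 * ε) * (1 + T / (G : ℝ) ^ 3)) ≤
      (4 * V + 3 * (16 * V) ^ (2 / (3 * ε))) * (T ^ (6 * ε) * (1 + T / (G : ℝ) ^ 3)) :=
        mul_le_mul_of_nonneg_right (by linarith) h8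
    _ = _ := by ring

end Pool.Agent.Lib.TW
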