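import Pool.Agent.Lib.TW.Dy5
import Pool.Agent.Lib.TW.Dy
import Pool.Agent.Lib.TW.Gr
import Pool.Agent.Lib.TW.Off
import Pool.Agent.Lib.TW.Tl

/-!
# TW / Wi5: the estimate in a window with the third derivative test
-/

set_option autoImplicit false

open MeasureTheory
open scoped FourierTransform

namespace Pool.Agent.Lib.TW

private theorem wi5_bd (w : ℝ → ℝ) (hw : Wt w) : ∃ B : ℝ, 1 ≤ B ∧ ∀ x, |w x| ≤ B := by
  obtain ⟨h1, h2, h3, -⟩ := hw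
  obtain ⟨C, hC⟩ := (isCompact_Icc (a := (1 / 2 : ℝ)) (b := 4)).exists_bound_of_continuousOn (f := w) h1.continuous.continuousOn
  refine ⟨max 1 C, le_max_left _ _, fun x => ?_⟩
  by_cases hx : x ≤ 1 / 2
  · rw [h2 x hx, abs_zero]
    exact le_trans zero_le_one (le_max_left _ _)
  · by_cases hx4 : 4 ≤ x
    · rw [h3 x hx4, abs_zero]
      exact le_trans zero_le_one (le_max_left _ _)
    · push Not at hx hx4
      have := hC x ⟨hx.le, hx4.le⟩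
      rw [Real.norm_eq_abs] at this
      exact this.trans (le_max_right _ _)

private theorem wi5_card {T : ℝ} (hT : 1 ≤ T) (P : Finset ℕ) (h : ∀ p ∈ P, (p : ℝ) ≤ 2 * T) : (P.card : ℝ) ≤ 3 * T := by
  have h1 : P ⊆ Finset.range (⌊2 * T⌋₊ + 1) := by
    intro p hp
    rw [Finset.mem_range, Nat.lt_succ_iff]
    exact Nat.le_floor (h p hp)
  have h2 : (P.card : ℝ) ≤ ((⌊2 * T⌋₊ + 1 : ℕ) : ℝ) := by
    have := Finset.card_le_card h1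
    rw [Finset.card_range] at this
    exact_mod_cast this
  have h3 : ((⌊2 * T⌋₊ : ℕ) : ℝ) ≤ 2 * T := Nat.floor_le (by linarith)
  push_cast at h2
  linarith

private theorem wi5_a {ε T N H G R J T₀ : ℝ} (hε : 0 < ε) (hε1 : ε ≤ 1 / 1000) (hT : 1 ≤ T) (hH : 1 ≤ H) (hN1 : 1 ≤ N)
    (hN : N ≤ T ^ (19 / 20 : ℝ)) (hHG : H * G ≤ T ^ ε * N) (hG : T ^ (6 * ε) ≤ G) (hT0 : 0 ≤ T₀) (hT1 : T₀ ≤ 2 * T)
    (hT2 : T₀ ≤ (N / H) ^ 3 * T ^ (-(10 * ε))) (hJ : 0 ≤ J) (hJR : J ≤ R) :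
    H ^ 2 * ((1 + T / (N / H) ^ 2) * (J * (N / H + (N / H) ^ 2 / G) +
        J ^ 2 * ((N / H) ^ (5 / 2 : ℝ) * T₀ ^ (1 / 2 : ℝ) / T + (N / H) ^ 3 / T)) +
        H ^ 2 * J ^ 2 * (N / H) ^ 4 / T ^ 2) ≤
      N ^ 2 * (2 * R * (T ^ ε) ^ 3 * (1 + T / G ^ 3) + 8 * R ^ 2 * T ^ (-(7 / 2 * ε))) := by
  have hT' : 0 < T := by linarith
  have hH' : 0 < H := by linarith
  have hN' : 0 < N := by linarith
  have ha1 : 1 ≤ T ^ ε := Real.one_le_rpow hT hε.le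
  have hG1 : 1 ≤ G := (Real.one_le_rpow hT (by linarith)).trans hG
  have hG' : 0 < G := by linarith
  have ha' : 0 < T ^ ε := by linarith
  obtain ⟨Y, hY⟩ : ∃ Y, Y = N / H := ⟨_, rfl⟩
  have hY' : 0 < Y := by rw [hY]; positivity
  have hHY : H = N / Y := by rw [hY]; field_simp
  rw [← hY] at hT2 ⊢
  set a := T ^ ε with ha
  set b := T ^ (-(7 / 2 * ε)) with hb
  have hb' : 0 < b := Real.rpow_pos_of_pos hT' _
  have hYG : 1 / Y ≤ a / G := by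
    rw [hY, one_div_div, div_le_div_iff₀ hN' hG']
    linarith
  have hYN : Y ≤ T ^ (19 / 20 : ℝ) := by
    have : Y ≤ N := by
      rw [hY]
      exact div_le_self hN'.le hH
    exact this.trans hN
  -- square roots
  obtain ⟨s, hs⟩ : ∃ s, s = Y ^ (1 / 2 : ℝ) := ⟨_, rfl⟩
  have hs' : 0 < s := by rw [hs]; positivity
  have hs2 : s ^ 2 = Y := by
    rw [hs, ← Real.rpow_natCast, ← Real.rpow_mul hY'.le]
    norm_num
  have hY52 : Y ^ (5 / 2 : ℝ) = Y ^ 2 * s := by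
    have : (5 / 2 : ℝ) = 2 + 1 / 2 := by norm_num
    rw [this, Real.rpow_add hY', hs]
    norm_num
  obtain ⟨r, hr⟩ : ∃ r, r = T₀ ^ (1 / 2 : ℝ) := ⟨_, rfl⟩
  have hr' : 0 ≤ r := by rw [hr]; positivity
  have hr2 : r ^ 2 = T₀ := by
    rw [hr, ← Real.rpow_natCast, ← Real.rpow_mul hT0]
    norm_num
  rw [hY52, ← hr]
  have hbb : b ^ 2 = T ^ (-(7 * ε)) := by
    rw [hb, ← Real.rpow_natCast, ← Real.rpow_mul hT'.le]
    congr 1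
    push_cast
    ring
  have hmon : ∀ x y : ℝ, x ≤ y → T ^ x ≤ T ^ y := fun x y h => Real.rpow_le_rpow_of_exponent_le hT h
  -- (1)
  have t1 : s * r / T ≤ 2 * b := by
    have h1 : (s * r / T) ^ 2 ≤ (2 * b) ^ 2 := by
      have e1 : (s * r / T) ^ 2 = Y * T₀ / T ^ 2 := by
        rw [div_pow, mul_pow, hs2, hr2]
      rw [e1, mul_pow, hbb, div_le_iff₀ (by positivity)]
      have h2 : Y * T₀ ≤ T ^ (19 / 20 : ℝ) * (2 * T) := mul_le_mul hYN hT1 hT0 (by positivity)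
      have h3 : T ^ (19 / 20 : ℝ) ≤ T ^ (-(7 * ε)) * T := by
        have : T ^ (-(7 * ε)) * T = T ^ (-(7 * ε) + 1) := by rw [Real.rpow_add hT', Real.rpow_one]
        rw [this]
        exact hmon _ _ (by linarith)
      have h4 : 0 < T ^ (-(7 * ε)) := by positivity
      nlinarith [mul_le_mul_of_nonneg_right h3 hT'.le, mul_pos h4 (mul_pos hT' hT')]
    exact (abs_le_of_sq_le_sq' h1 (by positivity)).2
  have t3 : r / (Y * s) ≤ 2 * b := by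
    have h1 : (r / (Y * s)) ^ 2 ≤ (2 * b) ^ 2 := by
      have e1 : (r / (Y * s)) ^ 2 = T₀ * (1 / Y) ^ 3 := by
        rw [div_pow, mul_pow, hs2, hr2]
        field_simp
      rw [e1, mul_pow, hbb]
      have h3 : T₀ * (1 / Y) ^ 3 ≤ T ^ (-(10 * ε)) := by
        calc T₀ * (1 / Y) ^ 3 ≤ Y ^ 3 * T ^ (-(10 * ε)) * (1 / Y) ^ 3 := mul_le_mul_of_nonneg_right hT2 (by positivity)
          _ = T ^ (-(10 * ε)) := by field_simp
      have h5 : T ^ (-(10 * ε)) ≤ T ^ (-(7 * ε)) := hmon _ _ (by linarith)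
      have h6 : 0 < T ^ (-(7 * ε)) := by positivity
      linarith
    exact (abs_le_of_sq_le_sq' h1 (by positivity)).2
  have t2 : Y / T ≤ b := by
    rw [div_le_iff₀ hT']
    refine hYN.trans ?_
    have : b * T = T ^ (-(7 / 2 * ε) + 1) := by rw [Real.rpow_add hT', Real.rpow_one]
    rw [this]
    exact hmon _ _ (by linarith)
  have t4 : 1 / Y ≤ b := by
    refine hYG.trans ?_
    rw [div_le_iff₀ hG']
    have h1 : a ≤ b * T ^ (6 * ε) := by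
      rw [ha, hb, ← Real.rpow_add hT']
      exact hmon _ _ (by linarith)
    exact h1.trans (mul_le_mul_of_nonneg_left hG hb'.le)
  have t5 : N ^ 2 / T ^ 2 ≤ b := by
    rw [div_le_iff₀ (by positivity)]
    have h1 : N ^ 2 ≤ (T ^ (19 / 20 : ℝ)) ^ 2 := pow_le_pow_left₀ hN'.le hN 2
    have h2 : (T ^ (19 / 20 : ℝ)) ^ 2 = T ^ (19 / 10 : ℝ) := by
      rw [← Real.rpow_natCast, ← Real.rpow_mul hT'.le]
      norm_num
    have h3 : b * T ^ 2 = T ^ (-(7 / 2 * ε) + 2) := by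
      rw [Real.rpow_add hT']
      norm_num [hb]
    rw [h2] at h1
    rw [h3]
    exact h1.trans (hmon _ _ (by linarith))
  -- the R part
  have u1 : (1 + T / Y ^ 2) * (1 / Y + 1 / G) ≤ 2 * a ^ 3 * (1 + T / G ^ 3) := by
    have h1 : T / Y ^ 2 ≤ T * (a / G) ^ 2 := by
      have : T / Y ^ 2 = T * (1 / Y) ^ 2 := by field_simp
      rw [this]
      exact mul_le_mul_of_nonneg_left (pow_le_pow_left₀ (by positivity) hYG 2) hT'.le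
    have h2 : 1 / Y + 1 / G ≤ 2 * a / G := by
      have : 1 / G ≤ a / G := div_le_div_of_nonneg_right ha1 hG'.le
      have e : 2 * a / G = a / G + a / G := by ring
      rw [e]
      linarith
    have h3 : (1 + T / Y ^ 2) * (1 / Y + 1 / G) ≤ (1 + T * (a / G) ^ 2) * (2 * a / G) :=
      mul_le_mul (by linarith) h2 (by positivity) (by positivity)
    refine h3.trans ?_
    have e1 : (1 + T * (a / G) ^ 2) * (2 * a / G) = 2 * (a * (1 / G)) + 2 * a ^ 3 * (T / G ^ 3) := by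
      field_simp
    rw [e1]
    have h4 : 1 / G ≤ 1 := by rw [div_le_one hG']; exact hG1
    have h5 : a ≤ a ^ 3 := by
      have : a * 1 ≤ a * a ^ 2 := mul_le_mul_of_nonneg_left (one_le_pow₀ ha1) ha'.le
      calc a = a * 1 := (mul_one a).symm
        _ ≤ a * a ^ 2 := this
        _ = a ^ 3 := by ring
    have h6 : a * (1 / G) ≤ a ^ 3 * 1 := mul_le_mul h5 h4 (by positivity) (by positivity)
    have h7 : 0 ≤ T / G ^ 3 := by positivity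
    nlinarith
  have u2 : (1 + T / Y ^ 2) * (s * r / T + Y / T) + N ^ 2 / T ^ 2 ≤ 8 * b := by
    have e1 : (1 + T / Y ^ 2) * (s * r / T + Y / T) = s * r / T + Y / T + r / (Y * s) + 1 / Y := by
      have : s * r / Y ^ 2 = r / (Y * s) := by
        rw [div_eq_div_iff (by positivity) (by positivity)]
        calc s * r * (Y * s) = r * (Y * s ^ 2) := by ring
          _ = r * Y ^ 2 := by rw [hs2]; ring
      rw [← this]
      field_simp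
      ring
    rw [e1]
    linarith
  have e0 : H ^ 2 * ((1 + T / Y ^ 2) * (J * (Y + Y ^ 2 / G) + J ^ 2 * (Y ^ 2 * s * r / T + Y ^ 3 / T)) +
        H ^ 2 * J ^ 2 * Y ^ 4 / T ^ 2) =
      N ^ 2 * (J * ((1 + T / Y ^ 2) * (1 / Y + 1 / G)) +
        J ^ 2 * ((1 + T / Y ^ 2) * (s * r / T + Y / T) + N ^ 2 / T ^ 2)) := by
    rw [hHY]
    field_simp
    ring
  rw [e0]
  refine mul_le_mul_of_nonneg_left ?_ (by positivity)
  have hR : 0 ≤ R := hJ.trans hJR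
  have v1 : J * ((1 + T / Y ^ 2) * (1 / Y + 1 / G)) ≤ R * (2 * a ^ 3 * (1 + T / G ^ 3)) :=
    mul_le_mul hJR u1 (by positivity) hR
  have v2 : J ^ 2 * ((1 + T / Y ^ 2) * (s * r / T + Y / T) + N ^ 2 / T ^ 2) ≤ R ^ 2 * (8 * b) :=
    mul_le_mul (pow_le_pow_left₀ hJ hJR 2) u2 (by positivity) (by positivity)
  linarith

private theorem wi5_b {ε T N H G R J T₀ U : ℝ} (hε : 0 < ε) (hε1 : ε ≤ 1 / 1000) (hT : 1 ≤ T) (hH : 1 ≤ H) (hN1 : 1 ≤ N)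
    (hN : N ≤ T ^ (19 / 20 : ℝ)) (hHG : H * G ≤ T ^ ε * N) (hG : T ^ (3 / 10 + 20 * ε) ≤ G) (hT0 : 0 ≤ T₀)
    (hT2 : T₀ ≤ 2 * (G ^ 13 * T ^ (-(3 + 100 * ε)))) (hU : U = (N / H) ^ 3 * T ^ (-(10 * ε))) (hJ : 0 ≤ J) (hJR : J ≤ R) :
    H ^ 2 * (H ^ 2 * J ^ 2 * (N / H) ^ 4 / T ^ 2 + J ^ 2 + T / (N / H) ^ 2 * rb T (N / H) G U T₀ J) ≤
      N ^ 2 * (2 * R * (T ^ ε) ^ 3 * (1 + T / G ^ 3) + 8 * R ^ 2 * T ^ (-(7 / 2 * ε))) := by
  have hT' : 0 < T := by linarith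
  have hH' : 0 < H := by linarith
  have hN' : 0 < N := by linarith
  have ha1 : 1 ≤ T ^ ε := Real.one_le_rpow hT hε.le
  have hG1 : 1 ≤ G := (Real.one_le_rpow hT (by linarith)).trans hG
  have hG' : 0 < G := by linarith
  have ha' : 0 < T ^ ε := by linarith
  obtain ⟨Y, hY⟩ : ∃ Y, Y = N / H := ⟨_, rfl⟩
  have hY' : 0 < Y := by rw [hY]; positivity
  have hHY : H = N / Y := by rw [hY]; field_simp
  rw [← hY] at hU ⊢
  have hYG : 1 / Y ≤ T ^ ε / G := by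
    rw [hY, one_div_div, div_le_div_iff₀ hN' hG']
    linarith
  have hGY : G ≤ T ^ ε * Y := by
    rw [div_le_div_iff₀ hY' hG'] at hYG
    linarith
  -- the R part
  have u1 : T / Y ^ 2 * (1 / Y + 1 / G) ≤ 2 * (T ^ ε) ^ 3 * (1 + T / G ^ 3) := by
    set a := T ^ ε with ha
    have h1 : T / Y ^ 2 ≤ T * (a / G) ^ 2 := by
      have : T / Y ^ 2 = T * (1 / Y) ^ 2 := by field_simp
      rw [this]
      exact mul_le_mul_of_nonneg_left (pow_le_pow_left₀ (by positivity) hYG 2) hT'.le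
    have h2 : 1 / Y + 1 / G ≤ 2 * a / G := by
      have : 1 / G ≤ a / G := div_le_div_of_nonneg_right ha1 hG'.le
      have e : 2 * a / G = a / G + a / G := by ring
      rw [e]
      linarith
    have h3 : T / Y ^ 2 * (1 / Y + 1 / G) ≤ T * (a / G) ^ 2 * (2 * a / G) :=
      mul_le_mul h1 h2 (by positivity) (by positivity)
    refine h3.trans ?_
    have e1 : T * (a / G) ^ 2 * (2 * a / G) = 2 * a ^ 3 * (T / G ^ 3) := by
      field_simp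
    rw [e1]
    have h7 : 0 ≤ a ^ 3 := by positivity
    nlinarith
  -- exponentials
  obtain ⟨A, hA⟩ : ∃ A, A = Real.log T := ⟨_, rfl⟩
  obtain ⟨B, hB⟩ : ∃ B, B = Real.log Y := ⟨_, rfl⟩
  have hTA : T = Real.exp A := by rw [hA, Real.exp_log hT']
  have hYB : Y = Real.exp B := by rw [hB, Real.exp_log hY']
  have hA0 : 0 ≤ A := by rw [hA]; exact Real.log_nonneg hT
  have hεA : 0 ≤ ε * A := mul_nonneg hε.le hA0
  have hεA1 : ε * A ≤ A / 1000 := by nlinarith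
  have hTr : ∀ x : ℝ, T ^ x = Real.exp (x * A) := fun x => by rw [hTA, ← Real.exp_mul, mul_comm]
  have hYr : ∀ x : ℝ, Y ^ x = Real.exp (x * B) := fun x => by rw [hYB, ← Real.exp_mul, mul_comm]
  have hYn : ∀ n : ℕ, Y ^ n = Real.exp (n * B) := fun n => by rw [hYB, ← Real.exp_nat_mul]
  have hB1 : (3 / 10 + 19 * ε) * A ≤ B := by
    have h1 : T ^ (3 / 10 + 20 * ε) ≤ T ^ ε * Y := hG.trans hGY
    rw [hTr, hTr, hYB, ← Real.exp_add, Real.exp_le_exp] at h1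
    linarith
  have hbE : T ^ (-(7 / 2 * ε)) = Real.exp (-(7 / 2 * ε) * A) := hTr _
  have hb' : 0 < T ^ (-(7 / 2 * ε)) := by positivity
  have hU2 : U = Real.exp (3 * B - 10 * ε * A) := by
    rw [hU, hYn, hTr, ← Real.exp_add]
    congr 1
    push_cast
    ring
  have k0 : 1 / Y ^ 2 ≤ T ^ (-(7 / 2 * ε)) := by
    rw [hbE, hYn, one_div, ← Real.exp_neg, Real.exp_le_exp]
    push_cast
    nlinarith
  have k1 : T / Y ^ 4 * (Y ^ (5 / 2 : ℝ) * U ^ (1 / 2 : ℝ) / T) ≤ T ^ (-(7 / 2 * ε)) := by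
    rw [hbE, hYn, hYr, hU2, ← Real.exp_mul, hTA, ← Real.exp_sub, ← Real.exp_add, ← Real.exp_sub, ← Real.exp_add, Real.exp_le_exp]
    push_cast
    nlinarith
  have k2 : T / Y ^ 4 * (Y ^ 3 / T) ≤ T ^ (-(7 / 2 * ε)) := by
    rw [hbE, hYn, hYn, hTA, ← Real.exp_sub, ← Real.exp_sub, ← Real.exp_add, Real.exp_le_exp]
    push_cast
    nlinarith
  have k3 : T / Y ^ 4 * (Y ^ (6 / 5 : ℝ) / T ^ (1 / 5 : ℝ)) ≤ T ^ (-(7 / 2 * ε)) := by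
    rw [hbE, hTr (1 / 5), hYn, hYr, hTA, ← Real.exp_sub, ← Real.exp_sub, ← Real.exp_add, Real.exp_le_exp]
    push_cast
    nlinarith
  have k5 : T / Y ^ 4 * (Y ^ (7 / 6 : ℝ) / U ^ (1 / 6 : ℝ)) ≤ T ^ (-(7 / 2 * ε)) := by
    rw [hbE, hYn, hYr, hU2, ← Real.exp_mul, hTA, ← Real.exp_sub, ← Real.exp_sub, ← Real.exp_add, Real.exp_le_exp]
    push_cast
    nlinarith
  have k4 : T / Y ^ 4 * (Y ^ (11 / 6 : ℝ) * T₀ ^ (1 / 6 : ℝ) / T ^ (1 / 2 : ℝ)) ≤ 2 * T ^ (-(7 / 2 * ε)) := by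
    have h1 : T₀ ≤ 2 * Real.exp (13 * B + (13 * ε - 3 - 100 * ε) * A) := by
      have h2 : G ^ 13 ≤ (T ^ ε * Y) ^ 13 := pow_le_pow_left₀ hG'.le hGY 13
      have h3 : (T ^ ε * Y) ^ 13 = Real.exp (13 * (ε * A + B)) := by
        rw [hTr, hYB, ← Real.exp_add, ← Real.exp_nat_mul]
        norm_num
      have h4 : G ^ 13 * T ^ (-(3 + 100 * ε)) ≤ Real.exp (13 * (ε * A + B)) * Real.exp (-(3 + 100 * ε) * A) := by
        rw [← h3, ← hTr]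
        exact mul_le_mul_of_nonneg_right h2 (by positivity)
      rw [← Real.exp_add] at h4
      have e : 13 * (ε * A + B) + -(3 + 100 * ε) * A = 13 * B + (13 * ε - 3 - 100 * ε) * A := by ring
      rw [e] at h4
      linarith
    have h5 : T₀ ^ (1 / 6 : ℝ) ≤ 2 * Real.exp (1 / 6 * (13 * B + (13 * ε - 3 - 100 * ε) * A)) := by
      have h6 := Real.rpow_le_rpow hT0 h1 (by norm_num : (0 : ℝ) ≤ 1 / 6)
      rw [Real.mul_rpow (by norm_num) (Real.exp_pos _).le, ← Real.exp_mul] at h6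
      have h7 : (2 : ℝ) ^ (1 / 6 : ℝ) ≤ 2 := by
        calc (2 : ℝ) ^ (1 / 6 : ℝ) ≤ (2 : ℝ) ^ (1 : ℝ) := Real.rpow_le_rpow_of_exponent_le (by norm_num) (by norm_num)
          _ = 2 := Real.rpow_one 2
      refine h6.trans ?_
      rw [mul_comm (13 * B + (13 * ε - 3 - 100 * ε) * A) (1 / 6)]
      exact mul_le_mul_of_nonneg_right h7 (Real.exp_pos _).le
    have h8 : T / Y ^ 4 * (Y ^ (11 / 6 : ℝ) * T₀ ^ (1 / 6 : ℝ) / T ^ (1 / 2 : ℝ)) ≤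
        T / Y ^ 4 * (Y ^ (11 / 6 : ℝ) * (2 * Real.exp (1 / 6 * (13 * B + (13 * ε - 3 - 100 * ε) * A))) / T ^ (1 / 2 : ℝ)) := by
      refine mul_le_mul_of_nonneg_left ?_ (by positivity)
      exact div_le_div_of_nonneg_right (mul_le_mul_of_nonneg_left h5 (by positivity)) (by positivity)
    refine h8.trans ?_
    have h9 : T / Y ^ 4 * (Y ^ (11 / 6 : ℝ) * (2 * Real.exp (1 / 6 * (13 * B + (13 * ε - 3 - 100 * ε) * A))) / T ^ (1 / 2 : ℝ)) =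
        2 * (T / Y ^ 4 * (Y ^ (11 / 6 : ℝ) * Real.exp (1 / 6 * (13 * B + (13 * ε - 3 - 100 * ε) * A)) / T ^ (1 / 2 : ℝ))) := by
      ring
    rw [h9]
    refine mul_le_mul_of_nonneg_left ?_ (by norm_num)
    rw [hbE, hTr (1 / 2), hYn, hYr, hTA, ← Real.exp_sub, ← Real.exp_add, ← Real.exp_sub, ← Real.exp_add, Real.exp_le_exp]
    push_cast
    nlinarith
  have k6 : N ^ 2 / T ^ 2 ≤ T ^ (-(7 / 2 * ε)) := by
    rw [div_le_iff₀ (by positivity)]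
    have h1 : N ^ 2 ≤ (T ^ (19 / 20 : ℝ)) ^ 2 := pow_le_pow_left₀ hN'.le hN 2
    refine h1.trans ?_
    rw [hbE, hTr, ← Real.exp_nat_mul, hTA, ← Real.exp_nat_mul, ← Real.exp_add, Real.exp_le_exp]
    push_cast
    nlinarith
  have e0 : H ^ 2 * (H ^ 2 * J ^ 2 * Y ^ 4 / T ^ 2 + J ^ 2 + T / Y ^ 2 * rb T Y G U T₀ J) =
      N ^ 2 * (J * (T / Y ^ 2 * (1 / Y + 1 / G)) + J ^ 2 * (N ^ 2 / T ^ 2 + 1 / Y ^ 2 +
        T / Y ^ 4 * (Y ^ (5 / 2 : ℝ) * U ^ (1 / 2 : ℝ) / T) + T / Y ^ 4 * (Y ^ 3 / T) +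
        T / Y ^ 4 * (Y ^ (6 / 5 : ℝ) / T ^ (1 / 5 : ℝ)) +
        T / Y ^ 4 * (Y ^ (11 / 6 : ℝ) * T₀ ^ (1 / 6 : ℝ) / T ^ (1 / 2 : ℝ)) +
        T / Y ^ 4 * (Y ^ (7 / 6 : ℝ) / U ^ (1 / 6 : ℝ)))) := by
    unfold rb
    obtain ⟨m1, hm1⟩ : ∃ m, m = Y ^ (5 / 2 : ℝ) * U ^ (1 / 2 : ℝ) / T := ⟨_, rfl⟩
    obtain ⟨m2, hm2⟩ : ∃ m, m = Y ^ (6 / 5 : ℝ) / T ^ (1 / 5 : ℝ) := ⟨_, rfl⟩
    obtain ⟨m3, hm3⟩ : ∃ m, m = Y ^ (11 / 6 : ℝ) * T₀ ^ (1 / 6 : ℝ) / T ^ (1 / 2 : ℝ) := ⟨_, rfl⟩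
    obtain ⟨m4, hm4⟩ : ∃ m, m = Y ^ (7 / 6 : ℝ) / U ^ (1 / 6 : ℝ) := ⟨_, rfl⟩
    rw [← hm1, ← hm2, ← hm3, ← hm4, hHY]
    field_simp
    ring
  rw [e0]
  refine mul_le_mul_of_nonneg_left ?_ (by positivity)
  have hR : 0 ≤ R := hJ.trans hJR
  have hU0 : 0 < U := by rw [hU2]; exact Real.exp_pos _
  have v1 : J * (T / Y ^ 2 * (1 / Y + 1 / G)) ≤ R * (2 * (T ^ ε) ^ 3 * (1 + T / G ^ 3)) :=
    mul_le_mul hJR u1 (by positivity) hR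
  have u2 : N ^ 2 / T ^ 2 + 1 / Y ^ 2 +
        T / Y ^ 4 * (Y ^ (5 / 2 : ℝ) * U ^ (1 / 2 : ℝ) / T) + T / Y ^ 4 * (Y ^ 3 / T) +
        T / Y ^ 4 * (Y ^ (6 / 5 : ℝ) / T ^ (1 / 5 : ℝ)) +
        T / Y ^ 4 * (Y ^ (11 / 6 : ℝ) * T₀ ^ (1 / 6 : ℝ) / T ^ (1 / 2 : ℝ)) +
        T / Y ^ 4 * (Y ^ (7 / 6 : ℝ) / U ^ (1 / 6 : ℝ)) ≤ 8 * T ^ (-(7 / 2 * ε)) := by linarith
  have v2 := mul_le_mul (pow_le_pow_left₀ hJ hJR 2) u2 (by positivity) (by positivity)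
  linarith

private theorem wi5_pair (w : ℝ → ℝ) (hw4 : ∀ x, 4 ≤ x → w x = 0) {B Ct : ℝ} (hB : ∀ x, |w x| ≤ B) {ε : ℝ}
    (hCt : 0 ≤ Ct)
    (tl : ∀ T : ℝ, 1 ≤ T → ∀ N : ℕ, 1 ≤ N → (N : ℝ) ≤ T → ∀ G : ℝ, 0 < G → ∀ I : ℕ, T ^ ε * N / G ≤ 2 ^ I →
      ∀ τ : ℝ, ‖∑ h ∈ Finset.Ico 1 (4 * N), EH w N G h τ‖ ≤ ∑ i ∈ Finset.range I, ‖ED w N G (2 ^ i) τ‖ + Ct)
    {T : ℝ} (hT : 1 ≤ T) {N G : ℕ} (hN : 1 ≤ N) (hG : 1 ≤ G) (hNT : (N : ℝ) ≤ T) {I : ℕ} (hI : T ^ ε * N / G ≤ 2 ^ I) (τ : ℝ) :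
    LM w N G τ ≤ (G : ℝ) * N * (4 * B ^ 2 + 2 * Ct) + 2 * G * ∑ i ∈ Finset.range I, ‖ED w N G (2 ^ i) τ‖ := by
  have hG' : (0 : ℝ) < G := by exact_mod_cast hG
  have hN' : (1 : ℝ) ≤ N := by exact_mod_cast hN
  have h1 := lm_le w hw4 hB N hN hG' τ
  have h2 := tl T hT N hN hNT G hG' I hI τ
  have h3 : 2 * (G : ℝ) * ‖∑ h ∈ Finset.Ico 1 (4 * N), EH w N G h τ‖ ≤
      2 * G * (∑ i ∈ Finset.range I, ‖ED w N G (2 ^ i) τ‖ + Ct) := mul_le_mul_of_nonneg_left h2 (by positivity)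
  have h4 : 2 * (G : ℝ) * Ct ≤ 2 * G * (N * Ct) :=
    mul_le_mul_of_nonneg_left (le_mul_of_one_le_left hCt hN') (by positivity)
  calc LM w N G τ ≤ G * (4 * N * B ^ 2) + 2 * G * ‖∑ h ∈ Finset.Ico 1 (4 * N), EH w N G h τ‖ := h1
    _ ≤ G * (4 * N * B ^ 2) + 2 * G * (∑ i ∈ Finset.range I, ‖ED w N G (2 ^ i) τ‖ + Ct) := by linarith
    _ = G * (4 * N * B ^ 2) + 2 * G * Ct + 2 * G * ∑ i ∈ Finset.range I, ‖ED w N G (2 ^ i) τ‖ := by ring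
    _ ≤ G * (4 * N * B ^ 2) + 2 * G * (N * Ct) + 2 * G * ∑ i ∈ Finset.range I, ‖ED w N G (2 ^ i) τ‖ := by linarith
    _ = (G : ℝ) * N * (4 * B ^ 2 + 2 * Ct) + 2 * G * ∑ i ∈ Finset.range I, ‖ED w N G (2 ^ i) τ‖ := by ring

private theorem wi5_idx {ε : ℝ} (hε : 0 < ε) {T N G : ℝ} (hT : 1 ≤ T) (hN1 : 0 ≤ N) (hN : N ≤ T) (hG : T ^ (6 * ε) ≤ G) :
    ∃ I : ℕ, T ^ ε * N / G ≤ 2 ^ I ∧ (∀ i, i < I → ((2 ^ i : ℕ) : ℝ) ≤ T ^ ε * N / G) ∧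
      (I : ℝ) ^ 2 ≤ (1 + 4 / ε) ^ 2 * T ^ ε := by
  have hT' : 0 < T := by linarith
  have hex : ∃ I : ℕ, T ^ ε * N / G ≤ 2 ^ I := by
    obtain ⟨I, hI⟩ := pow_unbounded_of_one_lt (T ^ ε * N / G) (one_lt_two)
    exact ⟨I, hI.le⟩
  classical
  refine ⟨Nat.find hex, Nat.find_spec hex, fun i hi => ?_, ?_⟩
  · have := Nat.find_min hex hi
    push Not at this
    push_cast
    exact this.le
  · set I := Nat.find hex with hI
    have hI1 : (I : ℝ) ≤ (1 + 4 / ε) * T ^ (ε / 2) := by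
      have hl : 0 ≤ Real.log T := Real.log_nonneg hT
      have h1 : (I : ℝ) ≤ 1 + 2 * Real.log T := by
        rcases Nat.eq_zero_or_pos I with h0 | h0
        · rw [h0]
          push_cast
          linarith
        · have h2 := Nat.find_min hex (m := I - 1) (by omega)
          push Not at h2
          have h3 : T ^ ε * N / G ≤ T := by
            have hG' : 0 < G := lt_of_lt_of_le (by positivity) hG
            rw [div_le_iff₀ hG']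
            have h4 : T ^ ε ≤ G := (Real.rpow_le_rpow_of_exponent_le hT (by linarith)).trans hG
            calc T ^ ε * N ≤ G * T := mul_le_mul h4 hN hN1 hG'.le
              _ = T * G := mul_comm _ _
          have h5 : (2 : ℝ) ^ (I - 1) ≤ T := h2.le.trans h3
          have h6 : ((I - 1 : ℕ) : ℝ) * Real.log 2 ≤ Real.log T := by
            rw [← Real.log_pow]
            exact Real.log_le_log (by positivity) h5
          have h7 : (1 : ℝ) / 2 ≤ Real.log 2 := by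
            have := Real.log_two_gt_d9
            linarith
          have h8 : ((I - 1 : ℕ) : ℝ) * (1 / 2) ≤ ((I - 1 : ℕ) : ℝ) * Real.log 2 :=
            mul_le_mul_of_nonneg_left h7 (Nat.cast_nonneg _)
          have h9 : ((I - 1 : ℕ) : ℝ) = (I : ℝ) - 1 := by
            rw [Nat.cast_sub h0]
            norm_num
          rw [h9] at h8 h6
          linarith
      have h2 : Real.log T ≤ T ^ (ε / 2) / (ε / 2) := Real.log_le_rpow_div hT'.le (by positivity)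
      have h3 : 1 ≤ T ^ (ε / 2) := Real.one_le_rpow hT (by positivity)
      have h4 : T ^ (ε / 2) / (ε / 2) = 2 / ε * T ^ (ε / 2) := by
        field_simp
      rw [h4] at h2
      have h5 : (1 + 4 / ε) * T ^ (ε / 2) = T ^ (ε / 2) + 2 * (2 / ε * T ^ (ε / 2)) := by ring
      rw [h5]
      linarith
    have h2 : ((1 + 4 / ε) * T ^ (ε / 2)) ^ 2 = (1 + 4 / ε) ^ 2 * T ^ ε := by
      rw [mul_pow, ← Real.rpow_natCast (T ^ (ε / 2)), ← Real.rpow_mul hT'.le]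
      congr 2
      push_cast
      ring
    rw [← h2]
    exact pow_le_pow_left₀ (Nat.cast_nonneg _) hI1 2

/-- PROOF. As `Wi` (helper27).  `R = |P|`, `J = P.image (·/G)`; `T₀' = G¹³ T^(-3-100ε) ≥ G`, so `|jG - lG| ≤ 2T₀'`, `T₀ = min(2T₀', 2T)`.
`grp`, `lm_le`, `tail_dyad`: `H = 2^i ≤ T^ε N/G`, `Y = N/H ≥ G T^(-ε) ≥ T^(3/10+19ε)`, `Y ≤ N ≤ T^(19/20)`.  For each `H` put `U = Y³ T^(-10ε)` (`≥ 1`).
(i) `T₀ ≤ U`: `dyad` with `T₀`: the `R²` part (times `G²`) is `≤ C G²N²R² T^(2ε) (T^(-5ε) + Y^(-1) + T^(-1/40) + T^(-1/20) + N²/T²)`.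
(ii) `U < T₀ ≤ 2T`: then `Y² ≤ T` for `T` large; `dyad5` with `U`, `T₀`.  `G²H² T/Y² = G²N² T/Y⁴`, so the `R²` part is `≤ C G²N²R² T^(2ε)` times
`Y^(-3/2) U^(1/2) + Y^(-1) + T^(4/5) Y^(-14/5) + T^(1/2) Y^(-13/6) T₀^(1/6) + T Y^(-17/6) U^(-1/6) + Y^(-2) + N²/T²`
`≤ C (T^(-5ε) + T^(-1/4) + T^(-1/25) + T^(-14ε) + T^(-20ε) + T^(-1/2) + T^(-1/10))`.
The `R` part is in both cases `≤ C G²N² T^(5ε) R (1 + T/G³)`.  Bounded `T`: trivial. -/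
theorem window5 (w : ℝ → ℝ) (hw : Wt w) (hw1 : Wt fun x => w x * Real.log x) {ε : ℝ} (hε : 0 < ε) (hε1 : ε ≤ 1 / 1000) :
    ∃ c₀ : ℝ, 0 < c₀ ∧ ∃ C : ℝ, 0 ≤ C ∧ ∀ T : ℝ, 1 ≤ T → ∀ N G : ℕ, 1 ≤ N → 1 ≤ G → (N : ℝ) ≤ T ^ (19 / 20 : ℝ) → ∀ W : ℝ, 0 < W →
      (G : ℝ) * N ≤ c₀ * W ^ 2 → T ^ (3 / 10 + 20 * ε) ≤ G → (G : ℝ) ≤ T / 4 → ∀ (P : Finset ℕ) (t : ℕ → ℝ),
      (∀ p ∈ P, (p : ℝ) ≤ t p ∧ t p ≤ p + 1 ∧ T ≤ t p ∧ t p ≤ 2 * T ∧ W ≤ ‖A w N (t p)‖) →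
      (∀ p ∈ P, ∀ q ∈ P, |(p : ℝ) - q| ≤ (G : ℝ) ^ 13 * T ^ (-(3 + 100 * ε))) →
      (P.card : ℝ) ≤ C * T ^ (6 * ε) * (1 + T / (G : ℝ) ^ 3) := by
  obtain ⟨B1, hB1, hb1⟩ := wi5_bd w hw
  obtain ⟨B2, hB2, hb2⟩ := wi5_bd _ hw1
  obtain ⟨B, hB⟩ : ∃ B, B = max B1 B2 := ⟨_, rfl⟩
  have hBw : ∀ x, |w x| ≤ B := fun x => (hb1 x).trans (hB ▸ le_max_left _ _)
  have hBw2 : ∀ x, |(fun x => w x * Real.log x) x| ≤ B := fun x => (hb2 x).trans (hB ▸ le_max_right _ _)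
  have hBpos : 1 ≤ B := hB1.trans (hB ▸ le_max_left _ _)
  obtain ⟨Ct, hCt, tl⟩ := tail_dyad w hw.2.2.1 hBw hε
  obtain ⟨Ct2, hCt2, tl2⟩ := tail_dyad _ hw1.2.2.1 hBw2 hε
  obtain ⟨Cd, hCd, dy⟩ := dyad w hw hε (by linarith)
  obtain ⟨Cd2, hCd2, dy2⟩ := dyad _ hw1 hε (by linarith)
  obtain ⟨Ce, hCe, de⟩ := dyad5 w hw hε (by linarith)
  obtain ⟨Ce2, hCe2, de2⟩ := dyad5 _ hw1 hε (by linarith)
  obtain ⟨E, hE⟩ : ∃ E, E = Real.exp Real.pi := ⟨_, rfl⟩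
  have hE' : 0 < E := by rw [hE]; exact Real.exp_pos _
  obtain ⟨K, hK⟩ : ∃ K, K = 12 * B ^ 2 + 4 * Ct + 2 * Ct2 := ⟨_, rfl⟩
  have hK' : 0 < K := by
    rw [hK]
    have : 0 < B ^ 2 := by positivity
    linarith
  obtain ⟨c₀, hc₀⟩ : ∃ c₀, c₀ = 1 / (2 * (E * K)) := ⟨_, rfl⟩
  have hc' : 0 < c₀ := by rw [hc₀]; positivity
  obtain ⟨D, hD⟩ : ∃ D, D = max (max Cd Cd2) (max Ce Ce2) := ⟨_, rfl⟩
  have hD1 : Cd ≤ D := hD ▸ (le_max_left _ _).trans (le_max_left _ _)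
  have hD2 : Cd2 ≤ D := hD ▸ (le_max_right _ _).trans (le_max_left _ _)
  have hD3 : Ce ≤ D := hD ▸ (le_max_left _ _).trans (le_max_right _ _)
  have hD4 : Ce2 ≤ D := hD ▸ (le_max_right _ _).trans (le_max_right _ _)
  have hD' : 0 ≤ D := hCd.trans hD1
  obtain ⟨V, hV⟩ : ∃ V, V = 144 * E ^ 2 * (1 + 4 / ε) ^ 2 * D * c₀ ^ 2 := ⟨_, rfl⟩
  have hV' : 0 ≤ V := by rw [hV]; positivity
  refine ⟨c₀, hc', 4 * V + 3 * (16 * V) ^ (2 / (3 * ε)), by positivity, ?_⟩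
  intro T hT N G hN hG hNT W hW hGN hGε5 hG4 P t hP hPP
  have hGε : T ^ (6 * ε) ≤ G := (Real.rpow_le_rpow_of_exponent_le hT (by linarith)).trans hGε5
  have hT' : 0 < T := by linarith
  have hN' : (1 : ℝ) ≤ N := by exact_mod_cast hN
  have hG' : (1 : ℝ) ≤ G := by exact_mod_cast hG
  have hG0 : (0 : ℝ) < G := by linarith
  have hNT1 : (N : ℝ) ≤ T := by
    refine hNT.trans ?_
    calc T ^ (19 / 20 : ℝ) ≤ T ^ (1 : ℝ) := Real.rpow_le_rpow_of_exponent_le hT (by norm_num)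
      _ = T := Real.rpow_one T
  have hR3 : (P.card : ℝ) ≤ 3 * T := wi5_card hT P fun p hp => (hP p hp).1.trans (hP p hp).2.2.2.1
  have ha1 : 1 ≤ T ^ ε := Real.one_le_rpow hT hε.le
  have h6 : 1 ≤ T ^ (6 * ε) := Real.one_le_rpow hT (by positivity)
  have hGT : 0 ≤ T / (G : ℝ) ^ 3 := by positivity
  -- bounded `T`
  by_cases hbig : 8 * V * T ^ (-(3 / 2 * ε)) ≤ 1 / 2
  swap
  · push Not at hbig
    have h1 : T ^ (3 / 2 * ε) ≤ 16 * V := by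
      rw [Real.rpow_neg hT'.le] at hbig
      have h2 : 0 < T ^ (3 / 2 * ε) := by positivity
      have h3 : 1 / 2 * T ^ (3 / 2 * ε) < 8 * V := by
        calc 1 / 2 * T ^ (3 / 2 * ε) < 8 * V * (T ^ (3 / 2 * ε))⁻¹ * T ^ (3 / 2 * ε) :=
              mul_lt_mul_of_pos_right hbig h2
          _ = 8 * V := by rw [mul_assoc, inv_mul_cancel₀ h2.ne', mul_one]
      linarith
    have h2 : T ≤ (16 * V) ^ (2 / (3 * ε)) := by
      calc T = (T ^ (3 / 2 * ε)) ^ (2 / (3 * ε)) := by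
            rw [← Real.rpow_mul hT'.le]
            have : 3 / 2 * ε * (2 / (3 * ε)) = 1 := by field_simp
            rw [this, Real.rpow_one]
        _ ≤ (16 * V) ^ (2 / (3 * ε)) := Real.rpow_le_rpow (by positivity) h1 (by positivity)
    have h3 : (1 : ℝ) ≤ T ^ (6 * ε) * (1 + T / (G : ℝ) ^ 3) := one_le_mul_of_one_le_of_one_le h6 (by linarith)
    have h4 : 0 ≤ 4 * V + 3 * (16 * V) ^ (2 / (3 * ε)) := by positivity
    calc (P.card : ℝ) ≤ 3 * T := hR3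
      _ ≤ 4 * V + 3 * (16 * V) ^ (2 / (3 * ε)) := by linarith
      _ ≤ (4 * V + 3 * (16 * V) ^ (2 / (3 * ε))) * (T ^ (6 * ε) * (1 + T / (G : ℝ) ^ 3)) := le_mul_of_one_le_right h4 h3
      _ = _ := by ring
  -- the main case
  obtain ⟨R, hR⟩ : ∃ R : ℝ, R = (P.card : ℝ) := ⟨_, rfl⟩
  have hR0 : 0 ≤ R := by rw [hR]; positivity
  obtain ⟨I, hI1, hI2, hI3⟩ := wi5_idx hε hT (by linarith : (0 : ℝ) ≤ N) hNT1 hGε
  obtain ⟨J, hJ⟩ : ∃ J, J = P.image (fun p => p / G) := ⟨_, rfl⟩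
  have hJR : (J.card : ℝ) ≤ R := by
    rw [hR, hJ]
    exact_mod_cast Finset.card_image_le
  have hT4 : 4 ≤ T := by linarith
  have hdiv : ∀ p : ℕ, ((p / G : ℕ) : ℝ) * G ≤ p ∧ (p : ℝ) < ((p / G : ℕ) : ℝ) * G + G := by
    intro p
    constructor
    · exact_mod_cast Nat.div_mul_le_self p G
    · have := Nat.lt_div_mul_add (a := p) (b := G) hG
      exact_mod_cast this
  have hJ1 : ∀ j ∈ J, T / 2 ≤ (j : ℝ) * G ∧ (j : ℝ) * G ≤ 2 * T := by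
    intro j hj
    rw [hJ, Finset.mem_image] at hj
    obtain ⟨p, hp, rfl⟩ := hj
    obtain ⟨q1, q2, q3, q4, -⟩ := hP p hp
    obtain ⟨d1, d2⟩ := hdiv p
    constructor <;> linarith
  obtain ⟨T₀, hT₀⟩ : ∃ T₀, T₀ = min (2 * ((G : ℝ) ^ 13 * T ^ (-(3 + 100 * ε)))) (2 * T) := ⟨_, rfl⟩
  have hT00 : 0 ≤ T₀ := by rw [hT₀]; positivity
  have hT01 : T₀ ≤ 2 * T := hT₀ ▸ min_le_right _ _
  have hT02 : T₀ ≤ 2 * ((G : ℝ) ^ 13 * T ^ (-(3 + 100 * ε))) := hT₀ ▸ min_le_left _ _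
  have hGG : (G : ℝ) ≤ (G : ℝ) ^ 13 * T ^ (-(3 + 100 * ε)) := by
    have h1 : T ^ (18 / 5 + 240 * ε) ≤ (G : ℝ) ^ 12 := by
      have : T ^ (18 / 5 + 240 * ε) = (T ^ (3 / 10 + 20 * ε)) ^ 12 := by
        rw [← Real.rpow_natCast, ← Real.rpow_mul hT'.le]
        congr 1
        push_cast
        ring
      rw [this]
      exact pow_le_pow_left₀ (by positivity) hGε5 12
    have h2 : 1 ≤ T ^ (18 / 5 + 240 * ε) * T ^ (-(3 + 100 * ε)) := by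
      rw [← Real.rpow_add hT']
      exact Real.one_le_rpow hT (by linarith)
    have h3 : 1 ≤ (G : ℝ) ^ 12 * T ^ (-(3 + 100 * ε)) := h2.trans (mul_le_mul_of_nonneg_right h1 (by positivity))
    calc (G : ℝ) ≤ G * ((G : ℝ) ^ 12 * T ^ (-(3 + 100 * ε))) := le_mul_of_one_le_right hG0.le h3
      _ = (G : ℝ) ^ 13 * T ^ (-(3 + 100 * ε)) := by ring
  have hJ2 : ∀ j ∈ J, ∀ l ∈ J, |(j : ℝ) * G - (l : ℝ) * G| ≤ T₀ := by
    intro j hj l hl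
    rw [hT₀, le_min_iff]
    constructor
    · rw [hJ, Finset.mem_image] at hj hl
      obtain ⟨p, hp, rfl⟩ := hj
      obtain ⟨q, hq, rfl⟩ := hl
      have h1 := hPP p hp q hq
      obtain ⟨d1, d2⟩ := hdiv p
      obtain ⟨d3, d4⟩ := hdiv q
      rw [abs_le] at h1 ⊢
      constructor <;> linarith [h1.1, h1.2]
    · have h1 := hJ1 j hj
      have h2 := hJ1 l hl
      rw [abs_le]
      constructor <;> linarith [h1.1, h1.2, h2.1, h2.2]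
  -- the bound for one dyadic sum
  obtain ⟨Q, hQ⟩ : ∃ Q, Q = D * T ^ ε * ((N : ℝ) ^ 2 * (2 * R * (T ^ ε) ^ 3 * (1 + T / (G : ℝ) ^ 3) + 8 * R ^ 2 * T ^ (-(7 / 2 * ε)))) := ⟨_, rfl⟩
  have hQ0 : 0 ≤ Q := by rw [hQ]; positivity
  have hone : ∀ (f : ℝ → ℝ) (Cf Cg : ℝ), 0 ≤ Cf → Cf ≤ D → 0 ≤ Cg → Cg ≤ D →
      (∀ T : ℝ, 1 ≤ T → ∀ N G H : ℕ, 1 ≤ N → 1 ≤ G → 1 ≤ H → (N : ℝ) ≤ T → H ≤ 4 * N → ∀ T₀ : ℝ, 0 ≤ T₀ → T₀ ≤ 2 * T →
        ∀ J : Finset ℕ, (∀ j ∈ J, T / 2 ≤ (j : ℝ) * G ∧ (j : ℝ) * G ≤ 2 * T) →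
        (∀ j ∈ J, ∀ l ∈ J, |(j : ℝ) * G - (l : ℝ) * G| ≤ T₀) →
        (∑ j ∈ J, ‖ED f N G H ((j : ℝ) * G)‖) ^ 2 ≤ Cf * T ^ ε * (H : ℝ) ^ 2 *
          ((1 + T / ((N : ℝ) / H) ^ 2) * ((J.card : ℝ) * ((N : ℝ) / H + ((N : ℝ) / H) ^ 2 / G) +
            (J.card : ℝ) ^ 2 * (((N : ℝ) / H) ^ (5 / 2 : ℝ) * T₀ ^ (1 / 2 : ℝ) / T + ((N : ℝ) / H) ^ 3 / T)) +
            (H : ℝ) ^ 2 * (J.card : ℝ) ^ 2 * ((N : ℝ) / H) ^ 4 / T ^ 2)) →
      (∀ T : ℝ, 1 ≤ T → ∀ N G H : ℕ, 1 ≤ N → 1 ≤ G → 1 ≤ H → 1 ≤ (N : ℝ) / H → ((N : ℝ) / H) ^ 2 ≤ T →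
        ∀ U : ℝ, 1 ≤ U → U ≤ 2 * T → ∀ T₀ : ℝ, T₀ ≤ 2 * T →
        ∀ J : Finset ℕ, (∀ j ∈ J, T / 2 ≤ (j : ℝ) * G ∧ (j : ℝ) * G ≤ 2 * T) →
        (∀ j ∈ J, ∀ l ∈ J, |(j : ℝ) * G - (l : ℝ) * G| ≤ T₀) →
        (∑ j ∈ J, ‖ED f N G H ((j : ℝ) * G)‖) ^ 2 ≤ Cg * T ^ ε * (H : ℝ) ^ 2 *
          ((H : ℝ) ^ 2 * (J.card : ℝ) ^ 2 * ((N : ℝ) / H) ^ 4 / T ^ 2 + (J.card : ℝ) ^ 2 +
            T / ((N : ℝ) / H) ^ 2 * rb T ((N : ℝ) / H) G U T₀ J.card)) →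
      ∀ i, i < I → ∑ j ∈ J, ‖ED f N G (2 ^ i) ((j : ℝ) * G)‖ ≤ √Q := by
    intro f Cf Cg hCf hCfD hCg hCgD hdy hde i hi
    obtain ⟨H, hH⟩ : ∃ H : ℕ, H = 2 ^ i := ⟨_, rfl⟩
    have hHr : (H : ℝ) ≤ T ^ ε * N / G := by rw [hH]; exact hI2 i hi
    have hH1 : 1 ≤ H := by rw [hH]; exact Nat.one_le_two_pow
    have hH1' : (1 : ℝ) ≤ H := by exact_mod_cast hH1
    have hH0 : (0 : ℝ) < H := by linarith
    have hHG : (H : ℝ) * G ≤ T ^ ε * N := by rwa [le_div_iff₀ hG0] at hHr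
    have hHN : (H : ℝ) ≤ N := by
      have h1 : T ^ ε ≤ G := (Real.rpow_le_rpow_of_exponent_le hT (by linarith)).trans hGε
      have h2 : (H : ℝ) * G ≤ G * N := hHG.trans (mul_le_mul_of_nonneg_right h1 (by linarith))
      have h3 : (G : ℝ) * H ≤ G * N := by linarith
      exact le_of_mul_le_mul_left h3 hG0
    have hHN' : H ≤ 4 * N := by
      have : H ≤ N := by exact_mod_cast hHN
      omega
    rw [← hH]
    apply Real.le_sqrt_of_sq_le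
    obtain ⟨Z, hZ⟩ : ∃ Z, Z = (N : ℝ) ^ 2 * (2 * R * (T ^ ε) ^ 3 * (1 + T / (G : ℝ) ^ 3) + 8 * R ^ 2 * T ^ (-(7 / 2 * ε))) := ⟨_, rfl⟩
    have hZ0 : 0 ≤ Z := by rw [hZ]; positivity
    have hfinal : ∀ x Cx : ℝ, Cx ≤ D → x ≤ Cx * T ^ ε * Z → x ≤ Q := by
      intro x Cx hCx hx
      rw [hQ, ← hZ]
      exact hx.trans (mul_le_mul_of_nonneg_right (mul_le_mul_of_nonneg_right hCx (by positivity)) hZ0)
    by_cases hTU : T₀ ≤ ((N : ℝ) / H) ^ 3 * T ^ (-(10 * ε))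
    · have h1 := hdy T hT N G H hN hG hH1 hNT1 hHN' T₀ hT00 hT01 J hJ1 hJ2
      have h2 := wi5_a (J := (J.card : ℝ)) (R := R) hε hε1 hT hH1' hN' hNT hHG hGε hT00 hT01 hTU (Nat.cast_nonneg _) hJR
      rw [← hZ] at h2
      refine hfinal _ Cf hCfD (h1.trans ?_)
      rw [mul_assoc (Cf * T ^ ε)]
      exact mul_le_mul_of_nonneg_left h2 (by positivity)
    · push Not at hTU
      have hGY : (G : ℝ) ≤ T ^ ε * ((N : ℝ) / H) := by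
        rw [← mul_div_assoc, le_div_iff₀ hH0]
        linarith
      have hY1 : T ^ (3 / 10 + 19 * ε) ≤ (N : ℝ) / H := by
        have h1 : T ^ (3 / 10 + 20 * ε) ≤ T ^ ε * ((N : ℝ) / H) := hGε5.trans hGY
        have h2 : T ^ (3 / 10 + 20 * ε) = T ^ ε * T ^ (3 / 10 + 19 * ε) := by
          rw [← Real.rpow_add hT']
          congr 1
          ring
        rw [h2] at h1
        exact le_of_mul_le_mul_left h1 (by positivity)
      have hY2 : 1 ≤ (N : ℝ) / H := (Real.one_le_rpow hT (by linarith)).trans hY1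
      have hY0 : 0 < (N : ℝ) / H := by linarith
      have hU1 : 1 ≤ ((N : ℝ) / H) ^ 3 * T ^ (-(10 * ε)) := by
        have h1 : (T ^ (3 / 10 + 19 * ε)) ^ 3 ≤ ((N : ℝ) / H) ^ 3 := pow_le_pow_left₀ (by positivity) hY1 3
        have h2 : 1 ≤ (T ^ (3 / 10 + 19 * ε)) ^ 3 * T ^ (-(10 * ε)) := by
          rw [← Real.rpow_natCast, ← Real.rpow_mul hT'.le, ← Real.rpow_add hT']
          refine Real.one_le_rpow hT ?_
          push_cast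
          linarith
        exact h2.trans (mul_le_mul_of_nonneg_right h1 (by positivity))
      have hU2 : ((N : ℝ) / H) ^ 3 * T ^ (-(10 * ε)) ≤ 2 * T := hTU.le.trans hT01
      have hYT : ((N : ℝ) / H) ^ 2 ≤ T := by
        have h1 : ((N : ℝ) / H) ^ 3 ≤ 2 * T * T ^ (10 * ε) := by
          have h2 : ((N : ℝ) / H) ^ 3 = ((N : ℝ) / H) ^ 3 * T ^ (-(10 * ε)) * T ^ (10 * ε) := by
            rw [mul_assoc, ← Real.rpow_add hT', neg_add_cancel, Real.rpow_zero, mul_one]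
          rw [h2]
          exact mul_le_mul_of_nonneg_right hU2 (by positivity)
        have h3 : 4 * T ^ (20 * ε) ≤ T := by
          have h4 : T ^ (20 * ε) ≤ G := (Real.rpow_le_rpow_of_exponent_le hT (by linarith)).trans hGε5
          linarith
        have h5 : (T ^ (10 * ε)) ^ 2 = T ^ (20 * ε) := by
          rw [← Real.rpow_natCast, ← Real.rpow_mul hT'.le]
          congr 1
          push_cast
          ring
        have h6 : (((N : ℝ) / H) ^ 2) ^ 3 ≤ T ^ 3 := by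
          calc (((N : ℝ) / H) ^ 2) ^ 3 = (((N : ℝ) / H) ^ 3) ^ 2 := by ring
            _ ≤ (2 * T * T ^ (10 * ε)) ^ 2 := pow_le_pow_left₀ (by positivity) h1 2
            _ = T ^ 2 * (4 * (T ^ (10 * ε)) ^ 2) := by ring
            _ = T ^ 2 * (4 * T ^ (20 * ε)) := by rw [h5]
            _ ≤ T ^ 2 * T := mul_le_mul_of_nonneg_left h3 (by positivity)
            _ = T ^ 3 := by ring
        exact (pow_le_pow_iff_left₀ (by positivity) hT'.le (by norm_num)).1 h6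
      have h1 := hde T hT N G H hN hG hH1 hY2 hYT _ hU1 hU2 T₀ hT01 J hJ1 hJ2
      have h2 := wi5_b (J := (J.card : ℝ)) (R := R) hε hε1 hT hH1' hN' hNT hHG hGε5 hT00 hT02 rfl (Nat.cast_nonneg _) hJR
      rw [← hZ] at h2
      refine hfinal _ Cg hCgD (h1.trans ?_)
      rw [mul_assoc (Cg * T ^ ε)]
      exact mul_le_mul_of_nonneg_left h2 (by positivity)
  have hS := hone w Cd Ce hCd hD1 hCe hD3 dy de
  have hS2 := hone (fun x => w x * Real.log x) Cd2 Ce2 hCd2 hD2 hCe2 hD4 dy2 de2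
  -- grouping
  have hgr := grp w N hN G hG hW.le P t fun p hp => ⟨(hP p hp).1, (hP p hp).2.1, (hP p hp).2.2.2.2⟩
  rw [← hE, ← hJ, ← hR] at hgr
  have hsum : ∑ j ∈ J, (2 * LM w N G ((j : ℝ) * G) + LM (fun x => w x * Real.log x) N G ((j : ℝ) * G)) ≤
      R * ((G : ℝ) * N * K) + 6 * G * (I * √Q) := by
    have h1 : ∀ j ∈ J, 2 * LM w N G ((j : ℝ) * G) + LM (fun x => w x * Real.log x) N G ((j : ℝ) * G) ≤
        (G : ℝ) * N * K + 2 * G * ∑ i ∈ Finset.range I, (2 * ‖ED w N G (2 ^ i) ((j : ℝ) * G)‖ +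
          ‖ED (fun x => w x * Real.log x) N G (2 ^ i) ((j : ℝ) * G)‖) := by
      intro j _
      have e1 := wi5_pair w hw.2.2.1 hBw hCt tl hT hN hG hNT1 hI1 ((j : ℝ) * G)
      have e2 := wi5_pair (fun x => w x * Real.log x) hw1.2.2.1 hBw2 hCt2 tl2 hT hN hG hNT1 hI1 ((j : ℝ) * G)
      have e3 : ∑ i ∈ Finset.range I, (2 * ‖ED w N G (2 ^ i) ((j : ℝ) * G)‖ +
          ‖ED (fun x => w x * Real.log x) N G (2 ^ i) ((j : ℝ) * G)‖) =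
          2 * ∑ i ∈ Finset.range I, ‖ED w N G (2 ^ i) ((j : ℝ) * G)‖ +
          ∑ i ∈ Finset.range I, ‖ED (fun x => w x * Real.log x) N G (2 ^ i) ((j : ℝ) * G)‖ := by
        rw [Finset.sum_add_distrib, Finset.mul_sum]
      rw [e3, hK]
      calc 2 * LM w N G ((j : ℝ) * G) + LM (fun x => w x * Real.log x) N G ((j : ℝ) * G) ≤
          2 * ((G : ℝ) * N * (4 * B ^ 2 + 2 * Ct) + 2 * G * ∑ i ∈ Finset.range I, ‖ED w N G (2 ^ i) ((j : ℝ) * G)‖) +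
          ((G : ℝ) * N * (4 * B ^ 2 + 2 * Ct2) + 2 * G * ∑ i ∈ Finset.range I, ‖ED (fun x => w x * Real.log x) N G (2 ^ i) ((j : ℝ) * G)‖) := by
            linarith
        _ = _ := by ring
    refine (Finset.sum_le_sum h1).trans ?_
    rw [Finset.sum_add_distrib, Finset.sum_const, nsmul_eq_mul, ← Finset.mul_sum, Finset.sum_comm]
    have h2 : ∑ i ∈ Finset.range I, ∑ j ∈ J, (2 * ‖ED w N G (2 ^ i) ((j : ℝ) * G)‖ +
          ‖ED (fun x => w x * Real.log x) N G (2 ^ i) ((j : ℝ) * G)‖) ≤ ∑ i ∈ Finset.range I, 3 * √Q := by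
      refine Finset.sum_le_sum fun i hi => ?_
      rw [Finset.mem_range] at hi
      rw [Finset.sum_add_distrib, ← Finset.mul_sum]
      linarith [hS i hi, hS2 i hi]
    rw [Finset.sum_const, Finset.card_range, nsmul_eq_mul] at h2
    have h3 : (J.card : ℝ) * ((G : ℝ) * N * K) ≤ R * ((G : ℝ) * N * K) := mul_le_mul_of_nonneg_right hJR (by positivity)
    have h4 := mul_le_mul_of_nonneg_left h2 (by positivity : 0 ≤ 2 * (G : ℝ))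
    calc _ ≤ R * ((G : ℝ) * N * K) + 2 * (G : ℝ) * ((I : ℝ) * (3 * √Q)) := add_le_add h3 h4
      _ = _ := by ring
  have hmain : R * W ^ 2 ≤ 12 * E * G * (I * √Q) := by
    have h1 : R * W ^ 2 ≤ E * (R * ((G : ℝ) * N * K) + 6 * G * (I * √Q)) :=
      hgr.trans (mul_le_mul_of_nonneg_left hsum hE'.le)
    have h2 : E * (R * ((G : ℝ) * N * K)) ≤ R * W ^ 2 / 2 := by
      have h3 : E * K * ((G : ℝ) * N) ≤ E * K * (c₀ * W ^ 2) := mul_le_mul_of_nonneg_left hGN (by positivity)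
      have h4 : E * K * (c₀ * W ^ 2) = W ^ 2 / 2 := by
        rw [hc₀]
        field_simp
      rw [h4] at h3
      calc E * (R * ((G : ℝ) * N * K)) = R * (E * K * ((G : ℝ) * N)) := by ring
        _ ≤ R * (W ^ 2 / 2) := mul_le_mul_of_nonneg_left h3 hR0
        _ = R * W ^ 2 / 2 := by ring
    have h5 : E * (R * ((G : ℝ) * N * K) + 6 * G * (I * √Q)) = E * (R * ((G : ℝ) * N * K)) + 6 * E * G * (I * √Q) := by ring
    rw [h5] at h1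
    linarith
  -- squares
  have hsq : R ^ 2 * W ^ 4 ≤ 144 * E ^ 2 * (G : ℝ) ^ 2 * (I : ℝ) ^ 2 * Q := by
    have h1 := pow_le_pow_left₀ (by positivity) hmain 2
    have h2 : (12 * E * G * (I * √Q)) ^ 2 = 144 * E ^ 2 * (G : ℝ) ^ 2 * (I : ℝ) ^ 2 * (√Q) ^ 2 := by ring
    rw [h2, Real.sq_sqrt hQ0] at h1
    calc R ^ 2 * W ^ 4 = (R * W ^ 2) ^ 2 := by ring
      _ ≤ _ := h1
  have hfin : R ^ 2 ≤ V * T ^ ε * T ^ ε * (2 * R * (T ^ ε) ^ 3 * (1 + T / (G : ℝ) ^ 3) + 8 * R ^ 2 * T ^ (-(7 / 2 * ε))) := by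
    obtain ⟨Z, hZ⟩ : ∃ Z, Z = 2 * R * (T ^ ε) ^ 3 * (1 + T / (G : ℝ) ^ 3) + 8 * R ^ 2 * T ^ (-(7 / 2 * ε)) := ⟨_, rfl⟩
    have hZ0 : 0 ≤ Z := by rw [hZ]; positivity
    rw [← hZ] at hQ ⊢
    have hW4 : 0 < W ^ 4 := by positivity
    have h1 : ((G : ℝ) * N) ^ 2 ≤ (c₀ * W ^ 2) ^ 2 := pow_le_pow_left₀ (by positivity) hGN 2
    have h2 : 144 * E ^ 2 * (G : ℝ) ^ 2 * (I : ℝ) ^ 2 * Q ≤ 144 * E ^ 2 * (G : ℝ) ^ 2 * ((1 + 4 / ε) ^ 2 * T ^ ε) * Q :=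
      mul_le_mul_of_nonneg_right (mul_le_mul_of_nonneg_left hI3 (by positivity)) hQ0
    have h3 : 144 * E ^ 2 * (G : ℝ) ^ 2 * ((1 + 4 / ε) ^ 2 * T ^ ε) * Q =
        (144 * E ^ 2 * (1 + 4 / ε) ^ 2 * D) * (T ^ ε * T ^ ε * Z) * ((G : ℝ) * N) ^ 2 := by
      rw [hQ]
      ring
    have h4 : (144 * E ^ 2 * (1 + 4 / ε) ^ 2 * D) * (T ^ ε * T ^ ε * Z) * ((G : ℝ) * N) ^ 2 ≤
        (144 * E ^ 2 * (1 + 4 / ε) ^ 2 * D) * (T ^ ε * T ^ ε * Z) * (c₀ * W ^ 2) ^ 2 :=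
      mul_le_mul_of_nonneg_left h1 (by positivity)
    have h5 : (144 * E ^ 2 * (1 + 4 / ε) ^ 2 * D) * (T ^ ε * T ^ ε * Z) * (c₀ * W ^ 2) ^ 2 =
        V * T ^ ε * T ^ ε * Z * W ^ 4 := by
      rw [hV]
      ring
    have h6 : R ^ 2 * W ^ 4 ≤ V * T ^ ε * T ^ ε * Z * W ^ 4 := by
      calc R ^ 2 * W ^ 4 ≤ _ := hsq
        _ ≤ _ := h2
        _ = _ := h3
        _ ≤ _ := h4
        _ = _ := h5
    exact le_of_mul_le_mul_right h6 hW4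
  have he1 : T ^ ε * T ^ ε * T ^ (-(7 / 2 * ε)) = T ^ (-(3 / 2 * ε)) := by
    rw [← Real.rpow_add hT', ← Real.rpow_add hT']
    congr 1
    ring
  have he2 : T ^ ε * T ^ ε * (T ^ ε) ^ 3 ≤ T ^ (6 * ε) := by
    have : T ^ ε * T ^ ε * (T ^ ε) ^ 3 = T ^ (5 * ε) := by
      rw [← Real.rpow_natCast (T ^ ε) 3, ← Real.rpow_mul hT'.le, ← Real.rpow_add hT', ← Real.rpow_add hT']
      congr 1
      push_cast
      ring
    rw [this]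
    exact Real.rpow_le_rpow_of_exponent_le hT (by linarith)
  have hfin2 : R ^ 2 ≤ 2 * V * R * (T ^ (6 * ε) * (1 + T / (G : ℝ) ^ 3)) + R ^ 2 / 2 := by
    have h1 : V * T ^ ε * T ^ ε * (2 * R * (T ^ ε) ^ 3 * (1 + T / (G : ℝ) ^ 3) + 8 * R ^ 2 * T ^ (-(7 / 2 * ε))) =
        2 * V * R * ((T ^ ε * T ^ ε * (T ^ ε) ^ 3) * (1 + T / (G : ℝ) ^ 3)) +
        R ^ 2 * (8 * V * (T ^ ε * T ^ ε * T ^ (-(7 / 2 * ε)))) := by ring
    rw [h1, he1] at hfin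
    have h2 : 2 * V * R * ((T ^ ε * T ^ ε * (T ^ ε) ^ 3) * (1 + T / (G : ℝ) ^ 3)) ≤
        2 * V * R * (T ^ (6 * ε) * (1 + T / (G : ℝ) ^ 3)) :=
      mul_le_mul_of_nonneg_left (mul_le_mul_of_nonneg_right he2 (by positivity)) (by positivity)
    have h3 : R ^ 2 * (8 * V * T ^ (-(3 / 2 * ε))) ≤ R ^ 2 * (1 / 2) := mul_le_mul_of_nonneg_left hbig (by positivity)
    linarith
  have hlast : R ≤ 4 * V * (T ^ (6 * ε) * (1 + T / (G : ℝ) ^ 3)) := by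
    rcases hR0.eq_or_lt with h0 | h0
    · rw [← h0]
      positivity
    · have h1 : R * R ≤ R * (4 * V * (T ^ (6 * ε) * (1 + T / (G : ℝ) ^ 3))) := by
        have e : R * R = R ^ 2 := by ring
        rw [e]
        linarith
      exact le_of_mul_le_mul_left h1 h0
  rw [hR] at hlast
  refine hlast.trans ?_
  have h7 : 0 ≤ (16 * V) ^ (2 / (3 * ε)) := by positivity
  have h8 : 0 ≤ T ^ (6 * ε) * (1 + T / (G : ℝ) ^ 3) := by positivity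
  calc 4 * V * (T ^ (6 * ε) * (1 + T / (G : ℝ) ^ 3)) ≤
      (4 * V + 3 * (16 * V) ^ (2 / (3 * ε))) * (T ^ (6 * ε) * (1 + T / (G : ℝ) ^ 3)) :=
        mul_le_mul_of_nonneg_right (by linarith) h8
    _ = _ := by ring

end Pool.Agent.Lib.TW
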