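import Pool.Agent.Lib.TW.Sx5
import Pool.Agent.Lib.TW.Qf
import Pool.Agent.Lib.TW.Pa
import Pool.Agent.Lib.TW.Ds

/-!
# TW / Xa5: the mean square of the main terms, a short window
-/

set_option autoImplicit false

open MeasureTheory
open scoped FourierTransform

namespace Pool.Agent.Lib.TW

private theorem xa_term {Y : ℝ} (hY : 0 < Y) {b : ℝ → ℂ} (hb : ContDiff ℝ 1 b) (hs : ∀ y, b y ≠ 0 → Y / 8 ≤ y ∧ y ≤ 8 * Y) (t : ℝ) :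
    ContDiff ℝ 1 (fun y : ℝ => b y * ch (1 + 1 / y) (-t)) := by
  rw [contDiff_iff_contDiffAt]
  intro y
  by_cases hy : Y / 8 ≤ y ∧ y ≤ 8 * Y
  · have hy0 : 0 < y := by linarith [hy.1]
    refine hb.contDiffAt.mul ?_
    unfold ch
    have h1 : ContDiffAt ℝ 1 (fun y : ℝ => -t * Real.log (1 + 1 / y)) y := by
      refine contDiffAt_const.mul (ContDiffAt.log ?_ (by positivity))
      refine contDiffAt_const.add ?_
      exact contDiffAt_const.div contDiffAt_id hy0.ne'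
    exact ((Complex.ofRealCLM.contDiff.contDiffAt.comp y h1).mul contDiffAt_const).cexp
  · have h4 : (Set.Icc (Y / 8) (8 * Y))ᶜ ∈ nhds y := isClosed_Icc.isOpen_compl.mem_nhds hy
    refine (contDiffAt_const (c := (0 : ℂ))).congr_of_eventuallyEq ?_
    filter_upwards [h4] with z hz
    have : b z = 0 := by
      by_contra h
      exact hz (hs z h)
    rw [this, zero_mul]

private theorem xa_sum {b : ℝ → ℂ} (J : Finset ℕ) (c : ℕ → ℂ) (τ : ℕ → ℝ) :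
    (fun y => b y * PP J c τ y) = fun y => ∑ j ∈ J, c j * (b y * ch (1 + 1 / y) (-(τ j))) := by
  funext y
  unfold PP
  rw [Finset.mul_sum]
  refine Finset.sum_congr rfl fun j _ => ?_
  ring

private theorem xa_fo {Y : ℝ} (hY : 0 < Y) {b : ℝ → ℂ} (hb : ContDiff ℝ 1 b) (hs : ∀ y, b y ≠ 0 → Y / 8 ≤ y ∧ y ≤ 8 * Y)
    (J : Finset ℕ) (c : ℕ → ℂ) (τ : ℕ → ℝ) (ν : ℝ) :
    𝓕 (fun y => b y * PP J c τ y) ν = ∑ j ∈ J, c j * Fo b (τ j) ν := by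
  have hint : ∀ j ∈ J, Integrable (fun v : ℝ => Complex.exp (((-2 * Real.pi * v * ν : ℝ) : ℂ) * Complex.I) •
      (b v * ch (1 + 1 / v) (-(τ j)))) := by
    intro j _
    refine Continuous.integrable_of_hasCompactSupport ?_
      (HasCompactSupport.intro (isCompact_Icc (a := Y / 8) (b := 8 * Y)) fun y hy => ?_)
    · have h1 : Continuous fun v : ℝ => Complex.exp (((-2 * Real.pi * v * ν : ℝ) : ℂ) * Complex.I) := by fun_prop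
      exact h1.smul (xa_term hY hb hs (τ j)).continuous
    · have : b y = 0 := by
        by_contra h
        exact hy (hs y h)
      simp [this]
  rw [xa_sum, Real.fourier_real_eq_integral_exp_smul]
  unfold Fo
  have e : ∀ v : ℝ, Complex.exp (((-2 * Real.pi * v * ν : ℝ) : ℂ) * Complex.I) • ∑ j ∈ J, c j * (b v * ch (1 + 1 / v) (-(τ j))) =
      ∑ j ∈ J, c j * (Complex.exp (((-2 * Real.pi * v * ν : ℝ) : ℂ) * Complex.I) • (b v * ch (1 + 1 / v) (-(τ j)))) := by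
    intro v
    rw [Finset.smul_sum]
    refine Finset.sum_congr rfl fun j _ => ?_
    simp only [smul_eq_mul]
    ring
  rw [integral_congr_ae (Filter.Eventually.of_forall e), integral_finsetSum _ fun j hj => (hint j hj).const_mul _]
  refine Finset.sum_congr rfl fun j _ => ?_
  rw [integral_const_mul, Real.fourier_real_eq_integral_exp_smul]

/-- PROOF. `f = b · PP J c τ`, `τ j = jG`, `𝓕 f (ν) = sum_j c_j Fo b τ_j ν`; by `sx5` the sum of the main terms differs from it by at most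
`|J| C B Y (T/Y)^(-3/5)`, and `|near| ≤ 10⁴T/Y²`: `sum ‖main‖² ≤ 2 sum_(ν ∈ ℤ) ‖𝓕 f (ν)‖² + 2 · 10⁴ (T/Y²) |J|² C² B² Y² (T/Y)^(-6/5)`, the last is
`C |J|² B² Y^(6/5) T^(-1/5)`.  `parseval` (`L = ⌈8Y⌉`), `qq_f` and `pair_sum` with `T₀ = U`. -/
theorem xa5 {ε : ℝ} (hε : 0 < ε) : ∃ C : ℝ, 0 ≤ C ∧ ∀ Y : ℝ, 1 ≤ Y → ∀ T : ℝ, Y ^ 2 ≤ T → ∀ (B : ℝ) (b : ℝ → ℂ), Am2 Y B b →
    ∀ G : ℕ, 1 ≤ G → ∀ U : ℝ, 0 ≤ U → U ≤ 2 * T → ∀ (J : Finset ℕ) (c : ℕ → ℂ), (∀ j, ‖c j‖ ≤ 1) →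
    (∀ j ∈ J, T / 2 ≤ (j : ℝ) * G ∧ (j : ℝ) * G ≤ 2 * T) → (∀ j ∈ J, ∀ l ∈ J, |(j : ℝ) * G - (l : ℝ) * G| ≤ U) →
    ∑ ν ∈ near T Y, ‖∑ j ∈ J, c j * Mn b ((j : ℝ) * G) ν‖ ^ 2 ≤ C * T ^ ε * B ^ 2 * ((J.card : ℝ) * (Y + Y ^ 2 / G) +
      (J.card : ℝ) ^ 2 * (Y ^ (5 / 2 : ℝ) * U ^ (1 / 2 : ℝ) / T + Y ^ 3 / T + Y ^ (6 / 5 : ℝ) / T ^ (1 / 5 : ℝ))) := by
  obtain ⟨C1, hC1, h1⟩ := sx5
  obtain ⟨C2, hC2, h2⟩ := qq_f
  obtain ⟨C3, hC3, h3⟩ := pair_sum hε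
  refine ⟨2 * (C2 * C3) + 20000 * C1 ^ 2, by positivity, fun Y hY T hT B b hb G hG U hU0 hU J c hc hτ hd => ?_⟩
  have hY0 : 0 < Y := by linarith
  have hYT : Y ≤ T := by nlinarith
  have hT1 : 1 ≤ T := by linarith
  have hT0 : 0 < T := by linarith
  have hb1 : ContDiff ℝ 1 b := hb.1.of_le (by norm_num)
  have hB : 0 ≤ B := (norm_nonneg _).trans (hb.2.2.1 0)
  have hAm1 : Am1 Y B b := ⟨hb1, hb.2.1, hb.2.2.1, hb.2.2.2.1⟩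
  have hG0 : (0 : ℝ) < G := by exact_mod_cast hG
  obtain ⟨τ, hτd⟩ : ∃ τ : ℕ → ℝ, ∀ j, τ j = (j : ℝ) * G := ⟨fun j => (j : ℝ) * G, fun _ => rfl⟩
  obtain ⟨E, hE⟩ : ∃ E : ℝ, E = C1 * B * Y * (T / Y) ^ (-(3 / 5) : ℝ) := ⟨_, rfl⟩
  have hE0 : 0 ≤ E := by rw [hE]; positivity
  obtain ⟨n, hn⟩ : ∃ n : ℝ, n = (J.card : ℝ) := ⟨_, rfl⟩
  have hn0 : 0 ≤ n := by rw [hn]; positivity
  -- the Fourier transform
  have hft : ∀ ν ∈ near T Y, ‖∑ j ∈ J, c j * Mn b ((j : ℝ) * G) ν‖ ^ 2 ≤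
      2 * ‖𝓕 (fun y => b y * PP J c τ y) (ν : ℝ)‖ ^ 2 + 2 * (n * E) ^ 2 := by
    intro ν hν
    have hν' := Finset.mem_Ico.1 hν
    have g1 : T / (10000 * Y ^ 2) ≤ (ν : ℝ) := (Nat.le_ceil _).trans (by exact_mod_cast hν'.1)
    have g2 : (ν : ℝ) ≤ 10000 * T / Y ^ 2 := by
      refine le_trans ?_ (Nat.floor_le (by positivity))
      exact_mod_cast hν'.2.le
    rw [xa_fo hY0 hb1 hb.2.1]
    have g3 : ‖∑ j ∈ J, c j * Mn b ((j : ℝ) * G) ν - ∑ j ∈ J, c j * Fo b (τ j) ν‖ ≤ n * E := by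
      rw [← Finset.sum_sub_distrib]
      refine (norm_sum_le _ _).trans ?_
      rw [hn, ← nsmul_eq_mul]
      refine Finset.sum_le_card_nsmul _ _ _ fun j hj => ?_
      rw [← mul_sub, norm_mul, hτd]
      have g4 := h1 Y hY B b hAm1 T hYT ((j : ℝ) * G) (hτ j hj).1 (hτ j hj).2 ν g1 g2
      rw [← hE, norm_sub_rev] at g4
      calc ‖c j‖ * _ ≤ 1 * E := mul_le_mul (hc j) g4 (norm_nonneg _) zero_le_one
        _ = E := one_mul _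
    have g5 : ‖∑ j ∈ J, c j * Mn b ((j : ℝ) * G) ν‖ ≤ ‖∑ j ∈ J, c j * Fo b (τ j) ν‖ + n * E := by
      have := norm_le_norm_add_norm_sub' (∑ j ∈ J, c j * Mn b ((j : ℝ) * G) ν) (∑ j ∈ J, c j * Fo b (τ j) ν)
      linarith
    have g6 := pow_le_pow_left₀ (norm_nonneg _) g5 2
    have g7 : (‖∑ j ∈ J, c j * Fo b (τ j) ν‖ + n * E) ^ 2 ≤ 2 * ‖∑ j ∈ J, c j * Fo b (τ j) ν‖ ^ 2 + 2 * (n * E) ^ 2 := by
      nlinarith [sq_nonneg (‖∑ j ∈ J, c j * Fo b (τ j) ν‖ - n * E)]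
    exact g6.trans g7
  -- Parseval
  have hcd : ContDiff ℝ 1 (fun y => b y * PP J c τ y) := by
    rw [xa_sum]
    exact ContDiff.sum fun j _ => contDiff_const.mul (xa_term hY0 hb1 hb.2.1 (τ j))
  have hsupp : ∀ y, (fun y => b y * PP J c τ y) y ≠ 0 → 0 < y ∧ y ≤ (⌈8 * Y⌉₊ : ℕ) := by
    intro y hy
    have hby : b y ≠ 0 := left_ne_zero_of_mul hy
    have := hb.2.1 y hby
    exact ⟨by linarith [this.1], this.2.trans (Nat.le_ceil _)⟩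
  obtain ⟨hsm, htl⟩ := parseval hcd hsupp
  have hpar : ∑ ν ∈ near T Y, ‖𝓕 (fun y => b y * PP J c τ y) (ν : ℝ)‖ ^ 2 ≤ QQ ⌈8 * Y⌉₊ (fun y => b y * PP J c τ y) := by
    refine le_trans ?_ htl
    have e1 : ∑ ν ∈ near T Y, ‖𝓕 (fun y => b y * PP J c τ y) (ν : ℝ)‖ ^ 2 =
        ∑ m ∈ (near T Y).map Nat.castEmbedding, ‖𝓕 (fun y => b y * PP J c τ y) ((m : ℤ) : ℝ)‖ ^ 2 := by
      rw [Finset.sum_map]
      refine Finset.sum_congr rfl fun ν _ => ?_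
      simp
    rw [e1]
    exact hsm.sum_le_tsum _ fun m _ => by positivity
  have hq := (h2 Y (by linarith) B b hb T hT1 J c τ hc (fun j hj => by rw [hτd]; exact hτ j hj) ⌈8 * Y⌉₊).1
  have hp := h3 T hT1 Y (by linarith) hYT G hG U hU0 hU J hd
  simp only [hτd] at hq
  rw [← hn] at hp ⊢
  obtain ⟨S, hS⟩ : ∃ S : ℝ, S = ∑ j ∈ J, ∑ l ∈ J, SS Y T ((j : ℝ) * G - (l : ℝ) * G) := ⟨_, rfl⟩
  rw [← hS] at hq hp
  -- the number of frequencies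
  have hcard : ((near T Y).card : ℝ) ≤ 10000 * T / Y ^ 2 := by
    unfold near
    rw [Nat.card_Ico]
    refine le_trans ?_ (Nat.floor_le (by positivity))
    exact_mod_cast Nat.sub_le _ _
  have hEE : 10000 * T / Y ^ 2 * (2 * (n * E) ^ 2) = 20000 * C1 ^ 2 * B ^ 2 * (n ^ 2 * (Y ^ (6 / 5 : ℝ) / T ^ (1 / 5 : ℝ))) := by
    have k1 : ((T / Y) ^ (-(3 / 5) : ℝ)) ^ 2 = Y ^ (6 / 5 : ℝ) / T ^ (6 / 5 : ℝ) := by
      rw [← Real.rpow_natCast, ← Real.rpow_mul (by positivity), Real.div_rpow hT0.le hY0.le]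
      norm_num
      rw [Real.rpow_neg hT0.le, Real.rpow_neg hY0.le]
      field_simp
    have k2 : T / T ^ (6 / 5 : ℝ) = 1 / T ^ (1 / 5 : ℝ) := by
      have : T ^ (6 / 5 : ℝ) = T * T ^ (1 / 5 : ℝ) := by
        rw [show (6 / 5 : ℝ) = 1 + 1 / 5 by norm_num, Real.rpow_add hT0, Real.rpow_one]
      rw [this]
      field_simp
    have k3 : 10000 * T / Y ^ 2 * (2 * (n * E) ^ 2) =
        20000 * C1 ^ 2 * B ^ 2 * n ^ 2 * (T * ((T / Y) ^ (-(3 / 5) : ℝ)) ^ 2) := by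
      rw [hE]
      field_simp
      ring
    rw [k3, k1]
    have k4 : T * (Y ^ (6 / 5 : ℝ) / T ^ (6 / 5 : ℝ)) = Y ^ (6 / 5 : ℝ) * (T / T ^ (6 / 5 : ℝ)) := by ring
    rw [k4, k2]
    ring
  have hfin : ∑ ν ∈ near T Y, ‖∑ j ∈ J, c j * Mn b ((j : ℝ) * G) ν‖ ^ 2 ≤
      2 * (C2 * B ^ 2 * S) + 20000 * C1 ^ 2 * B ^ 2 * (n ^ 2 * (Y ^ (6 / 5 : ℝ) / T ^ (1 / 5 : ℝ))) := by
    refine (Finset.sum_le_sum hft).trans ?_
    rw [Finset.sum_add_distrib, ← Finset.mul_sum, Finset.sum_const, nsmul_eq_mul, ← hEE]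
    refine add_le_add (mul_le_mul_of_nonneg_left (hpar.trans hq) (by norm_num)) ?_
    exact mul_le_mul_of_nonneg_right hcard (by positivity)
  refine hfin.trans ?_
  have hTe : 1 ≤ T ^ ε := Real.one_le_rpow hT1 hε.le
  obtain ⟨P, hP⟩ : ∃ P : ℝ, P = n * (Y + Y ^ 2 / G) + n ^ 2 * (Y ^ (5 / 2 : ℝ) * U ^ (1 / 2 : ℝ) / T + Y ^ 3 / T) := ⟨_, rfl⟩
  obtain ⟨Q, hQ⟩ : ∃ Q : ℝ, Q = n ^ 2 * (Y ^ (6 / 5 : ℝ) / T ^ (1 / 5 : ℝ)) := ⟨_, rfl⟩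
  have hP0 : 0 ≤ P := by rw [hP]; positivity
  have hQ0 : 0 ≤ Q := by rw [hQ]; positivity
  have hPQ : n * (Y + Y ^ 2 / G) + n ^ 2 * (Y ^ (5 / 2 : ℝ) * U ^ (1 / 2 : ℝ) / T + Y ^ 3 / T + Y ^ (6 / 5 : ℝ) / T ^ (1 / 5 : ℝ)) =
      P + Q := by
    rw [hP, hQ]
    ring
  rw [hPQ, ← hQ]
  rw [← hP] at hp
  have m1 : 2 * (C2 * B ^ 2 * S) ≤ 2 * (C2 * C3) * T ^ ε * B ^ 2 * P := by
    have : 2 * (C2 * B ^ 2 * S) ≤ 2 * (C2 * B ^ 2 * (C3 * T ^ ε * P)) := by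
      have : C2 * B ^ 2 * S ≤ C2 * B ^ 2 * (C3 * T ^ ε * P) := mul_le_mul_of_nonneg_left hp (by positivity)
      linarith
    refine this.trans (le_of_eq (by ring))
  have m2 : 20000 * C1 ^ 2 * B ^ 2 * Q ≤ 20000 * C1 ^ 2 * T ^ ε * B ^ 2 * Q := by
    have : 0 ≤ 20000 * C1 ^ 2 * B ^ 2 * Q := by positivity
    nlinarith
  have m3 : 0 ≤ 2 * (C2 * C3) * T ^ ε * B ^ 2 * Q := by positivity
  have m4 : 0 ≤ 20000 * C1 ^ 2 * T ^ ε * B ^ 2 * P := by positivity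
  have m5 : (2 * (C2 * C3) + 20000 * C1 ^ 2) * T ^ ε * B ^ 2 * (P + Q) = 2 * (C2 * C3) * T ^ ε * B ^ 2 * P +
      2 * (C2 * C3) * T ^ ε * B ^ 2 * Q + 20000 * C1 ^ 2 * T ^ ε * B ^ 2 * P + 20000 * C1 ^ 2 * T ^ ε * B ^ 2 * Q := by ring
  rw [m5]
  linarith

end Pool.Agent.Lib.TW
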