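import Pool.Agent.Lib.TW.Xa5
import Pool.Agent.Lib.TW.Sm5

/-!
# TW / Xb5: the mean square of the main terms
-/

set_option autoImplicit false

open MeasureTheory
open scoped FourierTransform

namespace Pool.Agent.Lib.TW

open Finset in
/-- the Gram expansion -/
private theorem xb5_gram (N K : Finset ℕ) (v : ℕ → ℕ → ℂ) :
    ((∑ ν ∈ N, ‖∑ j ∈ K, v j ν‖ ^ 2 : ℝ) : ℂ) = ∑ j ∈ K, ∑ l ∈ K, ∑ ν ∈ N, v j ν * (starRingEnd ℂ) (v l ν) := by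
  push_cast
  have h : ∀ ν ∈ N, ((‖∑ j ∈ K, v j ν‖ : ℝ) : ℂ) ^ 2 = ∑ j ∈ K, ∑ l ∈ K, v j ν * (starRingEnd ℂ) (v l ν) := by
    intro ν _
    rw [← Complex.mul_conj', map_sum, sum_mul_sum]
  rw [sum_congr rfl h, sum_comm]
  refine sum_congr rfl fun j _ => ?_
  rw [sum_comm]

open Finset in
/-- splitting into blocks -/
private theorem xb5_split (N K : Finset ℕ) (v : ℕ → ℕ → ℂ) (f : ℕ → ℕ) (D : ℝ)
    (hD : ∀ j ∈ K, ∀ l ∈ K, f j ≠ f l → ‖∑ ν ∈ N, v j ν * (starRingEnd ℂ) (v l ν)‖ ≤ D) (hD0 : 0 ≤ D) :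
    ∑ ν ∈ N, ‖∑ j ∈ K, v j ν‖ ^ 2 ≤
      ∑ i ∈ K.image f, ∑ ν ∈ N, ‖∑ j ∈ K.filter (fun j => f j = i), v j ν‖ ^ 2 + (K.card : ℝ) ^ 2 * D := by
  classical
  have h1 : ((∑ ν ∈ N, ‖∑ j ∈ K, v j ν‖ ^ 2 : ℝ) : ℂ) =
      ((∑ i ∈ K.image f, ∑ ν ∈ N, ‖∑ j ∈ K.filter (fun j => f j = i), v j ν‖ ^ 2 : ℝ) : ℂ) +
        ∑ j ∈ K, ∑ l ∈ K.filter (fun l => ¬ f l = f j), ∑ ν ∈ N, v j ν * (starRingEnd ℂ) (v l ν) := by
    rw [xb5_gram, Complex.ofReal_sum]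
    have h2 : ∀ i ∈ K.image f, ((∑ ν ∈ N, ‖∑ j ∈ K.filter (fun j => f j = i), v j ν‖ ^ 2 : ℝ) : ℂ) =
        ∑ j ∈ K.filter (fun j => f j = i), ∑ l ∈ K.filter (fun l => f l = f j), ∑ ν ∈ N, v j ν * (starRingEnd ℂ) (v l ν) := by
      intro i _
      rw [xb5_gram]
      refine sum_congr rfl fun j hj => ?_
      rw [(mem_filter.1 hj).2]
    rw [sum_congr rfl h2, sum_fiberwise_of_maps_to (fun j hj => mem_image_of_mem f hj), ← sum_add_distrib]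
    refine sum_congr rfl fun j _ => ?_
    rw [sum_filter_add_sum_filter_not]
  have h3 : ‖∑ j ∈ K, ∑ l ∈ K.filter (fun l => ¬ f l = f j), ∑ ν ∈ N, v j ν * (starRingEnd ℂ) (v l ν)‖ ≤ (K.card : ℝ) ^ 2 * D := by
    calc _ ≤ ∑ j ∈ K, ∑ l ∈ K.filter (fun l => ¬ f l = f j), ‖∑ ν ∈ N, v j ν * (starRingEnd ℂ) (v l ν)‖ :=
          (norm_sum_le _ _).trans (sum_le_sum fun j _ => norm_sum_le _ _)
      _ ≤ ∑ j ∈ K, ∑ l ∈ K.filter (fun l => ¬ f l = f j), D := sum_le_sum fun j hj => sum_le_sum fun l hl => by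
          obtain ⟨h4, h5⟩ := mem_filter.1 hl
          exact hD j hj l h4 fun h => h5 h.symm
      _ ≤ ∑ j ∈ K, ∑ l ∈ K, D := sum_le_sum fun j _ => sum_le_sum_of_subset_of_nonneg (filter_subset _ _) fun _ _ _ => hD0
      _ = (K.card : ℝ) ^ 2 * D := by
          rw [sum_const, sum_const, nsmul_eq_mul, nsmul_eq_mul]
          ring
  have h4 : ∑ ν ∈ N, ‖∑ j ∈ K, v j ν‖ ^ 2 = ‖((∑ ν ∈ N, ‖∑ j ∈ K, v j ν‖ ^ 2 : ℝ) : ℂ)‖ := by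
    rw [Complex.norm_real, Real.norm_eq_abs, abs_of_nonneg]
    exact sum_nonneg fun _ _ => sq_nonneg _
  have h5 : ‖((∑ i ∈ K.image f, ∑ ν ∈ N, ‖∑ j ∈ K.filter (fun j => f j = i), v j ν‖ ^ 2 : ℝ) : ℂ)‖ =
      ∑ i ∈ K.image f, ∑ ν ∈ N, ‖∑ j ∈ K.filter (fun j => f j = i), v j ν‖ ^ 2 := by
    rw [Complex.norm_real, Real.norm_eq_abs, abs_of_nonneg]
    exact sum_nonneg fun _ _ => sum_nonneg fun _ _ => sq_nonneg _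
  rw [h4, h1]
  refine (norm_add_le _ _).trans ?_
  rw [h5]
  linarith

/-- same block -/
private theorem xb5_same {U x y : ℝ} (hU : 0 < U) (hx : 0 ≤ x) (hy : 0 ≤ y) (h : ⌊x / U⌋₊ = ⌊y / U⌋₊) : |x - y| ≤ U := by
  have h1 := Nat.floor_le (div_nonneg hx hU.le)
  have h2 := Nat.lt_floor_add_one (x / U)
  have h3 := Nat.floor_le (div_nonneg hy hU.le)
  have h4 := Nat.lt_floor_add_one (y / U)
  rw [h] at h1 h2
  have h5 : x = x / U * U := by field_simp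
  have h6 : y = y / U * U := by field_simp
  have h7 : |x / U - y / U| ≤ 1 := by
    rw [abs_le]
    constructor <;> linarith
  calc |x - y| = |x / U - y / U| * U := by
        rw [← abs_of_pos hU, ← abs_mul, abs_of_pos hU]
        congr 1
        rw [sub_mul, ← h5, ← h6]
    _ ≤ 1 * U := mul_le_mul_of_nonneg_right h7 hU.le
    _ = U := one_mul U

/-- distant blocks -/
private theorem xb5_far {U x y : ℝ} (hU : 0 < U) (hx : 0 ≤ x) (hy : 0 ≤ y) (h : ⌊y / U⌋₊ + 2 ≤ ⌊x / U⌋₊) : U ≤ x - y := by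
  have h1 := Nat.floor_le (div_nonneg hx hU.le)
  have h4 := Nat.lt_floor_add_one (y / U)
  have h5 : (⌊y / U⌋₊ : ℝ) + 2 ≤ (⌊x / U⌋₊ : ℝ) := by exact_mod_cast h
  have h6 : y / U + 1 ≤ x / U := by linarith
  rw [← sub_nonneg]
  have h7 : (y / U + 1) * U ≤ x / U * U := mul_le_mul_of_nonneg_right h6 hU.le
  rw [add_mul, div_mul_cancel₀ _ hU.ne', div_mul_cancel₀ _ hU.ne'] at h7
  linarith

private theorem xb5_apart {U x y : ℝ} (hU : 0 < U) (hx : 0 ≤ x) (hy : 0 ≤ y) (h : ⌊x / U⌋₊ ≠ ⌊y / U⌋₊)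
    (hp : ⌊x / U⌋₊ % 2 = ⌊y / U⌋₊ % 2) : U ≤ |x - y| := by
  rcases lt_or_gt_of_ne h with h1 | h1
  · have h2 := xb5_far hU hy hx (by omega : ⌊x / U⌋₊ + 2 ≤ ⌊y / U⌋₊)
    rw [abs_sub_comm]
    exact h2.trans (le_abs_self _)
  · have h2 := xb5_far hU hx hy (by omega : ⌊y / U⌋₊ + 2 ≤ ⌊x / U⌋₊)
    exact h2.trans (le_abs_self _)

/-- the bound of one pair -/
private theorem xb5_tb {T Y U T₀ u : ℝ} (hY : 1 ≤ Y) (hT : 1 ≤ T) (hU : 1 ≤ U) (h1 : U ≤ |u|) (h2 : |u| ≤ T₀) :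
    tb T Y u ≤ Y ^ (11 / 6 : ℝ) * T₀ ^ (1 / 6 : ℝ) / T ^ (1 / 2 : ℝ) + Y ^ (7 / 6 : ℝ) / U ^ (1 / 6 : ℝ) := by
  unfold tb
  have h3 : |u| ^ (1 / 6 : ℝ) ≤ T₀ ^ (1 / 6 : ℝ) := Real.rpow_le_rpow (abs_nonneg u) h2 (by norm_num)
  have h4 : U ^ (1 / 6 : ℝ) ≤ |u| ^ (1 / 6 : ℝ) := Real.rpow_le_rpow (by linarith) h1 (by norm_num)
  have h5 : 0 < U ^ (1 / 6 : ℝ) := Real.rpow_pos_of_pos (by linarith) _
  have h6 : 0 < T ^ (1 / 2 : ℝ) := Real.rpow_pos_of_pos (by linarith) _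
  have h7 : 0 ≤ Y ^ (11 / 6 : ℝ) := Real.rpow_nonneg (by linarith) _
  have h8 : 0 ≤ Y ^ (7 / 6 : ℝ) := Real.rpow_nonneg (by linarith) _
  refine add_le_add ?_ ?_
  · exact div_le_div_of_nonneg_right (mul_le_mul_of_nonneg_left h3 h7) h6.le
  · exact div_le_div_of_nonneg_left h8 h5 h4

/-- PROOF. `J_i = {j ∈ J : ⌊jG/U⌋ = i}`, `S_i = sum_(j ∈ J_i) c_j Mn`: same `i`: distance `≤ U`; `|i - i'| ≥ 2`: distance `≥ U`.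
`‖sum_i S_i‖² = sum_(i,i') S_i conj S_i'`; the pairs with `|i - i'| ≤ 1` give at most `3 sum_i ‖S_i‖²` and `xa5` for every `J_i`
(`sum |J_i| = |J|`, `sum |J_i|² ≤ |J|²`); the others are sums over pairs `(j, l)` with `U ≤ |jG - lG| ≤ T₀`, each `≤ C B² tb` by `sm5`
(`near` sum inside), `tb ≤ Y^(11/6) T₀^(1/6)/T^(1/2) + Y^(7/6)/U^(1/6)`. -/
theorem xb5 {ε : ℝ} (hε : 0 < ε) : ∃ C : ℝ, 0 ≤ C ∧ ∀ Y : ℝ, 1 ≤ Y → ∀ T : ℝ, Y ^ 2 ≤ T → ∀ (B : ℝ) (b : ℝ → ℂ), Am2 Y B b →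
    ∀ G : ℕ, 1 ≤ G → ∀ U : ℝ, 1 ≤ U → U ≤ 2 * T → ∀ T₀ : ℝ, T₀ ≤ 2 * T → ∀ (J : Finset ℕ) (c : ℕ → ℂ), (∀ j, ‖c j‖ ≤ 1) →
    (∀ j ∈ J, T / 2 ≤ (j : ℝ) * G ∧ (j : ℝ) * G ≤ 2 * T) → (∀ j ∈ J, ∀ l ∈ J, |(j : ℝ) * G - (l : ℝ) * G| ≤ T₀) →
    ∑ ν ∈ near T Y, ‖∑ j ∈ J, c j * Mn b ((j : ℝ) * G) ν‖ ^ 2 ≤ C * T ^ ε * B ^ 2 * rb T Y G U T₀ J.card := by
  classical
  obtain ⟨Ca, hCa, hxa⟩ := xa5 hε
  obtain ⟨Cm, hCm, hsm⟩ := sm5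
  refine ⟨4 * (Ca + Cm), by positivity, fun Y hY T hYT B b hb G hG U hU hUT T₀ hT₀ J c hc hJ hJT => ?_⟩
  rcases J.eq_empty_or_nonempty with hJe | ⟨j0, hj0⟩
  · subst hJe
    simp [rb]
  have hT0 : 0 ≤ T₀ := by
    have := hJT j0 hj0 j0 hj0
    simpa using this
  have hT1 : 1 ≤ T := le_trans (one_le_pow₀ hY) hYT
  have hTε : 1 ≤ T ^ ε := Real.one_le_rpow hT1 hε.le
  have hGr : (1 : ℝ) ≤ G := by exact_mod_cast hG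
  have hY0 : 0 < Y := by linarith
  have hT00 : 0 < T := by linarith
  have hU0 : 0 < U := by linarith
  have hb1 : Am1 Y B b := ⟨hb.1.of_le (by norm_num), hb.2.1, hb.2.2.1, hb.2.2.2.1⟩
  obtain ⟨P1, hP1⟩ : ∃ P1 : ℝ, P1 = Y + Y ^ 2 / G := ⟨_, rfl⟩
  obtain ⟨P2, hP2⟩ : ∃ P2 : ℝ, P2 = Y ^ (5 / 2 : ℝ) * U ^ (1 / 2 : ℝ) / T + Y ^ 3 / T + Y ^ (6 / 5 : ℝ) / T ^ (1 / 5 : ℝ) := ⟨_, rfl⟩
  obtain ⟨P3, hP3⟩ : ∃ P3 : ℝ, P3 = Y ^ (11 / 6 : ℝ) * T₀ ^ (1 / 6 : ℝ) / T ^ (1 / 2 : ℝ) + Y ^ (7 / 6 : ℝ) / U ^ (1 / 6 : ℝ) := ⟨_, rfl⟩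
  have hP10 : 0 ≤ P1 := by rw [hP1]; positivity
  have hP20 : 0 ≤ P2 := by rw [hP2]; positivity
  have hP30 : 0 ≤ P3 := by rw [hP3]; positivity
  have hrb : rb T Y G U T₀ J.card = (J.card : ℝ) * P1 + (J.card : ℝ) ^ 2 * (P2 + P3) := by
    rw [hP1, hP2, hP3]
    unfold rb
    ring
  -- one parity class
  have key : ∀ K : Finset ℕ, K ⊆ J → (∀ j ∈ K, ∀ l ∈ K, ⌊(j : ℝ) * G / U⌋₊ % 2 = ⌊(l : ℝ) * G / U⌋₊ % 2) →
      ∑ ν ∈ near T Y, ‖∑ j ∈ K, c j * Mn b ((j : ℝ) * G) ν‖ ^ 2 ≤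
        (Ca + Cm) * T ^ ε * B ^ 2 * ((J.card : ℝ) * P1 + (J.card : ℝ) ^ 2 * (P2 + P3)) := by
    intro K hK hpar
    have hpos : ∀ j : ℕ, 0 ≤ (j : ℝ) * G := fun j => by positivity
    have h1 := xb5_split (near T Y) K (fun j ν => c j * Mn b ((j : ℝ) * G) ν) (fun j : ℕ => ⌊(j : ℝ) * G / U⌋₊) (Cm * B ^ 2 * P3)
      (fun j hj l hl hjl => by
        have h2 : U ≤ |(j : ℝ) * G - (l : ℝ) * G| := xb5_apart hU0 (hpos j) (hpos l) hjl (hpar j hj l hl)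
        have h3 := hJT j (hK hj) l (hK hl)
        have h4 : (j : ℝ) * G ≠ (l : ℝ) * G := by
          intro h5
          rw [h5, sub_self, abs_zero] at h2
          linarith
        have h5 := hsm Y hY B b hb1 T hYT _ _ (hJ j (hK hj)).1 (hJ j (hK hj)).2 (hJ l (hK hl)).1 (hJ l (hK hl)).2 h4
        have h6 : ∑ ν ∈ near T Y, (c j * Mn b ((j : ℝ) * G) ν) * (starRingEnd ℂ) (c l * Mn b ((l : ℝ) * G) ν) =
            (c j * (starRingEnd ℂ) (c l)) * ∑ ν ∈ near T Y, Mn b ((j : ℝ) * G) ν * (starRingEnd ℂ) (Mn b ((l : ℝ) * G) ν) := by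
          rw [Finset.mul_sum]
          refine Finset.sum_congr rfl fun ν _ => ?_
          rw [map_mul]
          ring
        show ‖∑ ν ∈ near T Y, (c j * Mn b ((j : ℝ) * G) ν) * (starRingEnd ℂ) (c l * Mn b ((l : ℝ) * G) ν)‖ ≤ _
        rw [h6, norm_mul, norm_mul, RCLike.norm_conj]
        have h7 : ‖c j‖ * ‖c l‖ ≤ 1 := mul_le_one₀ (hc j) (norm_nonneg _) (hc l)
        calc ‖c j‖ * ‖c l‖ * ‖∑ ν ∈ near T Y, Mn b ((j : ℝ) * G) ν * (starRingEnd ℂ) (Mn b ((l : ℝ) * G) ν)‖ ≤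
            1 * (Cm * B ^ 2 * tb T Y ((j : ℝ) * G - (l : ℝ) * G)) :=
              mul_le_mul h7 h5 (norm_nonneg _) zero_le_one
          _ = Cm * B ^ 2 * tb T Y ((j : ℝ) * G - (l : ℝ) * G) := one_mul _
          _ ≤ Cm * B ^ 2 * P3 := by
              refine mul_le_mul_of_nonneg_left ?_ (by positivity)
              rw [hP3]
              exact xb5_tb hY hT1 hU h2 h3) (by positivity)
    refine h1.trans ?_
    -- the diagonal blocks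
    have h2 : ∀ i ∈ K.image (fun j : ℕ => ⌊(j : ℝ) * G / U⌋₊),
        ∑ ν ∈ near T Y, ‖∑ j ∈ K.filter (fun j : ℕ => ⌊(j : ℝ) * G / U⌋₊ = i), c j * Mn b ((j : ℝ) * G) ν‖ ^ 2 ≤
          Ca * T ^ ε * B ^ 2 * (((K.filter (fun j : ℕ => ⌊(j : ℝ) * G / U⌋₊ = i)).card : ℝ) * (P1 + (J.card : ℝ) * P2)) := by
      intro i _
      have h3 := hxa Y hY T hYT B b hb G hG U hU0.le hUT (K.filter (fun j : ℕ => ⌊(j : ℝ) * G / U⌋₊ = i)) c hc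
        (fun j hj => hJ j (hK (Finset.mem_filter.1 hj).1))
        (fun j hj l hl => xb5_same hU0 (hpos j) (hpos l) ((Finset.mem_filter.1 hj).2.trans (Finset.mem_filter.1 hl).2.symm))
      rw [← hP1, ← hP2] at h3
      refine h3.trans (mul_le_mul_of_nonneg_left ?_ (by positivity))
      have h4 : (((K.filter (fun j : ℕ => ⌊(j : ℝ) * G / U⌋₊ = i)).card : ℕ) : ℝ) ≤ (J.card : ℝ) := by
        exact_mod_cast Finset.card_le_card ((Finset.filter_subset _ _).trans hK)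
      have h5 : (0 : ℝ) ≤ (((K.filter (fun j : ℕ => ⌊(j : ℝ) * G / U⌋₊ = i)).card : ℕ) : ℝ) := Nat.cast_nonneg _
      have h6 : (((K.filter (fun j : ℕ => ⌊(j : ℝ) * G / U⌋₊ = i)).card : ℕ) : ℝ) ^ 2 * P2 ≤
          (((K.filter (fun j : ℕ => ⌊(j : ℝ) * G / U⌋₊ = i)).card : ℕ) : ℝ) * ((J.card : ℝ) * P2) := by
        rw [pow_two, mul_assoc]
        exact mul_le_mul_of_nonneg_left (mul_le_mul_of_nonneg_right h4 hP20) h5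
      rw [mul_add]
      linarith
    have h3 : ∑ i ∈ K.image (fun j : ℕ => ⌊(j : ℝ) * G / U⌋₊), (((K.filter (fun j : ℕ => ⌊(j : ℝ) * G / U⌋₊ = i)).card : ℕ) : ℝ) = (K.card : ℝ) := by
      rw [← Nat.cast_sum, ← Finset.card_eq_sum_card_image]
    have h4 : (K.card : ℝ) ≤ J.card := by exact_mod_cast Finset.card_le_card hK
    have h5 : (0 : ℝ) ≤ K.card := Nat.cast_nonneg _
    calc _ ≤ ∑ i ∈ K.image (fun j : ℕ => ⌊(j : ℝ) * G / U⌋₊),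
          Ca * T ^ ε * B ^ 2 * (((K.filter (fun j : ℕ => ⌊(j : ℝ) * G / U⌋₊ = i)).card : ℝ) * (P1 + (J.card : ℝ) * P2)) +
          (K.card : ℝ) ^ 2 * (Cm * B ^ 2 * P3) := add_le_add_left (Finset.sum_le_sum h2) _
      _ = Ca * T ^ ε * B ^ 2 * ((K.card : ℝ) * (P1 + (J.card : ℝ) * P2)) + (K.card : ℝ) ^ 2 * (Cm * B ^ 2 * P3) := by
          rw [← Finset.mul_sum, ← Finset.sum_mul, h3]
      _ ≤ Ca * T ^ ε * B ^ 2 * ((J.card : ℝ) * (P1 + (J.card : ℝ) * P2)) + (J.card : ℝ) ^ 2 * (Cm * (T ^ ε * B ^ 2) * P3) := by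
          have h6 : B ^ 2 ≤ T ^ ε * B ^ 2 := le_mul_of_one_le_left (sq_nonneg _) hTε
          gcongr
      _ ≤ (Ca + Cm) * T ^ ε * B ^ 2 * ((J.card : ℝ) * P1 + (J.card : ℝ) ^ 2 * (P2 + P3)) := by
          have h6 : 0 ≤ T ^ ε * B ^ 2 := by positivity
          have h7 : 0 ≤ Ca * (T ^ ε * B ^ 2) * ((J.card : ℝ) ^ 2 * P3) := by positivity
          have h8 : 0 ≤ Cm * (T ^ ε * B ^ 2) * ((J.card : ℝ) * P1 + (J.card : ℝ) ^ 2 * P2) := by positivity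
          nlinarith
  -- the two parity classes
  have h0 := key (J.filter fun j : ℕ => ⌊(j : ℝ) * G / U⌋₊ % 2 = 0) (Finset.filter_subset _ _)
    (fun j hj l hl => (Finset.mem_filter.1 hj).2.trans (Finset.mem_filter.1 hl).2.symm)
  have h1 := key (J.filter fun j : ℕ => ¬ ⌊(j : ℝ) * G / U⌋₊ % 2 = 0) (Finset.filter_subset _ _)
    (fun j hj l hl => by
      have h2 := (Finset.mem_filter.1 hj).2
      have h3 := (Finset.mem_filter.1 hl).2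
      omega)
  have h2 : ∑ ν ∈ near T Y, ‖∑ j ∈ J, c j * Mn b ((j : ℝ) * G) ν‖ ^ 2 ≤
      ∑ ν ∈ near T Y, (2 * ‖∑ j ∈ J.filter (fun j : ℕ => ⌊(j : ℝ) * G / U⌋₊ % 2 = 0), c j * Mn b ((j : ℝ) * G) ν‖ ^ 2 +
        2 * ‖∑ j ∈ J.filter (fun j : ℕ => ¬ ⌊(j : ℝ) * G / U⌋₊ % 2 = 0), c j * Mn b ((j : ℝ) * G) ν‖ ^ 2) := by
    refine Finset.sum_le_sum fun ν _ => ?_
    rw [← Finset.sum_filter_add_sum_filter_not J (fun j : ℕ => ⌊(j : ℝ) * G / U⌋₊ % 2 = 0)]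
    have h3 := norm_add_le (∑ j ∈ J.filter (fun j : ℕ => ⌊(j : ℝ) * G / U⌋₊ % 2 = 0), c j * Mn b ((j : ℝ) * G) ν)
      (∑ j ∈ J.filter (fun j : ℕ => ¬ ⌊(j : ℝ) * G / U⌋₊ % 2 = 0), c j * Mn b ((j : ℝ) * G) ν)
    have h4 := pow_le_pow_left₀ (norm_nonneg _) h3 2
    refine h4.trans ?_
    nlinarith [sq_nonneg (‖∑ j ∈ J.filter (fun j : ℕ => ⌊(j : ℝ) * G / U⌋₊ % 2 = 0), c j * Mn b ((j : ℝ) * G) ν‖ -
      ‖∑ j ∈ J.filter (fun j : ℕ => ¬ ⌊(j : ℝ) * G / U⌋₊ % 2 = 0), c j * Mn b ((j : ℝ) * G) ν‖)]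
  rw [Finset.sum_add_distrib, ← Finset.mul_sum, ← Finset.mul_sum] at h2
  rw [hrb]
  linarith

end Pool.Agent.Lib.TW
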